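import Mathlib

set_option autoImplicit false

/-!
# An abstract lemma on graphs whose edges have three colours
-/

namespace Pool.Agent.H57.Stall

variable {N K : Type}

/-- `x` is an end of the edge `k`. -/
def At (a b : K → N) (k : K) (x : N) : Prop := a k = x ∨ b k = x

/-- `x` and `y` are different nodes of the graph formed by the edges of colour `≠ i`, and they
cannot be separated in it by removing two other nodes. -/
def InsepA (a b : K → N) (col : K → Fin 3) (i : Fin 3) (x y : N) : Prop :=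
  x ≠ y ∧ (∃ k, col k ≠ i ∧ At a b k x) ∧ (∃ k, col k ≠ i ∧ At a b k y) ∧
  ∀ B : Finset N, B.card ≤ 2 → x ∉ B → y ∉ B → ∀ χ : N → Prop,
    (∀ k, col k ≠ i → a k ∉ B → b k ∉ B → χ (a k) = χ (b k)) → χ x = χ y

/-- `x` is incident with an edge of colour `c`. -/
def InG (a b : K → N) (col : K → Fin 3) (c : Fin 3) (x : N) : Prop := ∃ k, col k = c ∧ At a b k x

theorem ap_third (c : Fin 3) : ∃ i d : Fin 3, c ≠ i ∧ d ≠ c ∧ d ≠ i ∧
    ∀ e : Fin 3, e ≠ i → e ≠ c → e = d := by
  revert c; decide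

theorem ap_ina {a b : K → N} {col : K → Fin 3} {c : Fin 3} {k : K} (h : col k = c) :
    InG a b col c (a k) := ⟨k, h, Or.inl rfl⟩

theorem ap_inb {a b : K → N} {col : K → Fin 3} {c : Fin 3} {k : K} (h : col k = c) :
    InG a b col c (b k) := ⟨k, h, Or.inr rfl⟩

/-- A node incident with two colours is special. -/
theorem ap_mono {a b : K → N} {col : K → Fin 3} {z z' : N}
    (mono : ∀ k k', col k ≠ col k' → ∀ x, At a b k x → At a b k' x → x = z ∨ x = z')
    {c d : Fin 3} (hcd : c ≠ d) {x : N} (h : InG a b col c x) (h' : InG a b col d x) :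
    x = z ∨ x = z' := by
  obtain ⟨k, hk, hkx⟩ := h
  obtain ⟨k', hk', hkx'⟩ := h'
  exact mono k k' (by rw [hk, hk']; exact hcd) x hkx hkx'

/-- The special nodes are incident with every colour. -/
theorem ap_special {a b : K → N} {col : K → Fin 3} {z z' : N}
    (mono : ∀ k k', col k ≠ col k' → ∀ x, At a b k x → At a b k' x → x = z ∨ x = z')
    (nc : ∀ (i : Fin 3) (A : Set K), (∃ k, k ∈ A ∧ col k ≠ i) → (∃ k, k ∉ A ∧ col k ≠ i) →
      ∃ x y, x ≠ y ∧
        (∃ k, k ∈ A ∧ col k ≠ i ∧ At a b k x) ∧ (∃ k, k ∉ A ∧ col k ≠ i ∧ At a b k x) ∧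
        (∃ k, k ∈ A ∧ col k ≠ i ∧ At a b k y) ∧ (∃ k, k ∉ A ∧ col k ≠ i ∧ At a b k y))
    (hcol : ∀ i, ∃ k, col k = i) (c : Fin 3) :
    InG a b col c z ∧ InG a b col c z' := by
  obtain ⟨i, d, hci, hdc, hdi, -⟩ := ap_third c
  obtain ⟨k0, hk0⟩ := hcol c
  obtain ⟨k1, hk1⟩ := hcol d
  obtain ⟨x, y, hxy, ⟨k, h1, h2, h3⟩, ⟨k', h4, h5, h6⟩, ⟨l, g1, g2, g3⟩, ⟨l', g4, g5, g6⟩⟩ :=
    nc i {k | col k = c} ⟨k0, hk0, by rw [hk0]; exact hci⟩
      ⟨k1, by simp only [Set.mem_ofPred_eq, hk1]; exact hdc, by rw [hk1]; exact hdi⟩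
  simp only [Set.mem_ofPred_eq] at h1 h4 g1 g4
  have e1 : x = z ∨ x = z' := mono k k' (by rw [h1]; exact Ne.symm h4) x h3 h6
  have e2 : y = z ∨ y = z' := mono l l' (by rw [g1]; exact Ne.symm g4) y g3 g6
  have f1 : InG a b col c x := ⟨k, h1, h3⟩
  have f2 : InG a b col c y := ⟨l, g1, g3⟩
  rcases e1 with rfl | rfl
  · rcases e2 with rfl | rfl
    · exact absurd rfl hxy
    · exact ⟨f1, f2⟩
  · rcases e2 with rfl | rfl
    · exact ⟨f2, f1⟩
    · exact absurd rfl hxy

/-- A colouring of the nodes constant along the edges of colour `c` has the same value at the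
special nodes. -/
theorem ap_F1 {a b : K → N} {col : K → Fin 3} {z z' : N}
    (mono : ∀ k k', col k ≠ col k' → ∀ x, At a b k x → At a b k' x → x = z ∨ x = z')
    (nc : ∀ (i : Fin 3) (A : Set K), (∃ k, k ∈ A ∧ col k ≠ i) → (∃ k, k ∉ A ∧ col k ≠ i) →
      ∃ x y, x ≠ y ∧
        (∃ k, k ∈ A ∧ col k ≠ i ∧ At a b k x) ∧ (∃ k, k ∉ A ∧ col k ≠ i ∧ At a b k x) ∧
        (∃ k, k ∈ A ∧ col k ≠ i ∧ At a b k y) ∧ (∃ k, k ∉ A ∧ col k ≠ i ∧ At a b k y))
    (hcol : ∀ i, ∃ k, col k = i) (c : Fin 3) (χ : N → Prop)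
    (hχ : ∀ k, col k = c → χ (a k) = χ (b k)) : χ z = χ z' := by
  obtain ⟨i, d, hci, hdc, hdi, -⟩ := ap_third c
  obtain ⟨⟨k0, hk0, hk0z⟩, -⟩ := ap_special mono nc hcol c
  obtain ⟨k1, hk1⟩ := hcol d
  have val : ∀ k, col k = c → ∀ x, At a b k x → χ (a k) = χ x := by
    intro k hk x hx
    rcases hx with rfl | rfl
    · rfl
    · exact hχ k hk
  obtain ⟨x, y, hxy, ⟨k, ⟨h1, h1'⟩, h2, h3⟩, ⟨k', h4, h5, h6⟩, ⟨l, ⟨g1, g1'⟩, g2, g3⟩,
      ⟨l', g4, g5, g6⟩⟩ :=
    nc i {k | col k = c ∧ χ (a k) = χ z} ⟨k0, ⟨hk0, val k0 hk0 z hk0z⟩, by rw [hk0]; exact hci⟩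
      ⟨k1, fun h => hdc (hk1.symm.trans h.1), by rw [hk1]; exact hdi⟩
  have e : ∀ k, col k = c → χ (a k) = χ z → ∀ x, At a b k x → ∀ k',
      k' ∉ {k | col k = c ∧ χ (a k) = χ z} → At a b k' x → (x = z ∨ x = z') ∧ χ x = χ z := by
    intro k h1 h1' x h3 k' h4 h6
    have h7 : χ x = χ z := (val k h1 x h3).symm.trans h1'
    refine ⟨?_, h7⟩
    by_cases hc : col k' = c
    · exact absurd ⟨hc, (val k' hc x h6).trans h7⟩ h4
    · exact mono k k' (by rw [h1]; exact Ne.symm hc) x h3 h6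
  obtain ⟨e1, e1'⟩ := e k h1 h1' x h3 k' h4 h6
  obtain ⟨e2, e2'⟩ := e l g1 g1' y g3 l' g4 g6
  rcases e1 with rfl | rfl
  · rcases e2 with rfl | rfl
    · exact absurd rfl hxy
    · exact e2'.symm
  · exact e1'.symm

/-- The case of two nodes of `G r`, not both special: if they are inseparable in the graph
`G q + G r`, they are inseparable in `G p + G r`. -/
theorem ap_caseA {a b : K → N} {col : K → Fin 3} {z z' : N} (hz : z ≠ z')
    (mono : ∀ k k', col k ≠ col k' → ∀ x, At a b k x → At a b k' x → x = z ∨ x = z')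
    (nc : ∀ (i : Fin 3) (A : Set K), (∃ k, k ∈ A ∧ col k ≠ i) → (∃ k, k ∉ A ∧ col k ≠ i) →
      ∃ x y, x ≠ y ∧
        (∃ k, k ∈ A ∧ col k ≠ i ∧ At a b k x) ∧ (∃ k, k ∉ A ∧ col k ≠ i ∧ At a b k x) ∧
        (∃ k, k ∈ A ∧ col k ≠ i ∧ At a b k y) ∧ (∃ k, k ∉ A ∧ col k ≠ i ∧ At a b k y))
    (hcol : ∀ i, ∃ k, col k = i) (p q r : Fin 3) (hpq : p ≠ q) (hpr : p ≠ r) (hqr : q ≠ r)
    (hall : ∀ e : Fin 3, e ≠ p → e = q ∨ e = r)
    {x y : N} (hx : InG a b col r x) (hy : InG a b col r y)
    (hns : ¬ ((x = z ∨ x = z') ∧ (y = z ∨ y = z')))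
    (h : InsepA a b col p x y) : InsepA a b col q x y := by
  classical
  obtain ⟨hxy, -, -, hsep⟩ := h
  refine ⟨hxy, ?_, ?_, ?_⟩
  · obtain ⟨k, h1, h2⟩ := hx
    exact ⟨k, by rw [h1]; exact hqr.symm, h2⟩
  · obtain ⟨k, h1, h2⟩ := hy
    exact ⟨k, by rw [h1]; exact hqr.symm, h2⟩
  intro B hB hxB hyB χ hχ
  by_cases hA2 : ∃ n, n ∈ B ∧ InG a b col p n ∧ n ≠ z ∧ n ≠ z'
  · obtain ⟨n, hnB, hnp, hnz, hnz'⟩ := hA2
    -- choose the special node to be removed
    have key : ∀ s t : N, (∀ m, m = z ∨ m = z' → m = s ∨ m = t) → x ≠ t → y ≠ t →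
        χ x = χ y := by
      intro s t hst hxt hyt
      have h1 := hsep (insert t (B.erase n))
        ((Finset.card_insert_le _ _).trans (by
          rw [Finset.card_erase_of_mem hnB]; have := Finset.card_pos.2 ⟨n, hnB⟩; omega))
        (by simp only [Finset.mem_insert, Finset.mem_erase, not_or, not_and]
            exact ⟨hxt, fun _ => hxB⟩)
        (by simp only [Finset.mem_insert, Finset.mem_erase, not_or, not_and]
            exact ⟨hyt, fun _ => hyB⟩)
        (fun m => if InG a b col r m then χ m else χ s) ?_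
      · simp only [hx, hy, if_true] at h1
        exact h1
      · intro k hk hak hbk
        simp only [Finset.mem_insert, Finset.mem_erase, not_or, not_and] at hak hbk
        rcases hall _ hk with hc | hc
        · -- colour q
          have val : ∀ m, InG a b col q m → m ≠ t →
              (if InG a b col r m then χ m else χ s) = χ s := by
            intro m hm hmt
            by_cases hmr : InG a b col r m
            · rw [if_pos hmr]
              rcases hst m (ap_mono mono hqr hm hmr) with rfl | rfl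
              · rfl
              · exact absurd rfl hmt
            · rw [if_neg hmr]
          show (if InG a b col r (a k) then χ (a k) else χ s) =
            (if InG a b col r (b k) then χ (b k) else χ s)
          rw [val _ (ap_ina hc) hak.1, val _ (ap_inb hc) hbk.1]
        · -- colour r
          have hna : ∀ m, InG a b col r m → m ≠ n := by
            rintro m hm rfl
            rcases ap_mono mono hpr hnp hm with h | h
            · exact hnz h
            · exact hnz' h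
          show (if InG a b col r (a k) then χ (a k) else χ s) =
            (if InG a b col r (b k) then χ (b k) else χ s)
          rw [if_pos (ap_ina hc), if_pos (ap_inb hc)]
          exact hχ k (by rw [hc]; exact hqr.symm) (hak.2 (hna _ (ap_ina hc)))
            (hbk.2 (hna _ (ap_inb hc)))
    by_cases hz1 : x = z' ∨ y = z'
    · apply key z' z (fun m hm => hm.symm)
      · intro hxz
        rcases hz1 with h | h
        · exact hz (hxz.symm.trans h)
        · exact hns ⟨Or.inl hxz, Or.inr h⟩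
      · intro hyz
        rcases hz1 with h | h
        · exact hns ⟨Or.inr h, Or.inl hyz⟩
        · exact hz (hyz.symm.trans h)
    · rw [not_or] at hz1
      exact key z z' (fun m hm => hm) hz1.1 hz1.2
  · have hA1 : ∀ n, n ∈ B → InG a b col p n → n = z ∨ n = z' := by
      intro n hn hnp
      by_contra hcon
      rw [not_or] at hcon
      exact hA2 ⟨n, hn, hnp, hcon.1, hcon.2⟩
    -- the value on the nodes outside `G r`
    have hc : ∃ c : Prop, ∀ m, (m = z ∨ m = z') → m ∉ B → χ m = c := by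
      by_cases hzB : z ∈ B
      · refine ⟨χ z', ?_⟩
        rintro m (rfl | rfl) hm
        · exact absurd hzB hm
        · rfl
      · refine ⟨χ z, ?_⟩
        rintro m (rfl | rfl) hm
        · rfl
        · refine (ap_F1 mono nc hcol p χ ?_).symm
          intro k hk
          refine hχ k (by rw [hk]; exact hpq) ?_ ?_
          · intro hkB
            rcases hA1 _ hkB (ap_ina hk) with h | h
            · exact hzB (h ▸ hkB)
            · exact hm (h ▸ hkB)
          · intro hkB
            rcases hA1 _ hkB (ap_inb hk) with h | h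
            · exact hzB (h ▸ hkB)
            · exact hm (h ▸ hkB)
    obtain ⟨c, hc⟩ := hc
    have h1 := hsep B hB hxB hyB (fun m => if InG a b col r m then χ m else c) ?_
    · simp only [hx, hy, if_true] at h1
      exact h1
    · intro k hk hak hbk
      show (if InG a b col r (a k) then χ (a k) else c) =
        (if InG a b col r (b k) then χ (b k) else c)
      rcases hall _ hk with hcq | hcr
      · have val : ∀ m, InG a b col q m → m ∉ B →
            (if InG a b col r m then χ m else c) = c := by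
          intro m hm hmB
          by_cases hmr : InG a b col r m
          · rw [if_pos hmr]
            exact hc m (ap_mono mono hqr hm hmr) hmB
          · rw [if_neg hmr]
        rw [val _ (ap_ina hcq) hak, val _ (ap_inb hcq) hbk]
      · rw [if_pos (ap_ina hcr), if_pos (ap_inb hcr)]
        exact hχ k (by rw [hcr]; exact hqr.symm) hak hbk

/-- A separating pair of the special nodes in `G p + G r` gives a node separating them
in `G r`. -/
theorem ap_caseS {a b : K → N} {col : K → Fin 3} {z z' : N}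
    (mono : ∀ k k', col k ≠ col k' → ∀ x, At a b k x → At a b k' x → x = z ∨ x = z')
    (nc : ∀ (i : Fin 3) (A : Set K), (∃ k, k ∈ A ∧ col k ≠ i) → (∃ k, k ∉ A ∧ col k ≠ i) →
      ∃ x y, x ≠ y ∧
        (∃ k, k ∈ A ∧ col k ≠ i ∧ At a b k x) ∧ (∃ k, k ∉ A ∧ col k ≠ i ∧ At a b k x) ∧
        (∃ k, k ∈ A ∧ col k ≠ i ∧ At a b k y) ∧ (∃ k, k ∉ A ∧ col k ≠ i ∧ At a b k y))
    (hcol : ∀ i, ∃ k, col k = i) (p q r : Fin 3) (hpq : p ≠ q) (hpr : p ≠ r) (hqr : q ≠ r)
    (B : Finset N) (hB : B.card ≤ 2) (hzB : z ∉ B) (hzB' : z' ∉ B) (χ : N → Prop)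
    (hχ : ∀ k, col k ≠ q → a k ∉ B → b k ∉ B → χ (a k) = χ (b k)) (hne : χ z ≠ χ z') :
    ∃ n, n ≠ z ∧ n ≠ z' ∧ ∀ k, col k = r → a k ≠ n → b k ≠ n → χ (a k) = χ (b k) := by
  classical
  have hmeet : ∀ c, c ≠ q → ∃ n, n ∈ B ∧ InG a b col c n := by
    intro c hc
    by_contra hcon
    push Not at hcon
    refine hne (ap_F1 mono nc hcol c χ ?_)
    intro k hk
    exact hχ k (by rw [hk]; exact hc) (fun h => hcon _ h (ap_ina hk))
      (fun h => hcon _ h (ap_inb hk))
  obtain ⟨n, hnB, hn⟩ := hmeet r hqr.symm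
  obtain ⟨m, hmB, hm⟩ := hmeet p hpq
  have hnz : n ≠ z := fun h => hzB (h ▸ hnB)
  have hnz' : n ≠ z' := fun h => hzB' (h ▸ hnB)
  have hmz : m ≠ z := fun h => hzB (h ▸ hmB)
  have hmz' : m ≠ z' := fun h => hzB' (h ▸ hmB)
  refine ⟨n, hnz, hnz', ?_⟩
  have hout : ∀ x, InG a b col r x → x ≠ n → x ∉ B := by
    intro x hx hxn hxB
    have hxm : x ≠ m := by
      rintro rfl
      rcases ap_mono mono hpr hm hx with h | h
      · exact hmz h
      · exact hmz' h
    have hnm : n ≠ m := by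
      rintro rfl
      rcases ap_mono mono hpr hm hn with h | h
      · exact hmz h
      · exact hmz' h
    have h3 : ({x, n, m} : Finset N) ⊆ B := by
      intro w hw
      simp only [Finset.mem_insert, Finset.mem_singleton] at hw
      rcases hw with rfl | rfl | rfl
      · exact hxB
      · exact hnB
      · exact hmB
    have h4 := Finset.card_le_card h3
    rw [Finset.card_eq_three.2 ⟨x, n, m, hxn, hxm, hnm, rfl⟩] at h4
    omega
  intro k hk h1 h2
  exact hχ k (by rw [hk]; exact hqr.symm) (hout _ (ap_ina hk) h1) (hout _ (ap_inb hk) h2)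

theorem ap_pr1 (p q r s : Prop) (h1 : r = p) (h2 : p ≠ q) (h3 : r ≠ s) : s = q := by
  subst h1
  simp only [ne_eq, eq_iff_iff] at *
  tauto

theorem ap_pr2 (p q r s : Prop) (h1 : ¬ (r = p)) (h2 : p ≠ q) (h3 : r ≠ s) :
    (¬ r) = p ∧ (¬ s) = q := by
  simp only [ne_eq, eq_iff_iff] at *
  tauto

theorem abstract_persist (a b : K → N) (col : K → Fin 3) (z z' : N) (hz : z ≠ z')
    (mono : ∀ k k', col k ≠ col k' → ∀ x, At a b k x → At a b k' x → x = z ∨ x = z')
    (nc : ∀ (i : Fin 3) (A : Set K), (∃ k, k ∈ A ∧ col k ≠ i) → (∃ k, k ∉ A ∧ col k ≠ i) →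
      ∃ x y, x ≠ y ∧
        (∃ k, k ∈ A ∧ col k ≠ i ∧ At a b k x) ∧ (∃ k, k ∉ A ∧ col k ≠ i ∧ At a b k x) ∧
        (∃ k, k ∈ A ∧ col k ≠ i ∧ At a b k y) ∧ (∃ k, k ∉ A ∧ col k ≠ i ∧ At a b k y))
    (hcol : ∀ i, ∃ k, col k = i) (x y : N) (h : InsepA a b col 0 x y) :
    InsepA a b col 1 x y ∨ InsepA a b col 2 x y := by
  classical
  have hall0 : ∀ e : Fin 3, e ≠ 0 → e = 1 ∨ e = 2 := by decide
  obtain ⟨hxy, hx0, hy0, hsep⟩ := id h
  have hV : ∀ w, (∃ k, col k ≠ 0 ∧ At a b k w) → InG a b col 1 w ∨ InG a b col 2 w := by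
    rintro w ⟨k, hk, hw⟩
    rcases hall0 _ hk with h | h
    · exact Or.inl ⟨k, h, hw⟩
    · exact Or.inr ⟨k, h, hw⟩
  -- no pair split between `G 1` and `G 2`
  have split : ∀ u v, InG a b col 1 u → ¬ InG a b col 2 u → ¬ InG a b col 1 v →
      (∀ B : Finset N, B.card ≤ 2 → u ∉ B → v ∉ B → ∀ χ : N → Prop,
        (∀ k, col k ≠ 0 → a k ∉ B → b k ∉ B → χ (a k) = χ (b k)) → χ u = χ v) → False := by
    intro u v hu1 hu2 hv1 hs
    have huz : ∀ s, (s = z ∨ s = z') → u ≠ s := by
      rintro s (rfl | rfl) rfl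
      · exact hu2 (ap_special mono nc hcol 2).1
      · exact hu2 (ap_special mono nc hcol 2).2
    have hvz : ∀ s, (s = z ∨ s = z') → v ≠ s := by
      rintro s (rfl | rfl) rfl
      · exact hv1 (ap_special mono nc hcol 1).1
      · exact hv1 (ap_special mono nc hcol 1).2
    have h1 := hs {z, z'} Finset.card_le_two
      (by simp only [Finset.mem_insert, Finset.mem_singleton, not_or]
          exact ⟨huz z (Or.inl rfl), huz z' (Or.inr rfl)⟩)
      (by simp only [Finset.mem_insert, Finset.mem_singleton, not_or]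
          exact ⟨hvz z (Or.inl rfl), hvz z' (Or.inr rfl)⟩)
      (fun m => InG a b col 1 m) ?_
    · have h2 : InG a b col 1 u = InG a b col 1 v := h1
      exact hv1 (h2 ▸ hu1)
    · intro k hk hak hbk
      simp only [Finset.mem_insert, Finset.mem_singleton] at hak hbk
      show InG a b col 1 (a k) = InG a b col 1 (b k)
      rcases hall0 _ hk with hc | hc
      · exact propext ⟨fun _ => ap_inb hc, fun _ => ap_ina hc⟩
      · refine propext ⟨fun h => ?_, fun h => ?_⟩
        · exact absurd (ap_mono mono (by decide) h (ap_ina hc)) hak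
        · exact absurd (ap_mono mono (by decide) h (ap_inb hc)) hbk
  by_cases hsp : (x = z ∨ x = z') ∧ (y = z ∨ y = z')
  · -- both nodes are special
    by_contra hcon
    rw [not_or] at hcon
    obtain ⟨hn1, hn2⟩ := hcon
    -- a separation for x, y is one for z, z'
    have conv : ∀ χ : N → Prop, χ x ≠ χ y → χ z ≠ χ z' := by
      intro χ hne
      obtain ⟨h1, h2⟩ := hsp
      rcases h1 with rfl | rfl
      · rcases h2 with rfl | rfl
        · exact absurd rfl hxy
        · exact hne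
      · rcases h2 with rfl | rfl
        · exact hne.symm
        · exact absurd rfl hxy
    have convB : ∀ B : Finset N, x ∉ B → y ∉ B → z ∉ B ∧ z' ∉ B := by
      intro B hxB hyB
      obtain ⟨h1, h2⟩ := hsp
      rcases h1 with rfl | rfl
      · rcases h2 with rfl | rfl
        · exact absurd rfl hxy
        · exact ⟨hxB, hyB⟩
      · rcases h2 with rfl | rfl
        · exact ⟨hyB, hxB⟩
        · exact absurd rfl hxy
    have hAt : ∀ (c i : Fin 3), c ≠ i → (∃ k, col k ≠ i ∧ At a b k x) ∧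
        (∃ k, col k ≠ i ∧ At a b k y) := by
      intro c i hci
      have : ∀ w, (w = z ∨ w = z') → ∃ k, col k ≠ i ∧ At a b k w := by
        rintro w (rfl | rfl)
        · obtain ⟨k, h1, h2⟩ := (ap_special mono nc hcol c).1
          exact ⟨k, by rw [h1]; exact hci, h2⟩
        · obtain ⟨k, h1, h2⟩ := (ap_special mono nc hcol c).2
          exact ⟨k, by rw [h1]; exact hci, h2⟩
      exact ⟨this x hsp.1, this y hsp.2⟩
    have ex1 : ∃ B : Finset N, B.card ≤ 2 ∧ x ∉ B ∧ y ∉ B ∧ ∃ χ : N → Prop,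
        (∀ k, col k ≠ 1 → a k ∉ B → b k ∉ B → χ (a k) = χ (b k)) ∧ χ x ≠ χ y := by
      by_contra hcon
      push Not at hcon
      exact hn1 ⟨hxy, (hAt 0 1 (by decide)).1, (hAt 0 1 (by decide)).2,
        fun B h1 h2 h3 χ h4 => hcon B h1 h2 h3 χ h4⟩
    have ex2 : ∃ B : Finset N, B.card ≤ 2 ∧ x ∉ B ∧ y ∉ B ∧ ∃ χ : N → Prop,
        (∀ k, col k ≠ 2 → a k ∉ B → b k ∉ B → χ (a k) = χ (b k)) ∧ χ x ≠ χ y := by
      by_contra hcon
      push Not at hcon
      exact hn2 ⟨hxy, (hAt 0 2 (by decide)).1, (hAt 0 2 (by decide)).2,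
        fun B h1 h2 h3 χ h4 => hcon B h1 h2 h3 χ h4⟩
    obtain ⟨B1, c1, d1, e1, χ1, f1, g1⟩ := ex1
    obtain ⟨B2, c2, d2, e2, χ2, f2, g2⟩ := ex2
    have i1 := convB B1 d1 e1
    have i2 := convB B2 d2 e2
    obtain ⟨n1, hn1z, hn1z', hn1χ⟩ := ap_caseS mono nc hcol 0 1 2 (by decide) (by decide)
      (by decide) B1 c1 i1.1 i1.2 χ1 f1 (conv χ1 g1)
    obtain ⟨n2, hn2z, hn2z', hn2χ⟩ := ap_caseS mono nc hcol 0 2 1 (by decide) (by decide)
      (by decide) B2 c2 i2.1 i2.2 χ2 f2 (conv χ2 g2)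
    have j1 := conv χ1 g1
    have j2 := conv χ2 g2
    -- make the two colourings agree at `z` and `z'`
    have glue : ∃ χ3 : N → Prop, χ3 z = χ1 z ∧ χ3 z' = χ1 z' ∧
        ∀ k, col k = 1 → a k ≠ n2 → b k ≠ n2 → χ3 (a k) = χ3 (b k) := by
      by_cases hzz : χ2 z = χ1 z
      · exact ⟨χ2, hzz, ap_pr1 _ _ _ _ hzz j1 j2, hn2χ⟩
      · refine ⟨fun m => ¬ χ2 m, (ap_pr2 _ _ _ _ hzz j1 j2).1, (ap_pr2 _ _ _ _ hzz j1 j2).2, ?_⟩
        intro k hk h1 h2
        show (¬ χ2 (a k)) = (¬ χ2 (b k))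
        rw [hn2χ k hk h1 h2]
    obtain ⟨χ3, k1, k2, k3⟩ := glue
    have hfin : ∀ χ : N → Prop, χ z = χ1 z → χ z' = χ1 z' → χ x ≠ χ y := by
      intro χ h1 h2
      obtain ⟨h3, h4⟩ := hsp
      rcases h3 with rfl | rfl
      · rcases h4 with rfl | rfl
        · exact absurd rfl hxy
        · rw [h1, h2]; exact j1
      · rcases h4 with rfl | rfl
        · rw [h1, h2]; exact j1.symm
        · exact absurd rfl hxy
    have hz1 : (if InG a b col 1 z then χ3 z else χ1 z) = χ1 z := by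
      rw [if_pos (ap_special mono nc hcol 1).1, k1]
    have hz1' : (if InG a b col 1 z' then χ3 z' else χ1 z') = χ1 z' := by
      rw [if_pos (ap_special mono nc hcol 1).2, k2]
    refine hfin (fun m => if InG a b col 1 m then χ3 m else χ1 m) hz1 hz1' ?_
    have hnot : ∀ n, n ≠ z → n ≠ z' → ∀ w, (w = z ∨ w = z') → w ≠ n := by
      rintro n h1 h2 w (rfl | rfl)
      · exact h1.symm
      · exact h2.symm
    refine hsep {n1, n2} Finset.card_le_two ?_ ?_
      (fun m => if InG a b col 1 m then χ3 m else χ1 m) ?_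
    · simp only [Finset.mem_insert, Finset.mem_singleton, not_or]
      exact ⟨hnot n1 hn1z hn1z' x hsp.1, hnot n2 hn2z hn2z' x hsp.1⟩
    · simp only [Finset.mem_insert, Finset.mem_singleton, not_or]
      exact ⟨hnot n1 hn1z hn1z' y hsp.2, hnot n2 hn2z hn2z' y hsp.2⟩
    · intro k hk hak hbk
      simp only [Finset.mem_insert, Finset.mem_singleton, not_or] at hak hbk
      show (if InG a b col 1 (a k) then χ3 (a k) else χ1 (a k)) =
        (if InG a b col 1 (b k) then χ3 (b k) else χ1 (b k))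
      rcases hall0 _ hk with hc | hc
      · rw [if_pos (ap_ina hc), if_pos (ap_inb hc)]
        exact k3 k hc hak.2 hbk.2
      · have val : ∀ m, InG a b col 2 m → (if InG a b col 1 m then χ3 m else χ1 m) = χ1 m := by
          intro m hm
          by_cases hm1 : InG a b col 1 m
          · rw [if_pos hm1]
            rcases ap_mono mono (by decide) hm1 hm with rfl | rfl
            · exact k1
            · exact k2
          · rw [if_neg hm1]
        rw [val _ (ap_ina hc), val _ (ap_inb hc)]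
        exact hn1χ k hc hak.1 hbk.1
  · by_cases hx2 : InG a b col 2 x
    · by_cases hy2 : InG a b col 2 y
      · exact Or.inl (ap_caseA hz mono nc hcol 0 1 2 (by decide) (by decide) (by decide) hall0
          hx2 hy2 hsp h)
      · have hy1 : InG a b col 1 y := (hV y hy0).resolve_right hy2
        by_cases hx1 : InG a b col 1 x
        · exact Or.inr (ap_caseA hz mono nc hcol 0 2 1 (by decide) (by decide) (by decide)
            (fun e he => (hall0 e he).symm) hx1 hy1 hsp h)
        · exact (split y x hy1 hy2 hx1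
            (fun B h1 h2 h3 χ h4 => (hsep B h1 h3 h2 χ h4).symm)).elim
    · have hx1 : InG a b col 1 x := (hV x hx0).resolve_right hx2
      by_cases hy1 : InG a b col 1 y
      · exact Or.inr (ap_caseA hz mono nc hcol 0 2 1 (by decide) (by decide) (by decide)
            (fun e he => (hall0 e he).symm) hx1 hy1 hsp h)
      · exact (split x y hx1 hx2 hy1 hsep).elim

end Pool.Agent.H57.Stall
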