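import Mathlib

set_option autoImplicit false

/-!
# Basic definitions

Everything is encoded by a finite set `H` of darts (the letters of the cyclic boundary words), a
permutation `φ` of `H` (the next letter), a finite set `Q` of oriented edges of a graph `Γ` with
reversal `bq`, the map `γ : H → Q`, a set `E` of oriented edges of a graph `T` with reversal `be`
and the map `ε : Q → E`.  The origin of an oriented edge is encoded by the relation `Vrel`.
-/

namespace Pool.Agent.H57.Stall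

open Equiv

/-- The number of cycles of a permutation (fixed points included). -/
noncomputable def ncyc {H : Type} (σ : Perm H) : ℕ :=
  Nat.card (Quotient (Perm.SameCycle.setoid σ))

/-- The product of the labels along the cycle of `φ` starting at `h`. -/
noncomputable def cprod {H G : Type} [Group G] (φ : Perm H) (l : H → G) (h : H) : G :=
  ((List.range (Function.minimalPeriod φ h)).map fun i => l ((φ ^ i) h)).prod

/-- `L` is a list of representatives of the cycles of `φ`. -/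
def IsReps {H : Type} (φ : Perm H) (L : List H) : Prop :=
  L.Nodup ∧ ∀ h, ∃! x, x ∈ L ∧ φ.SameCycle x h

/-- The identity is a product of conjugates of the cycle products of `φ`, one for each cycle. -/
def Dep {H G : Type} [Group G] (φ : Perm H) (l : H → G) : Prop :=
  ∃ (L : List H) (c : H → G), IsReps φ L ∧
    (L.map fun x => c x * cprod φ l x * (c x)⁻¹).prod = 1

/-- `Dep` for all labellings of the edges by elements of a group. -/
def DepAll {H E : Type} (φ : Perm H) (be : E → E) (w : H → E) : Prop :=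
  ∀ (G : Type) [Group G] (l : E → G), (∀ e, l (be e) = (l e)⁻¹) → Dep φ fun h => l (w h)

/-- Turn-invariant functions: functions of the origin of an oriented edge. -/
def TInv {H Q A : Type} (φ : Perm H) (bq : Q → Q) (γ : H → Q) (f : Q → A) : Prop :=
  ∀ h, f (bq (γ h)) = f (γ (φ h))

/-- `a` and `b` have the same origin. -/
def Vrel {H Q : Type} (φ : Perm H) (bq : Q → Q) (γ : H → Q) (a b : Q) : Prop :=
  ∀ f : Q → Prop, TInv φ bq γ f → f a = f b

/-- One step of a pair of parallel reduced paths in `Γ` with the same image in `T`. -/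
def Step {H Q E : Type} (φ : Perm H) (bq : Q → Q) (γ : H → Q) (ε : Q → E) (x y : Q × Q) : Prop :=
  ε x.1 = ε x.2 ∧ x.1 ≠ x.2 ∧ ε y.1 = ε y.2 ∧ y.1 ≠ y.2 ∧
    Vrel φ bq γ (bq x.1) y.1 ∧ Vrel φ bq γ (bq x.2) y.2 ∧ y.1 ≠ bq x.1

/-- Admissible data. -/
structure Adm {H Q E : Type} [Fintype H] [Fintype Q] (φ : Perm H) (bq : Q → Q) (γ : H → Q)
    (be : E → E) (ε : Q → E) : Prop where
  bq_bq : ∀ q, bq (bq q) = q
  be_be : ∀ e, be (be e) = e
  be_ne : ∀ e, be e ≠ e
  eps_bq : ∀ q, ε (bq q) = be (ε q)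
  /-- every edge of `Γ` is traversed -/
  trav : ∀ q, ∃ h, γ h = q ∨ γ h = bq q
  /-- the boundary words are reduced -/
  red : ∀ h, γ (φ h) ≠ bq (γ h)
  /-- `Γ → T` is an immersion -/
  imm : ∀ a b, Vrel φ bq γ a b → ε a = ε b → a = b
  /-- `H₁(Γ; ℚ) → H₁(T; ℚ)` is injective -/
  inj : ∀ z : Q → ℚ, (∀ q, z (bq q) = - z q) →
    (∀ f : Q → ℚ, TInv φ bq γ f → ∑ q, f q * z q = 0) →
    (∀ g : E → ℚ, ∑ q, g (ε q) * z q = 0) → ∀ q, z q = 0
  /-- the only linear relation between the boundary words is that their sum is zero -/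
  ind : ∀ a : H → ℚ, (∀ h, a (φ h) = a h) →
    (∀ g : Q → ℚ, (∀ q, g (bq q) = - g q) → ∑ h, g (γ h) * a h = 0) → ∀ h h', a h = a h'
  /-- malnormality -/
  wf : WellFounded fun y x => Step φ bq γ ε x y

/-- A planar pairing of the darts, compatible with the labels in `E`. -/
structure Pairing {H E : Type} [Fintype H] (φ ι : Perm H) (be : E → E) (w : H → E) : Prop where
  inv : ∀ h, ι (ι h) = h
  ne : ∀ h, ι h ≠ h
  lab : ∀ h, w (ι h) = be (w h)
  count : Fintype.card H + 4 ≤ 2 * (ncyc φ + ncyc (ι * φ))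

/-- `q` is an end of an arc of `A` over the edge `e`. -/
def Inc {H Q E : Type} (ι : Perm H) (bq : Q → Q) (γ : H → Q) (ε : Q → E) (e : E) (A : Set H)
    (q : Q) : Prop :=
  ∃ h, h ∈ A ∧ ε (γ h) = e ∧ (γ h = q ∨ bq (γ (ι h)) = q)

/-- Maximal structures. -/
structure Maxl {H Q E : Type} [Fintype H] (φ ι : Perm H) (bq : Q → Q) (γ : H → Q)
    (be : E → E) (ε : Q → E) : Prop where
  surjE : ∀ e, ∃ h, ε (γ h) = e
  exact : ∀ ρ : E → ℚ, (∀ e, ρ (be e) = - ρ e) →
    (∀ f : H → ℚ, (∀ h, f (φ h) = f h) → ∑ h, f h * ρ (ε (γ h)) = 0) →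
    ∃ F : E → ℚ, (∀ h, F (be (ε (γ h))) = F (ε (γ (φ h)))) ∧ ∀ e, ρ e = F (be e) - F e
  cut : ∀ (e : E) (A : Set H), (∃ h, h ∈ A ∧ ε (γ h) = e) → (∃ h, h ∉ A ∧ ε (γ h) = e) →
    ∃ q q', q ≠ q' ∧ Inc ι bq γ ε e A q ∧ Inc ι bq γ ε e Aᶜ q ∧
      Inc ι bq γ ε e A q' ∧ Inc ι bq γ ε e Aᶜ q'

/-- A counterexample to the theorem. -/
structure Ctr {H Q E : Type} [Fintype H] [Fintype Q] (φ : Perm H) (bq : Q → Q) (γ : H → Q)
    (be : E → E) (ε : Q → E) : Prop where
  adm : Adm φ bq γ be ε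
  dep : DepAll φ be fun h => ε (γ h)
  ndep : ¬ DepAll φ bq γ

/-- There is a counterexample with `N` darts. -/
def CtrAt (N : ℕ) : Prop :=
  ∃ (H Q E : Type) (_ : Fintype H) (_ : Fintype Q) (φ : Perm H) (bq : Q → Q) (γ : H → Q)
    (be : E → E) (ε : Q → E), Fintype.card H = N ∧ Ctr φ bq γ be ε

end Pool.Agent.H57.Stall
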