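import Mathlib
import Pool.Agent.H57.Stall.Defs

set_option autoImplicit false

namespace Pool.Agent.H57.Stall

open Equiv

variable {H : Type}

/-- The functions invariant under a permutation. -/
def invs (σ : Perm H) : Submodule ℚ (H → ℚ) where
  carrier := {f | ∀ h, f (σ h) = f h}
  add_mem' := by
    intro f g hf hg h
    simp only [Pi.add_apply, hf h, hg h]
  zero_mem' := by intro h; rfl
  smul_mem' := by
    intro c f hf h
    simp only [Pi.smul_apply, hf h]

lemma mem_invs {σ : Perm H} {f : H → ℚ} : f ∈ invs σ ↔ ∀ h, f (σ h) = f h := Iff.rfl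

lemma invs_sameCycle {σ : Perm H} {f : H → ℚ} (hf : f ∈ invs σ) {x y : H}
    (h : σ.SameCycle x y) : f x = f y := by
  have hpow : ∀ (n : ℕ) (x : H), f ((σ ^ n) x) = f x := by
    intro n
    induction n with
    | zero => intro x; rfl
    | succ n ih =>
      intro x
      rw [pow_succ', Perm.mul_apply, hf, ih]
  obtain ⟨i, hi⟩ := h
  obtain ⟨n, rfl | rfl⟩ := i.eq_nat_or_neg
  · rw [zpow_natCast] at hi
    rw [← hi, hpow]
  · rw [zpow_neg, zpow_natCast] at hi
    have : x = (σ ^ n) y := by
      rw [← hi]; simp
    rw [this, hpow]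

theorem finrank_invs [Fintype H] (σ : Perm H) : Module.finrank ℚ (invs σ) = ncyc σ := by
  classical
  have e : (Quotient (Perm.SameCycle.setoid σ) → ℚ) ≃ₗ[ℚ] invs σ :=
    { toFun := fun g => ⟨fun h => g (Quotient.mk (Perm.SameCycle.setoid σ) h), by
        intro h
        have : Quotient.mk (Perm.SameCycle.setoid σ) (σ h) =
            Quotient.mk (Perm.SameCycle.setoid σ) h :=
          Quotient.sound (s := Perm.SameCycle.setoid σ)
            (show σ.SameCycle (σ h) h from (Perm.sameCycle_apply_left).2 (Perm.SameCycle.refl σ h))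
        show g _ = g _
        rw [this]⟩
      map_add' := fun g g' => rfl
      map_smul' := fun c g => rfl
      invFun := fun f q => Quotient.lift f.1 (fun x y h => invs_sameCycle f.2 h) q
      left_inv := by
        intro g
        funext q
        induction q using Quotient.inductionOn with
        | _ h => rfl
      right_inv := by
        intro f
        rfl }
  have := Fintype.ofFinite (Quotient (Perm.SameCycle.setoid σ))
  rw [← e.finrank_eq, Module.finrank_fintype_fun_eq_card, ncyc, Nat.card_eq_fintype_card]

lemma card_cycle [Fintype H] [DecidableEq H] (σ : Perm H) (x : H)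
    [DecidablePred fun h => σ.SameCycle x h] :
    (Finset.univ.filter fun h => σ.SameCycle x h).card = Function.minimalPeriod σ x := by
  have hper : x ∈ Function.periodicPts σ := by
    refine ⟨orderOf σ, orderOf_pos σ, ?_⟩
    show (σ^[orderOf σ]) x = x
    rw [← Perm.coe_pow, pow_orderOf_eq_one]
    rfl
  have hpos : 0 < Function.minimalPeriod σ x := Function.minimalPeriod_pos_of_mem_periodicPts hper
  have : (Finset.univ.filter fun h => σ.SameCycle x h) =
      (Finset.range (Function.minimalPeriod σ x)).image (fun n => (σ^[n]) x) := by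
    ext h
    simp only [Finset.mem_filter, Finset.mem_univ, true_and, Finset.mem_image, Finset.mem_range]
    constructor
    · intro hs
      obtain ⟨n, hn⟩ := hs.exists_nat_pow_eq
      refine ⟨n % Function.minimalPeriod σ x, Nat.mod_lt _ hpos, ?_⟩
      rw [Function.iterate_mod_minimalPeriod_eq, ← Perm.coe_pow, hn]
    · rintro ⟨n, -, rfl⟩
      exact ⟨n, by rw [zpow_natCast, Perm.coe_pow]⟩
  rw [this, Finset.card_image_of_injOn, Finset.card_range]
  intro m hm n hn hmn
  simp only [Finset.coe_range, Set.mem_Iio] at hm hn
  exact (Function.iterate_eq_iterate_iff_of_lt_minimalPeriod hm hn).1 hmn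

/-- The number of cycles as a sum over the points. -/
theorem sum_inv_minimalPeriod [Fintype H] (σ : Perm H) :
    ∑ h, (1 : ℚ) / (Function.minimalPeriod σ h : ℚ) = ncyc σ := by
  classical
  have hper : ∀ x, 0 < Function.minimalPeriod σ x := by
    intro x
    apply Function.minimalPeriod_pos_of_mem_periodicPts
    refine ⟨orderOf σ, orderOf_pos σ, ?_⟩
    show (σ^[orderOf σ]) x = x
    rw [← Perm.coe_pow, pow_orderOf_eq_one]
    rfl
  have := Fintype.ofFinite (Quotient (Perm.SameCycle.setoid σ))
  rw [ncyc, Nat.card_eq_fintype_card]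
  rw [← Finset.sum_fiberwise (s := Finset.univ)
    (g := fun h => Quotient.mk (Perm.SameCycle.setoid σ) h)
    (f := fun h => (1 : ℚ) / (Function.minimalPeriod σ h : ℚ))]
  have h1 : ∀ q : Quotient (Perm.SameCycle.setoid σ),
      ∑ h ∈ Finset.univ.filter (fun h => Quotient.mk (Perm.SameCycle.setoid σ) h = q),
        (1 : ℚ) / (Function.minimalPeriod σ h : ℚ) = 1 := by
    intro q
    induction q using Quotient.inductionOn with
    | _ x =>
      have h2 : Finset.univ.filter (fun h => Quotient.mk (Perm.SameCycle.setoid σ) h =
          Quotient.mk (Perm.SameCycle.setoid σ) x) = Finset.univ.filter (fun h => σ.SameCycle x h) := by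
        ext h
        simp only [Finset.mem_filter, Finset.mem_univ, true_and]
        rw [Quotient.eq]
        exact Perm.sameCycle_comm
      rw [h2]
      have h3 : ∀ h ∈ Finset.univ.filter (fun h => σ.SameCycle x h),
          (1 : ℚ) / (Function.minimalPeriod σ h : ℚ) =
            (1 : ℚ) / (Function.minimalPeriod σ x : ℚ) := by
        intro h hh
        simp only [Finset.mem_filter, Finset.mem_univ, true_and] at hh
        have : Function.minimalPeriod σ h = Function.minimalPeriod σ x := by
          rw [← card_cycle σ h, ← card_cycle σ x]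
          congr 1
          ext y
          simp only [Finset.mem_filter, Finset.mem_univ, true_and]
          exact ⟨fun h' => hh.trans h', fun h' => hh.symm.trans h'⟩
        rw [this]
      rw [Finset.sum_congr rfl h3, Finset.sum_const, card_cycle, nsmul_eq_mul, mul_one_div,
        div_self]
      exact_mod_cast (hper x).ne'
  rw [Finset.sum_congr rfl fun q _ => h1 q]
  simp

theorem ncyc_swap_mul_ge [Fintype H] [DecidableEq H] (σ : Perm H) (a b : H) :
    ncyc σ ≤ ncyc (swap a b * σ) + 1 := by
  rw [← finrank_invs, ← finrank_invs]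
  let ℓ : (invs σ) →ₗ[ℚ] ℚ :=
    { toFun := fun f => f.1 a - f.1 b
      map_add' := by intro f g; simp only [Submodule.coe_add, Pi.add_apply]; ring
      map_smul' := by
        intro c f
        simp only [Submodule.coe_smul, Pi.smul_apply, smul_eq_mul, RingHom.id_apply]; ring }
  have h1 := LinearMap.finrank_range_add_finrank_ker ℓ
  have h2 : Module.finrank ℚ (LinearMap.range ℓ) ≤ 1 := by
    have := Submodule.finrank_le (LinearMap.range ℓ)
    simpa using this
  have h3 : Module.finrank ℚ (LinearMap.ker ℓ) ≤ Module.finrank ℚ (invs (swap a b * σ)) := by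
    let g : LinearMap.ker ℓ →ₗ[ℚ] invs (swap a b * σ) :=
      { toFun := fun f => ⟨f.1.1, by
          intro h
          have hk : f.1.1 a - f.1.1 b = 0 := f.2
          have hi := f.1.2
          rw [Perm.mul_apply]
          have : ∀ y, f.1.1 (swap a b y) = f.1.1 y := by
            intro y
            by_cases hya : y = a
            · rw [hya, swap_apply_left]; linarith
            · by_cases hyb : y = b
              · rw [hyb, swap_apply_right]; linarith
              · rw [swap_apply_of_ne_of_ne hya hyb]
          rw [this, hi]⟩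
        map_add' := fun _ _ => rfl
        map_smul' := fun _ _ => rfl }
    apply LinearMap.finrank_le_finrank_of_injective (f := g)
    intro x y hxy
    apply Subtype.ext
    apply Subtype.ext
    exact congrArg (fun z => z.1) hxy
  omega

/-- Functions vanishing off nothing: the dimension of the antisymmetric functions. -/
theorem finrank_antisymm {Q : Type} [Fintype Q] (bq : Q → Q) (h1 : ∀ q, bq (bq q) = q)
    (h2 : ∀ q, bq q ≠ q) (M : Submodule ℚ (Q → ℚ)) (hM : ∀ z, z ∈ M ↔ ∀ q, z (bq q) = - z q) :
    2 * Module.finrank ℚ M = Fintype.card Q := by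
  classical
  let τ : Perm Q := ⟨bq, bq, h1, h1⟩
  have hτ : ∀ q, τ q = bq q := fun q => rfl
  let s : Q → ℚ := fun q =>
    if (Quotient.mk (Perm.SameCycle.setoid τ) q).out = q then 1 else -1
  have hout : ∀ q, (Quotient.mk (Perm.SameCycle.setoid τ) q).out = q ∨
      (Quotient.mk (Perm.SameCycle.setoid τ) q).out = bq q := by
    intro q
    have h := Quotient.mk_out (s := Perm.SameCycle.setoid τ) q
    obtain ⟨n, hn⟩ := (Perm.SameCycle.symm (show τ.SameCycle _ _ from h)).exists_nat_pow_eq
    rw [← hn]
    rcases Nat.even_or_odd' n with ⟨k, rfl | rfl⟩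
    · left
      rw [pow_mul]
      have : τ ^ 2 = 1 := by
        ext x; rw [pow_two, Perm.mul_apply, hτ, hτ, h1]; rfl
      rw [this, one_pow]; rfl
    · right
      rw [pow_succ', pow_mul]
      have : τ ^ 2 = 1 := by
        ext x; rw [pow_two, Perm.mul_apply, hτ, hτ, h1]; rfl
      rw [this, one_pow, mul_one, hτ]
  have hcl : ∀ q, Quotient.mk (Perm.SameCycle.setoid τ) (bq q) =
      Quotient.mk (Perm.SameCycle.setoid τ) q := fun q =>
    Quotient.sound (s := Perm.SameCycle.setoid τ)
      (show τ.SameCycle (τ q) q from (Perm.sameCycle_apply_left).2 (Perm.SameCycle.refl τ q))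
  have hs : ∀ q, s (bq q) = - s q := by
    intro q
    show (if _ = bq q then (1 : ℚ) else -1) = - (if _ = q then (1 : ℚ) else -1)
    rw [hcl q]
    rcases hout q with h | h
    · rw [h, if_neg (Ne.symm (h2 q)), if_pos rfl]
    · rw [h, if_pos rfl, if_neg (h2 q)]; norm_num
  have hss : ∀ q, s q * s q = 1 := by
    intro q
    show (if _ = q then (1 : ℚ) else -1) * (if _ = q then (1 : ℚ) else -1) = 1
    split_ifs <;> norm_num
  have e : M ≃ₗ[ℚ] invs τ :=
    { toFun := fun z => ⟨fun q => s q * z.1 q, by
        intro q
        show s (bq q) * z.1 (bq q) = s q * z.1 q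
        rw [hs, (hM z.1).1 z.2 q]; ring⟩
      map_add' := by
        intro z w; apply Subtype.ext; funext q
        show s q * (z.1 q + w.1 q) = s q * z.1 q + s q * w.1 q
        ring
      map_smul' := by
        intro c z; apply Subtype.ext; funext q
        show s q * (c * z.1 q) = c * (s q * z.1 q)
        ring
      invFun := fun f => ⟨fun q => s q * f.1 q, by
        rw [hM]
        intro q
        show s (bq q) * f.1 (bq q) = - (s q * f.1 q)
        have : f.1 (bq q) = f.1 q := f.2 q
        rw [hs, this]; ring⟩
      left_inv := by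
        intro z; apply Subtype.ext; funext q
        show s q * (s q * z.1 q) = z.1 q
        rw [← mul_assoc, hss, one_mul]
      right_inv := by
        intro z; apply Subtype.ext; funext q
        show s q * (s q * z.1 q) = z.1 q
        rw [← mul_assoc, hss, one_mul] }
  rw [e.finrank_eq, finrank_invs]
  have h3 := sum_inv_minimalPeriod τ
  have h4 : ∀ q, Function.minimalPeriod τ q = 2 := by
    intro q
    apply Function.minimalPeriod_eq_prime
    · show τ (τ q) = q
      exact h1 q
    · intro h
      exact h2 q h
  simp only [h4] at h3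
  rw [Finset.sum_const, Finset.card_univ, nsmul_eq_mul] at h3
  have h5 : (2 * ncyc τ : ℚ) = Fintype.card Q := by
    rw [← h3]; push_cast; ring
  exact_mod_cast h5

end Pool.Agent.H57.Stall
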