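import Mathlib
import Pool.Agent.H57.Stall.Defs

set_option autoImplicit false

namespace Pool.Agent.H57.Stall

open Equiv

variable {H G : Type} [Group G]

/-! ### Representatives -/

theorem exists_reps [Finite H] (φ : Perm H) : ∃ L, IsReps φ L := by
  classical
  have : Fintype (Quotient (Perm.SameCycle.setoid φ)) := Fintype.ofFinite _
  refine ⟨(Finset.univ : Finset (Quotient (Perm.SameCycle.setoid φ))).toList.map Quotient.out,
    ?_, ?_⟩
  · exact (Finset.nodup_toList _).map Quotient.out_injective
  · intro h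
    refine ⟨(Quotient.mk (Perm.SameCycle.setoid φ) h).out, ⟨?_, ?_⟩, ?_⟩
    · exact List.mem_map_of_mem (by simp)
    · exact Quotient.exact (s := Perm.SameCycle.setoid φ)
        (Quotient.out_eq (Quotient.mk (Perm.SameCycle.setoid φ) h))
    · rintro y ⟨hy, hy'⟩
      obtain ⟨q, -, rfl⟩ := List.mem_map.mp hy
      congr 1
      rw [← Quotient.out_eq q]
      exact Quotient.sound hy'

theorem IsReps.length_eq [Finite H] {φ : Perm H} {L : List H} (hL : IsReps φ L) :
    L.length = ncyc φ := by
  classical
  have : Fintype (Quotient (Perm.SameCycle.setoid φ)) := Fintype.ofFinite _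
  have h1 : (L.map (Quotient.mk (Perm.SameCycle.setoid φ))).Nodup := by
    refine List.Nodup.map_on ?_ hL.1
    intro x hx y hy hxy
    obtain ⟨z, -, hz⟩ := hL.2 y
    rw [hz x ⟨hx, Quotient.exact hxy⟩, hz y ⟨hy, Perm.SameCycle.refl _ _⟩]
  have h2 : (L.map (Quotient.mk (Perm.SameCycle.setoid φ))).toFinset = Finset.univ := by
    ext q
    simp only [List.mem_toFinset, Finset.mem_univ, iff_true]
    obtain ⟨x, ⟨hx, hx'⟩, -⟩ := hL.2 q.out
    refine List.mem_map.mpr ⟨x, hx, ?_⟩
    rw [← Quotient.out_eq q]
    exact Quotient.sound hx'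
  have h3 := List.toFinset_card_of_nodup h1
  rw [h2, List.length_map, Finset.card_univ] at h3
  rw [← h3, ncyc, Nat.card_eq_fintype_card]

/-! ### Cycle products -/

private theorem cprod_shift [Finite H] (φ : Perm H) (l : H → G) (x : H) :
    cprod φ l (φ x) = (l x)⁻¹ * cprod φ l x * l x := by
  have hp : Function.minimalPeriod φ (φ x) = Function.minimalPeriod φ x :=
    Function.minimalPeriod_apply (φ.injective.mem_periodicPts x)
  have h1 : ((List.range (Function.minimalPeriod φ x + 1)).map fun i => l ((φ ^ i) x)).prod =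
      l x * cprod φ l (φ x) := by
    rw [List.prod_range_succ']
    unfold cprod
    rw [hp]
    simp only [pow_zero, Perm.one_apply, Nat.succ_eq_add_one, pow_succ, Perm.mul_apply]
  have h2 : ((List.range (Function.minimalPeriod φ x + 1)).map fun i => l ((φ ^ i) x)).prod =
      cprod φ l x * l x := by
    rw [List.prod_range_succ]
    unfold cprod
    congr 2
    rw [← Perm.iterate_eq_pow]
    exact Function.iterate_minimalPeriod
  rw [mul_assoc, ← h2, h1]
  group

/-- Cycle products at two points of one cycle are conjugate. -/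
theorem cprod_sameCycle [Finite H] {φ : Perm H} (l : H → G) {x y : H} (h : φ.SameCycle x y) :
    ∃ g, cprod φ l y = g * cprod φ l x * g⁻¹ := by
  obtain ⟨i, -, rfl⟩ := h.exists_pow_eq'
  clear h
  induction i with
  | zero => exact ⟨1, by simp⟩
  | succ n ih =>
    obtain ⟨g, hg⟩ := ih
    refine ⟨(l ((φ ^ n) x))⁻¹ * g, ?_⟩
    rw [pow_succ', Perm.mul_apply, cprod_shift, hg]
    group

/-! ### Products of conjugates -/

/-- `g` is a product of conjugates of the members of the list `M`. -/
private def CPr (g : G) (M : List G) : Prop := ∃ N : List G, List.Forall₂ IsConj M N ∧ N.prod = g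

private theorem CPr.perm {M M' : List G} (h : M.Perm M') : ∀ {g : G}, CPr g M → CPr g M' := by
  induction h with
  | nil => exact id
  | cons x _ ih =>
    rintro g ⟨N, hN, hg⟩
    cases hN with
    | cons h1 h2 =>
      obtain ⟨N2, h3, h4⟩ := ih ⟨_, h2, rfl⟩
      exact ⟨_ :: N2, List.Forall₂.cons h1 h3, by rw [List.prod_cons, h4, ← hg, List.prod_cons]⟩
  | swap x y l =>
    rintro g ⟨N, hN, hg⟩
    cases hN with
    | @cons _ n1 _ _ h1 h2 =>
      cases h2 with
      | @cons _ n2 _ N' h3 h4 =>
        refine ⟨(n1 * n2 * n1⁻¹) :: n1 :: N', List.Forall₂.cons (h3.trans ?_)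
          (List.Forall₂.cons h1 h4), ?_⟩
        · exact isConj_iff.mpr ⟨n1, rfl⟩
        · rw [← hg]
          simp only [List.prod_cons]
          group
  | trans _ _ ih1 ih2 => exact fun h => ih2 (ih1 h)

private theorem CPr.forall₂ {M M' : List G} (h : List.Forall₂ IsConj M M') {g : G}
    (hg : CPr g M) : CPr g M' := by
  obtain ⟨N, hN, hg⟩ := hg
  refine ⟨N, ?_, hg⟩
  clear hg
  induction h generalizing N with
  | nil => exact hN
  | cons h1 h2 ih =>
    cases hN with
    | cons h3 h4 => exact List.Forall₂.cons (h1.symm.trans h3) (ih _ h4)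

private theorem cpr_iff (f : H → G) {L : List H} (hL : L.Nodup) (g : G) :
    (∃ c : H → G, (L.map fun x => c x * f x * (c x)⁻¹).prod = g) ↔ CPr g (L.map f) := by
  constructor
  · rintro ⟨c, hc⟩
    refine ⟨L.map fun x => c x * f x * (c x)⁻¹, ?_, hc⟩
    rw [List.forall₂_map_left_iff, List.forall₂_map_right_iff]
    exact List.forall₂_same.mpr fun x _ => isConj_iff.mpr ⟨c x, rfl⟩
  · rintro ⟨N, hN, hg⟩
    classical
    induction L generalizing N g with
    | nil =>
      cases hN
      exact ⟨fun _ => 1, by simpa using hg⟩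
    | cons x L ih =>
      rw [List.map_cons] at hN
      rw [List.nodup_cons] at hL
      cases hN with
      | @cons _ n _ N' h1 h2 =>
        obtain ⟨c, hc⟩ := ih hL.2 _ _ h2 rfl
        obtain ⟨c0, hc0⟩ := isConj_iff.mp h1
        refine ⟨Function.update c x c0, ?_⟩
        rw [List.map_cons, List.prod_cons, Function.update_self, hc0, ← hg, List.prod_cons, ← hc]
        congr 2
        apply List.map_congr_left
        intro y hy
        have : y ≠ x := fun e => hL.1 (e ▸ hy)
        rw [Function.update_of_ne this]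

private theorem cpr_reps [Finite H] {φ : Perm H} (l : H → G) {L L' : List H} (hL : IsReps φ L)
    (hL' : IsReps φ L') {g : G} (h : CPr g (L'.map (cprod φ l))) : CPr g (L.map (cprod φ l)) := by
  classical
  choose σ hσ hσ' using hL'.2
  -- `σ x` is the representative in `L'` of the cycle of `x`
  have hperm : (L.map σ).Perm L' := by
    rw [List.perm_ext_iff_of_nodup _ hL'.1]
    · intro y
      constructor
      · intro hy
        obtain ⟨x, -, rfl⟩ := List.mem_map.mp hy
        exact (hσ x).1
      · intro hy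
        obtain ⟨x, ⟨hx, hx'⟩, -⟩ := hL.2 y
        refine List.mem_map.mpr ⟨x, hx, ?_⟩
        exact (hσ' x y ⟨hy, hx'.symm⟩).symm
    · refine List.Nodup.map_on ?_ hL.1
      intro x hx y hy hxy
      obtain ⟨z, -, hz⟩ := hL.2 y
      rw [hz y ⟨hy, Perm.SameCycle.refl _ _⟩]
      apply hz x ⟨hx, ?_⟩
      have h1 : φ.SameCycle (σ x) x := (hσ x).2
      have h2 : φ.SameCycle (σ y) y := (hσ y).2
      rw [← hxy] at h2
      exact h1.symm.trans h2
  have h1 : CPr g ((L.map σ).map (cprod φ l)) := h.perm (hperm.symm.map _)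
  refine h1.forall₂ ?_
  rw [List.map_map, List.forall₂_map_left_iff, List.forall₂_map_right_iff]
  refine List.forall₂_same.mpr fun x _ => ?_
  obtain ⟨c, hc⟩ := cprod_sameCycle l (hσ x).2
  exact isConj_iff.mpr ⟨c, hc.symm⟩

private theorem dep_iff_cpr [Finite H] {φ : Perm H} (l : H → G) {L : List H} (hL : IsReps φ L) :
    Dep φ l ↔ CPr 1 (L.map (cprod φ l)) := by
  constructor
  · rintro ⟨L', c, hL', h⟩
    exact cpr_reps l hL hL' ((cpr_iff (cprod φ l) hL'.1 1).mp ⟨c, h⟩)
  · intro h
    obtain ⟨c, hc⟩ := (cpr_iff (cprod φ l) hL.1 1).mpr h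
    exact ⟨L, c, hL, hc⟩

/-- `Dep` does not depend on the choice and the order of the representatives. -/
theorem dep_iff_reps [Finite H] {φ : Perm H} (l : H → G) {L : List H} (hL : IsReps φ L) :
    Dep φ l ↔ ∃ c : H → G, (L.map fun x => c x * cprod φ l x * (c x)⁻¹).prod = 1 := by
  rw [dep_iff_cpr l hL, cpr_iff (cprod φ l) hL.1 1]

private theorem prod_gauge (φ : Perm H) (l g : H → G) (h : H) (n : ℕ) :
    ((List.range n).map fun i => (fun x => (g x)⁻¹ * l x * g (φ x)) ((φ ^ i) h)).prod =
      (g h)⁻¹ * ((List.range n).map fun i => l ((φ ^ i) h)).prod * g ((φ ^ n) h) := by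
  induction n with
  | zero => simp
  | succ n ih =>
    rw [List.prod_range_succ, List.prod_range_succ, ih, pow_succ', Perm.mul_apply]
    group

theorem cprod_gauge [Finite H] (φ : Perm H) (l g : H → G) (h : H) :
    cprod φ (fun x => (g x)⁻¹ * l x * g (φ x)) h = (g h)⁻¹ * cprod φ l h * g h := by
  unfold cprod
  rw [prod_gauge]
  congr 2
  rw [← Perm.iterate_eq_pow]
  exact Function.iterate_minimalPeriod

/-- Gauge invariance of `Dep`. -/
theorem dep_gauge [Finite H] (φ : Perm H) (l g : H → G) :
    Dep φ (fun x => (g x)⁻¹ * l x * g (φ x)) ↔ Dep φ l := by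
  obtain ⟨L, hL⟩ := exists_reps φ
  rw [dep_iff_cpr _ hL, dep_iff_cpr _ hL]
  have hc : ∀ x, IsConj (cprod φ (fun x => (g x)⁻¹ * l x * g (φ x)) x) (cprod φ l x) := by
    intro x
    rw [cprod_gauge]
    refine isConj_iff.mpr ⟨g x, ?_⟩
    group
  constructor
  · intro h
    refine h.forall₂ ?_
    rw [List.forall₂_map_left_iff, List.forall₂_map_right_iff]
    exact List.forall₂_same.mpr fun x _ => hc x
  · intro h
    refine h.forall₂ ?_
    rw [List.forall₂_map_left_iff, List.forall₂_map_right_iff]
    exact List.forall₂_same.mpr fun x _ => (hc x).symm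

theorem Dep.map {K : Type} [Group K] {φ : Perm H} {l : H → G} (f : G →* K) (h : Dep φ l) :
    Dep φ fun x => f (l x) := by
  obtain ⟨L, c, hL, h⟩ := h
  refine ⟨L, fun x => f (c x), hL, ?_⟩
  have hc : ∀ x, cprod φ (fun x => f (l x)) x = f (cprod φ l x) := by
    intro x
    unfold cprod
    rw [map_list_prod, List.map_map]
    rfl
  have := congrArg f h
  rw [map_one, map_list_prod, List.map_map] at this
  rw [← this]
  congr 1
  apply List.map_congr_left
  intro x _
  simp [hc]

theorem DepAll.map {E E' : Type} {φ : Perm H} {be : E → E} {be' : E' → E'} {w' : H → E'}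
    (π : E' → E) (hπ : ∀ e, π (be' e) = be (π e)) (h : DepAll φ be' w') :
    DepAll φ be fun x => π (w' x) := by
  intro G _ l hl
  exact h G (fun e => l (π e)) fun e => by rw [hπ, hl]

end Pool.Agent.H57.Stall
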