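import Mathlib
import Pool.Agent.H57.Stall.Defs
import Pool.Agent.H57.Stall.DepLib
import Pool.Agent.H57.Stall.Cyc

set_option autoImplicit false
set_option linter.unusedSectionVars false

namespace Pool.Agent.H57.Stall

open Equiv

namespace PD

variable {H G : Type} [Group G]

/-! ### Partial products and minimal periods -/

/-- Partial products along a cycle. -/
def pp (σ : Perm H) (l : H → G) (x : H) (n : ℕ) : G :=
  ((List.range n).map fun i => l ((σ ^ i) x)).prod

theorem cprod_eq_pp (σ : Perm H) (l : H → G) (x : H) :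
    cprod σ l x = pp σ l x (Function.minimalPeriod σ x) := rfl

theorem pp_add (σ : Perm H) (l : H → G) (x : H) (m n : ℕ) :
    pp σ l x (m + n) = pp σ l x m * pp σ l ((σ ^ m) x) n := by
  unfold pp
  rw [List.range_add, List.map_append, List.prod_append, List.map_map]
  congr 2
  refine List.map_congr_left fun i _ => ?_
  simp only [Function.comp]
  rw [add_comm m i, pow_add, Perm.mul_apply]

theorem pp_congr {σ σ' : Perm H} {l l' : H → G} {x x' : H} {n : ℕ}
    (h : ∀ j, j < n → l' ((σ' ^ j) x') = l ((σ ^ j) x)) : pp σ' l' x' n = pp σ l x n := by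
  unfold pp
  congr 1
  exact List.map_congr_left fun i hi => h i (List.mem_range.mp hi)

theorem pp_one (σ : Perm H) (l : H → G) (x : H) : pp σ l x 1 = l x := by
  simp [pp]

theorem mp_pos [Finite H] (σ : Perm H) (x : H) : 0 < Function.minimalPeriod σ x :=
  Function.minimalPeriod_pos_of_mem_periodicPts (σ.injective.mem_periodicPts x)

theorem mp_pow (σ : Perm H) (x : H) : (σ ^ Function.minimalPeriod σ x) x = x := by
  have := Function.isPeriodicPt_minimalPeriod σ x
  rw [Function.IsPeriodicPt, Perm.iterate_eq_pow] at this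
  exact this

theorem mp_lt (σ : Perm H) (x : H) (j : ℕ) (h0 : 0 < j) (hj : j < Function.minimalPeriod σ x) :
    (σ ^ j) x ≠ x := by
  intro h
  refine Function.not_isPeriodicPt_of_pos_of_lt_minimalPeriod h0.ne' hj ?_
  rw [Function.IsPeriodicPt, Perm.iterate_eq_pow]
  exact h

theorem mp_eq [Finite H] (σ : Perm H) (x : H) (p : ℕ) (hp : 0 < p) (h : (σ ^ p) x = x)
    (hlt : ∀ j, 0 < j → j < p → (σ ^ j) x ≠ x) : Function.minimalPeriod σ x = p := by
  apply le_antisymm
  · apply Function.IsPeriodicPt.minimalPeriod_le hp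
    rw [Function.IsPeriodicPt, Perm.iterate_eq_pow]
    exact h
  · by_contra hc
    exact hlt _ (mp_pos σ x) (not_le.mp hc) (mp_pow σ x)

/-! ### Multiplication by a transposition -/

section swap

variable [DecidableEq H]

theorem swap_pow (σ : Perm H) (a b x : H) (n : ℕ)
    (h : ∀ j, 0 < j → j < n → (σ ^ j) x ≠ a ∧ (σ ^ j) x ≠ b) (j : ℕ) (hj : j < n) :
    ((swap a b * σ) ^ j) x = (σ ^ j) x := by
  induction j with
  | zero => simp
  | succ j ih =>
    have h1 : σ ((σ ^ j) x) = (σ ^ (j + 1)) x := by rw [pow_succ', Perm.mul_apply]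
    rw [pow_succ', Perm.mul_apply, ih (by omega), Perm.mul_apply, h1,
      swap_apply_of_ne_of_ne (h (j + 1) (by omega) hj).1 (h _ (by omega) hj).2]

theorem swap_pow_end (σ : Perm H) (a b x : H) (n : ℕ) (hn : 0 < n)
    (h : ∀ j, 0 < j → j < n → (σ ^ j) x ≠ a ∧ (σ ^ j) x ≠ b) :
    ((swap a b * σ) ^ n) x = swap a b ((σ ^ n) x) := by
  obtain ⟨m, rfl⟩ : ∃ m, n = m + 1 := ⟨n - 1, by omega⟩
  rw [pow_succ', Perm.mul_apply, swap_pow σ a b x (m + 1) h m (by omega), Perm.mul_apply,
    ← Perm.mul_apply σ, ← pow_succ']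

omit [DecidableEq H] in
theorem not_sameCycle_pow (σ : Perm H) {a x : H} (h : ¬ σ.SameCycle a x) (j : ℕ) :
    (σ ^ j) x ≠ a := by
  intro hc
  apply h
  rw [← hc]
  exact Perm.SameCycle.symm ⟨j, by simp⟩

/-- Powers at points off the cycles of `a` and `b`. -/
theorem swap_pow_off (σ : Perm H) {a b x : H} (ha : ¬ σ.SameCycle a x) (hb : ¬ σ.SameCycle b x)
    (j : ℕ) : ((swap a b * σ) ^ j) x = (σ ^ j) x :=
  swap_pow σ a b x (j + 1)
    (fun i _ _ => ⟨not_sameCycle_pow σ ha i, not_sameCycle_pow σ hb i⟩) j (by omega)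

variable [Finite H]

theorem cprod_off (σ : Perm H) {a b x : H} (ha : ¬ σ.SameCycle a x) (hb : ¬ σ.SameCycle b x)
    (l : H → G) : cprod (swap a b * σ) l x = cprod σ l x := by
  have hmp : Function.minimalPeriod (swap a b * σ) x = Function.minimalPeriod σ x := by
    apply mp_eq _ _ _ (mp_pos σ x)
    · rw [swap_pow_off σ ha hb, mp_pow]
    · intro j h0 hj
      rw [swap_pow_off σ ha hb]
      exact mp_lt σ x j h0 hj
  rw [cprod_eq_pp, cprod_eq_pp, hmp]
  exact pp_congr fun j _ => by rw [swap_pow_off σ ha hb]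

omit [Finite H] in
theorem merge_pow_left (σ : Perm H) {a b : H} (hab : ¬ σ.SameCycle a b) (j : ℕ)
    (hj : j < Function.minimalPeriod σ a) : ((swap a b * σ) ^ j) a = (σ ^ j) a :=
  swap_pow σ a b a _ (fun i h0 hi =>
    ⟨mp_lt σ a i h0 hi, not_sameCycle_pow σ (fun h => hab h.symm) i⟩) j hj

theorem merge_pow_left_end (σ : Perm H) {a b : H} (hab : ¬ σ.SameCycle a b) :
    ((swap a b * σ) ^ Function.minimalPeriod σ a) a = b := by
  rw [swap_pow_end σ a b a _ (mp_pos σ a) (fun i h0 hi =>
    ⟨mp_lt σ a i h0 hi, not_sameCycle_pow σ (fun h => hab h.symm) i⟩), mp_pow, swap_apply_left]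

omit [Finite H] in
theorem merge_pow_right (σ : Perm H) {a b : H} (hab : ¬ σ.SameCycle a b) (j : ℕ)
    (hj : j < Function.minimalPeriod σ b) : ((swap a b * σ) ^ j) b = (σ ^ j) b :=
  swap_pow σ a b b _ (fun i h0 hi =>
    ⟨not_sameCycle_pow σ hab i, mp_lt σ b i h0 hi⟩) j hj

theorem merge_pow_right_end (σ : Perm H) {a b : H} (hab : ¬ σ.SameCycle a b) :
    ((swap a b * σ) ^ Function.minimalPeriod σ b) b = a := by
  rw [swap_pow_end σ a b b _ (mp_pos σ b) (fun i h0 hi =>
    ⟨not_sameCycle_pow σ hab i, mp_lt σ b i h0 hi⟩), mp_pow, swap_apply_right]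

theorem merge_mp (σ : Perm H) {a b : H} (hab : ¬ σ.SameCycle a b) :
    Function.minimalPeriod (swap a b * σ) a =
      Function.minimalPeriod σ b + Function.minimalPeriod σ a := by
  have hpa := mp_pos σ a
  apply mp_eq
  · omega
  · rw [pow_add, Perm.mul_apply, merge_pow_left_end σ hab, merge_pow_right_end σ hab]
  · intro j h0 hj
    by_cases hj' : j < Function.minimalPeriod σ a
    · rw [merge_pow_left σ hab j hj']
      exact mp_lt σ a j h0 hj'
    · obtain ⟨i, rfl⟩ : ∃ i, j = i + Function.minimalPeriod σ a :=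
        ⟨j - Function.minimalPeriod σ a, by omega⟩
      rw [pow_add, Perm.mul_apply, merge_pow_left_end σ hab, merge_pow_right σ hab i (by omega)]
      exact not_sameCycle_pow σ hab i

/-- Merging two cycles multiplies the cycle products. -/
theorem merge_cprod (σ : Perm H) {a b : H} (hab : ¬ σ.SameCycle a b) (l : H → G) :
    cprod (swap a b * σ) l a = cprod σ l a * cprod σ l b := by
  rw [cprod_eq_pp, merge_mp σ hab, add_comm, pp_add, merge_pow_left_end σ hab, cprod_eq_pp,
    cprod_eq_pp]
  congr 1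
  · exact pp_congr fun j hj => by rw [merge_pow_left σ hab j hj]
  · exact pp_congr fun j hj => by rw [merge_pow_right σ hab j hj]

theorem merge_sameCycle_left (σ : Perm H) {a b x : H} (hab : ¬ σ.SameCycle a b)
    (h : σ.SameCycle a x) : (swap a b * σ).SameCycle a x := by
  obtain ⟨n, hn⟩ := h.exists_nat_pow_eq
  have h1 : (σ ^ (n % Function.minimalPeriod σ a)) a = x := by
    rw [← hn]
    conv_rhs => rw [← Nat.mod_add_div n (Function.minimalPeriod σ a)]
    rw [pow_add, Perm.mul_apply]
    congr 1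
    rw [pow_mul]
    have h2 : ∀ k : ℕ, ((σ ^ Function.minimalPeriod σ a) ^ k) a = a := by
      intro k
      induction k with
      | zero => simp
      | succ k ih => rw [pow_succ, Perm.mul_apply, mp_pow, ih]
    rw [h2]
  rw [← h1, ← merge_pow_left σ hab _ (Nat.mod_lt _ (mp_pos σ a))]
  exact ⟨((n % Function.minimalPeriod σ a : ℕ) : ℤ), by rw [zpow_natCast]⟩

theorem merge_sameCycle_ab (σ : Perm H) {a b : H} (hab : ¬ σ.SameCycle a b) :
    (swap a b * σ).SameCycle a b :=
  ⟨(Function.minimalPeriod σ a : ℕ), by rw [zpow_natCast, merge_pow_left_end σ hab]⟩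

theorem merge_sameCycle_right (σ : Perm H) {a b x : H} (hab : ¬ σ.SameCycle a b)
    (h : σ.SameCycle b x) : (swap a b * σ).SameCycle a x := by
  have h1 := merge_sameCycle_left σ (a := b) (b := a) (fun h' => hab h'.symm) h
  rw [swap_comm] at h1
  exact (merge_sameCycle_ab σ hab).trans h1

theorem off_sameCycle_iff (σ : Perm H) {a b x y : H} (ha : ¬ σ.SameCycle a x)
    (hb : ¬ σ.SameCycle b x) : (swap a b * σ).SameCycle x y ↔ σ.SameCycle x y := by
  constructor
  · intro h
    obtain ⟨n, hn⟩ := h.exists_nat_pow_eq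
    rw [swap_pow_off σ ha hb] at hn
    exact ⟨n, by simpa using hn⟩
  · intro h
    obtain ⟨n, hn⟩ := h.exists_nat_pow_eq
    rw [← swap_pow_off σ ha hb] at hn
    exact ⟨n, by rw [zpow_natCast]; exact hn⟩

/-- Representatives before and after a merger. -/
theorem merge_reps (σ : Perm H) {a b : H} (hab : ¬ σ.SameCycle a b) :
    ∃ L : List H, IsReps σ (a :: b :: L) ∧ IsReps (swap a b * σ) (a :: L) ∧
      ∀ x ∈ L, ¬ σ.SameCycle a x ∧ ¬ σ.SameCycle b x := by
  classical
  obtain ⟨L, hL1, hL2⟩ := exists_reps σ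
  set L0 := L.filter (fun x => ¬ σ.SameCycle a x ∧ ¬ σ.SameCycle b x) with hL0
  have hmem : ∀ x, x ∈ L0 ↔ x ∈ L ∧ ¬ σ.SameCycle a x ∧ ¬ σ.SameCycle b x := by
    intro x
    rw [hL0, List.mem_filter]
    simp
  have hne : a ≠ b := by
    rintro rfl
    exact hab (Perm.SameCycle.refl _ _)
  have haL : a ∉ L0 := fun h => ((hmem a).mp h).2.1 (Perm.SameCycle.refl _ _)
  have hbL : b ∉ L0 := fun h => ((hmem b).mp h).2.2 (Perm.SameCycle.refl _ _)
  have hnd : L0.Nodup := hL1.filter _
  refine ⟨L0, ⟨?_, ?_⟩, ⟨?_, ?_⟩, fun x hx => ((hmem x).mp hx).2⟩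
  · rw [List.nodup_cons, List.nodup_cons]
    refine ⟨?_, hbL, hnd⟩
    rw [List.mem_cons, not_or]
    exact ⟨hne, haL⟩
  · intro h
    by_cases h1 : σ.SameCycle a h
    · refine ⟨a, ⟨by simp, h1⟩, ?_⟩
      rintro y ⟨hy1, hy2⟩
      rw [List.mem_cons, List.mem_cons] at hy1
      rcases hy1 with rfl | rfl | hy1
      · rfl
      · exact absurd (h1.trans hy2.symm) hab
      · exact absurd (h1.trans hy2.symm) ((hmem y).mp hy1).2.1
    · by_cases h2 : σ.SameCycle b h
      · refine ⟨b, ⟨by simp, h2⟩, ?_⟩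
        rintro y ⟨hy1, hy2⟩
        rw [List.mem_cons, List.mem_cons] at hy1
        rcases hy1 with rfl | rfl | hy1
        · exact absurd hy2 h1
        · rfl
        · exact absurd (h2.trans hy2.symm) ((hmem y).mp hy1).2.2
      · obtain ⟨x, ⟨hx1, hx2⟩, hx3⟩ := hL2 h
        have hx4 : x ∈ L0 := (hmem x).mpr ⟨hx1, fun h' => h1 (h'.trans hx2),
          fun h' => h2 (h'.trans hx2)⟩
        refine ⟨x, ⟨by simp [hx4], hx2⟩, ?_⟩
        rintro y ⟨hy1, hy2⟩
        rw [List.mem_cons, List.mem_cons] at hy1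
        rcases hy1 with rfl | rfl | hy1
        · exact absurd hy2 h1
        · exact absurd hy2 h2
        · exact hx3 y ⟨((hmem y).mp hy1).1, hy2⟩
  · rw [List.nodup_cons]
    exact ⟨haL, hnd⟩
  · intro h
    by_cases h1 : σ.SameCycle a h ∨ σ.SameCycle b h
    · have h3 : (swap a b * σ).SameCycle a h := by
        rcases h1 with h1 | h1
        · exact merge_sameCycle_left σ hab h1
        · exact merge_sameCycle_right σ hab h1
      refine ⟨a, ⟨by simp, h3⟩, ?_⟩
      rintro y ⟨hy1, hy2⟩
      rw [List.mem_cons] at hy1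
      rcases hy1 with rfl | hy1
      · rfl
      · have hy := ((hmem y).mp hy1).2
        rw [off_sameCycle_iff σ hy.1 hy.2] at hy2
        rcases h1 with h1 | h1
        · exact absurd (h1.trans hy2.symm) hy.1
        · exact absurd (h1.trans hy2.symm) hy.2
    · rw [not_or] at h1
      obtain ⟨x, ⟨hx1, hx2⟩, hx3⟩ := hL2 h
      have hx4 : x ∈ L0 := (hmem x).mpr ⟨hx1, fun h' => h1.1 (h'.trans hx2),
        fun h' => h1.2 (h'.trans hx2)⟩
      have hx5 := ((hmem x).mp hx4).2
      refine ⟨x, ⟨by simp [hx4], (off_sameCycle_iff σ hx5.1 hx5.2).mpr hx2⟩, ?_⟩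
      rintro y ⟨hy1, hy2⟩
      rw [List.mem_cons] at hy1
      rcases hy1 with rfl | hy1
      · exfalso
        have h6 := (off_sameCycle_iff σ h1.1 h1.2 (y := y)).mp hy2.symm
        exact h1.1 h6.symm
      · have hy := ((hmem y).mp hy1).2
        rw [off_sameCycle_iff σ hy.1 hy.2] at hy2
        exact hx3 y ⟨((hmem y).mp hy1).1, hy2⟩

theorem merge_ncyc (σ : Perm H) {a b : H} (hab : ¬ σ.SameCycle a b) :
    ncyc (swap a b * σ) + 1 = ncyc σ := by
  obtain ⟨L, h1, h2, _⟩ := merge_reps σ hab
  rw [← h1.length_eq, ← h2.length_eq]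
  simp

/-- Splitting a cycle. -/
theorem split_not (σ : Perm H) {a b : H} (hne : a ≠ b) (hab : σ.SameCycle a b) :
    ¬ (swap a b * σ).SameCycle a b := by
  classical
  have hex : ∃ k, (σ ^ k) a = b := hab.exists_nat_pow_eq
  set k := Nat.find hex with hk
  have hk1 : (σ ^ k) a = b := Nat.find_spec hex
  have hkmin : ∀ j, j < k → (σ ^ j) a ≠ b := fun j hj => Nat.find_min hex hj
  have hk0 : 0 < k := by
    rcases Nat.eq_zero_or_pos k with h | h
    · rw [h] at hk1
      exact absurd hk1 (by simpa using hne)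
    · exact h
  have hka : ∀ j, 0 < j → j < k → (σ ^ j) a ≠ a := by
    intro j h0 hj hc
    apply hkmin (k - j) (by omega)
    rw [← hk1]
    conv_rhs => rw [show k = (k - j) + j by omega, pow_add, Perm.mul_apply, hc]
  have hcond : ∀ j, 0 < j → j < k → (σ ^ j) a ≠ a ∧ (σ ^ j) a ≠ b :=
    fun j h0 hj => ⟨hka j h0 hj, hkmin j hj⟩
  have hend : ((swap a b * σ) ^ k) a = a := by
    rw [swap_pow_end σ a b a k hk0 hcond, hk1, swap_apply_right]
  intro hc
  obtain ⟨n, hn⟩ := hc.exists_nat_pow_eq
  have h2 : ∀ m : ℕ, (((swap a b * σ) ^ k) ^ m) a = a := by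
    intro m
    induction m with
    | zero => simp
    | succ m ih => rw [pow_succ, Perm.mul_apply, hend, ih]
  rw [← Nat.mod_add_div n k, pow_add, Perm.mul_apply, pow_mul, h2,
    swap_pow σ a b a k hcond _ (Nat.mod_lt _ hk0)] at hn
  exact hkmin _ (Nat.mod_lt _ hk0) hn

theorem split_ncyc (σ : Perm H) {a b : H} (hne : a ≠ b) (hab : σ.SameCycle a b) :
    ncyc (swap a b * σ) = ncyc σ + 1 := by
  have h := merge_ncyc (swap a b * σ) (split_not σ hne hab)
  rw [← mul_assoc, swap_mul_self, one_mul] at h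
  exact h.symm

omit [DecidableEq H] in
/-- Changing the labels at one point of the cycle. -/
theorem cprod_change (σ : Perm H) (x : H) (l l' : H → G)
    (h : ∀ j, 0 < j → j < Function.minimalPeriod σ x → l' ((σ ^ j) x) = l ((σ ^ j) x)) :
    cprod σ l x = l x * ((l' x)⁻¹ * cprod σ l' x) := by
  rw [cprod_eq_pp, cprod_eq_pp]
  obtain ⟨m, hm⟩ : ∃ m, Function.minimalPeriod σ x = 1 + m :=
    ⟨Function.minimalPeriod σ x - 1, by have := mp_pos σ x; omega⟩
  rw [hm, pp_add, pp_add, pp_one, pp_one]
  have h2 : pp σ l' ((σ ^ 1) x) m = pp σ l ((σ ^ 1) x) m := by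
    apply pp_congr
    intro j hj
    rw [← Perm.mul_apply, ← pow_add]
    exact h (j + 1) (by omega) (by omega)
  rw [h2]
  group

omit [DecidableEq H] [Finite H] in
theorem cprod_congr (σ : Perm H) (x : H) (l l' : H → G)
    (h : ∀ y, σ.SameCycle x y → l' y = l y) : cprod σ l' x = cprod σ l x :=
  pp_congr fun j _ => h _ ⟨j, by simp⟩

end swap

/-! ### Invariant functions -/

theorem invs_sameCycle [Finite H] {σ : Perm H} {f : H → ℚ} (hf : ∀ h, f (σ h) = f h) {x y : H}
    (h : σ.SameCycle x y) : f x = f y := by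
  obtain ⟨n, hn⟩ := h.exists_nat_pow_eq
  have h1 : ∀ n : ℕ, f ((σ ^ n) x) = f x := by
    intro n
    induction n with
    | zero => simp
    | succ n ih => rw [pow_succ', Perm.mul_apply, hf, ih]
  rw [← hn, h1]

/-- The dimension of the common invariants. -/
noncomputable def cc (φ ι : Perm H) : ℕ := Module.finrank ℚ ↥(invs φ ⊓ invs ι)

theorem mem_invs {σ : Perm H} {f : H → ℚ} : f ∈ invs σ ↔ ∀ h, f (σ h) = f h := Iff.rfl

section count

variable [Fintype H] [DecidableEq H]

omit [Fintype H] in
theorem apply_swap {f : H → ℚ} {a b : H} (h : f a = f b) (x : H) : f (swap a b x) = f x := by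
  rw [swap_apply_def]
  split_ifs with h1 h2
  · rw [h1, h]
  · rw [h2, h]
  · rfl

theorem inv_of_eq {φ ι : Perm H} {a b : H} {f : H → ℚ} (h : f a = f b) :
    f ∈ invs (swap a b * φ) ⊓ invs (ι * swap a b) ↔ f ∈ invs φ ⊓ invs ι := by
  rw [Submodule.mem_inf, Submodule.mem_inf, mem_invs, mem_invs, mem_invs, mem_invs]
  constructor
  · rintro ⟨h1, h2⟩
    refine ⟨fun x => ?_, fun x => ?_⟩
    · have := h1 x
      rw [Perm.mul_apply, apply_swap h] at this
      exact this
    · have := h2 (swap a b x)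
      rw [Perm.mul_apply, swap_apply_self, apply_swap h] at this
      exact this
  · rintro ⟨h1, h2⟩
    refine ⟨fun x => ?_, fun x => ?_⟩
    · rw [Perm.mul_apply, apply_swap h, h1]
    · rw [Perm.mul_apply, h2, apply_swap h]

theorem cc_merge {φ ι : Perm H} {a : H} (hab : ¬ φ.SameCycle a (ι a)) :
    cc (swap a (ι a) * φ) (ι * swap a (ι a)) = cc φ ι := by
  unfold cc
  have h : invs (swap a (ι a) * φ) ⊓ invs (ι * swap a (ι a)) = invs φ ⊓ invs ι := by
    ext f
    constructor
    · intro hf
      have h1 : f a = f (ι a) := invs_sameCycle (Submodule.mem_inf.mp hf).1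
        (merge_sameCycle_ab φ hab)
      exact (inv_of_eq h1).mp hf
    · intro hf
      have h1 : f a = f (ι a) := ((Submodule.mem_inf.mp hf).2 a).symm
      exact (inv_of_eq h1).mpr hf
  rw [h]

theorem cc_split {φ ι : Perm H} (a : H) :
    cc (swap a (ι a) * φ) (ι * swap a (ι a)) ≤ cc φ ι + 1 := by
  unfold cc
  set M' := invs (swap a (ι a) * φ) ⊓ invs (ι * swap a (ι a)) with hM'
  set A := invs φ ⊓ invs ι with hA
  let ℓ : (H → ℚ) →ₗ[ℚ] ℚ := (LinearMap.proj a : (H → ℚ) →ₗ[ℚ] ℚ) -
    (LinearMap.proj (ι a) : (H → ℚ) →ₗ[ℚ] ℚ)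
  let g : M' →ₗ[ℚ] ℚ := ℓ.comp M'.subtype
  have h1 := LinearMap.finrank_range_add_finrank_ker g
  have h2 : Module.finrank ℚ (LinearMap.range g) ≤ 1 := by
    have := Submodule.finrank_le (LinearMap.range g)
    simpa using this
  have hmem : ∀ x : LinearMap.ker g, M'.subtype ((LinearMap.ker g).subtype x) ∈ A := by
    intro x
    have hx : g x.1 = 0 := x.2
    have hx2 : (x.1.1 : H → ℚ) a = (x.1.1 : H → ℚ) (ι a) := by
      have : (x.1.1 : H → ℚ) a - (x.1.1 : H → ℚ) (ι a) = 0 := hx
      linarith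
    exact (inv_of_eq hx2).mp x.1.2
  let e : LinearMap.ker g →ₗ[ℚ] A :=
    LinearMap.codRestrict A (M'.subtype.comp (LinearMap.ker g).subtype) hmem
  have hinj : Function.Injective e := by
    intro x y hxy
    have := congrArg Subtype.val hxy
    exact Subtype.ext (Subtype.ext this)
  have h3 : Module.finrank ℚ (LinearMap.ker g) ≤ Module.finrank ℚ A :=
    LinearMap.finrank_le_finrank_of_injective hinj
  omega

omit [Fintype H] in
/-- Cutting a pair. -/
theorem cut_apply {ι : Perm H} (inv : ∀ h, ι (ι h) = h) (a x : H) :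
    (ι * swap a (ι a)) x = if x = a ∨ x = ι a then x else ι x := by
  rw [Perm.mul_apply]
  by_cases h1 : x = a
  · rw [if_pos (Or.inl h1), h1, swap_apply_left, inv]
  · by_cases h2 : x = ι a
    · rw [if_pos (Or.inr h2), h2, swap_apply_right]
    · rw [swap_apply_of_ne_of_ne h1 h2, if_neg (by rw [not_or]; exact ⟨h1, h2⟩)]

omit [Fintype H] in
theorem cut_inv {ι : Perm H} (inv : ∀ h, ι (ι h) = h) (a x : H) :
    (ι * swap a (ι a)) ((ι * swap a (ι a)) x) = x := by
  rw [cut_apply inv a x]
  split_ifs with h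
  · rw [cut_apply inv, if_pos h]
  · rw [cut_apply inv, if_neg, inv]
    rw [not_or] at h ⊢
    refine ⟨fun h' => h.2 ?_, fun h' => h.1 ?_⟩
    · rw [← h', inv]
    · exact ι.injective h'

theorem cut_support {ι : Perm H} (inv : ∀ h, ι (ι h) = h) {a : H} (ha : ι a ≠ a) :
    (ι * swap a (ι a)).support.card + 2 = ι.support.card := by
  have h1 : (ι * swap a (ι a)).support = (ι.support.erase a).erase (ι a) := by
    ext x
    rw [Perm.mem_support, Finset.mem_erase, Finset.mem_erase, Perm.mem_support, cut_apply inv]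
    by_cases h : x = a ∨ x = ι a
    · rw [if_pos h]
      rcases h with h | h
      · simp [h]
      · simp [h]
    · rw [if_neg h]
      rw [not_or] at h
      simp [h.1, h.2]
  have h2 : a ∈ ι.support := Perm.mem_support.mpr ha
  have h3 : ι a ∈ ι.support.erase a := by
    rw [Finset.mem_erase, Perm.mem_support]
    exact ⟨ha, fun h => ha (ι.injective h)⟩
  rw [h1, Finset.card_erase_of_mem h3, Finset.card_erase_of_mem h2]
  have h4 : 0 < (ι.support.erase a).card := Finset.card_pos.mpr ⟨_, h3⟩
  rw [Finset.card_erase_of_mem h2] at h4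
  omega

omit [Fintype H] in
theorem cut_mul (φ ι : Perm H) (a : H) :
    (ι * swap a (ι a)) * (swap a (ι a) * φ) = ι * φ := by
  rw [mul_assoc, ← mul_assoc (swap a (ι a)), swap_mul_self, one_mul]

omit [DecidableEq H] in
theorem cc_of_le {φ ι : Perm H} (h : ∀ x, φ.SameCycle x (ι x)) : cc φ ι = ncyc φ := by
  unfold cc
  have h1 : invs φ ⊓ invs ι = invs φ := by
    rw [inf_eq_left]
    intro f hf x
    exact (invs_sameCycle hf (h x)).symm
  rw [h1, finrank_invs]

/-- If all common invariants ... then the pairs are in common cycles. -/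
theorem le_of_cc {φ ι : Perm H} (h : ncyc φ ≤ cc φ ι) (x : H) : φ.SameCycle x (ι x) := by
  classical
  have h1 : invs φ ⊓ invs ι = invs φ := by
    apply Submodule.eq_of_le_of_finrank_le inf_le_left
    rw [finrank_invs]
    exact h
  have h2 : invs φ ≤ invs ι := inf_eq_left.mp h1
  let f : H → ℚ := fun y => if φ.SameCycle x y then 1 else 0
  have hf : f ∈ invs φ := by
    intro y
    show (if φ.SameCycle x (φ y) then (1 : ℚ) else 0) = if φ.SameCycle x y then 1 else 0
    congr 1
    exact propext Perm.sameCycle_apply_right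
  have h3 : f (ι x) = f x := h2 hf x
  have h4 : f x = 1 := if_pos (Perm.SameCycle.refl _ _)
  by_contra hc
  have h5 : f (ι x) = 0 := if_neg hc
  rw [h4, h5] at h3
  exact zero_ne_one h3

/-- The Riemann-Hurwitz inequality. -/
theorem rh (n : ℕ) : ∀ (φ ι : Perm H), ι.support.card = n → (∀ h, ι (ι h) = h) →
    2 * (ncyc φ + ncyc (ι * φ)) ≤ n + 4 * cc φ ι := by
  induction n using Nat.strong_induction_on with
  | _ n ih =>
    intro φ ι hn inv
    by_cases h1 : ∃ a, ι a ≠ a
    · obtain ⟨a, ha⟩ := h1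
      have hs := cut_support inv ha
      have h2 := ih _ (by omega) (swap a (ι a) * φ) (ι * swap a (ι a)) rfl (cut_inv inv a)
      rw [cut_mul] at h2
      by_cases h3 : φ.SameCycle a (ι a)
      · have h4 := split_ncyc φ ha.symm h3
        have h5 := cc_split (φ := φ) (ι := ι) a
        omega
      · have h4 := merge_ncyc φ h3
        have h5 := cc_merge h3
        omega
    · have h2 : ι = 1 := by
        ext x
        by_contra hc
        exact h1 ⟨x, hc⟩
      subst h2
      have h3 : cc φ 1 = ncyc φ := cc_of_le fun x => Perm.SameCycle.refl _ _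
      rw [h3, one_mul]
      omega

/-- Labels after cutting a pair. -/
theorem cut_labels {ι : Perm H} (inv : ∀ h, ι (ι h) = h) (a : H) {l : H → G}
    (hl : ∀ h, l (ι h) = (l h)⁻¹) (x : H) :
    (if (ι * swap a (ι a)) x = a ∨ (ι * swap a (ι a)) x = ι a then 1
      else l ((ι * swap a (ι a)) x)) = (if x = a ∨ x = ι a then 1 else l x)⁻¹ := by
  rw [cut_apply inv]
  by_cases h : x = a ∨ x = ι a
  · rw [if_pos h, if_pos h, inv_one]
  · rw [if_neg h, if_neg h, if_neg, hl]
    rw [not_or] at h ⊢
    refine ⟨fun h' => h.2 ?_, fun h' => h.1 ?_⟩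
    · rw [← h', inv]
    · exact ι.injective h'

theorem cut_labels_fix {ι : Perm H} (inv : ∀ h, ι (ι h) = h) (a : H) {l : H → G}
    (hfix : ∀ h, ι h = h → l h = 1) (x : H) (hx : (ι * swap a (ι a)) x = x) :
    (if x = a ∨ x = ι a then 1 else l x) = 1 := by
  rw [cut_apply inv] at hx
  by_cases h : x = a ∨ x = ι a
  · rw [if_pos h]
  · rw [if_neg h] at hx ⊢
    exact hfix x hx

/-- One boundary word on each component. -/
theorem all_one (n : ℕ) : ∀ (φ ι : Perm H) (l : H → G), ι.support.card = n →
    (∀ h, ι (ι h) = h) → (∀ h, l (ι h) = (l h)⁻¹) → (∀ h, ι h = h → l h = 1) →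
    (∀ h, φ.SameCycle h (ι h)) → n + 4 * cc φ ι ≤ 2 * (ncyc φ + ncyc (ι * φ)) →
    ∀ x, cprod φ l x = 1 := by
  induction n using Nat.strong_induction_on with
  | _ n ih =>
    intro φ ι l hn inv hl hfix hsame hcount x
    by_cases h1 : ∃ a, ι a ≠ a
    · obtain ⟨a, ha⟩ := h1
      have hs := cut_support inv ha
      have hsp := split_ncyc φ ha.symm (hsame a)
      have hcc := cc_split (φ := φ) (ι := ι) a
      have hcc2 : cc φ ι = ncyc φ := cc_of_le hsame
      have hrh := rh _ (swap a (ι a) * φ) (ι * swap a (ι a)) rfl (cut_inv inv a)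
      rw [cut_mul] at hrh
      have hsame' : ∀ y, (swap a (ι a) * φ).SameCycle y ((ι * swap a (ι a)) y) :=
        le_of_cc (by omega)
      set l' : H → G := fun y => if y = a ∨ y = ι a then 1 else l y with hl'
      have h2 := ih _ (by omega) (swap a (ι a) * φ) (ι * swap a (ι a)) l' rfl (cut_inv inv a)
        (fun y => cut_labels inv a hl y) (fun y hy => cut_labels_fix inv a hfix y hy) hsame'
        (by rw [cut_mul]; omega)
      have hnot := split_not φ ha.symm (hsame a)
      have hφ : swap a (ι a) * (swap a (ι a) * φ) = φ := by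
        rw [← mul_assoc, swap_mul_self, one_mul]
      -- the cycle products of `a` and `ι a` after cutting
      have ha1 : cprod (swap a (ι a) * φ) l a = l a := by
        rw [cprod_change _ a l l' ?_, h2 a]
        · simp [hl']
        · intro j h0 hj
          have h3 := mp_lt _ a j h0 hj
          have h4 : ((swap a (ι a) * φ) ^ j) a ≠ ι a :=
            not_sameCycle_pow _ (fun h => hnot h.symm) j
          simp only [hl']
          rw [if_neg (by rw [not_or]; exact ⟨h3, h4⟩)]
      have ha2 : cprod (swap a (ι a) * φ) l (ι a) = (l a)⁻¹ := by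
        rw [cprod_change _ (ι a) l l' ?_, h2 (ι a)]
        · simp [hl', hl]
        · intro j h0 hj
          have h3 := mp_lt _ (ι a) j h0 hj
          have h4 : ((swap a (ι a) * φ) ^ j) (ι a) ≠ a := not_sameCycle_pow _ hnot j
          simp only [hl']
          rw [if_neg (by rw [not_or]; exact ⟨h4, h3⟩)]
      have hmain : cprod φ l a = 1 := by
        have h3 := merge_cprod (swap a (ι a) * φ) hnot l
        rw [hφ, ha1, ha2, mul_inv_cancel] at h3
        exact h3
      by_cases hx : φ.SameCycle a x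
      · obtain ⟨g, hg⟩ := cprod_sameCycle l hx
        rw [hg, hmain]
        group
      · have hx2 : ¬ φ.SameCycle (ι a) x := fun h => hx ((hsame a).trans h)
        have h3 : cprod (swap a (ι a) * φ) l x = cprod φ l x := cprod_off φ hx hx2 l
        have h4 : cprod (swap a (ι a) * φ) l' x = cprod (swap a (ι a) * φ) l x := by
          apply cprod_congr
          intro y hy
          rw [off_sameCycle_iff φ hx hx2] at hy
          simp only [hl']
          rw [if_neg]
          rw [not_or]
          constructor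
          · rintro rfl
            exact hx hy.symm
          · rintro rfl
            exact hx2 hy.symm
        rw [← h3, ← h4, h2 x]
    · have h2 : ∀ y, l y = 1 := by
        intro y
        apply hfix
        by_contra hc
        exact h1 ⟨y, hc⟩
      unfold cprod
      simp [h2]

/-- The main induction. -/
theorem main (n : ℕ) : ∀ (φ ι : Perm H) (l : H → G), ι.support.card = n →
    (∀ h, ι (ι h) = h) → (∀ h, l (ι h) = (l h)⁻¹) → (∀ h, ι h = h → l h = 1) →
    n + 4 * cc φ ι ≤ 2 * (ncyc φ + ncyc (ι * φ)) → Dep φ l := by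
  induction n using Nat.strong_induction_on with
  | _ n ih =>
    intro φ ι l hn inv hl hfix hcount
    by_cases h1 : ∃ a, ¬ φ.SameCycle a (ι a)
    · obtain ⟨a, ha⟩ := h1
      have hne : ι a ≠ a := by
        intro h
        rw [h] at ha
        exact ha (Perm.SameCycle.refl _ _)
      have hs := cut_support inv hne
      have hm := merge_ncyc φ ha
      have hcc := cc_merge ha
      set l' : H → G := fun y => if y = a ∨ y = ι a then 1 else l y with hl'
      have h2 : Dep (swap a (ι a) * φ) l' := ih _ (by omega) (swap a (ι a) * φ)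
        (ι * swap a (ι a)) l' rfl (cut_inv inv a)
        (fun y => cut_labels inv a hl y) (fun y hy => cut_labels_fix inv a hfix y hy)
        (by rw [cut_mul]; omega)
      obtain ⟨L, hL1, hL2, hL3⟩ := merge_reps φ ha
      obtain ⟨c, hc⟩ := (dep_iff_reps l' hL2).mp h2
      rw [dep_iff_reps l hL1]
      have haL : a ∉ L := fun h => (hL3 a h).1 (Perm.SameCycle.refl _ _)
      have hιL : ι a ∉ L := fun h => (hL3 _ h).2 (Perm.SameCycle.refl _ _)
      refine ⟨fun x => if x = a then c a * (l a)⁻¹ else if x = ι a then c a else c x, ?_⟩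
      rw [List.map_cons, List.map_cons, List.prod_cons, List.prod_cons]
      rw [List.map_cons, List.prod_cons] at hc
      have h3 : (L.map fun x => (if x = a then c a * (l a)⁻¹ else if x = ι a then c a else c x) *
          cprod φ l x * (if x = a then c a * (l a)⁻¹ else if x = ι a then c a else c x)⁻¹) =
          L.map fun x => c x * cprod (swap a (ι a) * φ) l' x * (c x)⁻¹ := by
        refine List.map_congr_left fun x hx => ?_
        have h4 : x ≠ a := by
          rintro rfl
          exact haL hx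
        have h5 : x ≠ ι a := by
          rintro rfl
          exact hιL hx
        rw [if_neg h4, if_neg h5, cprod_off φ (hL3 x hx).1 (hL3 x hx).2]
        congr 2
        symm
        apply cprod_congr
        intro y hy
        simp only [hl']
        rw [if_neg]
        rw [not_or]
        constructor
        · rintro rfl
          exact (hL3 x hx).1 hy.symm
        · rintro rfl
          exact (hL3 x hx).2 hy.symm
      rw [h3]
      beta_reduce
      rw [if_pos (rfl : a = a), if_neg hne, if_pos (rfl : ι a = ι a)]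
      rw [merge_cprod φ ha l'] at hc
      have h6 : cprod φ l a = l a * cprod φ l' a := by
        rw [cprod_change _ a l l' ?_]
        · simp [hl']
        · intro j h0 hj
          have h7 := mp_lt _ a j h0 hj
          have h8 : (φ ^ j) a ≠ ι a := not_sameCycle_pow _ (fun h => ha h.symm) j
          simp only [hl']
          rw [if_neg (by rw [not_or]; exact ⟨h7, h8⟩)]
      have h9 : cprod φ l (ι a) = (l a)⁻¹ * cprod φ l' (ι a) := by
        rw [cprod_change _ (ι a) l l' ?_]
        · simp [hl', hl]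
        · intro j h0 hj
          have h7 := mp_lt _ (ι a) j h0 hj
          have h8 : (φ ^ j) (ι a) ≠ a := not_sameCycle_pow _ ha j
          simp only [hl']
          rw [if_neg (by rw [not_or]; exact ⟨h8, h7⟩)]
      rw [h6, h9]
      rw [← hc]
      group
    · have hsame : ∀ x, φ.SameCycle x (ι x) := by
        intro x
        by_contra hc
        exact h1 ⟨x, hc⟩
      have h2 := all_one n φ ι l hn inv hl hfix hsame hcount
      obtain ⟨L, hL⟩ := exists_reps φ
      refine ⟨L, fun _ => 1, hL, ?_⟩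
      simp [h2]

end count

end PD

/-- The boundary words of a connected planar surface are dependent. -/
theorem dep_of_pairing {H G : Type} [Fintype H] [Group G] {φ ι : Perm H}
    (inv : ∀ h, ι (ι h) = h) (ne : ∀ h, ι h ≠ h)
    (count : Fintype.card H + 4 ≤ 2 * (ncyc φ + ncyc (ι * φ)))
    (trans : ∀ f : H → ℚ, (∀ h, f (φ h) = f h) → (∀ h, f (ι h) = f h) → ∀ h h', f h = f h')
    (l : H → G) (hl : ∀ h, l (ι h) = (l h)⁻¹) : Dep φ l := by
  classical
  have hcard : ι.support.card = Fintype.card H := by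
    rw [← Finset.card_univ]
    congr 1
    ext x
    simp [ne x]
  have hcc : PD.cc φ ι ≤ 1 := by
    unfold PD.cc
    have h1 : (fun _ => 1 : H → ℚ) ∈ invs φ ⊓ invs ι :=
      Submodule.mem_inf.mpr ⟨fun _ => rfl, fun _ => rfl⟩
    refine finrank_le_one (⟨fun _ => 1, h1⟩ : ↥(invs φ ⊓ invs ι)) fun w => ?_
    by_cases hH : Nonempty H
    · obtain ⟨x0⟩ := hH
      refine ⟨(w.1 : H → ℚ) x0, ?_⟩
      apply Subtype.ext
      funext x
      have h2 := Submodule.mem_inf.mp w.2
      have h3 := trans w.1 h2.1 h2.2 x0 x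
      show (w.1 : H → ℚ) x0 * 1 = _
      rw [mul_one, h3]
    · refine ⟨0, ?_⟩
      apply Subtype.ext
      funext x
      exact absurd ⟨x⟩ hH
  exact PD.main _ φ ι l hcard inv hl (fun h hh => absurd hh (ne h)) (by omega)

end Pool.Agent.H57.Stall
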