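import Mathlib
import Pool.Agent.H57.Stall.Defs
import Pool.Agent.H57.Stall.PairDep

set_option autoImplicit false

namespace Pool.Agent.H57.Stall

open Equiv

section vrel

variable {H Q : Type} {φ : Perm H} {bq : Q → Q} {γ : H → Q}

theorem Vrel.refl (a : Q) : Vrel φ bq γ a a := fun _ _ => rfl

theorem Vrel.symm {a b : Q} (h : Vrel φ bq γ a b) : Vrel φ bq γ b a := fun f hf => (h f hf).symm

theorem Vrel.trans {a b c : Q} (h : Vrel φ bq γ a b) (h' : Vrel φ bq γ b c) : Vrel φ bq γ a c :=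
  fun f hf => (h f hf).trans (h' f hf)

theorem Vrel.turn (h : H) : Vrel φ bq γ (bq (γ h)) (γ (φ h)) := fun f hf => hf h

theorem Vrel.eq_of_tinv {A : Type} {a b : Q} (h : Vrel φ bq γ a b) {f : Q → A}
    (hf : TInv φ bq γ f) : f a = f b := by
  have h1 : (f a = f a) = (f b = f a) := h (fun q => f q = f a) fun h' => by
    show (f (bq (γ h')) = f a) = (f (γ (φ h')) = f a)
    rw [hf h']
  exact (h1.mp rfl).symm

/-- The vertices of `Γ`. -/
def Vset (φ : Perm H) (bq : Q → Q) (γ : H → Q) : Setoid Q where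
  r := Vrel φ bq γ
  iseqv := ⟨Vrel.refl, Vrel.symm, Vrel.trans⟩

/-- The number of vertices of `Γ`. -/
noncomputable def nV (φ : Perm H) (bq : Q → Q) (γ : H → Q) : ℕ :=
  Nat.card (Quotient (Vset φ bq γ))

end vrel

variable {H Q E : Type} [Fintype H] [Fintype Q] {φ ι : Perm H} {bq : Q → Q} {γ : H → Q}
  {be : E → E} {ε : Q → E}

/-- Functions of the origin in `T` give functions of the origin in `Γ`. -/
theorem Adm.tinv_comp {A : Type} (hA : Adm φ bq γ be ε) {F : E → A}
    (hF : ∀ h, F (be (ε (γ h))) = F (ε (γ (φ h)))) : TInv φ bq γ fun q => F (ε q) := by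
  intro h
  show F (ε (bq (γ h))) = F (ε (γ (φ h)))
  rw [hA.eps_bq]
  exact hF h

theorem Adm.redE (hA : Adm φ bq γ be ε) (h : H) : ε (γ (φ h)) ≠ be (ε (γ h)) := by
  intro h1
  refine hA.red h (hA.imm _ _ (Vrel.turn h).symm ?_)
  rw [h1, hA.eps_bq]

theorem Adm.bq_ne (hA : Adm φ bq γ be ε) (q : Q) : bq q ≠ q := by
  intro h
  have := hA.eps_bq q
  rw [h] at this
  exact hA.be_ne _ this.symm

open Classical in
/-- The `1`-chain of a function on the darts. -/
noncomputable def chainOf (bq : Q → Q) (γ : H → Q) (f : H → ℚ) (q : Q) : ℚ :=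
  ∑ h, f h * ((if γ h = q then 1 else 0) - (if γ h = bq q then 1 else 0))

omit [Fintype Q] in
theorem chainOf_bq (hbq : ∀ q, bq (bq q) = q) (f : H → ℚ) (q : Q) :
    chainOf bq γ f (bq q) = - chainOf bq γ f q := by
  unfold chainOf
  rw [← Finset.sum_neg_distrib]
  refine Finset.sum_congr rfl fun h _ => ?_
  rw [hbq]
  ring

theorem sum_mul_chainOf (hbq : ∀ q, bq (bq q) = q) (f : H → ℚ) (F : Q → ℚ) :
    ∑ q, F q * chainOf bq γ f q = ∑ h, f h * (F (γ h) - F (bq (γ h))) := by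
  classical
  unfold chainOf
  simp_rw [Finset.mul_sum]
  rw [Finset.sum_comm]
  refine Finset.sum_congr rfl fun h _ => ?_
  have h1 : ∀ q, F q * (f h * ((if γ h = q then (1 : ℚ) else 0) - if γ h = bq q then 1 else 0)) =
      f h * (if γ h = q then F q else 0) - f h * (if bq (γ h) = q then F q else 0) := by
    intro q
    have h2 : (γ h = bq q) ↔ (bq (γ h) = q) := by
      constructor
      · intro h3; rw [h3, hbq]
      · intro h3; rw [← h3, hbq]
    simp only [h2]
    split_ifs <;> ring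
  rw [Finset.sum_congr rfl fun q _ => h1 q, Finset.sum_sub_distrib, ← Finset.mul_sum,
    ← Finset.mul_sum, Finset.sum_ite_eq, Finset.sum_ite_eq]
  simp only [Finset.mem_univ, if_true]
  ring

theorem Adm.chainOf_eq_zero (hA : Adm φ bq γ be ε) (hP : Pairing φ ι be fun h => ε (γ h))
    (f : H → ℚ) (h1 : ∀ h, f (φ h) = f h) (h2 : ∀ h, f (ι h) = f h) (q : Q) :
    chainOf bq γ f q = 0 := by
  refine hA.inj _ (chainOf_bq hA.bq_bq f) ?_ ?_ q
  · intro F hF
    rw [sum_mul_chainOf hA.bq_bq]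
    simp_rw [mul_sub]
    rw [Finset.sum_sub_distrib, sub_eq_zero]
    rw [← Equiv.sum_comp φ fun h => f h * F (γ h)]
    refine Finset.sum_congr rfl fun h _ => ?_
    rw [h1, hF h]
  · intro g
    rw [sum_mul_chainOf (F := fun q => g (ε q)) hA.bq_bq]
    simp_rw [mul_sub]
    rw [Finset.sum_sub_distrib, sub_eq_zero]
    rw [← Equiv.sum_comp ι fun h => f h * g (ε (γ h))]
    refine Finset.sum_congr rfl fun h _ => ?_
    have h3 : ε (γ (ι h)) = be (ε (γ h)) := hP.lab h
    rw [h2, h3, hA.eps_bq]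

/-- The surface together with the graph is connected. -/
theorem Adm.trans (hA : Adm φ bq γ be ε) (hP : Pairing φ ι be fun h => ε (γ h)) (f : H → ℚ)
    (h1 : ∀ h, f (φ h) = f h) (h2 : ∀ h, f (ι h) = f h) : ∀ h h', f h = f h' := by
  refine hA.ind f h1 fun g hg => ?_
  have h3 := sum_mul_chainOf (γ := γ) hA.bq_bq f g
  have h4 : ∑ q, g q * chainOf bq γ f q = 0 :=
    Finset.sum_eq_zero fun q _ => by rw [hA.chainOf_eq_zero hP f h1 h2 q, mul_zero]
  rw [h4] at h3
  have h5 : ∑ h, f h * (g (γ h) - g (bq (γ h))) = 2 * ∑ h, g (γ h) * f h := by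
    rw [Finset.mul_sum]
    refine Finset.sum_congr rfl fun h _ => ?_
    rw [hg]
    ring
  linarith

/-- Every edge of `Γ` is traversed equally often in both directions. -/
theorem Adm.balanced (hA : Adm φ bq γ be ε) (hP : Pairing φ ι be fun h => ε (γ h)) (q : Q) :
    Nat.card {h // γ h = q} = Nat.card {h // γ h = bq q} := by
  classical
  have h1 := hA.chainOf_eq_zero hP (fun _ => 1) (fun _ => rfl) (fun _ => rfl) q
  unfold chainOf at h1
  simp only [one_mul] at h1
  rw [Finset.sum_sub_distrib, sub_eq_zero] at h1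
  have h2 : ∀ q' : Q, (∑ h, if γ h = q' then (1 : ℚ) else 0) =
      (Nat.card {h // γ h = q'} : ℚ) := by
    intro q'
    rw [Finset.sum_boole, Nat.card_eq_fintype_card, Fintype.card_subtype]
  rw [h2, h2] at h1
  exact_mod_cast h1

theorem Adm.surj (hA : Adm φ bq γ be ε) (hP : Pairing φ ι be fun h => ε (γ h)) (q : Q) :
    ∃ h, γ h = q := by
  obtain ⟨h, h1 | h1⟩ := hA.trav q
  · exact ⟨h, h1⟩
  · have h2 := hA.balanced hP q
    have : Nonempty {h // γ h = bq q} := ⟨⟨h, h1⟩⟩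
    have h3 : 0 < Nat.card {h // γ h = bq q} := Nat.card_pos
    rw [← h2] at h3
    obtain ⟨⟨⟨h', h4⟩⟩, _⟩ := Nat.card_pos_iff.1 h3
    exact ⟨h', h4⟩

/-- A compatible pairing gives dependence. -/
theorem Adm.depAll (hA : Adm φ bq γ be ε) (hP : Pairing φ ι be fun h => ε (γ h)) :
    DepAll φ be fun h => ε (γ h) := by
  intro G _ l hl
  refine dep_of_pairing hP.inv hP.ne hP.count (hA.trans hP) _ fun h => ?_
  have h1 : ε (γ (ι h)) = be (ε (γ h)) := hP.lab h
  show l (ε (γ (ι h))) = (l (ε (γ h)))⁻¹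
  rw [h1, hl]

/-- Refinements. -/
structure Refn {Q' E' : Type} (bq : Q → Q) (γ : H → Q) (be : E → E) (ε : Q → E)
    (bq' : Q' → Q') (γ' : H → Q') (be' : E' → E') (ε' : Q' → E') (π : Q' → Q) (τ : E' → E) :
    Prop where
  pi_bq : ∀ q, π (bq' q) = bq (π q)
  pi_gam : ∀ h, π (γ' h) = γ h
  tau_be : ∀ e, τ (be' e) = be (τ e)
  tau_eps : ∀ q, τ (ε' q) = ε (π q)

/-- The equivalence relation on `Q` generated by the pairing. -/
def Trel (ι : Perm H) (bq : Q → Q) (γ : H → Q) (a b : Q) : Prop :=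
  ∀ f : Q → Prop, (∀ h, f (γ h) = f (bq (γ (ι h)))) → f a = f b

end Pool.Agent.H57.Stall
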