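import Mathlib
import Pool.Agent.H57.Stall.Defs

set_option autoImplicit false

/-!
# Blowing up

All edges of `T` are loops at one vertex; this vertex is replaced by the line with vertices
`0, 1, 2, ...`, and the edge direction `e` is attached at the vertex `pos e`.  The new edges are
`(m, true)`, from `m` to `m + 1`, and `(m, false)`, from `m + 1` to `m`.
-/

namespace Pool.Agent.H57.Stall

open Equiv

variable {H E : Type} (φ : Perm H) (be : E → E) (w : H → E) (pos : E → ℕ)

/-- The number of new darts after `h`. -/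
def gap (h : H) : ℕ :=
  (pos (w (φ h)) - pos (be (w h))) + (pos (be (w h)) - pos (w (φ h)))

/-- The darts of the blow-up. -/
abbrev BH : Type := Σ h : H, Fin (gap φ be w pos h + 1)

/-- The next dart. -/
def bnext (k : BH φ be w pos) : BH φ be w pos :=
  if hk : k.2.1 + 1 < gap φ be w pos k.1 + 1 then ⟨k.1, ⟨k.2.1 + 1, hk⟩⟩
  else ⟨φ k.1, ⟨0, Nat.succ_pos _⟩⟩

section aux

variable {φ be w pos}

theorem bnext_lt (h : H) (j : ℕ) (hj : j < gap φ be w pos h + 1)
    (hj' : j + 1 < gap φ be w pos h + 1) :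
    bnext φ be w pos ⟨h, ⟨j, hj⟩⟩ = ⟨h, ⟨j + 1, hj'⟩⟩ := by
  unfold bnext
  exact dif_pos hj'

theorem bnext_last (h : H) (j : ℕ) (hj : j < gap φ be w pos h + 1)
    (hj' : ¬ j + 1 < gap φ be w pos h + 1) :
    bnext φ be w pos ⟨h, ⟨j, hj⟩⟩ = ⟨φ h, ⟨0, Nat.succ_pos _⟩⟩ := by
  unfold bnext
  exact dif_neg hj'

end aux

theorem bnext_bijective : Function.Bijective (bnext φ be w pos) := by
  constructor
  · rintro ⟨h, ⟨j, hj⟩⟩ ⟨h', ⟨j', hj'⟩⟩ heq
    by_cases h1 : j + 1 < gap φ be w pos h + 1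
    · by_cases h2 : j' + 1 < gap φ be w pos h' + 1
      · rw [bnext_lt h j hj h1, bnext_lt h' j' hj' h2] at heq
        have h3 : h = h' := congrArg Sigma.fst heq
        subst h3
        have h4 := eq_of_heq (Sigma.mk.inj heq).2
        have h5 : j + 1 = j' + 1 := congrArg Fin.val h4
        have h6 : j = j' := Nat.succ.inj h5
        subst h6
        rfl
      · rw [bnext_lt h j hj h1, bnext_last h' j' hj' h2] at heq
        have h3 : h = φ h' := congrArg Sigma.fst heq
        subst h3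
        have h4 := eq_of_heq (Sigma.mk.inj heq).2
        have h5 : j + 1 = 0 := congrArg Fin.val h4
        exact absurd h5 (Nat.succ_ne_zero _)
    · by_cases h2 : j' + 1 < gap φ be w pos h' + 1
      · rw [bnext_last h j hj h1, bnext_lt h' j' hj' h2] at heq
        have h3 : φ h = h' := congrArg Sigma.fst heq
        subst h3
        have h4 := eq_of_heq (Sigma.mk.inj heq).2
        have h5 : 0 = j' + 1 := congrArg Fin.val h4
        exact absurd h5.symm (Nat.succ_ne_zero _)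
      · rw [bnext_last h j hj h1, bnext_last h' j' hj' h2] at heq
        have h3 : φ h = φ h' := congrArg Sigma.fst heq
        have h4 := φ.injective h3
        subst h4
        have h6 : j = j' := by omega
        subst h6
        rfl
  · rintro ⟨h, ⟨j, hj⟩⟩
    cases j with
    | zero =>
      refine ⟨⟨φ⁻¹ h, ⟨gap φ be w pos (φ⁻¹ h), Nat.lt_succ_self _⟩⟩, ?_⟩
      rw [bnext_last _ _ _ (lt_irrefl _)]
      have h1 : φ (φ⁻¹ h) = h := φ.apply_symm_apply h
      rw [h1]
    | succ j => exact ⟨⟨h, ⟨j, Nat.lt_of_succ_lt hj⟩⟩, bnext_lt h j _ hj⟩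

/-- The next dart, as a permutation. -/
noncomputable def Bφ : Perm (BH φ be w pos) := Equiv.ofBijective _ (bnext_bijective φ be w pos)

/-- The labels of the blow-up. -/
def Bw (k : BH φ be w pos) : E ⊕ (ℕ × Bool) :=
  if k.2.1 = 0 then Sum.inl (w k.1)
  else if pos (be (w k.1)) < pos (w (φ k.1)) then
    Sum.inr (pos (be (w k.1)) + (k.2.1 - 1), true)
  else Sum.inr (pos (be (w k.1)) - k.2.1, false)

/-- Reversal of the edges of the blow-up. -/
def Bbe (be : E → E) : E ⊕ (ℕ × Bool) → E ⊕ (ℕ × Bool)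
  | Sum.inl e => Sum.inl (be e)
  | Sum.inr (m, b) => Sum.inr (m, !b)

/-- The origin of an edge of the blow-up. -/
def Blev (pos : E → ℕ) : E ⊕ (ℕ × Bool) → ℕ
  | Sum.inl e => pos e
  | Sum.inr (m, true) => m
  | Sum.inr (m, false) => m + 1

section bl

variable {φ be w pos}

theorem Bφ_apply (k : BH φ be w pos) : Bφ φ be w pos k = bnext φ be w pos k := rfl

theorem inv_fst {A : Type} (f : BH φ be w pos → A) (hf : ∀ k, f (Bφ φ be w pos k) = f k) (h : H)
    (j : ℕ) (hj : j < gap φ be w pos h + 1) :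
    f ⟨h, ⟨j, hj⟩⟩ = f ⟨h, ⟨0, Nat.succ_pos _⟩⟩ := by
  induction j with
  | zero => rfl
  | succ j ih =>
    rw [← ih (Nat.lt_of_succ_lt hj), ← hf ⟨h, ⟨j, Nat.lt_of_succ_lt hj⟩⟩, Bφ_apply,
      bnext_lt h j _ hj]

theorem inv_phi {A : Type} (f : BH φ be w pos → A) (hf : ∀ k, f (Bφ φ be w pos k) = f k)
    (h : H) : f ⟨φ h, ⟨0, Nat.succ_pos _⟩⟩ = f ⟨h, ⟨0, Nat.succ_pos _⟩⟩ := by
  rw [← inv_fst f hf h (gap φ be w pos h) (Nat.lt_succ_self _),
    ← hf ⟨h, ⟨gap φ be w pos h, Nat.lt_succ_self _⟩⟩, Bφ_apply, bnext_last h _ _ (lt_irrefl _)]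

theorem inv_ext {A : Type} (f : H → A) (hf : ∀ h, f (φ h) = f h) (k : BH φ be w pos) :
    f (Bφ φ be w pos k).1 = f k.1 := by
  obtain ⟨h, ⟨j, hj⟩⟩ := k
  rw [Bφ_apply]
  by_cases hj' : j + 1 < gap φ be w pos h + 1
  · rw [bnext_lt h j hj hj']
  · rw [bnext_last h j hj hj']
    exact hf h

theorem Bw_zero (h : H) (hj : 0 < gap φ be w pos h + 1) :
    Bw φ be w pos ⟨h, ⟨0, hj⟩⟩ = Sum.inl (w h) := by
  unfold Bw
  exact if_pos rfl

theorem Bw_up (h : H) (j : ℕ) (hj : j + 1 < gap φ be w pos h + 1)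
    (hp : pos (be (w h)) < pos (w (φ h))) :
    Bw φ be w pos ⟨h, ⟨j + 1, hj⟩⟩ = Sum.inr (pos (be (w h)) + j, true) := by
  unfold Bw
  rw [if_neg (Nat.succ_ne_zero _), if_pos hp]
  rfl

theorem Bw_down (h : H) (j : ℕ) (hj : j + 1 < gap φ be w pos h + 1)
    (hp : ¬ pos (be (w h)) < pos (w (φ h))) :
    Bw φ be w pos ⟨h, ⟨j + 1, hj⟩⟩ = Sum.inr (pos (be (w h)) - (j + 1), false) := by
  unfold Bw
  rw [if_neg (Nat.succ_ne_zero _), if_neg hp]

/-- Labels of the new darts. -/
theorem Bw_succ_ne (h : H) (j : ℕ) (hj : j + 1 < gap φ be w pos h + 1) (e : E) :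
    Bw φ be w pos ⟨h, ⟨j + 1, hj⟩⟩ ≠ Sum.inl e := by
  by_cases hp : pos (be (w h)) < pos (w (φ h))
  · rw [Bw_up h j hj hp]; simp
  · rw [Bw_down h j hj hp]; simp

theorem Bw_inl (k : BH φ be w pos) (e : E) (hk : Bw φ be w pos k = Sum.inl e) :
    k = ⟨k.1, ⟨0, Nat.succ_pos _⟩⟩ ∧ w k.1 = e := by
  obtain ⟨h, ⟨j, hj⟩⟩ := k
  cases j with
  | zero =>
    refine ⟨rfl, ?_⟩
    rw [Bw_zero] at hk
    exact Sum.inl.inj hk
  | succ j => exact absurd hk (Bw_succ_ne h j hj e)

theorem Bw_inr (k : BH φ be w pos) (x : ℕ × Bool) (hk : Bw φ be w pos k = Sum.inr x) :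
    ∃ (j : ℕ) (hj : j + 1 < gap φ be w pos k.1 + 1), k = ⟨k.1, ⟨j + 1, hj⟩⟩ := by
  obtain ⟨h, ⟨j, hj⟩⟩ := k
  cases j with
  | zero =>
    rw [Bw_zero] at hk
    exact absurd hk (by simp)
  | succ j => exact ⟨j, hj, rfl⟩

/-- Invariant functions are constant on cycles. -/
theorem inv_sameCycle {K A : Type} {σ : Perm K} (f : K → A) (hf : ∀ x, f (σ x) = f x) {x y : K}
    (h : σ.SameCycle x y) : f x = f y := by
  have key : ∀ (n : ℤ) (x : K), f ((σ ^ n) x) = f x := by
    intro n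
    induction n using Int.induction_on with
    | zero => intro x; simp
    | succ i ih =>
      intro x
      rw [zpow_add_one, Perm.mul_apply, ih, hf]
    | pred i ih =>
      intro x
      rw [zpow_sub_one, Perm.mul_apply, ih, ← hf (σ⁻¹ x)]
      exact congrArg f (σ.apply_symm_apply x)
  obtain ⟨n, hn⟩ := h
  rw [← hn, key]

end bl

theorem Blev_turn (k : BH φ be w pos) :
    Blev pos (Bbe be (Bw φ be w pos k)) = Blev pos (Bw φ be w pos (Bφ φ be w pos k)) := by
  obtain ⟨h, ⟨j, hj⟩⟩ := k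
  have hg : gap φ be w pos h =
    (pos (w (φ h)) - pos (be (w h))) + (pos (be (w h)) - pos (w (φ h))) := rfl
  rw [Bφ_apply]
  by_cases hp : pos (be (w h)) < pos (w (φ h))
  · have hR : Blev pos (Bw φ be w pos (bnext φ be w pos ⟨h, ⟨j, hj⟩⟩)) = pos (be (w h)) + j := by
      by_cases hj' : j + 1 < gap φ be w pos h + 1
      · rw [bnext_lt h j hj hj', Bw_up h j hj' hp]
        rfl
      · rw [bnext_last h j hj hj', Bw_zero]
        show pos (w (φ h)) = _
        omega
    rw [hR]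
    cases j with
    | zero => rw [Bw_zero]; rfl
    | succ j => rw [Bw_up h j hj hp]; rfl
  · have hR : Blev pos (Bw φ be w pos (bnext φ be w pos ⟨h, ⟨j, hj⟩⟩)) = pos (be (w h)) - j := by
      by_cases hj' : j + 1 < gap φ be w pos h + 1
      · rw [bnext_lt h j hj hj', Bw_down h j hj' hp]
        show pos (be (w h)) - (j + 1) + 1 = _
        omega
      · rw [bnext_last h j hj hj', Bw_zero]
        show pos (w (φ h)) = _
        omega
    rw [hR]
    cases j with
    | zero => rw [Bw_zero]; rfl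
    | succ j => rw [Bw_down h j hj hp]; rfl

theorem ncyc_Bφ [Finite H] : ncyc (Bφ φ be w pos) = ncyc φ := by
  unfold ncyc
  have hmk : ∀ (K : Type) (σ : Perm K) (x y : K),
      (Quotient.mk (Perm.SameCycle.setoid σ) x = Quotient.mk (Perm.SameCycle.setoid σ) y) ↔
        σ.SameCycle x y := by
    intro K σ x y
    constructor
    · intro h; exact Quotient.exact h
    · intro h; exact Quotient.sound h
  have hstep : ∀ (K : Type) (σ : Perm K) (x : K),
      Quotient.mk (Perm.SameCycle.setoid σ) (σ x) = Quotient.mk (Perm.SameCycle.setoid σ) x := by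
    intro K σ x
    rw [hmk]
    exact Perm.sameCycle_apply_left.2 (Perm.SameCycle.refl σ x)
  refine Nat.card_congr
    { toFun := Quotient.lift (fun k : BH φ be w pos =>
        Quotient.mk (Perm.SameCycle.setoid φ) k.1) ?_
      invFun := Quotient.lift (fun h : H => Quotient.mk (Perm.SameCycle.setoid (Bφ φ be w pos))
        (⟨h, ⟨0, Nat.succ_pos _⟩⟩ : BH φ be w pos)) ?_
      left_inv := ?_
      right_inv := ?_ }
  · intro a b hab
    exact inv_sameCycle (σ := Bφ φ be w pos) (fun k : BH φ be w pos =>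
      Quotient.mk (Perm.SameCycle.setoid φ) k.1)
      (fun k => inv_ext (fun h => Quotient.mk (Perm.SameCycle.setoid φ) h) (hstep H φ) k) hab
  · intro a b hab
    exact inv_sameCycle (σ := φ) (fun h : H =>
      Quotient.mk (Perm.SameCycle.setoid (Bφ φ be w pos))
        (⟨h, ⟨0, Nat.succ_pos _⟩⟩ : BH φ be w pos))
      (fun h => inv_phi (fun k => Quotient.mk (Perm.SameCycle.setoid (Bφ φ be w pos)) k)
        (hstep _ _) h) hab
  · intro x
    refine Quotient.inductionOn x fun k => ?_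
    obtain ⟨h, ⟨j, hj⟩⟩ := k
    exact (inv_fst (fun k => Quotient.mk (Perm.SameCycle.setoid (Bφ φ be w pos)) k)
        (hstep _ _) h j hj).symm
  · intro x
    refine Quotient.inductionOn x fun h => ?_
    rfl

end Pool.Agent.H57.Stall
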