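import Mathlib
import Pool.Agent.H57.Stall.DepLib

set_option autoImplicit false
set_option linter.unusedSectionVars false

namespace Pool.Agent.H57.Stall

open Equiv

variable {H G : Type} [Group G]

namespace DD

/-- Partial products along a cycle. -/
def pp {H G : Type} [Group G] (σ : Perm H) (l : H → G) (x : H) (n : ℕ) : G :=
  ((List.range n).map fun i => l ((σ ^ i) x)).prod

theorem pp_add (σ : Perm H) (l : H → G) (x : H) (m n : ℕ) :
    pp σ l x (m + n) = pp σ l x m * pp σ l ((σ ^ m) x) n := by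
  unfold pp
  rw [List.range_add, List.map_append, List.prod_append, List.map_map]
  congr 2
  refine List.map_congr_left fun i _ => ?_
  simp only [Function.comp]
  rw [add_comm m i, pow_add, Perm.mul_apply]

theorem pp_one (σ : Perm H) (l : H → G) (x : H) : pp σ l x 1 = l x := by
  simp [pp]

theorem pp_trivial (σ : Perm H) (l : H → G) (x : H) (n : ℕ)
    (h : ∀ j, j < n → l ((σ ^ j) x) = 1) : pp σ l x n = 1 := by
  unfold pp
  apply List.prod_eq_one
  intro g hg
  rw [List.mem_map] at hg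
  obtain ⟨j, hj, rfl⟩ := hg
  exact h j (List.mem_range.mp hj)

theorem mp_pos [Finite H] (σ : Perm H) (x : H) : 0 < Function.minimalPeriod σ x :=
  Function.minimalPeriod_pos_of_mem_periodicPts (σ.injective.mem_periodicPts x)

theorem mp_pow (σ : Perm H) (x : H) : (σ ^ Function.minimalPeriod σ x) x = x := by
  have := Function.isPeriodicPt_minimalPeriod σ x
  rw [Function.IsPeriodicPt, Perm.iterate_eq_pow] at this
  exact this

theorem mp_lt (σ : Perm H) (x : H) (j : ℕ) (h0 : 0 < j) (hj : j < Function.minimalPeriod σ x) :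
    (σ ^ j) x ≠ x := by
  intro h
  refine Function.not_isPeriodicPt_of_pos_of_lt_minimalPeriod h0.ne' hj ?_
  rw [Function.IsPeriodicPt, Perm.iterate_eq_pow]
  exact h

theorem mp_eq [Finite H] (σ : Perm H) (x : H) (p : ℕ) (hp : 0 < p) (h : (σ ^ p) x = x)
    (hlt : ∀ j, 0 < j → j < p → (σ ^ j) x ≠ x) : Function.minimalPeriod σ x = p := by
  apply le_antisymm
  · apply Function.IsPeriodicPt.minimalPeriod_le hp
    rw [Function.IsPeriodicPt, Perm.iterate_eq_pow]
    exact h
  · by_contra hc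
    exact hlt _ (mp_pos σ x) (not_le.mp hc) (mp_pow σ x)

variable {H' : Type}

/-- The total return time. -/
def tt (φ' : Perm H') (k : H' → ℕ) (x : H') (n : ℕ) : ℕ :=
  ∑ j ∈ Finset.range n, k ((φ' ^ j) x)

theorem tt_succ (φ' : Perm H') (k : H' → ℕ) (x : H') (n : ℕ) :
    tt φ' k x (n + 1) = tt φ' k x n + k ((φ' ^ n) x) := by
  unfold tt
  rw [Finset.sum_range_succ]

theorem le_tt (φ' : Perm H') (k : H' → ℕ) (hk : ∀ x, 0 < k x) (x : H') (n : ℕ) :
    n ≤ tt φ' k x n := by
  induction n with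
  | zero => exact Nat.zero_le _
  | succ n ih =>
    rw [tt_succ]
    have := hk ((φ' ^ n) x)
    omega

theorem tt_find (φ' : Perm H') (k : H' → ℕ) (x : H') (m j : ℕ) (hj : j < tt φ' k x m) :
    ∃ n, n < m ∧ tt φ' k x n ≤ j ∧ j < tt φ' k x (n + 1) := by
  induction m with
  | zero =>
    exfalso
    unfold tt at hj
    simp at hj
  | succ m ih =>
    by_cases h : j < tt φ' k x m
    · obtain ⟨n, h1, h2⟩ := ih h
      exact ⟨n, by omega, h2⟩
    · exact ⟨m, by omega, by omega, hj⟩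

theorem pow_tt {φ : Perm H} {φ' : Perm H'} (i : H' → H) (k : H' → ℕ)
    (hk : ∀ x, i (φ' x) = (φ ^ k x) (i x)) (x : H') (n : ℕ) :
    (φ ^ tt φ' k x n) (i x) = i ((φ' ^ n) x) := by
  induction n with
  | zero => simp [tt]
  | succ n ih =>
    rw [tt_succ, add_comm, pow_add, Perm.mul_apply, ih, ← hk, ← Perm.mul_apply, ← pow_succ']

theorem pow_find {φ : Perm H} {φ' : Perm H'} (i : H' → H) (k : H' → ℕ)
    (_hk0 : ∀ x, 0 < k x) (hk : ∀ x, i (φ' x) = (φ ^ k x) (i x))
    (hk2 : ∀ x, ∀ j, 0 < j → j < k x → (φ ^ j) (i x) ∉ Set.range i) (x : H') (m j : ℕ)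
    (hj : j < tt φ' k x m) (hr : (φ ^ j) (i x) ∈ Set.range i) :
    ∃ n, n < m ∧ j = tt φ' k x n := by
  obtain ⟨n, h1, h2, h3⟩ := tt_find φ' k x m j hj
  refine ⟨n, h1, ?_⟩
  by_contra hne
  rw [tt_succ] at h3
  apply hk2 ((φ' ^ n) x) (j - tt φ' k x n) (by omega) (by omega)
  rw [← pow_tt i k hk, ← Perm.mul_apply, ← pow_add]
  rw [show j - tt φ' k x n + tt φ' k x n = j by omega]
  exact hr

end DD

/-- Deleting darts with trivial labels: `φ'` is the first return map of `φ` to the range of `i`,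
every cycle of `φ` meets the range of `i`, and the labels off the range of `i` are trivial. -/
theorem cprod_del {H' : Type} [Finite H] {φ : Perm H} {φ' : Perm H'} (i : H' → H)
    (hi : Function.Injective i) (l : H → G)
    (hret : ∀ x, ∃ k, 0 < k ∧ i (φ' x) = (φ ^ k) (i x) ∧
      ∀ j, 0 < j → j < k → (φ ^ j) (i x) ∉ Set.range i)
    (h1 : ∀ h, h ∉ Set.range i → l h = 1) (x : H') :
    cprod φ' (fun x => l (i x)) x = cprod φ l (i x) := by
  have : Finite H' := Finite.of_injective i hi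
  choose k hk0 hk hk2 using hret
  have hpp : ∀ n, DD.pp φ l (i x) (DD.tt φ' k x n) = DD.pp φ' (fun x => l (i x)) x n := by
    intro n
    induction n with
    | zero => simp [DD.tt, DD.pp]
    | succ n ih =>
      rw [DD.tt_succ, DD.pp_add, DD.pp_add, ih, DD.pow_tt i k hk, DD.pp_one]
      congr 1
      obtain ⟨m, hm⟩ : ∃ m, k ((φ' ^ n) x) = 1 + m :=
        ⟨k ((φ' ^ n) x) - 1, by have := hk0 ((φ' ^ n) x); omega⟩
      rw [hm, DD.pp_add, DD.pp_one, DD.pp_trivial, mul_one]
      intro j hj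
      apply h1
      rw [← Perm.mul_apply, ← pow_add]
      exact hk2 _ (j + 1) (by omega) (by omega)
  have hp' := DD.mp_pos φ' x
  have hmp : Function.minimalPeriod φ (i x) = DD.tt φ' k x (Function.minimalPeriod φ' x) := by
    apply DD.mp_eq
    · have := DD.le_tt φ' k hk0 x (Function.minimalPeriod φ' x)
      omega
    · rw [DD.pow_tt i k hk, DD.mp_pow]
    · intro j h0 hj hc
      obtain ⟨n, hn1, hn2⟩ := DD.pow_find i k hk0 hk hk2 x _ j hj ⟨x, hc.symm⟩
      rw [hn2, DD.pow_tt i k hk] at hc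
      have hn0 : 0 < n := by
        rcases Nat.eq_zero_or_pos n with h | h
        · rw [h] at hn2
          simp [DD.tt] at hn2
          omega
        · exact h
      exact DD.mp_lt φ' x n hn0 hn1 (hi hc)
  show DD.pp φ' (fun x => l (i x)) x (Function.minimalPeriod φ' x) =
    DD.pp φ l (i x) (Function.minimalPeriod φ (i x))
  rw [hmp, hpp]

theorem dep_del {H' : Type} [Finite H] {φ : Perm H} {φ' : Perm H'} (i : H' → H)
    (hi : Function.Injective i) (l : H → G)
    (hret : ∀ x, ∃ k, 0 < k ∧ i (φ' x) = (φ ^ k) (i x) ∧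
      ∀ j, 0 < j → j < k → (φ ^ j) (i x) ∉ Set.range i)
    (hmeet : ∀ h, ∃ x, φ.SameCycle (i x) h)
    (h1 : ∀ h, h ∉ Set.range i → l h = 1) :
    Dep φ' (fun x => l (i x)) ↔ Dep φ l := by
  classical
  have : Finite H' := Finite.of_injective i hi
  have hdel := cprod_del i hi l hret h1
  choose k hk0 hk hk2 using hret
  have hsame : ∀ x y, φ.SameCycle (i x) (i y) ↔ φ'.SameCycle x y := by
    intro x y
    constructor
    · intro h
      obtain ⟨j, hj⟩ := h.exists_nat_pow_eq
      have h2 := DD.le_tt φ' k hk0 x (j + 1)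
      obtain ⟨n, _, hn⟩ := DD.pow_find i k hk0 hk hk2 x (j + 1) j (by omega) ⟨y, hj.symm⟩
      rw [hn, DD.pow_tt i k hk] at hj
      exact ⟨(n : ℤ), by rw [zpow_natCast]; exact hi hj⟩
    · intro h
      obtain ⟨n, hn⟩ := h.exists_nat_pow_eq
      exact ⟨(DD.tt φ' k x n : ℤ), by rw [zpow_natCast, DD.pow_tt i k hk, hn]⟩
  obtain ⟨L, hL⟩ := exists_reps φ'
  have hL' : IsReps φ (L.map i) := by
    refine ⟨hL.1.map hi, fun h => ?_⟩
    obtain ⟨x, hx⟩ := hmeet h
    obtain ⟨y, ⟨hy1, hy2⟩, hy3⟩ := hL.2 x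
    refine ⟨i y, ⟨List.mem_map_of_mem hy1, ((hsame y x).mpr hy2).trans hx⟩, ?_⟩
    rintro z ⟨hz1, hz2⟩
    rw [List.mem_map] at hz1
    obtain ⟨w, hw1, rfl⟩ := hz1
    congr 1
    exact hy3 w ⟨hw1, (hsame w x).mp (hz2.trans hx.symm)⟩
  rw [dep_iff_reps _ hL, dep_iff_reps _ hL']
  constructor
  · rintro ⟨c, hc⟩
    refine ⟨Function.extend i c (fun _ => 1), ?_⟩
    rw [← hc, List.map_map]
    congr 1
    refine List.map_congr_left fun x _ => ?_
    simp only [Function.comp]
    rw [hi.extend_apply, hdel]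
  · rintro ⟨c, hc⟩
    refine ⟨fun x => c (i x), ?_⟩
    rw [← hc, List.map_map]
    congr 1
    refine List.map_congr_left fun x _ => ?_
    simp only [Function.comp]
    rw [hdel]

end Pool.Agent.H57.Stall
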