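import Mathlib
import Pool.Agent.H57.Stall.Basic
import Pool.Agent.H57.Stall.DepDel
import Pool.Agent.H57.Stall.BlowDefs

set_option autoImplicit false

namespace Pool.Agent.H57.Stall

open Equiv

section blow

variable {H Q E : Type} {φ : Perm H} {bq : Q → Q} {γ : H → Q} {be : E → E} {ε : Q → E}
  {pos : E → ℕ}

/-! ### The darts of the blow-up -/

/-- The first dart of a block. -/
def blI (φ : Perm H) (be : E → E) (w : H → E) (pos : E → ℕ) (h : H) : BH φ be w pos :=
  ⟨h, ⟨0, Nat.succ_pos _⟩⟩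

theorem blI_injective (w : H → E) : Function.Injective (blI φ be w pos) := by
  intro a b h
  exact congrArg Sigma.fst h

theorem bl_pow (w : H → E) (h : H) (j : ℕ) (hj : j < gap φ be w pos h + 1) :
    ((Bφ φ be w pos) ^ j) (blI φ be w pos h) = ⟨h, ⟨j, hj⟩⟩ := by
  induction j with
  | zero => rfl
  | succ n ih =>
    rw [pow_succ', Perm.mul_apply, ih (by omega)]
    show bnext φ be w pos ⟨h, ⟨n, _⟩⟩ = _
    unfold bnext
    rw [dif_pos (by simpa using hj)]

theorem bl_pow_last (w : H → E) (h : H) :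
    ((Bφ φ be w pos) ^ (gap φ be w pos h + 1)) (blI φ be w pos h) = blI φ be w pos (φ h) := by
  rw [pow_succ', Perm.mul_apply, bl_pow w h _ (Nat.lt_succ_self _)]
  show bnext φ be w pos ⟨h, ⟨_, _⟩⟩ = _
  unfold bnext
  rw [dif_neg (by simp)]
  rfl

theorem bl_ret (w : H → E) (x : H) : ∃ k, 0 < k ∧
    blI φ be w pos (φ x) = ((Bφ φ be w pos) ^ k) (blI φ be w pos x) ∧
      ∀ j, 0 < j → j < k → ((Bφ φ be w pos) ^ j) (blI φ be w pos x) ∉
        Set.range (blI φ be w pos) := by
  refine ⟨gap φ be w pos x + 1, Nat.succ_pos _, (bl_pow_last w x).symm, ?_⟩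
  rintro j hj hjk ⟨y, hy⟩
  rw [bl_pow w x j hjk] at hy
  have h1 : x = y := (congrArg Sigma.fst hy).symm
  subst h1
  have h2 : (0 : ℕ) = j := by
    have := congrArg (fun z : BH φ be w pos => z.2.1) hy
    exact this
  omega

theorem bl_meet (w : H → E) (k : BH φ be w pos) :
    ∃ x, (Bφ φ be w pos).SameCycle (blI φ be w pos x) k :=
  ⟨k.1, ⟨(k.2.1 : ℤ), by rw [zpow_natCast, bl_pow w k.1 k.2.1 k.2.2]⟩⟩

theorem bl_inv (w : H → E) {A : Type} {a : BH φ be w pos → A}
    (ha : ∀ k, a (Bφ φ be w pos k) = a k) (k : BH φ be w pos) : a k = a (blI φ be w pos k.1) := by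
  have h : ∀ (n : ℕ) (x : BH φ be w pos), a (((Bφ φ be w pos) ^ n) x) = a x := by
    intro n x
    induction n with
    | zero => rfl
    | succ n ih => rw [pow_succ', Perm.mul_apply, ha, ih]
  rw [← h k.2.1 (blI φ be w pos k.1), bl_pow w k.1 k.2.1 k.2.2]

theorem bl_inv_phi (w : H → E) {A : Type} {a : BH φ be w pos → A}
    (ha : ∀ k, a (Bφ φ be w pos k) = a k) (h : H) :
    a (blI φ be w pos (φ h)) = a (blI φ be w pos h) := by
  have h' : ∀ (n : ℕ) (x : BH φ be w pos), a (((Bφ φ be w pos) ^ n) x) = a x := by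
    intro n x
    induction n with
    | zero => rfl
    | succ n ih => rw [pow_succ', Perm.mul_apply, ha, ih]
  rw [← bl_pow_last w h, h']

/-! ### The graph of the blow-up -/

/-- Reversal. -/
def blBq {Q V : Type} (bq : Q → Q) : Q ⊕ (V × ℕ × Bool) → Q ⊕ (V × ℕ × Bool)
  | Sum.inl q => Sum.inl (bq q)
  | Sum.inr (v, m, b) => Sum.inr (v, m, !b)

/-- The map to the line with petals. -/
def blEps {Q V E : Type} (ε : Q → E) : Q ⊕ (V × ℕ × Bool) → E ⊕ (ℕ × Bool)
  | Sum.inl q => Sum.inl (ε q)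
  | Sum.inr (_, m, b) => Sum.inr (m, b)

/-- The edge traversed by a dart. -/
def blGam (φ : Perm H) (bq : Q → Q) (γ : H → Q) (be : E → E) (ε : Q → E) (pos : E → ℕ)
    (k : BH φ be (fun h => ε (γ h)) pos) : Q ⊕ (Quotient (Vset φ bq γ) × ℕ × Bool) :=
  if k.2.1 = 0 then Sum.inl (γ k.1)
  else if pos (be (ε (γ k.1))) < pos (ε (γ (φ k.1))) then
    Sum.inr (Quotient.mk _ (bq (γ k.1)), pos (be (ε (γ k.1))) + (k.2.1 - 1), true)
  else Sum.inr (Quotient.mk _ (bq (γ k.1)), pos (be (ε (γ k.1))) - k.2.1, false)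

/-- The origin. -/
def blO (φ : Perm H) (bq : Q → Q) (γ : H → Q) (ε : Q → E) (pos : E → ℕ) :
    Q ⊕ (Quotient (Vset φ bq γ) × ℕ × Bool) → Quotient (Vset φ bq γ) × ℕ
  | Sum.inl q => (Quotient.mk _ q, pos (ε q))
  | Sum.inr (v, m, true) => (v, m)
  | Sum.inr (v, m, false) => (v, m + 1)

theorem blEps_gam (k : BH φ be (fun h => ε (γ h)) pos) :
    blEps ε (blGam φ bq γ be ε pos k) = Bw φ be (fun h => ε (γ h)) pos k := by
  unfold blGam Bw
  split_ifs <;> rfl

theorem blGam_I (h : H) :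
    blGam φ bq γ be ε pos (blI φ be (fun h => ε (γ h)) pos h) = Sum.inl (γ h) := by
  unfold blGam blI
  simp

theorem blBq_blBq (h : ∀ q, bq (bq q) = q) {V : Type} (x : Q ⊕ (V × ℕ × Bool)) :
    blBq bq (blBq bq x) = x := by
  rcases x with q | ⟨v, m, b⟩
  · simp [blBq, h]
  · simp [blBq]

theorem blO_turn (heps : ∀ q, ε (bq q) = be (ε q)) (k : BH φ be (fun h => ε (γ h)) pos) :
    blO φ bq γ ε pos (blBq bq (blGam φ bq γ be ε pos k)) =
      blO φ bq γ ε pos (blGam φ bq γ be ε pos (Bφ φ be (fun h => ε (γ h)) pos k)) := by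
  obtain ⟨h, j, hj⟩ := k
  have hg : gap φ be (fun h => ε (γ h)) pos h =
    (pos (ε (γ (φ h))) - pos (be (ε (γ h)))) + (pos (be (ε (γ h))) - pos (ε (γ (φ h)))) := rfl
  have hturn : (Quotient.mk (Vset φ bq γ) (bq (γ h))) = Quotient.mk (Vset φ bq γ) (γ (φ h)) :=
    Quotient.sound (Vrel.turn h)
  by_cases hl : j + 1 < gap φ be (fun h => ε (γ h)) pos h + 1
  · have hn : Bφ φ be (fun h => ε (γ h)) pos ⟨h, ⟨j, hj⟩⟩ = ⟨h, ⟨j + 1, hl⟩⟩ := by
      show bnext φ be _ pos ⟨h, ⟨j, hj⟩⟩ = _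
      unfold bnext
      rw [dif_pos hl]
    rw [hn]
    unfold blGam
    by_cases hj0 : j = 0
    · subst hj0
      by_cases hp : pos (be (ε (γ h))) < pos (ε (γ (φ h)))
      · simp [blBq, blO, hp, heps]
      · simp [blBq, blO, hp, heps]
        omega
    · by_cases hp : pos (be (ε (γ h))) < pos (ε (γ (φ h)))
      · simp [blBq, blO, hp, hj0]
        omega
      · simp [blBq, blO, hp, hj0]
        omega
  · have hn : Bφ φ be (fun h => ε (γ h)) pos ⟨h, ⟨j, hj⟩⟩ =
        ⟨φ h, ⟨0, Nat.succ_pos _⟩⟩ := by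
      show bnext φ be _ pos ⟨h, ⟨j, hj⟩⟩ = _
      unfold bnext
      rw [dif_neg hl]
    rw [hn]
    unfold blGam
    by_cases hj0 : j = 0
    · subst hj0
      simp only [if_true, blBq, blO, hturn, heps, Prod.mk.injEq, true_and]
      omega
    · by_cases hp : pos (be (ε (γ h))) < pos (ε (γ (φ h)))
      · simp [blBq, blO, hp, hj0, hturn]
        omega
      · simp [blBq, blO, hp, hj0, hturn]
        omega

theorem bl_red (hred : ∀ h, γ (φ h) ≠ bq (γ h)) (k : BH φ be (fun h => ε (γ h)) pos) :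
    blGam φ bq γ be ε pos (Bφ φ be (fun h => ε (γ h)) pos k) ≠
      blBq bq (blGam φ bq γ be ε pos k) := by
  obtain ⟨h, j, hj⟩ := k
  by_cases hl : j + 1 < gap φ be (fun h => ε (γ h)) pos h + 1
  · have hn : Bφ φ be (fun h => ε (γ h)) pos ⟨h, ⟨j, hj⟩⟩ = ⟨h, ⟨j + 1, hl⟩⟩ := by
      show bnext φ be _ pos ⟨h, ⟨j, hj⟩⟩ = _
      unfold bnext
      rw [dif_pos hl]
    rw [hn]
    unfold blGam
    by_cases hj0 : j = 0
    · subst hj0
      by_cases hp : pos (be (ε (γ h))) < pos (ε (γ (φ h)))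
      · simp [blBq, hp]
      · simp [blBq, hp]
    · by_cases hp : pos (be (ε (γ h))) < pos (ε (γ (φ h)))
      · simp [blBq, hp, hj0]
      · simp [blBq, hp, hj0]
  · have hn : Bφ φ be (fun h => ε (γ h)) pos ⟨h, ⟨j, hj⟩⟩ =
        ⟨φ h, ⟨0, Nat.succ_pos _⟩⟩ := by
      show bnext φ be _ pos ⟨h, ⟨j, hj⟩⟩ = _
      unfold bnext
      rw [dif_neg hl]
    rw [hn]
    unfold blGam
    by_cases hj0 : j = 0
    · subst hj0
      simpa [blBq] using hred h
    · by_cases hp : pos (be (ε (γ h))) < pos (ε (γ (φ h)))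
      · simp [blBq, hp, hj0]
      · simp [blBq, hp, hj0]

end blow

section blow2

variable {H Q E : Type} {φ : Perm H} {bq : Q → Q} {γ : H → Q} {be : E → E} {ε : Q → E}
  {pos : E → ℕ}

/-- The traversed edges of the blow-up. -/
abbrev BlQ (φ : Perm H) (bq : Q → Q) (γ : H → Q) (be : E → E) (ε : Q → E) (pos : E → ℕ) : Type :=
  {x : Q ⊕ (Quotient (Vset φ bq γ) × ℕ × Bool) //
    ∃ k, blGam φ bq γ be ε pos k = x ∨ blGam φ bq γ be ε pos k = blBq bq x}

theorem blQ_finite [Finite H] (h : ∀ q, bq (bq q) = q) : Finite (BlQ φ bq γ be ε pos) := by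
  have h1 : (Set.range (blGam φ bq γ be ε pos) ∪
      Set.range (fun k => blBq bq (blGam φ bq γ be ε pos k))).Finite :=
    (Set.finite_range _).union (Set.finite_range _)
  refine (h1.subset ?_).to_subtype
  rintro x ⟨k, hk | hk⟩
  · exact Or.inl ⟨k, hk⟩
  · refine Or.inr ⟨k, ?_⟩
    show blBq bq (blGam φ bq γ be ε pos k) = x
    rw [hk, blBq_blBq h]

/-- Reversal on the traversed part. -/
def blBq' (h : ∀ q, bq (bq q) = q) (x : BlQ φ bq γ be ε pos) : BlQ φ bq γ be ε pos :=
  ⟨blBq bq x.1, by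
    obtain ⟨k, hk⟩ := x.2
    refine ⟨k, ?_⟩
    rw [blBq_blBq h]
    exact hk.symm⟩

/-- The traversed edge of a dart. -/
def blGam' (φ : Perm H) (bq : Q → Q) (γ : H → Q) (be : E → E) (ε : Q → E) (pos : E → ℕ)
    (k : BH φ be (fun h => ε (γ h)) pos) : BlQ φ bq γ be ε pos :=
  ⟨blGam φ bq γ be ε pos k, k, Or.inl rfl⟩

/-- The map to the line with petals. -/
def blEps' (x : BlQ φ bq γ be ε pos) : E ⊕ (ℕ × Bool) := blEps ε x.1

/-- The origin. -/
def blO' (x : BlQ φ bq γ be ε pos) : Quotient (Vset φ bq γ) × ℕ := blO φ bq γ ε pos x.1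

/-- Petals. -/
def blInl (htrav : ∀ q, ∃ h, γ h = q ∨ γ h = bq q) (q : Q) : BlQ φ bq γ be ε pos :=
  ⟨Sum.inl q, by
    obtain ⟨h, hh⟩ := htrav q
    refine ⟨blI φ be (fun h => ε (γ h)) pos h, ?_⟩
    rw [blGam_I]
    rcases hh with hh | hh
    · left; rw [hh]
    · right; rw [hh]; rfl⟩

theorem blInl_injective (htrav : ∀ q, ∃ h, γ h = q ∨ γ h = bq q) :
    Function.Injective (blInl (be := be) (ε := ε) (pos := pos) (φ := φ) htrav) := by
  intro a b h
  exact Sum.inl.inj (congrArg Subtype.val h)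

theorem blO'_tinv (hq : ∀ q, bq (bq q) = q) (heps : ∀ q, ε (bq q) = be (ε q)) :
    TInv (Bφ φ be (fun h => ε (γ h)) pos) (blBq' hq) (blGam' φ bq γ be ε pos)
      (blO' (φ := φ) (bq := bq) (γ := γ) (be := be) (ε := ε) (pos := pos)) :=
  fun k => blO_turn heps k

theorem bl_imm (hq : ∀ q, bq (bq q) = q) (heps : ∀ q, ε (bq q) = be (ε q))
    (himm : ∀ a b, Vrel φ bq γ a b → ε a = ε b → a = b) (a b : BlQ φ bq γ be ε pos)
    (hab : Vrel (Bφ φ be (fun h => ε (γ h)) pos) (blBq' hq) (blGam' φ bq γ be ε pos) a b)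
    (he : blEps' a = blEps' b) : a = b := by
  have ho := hab.eq_of_tinv (blO'_tinv hq heps)
  apply Subtype.ext
  obtain ⟨a, ha⟩ := a
  obtain ⟨b, hb⟩ := b
  simp only [blEps', blO'] at he ho
  rcases a with q | ⟨v, m, s⟩ <;> rcases b with r | ⟨u, n, t⟩
  · simp only [blEps, Sum.inl.injEq] at he
    simp only [blO, Prod.mk.injEq] at ho
    exact congrArg Sum.inl (himm q r (Quotient.exact ho.1) he)
  · simp [blEps] at he
  · simp [blEps] at he
  · simp only [blEps, Sum.inr.injEq, Prod.mk.injEq] at he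
    obtain ⟨rfl, rfl⟩ := he
    cases s <;> simp only [blO, Prod.mk.injEq] at ho <;>
      exact congrArg (fun v => Sum.inr (v, m, _)) ho.1

/-- Functions of the origin in the old graph, as functions on the blow-up. -/
theorem bl_lift_tinv (hq : ∀ q, bq (bq q) = q) (heps : ∀ q, ε (bq q) = be (ε q))
    {f : Q → ℚ} (hf : TInv φ bq γ f) :
    ∃ F : BlQ φ bq γ be ε pos → ℚ,
      TInv (Bφ φ be (fun h => ε (γ h)) pos) (blBq' hq) (blGam' φ bq γ be ε pos) F ∧
      (∀ q h, F ⟨Sum.inl q, h⟩ = f q) ∧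
      ∀ x v m b, x.1 = Sum.inr (v, m, b) → F (blBq' hq x) = F x := by
  let f' : Quotient (Vset φ bq γ) → ℚ := Quotient.lift f fun a b (hab : Vrel φ bq γ a b) =>
    hab.eq_of_tinv hf
  refine ⟨fun x => f' (blO' x).1, ?_, ?_, ?_⟩
  · intro k
    show f' _ = f' _
    rw [blO'_tinv hq heps k]
  · intro q h
    rfl
  · rintro ⟨x, hx⟩ v m b rfl
    cases b <;> rfl

theorem bl_inj [Fintype H] [Fintype Q] [Fintype (BlQ φ bq γ be ε pos)]
    (hA : Adm φ bq γ be ε) (z : BlQ φ bq γ be ε pos → ℚ)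
    (hz : ∀ q, z (blBq' hA.bq_bq q) = - z q)
    (hc : ∀ f : BlQ φ bq γ be ε pos → ℚ,
      TInv (Bφ φ be (fun h => ε (γ h)) pos) (blBq' hA.bq_bq) (blGam' φ bq γ be ε pos) f →
        ∑ q, f q * z q = 0)
    (hi : ∀ g : E ⊕ (ℕ × Bool) → ℚ, ∑ q : BlQ φ bq γ be ε pos, g (blEps' q) * z q = 0) :
    ∀ q, z q = 0 := by
  classical
  -- the petals
  have h0 : ∀ q, z (blInl hA.trav q) = 0 := by
    apply hA.inj (fun q => z (blInl hA.trav q))
    · intro q
      rw [← hz]
      rfl
    · intro f hf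
      obtain ⟨F, hF1, hF2, hF3⟩ := bl_lift_tinv (pos := pos) hA.bq_bq hA.eps_bq hf
      -- the part on the new edges vanishes
      let G : BlQ φ bq γ be ε pos → ℚ := fun x => if x.1.isRight then F x else 0
      have hG : ∑ x, G x * z x = 0 := by
        have h1 : ∑ x, G x * z x = ∑ x, G (blBq' hA.bq_bq x) * z (blBq' hA.bq_bq x) := by
          symm
          apply Fintype.sum_bijective (blBq' hA.bq_bq)
          · apply Function.Involutive.bijective
            intro x
            apply Subtype.ext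
            exact blBq_blBq hA.bq_bq _
          · intro x
            rfl
        have h2 : ∀ x, G (blBq' hA.bq_bq x) = G x := by
          rintro ⟨x, hx⟩
          rcases x with q | ⟨v, m, b⟩
          · rfl
          · exact hF3 _ v m b rfl
        have h3 : ∑ x, G x * z x = - ∑ x, G x * z x := by
          rw [← Finset.sum_neg_distrib]
          conv_lhs => rw [h1]
          refine Finset.sum_congr rfl fun x _ => ?_
          rw [h2, hz]
          ring
        linarith
      have h4 : ∑ q, f q * z (blInl hA.trav q) = ∑ x, (F x - G x) * z x := by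
        apply Fintype.sum_of_injective (blInl hA.trav) (blInl_injective hA.trav)
        · rintro ⟨x, hx⟩ hn
          rcases x with q | ⟨v, m, b⟩
          · exact absurd ⟨q, rfl⟩ hn
          · simp [G]
        · intro q
          have : G (blInl hA.trav q) = 0 := rfl
          rw [this, sub_zero]
          rw [show F (blInl hA.trav q) = f q from hF2 q _]
      rw [h4]
      simp only [sub_mul, Finset.sum_sub_distrib, hG, hc F hF1, sub_zero]
    · intro g
      have h5 := hi (Sum.elim g fun _ => 0)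
      rw [← h5]
      apply Fintype.sum_of_injective (blInl hA.trav) (blInl_injective hA.trav)
      · rintro ⟨x, hx⟩ hn
        rcases x with q | ⟨v, m, b⟩
        · exact absurd ⟨q, rfl⟩ hn
        · simp [blEps', blEps]
      · intro q
        rfl
  have h0' : ∀ q h, z ⟨Sum.inl q, h⟩ = 0 := fun q h => h0 q
  -- the new edges
  have h1 : ∀ (m : ℕ) (v : Quotient (Vset φ bq γ)) (h), z ⟨Sum.inr (v, m, true), h⟩ = 0 := by
    intro m
    induction m using Nat.strong_induction_on with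
    | _ m ih =>
      intro v h
      have h2 := hc (fun x => if blO' x = (v, m) then 1 else 0) (by
        intro k
        show (if blO' _ = (v, m) then (1 : ℚ) else 0) = if blO' _ = (v, m) then 1 else 0
        rw [blO'_tinv hA.bq_bq hA.eps_bq k])
      rw [Finset.sum_eq_single ⟨Sum.inr (v, m, true), h⟩] at h2
      · simpa [blO', blO] using h2
      · rintro ⟨x, hx⟩ - hne
        rcases x with q | ⟨u, n, b⟩
        · rw [h0', mul_zero]
        · cases b
          · by_cases he : (u, n + 1) = (v, m)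
            · simp only [Prod.mk.injEq] at he
              have h3 : z (blBq' hA.bq_bq ⟨Sum.inr (u, n, false), hx⟩) = 0 :=
                ih n (by omega) u _
              rw [hz] at h3
              rw [neg_eq_zero.1 h3, mul_zero]
            · have he' : ¬ (blO' (⟨Sum.inr (u, n, false), hx⟩ : BlQ φ bq γ be ε pos) = (v, m)) := he
              simp only [if_neg he', zero_mul]
          · by_cases he : (u, n) = (v, m)
            · simp only [Prod.mk.injEq] at he
              obtain ⟨rfl, rfl⟩ := he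
              exact absurd rfl hne
            · have he' : ¬ (blO' (⟨Sum.inr (u, n, true), hx⟩ : BlQ φ bq γ be ε pos) = (v, m)) := he
              simp only [if_neg he', zero_mul]
      · intro hne
        exact absurd (Finset.mem_univ _) hne
  rintro ⟨x, hx⟩
  rcases x with q | ⟨u, n, b⟩
  · exact h0' q hx
  · cases b
    · have h3 : z (blBq' hA.bq_bq ⟨Sum.inr (u, n, false), hx⟩) = 0 := h1 n u _
      rw [hz] at h3
      exact neg_eq_zero.1 h3
    · exact h1 n u hx

theorem bl_ind [Fintype H] [Fintype Q] (hA : Adm φ bq γ be ε)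
    (a : BH φ be (fun h => ε (γ h)) pos → ℚ)
    (ha : ∀ k, a (Bφ φ be (fun h => ε (γ h)) pos k) = a k)
    (hg : ∀ g : BlQ φ bq γ be ε pos → ℚ, (∀ q, g (blBq' hA.bq_bq q) = - g q) →
      ∑ k, g (blGam' φ bq γ be ε pos k) * a k = 0) : ∀ k k', a k = a k' := by
  have h1 : ∀ h h', a (blI φ be (fun h => ε (γ h)) pos h) =
      a (blI φ be (fun h => ε (γ h)) pos h') := by
    apply hA.ind (fun h => a (blI φ be (fun h => ε (γ h)) pos h))
    · exact bl_inv_phi _ ha
    · intro g hgg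
      have h2 := hg (fun x => Sum.elim g (fun _ => 0) x.1) (by
        rintro ⟨x, hx⟩
        rcases x with q | ⟨v, m, b⟩
        · exact hgg q
        · simp [blBq', blBq])
      rw [← h2]
      apply Fintype.sum_of_injective (blI φ be (fun h => ε (γ h)) pos) (blI_injective _)
      · rintro ⟨h, j, hj⟩ hn
        have hj0 : j ≠ 0 := by
          rintro rfl
          exact hn ⟨h, rfl⟩
        simp only [blGam', blGam, if_neg hj0]
        split_ifs <;> simp
      · intro h
        simp only [blGam', blGam_I]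
        rfl
  intro k k'
  rw [bl_inv _ ha k, bl_inv _ ha k', h1]

end blow2

section blow3

variable {H Q E : Type} {φ : Perm H} {bq : Q → Q} {γ : H → Q} {be : E → E} {ε : Q → E}
  {pos : E → ℕ}

/-- The relation of which the steps in the blow-up are a special case. -/
def blR (φ : Perm H) (bq : Q → Q) (γ : H → Q) (ε : Q → E) (pos : E → ℕ) (M : ℕ)
    (y x : (Q ⊕ (Quotient (Vset φ bq γ) × ℕ × Bool)) ×
      (Q ⊕ (Quotient (Vset φ bq γ) × ℕ × Bool))) : Prop :=
  blEps ε x.1 = blEps ε x.2 ∧ x.1 ≠ x.2 ∧ blEps ε y.1 = blEps ε y.2 ∧ y.1 ≠ y.2 ∧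
    blO φ bq γ ε pos (blBq bq x.1) = blO φ bq γ ε pos y.1 ∧
    blO φ bq γ ε pos (blBq bq x.2) = blO φ bq γ ε pos y.2 ∧
    y.1 ≠ blBq bq x.1 ∧ ∀ v m b, y.1 = Sum.inr (v, m, b) → m < M

theorem bl_up (M : ℕ) (v v' : Quotient (Vset φ bq γ)) (n : ℕ) :
    ∀ m, M ≤ m + n → (∀ r r', Quotient.mk _ r = v → Quotient.mk _ r' = v' → ε r = ε r' →
      r ≠ r' → m < pos (ε r) → Acc (blR φ bq γ ε pos M) (Sum.inl r, Sum.inl r')) →
    Acc (blR φ bq γ ε pos M) (Sum.inr (v, m, true), Sum.inr (v', m, true)) := by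
  induction n with
  | zero =>
    intro m hm hp
    refine Acc.intro _ ?_
    rintro ⟨y1, y2⟩ ⟨h1, h2, h3, h4, h5, h6, h7, h8⟩
    rcases y1 with r | ⟨u, k, b⟩ <;> rcases y2 with r' | ⟨u', k', b'⟩
    · simp only [blBq, blO, blEps, Prod.mk.injEq, Sum.inl.injEq, Bool.not_true] at h3 h5 h6
      exact hp r r' h5.1.symm h6.1.symm h3 (fun h => h4 (by rw [h])) (by omega)
    · simp [blEps] at h3
    · simp [blEps] at h3
    · simp only [blEps, Sum.inr.injEq, Prod.mk.injEq] at h3
      obtain ⟨rfl, rfl⟩ := h3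
      have h9 := h8 u k b rfl
      cases b
      · simp only [blBq, blO, Prod.mk.injEq, Bool.not_true] at h5 h7
        exact absurd (by rw [h5.1, show k = m by omega]) h7
      · simp only [blBq, blO, Prod.mk.injEq, Bool.not_true] at h5
        omega
  | succ n ih =>
    intro m hm hp
    refine Acc.intro _ ?_
    rintro ⟨y1, y2⟩ ⟨h1, h2, h3, h4, h5, h6, h7, h8⟩
    rcases y1 with r | ⟨u, k, b⟩ <;> rcases y2 with r' | ⟨u', k', b'⟩
    · simp only [blBq, blO, blEps, Prod.mk.injEq, Sum.inl.injEq, Bool.not_true] at h3 h5 h6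
      exact hp r r' h5.1.symm h6.1.symm h3 (fun h => h4 (by rw [h])) (by omega)
    · simp [blEps] at h3
    · simp [blEps] at h3
    · simp only [blEps, Sum.inr.injEq, Prod.mk.injEq] at h3
      obtain ⟨rfl, rfl⟩ := h3
      cases b
      · simp only [blBq, blO, Prod.mk.injEq, Bool.not_true] at h5 h7
        exact absurd (by rw [h5.1, show k = m by omega]) h7
      · simp only [blBq, blO, Prod.mk.injEq, Bool.not_true] at h5 h6
        obtain ⟨rfl, rfl⟩ := h5
        obtain ⟨rfl, -⟩ := h6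
        exact ih (m + 1) (by omega) fun r r' a1 a2 a3 a4 a5 => hp r r' a1 a2 a3 a4 (by omega)

theorem bl_down (M : ℕ) (v v' : Quotient (Vset φ bq γ)) :
    ∀ m, (∀ r r', Quotient.mk _ r = v → Quotient.mk _ r' = v' → ε r = ε r' →
      r ≠ r' → pos (ε r) ≤ m → Acc (blR φ bq γ ε pos M) (Sum.inl r, Sum.inl r')) →
    Acc (blR φ bq γ ε pos M) (Sum.inr (v, m, false), Sum.inr (v', m, false)) := by
  intro m
  induction m with
  | zero =>
    intro hp
    refine Acc.intro _ ?_
    rintro ⟨y1, y2⟩ ⟨h1, h2, h3, h4, h5, h6, h7, h8⟩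
    rcases y1 with r | ⟨u, k, b⟩ <;> rcases y2 with r' | ⟨u', k', b'⟩
    · simp only [blBq, blO, blEps, Prod.mk.injEq, Sum.inl.injEq, Bool.not_false] at h3 h5 h6
      exact hp r r' h5.1.symm h6.1.symm h3 (fun h => h4 (by rw [h])) (by omega)
    · simp [blEps] at h3
    · simp [blEps] at h3
    · simp only [blEps, Sum.inr.injEq, Prod.mk.injEq] at h3
      obtain ⟨rfl, rfl⟩ := h3
      cases b
      · simp only [blBq, blO, Prod.mk.injEq, Bool.not_false] at h5
        omega
      · simp only [blBq, blO, Prod.mk.injEq, Bool.not_false] at h5 h7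
        exact absurd (by rw [h5.1, h5.2]) h7
  | succ m ih =>
    intro hp
    refine Acc.intro _ ?_
    rintro ⟨y1, y2⟩ ⟨h1, h2, h3, h4, h5, h6, h7, h8⟩
    rcases y1 with r | ⟨u, k, b⟩ <;> rcases y2 with r' | ⟨u', k', b'⟩
    · simp only [blBq, blO, blEps, Prod.mk.injEq, Sum.inl.injEq, Bool.not_false] at h3 h5 h6
      exact hp r r' h5.1.symm h6.1.symm h3 (fun h => h4 (by rw [h])) (by omega)
    · simp [blEps] at h3
    · simp [blEps] at h3
    · simp only [blEps, Sum.inr.injEq, Prod.mk.injEq] at h3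
      obtain ⟨rfl, rfl⟩ := h3
      cases b
      · simp only [blBq, blO, Prod.mk.injEq, Bool.not_false] at h5 h6
        obtain ⟨rfl, h5⟩ := h5
        obtain ⟨rfl, -⟩ := h6
        obtain rfl : m = k := by omega
        exact ih fun r r' a1 a2 a3 a4 a5 => hp r r' a1 a2 a3 a4 (by omega)
      · simp only [blBq, blO, Prod.mk.injEq, Bool.not_false] at h5 h7
        exact absurd (by rw [h5.1, h5.2]) h7

theorem bl_petal (M : ℕ) (p : Q × Q)
    (hp : Acc (fun y x => Step φ bq γ ε x y) p) :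
    Acc (blR φ bq γ ε pos M) (Sum.inl p.1, Sum.inl p.2) := by
  induction hp with
  | intro p _ ih =>
    refine Acc.intro _ ?_
    rintro ⟨y1, y2⟩ ⟨h1, h2, h3, h4, h5, h6, h7, h8⟩
    simp only [blEps, Sum.inl.injEq] at h1
    have h2' : p.1 ≠ p.2 := fun h => h2 (by show Sum.inl p.1 = Sum.inl p.2; rw [h])
    have hstep : ∀ r r', Quotient.mk (Vset φ bq γ) r = Quotient.mk _ (bq p.1) →
        Quotient.mk (Vset φ bq γ) r' = Quotient.mk _ (bq p.2) → ε r = ε r' → r ≠ r' →
        r ≠ bq p.1 → Acc (blR φ bq γ ε pos M) (Sum.inl r, Sum.inl r') :=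
      fun r r' a1 a2 a3 a4 a5 => ih (r, r')
        ⟨h1, h2', a3, a4, (Quotient.exact a1).symm, (Quotient.exact a2).symm, a5⟩
    rcases y1 with r | ⟨u, k, b⟩ <;> rcases y2 with r' | ⟨u', k', b'⟩
    · simp only [blBq, blO, blEps, Prod.mk.injEq, Sum.inl.injEq] at h3 h5 h6
      exact hstep r r' h5.1.symm h6.1.symm h3 (fun h => h4 (by rw [h]))
        (fun h => h7 (by show Sum.inl r = Sum.inl (bq p.1); rw [h]))
    · simp [blEps] at h3
    · simp [blEps] at h3
    · simp only [blEps, Sum.inr.injEq, Prod.mk.injEq] at h3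
      obtain ⟨rfl, rfl⟩ := h3
      cases b
      · simp only [blBq, blO, Prod.mk.injEq] at h5 h6
        obtain ⟨rfl, h5⟩ := h5
        obtain ⟨rfl, -⟩ := h6
        refine bl_down M _ _ k fun r r' a1 a2 a3 a4 a5 => hstep r r' a1 a2 a3 a4 ?_
        rintro rfl
        omega
      · simp only [blBq, blO, Prod.mk.injEq] at h5 h6
        obtain ⟨rfl, h5⟩ := h5
        obtain ⟨rfl, -⟩ := h6
        refine bl_up M _ _ M k (by omega) fun r r' a1 a2 a3 a4 a5 => hstep r r' a1 a2 a3 a4 ?_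
        rintro rfl
        omega

theorem bl_wf_all (M : ℕ)
    (hwf : WellFounded fun y x => Step φ bq γ ε x y) : WellFounded (blR φ bq γ ε pos M) := by
  refine ⟨?_⟩
  rintro ⟨x1, x2⟩
  by_cases h : blEps ε x1 = blEps ε x2
  · rcases x1 with r | ⟨u, k, b⟩ <;> rcases x2 with r' | ⟨u', k', b'⟩
    · exact bl_petal M (r, r') (hwf.apply _)
    · simp [blEps] at h
    · simp [blEps] at h
    · simp only [blEps, Sum.inr.injEq, Prod.mk.injEq] at h
      obtain ⟨rfl, rfl⟩ := h
      cases b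
      · exact bl_down M _ _ k fun r r' _ _ _ _ _ => bl_petal M (r, r') (hwf.apply _)
      · exact bl_up M _ _ M k (by omega) fun r r' _ _ _ _ _ =>
          bl_petal M (r, r') (hwf.apply _)
  · refine Acc.intro _ ?_
    rintro y ⟨h1, -⟩
    exact absurd h1 h

theorem bl_wf [Finite H] (hq : ∀ q, bq (bq q) = q) (heps : ∀ q, ε (bq q) = be (ε q))
    (hwf : WellFounded fun y x => Step φ bq γ ε x y) :
    WellFounded fun y x => Step (Bφ φ be (fun h => ε (γ h)) pos) (blBq' hq)
      (blGam' φ bq γ be ε pos) (blEps' (φ := φ) (bq := bq) (γ := γ) (be := be) (ε := ε)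
        (pos := pos)) x y := by
  have hfin : Finite (BlQ φ bq γ be ε pos) := blQ_finite hq
  -- a bound for the levels
  let lv : BlQ φ bq γ be ε pos → ℕ := fun x => Sum.elim (fun _ => 0) (fun y => y.2.1) x.1
  obtain ⟨M, hM⟩ := (Set.finite_range lv).bddAbove
  have hM' : ∀ (x : BlQ φ bq γ be ε pos) v m b, x.1 = Sum.inr (v, m, b) → m < M + 1 := by
    intro x v m b h
    have h1 : lv x ≤ M := hM ⟨x, rfl⟩
    have h2 : lv x = m := by
      show Sum.elim (fun _ => 0) (fun y => y.2.1) x.1 = m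
      rw [h]
      rfl
    omega
  refine Subrelation.wf (r := InvImage (blR φ bq γ ε pos (M + 1))
    (fun x : BlQ φ bq γ be ε pos × BlQ φ bq γ be ε pos => (x.1.1, x.2.1))) ?_
    (InvImage.wf _ (bl_wf_all (M + 1) hwf))
  rintro y x ⟨h1, h2, h3, h4, h5, h6, h7⟩
  refine ⟨h1, fun h => h2 (Subtype.ext h), h3, fun h => h4 (Subtype.ext h),
    h5.eq_of_tinv (blO'_tinv hq heps), h6.eq_of_tinv (blO'_tinv hq heps),
    fun h => h7 (Subtype.ext h), fun v m b h => hM' y.1 v m b h⟩

theorem bl_dep [Finite H] (hbe : ∀ e, be (be e) = e) (w : H → E) (hD : DepAll φ be w) :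
    DepAll (Bφ φ be w pos) (Bbe be) (Bw φ be w pos) := by
  intro G _ l hl
  let g : ℕ → G := fun m => ((List.range m).map fun i => l (Sum.inr (i, true))).prod
  have g1 : ∀ m, g (m + 1) = g m * l (Sum.inr (m, true)) := by
    intro m
    show ((List.range (m + 1)).map fun i => l (Sum.inr (i, true))).prod = _
    rw [List.range_succ, List.map_append, List.prod_append]
    simp [g]
  let l0 : E → G := fun e => g (pos e) * l (Sum.inl e) * (g (pos (be e)))⁻¹
  have hl0 : ∀ e, l0 (be e) = (l0 e)⁻¹ := by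
    intro e
    have h1 : l (Sum.inl (be e)) = (l (Sum.inl e))⁻¹ := hl (Sum.inl e)
    simp only [l0, hbe, h1]
    group
  have h1 := hD G l0 hl0
  let lt : BH φ be w pos → G := fun k => g (Blev pos (Bw φ be w pos k)) * l (Bw φ be w pos k) *
    (g (Blev pos (Bw φ be w pos (Bφ φ be w pos k))))⁻¹
  have h0 : ∀ h, Bw φ be w pos (blI φ be w pos h) = Sum.inl (w h) := by
    intro h
    simp [Bw, blI]
  have h2 : Dep (Bφ φ be w pos) lt := by
    refine (dep_del (blI φ be w pos) (blI_injective w) lt (bl_ret w) (bl_meet w) ?_).1 ?_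
    · rintro ⟨h, j, hj⟩ hn
      have hj0 : j ≠ 0 := by
        rintro rfl
        exact hn ⟨h, rfl⟩
      have h3 : ∃ m b, Bw φ be w pos ⟨h, j, hj⟩ = Sum.inr (m, b) := by
        unfold Bw
        rw [if_neg hj0]
        split_ifs
        · exact ⟨_, _, rfl⟩
        · exact ⟨_, _, rfl⟩
      obtain ⟨m, b, hmb⟩ := h3
      simp only [lt, ← Blev_turn, hmb]
      cases b
      · have h4 : l (Sum.inr (m, false)) = (l (Sum.inr (m, true)))⁻¹ := hl (Sum.inr (m, true))
        simp only [Blev, Bbe, g1, h4, Bool.not_false]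
        group
      · simp only [Blev, Bbe, g1, Bool.not_true]
        group
    · have h3 : (fun x => lt (blI φ be w pos x)) = fun h => l0 (w h) := by
        funext h
        simp only [lt, ← Blev_turn, h0]
        rfl
      rw [h3]
      exact h1
  refine (dep_gauge (Bφ φ be w pos) (fun k => l (Bw φ be w pos k))
    (fun k => (g (Blev pos (Bw φ be w pos k)))⁻¹)).1 ?_
  simp only [inv_inv]
  exact h2

theorem bl_ndep [Finite H] (hq : ∀ q, bq (bq q) = q)
    (hD : DepAll (Bφ φ be (fun h => ε (γ h)) pos) (blBq' hq) (blGam' φ bq γ be ε pos)) :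
    DepAll φ bq γ := by
  intro G _ l hl
  have h1 := hD G (fun x => Sum.elim l (fun _ => 1) x.1) (by
    rintro ⟨x, hx⟩
    rcases x with q | ⟨v, m, b⟩
    · exact hl q
    · simp [blBq', blBq])
  have h2 := (dep_del (φ' := φ) (blI φ be (fun h => ε (γ h)) pos) (blI_injective _)
    (fun k => Sum.elim l (fun _ => (1 : G)) (blGam' φ bq γ be ε pos k).1)
    (bl_ret _) (bl_meet _) (by
      rintro ⟨h, j, hj⟩ hn
      have hj0 : j ≠ 0 := by
        rintro rfl
        exact hn ⟨h, rfl⟩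
      simp only [blGam', blGam, if_neg hj0]
      split_ifs <;> simp)).2 h1
  have h3 : (fun x => Sum.elim l (fun _ => (1 : G))
      (blGam' φ bq γ be ε pos (blI φ be (fun h => ε (γ h)) pos x)).1) = fun h => l (γ h) := by
    funext h
    simp only [blGam', blGam_I]
    rfl
  rw [h3] at h2
  exact h2

end blow3

variable {H Q E : Type} [Fintype H] [Fintype Q] {φ : Perm H} {bq : Q → Q} {γ : H → Q}
  {be : E → E} {ε : Q → E}

/-- The blow-up of a counterexample is a counterexample. -/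
theorem blow (hC : Ctr φ bq γ be ε) (pos : E → ℕ) :
    ∃ (Q' : Type) (_ : Fintype Q') (bq' : Q' → Q')
      (γ' : BH φ be (fun h => ε (γ h)) pos → Q') (ε' : Q' → E ⊕ (ℕ × Bool)),
      Ctr (Bφ φ be (fun h => ε (γ h)) pos) bq' γ' (Bbe be) ε' ∧
      ∀ k, ε' (γ' k) = Bw φ be (fun h => ε (γ h)) pos k := by
  have hA := hC.adm
  have : Finite (BlQ φ bq γ be ε pos) := blQ_finite hA.bq_bq
  let _ : Fintype (BlQ φ bq γ be ε pos) := Fintype.ofFinite _
  refine ⟨BlQ φ bq γ be ε pos, inferInstance, blBq' hA.bq_bq, blGam' φ bq γ be ε pos, blEps',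
    ⟨⟨?_, ?_, ?_, ?_, ?_, ?_, ?_, ?_, ?_, ?_⟩, ?_, ?_⟩, fun k => blEps_gam k⟩
  · intro x
    exact Subtype.ext (blBq_blBq hA.bq_bq _)
  · rintro (e | ⟨m, b⟩)
    · simp [Bbe, hA.be_be]
    · simp [Bbe]
  · rintro (e | ⟨m, b⟩)
    · simp [Bbe, hA.be_ne]
    · simp [Bbe]
  · rintro ⟨x, hx⟩
    rcases x with q | ⟨v, m, b⟩
    · simp [blEps', blBq', blBq, blEps, Bbe, hA.eps_bq]
    · simp [blEps', blBq', blBq, blEps, Bbe]
  · rintro ⟨x, k, hk⟩
    refine ⟨k, ?_⟩
    rcases hk with hk | hk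
    · exact Or.inl (Subtype.ext hk)
    · exact Or.inr (Subtype.ext hk)
  · intro k h
    exact bl_red hA.red k (congrArg Subtype.val h)
  · exact bl_imm hA.bq_bq hA.eps_bq hA.imm
  · exact bl_inj hA
  · exact bl_ind hA
  · exact bl_wf hA.bq_bq hA.eps_bq hA.wf
  · have h1 := bl_dep (pos := pos) hA.be_be (fun h => ε (γ h)) hC.dep
    have h2 : (fun k => blEps' (blGam' φ bq γ be ε pos k)) = Bw φ be (fun h => ε (γ h)) pos := by
      funext k
      exact blEps_gam k
    rw [h2]
    exact h1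
  · exact fun h => hC.ndep (bl_ndep hA.bq_bq h)

end Pool.Agent.H57.Stall
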