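import Mathlib
import Pool.Agent.H57.Stall.Basic
import Pool.Agent.H57.Stall.DepDel

set_option autoImplicit false

namespace Pool.Agent.H57.Stall

open Equiv

variable {H Q E : Type} [Fintype H] [Fintype Q] {φ : Perm H} {bq : Q → Q} {γ : H → Q}
  {be : E → E} {ε : Q → E}

namespace Coll

section kfun

/-- There is a direction over `e₀` with the origin of `q`. -/
def HasK (φ : Perm H) (bq : Q → Q) (γ : H → Q) (ε : Q → E) (e₀ : E) (q : Q) : Prop :=
  ∃ x, ε x = e₀ ∧ Vrel φ bq γ x q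

open Classical in
/-- The value of `F` at the direction over `e₀` if there is one, otherwise `G`. -/
noncomputable def kfun {A : Type} (φ : Perm H) (bq : Q → Q) (γ : H → Q) (ε : Q → E) (e₀ : E)
    (F G : Q → A) (q : Q) : A :=
  if h : HasK φ bq γ ε e₀ q then F (Classical.choose h) else G q

theorem kfun_pos (hA : Adm φ bq γ be ε) {A : Type} {e₀ : E} (F G : Q → A) {q x : Q}
    (hx : ε x = e₀) (hxq : Vrel φ bq γ x q) : kfun φ bq γ ε e₀ F G q = F x := by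
  have h : HasK φ bq γ ε e₀ q := ⟨x, hx, hxq⟩
  have h1 : Classical.choose h = x := by
    have h2 := Classical.choose_spec h
    exact hA.imm _ _ (h2.2.trans hxq.symm) (h2.1.trans hx.symm)
  unfold kfun
  rw [dif_pos h, h1]

theorem kfun_neg {A : Type} {e₀ : E} (F G : Q → A) {q : Q} (hn : ¬ HasK φ bq γ ε e₀ q) :
    kfun φ bq γ ε e₀ F G q = G q := by
  unfold kfun
  rw [dif_neg hn]

theorem HasK.congr {e₀ : E} {a b : Q} (h : Vrel φ bq γ a b) (ha : HasK φ bq γ ε e₀ a) :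
    HasK φ bq γ ε e₀ b := by
  obtain ⟨x, hx, hxa⟩ := ha
  exact ⟨x, hx, hxa.trans h⟩

theorem kfun_congr (hA : Adm φ bq γ be ε) {A : Type} {e₀ : E} (F G : Q → A)
    (hG : TInv φ bq γ G) {a b : Q} (h : Vrel φ bq γ a b) :
    kfun φ bq γ ε e₀ F G a = kfun φ bq γ ε e₀ F G b := by
  by_cases ha : HasK φ bq γ ε e₀ a
  · obtain ⟨x, hx, hxa⟩ := ha
    rw [kfun_pos hA F G hx hxa, kfun_pos hA F G hx (hxa.trans h)]
  · have hb : ¬ HasK φ bq γ ε e₀ b := fun hb => ha (hb.congr h.symm)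
    rw [kfun_neg F G ha, kfun_neg F G hb]
    exact h.eq_of_tinv hG

theorem kfun_turn (hA : Adm φ bq γ be ε) {A : Type} {e₀ : E} (F G : Q → A)
    (hG : TInv φ bq γ G) : TInv φ bq γ (kfun φ bq γ ε e₀ F G) := fun h =>
  kfun_congr hA F G hG (Vrel.turn h)

theorem c_vrel (hA : Adm φ bq γ be ε) {c : E → Prop}
    (hc : ∀ h, c (be (ε (γ h))) = c (ε (γ (φ h)))) {a b : Q} (h : Vrel φ bq γ a b) :
    c (ε a) = c (ε b) :=
  h.eq_of_tinv (hA.tinv_comp (F := c) hc)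

theorem not_hasK (hA : Adm φ bq γ be ε) {c : E → Prop} {e₀ : E}
    (hc : ∀ h, c (be (ε (γ h))) = c (ε (γ (φ h)))) {q : Q} (h : c (ε q) ≠ c e₀) :
    ¬ HasK φ bq γ ε e₀ q := by
  rintro ⟨x, hx, hxq⟩
  apply h
  rw [← c_vrel hA hc hxq, hx]

theorem c_turn {c : E → Prop} {e₀ : E} (hA : Adm φ bq γ be ε)
    (hc : ∀ h, c (be (ε (γ h))) = c (ε (γ (φ h)))) (hne : c e₀ ≠ c (be e₀)) {g : H}
    (hK : ε (γ g) = e₀ ∨ ε (γ g) = be e₀) : c (ε (γ (φ g))) ≠ c (ε (γ g)) := by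
  rw [← hc g]
  rcases hK with hK | hK
  · rw [hK]; exact hne.symm
  · rw [hK, hA.be_be]; exact hne

theorem K_next {c : E → Prop} {e₀ : E} (hA : Adm φ bq γ be ε)
    (hc : ∀ h, c (be (ε (γ h))) = c (ε (γ (φ h)))) (hne : c e₀ ≠ c (be e₀)) {g : H}
    (hK : ε (γ g) = e₀ ∨ ε (γ g) = be e₀) :
    ε (γ (φ g)) ≠ e₀ ∧ ε (γ (φ g)) ≠ be e₀ := by
  have h1 := c_turn hA hc hne hK
  have h2 := hA.redE g
  rcases hK with hK | hK
  · refine ⟨fun h => h1 (by rw [h, hK]), fun h => h2 (by rw [h, hK])⟩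
  · refine ⟨fun h => h2 (by rw [h, hK, hA.be_be]), fun h => h1 (by rw [h, hK])⟩

/-- Crossing the collapsed edge. -/
theorem kfun_cross (hA : Adm φ bq γ be ε) {A : Type} {c : E → Prop} {e₀ : E}
    (hc : ∀ h, c (be (ε (γ h))) = c (ε (γ (φ h)))) (hne : c e₀ ≠ c (be e₀)) (P : Q → A)
    (hP : TInv φ bq γ P) {g : H} (hK : ε (γ g) = e₀ ∨ ε (γ g) = be e₀) :
    kfun φ bq γ ε e₀ (fun x => P (bq x)) P (γ g) =
      kfun φ bq γ ε e₀ (fun x => P (bq x)) P (γ (φ g)) := by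
  have ht := Vrel.turn (φ := φ) (bq := bq) (γ := γ) g
  rcases hK with hK | hK
  · rw [kfun_pos hA _ P hK (Vrel.refl _), kfun_neg _ P
      (not_hasK hA hc (q := γ (φ g)) ?_)]
    · exact ht.eq_of_tinv hP
    · rw [← hc g, hK]; exact hne.symm
  · rw [kfun_neg _ P (not_hasK hA hc (q := γ g) ?_), kfun_pos hA _ P
      (x := bq (γ g)) ?_ ht, hA.bq_bq]
    · rw [hA.eps_bq, hK, hA.be_be]
    · rw [hK]; exact hne.symm

end kfun

section sums

open Classical in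
theorem sum_split {e₀ : E} (hA : Adm φ bq γ be ε)
    [Fintype {q : Q // ε q ≠ e₀ ∧ ε q ≠ be e₀}] (F : Q → ℚ) :
    ∑ q, F q = ∑ q : {q : Q // ε q ≠ e₀ ∧ ε q ≠ be e₀}, F q.1 +
      ∑ q, if ε q = e₀ then F q + F (bq q) else 0 := by
  have h1 : ∑ q : {q : Q // ε q ≠ e₀ ∧ ε q ≠ be e₀}, F q.1 =
      ∑ q, if ε q ≠ e₀ ∧ ε q ≠ be e₀ then F q else 0 := by
    rw [← Finset.sum_filter]
    symm
    refine Finset.sum_subtype _ (fun q => ?_) F
    simp
  have h2 : ∑ q, (if ε q = e₀ then F (bq q) else 0) =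
      ∑ q, if ε q = be e₀ then F q else 0 := by
    refine Fintype.sum_equiv (Function.Involutive.toPerm bq hA.bq_bq) _ _ fun q => ?_
    show (if ε q = e₀ then F (bq q) else 0) = if ε (bq q) = be e₀ then F (bq q) else 0
    by_cases hq : ε q = e₀
    · rw [if_pos hq, if_pos]
      rw [hA.eps_bq, hq]
    · rw [if_neg hq, if_neg]
      intro h
      apply hq
      rw [hA.eps_bq] at h
      rw [← hA.be_be (ε q), h, hA.be_be]
  have h3 : ∑ q, (if ε q = e₀ then F q + F (bq q) else 0) =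
      ∑ q, (if ε q = e₀ then F q else 0) + ∑ q, (if ε q = e₀ then F (bq q) else 0) := by
    rw [← Finset.sum_add_distrib]
    refine Finset.sum_congr rfl fun q _ => ?_
    by_cases hq : ε q = e₀ <;> simp [hq]
  rw [h3, h2, h1, ← Finset.sum_add_distrib, ← Finset.sum_add_distrib]
  refine Finset.sum_congr rfl fun q _ => ?_
  have hb : e₀ ≠ be e₀ := fun h => hA.be_ne e₀ h.symm
  by_cases hq : ε q = e₀
  · simp [hq, hb]
  · by_cases hq' : ε q = be e₀
    · simp [hq, hq', hb.symm]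
    · simp [hq, hq']

end sums

section data

/-- The remaining darts. -/
abbrev CH (γ : H → Q) (be : E → E) (ε : Q → E) (e₀ : E) : Type :=
  {h : H // ε (γ h) ≠ e₀ ∧ ε (γ h) ≠ be e₀}

/-- The remaining edges. -/
abbrev CQ (be : E → E) (ε : Q → E) (e₀ : E) : Type := {q : Q // ε q ≠ e₀ ∧ ε q ≠ be e₀}

theorem eps_bq_ne (hA : Adm φ bq γ be ε) {e₀ : E} {q : Q} (hq : ε q ≠ e₀ ∧ ε q ≠ be e₀) :
    ε (bq q) ≠ e₀ ∧ ε (bq q) ≠ be e₀ := by
  rw [hA.eps_bq]
  refine ⟨fun h => hq.2 ?_, fun h => hq.1 ?_⟩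
  · rw [← h, hA.be_be]
  · rw [← hA.be_be (ε q), h, hA.be_be]

/-- Reversal of the remaining edges. -/
def cbq (hA : Adm φ bq γ be ε) (e₀ : E) : CQ be ε e₀ → CQ be ε e₀ := fun q =>
  ⟨bq q.1, eps_bq_ne hA q.2⟩

/-- The edge traversed by a remaining dart. -/
def cgam (γ : H → Q) (be : E → E) (ε : Q → E) (e₀ : E) : CH γ be ε e₀ → CQ be ε e₀ := fun h =>
  ⟨γ h.1, h.2⟩

/-- The first return map to the remaining darts. -/
def IsColl (φ : Perm H) (γ : H → Q) (be : E → E) (ε : Q → E) (e₀ : E)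
    (φ' : Perm (CH γ be ε e₀)) : Prop :=
  ∀ h, (φ' h).1 = φ h.1 ∨
    ((ε (γ (φ h.1)) = e₀ ∨ ε (γ (φ h.1)) = be e₀) ∧ (φ' h).1 = φ (φ h.1))

variable {c : E → Prop} {e₀ : E}

theorem exists_isColl (hA : Adm φ bq γ be ε)
    (hc : ∀ h, c (be (ε (γ h))) = c (ε (γ (φ h)))) (hne : c e₀ ≠ c (be e₀)) :
    ∃ φ' : Perm (CH γ be ε e₀), IsColl φ γ be ε e₀ φ' := by
  classical
  have hex : ∀ h : CH γ be ε e₀, ∃ y : CH γ be ε e₀, y.1 = φ h.1 ∨
      ((ε (γ (φ h.1)) = e₀ ∨ ε (γ (φ h.1)) = be e₀) ∧ y.1 = φ (φ h.1)) := by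
    intro h
    by_cases hh : ε (γ (φ h.1)) = e₀ ∨ ε (γ (φ h.1)) = be e₀
    · exact ⟨⟨φ (φ h.1), K_next hA hc hne hh⟩, Or.inr ⟨hh, rfl⟩⟩
    · push Not at hh
      exact ⟨⟨φ h.1, hh⟩, Or.inl rfl⟩
  choose f hf using hex
  have hinj : Function.Injective f := by
    intro a b hab
    have h1 := hf a
    have h2 := hf b
    rw [hab] at h1
    apply Subtype.ext
    rcases h1 with h1 | ⟨k1, h1⟩ <;> rcases h2 with h2 | ⟨k2, h2⟩
    · exact φ.injective (h1.symm.trans h2)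
    · have h3 : a.1 = φ b.1 := φ.injective (h1.symm.trans h2)
      have h4 := a.2
      rw [h3] at h4
      rcases k2 with k2 | k2
      · exact absurd k2 h4.1
      · exact absurd k2 h4.2
    · have h3 : b.1 = φ a.1 := φ.injective (h2.symm.trans h1)
      have h4 := b.2
      rw [h3] at h4
      rcases k1 with k1 | k1
      · exact absurd k1 h4.1
      · exact absurd k1 h4.2
    · exact φ.injective (φ.injective (h1.symm.trans h2))
  exact ⟨Equiv.ofBijective f (Finite.injective_iff_bijective.mp hinj), hf⟩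

/-- Turn-invariant functions for the collapsed data. -/
theorem coll_tinv (hA : Adm φ bq γ be ε)
    (hc : ∀ h, c (be (ε (γ h))) = c (ε (γ (φ h)))) (hne : c e₀ ≠ c (be e₀))
    {φ' : Perm (CH γ be ε e₀)} (hφ : IsColl φ γ be ε e₀ φ') {A : Type} (P : Q → A)
    (hP : TInv φ bq γ P) :
    TInv φ' (cbq hA e₀) (cgam γ be ε e₀)
      (fun q => kfun φ bq γ ε e₀ (fun x => P (bq x)) P q.1) := by
  intro h
  show kfun φ bq γ ε e₀ (fun x => P (bq x)) P (bq (γ h.1)) =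
    kfun φ bq γ ε e₀ (fun x => P (bq x)) P (γ (φ' h).1)
  rw [kfun_turn hA _ P hP h.1]
  rcases hφ h with h1 | ⟨hk, h1⟩
  · rw [h1]
  · rw [h1]
    exact kfun_cross hA hc hne P hP hk

/-- The origins in the collapsed data. -/
theorem coll_vrel (hA : Adm φ bq γ be ε)
    (hc : ∀ h, c (be (ε (γ h))) = c (ε (γ (φ h)))) (hne : c e₀ ≠ c (be e₀))
    {φ' : Perm (CH γ be ε e₀)} (hφ : IsColl φ γ be ε e₀ φ') {a b : CQ be ε e₀}
    (hab : Vrel φ' (cbq hA e₀) (cgam γ be ε e₀) a b) :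
    (c (ε a.1) = c (ε b.1) ∧ Vrel φ bq γ a.1 b.1) ∨
    (c (ε a.1) ≠ c (ε b.1) ∧ ∃ k, (ε k = e₀ ∨ ε k = be e₀) ∧ Vrel φ bq γ a.1 k ∧
      Vrel φ bq γ (bq k) b.1) := by
  have h0 := hab.eq_of_tinv (coll_tinv hA hc hne hφ
    (fun q => (Quotient.mk (Vset φ bq γ) q : Quotient (Vset φ bq γ)))
    (fun h => Quotient.sound (s := Vset φ bq γ) (Vrel.turn h)))
  by_cases ha : HasK φ bq γ ε e₀ a.1 <;> by_cases hb : HasK φ bq γ ε e₀ b.1
  · obtain ⟨x, hx, hxa⟩ := ha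
    obtain ⟨y, hy, hyb⟩ := hb
    rw [kfun_pos hA _ _ hx hxa, kfun_pos hA _ _ hy hyb] at h0
    have h1 : Vrel φ bq γ (bq x) (bq y) := Quotient.exact (s := Vset φ bq γ) h0
    have h2 : bq x = bq y := hA.imm _ _ h1 (by rw [hA.eps_bq, hA.eps_bq, hx, hy])
    have h3 : x = y := by rw [← hA.bq_bq x, h2, hA.bq_bq]
    subst h3
    have h4 := hxa.symm.trans hyb
    exact Or.inl ⟨c_vrel hA hc h4, h4⟩
  · obtain ⟨x, hx, hxa⟩ := ha
    rw [kfun_pos hA _ _ hx hxa, kfun_neg _ _ hb] at h0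
    have h1 : Vrel φ bq γ (bq x) b.1 := Quotient.exact (s := Vset φ bq γ) h0
    refine Or.inr ⟨?_, x, Or.inl hx, hxa.symm, h1⟩
    rw [← c_vrel hA hc h1, ← c_vrel hA hc hxa, hA.eps_bq, hx]
    exact hne
  · obtain ⟨y, hy, hyb⟩ := hb
    rw [kfun_neg _ _ ha, kfun_pos hA _ _ hy hyb] at h0
    have h1 : Vrel φ bq γ a.1 (bq y) := Quotient.exact (s := Vset φ bq γ) h0
    refine Or.inr ⟨?_, bq y, Or.inr (by rw [hA.eps_bq, hy]), h1, by rw [hA.bq_bq]; exact hyb⟩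
    rw [c_vrel hA hc h1, ← c_vrel hA hc hyb, hA.eps_bq, hy]
    exact hne.symm
  · rw [kfun_neg _ _ ha, kfun_neg _ _ hb] at h0
    have h1 : Vrel φ bq γ a.1 b.1 := Quotient.exact (s := Vset φ bq γ) h0
    exact Or.inl ⟨c_vrel hA hc h1, h1⟩

theorem coll_imm (hA : Adm φ bq γ be ε)
    (hc : ∀ h, c (be (ε (γ h))) = c (ε (γ (φ h)))) (hne : c e₀ ≠ c (be e₀))
    {φ' : Perm (CH γ be ε e₀)} (hφ : IsColl φ γ be ε e₀ φ') {a b : CQ be ε e₀}
    (hab : Vrel φ' (cbq hA e₀) (cgam γ be ε e₀) a b) (he : ε a.1 = ε b.1) : a = b := by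
  rcases coll_vrel hA hc hne hφ hab with ⟨_, h⟩ | ⟨h, _⟩
  · exact Subtype.ext (hA.imm _ _ h he)
  · exact absurd (by rw [he]) h

/-- The value of `c` at a direction over `e₀` or its inverse determines the direction. -/
theorem c_K (hne : c e₀ ≠ c (be e₀)) {k l : Q}
    (hk : ε k = e₀ ∨ ε k = be e₀) (hl : ε l = e₀ ∨ ε l = be e₀) (h : c (ε k) = c (ε l)) :
    ε k = ε l := by
  rcases hk with hk | hk <;> rcases hl with hl | hl
  · rw [hk, hl]
  · rw [hk, hl] at h; exact absurd h hne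
  · rw [hk, hl] at h; exact absurd h.symm hne
  · rw [hk, hl]

theorem coll_wf (hA : Adm φ bq γ be ε)
    (hc : ∀ h, c (be (ε (γ h))) = c (ε (γ (φ h)))) (hne : c e₀ ≠ c (be e₀))
    {φ' : Perm (CH γ be ε e₀)} (hφ : IsColl φ γ be ε e₀ φ') :
    WellFounded fun y x => Step φ' (cbq hA e₀) (cgam γ be ε e₀)
      (fun q : CQ be ε e₀ => ε q.1) x y := by
  have h1 := WellFounded.transGen hA.wf
  refine Subrelation.wf (r := InvImage (Relation.TransGen fun y x => Step φ bq γ ε x y)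
    (fun p : CQ be ε e₀ × CQ be ε e₀ => (p.1.1, p.2.1))) ?_ (InvImage.wf _ h1)
  rintro ⟨y1, y2⟩ ⟨x1, x2⟩ ⟨hx, hxn, hy, hyn, hv1, hv2, hb⟩
  simp only at hx hxn hy hyn hv1 hv2 hb
  show Relation.TransGen (fun y x => Step φ bq γ ε x y) (y1.1, y2.1) (x1.1, x2.1)
  have hu : ε (cbq hA e₀ x1).1 = ε (cbq hA e₀ x2).1 := by
    show ε (bq x1.1) = ε (bq x2.1)
    rw [hA.eps_bq, hA.eps_bq, hx]
  have hxn' : x1.1 ≠ x2.1 := fun h => hxn (Subtype.ext h)
  have hyn' : y1.1 ≠ y2.1 := fun h => hyn (Subtype.ext h)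
  have hb' : y1.1 ≠ bq x1.1 := fun h => hb (Subtype.ext h)
  rcases coll_vrel hA hc hne hφ hv1 with ⟨c1, w1⟩ | ⟨c1, k1, hk1, w1, w1'⟩
  · rcases coll_vrel hA hc hne hφ hv2 with ⟨c2, w2⟩ | ⟨c2, _⟩
    · exact Relation.TransGen.single ⟨hx, hxn', hy, hyn', w1, w2, hb'⟩
    · exact absurd (by rw [← hu, ← hy]; exact c1) c2
  · rcases coll_vrel hA hc hne hφ hv2 with ⟨c2, w2⟩ | ⟨c2, k2, hk2, w2, w2'⟩
    · exact absurd (by rw [hu, hy]; exact c2) c1
    · have hk : ε k1 = ε k2 := by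
        refine c_K hne hk1 hk2 ?_
        rw [← c_vrel hA hc w1, ← c_vrel hA hc w2, hu]
      have hkn : k1 ≠ k2 := by
        intro h
        apply hxn'
        have h2 : (cbq hA e₀ x1).1 = (cbq hA e₀ x2).1 :=
          hA.imm _ _ (w1.trans (by rw [h]; exact w2.symm)) hu
        have h3 : bq x1.1 = bq x2.1 := h2
        rw [← hA.bq_bq x1.1, h3, hA.bq_bq]
      refine Relation.TransGen.tail (b := (k1, k2)) (Relation.TransGen.single ?_) ?_
      · refine ⟨hk, hkn, hy, hyn', w1', w2', fun h => ?_⟩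
        have h3 : ε y1.1 = ε (bq k1) := congrArg ε h
        rw [hA.eps_bq] at h3
        rcases hk1 with h4 | h4
        · exact y1.2.2 (by rw [h3, h4])
        · exact y1.2.1 (by rw [h3, h4, hA.be_be])
      · refine ⟨hx, hxn', hk, hkn, w1, w2, fun h => ?_⟩
        have h3 : ε k1 = ε (bq x1.1) := congrArg ε h
        have h4 := (cbq hA e₀ x1).2
        rcases hk1 with h5 | h5
        · exact h4.1 (h3.symm.trans h5)
        · exact h4.2 (h3.symm.trans h5)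

theorem coll_hasK_unique (hA : Adm φ bq γ be ε) {x y q : Q} (hx : ε x = e₀) (hy : ε y = e₀)
    (h1 : Vrel φ bq γ x q) (h2 : Vrel φ bq γ y q) : x = y :=
  hA.imm _ _ (h1.trans h2.symm) (hx.trans hy.symm)

open Classical in
theorem coll_inj (hA : Adm φ bq γ be ε)
    (hc : ∀ h, c (be (ε (γ h))) = c (ε (γ (φ h)))) (hne : c e₀ ≠ c (be e₀))
    {φ' : Perm (CH γ be ε e₀)} (hφ : IsColl φ γ be ε e₀ φ') [Fintype (CQ be ε e₀)]
    (z : CQ be ε e₀ → ℚ) (hz : ∀ q, z (cbq hA e₀ q) = - z q)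
    (h1 : ∀ f : CQ be ε e₀ → ℚ, TInv φ' (cbq hA e₀) (cgam γ be ε e₀) f → ∑ q, f q * z q = 0)
    (h2 : ∀ g : E → ℚ, ∑ q : CQ be ε e₀, g (ε q.1) * z q = 0) (q : CQ be ε e₀) : z q = 0 := by
  have hee : e₀ ≠ be e₀ := fun h => hA.be_ne e₀ h.symm
  -- the sum of `z` at the origin of `x`
  let S : Q → ℚ := fun x => ∑ q : CQ be ε e₀, if Vrel φ bq γ x q.1 then z q else 0
  let Z : Q → ℚ := fun q => if hq : ε q ≠ e₀ ∧ ε q ≠ be e₀ then z ⟨q, hq⟩ else
    if ε q = e₀ then - S q else S (bq q)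
  have Z1 : ∀ q : CQ be ε e₀, Z q.1 = z q := fun q => dif_pos q.2
  have Z2 : ∀ x, ε x = e₀ → Z x = - S x := by
    intro x hx
    have hn : ¬ (ε x ≠ e₀ ∧ ε x ≠ be e₀) := fun h => h.1 hx
    show (if hq : ε x ≠ e₀ ∧ ε x ≠ be e₀ then z ⟨x, hq⟩ else
      if ε x = e₀ then - S x else S (bq x)) = _
    rw [dif_neg hn, if_pos hx]
  have Z3 : ∀ x, ε x = e₀ → Z (bq x) = S x := by
    intro x hx
    have hb : ε (bq x) = be e₀ := by rw [hA.eps_bq, hx]
    have hn : ¬ (ε (bq x) ≠ e₀ ∧ ε (bq x) ≠ be e₀) := fun h => h.2 hb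
    have hn' : ε (bq x) ≠ e₀ := by rw [hb]; exact hee.symm
    show (if hq : ε (bq x) ≠ e₀ ∧ ε (bq x) ≠ be e₀ then z ⟨bq x, hq⟩ else
      if ε (bq x) = e₀ then - S (bq x) else S (bq (bq x))) = _
    rw [dif_neg hn, if_neg hn', hA.bq_bq]
  have Z4 : ∀ q, Z (bq q) = - Z q := by
    intro q
    by_cases hq : ε q ≠ e₀ ∧ ε q ≠ be e₀
    · have := hz ⟨q, hq⟩
      rw [← Z1, ← Z1] at this
      exact this
    · by_cases hq1 : ε q = e₀
      · rw [Z3 q hq1, Z2 q hq1, neg_neg]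
      · have hq2 : ε q = be e₀ := by
          by_contra h
          exact hq ⟨hq1, h⟩
        have hq3 : ε (bq q) = e₀ := by rw [hA.eps_bq, hq2, hA.be_be]
        have h4 := Z3 _ hq3
        rw [hA.bq_bq] at h4
        rw [Z2 _ hq3, h4]
  -- sums over all edges
  have hsum : ∀ f : Q → ℚ, ∑ q, f q * Z q = ∑ q : CQ be ε e₀, f q.1 * z q -
      ∑ x, if ε x = e₀ then (f x - f (bq x)) * S x else 0 := by
    intro f
    rw [sum_split (e₀ := e₀) hA (fun q => f q * Z q), sub_eq_add_neg, ← Finset.sum_neg_distrib]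
    congr 1
    · exact Finset.sum_congr rfl fun q _ => by rw [Z1]
    · refine Finset.sum_congr rfl fun x _ => ?_
      by_cases hx : ε x = e₀
      · rw [if_pos hx, if_pos hx, Z2 x hx, Z3 x hx]; ring
      · rw [if_neg hx, if_neg hx, neg_zero]
  have hcyc : ∀ f : Q → ℚ, TInv φ bq γ f → ∑ q, f q * Z q = 0 := by
    intro f hf
    have h3 : (∑ x, if ε x = e₀ then (f x - f (bq x)) * S x else 0) =
        ∑ q : CQ be ε e₀, (∑ x, if ε x = e₀ ∧ Vrel φ bq γ x q.1 then f x - f (bq x) else 0) *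
          z q := by
      have h4 : ∀ x, (if ε x = e₀ then (f x - f (bq x)) * S x else 0) =
          ∑ q : CQ be ε e₀, (if ε x = e₀ ∧ Vrel φ bq γ x q.1 then f x - f (bq x) else 0) *
            z q := by
        intro x
        by_cases hx : ε x = e₀
        · rw [if_pos hx]
          show _ * (∑ q : CQ be ε e₀, if Vrel φ bq γ x q.1 then z q else 0) = _
          rw [Finset.mul_sum]
          refine Finset.sum_congr rfl fun q _ => ?_
          by_cases hq : Vrel φ bq γ x q.1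
          · rw [if_pos hq, if_pos ⟨hx, hq⟩]
          · rw [if_neg hq, if_neg (fun h => hq h.2), mul_zero, zero_mul]
        · rw [if_neg hx]
          symm
          refine Finset.sum_eq_zero fun q _ => ?_
          rw [if_neg (fun h => hx h.1), zero_mul]
      rw [Finset.sum_congr rfl fun x _ => h4 x, Finset.sum_comm]
      exact Finset.sum_congr rfl fun q _ => by rw [Finset.sum_mul]
    have h5 := h1 _ (coll_tinv hA hc hne hφ f hf)
    rw [hsum, h3, ← Finset.sum_sub_distrib]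
    refine Eq.trans ?_ h5
    refine Finset.sum_congr rfl fun q _ => ?_
    rw [← sub_mul]
    congr 1
    by_cases hq : HasK φ bq γ ε e₀ q.1
    · obtain ⟨x, hx, hxq⟩ := hq
      rw [kfun_pos hA _ _ hx hxq]
      have h6 : (∑ y, if ε y = e₀ ∧ Vrel φ bq γ y q.1 then f y - f (bq y) else 0) =
          f x - f (bq x) := by
        rw [Finset.sum_eq_single x]
        · rw [if_pos ⟨hx, hxq⟩]
        · intro y _ hy
          rw [if_neg]
          rintro ⟨hy1, hy2⟩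
          exact hy (coll_hasK_unique hA hy1 hx hy2 hxq)
        · intro h; exact absurd (Finset.mem_univ x) h
      rw [h6, ← hxq.eq_of_tinv hf]
      ring
    · rw [kfun_neg _ _ hq]
      have h6 : (∑ y, if ε y = e₀ ∧ Vrel φ bq γ y q.1 then f y - f (bq y) else 0) = 0 := by
        refine Finset.sum_eq_zero fun y _ => ?_
        rw [if_neg]
        rintro ⟨hy1, hy2⟩
        exact hq ⟨y, hy1, hy2⟩
      rw [h6, sub_zero]
  -- the sum of `S` vanishes
  have hS : (∑ x, if ε x = e₀ then S x else 0) = 0 := by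
    let χ : E → ℚ := fun e => if c e = c e₀ then 1 else 0
    have h3 : TInv φ bq γ fun q => χ (ε q) := by
      refine hA.tinv_comp (F := χ) fun h => ?_
      show (if c (be (ε (γ h))) = c e₀ then (1 : ℚ) else 0) = _
      rw [hc h]
    have h4 := hcyc _ h3
    rw [hsum, h2 χ, zero_sub, neg_eq_zero] at h4
    refine Eq.trans ?_ h4
    refine Finset.sum_congr rfl fun x _ => ?_
    by_cases hx : ε x = e₀
    · rw [if_pos hx, if_pos hx, hA.eps_bq, hx]
      have h5 : χ e₀ = 1 := if_pos rfl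
      have h6 : χ (be e₀) = 0 := if_neg hne.symm
      rw [h5, h6]; ring
    · rw [if_neg hx, if_neg hx]
  have hE : ∀ g : E → ℚ, ∑ q, g (ε q) * Z q = 0 := by
    intro g
    rw [hsum, h2 g, zero_sub, neg_eq_zero]
    have h3 : (∑ x, if ε x = e₀ then (g (ε x) - g (ε (bq x))) * S x else 0) =
        (g e₀ - g (be e₀)) * ∑ x, if ε x = e₀ then S x else 0 := by
      rw [Finset.mul_sum]
      refine Finset.sum_congr rfl fun x _ => ?_
      by_cases hx : ε x = e₀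
      · rw [if_pos hx, if_pos hx, hA.eps_bq, hx]
      · rw [if_neg hx, if_neg hx, mul_zero]
    rw [h3, hS, mul_zero]
  rw [← Z1]
  exact hA.inj Z Z4 hcyc hE q.1

open Classical in
theorem coll_ind (hA : Adm φ bq γ be ε)
    (hc : ∀ h, c (be (ε (γ h))) = c (ε (γ (φ h)))) (hne : c e₀ ≠ c (be e₀))
    {φ' : Perm (CH γ be ε e₀)} (hφ : IsColl φ γ be ε e₀ φ') [Fintype (CH γ be ε e₀)]
    (a : CH γ be ε e₀ → ℚ) (ha : ∀ h, a (φ' h) = a h)
    (h1 : ∀ g : CQ be ε e₀ → ℚ, (∀ q, g (cbq hA e₀ q) = - g q) →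
      ∑ h, g (cgam γ be ε e₀ h) * a h = 0) (h h' : CH γ be ε e₀) : a h = a h' := by
  -- extend `a`
  let b : H → ℚ := fun h => if hh : ε (γ h) ≠ e₀ ∧ ε (γ h) ≠ be e₀ then a ⟨h, hh⟩ else
    if hk : ε (γ (φ h)) ≠ e₀ ∧ ε (γ (φ h)) ≠ be e₀ then a ⟨φ h, hk⟩ else 0
  have b1 : ∀ h : CH γ be ε e₀, b h.1 = a h := fun h => dif_pos h.2
  have b2 : ∀ h, (ε (γ h) = e₀ ∨ ε (γ h) = be e₀) → b h = b (φ h) := by
    intro h hk
    have hn : ¬ (ε (γ h) ≠ e₀ ∧ ε (γ h) ≠ be e₀) := by tauto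
    have hk' := K_next hA hc hne hk
    have h3 : b (φ h) = a ⟨φ h, hk'⟩ := b1 ⟨φ h, hk'⟩
    rw [h3]
    show (if hh : ε (γ h) ≠ e₀ ∧ ε (γ h) ≠ be e₀ then a ⟨h, hh⟩ else
      if hk : ε (γ (φ h)) ≠ e₀ ∧ ε (γ (φ h)) ≠ be e₀ then a ⟨φ h, hk⟩ else 0) = _
    rw [dif_neg hn, dif_pos hk']
  have b3 : ∀ h, b (φ h) = b h := by
    intro h
    by_cases hk : ε (γ h) = e₀ ∨ ε (γ h) = be e₀
    · exact (b2 h hk).symm
    · have hk' : ε (γ h) ≠ e₀ ∧ ε (γ h) ≠ be e₀ := by tauto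
      have h4 := ha ⟨h, hk'⟩
      rw [← b1, ← b1] at h4
      rcases hφ ⟨h, hk'⟩ with h5 | ⟨h6, h5⟩
      · rw [h5] at h4; exact h4
      · rw [h5] at h4
        rw [b2 _ h6]; exact h4
  -- functions vanishing on the collapsed edge
  have hvan : ∀ g : Q → ℚ, (∀ q, g (bq q) = - g q) → (∀ q, ε q = e₀ → g q = 0) →
      ∑ h, g (γ h) * b h = 0 := by
    intro g hg hg0
    have hg1 : ∀ q, ε q = be e₀ → g q = 0 := by
      intro q hq
      have h4 : ε (bq q) = e₀ := by rw [hA.eps_bq, hq, hA.be_be]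
      have h5 := hg0 _ h4
      rw [hg] at h5
      linarith
    have h3 := h1 (fun q => g q.1) (fun q => hg q.1)
    rw [← h3]
    symm
    have h4 : ∑ h : CH γ be ε e₀, g (cgam γ be ε e₀ h).1 * a h =
        ∑ h : CH γ be ε e₀, g (γ h.1) * b h.1 :=
      Finset.sum_congr rfl fun h _ => by rw [b1]; rfl
    rw [h4]
    have h5 : ∑ h, g (γ h) * b h =
        ∑ h ∈ Finset.univ.filter (fun h => ε (γ h) ≠ e₀ ∧ ε (γ h) ≠ be e₀), g (γ h) * b h := by
      rw [Finset.sum_filter]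
      refine Finset.sum_congr rfl fun h _ => ?_
      by_cases hh : ε (γ h) ≠ e₀ ∧ ε (γ h) ≠ be e₀
      · rw [if_pos hh]
      · rw [if_neg hh]
        by_cases hq : ε (γ h) = e₀
        · rw [hg0 _ hq, zero_mul]
        · rw [hg1 (γ h) (by tauto), zero_mul]
    rw [h5]
    symm
    exact Finset.sum_subtype _ (fun h => by simp) _
  -- differences of turn-invariant functions
  have hdif : ∀ F : Q → ℚ, TInv φ bq γ F → ∑ h, (F (γ h) - F (bq (γ h))) * b h = 0 := by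
    intro F hF
    have h3 : ∑ h, F (γ h) * b h = ∑ h, F (bq (γ h)) * b h := by
      rw [← Equiv.sum_comp φ]
      exact Finset.sum_congr rfl fun h _ => by rw [b3, hF h]
    simp only [sub_mul, Finset.sum_sub_distrib, h3, sub_self]
  have hall : ∀ g : Q → ℚ, (∀ q, g (bq q) = - g q) → ∑ h, g (γ h) * b h = 0 := by
    intro g hg
    let F : Q → ℚ := kfun φ bq γ ε e₀ g (fun _ => 0)
    have hF : TInv φ bq γ F := kfun_turn hA g (fun _ => 0) (fun _ => rfl)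
    have h3 := hvan (fun q => g q - (F q - F (bq q))) (fun q => by
      simp only [hA.bq_bq, hg]; ring) (fun q hq => by
      have h4 : F q = g q := kfun_pos hA _ _ hq (Vrel.refl _)
      have h5 : F (bq q) = 0 := kfun_neg _ _ (not_hasK hA hc (by
        rw [hA.eps_bq, hq]; exact hne.symm))
      rw [h4, h5]; ring)
    have h6 := hdif F hF
    have h7 : ∑ h, g (γ h) * b h = ∑ h, (g (γ h) - (F (γ h) - F (bq (γ h)))) * b h +
        ∑ h, (F (γ h) - F (bq (γ h))) * b h := by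
      rw [← Finset.sum_add_distrib]
      exact Finset.sum_congr rfl fun h _ => by ring
    rw [h7, h3, h6, add_zero]
  rw [← b1, ← b1]
  exact hA.ind b b3 hall h.1 h'.1

theorem coll_ret {φ' : Perm (CH γ be ε e₀)} (hφ : IsColl φ γ be ε e₀ φ')
    (x : CH γ be ε e₀) : ∃ k, 0 < k ∧ (φ' x).1 = (φ ^ k) x.1 ∧
      ∀ j, 0 < j → j < k → (φ ^ j) x.1 ∉ Set.range (Subtype.val : CH γ be ε e₀ → H) := by
  rcases hφ x with h | ⟨hk, h⟩
  · exact ⟨1, one_pos, by rw [pow_one]; exact h, fun j h1 h2 => by omega⟩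
  · refine ⟨2, two_pos, by rw [pow_two]; exact h, fun j h1 h2 => ?_⟩
    have hj : j = 1 := by omega
    subst hj
    rintro ⟨y, hy⟩
    rw [pow_one] at hy
    have := y.2
    rw [hy] at this
    tauto

theorem coll_meet (hA : Adm φ bq γ be ε)
    (hc : ∀ h, c (be (ε (γ h))) = c (ε (γ (φ h)))) (hne : c e₀ ≠ c (be e₀)) (h : H) :
    ∃ x : CH γ be ε e₀, φ.SameCycle x.1 h := by
  by_cases hk : ε (γ h) = e₀ ∨ ε (γ h) = be e₀
  · exact ⟨⟨φ h, K_next hA hc hne hk⟩, ⟨-1, by simp⟩⟩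
  · exact ⟨⟨h, by tauto⟩, Perm.SameCycle.refl _ _⟩

theorem coll_dep (hA : Adm φ bq γ be ε)
    (hc : ∀ h, c (be (ε (γ h))) = c (ε (γ (φ h)))) (hne : c e₀ ≠ c (be e₀))
    {φ' : Perm (CH γ be ε e₀)} (hφ : IsColl φ γ be ε e₀ φ')
    (hD : DepAll φ be fun h => ε (γ h)) :
    DepAll φ' be fun h : CH γ be ε e₀ => ε (γ h.1) := by
  classical
  intro G _ l hl
  let l' : E → G := fun e => if e = e₀ ∨ e = be e₀ then 1 else l e
  have hl' : ∀ e, l' (be e) = (l' e)⁻¹ := by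
    intro e
    by_cases he : e = e₀ ∨ e = be e₀
    · have he' : be e = e₀ ∨ be e = be e₀ := by
        rcases he with he | he
        · exact Or.inr (by rw [he])
        · exact Or.inl (by rw [he, hA.be_be])
      show (if be e = e₀ ∨ be e = be e₀ then 1 else l (be e)) =
        (if e = e₀ ∨ e = be e₀ then 1 else l e)⁻¹
      rw [if_pos he, if_pos he', inv_one]
    · have he' : ¬ (be e = e₀ ∨ be e = be e₀) := by
        rintro (h | h)
        · exact he (Or.inr (by rw [← h, hA.be_be]))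
        · exact he (Or.inl (by rw [← hA.be_be e, h, hA.be_be]))
      show (if be e = e₀ ∨ be e = be e₀ then 1 else l (be e)) =
        (if e = e₀ ∨ e = be e₀ then 1 else l e)⁻¹
      rw [if_neg he, if_neg he', hl]
  have h1 := hD G l' hl'
  rw [← dep_del (φ' := φ') (Subtype.val : CH γ be ε e₀ → H) Subtype.val_injective
    (fun h => l' (ε (γ h))) (coll_ret hφ) (coll_meet hA hc hne) ?_] at h1
  · have h2 : (fun x : CH γ be ε e₀ => l' (ε (γ x.1))) = fun x => l (ε (γ x.1)) := by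
      funext x
      have hx := x.2
      exact if_neg (by tauto)
    rw [h2] at h1
    exact h1
  · intro h hh
    have h3 : ε (γ h) = e₀ ∨ ε (γ h) = be e₀ := by
      by_contra h4
      exact hh ⟨⟨h, by tauto⟩, rfl⟩
    exact if_pos h3

theorem coll_ndep (hA : Adm φ bq γ be ε)
    (hc : ∀ h, c (be (ε (γ h))) = c (ε (γ (φ h)))) (hne : c e₀ ≠ c (be e₀))
    {φ' : Perm (CH γ be ε e₀)} (hφ : IsColl φ γ be ε e₀ φ')
    (hD : DepAll φ' (cbq hA e₀) (cgam γ be ε e₀)) : DepAll φ bq γ := by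
  intro G _ l hl
  let g : Q → G := kfun φ bq γ ε e₀ l (fun _ => 1)
  have hg : TInv φ bq γ g := kfun_turn hA l (fun _ => 1) (fun _ => rfl)
  have g1 : ∀ q, ε q = e₀ → g q = l q := fun q hq => kfun_pos hA _ _ hq (Vrel.refl _)
  have g2 : ∀ q, ε q = be e₀ → g q = 1 := fun q hq => kfun_neg _ _ (not_hasK hA hc (by
    rw [hq]; exact hne.symm))
  let m : Q → G := fun q => (g q)⁻¹ * l q * g (bq q)
  have hm : ∀ q, m (bq q) = (m q)⁻¹ := by
    intro q
    show (g (bq q))⁻¹ * l (bq q) * g (bq (bq q)) = ((g q)⁻¹ * l q * g (bq q))⁻¹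
    rw [hA.bq_bq, hl]
    group
  have hm1 : ∀ q, (ε q = e₀ ∨ ε q = be e₀) → m q = 1 := by
    intro q hq
    show (g q)⁻¹ * l q * g (bq q) = 1
    rcases hq with hq | hq
    · rw [g1 q hq, g2 (bq q) (by rw [hA.eps_bq, hq])]
      group
    · rw [g2 q hq, g1 (bq q) (by rw [hA.eps_bq, hq, hA.be_be]), hl]
      group
  have h1 := hD G (fun q => m q.1) (fun q => hm q.1)
  have h2 : Dep φ fun h => m (γ h) := by
    rw [← dep_del (φ' := φ') (Subtype.val : CH γ be ε e₀ → H) Subtype.val_injective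
      (fun h => m (γ h)) (coll_ret hφ) (coll_meet hA hc hne)]
    · exact h1
    · intro h hh
      refine hm1 _ ?_
      by_contra h4
      exact hh ⟨⟨h, by tauto⟩, rfl⟩
  have h3 : (fun h => m (γ h)) =
      fun h => (g (γ h))⁻¹ * l (γ h) * g (γ (φ h)) := by
    funext h
    show (g (γ h))⁻¹ * l (γ h) * g (bq (γ h)) = _
    rw [hg h]
  rw [h3] at h2
  exact (dep_gauge φ (fun h => l (γ h)) (fun h => g (γ h))).mp h2

end data

end Coll

open Coll

/-- Collapsing an edge `e₀` of `T` whose end points are different. -/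
theorem collapse (hC : Ctr φ bq γ be ε) (e₀ : E) (c : E → Prop)
    (hc : ∀ h, c (be (ε (γ h))) = c (ε (γ (φ h)))) (hne : c e₀ ≠ c (be e₀)) :
    ∃ (Q' : Type) (_ : Fintype Q') (_ : Fintype {h : H // ε (γ h) ≠ e₀ ∧ ε (γ h) ≠ be e₀})
      (φ' : Perm {h : H // ε (γ h) ≠ e₀ ∧ ε (γ h) ≠ be e₀})
      (bq' : Q' → Q') (γ' : {h : H // ε (γ h) ≠ e₀ ∧ ε (γ h) ≠ be e₀} → Q') (ε' : Q' → E),
      Ctr φ' bq' γ' be ε' ∧ (∀ h, ε' (γ' h) = ε (γ h.1)) ∧
      ∀ h, (φ' h).1 = φ h.1 ∨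
        ((ε (γ (φ h.1)) = e₀ ∨ ε (γ (φ h.1)) = be e₀) ∧ (φ' h).1 = φ (φ h.1)) := by
  classical
  have hA := hC.adm
  obtain ⟨φ', hφ⟩ := exists_isColl hA hc hne
  refine ⟨CQ be ε e₀, inferInstance, inferInstance, φ', cbq hA e₀, cgam γ be ε e₀,
    fun q => ε q.1, ⟨?_, ?_, ?_⟩, fun h => rfl, hφ⟩
  · refine ⟨fun q => Subtype.ext (hA.bq_bq q.1), hA.be_be, hA.be_ne, fun q => hA.eps_bq q.1,
      ?_, ?_, fun a b hab he => coll_imm hA hc hne hφ hab he, ?_, ?_, coll_wf hA hc hne hφ⟩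
    · intro q
      obtain ⟨h, hh⟩ := hA.trav q.1
      rcases hh with hh | hh
      · exact ⟨⟨h, by rw [hh]; exact q.2⟩, Or.inl (Subtype.ext hh)⟩
      · exact ⟨⟨h, by rw [hh]; exact eps_bq_ne hA q.2⟩, Or.inr (Subtype.ext hh)⟩
    · intro h hh
      have h1 : γ (φ' h).1 = bq (γ h.1) := congrArg Subtype.val hh
      rcases hφ h with h2 | ⟨hk, h2⟩
      · rw [h2] at h1
        exact hA.red _ h1
      · rw [h2] at h1
        apply c_turn hA hc hne hk
        rw [h1, hA.eps_bq, hc]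
    · intro z hz h1 h2
      exact coll_inj hA hc hne hφ z hz h1 h2
    · intro a ha h1
      exact coll_ind hA hc hne hφ a ha h1
  · exact coll_dep hA hc hne hφ hC.dep
  · intro h
    exact hC.ndep (coll_ndep hA hc hne hφ h)

end Pool.Agent.H57.Stall
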