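import Mathlib
import Pool.Agent.H57.Stall.Basic

set_option autoImplicit false

namespace Pool.Agent.H57.Stall

open Equiv

/-- The graph `T` is a line with `N` vertices with one further edge direction attached at every
vertex, and at every inner vertex all three types of turns occur. -/
structure Lev {H E : Type} (φ : Perm H) (be : E → E) (w : H → E) (lev : E → ℕ) (N : ℕ) :
    Prop where
  turn : ∀ h, lev (be (w h)) = lev (w (φ h))
  lt : ∀ e, lev e < N
  two : 2 ≤ N
  card_end : ∀ m, m < N → (m = 0 ∨ m + 1 = N) → Nat.card {e // lev e = m} = 2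
  card_mid : ∀ m, 0 < m → m + 1 < N → Nat.card {e // lev e = m} = 3
  tri : ∀ e e', lev e = lev e' → e ≠ e' → 0 < lev e → lev e + 1 < N →
    ∃ h, (be (w h) = e ∧ w (φ h) = e') ∨ (be (w h) = e' ∧ w (φ h) = e)
  big : 2 * ncyc φ ≤ N + 2

/-- The number of edges of `Γ` with the same origin as `q`. -/
noncomputable def val {H Q : Type} (φ : Perm H) (bq : Q → Q) (γ : H → Q) (q : Q) : ℕ :=
  Nat.card {q' // Vrel φ bq γ q q'}

/-- The strip `g` is mixed: the turns at its origin on its two sides have different types. -/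
def Mixed {H E : Type} (φ ι : Perm H) (be : E → E) (w : H → E) (g : H) : Prop :=
  be (w (φ⁻¹ g)) ≠ w (φ (ι g))

/-- The end of a half-arc. -/
def hend {H Q : Type} (ι : Perm H) (bq : Q → Q) (γ : H → Q) : H × Bool → Q
  | (g, false) => γ g
  | (g, true) => bq (γ (ι g))

/-- The node `u` is shared by half-arcs over `e` in `A` and not in `A`. -/
def Shared {H Q E : Type} (ι : Perm H) (bq : Q → Q) (γ : H → Q) (ε : Q → E) (e : E)
    (A : Set (H × Bool)) (u : Q ⊕ H) : Prop :=
  (∃ x, x ∈ A ∧ ε (γ x.1) = e ∧ (u = Sum.inl (hend ι bq γ x) ∨ u = Sum.inr x.1)) ∧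
  (∃ x, x ∉ A ∧ ε (γ x.1) = e ∧ (u = Sum.inl (hend ι bq γ x) ∨ u = Sum.inr x.1))

/-- `q` and `q'` are different and cannot be separated in the fibre graph over `e` by removing two
elements (vertices or arcs). -/
def Insep {H Q E : Type} (ι : Perm H) (bq : Q → Q) (γ : H → Q) (ε : Q → E) (e : E)
    (q q' : Q) : Prop :=
  ε q = e ∧ ε q' = e ∧ q ≠ q' ∧
  ∀ B : Finset (Q ⊕ H), B.card ≤ 2 → Sum.inl q ∉ B → Sum.inl q' ∉ B →
    ∀ χ : Q ⊕ H → Prop,
      (∀ x : H × Bool, ε (γ x.1) = e → Sum.inl (hend ι bq γ x) ∉ B → Sum.inr x.1 ∉ B →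
        χ (Sum.inl (hend ι bq γ x)) = χ (Sum.inr x.1)) →
      χ (Sum.inl q) = χ (Sum.inl q')

end Pool.Agent.H57.Stall
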