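import Mathlib
import Pool.Agent.H57.Stall.Collapse

set_option autoImplicit false

namespace Pool.Agent.H57.Stall

open Equiv

theorem forest_aux {L : ℕ} (hmin : ∀ N, N < L → ¬ CtrAt N) {E : Type} {be : E → E} (n : ℕ) :
    ∀ (H Q : Type) (_ : Fintype H) (_ : Fintype Q) (φ : Perm H) (bq : Q → Q) (γ : H → Q)
      (ε : Q → E), Fintype.card H = n → Ctr φ bq γ be ε → ∀ Z : Set E,
      (∀ e, e ∈ Z → be e ∈ Z) →
      (∀ ρ : E → ℚ, (∀ e, ρ (be e) = - ρ e) → ∃ F : E → ℚ,
        (∀ h, F (be (ε (γ h))) = F (ε (γ (φ h)))) ∧ ∀ e, e ∈ Z → ρ e = F (be e) - F e) →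
      L ≤ Nat.card {h : H // ε (γ h) ∉ Z} := by
  induction n using Nat.strong_induction_on with
  | _ n ih =>
  intro H Q iH iQ φ bq γ ε hn hC Z hZ hF
  classical
  have hbe := hC.adm.be_be
  have hbne := hC.adm.be_ne
  by_cases hex : ∃ h₀, ε (γ h₀) ∈ Z
  · obtain ⟨h₀, hh₀⟩ := hex
    set e₀ := ε (γ h₀) with he₀
    -- the splitting function
    obtain ⟨F, hF1, hF2⟩ := hF (fun e => (if e = e₀ then 1 else 0) - (if e = be e₀ then 1 else 0))
      (by
        intro e
        have h1 : (be e = e₀) ↔ (e = be e₀) :=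
          ⟨fun h => by rw [← h, hbe], fun h => by rw [h, hbe]⟩
        have h2 : (be e = be e₀) ↔ (e = e₀) :=
          ⟨fun h => by rw [← hbe e, h, hbe], fun h => by rw [h]⟩
        simp only [h1, h2]
        ring)
    have h1 : F (be e₀) ≠ F e₀ := by
      intro h1
      have h2 := hF2 e₀ hh₀
      rw [h1, sub_self] at h2
      have h3 : e₀ ≠ be e₀ := fun h => hbne e₀ h.symm
      simp [h3] at h2
    obtain ⟨Q', iQ', iH', φ', bq', γ', ε', hC', hγ, hφ⟩ := collapse hC e₀ (fun e => F e = F e₀)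
      (fun h => by rw [hF1]) (fun h => h1 (h.mp rfl))
    have hcard : @Fintype.card {h : H // ε (γ h) ≠ e₀ ∧ ε (γ h) ≠ be e₀} iH' < n := by
      rw [← hn]
      refine Fintype.card_subtype_lt (x := h₀) ?_
      exact fun h => h.1 rfl
    have key := ih _ hcard {h : H // ε (γ h) ≠ e₀ ∧ ε (γ h) ≠ be e₀} Q' iH' iQ' φ' bq' γ' ε' rfl hC'
      (Z \ {e₀, be e₀}) ?_ ?_
    · refine key.trans ?_
      refine Nat.card_le_card_of_injective
        (fun x : {h : {h : H // ε (γ h) ≠ e₀ ∧ ε (γ h) ≠ be e₀} // ε' (γ' h) ∉ Z \ {e₀, be e₀}} =>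
          (⟨x.1.1, fun h => x.2 ?_⟩ : {h : H // ε (γ h) ∉ Z})) ?_
      · rw [hγ]
        refine ⟨h, ?_⟩
        rintro (h2 | h2)
        · exact x.1.2.1 h2
        · exact x.1.2.2 h2
      · intro x y hxy
        have h2 : x.1.1 = y.1.1 :=
          congrArg (fun a : {h : H // ε (γ h) ∉ Z} => a.1) hxy
        exact Subtype.ext (Subtype.ext h2)
    · rintro e ⟨h2, h3⟩
      refine ⟨hZ e h2, ?_⟩
      rintro (h4 | h4)
      · exact h3 (Or.inr (by rw [← h4, hbe]; rfl))
      · refine h3 (Or.inl ?_)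
        have h5 : be (be e) = be (be e₀) := congrArg be h4
        rw [hbe, hbe] at h5
        exact h5
    · intro ρ hρ
      obtain ⟨F', hF'1, hF'2⟩ := hF (fun e => if e = e₀ ∨ e = be e₀ then 0 else ρ e)
        (by
          intro e
          have h2 : (be e = e₀ ∨ be e = be e₀) ↔ (e = e₀ ∨ e = be e₀) := by
            constructor
            · rintro (h | h)
              · exact Or.inr (by rw [← h, hbe])
              · exact Or.inl (by rw [← hbe e, h, hbe])
            · rintro (h | h)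
              · exact Or.inr (by rw [h])
              · exact Or.inl (by rw [h, hbe])
          simp only [h2, hρ]
          split_ifs <;> simp)
      have h3 : F' (be e₀) = F' e₀ := by
        have h4 := hF'2 e₀ hh₀
        simp only [true_or, if_true] at h4
        linarith
      refine ⟨F', ?_, ?_⟩
      · intro h
        rw [hγ, hγ]
        rcases hφ h with h4 | ⟨h4, h5⟩
        · rw [h4]
          exact hF'1 h.1
        · rw [h5, hF'1 h.1, ← hF'1 (φ h.1)]
          rcases h4 with h4 | h4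
          · rw [h4, h3]
          · rw [h4, hbe, h3]
      · rintro e ⟨h4, h5⟩
        have h6 := hF'2 e h4
        have h7 : ¬ (e = e₀ ∨ e = be e₀) := fun h => h5 (by
          rcases h with h | h
          · exact Or.inl h
          · exact Or.inr h)
        simp only [h7, if_false] at h6
        exact h6
  · push Not at hex
    by_contra hlt
    have h1 : Nat.card {h : H // ε (γ h) ∉ Z} = n := by
      rw [← hn, ← Nat.card_eq_fintype_card]
      exact Nat.card_congr (Equiv.subtypeUnivEquiv hex)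
    refine hmin n (by omega) ⟨H, Q, E, iH, iQ, φ, bq, γ, be, ε, hn, hC⟩

variable {H Q E : Type} [Fintype H] [Fintype Q] {φ : Perm H} {bq : Q → Q} {γ : H → Q}
  {be : E → E} {ε : Q → E}

/-- Collapsing a forest `Z` in a counterexample: at least `L` darts remain if `L` is at most the
minimal number of darts of a counterexample. -/
theorem forest_min {L : ℕ} (hmin : ∀ N, N < L → ¬ CtrAt N) (hC : Ctr φ bq γ be ε) (Z : Set E)
    (hZ : ∀ e, e ∈ Z → be e ∈ Z)
    (hF : ∀ ρ : E → ℚ, (∀ e, ρ (be e) = - ρ e) → ∃ F : E → ℚ,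
      (∀ h, F (be (ε (γ h))) = F (ε (γ (φ h)))) ∧ ∀ e, e ∈ Z → ρ e = F (be e) - F e) :
    L ≤ Nat.card {h : H // ε (γ h) ∉ Z} :=
  forest_aux hmin _ H Q inferInstance inferInstance φ bq γ ε rfl hC Z hZ hF

end Pool.Agent.H57.Stall
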