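import Mathlib
import Pool.Agent.H57.Stall.Cyc

set_option autoImplicit false

namespace Pool.Agent.H57.Stall

open Equiv

namespace HeightAux

/-- Antisymmetric functions. -/
def anti {H : Type} (ι : Perm H) : Submodule ℚ (H → ℚ) where
  carrier := {f | ∀ h, f (ι h) = - f h}
  add_mem' := by
    intro f g hf hg h
    simp only [Pi.add_apply, hf h, hg h]; ring
  zero_mem' := by intro h; simp
  smul_mem' := by
    intro c f hf h
    simp only [Pi.smul_apply, hf h, smul_neg]

/-- The pairing. -/
def pair {H : Type} [Fintype H] (φ ι : Perm H) :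
    invs φ →ₗ[ℚ] Module.Dual ℚ (anti ι) :=
  LinearMap.mk₂ ℚ (fun f a => ∑ h, f.1 h * a.1 h)
    (by intro f g a; simp [add_mul, Finset.sum_add_distrib])
    (by intro c f a; simp [Finset.mul_sum, mul_assoc])
    (by intro f a b; simp [mul_add, Finset.sum_add_distrib])
    (by intro c f a; simp only [SetLike.val_smul, Pi.smul_apply, smul_eq_mul, Finset.mul_sum]
        exact Finset.sum_congr rfl fun h _ => by ring)

lemma pair_apply {H : Type} [Fintype H] (φ ι : Perm H) (f : invs φ) (a : anti ι) :
    pair φ ι f a = ∑ h, f.1 h * a.1 h := rfl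

/-- The coboundary. -/
def cob {H : Type} (ψ ι : Perm H) : invs ψ →ₗ[ℚ] (H → ℚ) where
  toFun f := fun h => f.1 h - f.1 (ι h)
  map_add' := by
    intro f g; funext h; simp; ring
  map_smul' := by
    intro c f; funext h; simp; ring

/-- A submodule of functions all of whose elements are constant has dimension at most one. -/
lemma finrank_le_one_of_const {H : Type} [Fintype H] {V : Type} [AddCommGroup V] [Module ℚ V]
    (i : V →ₗ[ℚ] (H → ℚ)) (hi : Function.Injective i) (h : ∀ v, ∀ x y, i v x = i v y) :
    Module.finrank ℚ V ≤ 1 := by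
  classical
  by_cases hH : Nonempty H
  · obtain ⟨x⟩ := hH
    let e : V →ₗ[ℚ] ℚ := (LinearMap.proj x).comp i
    have he : Function.Injective e := by
      intro v w hvw
      apply hi
      funext y
      have h1 : i v x = i w x := hvw
      rw [h v y x, h w y x, h1]
    have := LinearMap.finrank_le_finrank_of_injective he
    simpa using this
  · have : IsEmpty H := not_nonempty_iff.1 hH
    have h2 := LinearMap.finrank_le_finrank_of_injective hi
    simp only [Module.finrank_fintype_fun_eq_card, Fintype.card_eq_zero] at h2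
    omega

end HeightAux

open HeightAux in
/-- On a connected planar surface every cocycle that vanishes on the boundary is a coboundary. -/
theorem exists_height {H : Type} [Fintype H] {φ ι : Perm H} (inv : ∀ h, ι (ι h) = h)
    (ne : ∀ h, ι h ≠ h) (count : Fintype.card H + 4 ≤ 2 * (ncyc φ + ncyc (ι * φ)))
    (trans : ∀ f : H → ℚ, (∀ h, f (φ h) = f h) → (∀ h, f (ι h) = f h) → ∀ h h', f h = f h')
    (a : H → ℚ) (ha : ∀ h, a (ι h) = - a h)
    (h0 : ∀ f : H → ℚ, (∀ h, f (φ h) = f h) → ∑ h, f h * a h = 0) :
    ∃ η : H → ℚ, ∀ h, η (φ h) = η h + a h ∧ η (ι h) = η h + a h := by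
  classical
  -- the kernel of the pairing
  have hkerB : Module.finrank ℚ (LinearMap.ker (pair φ ι)) ≤ 1 := by
    apply finrank_le_one_of_const (V := LinearMap.ker (pair φ ι)) ((invs φ).subtype.comp (LinearMap.ker (pair φ ι)).subtype)
    · exact (Subtype.val_injective).comp Subtype.val_injective
    · rintro ⟨⟨f, hf⟩, hfB⟩ x y
      apply trans f hf
      intro h
      let b : H → ℚ := Pi.single h 1 - Pi.single (ι h) 1
      have hb : b ∈ anti ι := by
        intro k
        simp only [b, Pi.sub_apply, Pi.single_apply]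
        have h1 : (ι k = h) ↔ (k = ι h) := by
          constructor
          · intro hh; rw [← hh, inv]
          · intro hh; rw [hh, inv]
        have h2 : (ι k = ι h) ↔ (k = h) := ι.injective.eq_iff
        simp only [h1, h2]
        ring
      have h3 : pair φ ι ⟨f, hf⟩ ⟨b, hb⟩ = 0 := by
        have : pair φ ι ⟨f, hf⟩ = 0 := hfB
        rw [this]; rfl
      rw [pair_apply] at h3
      simp only [b, Pi.sub_apply, mul_sub, Finset.sum_sub_distrib, Pi.single_apply, mul_ite,
        mul_one, mul_zero, Finset.sum_ite_eq', Finset.mem_univ, if_true] at h3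
      linarith
  have hrankB : ncyc φ ≤ Module.finrank ℚ (LinearMap.range (pair φ ι)) + 1 := by
    have h1 := LinearMap.finrank_range_add_finrank_ker (pair φ ι)
    rw [finrank_invs] at h1
    omega
  -- the annihilator
  have hdual := Subspace.finrank_add_finrank_dualCoannihilator_eq (LinearMap.range (pair φ ι))
  have hanti : 2 * Module.finrank ℚ (anti ι) = Fintype.card H :=
    finrank_antisymm ι inv ne (anti ι) (fun z => Iff.rfl)
  -- the coboundaries
  have hcob : ∀ f : invs (ι * φ), cob (ι * φ) ι f ∈
      ((LinearMap.range (pair φ ι)).dualCoannihilator).map (anti ι).subtype := by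
    rintro ⟨f, hf⟩
    have hf' : ∀ h, f (ι (φ h)) = f h := hf
    have h1 : (fun h => f h - f (ι h)) ∈ anti ι := by
      intro h
      simp only [inv]
      ring
    rw [Submodule.mem_map]
    refine ⟨⟨_, h1⟩, ?_, rfl⟩
    rw [Submodule.mem_dualCoannihilator]
    rintro _ ⟨⟨g, hg⟩, rfl⟩
    rw [pair_apply]
    simp only [mul_sub, Finset.sum_sub_distrib]
    rw [sub_eq_zero]
    calc ∑ h, g h * f h = ∑ h, g (φ h) * f (ι (φ h)) := by
          apply Finset.sum_congr rfl
          intro h _
          rw [hf' h]
          have : g (φ h) = g h := hg h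
          rw [this]
      _ = ∑ h, g h * f (ι h) := Equiv.sum_comp φ (fun h => g h * f (ι h))
  have hkerD : Module.finrank ℚ (LinearMap.ker (cob (ι * φ) ι)) ≤ 1 := by
    apply finrank_le_one_of_const (V := LinearMap.ker (cob (ι * φ) ι))
      ((invs (ι * φ)).subtype.comp (LinearMap.ker (cob (ι * φ) ι)).subtype)
    · exact (Subtype.val_injective).comp Subtype.val_injective
    · rintro ⟨⟨f, hf⟩, hfD⟩ x y
      have h1 : ∀ h, f (ι h) = f h := by
        intro h
        have h2 : cob (ι * φ) ι ⟨f, hf⟩ = 0 := hfD
        have h3 := congrFun h2 h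
        have h4 : f h - f (ι h) = 0 := h3
        linarith
      apply trans f _ h1
      intro h
      have h5 : f (ι (φ h)) = f h := hf h
      rw [h1] at h5
      exact h5
  have hrankD : ncyc (ι * φ) ≤ Module.finrank ℚ (LinearMap.range (cob (ι * φ) ι)) + 1 := by
    have h1 := LinearMap.finrank_range_add_finrank_ker (cob (ι * φ) ι)
    rw [finrank_invs] at h1
    omega
  have hle : LinearMap.range (cob (ι * φ) ι) ≤
      ((LinearMap.range (pair φ ι)).dualCoannihilator).map (anti ι).subtype := by
    rintro _ ⟨f, rfl⟩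
    exact hcob f
  have hfin : Module.finrank ℚ
      (((LinearMap.range (pair φ ι)).dualCoannihilator).map (anti ι).subtype) =
      Module.finrank ℚ ((LinearMap.range (pair φ ι)).dualCoannihilator) :=
    Submodule.finrank_map_subtype_eq _ _
  have heq := Submodule.eq_of_le_of_finrank_le hle (by rw [hfin]; omega)
  have haW : a ∈ ((LinearMap.range (pair φ ι)).dualCoannihilator).map (anti ι).subtype := by
    rw [Submodule.mem_map]
    refine ⟨⟨a, ha⟩, ?_, rfl⟩
    rw [Submodule.mem_dualCoannihilator]
    rintro _ ⟨⟨g, hg⟩, rfl⟩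
    rw [pair_apply]
    exact h0 g hg
  rw [← heq] at haW
  obtain ⟨⟨f, hf⟩, hfa⟩ := haW
  have hf' : ∀ h, f (ι (φ h)) = f h := hf
  have hfa' : ∀ h, f h - f (ι h) = a h := fun h => congrFun hfa h
  refine ⟨fun h => f (ι h), fun h => ⟨?_, ?_⟩⟩
  · show f (ι (φ h)) = f (ι h) + a h
    rw [hf' h, ← hfa' h]; ring
  · show f (ι (ι h)) = f (ι h) + a h
    rw [inv h, ← hfa' h]; ring

end Pool.Agent.H57.Stall
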