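import Mathlib
import Pool.Agent.H57.Stall.Basic
import Pool.Agent.H57.Stall.Height

set_option autoImplicit false

namespace Pool.Agent.H57.Stall

open Equiv

section coverdefs

variable {H Q E : Type}

/-- membership in the covering -/
def CovP (bq : Q → Q) (γ : H → Q) (ε : Q → E) (ρ : E → ℚ) (η : H → ℚ) (x : Q × ℚ) : Prop :=
  ∃ h, x = (γ h, η h) ∨ x = (bq (γ h), η h + ρ (ε (γ h)))

/-- the covering -/
abbrev Cov (bq : Q → Q) (γ : H → Q) (ε : Q → E) (ρ : E → ℚ) (η : H → ℚ) : Type :=
  {x : Q × ℚ // CovP bq γ ε ρ η x}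

theorem cov_finite [Finite H] (bq : Q → Q) (γ : H → Q) (ε : Q → E) (ρ : E → ℚ) (η : H → ℚ) :
    Finite (Cov bq γ ε ρ η) := by
  let f : H × Bool → Q × ℚ := fun p =>
    if p.2 then (γ p.1, η p.1) else (bq (γ p.1), η p.1 + ρ (ε (γ p.1)))
  have h1 : (Set.range f).Finite := Set.finite_range f
  refine Set.Finite.to_subtype (s := {x | CovP bq γ ε ρ η x}) (h1.subset ?_)
  rintro x ⟨h, hx | hx⟩
  · exact ⟨(h, true), by simp [f, hx]⟩
  · exact ⟨(h, false), by simp [f, hx]⟩

end coverdefs

/-- A function on pairs with vanishing moments vanishes. -/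
theorem moments_zero {X Q : Type} [Fintype X] [DecidableEq Q] (p : X → Q) (l : X → ℚ)
    (hpl : ∀ x y, p x = p y → l x = l y → x = y) (z : X → ℚ)
    (hM : ∀ (s : ℕ) (q : Q), ∑ x, (if p x = q then l x ^ s * z x else 0) = 0) :
    ∀ x, z x = 0 := by
  classical
  intro x₀
  have hpoly : ∀ P : Polynomial ℚ, ∑ x, (if p x = p x₀ then P.eval (l x) * z x else 0) = 0 := by
    intro P
    have h1 : ∀ x, (if p x = p x₀ then P.eval (l x) * z x else 0) =
        ∑ i ∈ Finset.range (P.natDegree + 1),
          P.coeff i * (if p x = p x₀ then l x ^ i * z x else 0) := by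
      intro x
      by_cases hx : p x = p x₀
      · simp only [if_pos hx]
        rw [Polynomial.eval_eq_sum_range, Finset.sum_mul]
        exact Finset.sum_congr rfl fun i _ => by ring
      · simp only [if_neg hx, mul_zero, Finset.sum_const_zero]
    rw [Finset.sum_congr rfl fun x _ => h1 x, Finset.sum_comm]
    refine Finset.sum_eq_zero fun i _ => ?_
    rw [← Finset.mul_sum, hM, mul_zero]
  let T : Finset ℚ := (Finset.univ.image l).erase (l x₀)
  let P : Polynomial ℚ := ∏ t ∈ T, (Polynomial.X - Polynomial.C t)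
  have hP := hpoly P
  have hPe : ∀ j : ℚ, P.eval j = ∏ t ∈ T, (j - t) := by
    intro j
    simp only [P, Polynomial.eval_prod, Polynomial.eval_sub, Polynomial.eval_X,
      Polynomial.eval_C]
  have hP0 : P.eval (l x₀) ≠ 0 := by
    rw [hPe]
    refine Finset.prod_ne_zero_iff.2 fun t ht => ?_
    have : t ≠ l x₀ := Finset.ne_of_mem_erase ht
    exact sub_ne_zero.2 this.symm
  rw [Finset.sum_eq_single x₀] at hP
  · rw [if_pos rfl] at hP
    rcases mul_eq_zero.1 hP with h | h
    · exact absurd h hP0
    · exact h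
  · intro x _ hx
    by_cases hpx : p x = p x₀
    · rw [if_pos hpx]
      have hl : l x ≠ l x₀ := fun h => hx (hpl x x₀ hpx h)
      have hmem : l x ∈ T := Finset.mem_erase.2 ⟨hl, Finset.mem_image_of_mem l (Finset.mem_univ x)⟩
      have : P.eval (l x) = 0 := by
        rw [hPe]
        exact Finset.prod_eq_zero hmem (sub_self _)
      rw [this, zero_mul]
    · rw [if_neg hpx]
  · intro h
    exact absurd (Finset.mem_univ x₀) h

variable {H Q E : Type} [Fintype H] [Fintype Q] {φ ι : Perm H} {bq : Q → Q} {γ : H → Q}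
  {be : E → E} {ε : Q → E}

/-- The refinement given by a covering with group `ℚ`. -/
theorem cover (hA : Adm φ bq γ be ε) (hP : Pairing φ ι be fun h => ε (γ h)) (ρ : E → ℚ)
    (hρ : ∀ e, ρ (be e) = - ρ e)
    (h0 : ∀ f : H → ℚ, (∀ h, f (φ h) = f h) → ∑ h, f h * ρ (ε (γ h)) = 0) :
    ∃ η : H → ℚ, (∀ h, η (φ h) = η h + ρ (ε (γ h)) ∧ η (ι h) = η h + ρ (ε (γ h))) ∧
    ∃ (Q' E' : Type) (_ : Fintype Q') (bq' : Q' → Q') (γ' : H → Q') (be' : E' → E')
      (ε' : Q' → E') (π : Q' → Q) (τ : E' → E) (lev : Q' → ℚ),
      Adm φ bq' γ' be' ε' ∧ Pairing φ ι be' (fun h => ε' (γ' h)) ∧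
      Refn bq γ be ε bq' γ' be' ε' π τ ∧ (∀ h, lev (γ' h) = η h) ∧
      ∀ q, lev (bq' q) = lev q + ρ (ε (π q)) := by
  classical
  obtain ⟨η, hη⟩ := exists_height (φ := φ) (ι := ι) hP.inv hP.ne hP.count (hA.trans hP)
    (fun h => ρ (ε (γ h))) (fun h => by
      have h1 : ε (γ (ι h)) = be (ε (γ h)) := hP.lab h
      show ρ (ε (γ (ι h))) = - ρ (ε (γ h))
      rw [h1, hρ]) h0
  refine ⟨η, hη, ?_⟩
  have hρq : ∀ q, ρ (ε (bq q)) = - ρ (ε q) := fun q => by rw [hA.eps_bq, hρ]
  have : Finite (Cov bq γ ε ρ η) := cov_finite bq γ ε ρ η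
  let inst : Fintype (Cov bq γ ε ρ η) := Fintype.ofFinite _
  have hbq' : ∀ x : Q × ℚ, CovP bq γ ε ρ η x → CovP bq γ ε ρ η (bq x.1, x.2 + ρ (ε x.1)) := by
    rintro x ⟨h, hx | hx⟩
    · exact ⟨h, Or.inr (by rw [hx])⟩
    · refine ⟨h, Or.inl ?_⟩
      rw [hx]
      simp only
      rw [hA.bq_bq, hρq]
      ring_nf
  let bq' : Cov bq γ ε ρ η → Cov bq γ ε ρ η := fun x =>
    ⟨(bq x.1.1, x.1.2 + ρ (ε x.1.1)), hbq' x.1 x.2⟩
  let γ' : H → Cov bq γ ε ρ η := fun h => ⟨(γ h, η h), h, Or.inl rfl⟩
  let be' : E × ℚ → E × ℚ := fun e => (be e.1, e.2 + ρ e.1)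
  let ε' : Cov bq γ ε ρ η → E × ℚ := fun x => (ε x.1.1, x.1.2)
  let π : Cov bq γ ε ρ η → Q := fun x => x.1.1
  let lev : Cov bq γ ε ρ η → ℚ := fun x => x.1.2
  have hbqbq : ∀ x, bq' (bq' x) = x := by
    intro x
    apply Subtype.ext
    apply Prod.ext
    · exact hA.bq_bq x.1.1
    · show x.1.2 + ρ (ε x.1.1) + ρ (ε (bq x.1.1)) = x.1.2
      rw [hρq]
      ring
  have hπ : ∀ {A : Type} (f : Q → A), TInv φ bq γ f → TInv φ bq' γ' fun x => f (π x) := by
    intro A f hf h
    exact hf h
  have hlev : TInv φ bq' γ' lev := by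
    intro h
    show η h + ρ (ε (γ h)) = η (φ h)
    exact (hη h).1.symm
  have hVrel : ∀ a b, Vrel φ bq' γ' a b → Vrel φ bq γ (π a) (π b) := by
    intro a b hab f hf
    exact hab (fun x => f (π x)) (hπ f hf)
  have hsnd : ∀ a b : Cov bq γ ε ρ η, ε' a = ε' b → lev a = lev b := by
    intro a b h
    have h1 : (ε' a).2 = (ε' b).2 := congrArg Prod.snd h
    exact h1
  have hext : ∀ a b : Cov bq γ ε ρ η, π a = π b → lev a = lev b → a = b := by
    intro a b h1 h2
    exact Subtype.ext (Prod.ext h1 h2)
  refine ⟨Cov bq γ ε ρ η, E × ℚ, inst, bq', γ', be', ε', π, Prod.fst, lev, ?_, ?_,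
    ⟨fun _ => rfl, fun _ => rfl, fun _ => rfl, fun _ => rfl⟩, fun _ => rfl, fun _ => rfl⟩
  · refine ⟨hbqbq, ?_, ?_, ?_, ?_, ?_, ?_, ?_, ?_, ?_⟩
    · -- be_be
      intro e
      apply Prod.ext
      · exact hA.be_be e.1
      · show e.2 + ρ e.1 + ρ (be e.1) = e.2
        rw [hρ]
        ring
    · -- be_ne
      intro e he
      exact hA.be_ne e.1 (congrArg Prod.fst he)
    · -- eps_bq
      intro x
      apply Prod.ext
      · exact hA.eps_bq x.1.1
      · rfl
    · -- trav
      intro x
      obtain ⟨h, hx | hx⟩ := x.2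
      · exact ⟨h, Or.inl (Subtype.ext hx.symm)⟩
      · refine ⟨h, Or.inr (hext _ _ ?_ ?_)⟩
        · show γ h = bq x.1.1
          rw [hx]
          exact (hA.bq_bq _).symm
        · show η h = x.1.2 + ρ (ε x.1.1)
          rw [hx]
          simp only
          rw [hρq]
          ring
    · -- red
      intro h hh
      exact hA.red h (congrArg π hh)
    · -- imm
      intro a b hab he
      exact hext a b (hA.imm _ _ (hVrel a b hab) (congrArg Prod.fst he)) (hsnd a b he)
    · -- inj
      intro z hz hcyc hE
      apply moments_zero π lev hext z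
      intro s
      induction s using Nat.strong_induction_on with
      | _ s ih =>
        refine hA.inj (fun q => ∑ x, (if π x = q then lev x ^ s * z x else 0)) ?_ ?_ ?_
        · intro q
          have hre : ∑ x, (if π x = bq q then lev x ^ s * z x else 0) =
              ∑ x, (if π (bq' x) = bq q then lev (bq' x) ^ s * z (bq' x) else 0) := by
            let e : Cov bq γ ε ρ η ≃ Cov bq γ ε ρ η := ⟨bq', bq', hbqbq, hbqbq⟩
            exact (Equiv.sum_comp e fun x => if π x = bq q then lev x ^ s * z x else 0).symm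
          show ∑ x, (if π x = bq q then lev x ^ s * z x else 0) =
            - ∑ x, (if π x = q then lev x ^ s * z x else 0)
          rw [hre]
          have hterm : ∀ x, (if π (bq' x) = bq q then lev (bq' x) ^ s * z (bq' x) else 0) =
              - ∑ i ∈ Finset.range (s + 1), ((s.choose i : ℚ) * ρ (ε q) ^ (s - i)) *
                (if π x = q then lev x ^ i * z x else 0) := by
            intro x
            by_cases hx : π x = q
            · have h1 : π (bq' x) = bq q := by
                show bq (π x) = bq q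
                rw [hx]
              have h2 : lev (bq' x) = lev x + ρ (ε q) := by
                show lev x + ρ (ε (π x)) = lev x + ρ (ε q)
                rw [hx]
              rw [if_pos h1, h2, hz x, add_pow]
              simp only [if_pos hx]
              rw [Finset.sum_mul, ← Finset.sum_neg_distrib]
              exact Finset.sum_congr rfl fun i _ => by ring
            · have h1 : ¬ π (bq' x) = bq q := by
                intro h
                apply hx
                have h2 : bq (bq (π x)) = bq (bq q) := congrArg bq h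
                rwa [hA.bq_bq, hA.bq_bq] at h2
              rw [if_neg h1]
              simp only [if_neg hx, mul_zero, Finset.sum_const_zero, neg_zero]
          rw [Finset.sum_congr rfl fun x _ => hterm x, Finset.sum_neg_distrib, Finset.sum_comm]
          congr 1
          rw [Finset.sum_range_succ]
          have hlow : ∑ i ∈ Finset.range s, ∑ x, ((s.choose i : ℚ) * ρ (ε q) ^ (s - i)) *
              (if π x = q then lev x ^ i * z x else 0) = 0 := by
            refine Finset.sum_eq_zero fun i hi => ?_
            rw [← Finset.mul_sum, ih i (Finset.mem_range.1 hi) q, mul_zero]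
          rw [hlow, zero_add]
          refine Finset.sum_congr rfl fun x _ => ?_
          rw [Nat.choose_self, Nat.sub_self, pow_zero]
          push_cast
          ring
        · intro f hf
          have h1 : ∑ q, f q * ∑ x, (if π x = q then lev x ^ s * z x else 0) =
              ∑ x, (f (π x) * lev x ^ s) * z x := by
            simp only [Finset.mul_sum]
            rw [Finset.sum_comm]
            refine Finset.sum_congr rfl fun x _ => ?_
            rw [Finset.sum_eq_single (π x)]
            · rw [if_pos rfl]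
              ring
            · intro q _ hq
              rw [if_neg (Ne.symm hq), mul_zero]
            · intro h
              exact absurd (Finset.mem_univ _) h
          rw [h1]
          refine hcyc (fun x => f (π x) * lev x ^ s) ?_
          intro h
          show f (π (bq' (γ' h))) * lev (bq' (γ' h)) ^ s = f (π (γ' (φ h))) * lev (γ' (φ h)) ^ s
          rw [hlev h]
          congr 1
          exact hf h
        · intro g
          have h1 : ∑ q, g (ε q) * ∑ x, (if π x = q then lev x ^ s * z x else 0) =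
              ∑ x, (g (ε' x).1 * (ε' x).2 ^ s) * z x := by
            simp only [Finset.mul_sum]
            rw [Finset.sum_comm]
            refine Finset.sum_congr rfl fun x _ => ?_
            rw [Finset.sum_eq_single (π x)]
            · rw [if_pos rfl]
              show g (ε (π x)) * (lev x ^ s * z x) = (g (ε (π x)) * lev x ^ s) * z x
              ring
            · intro q _ hq
              rw [if_neg (Ne.symm hq), mul_zero]
            · intro h
              exact absurd (Finset.mem_univ _) h
          rw [h1]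
          exact hE fun e => g e.1 * e.2 ^ s
    · -- ind
      intro a ha hg
      refine hA.ind a ha fun g hg' => ?_
      exact hg (fun x => g (π x)) fun x => hg' (π x)
    · -- wf
      refine Subrelation.wf ?_ (InvImage.wf (fun x : Cov bq γ ε ρ η × Cov bq γ ε ρ η =>
        (π x.1, π x.2)) hA.wf)
      intro y x hxy
      obtain ⟨h1, h2, h3, h4, h5, h6, h7⟩ := hxy
      have l1 : lev x.1 = lev x.2 := hsnd _ _ h1
      have l2 : lev y.1 = lev y.2 := hsnd _ _ h3
      refine ⟨congrArg Prod.fst h1, fun h => h2 (hext _ _ h l1), congrArg Prod.fst h3,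
        fun h => h4 (hext _ _ h l2), hVrel _ _ h5, hVrel _ _ h6, fun h => h7 (hext _ _ h ?_)⟩
      exact (h5.eq_of_tinv hlev).symm
  · refine ⟨hP.inv, hP.ne, ?_, hP.count⟩
    intro h
    apply Prod.ext
    · exact hP.lab h
    · exact (hη h).2

end Pool.Agent.H57.Stall
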