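import Mathlib
import Pool.Agent.H57.Stall.Basic

set_option autoImplicit false

namespace Pool.Agent.H57.Stall

open Equiv

variable {H Q E : Type} [Fintype H] [Fintype Q] {φ ι : Perm H} {bq : Q → Q} {γ : H → Q}
  {be : E → E} {ε : Q → E}

/-- The refinement obtained by doubling an edge whose fibre graph has a cut vertex. -/
theorem double (hA : Adm φ bq γ be ε) (hP : Pairing φ ι be fun h => ε (γ h))
    (hT : ∀ a b, ε a = ε b → Trel ι bq γ a b) (e : E) (A : Set H)
    (h1 : ∃ h, h ∈ A ∧ ε (γ h) = e) (h2 : ∃ h, h ∉ A ∧ ε (γ h) = e)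
    (h3 : ∀ q q', Inc ι bq γ ε e A q → Inc ι bq γ ε e Aᶜ q → Inc ι bq γ ε e A q' →
      Inc ι bq γ ε e Aᶜ q' → q = q') :
    ∃ (Q' E' : Type) (_ : Fintype Q') (bq' : Q' → Q') (γ' : H → Q') (be' : E' → E')
      (ε' : Q' → E') (π : Q' → Q) (τ : E' → E),
      Adm φ bq' γ' be' ε' ∧ Pairing φ ι be' (fun h => ε' (γ' h)) ∧
      Refn bq γ be ε bq' γ' be' ε' π τ ∧ Fintype.card Q < Fintype.card Q' := by
  classical
  -- the colour of a dart
  obtain ⟨κ, hκdef⟩ : ∃ κ : H → Bool, ∀ h, κ h = true ↔
      ((ε (γ h) = e ∧ h ∈ A) ∨ (ε (γ h) = be e ∧ ι h ∈ A)) :=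
    ⟨fun h => decide ((ε (γ h) = e ∧ h ∈ A) ∨ (ε (γ h) = be e ∧ ι h ∈ A)), fun h => by simp⟩
  have hlab : ∀ h, ε (γ (ι h)) = be (ε (γ h)) := hP.lab
  have hbeinj : ∀ a b : E, be a = be b → a = b := fun a b h => by
    rw [← hA.be_be a, h, hA.be_be]
  have hbqinj : ∀ a b : Q, bq a = bq b → a = b := fun a b h => by
    rw [← hA.bq_bq a, h, hA.bq_bq]
  have hκι : ∀ h, κ (ι h) = κ h := by
    intro h
    have : κ (ι h) = true ↔ κ h = true := by
      rw [hκdef, hκdef, hlab, hP.inv]
      constructor
      · rintro (⟨ha, hb⟩ | ⟨ha, hb⟩)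
        · right
          exact ⟨by rw [← ha, hA.be_be], hb⟩
        · left
          exact ⟨hbeinj _ _ ha, hb⟩
      · rintro (⟨ha, hb⟩ | ⟨ha, hb⟩)
        · right
          exact ⟨by rw [ha], hb⟩
        · left
          exact ⟨by rw [ha, hA.be_be], hb⟩
    cases h1 : κ (ι h) <;> cases h2 : κ h <;> simp_all
  -- the lifted edges
  let P : Q × Bool → Prop := fun x => ∃ h, x = (γ h, κ h) ∨ x = (bq (γ h), κ h)
  have hPbq : ∀ q b, P (q, b) → P (bq q, b) := by
    rintro q b ⟨h, hx | hx⟩
    · refine ⟨h, Or.inr ?_⟩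
      rw [Prod.mk.injEq] at hx ⊢
      exact ⟨by rw [hx.1], hx.2⟩
    · refine ⟨h, Or.inl ?_⟩
      rw [Prod.mk.injEq] at hx ⊢
      exact ⟨by rw [hx.1, hA.bq_bq], hx.2⟩
  have hPγ : ∀ h, P (γ h, κ h) := fun h => ⟨h, Or.inl rfl⟩
  have hPιγ : ∀ h, P (bq (γ (ι h)), κ h) := fun h => ⟨ι h, Or.inr (by rw [hκι])⟩
  -- colours over `e`
  have hinc : ∀ q b, ε q = e → P (q, b) → Inc ι bq γ ε e (if b = true then A else Aᶜ) q := by
    rintro q b hq ⟨h, hx | hx⟩
    · rw [Prod.mk.injEq] at hx
      obtain ⟨hx1, hx2⟩ := hx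
      refine ⟨h, ?_, by rw [← hx1, hq], Or.inl hx1.symm⟩
      have h4 : ε (γ h) = e := by rw [← hx1, hq]
      cases hb : κ h
      · rw [hx2, hb]
        simp only [Bool.false_eq_true, if_false, Set.mem_compl_iff]
        intro hmem
        have := (hκdef h).mpr (Or.inl ⟨h4, hmem⟩)
        rw [hb] at this
        exact Bool.false_ne_true this
      · rw [hx2, hb]
        simp only [if_true]
        rcases (hκdef h).mp hb with ⟨_, hm⟩ | ⟨hm, _⟩
        · exact hm
        · exact absurd (hm.symm.trans h4) (hA.be_ne e)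
    · rw [Prod.mk.injEq] at hx
      obtain ⟨hx1, hx2⟩ := hx
      have h4 : ε (γ h) = be e := by
        rw [← hq, hx1, hA.eps_bq, hA.be_be]
      refine ⟨ι h, ?_, by rw [hlab, h4, hA.be_be], Or.inr (by rw [hP.inv]; exact hx1.symm)⟩
      cases hb : κ h
      · rw [hx2, hb]
        simp only [Bool.false_eq_true, if_false, Set.mem_compl_iff]
        intro hmem
        have := (hκdef h).mpr (Or.inr ⟨h4, hmem⟩)
        rw [hb] at this
        exact Bool.false_ne_true this
      · rw [hx2, hb]
        simp only [if_true]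
        rcases (hκdef h).mp hb with ⟨hm, _⟩ | ⟨_, hm⟩
        · exact absurd (h4.symm.trans hm) (hA.be_ne e)
        · exact hm
  -- at most one edge has two lifts
  have hDe : ∀ q, P (q, true) → ε q = e ∨ ε q = be e := by
    rintro q ⟨h, hx | hx⟩
    · rw [Prod.mk.injEq] at hx
      obtain ⟨hx1, hx2⟩ := hx
      rcases (hκdef h).mp hx2.symm with ⟨hm, _⟩ | ⟨hm, _⟩
      · left; rw [hx1, hm]
      · right; rw [hx1, hm]
    · rw [Prod.mk.injEq] at hx
      obtain ⟨hx1, hx2⟩ := hx
      rcases (hκdef h).mp hx2.symm with ⟨hm, _⟩ | ⟨hm, _⟩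
      · right; rw [hx1, hA.eps_bq, hm]
      · left; rw [hx1, hA.eps_bq, hm, hA.be_be]
  have hDuniq : ∀ q q', P (q, true) → P (q, false) → P (q', true) → P (q', false) →
      ε q = ε q' → q = q' := by
    intro q q' ha hb hc hd hee
    rcases hDe q ha with hq | hq
    · have hq' : ε q' = e := by rw [← hee, hq]
      refine h3 q q' ?_ ?_ ?_ ?_
      · simpa using hinc q true hq ha
      · simpa using hinc q false hq hb
      · simpa using hinc q' true hq' hc
      · simpa using hinc q' false hq' hd
    · have hq1 : ε (bq q) = e := by rw [hA.eps_bq, hq, hA.be_be]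
      have hq' : ε (bq q') = e := by rw [hA.eps_bq, ← hee, hq, hA.be_be]
      apply hbqinj
      refine h3 (bq q) (bq q') ?_ ?_ ?_ ?_
      · simpa using hinc _ true hq1 (hPbq _ _ ha)
      · simpa using hinc _ false hq1 (hPbq _ _ hb)
      · simpa using hinc _ true hq' (hPbq _ _ hc)
      · simpa using hinc _ false hq' (hPbq _ _ hd)
  have hDuniq' : ∀ (x y u v : Q × Bool), P x → P y → P u → P v → x.1 = y.1 → x.2 ≠ y.2 →
      u.1 = v.1 → u.2 ≠ v.2 → ε x.1 = ε u.1 → x.1 = u.1 := by
    rintro ⟨x, b⟩ ⟨y, c⟩ ⟨u, b'⟩ ⟨v, c'⟩ hx hy hu hv hxy hbc huv hbc' hee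
    simp only at hxy hbc huv hbc' hee ⊢
    subst hxy huv
    apply hDuniq x u _ _ _ _ hee
    · cases b
      · cases c
        · exact absurd rfl hbc
        · exact hy
      · exact hx
    · cases b
      · exact hx
      · cases c
        · exact hy
        · exact absurd rfl hbc
    · cases b'
      · cases c'
        · exact absurd rfl hbc'
        · exact hv
      · exact hu
    · cases b'
      · exact hu
      · cases c'
        · exact hv
        · exact absurd rfl hbc'
  let Q' := {x : Q × Bool // P x}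
  let bq' : Q' → Q' := fun x => ⟨(bq x.1.1, x.1.2), hPbq _ _ x.2⟩
  let γ' : H → Q' := fun h => ⟨(γ h, κ h), hPγ h⟩
  let be' : E × Bool → E × Bool := fun x => (be x.1, x.2)
  let ε' : Q' → E × Bool := fun x => (ε x.1.1, x.1.2)
  have hTI : ∀ {B : Type} (f : Q → B), TInv φ bq γ f → TInv φ bq' γ' fun x => f x.1.1 := by
    intro B f hf h
    exact hf h
  have hVr : ∀ a b : Q', Vrel φ bq' γ' a b → Vrel φ bq γ a.1.1 b.1.1 := by
    intro a b hab f hf
    exact hab (fun x => f x.1.1) (hTI f hf)
  have hbq'inv : ∀ x, bq' (bq' x) = x := by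
    intro x
    apply Subtype.ext
    show (bq (bq x.1.1), x.1.2) = x.1
    rw [hA.bq_bq]
  have hAdm : Adm φ bq' γ' be' ε' := by
    refine ⟨hbq'inv, ?_, ?_, ?_, ?_, ?_, ?_, ?_, ?_, ?_⟩
    · rintro ⟨a, b⟩
      show (be (be a), b) = (a, b)
      rw [hA.be_be]
    · rintro ⟨a, b⟩ h
      exact hA.be_ne a (congrArg Prod.fst h)
    · intro x
      show (ε (bq x.1.1), x.1.2) = (be (ε x.1.1), x.1.2)
      rw [hA.eps_bq]
    · rintro ⟨x, h, hx | hx⟩
      · exact ⟨h, Or.inl (Subtype.ext hx.symm)⟩
      · refine ⟨h, Or.inr ?_⟩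
        apply Subtype.ext
        show (γ h, κ h) = (bq x.1, x.2)
        rw [hx]
        show (γ h, κ h) = (bq (bq (γ h)), κ h)
        rw [hA.bq_bq]
    · intro h hh
      exact hA.red h (congrArg (fun x : Q' => x.1.1) hh)
    · intro a b hab hee
      have h4 : ε a.1.1 = ε b.1.1 := congrArg Prod.fst hee
      have h5 : a.1.2 = b.1.2 := congrArg (fun p : E × Bool => p.2) hee
      apply Subtype.ext
      exact Prod.ext (hA.imm _ _ (hVr a b hab) h4) h5
    · intro z hz1 hz2 hz3
      -- the pushed-down chain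
      have hswap : ∀ f : Q → ℚ, ∑ q, f q * (∑ x : Q', if x.1.1 = q then z x else 0) =
          ∑ x : Q', f x.1.1 * z x := by
        intro f
        simp_rw [Finset.mul_sum]
        rw [Finset.sum_comm]
        refine Finset.sum_congr rfl fun x _ => ?_
        rw [Finset.sum_eq_single x.1.1]
        · simp
        · intro q _ hq
          rw [if_neg (Ne.symm hq), mul_zero]
        · intro h
          exact absurd (Finset.mem_univ _) h
      have hz0 := hA.inj (fun q => ∑ x : Q', if x.1.1 = q then z x else 0) ?_ ?_ ?_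
      · -- `z` vanishes on the edges with one lift
        have hone : ∀ x : Q', (∀ y : Q', y.1.1 = x.1.1 → y = x) → z x = 0 := by
          intro x hx
          have h5 := hz0 x.1.1
          rw [Finset.sum_eq_single x] at h5
          · simpa using h5
          · intro y _ hy
            exact if_neg fun h => hy (hx y h)
          · intro h
            exact absurd (Finset.mem_univ _) h
        have htwo : ∀ x : Q', z x ≠ 0 → ∃ y : Q', x.1.1 = y.1.1 ∧ x.1.2 ≠ y.1.2 := by
          intro x hx
          by_contra hcon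
          push Not at hcon
          apply hx
          apply hone
          intro y hy
          apply Subtype.ext
          exact Prod.ext hy (hcon y hy.symm).symm
        intro x
        by_contra hx
        obtain ⟨y, hy1, hy2⟩ := htwo x hx
        have h5 := hz3 fun g => if g = ε' x then 1 else 0
        rw [Finset.sum_eq_single x] at h5
        · simp at h5
          exact hx h5
        · intro u _ hux
          by_cases hzu : z u = 0
          · rw [hzu, mul_zero]
          · rw [if_neg, zero_mul]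
            intro h6
            obtain ⟨v, hv1, hv2⟩ := htwo u hzu
            have h7 : ε u.1.1 = ε x.1.1 := congrArg Prod.fst h6
            have h8 : u.1.2 = x.1.2 := congrArg (fun p : E × Bool => p.2) h6
            have h9 := hDuniq' u.1 v.1 x.1 y.1 u.2 v.2 x.2 y.2 hv1 hv2 hy1 hy2 h7
            exact hux (Subtype.ext (Prod.ext h9 h8))
        · intro h
          exact absurd (Finset.mem_univ _) h
      · intro q
        rw [← Finset.sum_neg_distrib]
        refine Finset.sum_nbij' bq' bq' (fun _ _ => Finset.mem_univ _)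
          (fun _ _ => Finset.mem_univ _) (fun x _ => hbq'inv x) (fun x _ => hbq'inv x) ?_
        intro x _
        rw [hz1]
        by_cases hx : x.1.1 = bq q
        · rw [if_pos hx, if_pos]
          · ring
          · show bq x.1.1 = q
            rw [hx, hA.bq_bq]
        · rw [if_neg hx, if_neg]
          · ring
          · show bq x.1.1 ≠ q
            intro h
            apply hx
            rw [← h, hA.bq_bq]
      · intro f hf
        rw [hswap]
        exact hz2 _ (hTI f hf)
      · intro g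
        rw [hswap fun q => g (ε q)]
        exact hz3 fun x => g x.1
    · intro a ha hg
      refine hA.ind a ha fun g hgq => ?_
      exact hg (fun x => g x.1.1) fun x => hgq x.1.1
    · -- malnormality
      have hstep : ∀ x y : Q' × Q', Step φ bq' γ' ε' x y →
          Step φ bq γ ε (x.1.1.1, x.2.1.1) (y.1.1.1, y.2.1.1) := by
        rintro ⟨x, x'⟩ ⟨y, y'⟩ ⟨s1, s2, s3, s4, s5, s6, s7⟩
        simp only at s1 s2 s3 s4 s5 s6 s7
        have t1 : ε x.1.1 = ε x'.1.1 := congrArg Prod.fst s1
        have t1' : x.1.2 = x'.1.2 := congrArg (fun p : E × Bool => p.2) s1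
        have t3 : ε y.1.1 = ε y'.1.1 := congrArg Prod.fst s3
        have t3' : y.1.2 = y'.1.2 := congrArg (fun p : E × Bool => p.2) s3
        have t2 : x.1.1 ≠ x'.1.1 := fun h => s2 (Subtype.ext (Prod.ext h t1'))
        have t4 : y.1.1 ≠ y'.1.1 := fun h => s4 (Subtype.ext (Prod.ext h t3'))
        have t5 : Vrel φ bq γ (bq x.1.1) y.1.1 := hVr _ _ s5
        have t6 : Vrel φ bq γ (bq x'.1.1) y'.1.1 := hVr _ _ s6
        refine ⟨t1, t2, t3, t4, t5, t6, ?_⟩
        intro h
        simp only at h
        have h7 : y.1.2 ≠ x.1.2 := by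
          intro h8
          exact s7 (Subtype.ext (Prod.ext h h8))
        have h9 : y'.1.1 = bq x'.1.1 := by
          refine (hA.imm _ _ t6 ?_).symm
          rw [hA.eps_bq, ← t1, ← t3, h, hA.eps_bq]
        apply t4
        refine hDuniq' y.1 (bq' x).1 y'.1 (bq' x').1 y.2 (bq' x).2 y'.2 (bq' x').2 h h7 h9 ?_ t3
        show y'.1.2 ≠ x'.1.2
        rw [← t3', ← t1']
        exact h7
      refine Subrelation.wf (r := InvImage (fun y x => Step φ bq γ ε x y)
        (fun x : Q' × Q' => (x.1.1.1, x.2.1.1))) ?_ (InvImage.wf _ hA.wf)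
      intro y x hxy
      exact hstep x y hxy
  refine ⟨Q', E × Bool, inferInstance, bq', γ', be', ε', fun x => x.1.1, Prod.fst, hAdm,
    ⟨hP.inv, hP.ne, ?_, hP.count⟩, ⟨fun _ => rfl, fun _ => rfl, fun _ => rfl, fun _ => rfl⟩, ?_⟩
  · intro h
    show (ε (γ (ι h)), κ (ι h)) = (be (ε (γ h)), κ h)
    rw [hlab, hκι]
  · -- cardinality
    have hsurj : Function.Surjective (fun x : Q' => x.1.1) := by
      intro q
      obtain ⟨h, hq | hq⟩ := hA.trav q
      · exact ⟨⟨(γ h, κ h), hPγ h⟩, hq⟩
      · refine ⟨⟨(bq (γ h), κ h), ⟨h, Or.inr rfl⟩⟩, ?_⟩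
        show bq (γ h) = q
        rw [hq, hA.bq_bq]
    have hni : ¬ Function.Injective (fun x : Q' => x.1.1) := by
      intro hinj
      have hun : ∀ q b c, P (q, b) → P (q, c) → b = c := by
        intro q b c hb hc
        have := @hinj ⟨(q, b), hb⟩ ⟨(q, c), hc⟩ rfl
        exact congrArg (fun x : Q' => x.1.2) this
      have hinvt : ∀ h, P (γ h, true) = P (bq (γ (ι h)), true) := by
        intro h
        apply propext
        constructor
        · intro h4
          have h5 := hun _ _ _ h4 (hPγ h)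
          have := hPιγ h
          rw [← h5] at this
          exact this
        · intro h4
          have h5 := hun _ _ _ h4 (hPιγ h)
          have := hPγ h
          rw [← h5] at this
          exact this
      obtain ⟨h, hh, hhe⟩ := h1
      obtain ⟨h', hh', hhe'⟩ := h2
      have h6 := hT (γ h) (γ h') (by rw [hhe, hhe']) (fun q => P (q, true)) hinvt
      have h7 : κ h = true := (hκdef h).mpr (Or.inl ⟨hhe, hh⟩)
      have h8 : P (γ h, true) := by
        have := hPγ h
        rw [h7] at this
        exact this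
      have h9 : P (γ h', true) := h6.mp h8
      have h10 : κ h' = true := (hun _ _ _ h9 (hPγ h')).symm
      rcases (hκdef h').mp h10 with ⟨_, hm⟩ | ⟨hm, _⟩
      · exact hh' hm
      · exact hA.be_ne e (hm.symm.trans hhe')
    exact Fintype.card_lt_of_surjective_not_injective _ hsurj hni

end Pool.Agent.H57.Stall
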