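import Mathlib
import Pool.Agent.H57.Stall.Cover
import Pool.Agent.H57.Stall.Double

set_option autoImplicit false

namespace Pool.Agent.H57.Stall

open Equiv

variable {H Q E : Type} [Fintype H] [Fintype Q] {φ ι : Perm H} {bq : Q → Q} {γ : H → Q}
  {be : E → E} {ε : Q → E}

omit [Fintype H] [Fintype Q] in
theorem Trel.eq_of {A : Type} {a b : Q} (h : Trel ι bq γ a b) (f : Q → A)
    (hf : ∀ h, f (γ h) = f (bq (γ (ι h)))) : f a = f b := by
  have h1 : (f a = f a) = (f b = f a) := h (fun q => f q = f a) fun h' => by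
    show (f (γ h') = f a) = (f (bq (γ (ι h'))) = f a)
    rw [hf h']
  exact (h1.mp rfl).symm

/-- `Trel` as a setoid -/
def Tset (ι : Perm H) (bq : Q → Q) (γ : H → Q) : Setoid Q where
  r := Trel ι bq γ
  iseqv := ⟨fun _ _ _ => rfl, fun h f hf => (h f hf).symm, fun h h' f hf =>
    (h f hf).trans (h' f hf)⟩

theorem Trel.eps_eq (hA : Adm φ bq γ be ε) (hP : Pairing φ ι be fun h => ε (γ h)) {a b : Q}
    (h : Trel ι bq γ a b) : ε a = ε b := by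
  refine h.eq_of ε fun h' => ?_
  have h1 : ε (γ (ι h')) = be (ε (γ h')) := hP.lab h'
  rw [hA.eps_bq, h1, hA.be_be]

theorem Trel.map_bq (hA : Adm φ bq γ be ε) (hP : Pairing φ ι be fun h => ε (γ h)) {a b : Q}
    (h : Trel ι bq γ a b) : Trel ι bq γ (bq a) (bq b) := by
  intro f hf
  refine h (fun q => f (bq q)) fun h' => ?_
  show f (bq (γ h')) = f (bq (bq (γ (ι h'))))
  rw [hA.bq_bq, hf (ι h'), hP.inv]

/-- Passing to the quotient by `Trel`. -/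
theorem exists_comp (hA : Adm φ bq γ be ε) (hP : Pairing φ ι be fun h => ε (γ h)) :
    ∃ (E' : Type) (be' : E' → E') (ε' : Q → E') (τ : E' → E),
      Adm φ bq γ be' ε' ∧ Pairing φ ι be' (fun h => ε' (γ h)) ∧
      Refn bq γ be ε bq γ be' ε' id τ ∧ (∀ a b, ε' a = ε' b → Trel ι bq γ a b) ∧
      ∀ e, ∃ h, ε' (γ h) = e := by
  let S := Tset ι bq γ
  let ε' : Q → Quotient S := fun q => Quotient.mk S q
  let be' : Quotient S → Quotient S := fun x =>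
    Quotient.liftOn x (fun q => ε' (bq q)) fun a b hab =>
      Quotient.sound (Trel.map_bq hA hP hab)
  let τ : Quotient S → E := fun x =>
    Quotient.liftOn x (fun q => ε q) fun a b hab => Trel.eps_eq hA hP hab
  have hex : ∀ a b, ε' a = ε' b → Trel ι bq γ a b := fun a b h => Quotient.exact h
  have hee : ∀ a b, ε' a = ε' b → ε a = ε b := fun a b h => Trel.eps_eq hA hP (hex a b h)
  have hind : ∀ x : Quotient S, ∃ q, ε' q = x := fun x => Quotient.exists_rep x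
  refine ⟨Quotient S, be', ε', τ, ?_, ?_, ⟨fun _ => rfl, fun _ => rfl, ?_, fun _ => rfl⟩, hex, ?_⟩
  · refine ⟨hA.bq_bq, ?_, ?_, fun _ => rfl, hA.trav, hA.red, ?_, ?_, hA.ind, ?_⟩
    · intro x
      obtain ⟨q, rfl⟩ := hind x
      show ε' (bq (bq q)) = ε' q
      rw [hA.bq_bq]
    · intro x
      obtain ⟨q, rfl⟩ := hind x
      intro h
      have h1 : ε (bq q) = ε q := hee _ _ h
      rw [hA.eps_bq] at h1
      exact hA.be_ne _ h1
    · intro a b hab he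
      exact hA.imm a b hab (hee a b he)
    · intro z hz hcyc hE
      exact hA.inj z hz hcyc fun g => hE fun x => g (τ x)
    · refine Subrelation.wf ?_ hA.wf
      intro y x hxy
      obtain ⟨h1, h2, h3, h4, h5, h6, h7⟩ := hxy
      exact ⟨hee _ _ h1, h2, hee _ _ h3, h4, h5, h6, h7⟩
  · refine ⟨hP.inv, hP.ne, ?_, hP.count⟩
    intro h
    show ε' (γ (ι h)) = ε' (bq (γ h))
    apply Quotient.sound
    intro f hf
    rw [hf (ι h), hP.inv]
  · intro x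
    obtain ⟨q, rfl⟩ := hind x
    exact hA.eps_bq q
  · intro x
    obtain ⟨q, rfl⟩ := hind x
    obtain ⟨h, hh⟩ := hA.surj hP q
    exact ⟨h, by rw [hh]⟩

omit [Fintype H] [Fintype Q] in
theorem Refn.comp {Q₁ E₁ Q₂ E₂ : Type} {bq₁ : Q₁ → Q₁} {γ₁ : H → Q₁} {be₁ : E₁ → E₁}
    {ε₁ : Q₁ → E₁} {π₁ : Q₁ → Q} {τ₁ : E₁ → E} {bq₂ : Q₂ → Q₂} {γ₂ : H → Q₂} {be₂ : E₂ → E₂}
    {ε₂ : Q₂ → E₂} {π₂ : Q₂ → Q₁} {τ₂ : E₂ → E₁}
    (h : Refn bq γ be ε bq₁ γ₁ be₁ ε₁ π₁ τ₁) (h' : Refn bq₁ γ₁ be₁ ε₁ bq₂ γ₂ be₂ ε₂ π₂ τ₂) :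
    Refn bq γ be ε bq₂ γ₂ be₂ ε₂ (fun q => π₁ (π₂ q)) (fun e => τ₁ (τ₂ e)) := by
  refine ⟨?_, ?_, ?_, ?_⟩
  · intro q
    rw [h'.pi_bq, h.pi_bq]
  · intro a
    rw [h'.pi_gam, h.pi_gam]
  · intro e
    rw [h'.tau_be, h.tau_be]
  · intro q
    rw [h'.tau_eps, h.tau_eps]

theorem Adm.card_le (hA : Adm φ bq γ be ε) : Fintype.card Q ≤ 2 * Fintype.card H := by
  classical
  let f : H × Bool → Q := fun p => if p.2 then γ p.1 else bq (γ p.1)
  have hf : Function.Surjective f := by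
    intro q
    obtain ⟨h, hh | hh⟩ := hA.trav q
    · exact ⟨(h, true), by simp [f, hh]⟩
    · refine ⟨(h, false), ?_⟩
      simp only [f, Bool.false_eq_true, if_false]
      rw [hh, hA.bq_bq]
  have := Fintype.card_le_of_surjective f hf
  rw [Fintype.card_prod, Fintype.card_bool] at this
  omega

/-- there is a refinement with `n` oriented edges -/
def RefAt (φ ι : Perm H) (bq : Q → Q) (γ : H → Q) (be : E → E) (ε : Q → E) (n : ℕ) : Prop :=
  ∃ (Q' E' : Type) (_ : Fintype Q') (bq' : Q' → Q') (γ' : H → Q') (be' : E' → E')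
      (ε' : Q' → E') (π : Q' → Q) (τ : E' → E),
      Adm φ bq' γ' be' ε' ∧ Pairing φ ι be' (fun h => ε' (γ' h)) ∧
      Refn bq γ be ε bq' γ' be' ε' π τ ∧ Fintype.card Q' = n

/-- Maximal refinements. -/
theorem exists_maximal (hA : Adm φ bq γ be ε) (hP : Pairing φ ι be fun h => ε (γ h)) :
    ∃ (Q' E' : Type) (_ : Fintype Q') (bq' : Q' → Q') (γ' : H → Q') (be' : E' → E')
      (ε' : Q' → E') (π : Q' → Q) (τ : E' → E),
      Adm φ bq' γ' be' ε' ∧ Pairing φ ι be' (fun h => ε' (γ' h)) ∧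
      Refn bq γ be ε bq' γ' be' ε' π τ ∧ Maxl φ ι bq' γ' be' ε' := by
  classical
  -- the largest refinement
  have hbound : ∀ n, RefAt φ ι bq γ be ε n → n ≤ 2 * Fintype.card H := by
    rintro n ⟨Q', E', _, bq', γ', be', ε', π, τ, h1, _, _, rfl⟩
    exact h1.card_le
  have hself : RefAt φ ι bq γ be ε (Fintype.card Q) :=
    ⟨Q, E, inferInstance, bq, γ, be, ε, id, id, hA, hP,
      ⟨fun _ => rfl, fun _ => rfl, fun _ => rfl, fun _ => rfl⟩, rfl⟩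
  obtain ⟨N, hN, hmax⟩ : ∃ N, RefAt φ ι bq γ be ε N ∧ ∀ n, RefAt φ ι bq γ be ε n → n ≤ N := by
    have h1 := Nat.findGreatest_spec (P := RefAt φ ι bq γ be ε) (hbound _ hself) hself
    exact ⟨_, h1, fun n hn => Nat.le_findGreatest (hbound n hn) hn⟩
  obtain ⟨Q₁, E₁, _, bq₁, γ₁, be₁, ε₁, π₁, τ₁, hA₁, hP₁, hR₁, hcard⟩ := hN
  obtain ⟨E₂, be₂, ε₂, τ₂, hA₂, hP₂, hR₂, hT₂, hS₂⟩ := exists_comp hA₁ hP₁
  have hR : Refn bq γ be ε bq₁ γ₁ be₂ ε₂ (fun q => π₁ (id q)) (fun e => τ₁ (τ₂ e)) :=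
    hR₁.comp hR₂
  refine ⟨Q₁, E₂, inferInstance, bq₁, γ₁, be₂, ε₂, _, _, hA₂, hP₂, hR, hS₂, ?_, ?_⟩
  · -- exact
    intro ρ hρ h0
    obtain ⟨η, hη, Q₃, E₃, _, bq₃, γ₃, be₃, ε₃, π₃, τ₃, lev, hA₃, hP₃, hR₃, hlev, hlevbq⟩ :=
      cover hA₂ hP₂ ρ hρ h0
    have hsurj : Function.Surjective π₃ := by
      intro q
      obtain ⟨h, hh⟩ := hA₂.surj hP₂ q
      exact ⟨γ₃ h, by rw [hR₃.pi_gam, hh]⟩
    have hle : Fintype.card Q₃ ≤ Fintype.card Q₁ := by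
      rw [hcard]
      exact hmax _ ⟨Q₃, E₃, inferInstance, bq₃, γ₃, be₃, ε₃, _, _, hA₃, hP₃, hR.comp hR₃, rfl⟩
    have hbij : Function.Bijective π₃ :=
      (Fintype.bijective_iff_surjective_and_card π₃).2
        ⟨hsurj, le_antisymm hle (Fintype.card_le_of_surjective π₃ hsurj)⟩
    let g := Equiv.ofBijective π₃ hbij
    have hg : ∀ x, g.symm (π₃ x) = x := fun x => g.symm_apply_apply x
    let l : Q₁ → ℚ := fun q => lev (g.symm q)
    have hl1 : ∀ h, l (γ₁ h) = η h := by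
      intro h
      show lev (g.symm (γ₁ h)) = η h
      rw [← hR₃.pi_gam h, hg, hlev]
    have hl2 : ∀ h, l (bq₁ (γ₁ h)) = η h + ρ (ε₂ (γ₁ h)) := by
      intro h
      show lev (g.symm (bq₁ (γ₁ h))) = _
      rw [← hR₃.pi_gam h, ← hR₃.pi_bq, hg, hlevbq, hlev, hR₃.pi_gam]
    have hlT : ∀ a b, ε₂ a = ε₂ b → l a = l b := by
      intro a b hab
      refine (hT₂ a b hab).eq_of l fun h => ?_
      rw [hl1, hl2, (hη h).2]
      have h1 : ε₂ (γ₁ (ι h)) = be₂ (ε₂ (γ₁ h)) := hP₂.lab h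
      rw [h1, hρ]
      ring
    choose s hs using hS₂
    let F : E₂ → ℚ := fun e => l (γ₁ (s e))
    have hF : ∀ q, F (ε₂ q) = l q := by
      intro q
      exact hlT _ _ (hs (ε₂ q))
    refine ⟨F, ?_, ?_⟩
    · intro h
      rw [← hA₂.eps_bq, hF, hF, hl2, hl1, (hη h).1]
    · intro e
      have h1 : e = ε₂ (γ₁ (s e)) := (hs e).symm
      rw [h1, ← hA₂.eps_bq, hF, hF, hl2, hl1]
      ring
  · -- cut
    intro e A h1 h2
    by_contra hcon
    push Not at hcon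
    obtain ⟨Q₃, E₃, _, bq₃, γ₃, be₃, ε₃, π₃, τ₃, hA₃, hP₃, hR₃, hlt⟩ :=
      double hA₂ hP₂ hT₂ e A h1 h2 (fun q q' i1 i2 i3 i4 => by
        by_contra hne
        exact hcon q q' hne i1 i2 i3 i4)
    have := hmax _ ⟨Q₃, E₃, inferInstance, bq₃, γ₃, be₃, ε₃, _, _, hA₃, hP₃, hR.comp hR₃, rfl⟩
    omega

end Pool.Agent.H57.Stall
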