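import Mathlib
import Pool.Agent.H57.Stall.Defs
import Pool.Agent.H57.Stall.DepLib
import Pool.Agent.H57.Stall.Cyc

set_option autoImplicit false

namespace Pool.Agent.H57.Stall

open Equiv

namespace PE

section Pl

variable {K X : Type} [Fintype K] [DecidableEq K]

/-- A swap with a fixed point merges two cycles. -/
theorem ncyc_swap_fix {σ : Perm K} {a z : K} (ha : σ a = a) (hz : z ≠ a) :
    ncyc (swap a z * σ) + 1 ≤ ncyc σ := by
  have hlt : invs (swap a z * σ) < invs σ := by
    refine SetLike.lt_iff_le_and_exists.2 ⟨?_, fun h => if h = a then 1 else 0, ?_, ?_⟩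
    · intro f hf
      have hf' : ∀ h, f (swap a z (σ h)) = f h := hf
      have hza : f z = f a := by
        have := hf' a
        rwa [ha, swap_apply_left] at this
      intro h
      rw [← hf' h]
      by_cases h1 : σ h = a
      · rw [h1, swap_apply_left, hza]
      · by_cases h2 : σ h = z
        · rw [h2, swap_apply_right, hza]
        · rw [swap_apply_of_ne_of_ne h1 h2]
    · intro h
      have : σ h = a ↔ h = a := by
        constructor
        · intro h1
          exact σ.injective (h1.trans ha.symm)
        · rintro rfl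
          exact ha
      simp only [this]
    · intro hf
      have := hf a
      simp only [Perm.mul_apply, ha, swap_apply_left] at this
      rw [if_neg hz] at this
      simp at this
  have := Submodule.finrank_lt_finrank_of_lt hlt
  rw [finrank_invs, finrank_invs] at this
  exact this

theorem ncyc_one : ncyc (1 : Perm K) = Fintype.card K := by
  rw [← finrank_invs]
  have : invs (1 : Perm K) = ⊤ := by
    refine eq_top_iff.2 ?_
    intro f _ h
    rfl
  rw [this, finrank_top, Module.finrank_fintype_fun_eq_card]

/-- A planar pairing of the darts in the list `D`; the other points are fixed. -/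
def Good (w : K → X × Bool) (φ : Perm K) (D : List K) (c : ℕ) (ι : Perm K) : Prop :=
  (∀ h, ι (ι h) = h) ∧ (∀ h ∈ D, ι h ≠ h) ∧ (∀ h, h ∉ D → ι h = h) ∧
    (∀ h ∈ D, w (ι h) = ((w h).1, !(w h).2)) ∧
      2 * Fintype.card K + 4 ≤ 2 * (c + ncyc (ι * φ)) + D.length

theorem Good.perm {w : K → X × Bool} {φ : Perm K} {D D' : List K} {c : ℕ} {ι : Perm K}
    (hG : Good w φ D c ι) (hD : D.Perm D') : Good w φ D' c ι := by
  obtain ⟨h1, h2, h3, h4, h5⟩ := hG
  refine ⟨h1, fun h hh => h2 h (hD.mem_iff.2 hh), fun h hh => h3 h fun h' => hh (hD.mem_iff.1 h'),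
    fun h hh => h4 h (hD.mem_iff.2 hh), ?_⟩
  rw [← hD.length_eq]
  exact h5

theorem Good.mem {w : K → X × Bool} {φ : Perm K} {D : List K} {c : ℕ} {ι : Perm K}
    (hG : Good w φ D c ι) {h : K} (hh : h ∈ D) : ι h ∈ D := by
  by_contra hn
  have h1 := hG.2.2.1 _ hn
  rw [hG.1 h] at h1
  exact hG.2.1 h hh h1.symm

theorem Good.congr {w w' : K → X × Bool} {φ : Perm K} {D : List K} {c : ℕ} {ι : Perm K}
    (hG : Good w φ D c ι) (hw : ∀ h ∈ D, w h = w' h) : Good w' φ D c ι := by
  refine ⟨hG.1, hG.2.1, hG.2.2.1, ?_, hG.2.2.2.2⟩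
  intro h hh
  rw [← hw h hh, ← hw (ι h) (hG.mem hh)]
  exact hG.2.2.2.1 h hh

/-- Inserting two consecutive darts with inverse labels. -/
theorem good_insert {w : K → X × Bool} {φ : Perm K} {D : List K} {c : ℕ} {ι : Perm K} {a b z : K}
    (hG : Good w φ D c ι) (ha : a ∉ D) (hb : b ∉ D) (hab : a ≠ b)
    (hw : w b = ((w a).1, !(w a).2)) :
    Good w (swap a b * swap b z * φ) (a :: b :: D) c (swap a b * ι) := by
  obtain ⟨h1, h2, h3, h4, h5⟩ := id hG
  have ea : ι a = a := h3 a ha
  have eb : ι b = b := h3 b hb
  have hne : ∀ h, h ≠ a → h ≠ b → ι h ≠ a ∧ ι h ≠ b := by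
    intro h ha' hb'
    constructor
    · intro he
      apply ha'
      rw [← h1 h, he, ea]
    · intro he
      apply hb'
      rw [← h1 h, he, eb]
  refine ⟨?_, ?_, ?_, ?_, ?_⟩
  · intro h
    simp only [Perm.mul_apply]
    by_cases e1 : h = a
    · rw [e1, ea, swap_apply_left, eb, swap_apply_right]
    · by_cases e2 : h = b
      · rw [e2, eb, swap_apply_right, ea, swap_apply_left]
      · obtain ⟨e3, e4⟩ := hne h e1 e2
        rw [swap_apply_of_ne_of_ne e3 e4, h1, swap_apply_of_ne_of_ne e1 e2]
  · intro h hh
    simp only [Perm.mul_apply]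
    rcases List.mem_cons.1 hh with rfl | hh
    · rw [ea, swap_apply_left]
      exact hab.symm
    · rcases List.mem_cons.1 hh with rfl | hh
      · rw [eb, swap_apply_right]
        exact hab
      · have e1 : h ≠ a := fun e => ha (e ▸ hh)
        have e2 : h ≠ b := fun e => hb (e ▸ hh)
        obtain ⟨e3, e4⟩ := hne h e1 e2
        rw [swap_apply_of_ne_of_ne e3 e4]
        exact h2 h hh
  · intro h hh
    simp only [List.mem_cons, not_or] at hh
    obtain ⟨e1, e2, hh⟩ := hh
    rw [Perm.mul_apply, h3 h hh, swap_apply_of_ne_of_ne e1 e2]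
  · intro h hh
    simp only [Perm.mul_apply]
    rcases List.mem_cons.1 hh with rfl | hh
    · rw [ea, swap_apply_left]
      exact hw
    · rcases List.mem_cons.1 hh with rfl | hh
      · rw [eb, swap_apply_right, hw]
        simp
      · have e1 : h ≠ a := fun e => ha (e ▸ hh)
        have e2 : h ≠ b := fun e => hb (e ▸ hh)
        obtain ⟨e3, e4⟩ := hne h e1 e2
        rw [swap_apply_of_ne_of_ne e3 e4]
        exact h4 h hh
  · have e : swap a b * ι * (swap a b * swap b z * φ) = swap b (ι z) * (ι * φ) := by
      have e1 : ι * swap a b = swap a b * ι := by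
        rw [mul_swap_eq_swap_mul, ea, eb]
      have e2 : ι * swap b z = swap b (ι z) * ι := by
        rw [mul_swap_eq_swap_mul, eb]
      calc swap a b * ι * (swap a b * swap b z * φ)
          = swap a b * (ι * swap a b) * swap b z * φ := by simp only [mul_assoc]
        _ = swap a b * swap a b * (ι * swap b z) * φ := by rw [e1]; simp only [mul_assoc]
        _ = swap b (ι z) * (ι * φ) := by
            rw [swap_mul_self, one_mul, e2, mul_assoc]
    rw [e]
    have := ncyc_swap_mul_ge (ι * φ) b (ι z)
    simp only [List.length_cons]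
    omega

/-- Splitting a cycle of `φ`. -/
theorem good_split {w : K → X × Bool} {φ : Perm K} {D : List K} {c : ℕ} {ι : Perm K} {x y : K}
    (hG : Good w (swap x y * φ) D c ι) : Good w φ D (c + 1) ι := by
  refine ⟨hG.1, hG.2.1, hG.2.2.1, hG.2.2.2.1, ?_⟩
  have h5 := hG.2.2.2.2
  have e : swap (ι x) (ι y) * (ι * (swap x y * φ)) = ι * φ := by
    rw [← mul_assoc ι, mul_swap_eq_swap_mul, mul_assoc (swap (ι x) (ι y)) ι φ,
      ← mul_assoc (swap (ι x) (ι y)), swap_mul_self, one_mul]
  have := ncyc_swap_mul_ge (ι * (swap x y * φ)) (ι x) (ι y)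
  rw [e] at this
  omega

theorem four_swaps {a b α β : K} (hab : a ≠ b) (haα : α ≠ a) (hbα : α ≠ b) (haβ : β ≠ a)
    (hbβ : β ≠ b) (hαβ : α ≠ β) :
    swap a α * swap b β * swap α β * swap b a = swap b α * swap a β := by
  ext h
  simp only [Perm.mul_apply]
  by_cases e1 : h = a
  · subst e1
    rw [swap_apply_right, swap_apply_of_ne_of_ne hbα.symm hbβ.symm, swap_apply_left,
      swap_apply_of_ne_of_ne haβ hαβ.symm, swap_apply_left, swap_apply_of_ne_of_ne hbβ hαβ.symm]
  · by_cases e2 : h = b
    · subst e2
      rw [swap_apply_left, swap_apply_of_ne_of_ne haα.symm haβ.symm,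
        swap_apply_of_ne_of_ne hab haβ.symm, swap_apply_left,
        swap_apply_of_ne_of_ne hab.symm hbβ.symm, swap_apply_left]
    · by_cases e3 : h = α
      · subst e3
        rw [swap_apply_of_ne_of_ne e2 e1, swap_apply_left, swap_apply_right,
          swap_apply_of_ne_of_ne hab.symm hbα.symm, swap_apply_of_ne_of_ne e1 hαβ,
          swap_apply_right]
      · by_cases e4 : h = β
        · subst e4
          rw [swap_apply_of_ne_of_ne e2 e1, swap_apply_right,
            swap_apply_of_ne_of_ne hbα hαβ, swap_apply_right, swap_apply_right,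
            swap_apply_of_ne_of_ne hab haα.symm]
        · rw [swap_apply_of_ne_of_ne e2 e1, swap_apply_of_ne_of_ne e3 e4,
            swap_apply_of_ne_of_ne e2 e4, swap_apply_of_ne_of_ne e1 e3,
            swap_apply_of_ne_of_ne e1 e4, swap_apply_of_ne_of_ne e2 e3]

/-- Deleting a pair of conjugating darts. -/
theorem good_delete {w : K → X × Bool} {φ : Perm K} {D : List K} {c : ℕ} {ι : Perm K} {a b x : K}
    (hG : Good w (swap b a * swap a x * φ) (a :: b :: D) c ι) (ha : a ∉ D) (hb : b ∉ D)
    (hab : a ≠ b) (hx : x ∈ D) (hφa : φ a = a) (hφb : φ b = b)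
    (hw : w b = ((w a).1, !(w a).2)) : ∃ ι', Good w φ D c ι' := by
  obtain ⟨h1, h2, h3, h4, h5⟩ := id hG
  have hxa : x ≠ a := fun e => ha (e ▸ hx)
  have hxb : x ≠ b := fun e => hb (e ▸ hx)
  have hna : ι a ≠ a := h2 a (by simp)
  have hnb : ι b ≠ b := h2 b (by simp)
  by_cases hc : ι a = b
  · -- the two darts are paired with each other
    have hc' : ι b = a := by rw [← hc, h1]
    have hne : ∀ h, h ≠ a → h ≠ b → ι h ≠ a ∧ ι h ≠ b := by
      intro h ha' hb'
      constructor
      · intro he
        apply hb'
        rw [← h1 h, he, hc]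
      · intro he
        apply ha'
        rw [← h1 h, he, hc']
    have ea : (swap a b * ι) a = a := by rw [Perm.mul_apply, hc, swap_apply_right]
    have eb : (swap a b * ι) b = b := by rw [Perm.mul_apply, hc', swap_apply_left]
    have eo : ∀ h, h ≠ a → h ≠ b → (swap a b * ι) h = ι h := by
      intro h ha' hb'
      rw [Perm.mul_apply, swap_apply_of_ne_of_ne (hne h ha' hb').1 (hne h ha' hb').2]
    refine ⟨swap a b * ι, ?_, ?_, ?_, ?_, ?_⟩
    · intro h
      by_cases e1 : h = a
      · rw [e1, ea, ea]
      · by_cases e2 : h = b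
        · rw [e2, eb, eb]
        · rw [eo h e1 e2, eo _ (hne h e1 e2).1 (hne h e1 e2).2, h1]
    · intro h hh
      have e1 : h ≠ a := fun e => ha (e ▸ hh)
      have e2 : h ≠ b := fun e => hb (e ▸ hh)
      rw [eo h e1 e2]
      exact h2 h (by simp [hh])
    · intro h hh
      by_cases e1 : h = a
      · rw [e1, ea]
      · by_cases e2 : h = b
        · rw [e2, eb]
        · rw [eo h e1 e2]
          exact h3 h (by simp [hh, e1, e2])
    · intro h hh
      have e1 : h ≠ a := fun e => ha (e ▸ hh)
      have e2 : h ≠ b := fun e => hb (e ▸ hh)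
      rw [eo h e1 e2]
      exact h4 h (by simp [hh])
    · obtain ⟨ι', hι'⟩ : ∃ ι', ι' = swap a b * ι := ⟨_, rfl⟩
      have hι : ι = swap a b * ι' := by
        rw [hι', ← mul_assoc, swap_mul_self, one_mul]
      rw [← hι'] at ea eb eo ⊢
      have e : ι * (swap b a * swap a x * φ) = swap a (ι' x) * (ι' * φ) := by
        have e1 : ι' * swap b a = swap b a * ι' := by rw [mul_swap_eq_swap_mul, ea, eb]
        have e2 : ι' * swap a x = swap a (ι' x) * ι' := by rw [mul_swap_eq_swap_mul, ea]
        calc ι * (swap b a * swap a x * φ)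
            = swap a b * (ι' * swap b a) * swap a x * φ := by rw [hι]; simp only [mul_assoc]
          _ = swap a b * swap b a * (ι' * swap a x) * φ := by rw [e1]; simp only [mul_assoc]
          _ = swap a (ι' x) * (ι' * φ) := by
            rw [swap_comm b a, swap_mul_self, one_mul, e2, mul_assoc]
      rw [e] at h5
      have e3 : (ι' * φ) a = a := by rw [Perm.mul_apply, hφa, ea]
      have e4 : ι' x ≠ a := by
        rw [eo x hxa hxb]
        exact (hne x hxa hxb).1
      have := ncyc_swap_fix e3 e4
      simp only [List.length_cons] at h5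
      omega
  · -- general case
    obtain ⟨α, hα⟩ : ∃ α, α = ι a := ⟨_, rfl⟩
    obtain ⟨β, hβ⟩ : ∃ β, β = ι b := ⟨_, rfl⟩
    have hια : ι α = a := by rw [hα, h1]
    have hιβ : ι β = b := by rw [hβ, h1]
    rw [← hα] at hna hc
    rw [← hβ] at hnb
    have hβa : β ≠ a := by
      intro he
      rw [he] at hιβ
      exact hc (hα.trans hιβ)
    have hαβ : α ≠ β := by
      intro he
      rw [hα, hβ] at he
      exact hab (ι.injective he)
    have hαD : α ∈ D := by
      have : ι a ∈ a :: b :: D := hG.mem (by simp)
      rw [← hα] at this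
      simpa [hna, hc] using this
    have hβD : β ∈ D := by
      have : ι b ∈ a :: b :: D := hG.mem (by simp)
      rw [← hβ] at this
      simpa [hβa, hnb] using this
    obtain ⟨ι', hι'⟩ : ∃ ι', ι' = swap α β * swap b β * swap a α * ι := ⟨_, rfl⟩
    have hι : ι = swap a α * swap b β * swap α β * ι' := by
      rw [hι']
      simp only [← mul_assoc]
      rw [mul_assoc (swap a α * swap b β) (swap α β) (swap α β), swap_mul_self, mul_one,
        mul_assoc (swap a α) (swap b β) (swap b β), swap_mul_self, mul_one, swap_mul_self, one_mul]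
    have ea : ι' a = a := by
      rw [hι', Perm.mul_apply, Perm.mul_apply, Perm.mul_apply, ← hα, swap_apply_right,
        swap_apply_of_ne_of_ne hab hβa.symm, swap_apply_of_ne_of_ne hna.symm hβa.symm]
    have eb : ι' b = b := by
      rw [hι', Perm.mul_apply, Perm.mul_apply, Perm.mul_apply, ← hβ,
        swap_apply_of_ne_of_ne hβa hαβ.symm, swap_apply_right,
        swap_apply_of_ne_of_ne (Ne.symm hc) hnb.symm]
    have eα : ι' α = β := by
      rw [hι', Perm.mul_apply, Perm.mul_apply, Perm.mul_apply, hια, swap_apply_left,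
        swap_apply_of_ne_of_ne hc hαβ, swap_apply_left]
    have eβ : ι' β = α := by
      rw [hι', Perm.mul_apply, Perm.mul_apply, Perm.mul_apply, hιβ,
        swap_apply_of_ne_of_ne hab.symm (Ne.symm hc), swap_apply_left, swap_apply_right]
    have hne : ∀ h, h ≠ a → h ≠ b → h ≠ α → h ≠ β →
        ι h ≠ a ∧ ι h ≠ b ∧ ι h ≠ α ∧ ι h ≠ β := by
      intro h k1 k2 k3 k4
      refine ⟨?_, ?_, ?_, ?_⟩
      · intro he
        apply k3
        rw [← h1 h, he, hα]
      · intro he
        apply k4
        rw [← h1 h, he, hβ]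
      · intro he
        apply k1
        rw [← h1 h, he, hια]
      · intro he
        apply k2
        rw [← h1 h, he, hιβ]
    have eo : ∀ h, h ≠ a → h ≠ b → h ≠ α → h ≠ β → ι' h = ι h := by
      intro h k1 k2 k3 k4
      obtain ⟨m1, m2, m3, m4⟩ := hne h k1 k2 k3 k4
      rw [hι', Perm.mul_apply, Perm.mul_apply, Perm.mul_apply,
        swap_apply_of_ne_of_ne m1 m3, swap_apply_of_ne_of_ne m2 m4, swap_apply_of_ne_of_ne m3 m4]
    have h1' : ∀ h, ι' (ι' h) = h := by
      intro h
      by_cases k1 : h = a
      · rw [k1, ea, ea]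
      by_cases k2 : h = b
      · rw [k2, eb, eb]
      by_cases k3 : h = α
      · rw [k3, eα, eβ]
      by_cases k4 : h = β
      · rw [k4, eβ, eα]
      obtain ⟨m1, m2, m3, m4⟩ := hne h k1 k2 k3 k4
      rw [eo h k1 k2 k3 k4, eo _ m1 m2 m3 m4, h1]
    have wα : w α = ((w a).1, !(w a).2) := by
      have := h4 a (by simp)
      rwa [← hα] at this
    have wβ : w β = w a := by
      have := h4 b (by simp)
      rw [← hβ, hw] at this
      simpa using this
    refine ⟨ι', h1', ?_, ?_, ?_, ?_⟩
    · intro h hh
      have k1 : h ≠ a := fun e => ha (e ▸ hh)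
      have k2 : h ≠ b := fun e => hb (e ▸ hh)
      by_cases k3 : h = α
      · rw [k3, eα]
        exact hαβ.symm
      by_cases k4 : h = β
      · rw [k4, eβ]
        exact hαβ
      rw [eo h k1 k2 k3 k4]
      exact h2 h (by simp [hh])
    · intro h hh
      by_cases k1 : h = a
      · rw [k1, ea]
      by_cases k2 : h = b
      · rw [k2, eb]
      have k3 : h ≠ α := fun e => hh (e ▸ hαD)
      have k4 : h ≠ β := fun e => hh (e ▸ hβD)
      rw [eo h k1 k2 k3 k4]
      exact h3 h (by simp [hh, k1, k2])
    · intro h hh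
      have k1 : h ≠ a := fun e => ha (e ▸ hh)
      have k2 : h ≠ b := fun e => hb (e ▸ hh)
      by_cases k3 : h = α
      · rw [k3, eα, wα, wβ]
        simp
      by_cases k4 : h = β
      · rw [k4, eβ, wα, wβ]
      rw [eo h k1 k2 k3 k4]
      exact h4 h (by simp [hh])
    · have e : ι * (swap b a * swap a x * φ) =
          swap b α * (swap a β * (swap a (ι' x) * (ι' * φ))) := by
        have e1 : ι' * swap b a = swap b a * ι' := by rw [mul_swap_eq_swap_mul, ea, eb]
        have e2 : ι' * swap a x = swap a (ι' x) * ι' := by rw [mul_swap_eq_swap_mul, ea]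
        calc ι * (swap b a * swap a x * φ)
            = swap a α * swap b β * swap α β * (ι' * swap b a) * swap a x * φ := by
              rw [hι]; simp only [mul_assoc]
          _ = swap a α * swap b β * swap α β * swap b a * (ι' * swap a x) * φ := by
              rw [e1]; simp only [mul_assoc]
          _ = swap b α * (swap a β * (swap a (ι' x) * (ι' * φ))) := by
            rw [e2, four_swaps hab hna hc hβa hnb hαβ]; simp only [mul_assoc]
      rw [e] at h5
      have e3 : (ι' * φ) a = a := by rw [Perm.mul_apply, hφa, ea]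
      have e3' : (ι' * φ) b = b := by rw [Perm.mul_apply, hφb, eb]
      have e4 : ι' x ≠ a := by
        intro he
        apply hxa
        rw [← h1' x, he, ea]
      have e4' : ι' x ≠ b := by
        intro he
        apply hxb
        rw [← h1' x, he, eb]
      have f1 := ncyc_swap_fix e3 e4
      have f2 := ncyc_swap_mul_ge (swap a β * (swap a (ι' x) * (ι' * φ))) a β
      rw [← mul_assoc (swap a β) (swap a β), swap_mul_self, one_mul] at f2
      have e5 : (swap a β * (swap a (ι' x) * (ι' * φ))) b = b := by
        rw [Perm.mul_apply, Perm.mul_apply, e3', swap_apply_of_ne_of_ne hab.symm (Ne.symm e4'),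
          swap_apply_of_ne_of_ne hab.symm hnb.symm]
      have f3 := ncyc_swap_fix e5 hc
      simp only [List.length_cons] at h5
      omega

theorem formPerm_append {x y : K} {t s : List K} (h : (x :: t ++ y :: s).Nodup) :
    (x :: t ++ y :: s).formPerm = swap x y * ((x :: t).formPerm * (y :: s).formPerm) := by
  induction t generalizing x with
  | nil => simp
  | cons x' t ih =>
    have h' : (x' :: t ++ y :: s).Nodup := by
      have := h
      simp only [List.cons_append, List.nodup_cons] at this ⊢
      exact this.2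
    have hxx : x ≠ x' := by
      rintro rfl
      simp at h
    have hxy : x ≠ y := by
      rintro rfl
      simp at h
    have hx'y : x' ≠ y := by
      rintro rfl
      simp at h
    have e := ih h'
    simp only [List.cons_append] at e ⊢
    rw [List.formPerm_cons_cons, e, List.formPerm_cons_cons x x' t]
    have e2 : swap x x' * swap x' y = swap x y * swap x x' := by
      rw [mul_swap_eq_swap_mul, swap_apply_right, swap_apply_of_ne_of_ne hxy.symm hx'y.symm]
    calc swap x x' * (swap x' y * ((x' :: t).formPerm * (y :: s).formPerm))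
        = (swap x x' * swap x' y) * ((x' :: t).formPerm * (y :: s).formPerm) := by
          simp only [mul_assoc]
      _ = swap x y * (swap x x' * (x' :: t).formPerm * (y :: s).formPerm) := by
          rw [e2]; simp only [mul_assoc]

/-- One cycle with trivial product. -/
theorem good_cycle (w : K → X × Bool) : ∀ (n : ℕ) (l : List K), l.length = n → l.Nodup → l ≠ [] →
    FreeGroup.mk (l.map w) = 1 → ∃ ι, Good w l.formPerm l 1 ι := by
  intro n
  induction n using Nat.strong_induction_on with
  | _ n ih =>
  intro l hn hd hne h1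
  rw [FreeGroup.one_eq_mk] at h1
  obtain ⟨c, hc1, hc2⟩ := FreeGroup.Red.exact.1 h1
  rw [FreeGroup.Red.nil_iff] at hc2
  subst hc2
  rcases Relation.ReflTransGen.cases_head hc1 with hc | ⟨d, hstep, hred⟩
  · exact absurd (List.map_eq_nil_iff.1 hc) hne
  · obtain ⟨L1, L2, x, b, hl, hd'⟩ : ∃ L1 L2 x b, l.map w = L1 ++ (x, b) :: (x, !b) :: L2 ∧
        d = L1 ++ L2 := by
      generalize hlw : l.map w = lw at hstep
      cases hstep with
      | @not L1 L2 x b => exact ⟨L1, L2, x, b, rfl, rfl⟩
    have hmk : FreeGroup.mk (L1 ++ L2) = 1 := by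
      rw [← hd', FreeGroup.one_eq_mk]
      exact FreeGroup.Red.exact.2 ⟨[], hred, Relation.ReflTransGen.refl⟩
    obtain ⟨l1, l', rfl, hm1, hm2⟩ := List.map_eq_append_iff.1 hl
    obtain ⟨p, l'', rfl, hp, hm3⟩ := List.map_eq_cons_iff.1 hm2
    obtain ⟨q, l2, rfl, hq, hm4⟩ := List.map_eq_cons_iff.1 hm3
    have hrot : (l1 ++ p :: q :: l2) ~r (p :: q :: (l2 ++ l1)) := by
      have := List.isRotated_append (l := l1) (l' := p :: q :: l2)
      simpa using this
    have hd2 : (p :: q :: (l2 ++ l1)).Nodup := hrot.perm.nodup_iff.1 hd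
    have hform : (l1 ++ p :: q :: l2).formPerm = (p :: q :: (l2 ++ l1)).formPerm :=
      List.formPerm_eq_of_isRotated hd hrot
    have hpq : p ≠ q := by
      rintro rfl
      simp at hd2
    have hwq : w q = ((w p).1, !(w p).2) := by
      rw [hp, hq]
    suffices hs : ∃ ι, Good w (p :: q :: (l2 ++ l1)).formPerm (p :: q :: (l2 ++ l1)) 1 ι by
      obtain ⟨ι, hι⟩ := hs
      refine ⟨ι, ?_⟩
      rw [hform]
      exact hι.perm hrot.perm.symm
    have hd3 : (l2 ++ l1).Nodup := by
      simp only [List.nodup_cons] at hd2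
      exact hd2.2.2
    have hpn : p ∉ l2 ++ l1 := by
      simp only [List.nodup_cons, List.mem_cons, not_or] at hd2
      exact hd2.1.2
    have hqn : q ∉ l2 ++ l1 := by
      simp only [List.nodup_cons] at hd2
      exact hd2.2.1
    have hmk2 : FreeGroup.mk ((l2 ++ l1).map w) = 1 := by
      rw [List.map_append, hm1, hm4, ← FreeGroup.mul_mk, mul_eq_one_iff_eq_inv]
      rw [← FreeGroup.mul_mk, mul_eq_one_iff_inv_eq] at hmk
      rw [← hmk]
    rcases hm : l2 ++ l1 with _ | ⟨z, t⟩
    · rw [List.formPerm_pair]
      refine ⟨swap p q, ?_, ?_, ?_, ?_, ?_⟩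
      · intro h
        rw [← Perm.mul_apply, swap_mul_self, Perm.one_apply]
      · intro h hh
        simp only [List.mem_cons, List.not_mem_nil, or_false] at hh
        rcases hh with rfl | rfl
        · rw [swap_apply_left]
          exact hpq.symm
        · rw [swap_apply_right]
          exact hpq
      · intro h hh
        simp only [List.mem_cons, List.not_mem_nil, or_false, not_or] at hh
        rw [swap_apply_of_ne_of_ne hh.1 hh.2]
      · intro h hh
        simp only [List.mem_cons, List.not_mem_nil, or_false] at hh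
        rcases hh with rfl | rfl
        · rw [swap_apply_left, hwq]
        · rw [swap_apply_right, hwq]
          simp
      · rw [swap_mul_self, ncyc_one]
        simp
        omega
    · rw [hm] at hd3 hpn hqn hmk2
      have hlen : (z :: t).length < n := by
        rw [← hm, ← hn]
        simp only [List.length_append, List.length_cons]
        omega
      obtain ⟨ι, hι⟩ := ih _ hlen (z :: t) rfl hd3 (by simp) hmk2
      refine ⟨swap p q * ι, ?_⟩
      have := good_insert (z := z) hι hpn hqn hpq hwq
      rw [List.formPerm_cons_cons, List.formPerm_cons_cons, ← mul_assoc]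
      exact this

/-- Several cycles with trivial total product. -/
theorem good_words (w : K → X × Bool) : ∀ (ls : List (List K)) (l0 : List K), l0 ≠ [] →
    (∀ l ∈ ls, l ≠ []) → (l0 ++ ls.flatten).Nodup →
    FreeGroup.mk ((l0 ++ ls.flatten).map w) = 1 →
    ∃ ι, Good w (l0.formPerm * (ls.map List.formPerm).prod) (l0 ++ ls.flatten)
      (ls.length + 1) ι := by
  intro ls
  induction ls with
  | nil =>
    intro l0 h0 _ hd h1
    simp only [List.flatten_nil, List.append_nil, List.map_nil, List.prod_nil, mul_one,
      List.length_nil, Nat.zero_add] at hd h1 ⊢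
    exact good_cycle w _ l0 rfl hd h0 h1
  | cons l1 ls ih =>
    intro l0 h0 hls hd h1
    have hl1 : l1 ≠ [] := hls l1 (by simp)
    obtain ⟨x, t, rfl⟩ := List.exists_cons_of_ne_nil h0
    obtain ⟨y, s, rfl⟩ := List.exists_cons_of_ne_nil hl1
    have e : x :: t ++ ((y :: s) :: ls).flatten = (x :: t ++ y :: s) ++ ls.flatten := by
      simp
    rw [e] at hd h1 ⊢
    obtain ⟨ι, hι⟩ := ih (x :: t ++ y :: s) (by simp) (fun l hl => hls l (by simp [hl])) hd h1
    refine ⟨ι, ?_⟩
    rw [formPerm_append (List.Nodup.of_append_left hd)] at hι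
    rw [mul_assoc] at hι
    have := good_split hι
    rw [mul_assoc] at this
    simpa using this

theorem prod_formPerm_apply {T : Type} (LL : List (T × List K)) (h : K)
    (hh : h ∉ LL.flatMap Prod.snd) :
    (LL.map fun p => p.2.formPerm).prod h = h := by
  induction LL with
  | nil => simp
  | cons p LL ih =>
    simp only [List.flatMap_cons, List.mem_append, not_or] at hh
    rw [List.map_cons, List.prod_cons, Perm.mul_apply, ih hh.2,
      List.formPerm_apply_of_notMem hh.1]

/-- Conjugated cycles. -/
theorem good_conj : ∀ (m : ℕ) (w : K → X × Bool) (LL : List (List (X × Bool) × List K)),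
    (LL.map fun p => p.1.length).sum = m →
    2 * m + (LL.flatMap Prod.snd).length ≤ Fintype.card K →
    (LL.flatMap Prod.snd).Nodup → (∀ p ∈ LL, p.2 ≠ []) → LL ≠ [] →
    (LL.map fun p => FreeGroup.mk p.1 * FreeGroup.mk (p.2.map w) *
      (FreeGroup.mk p.1)⁻¹).prod = 1 →
    ∃ ι, Good w (LL.map fun p => p.2.formPerm).prod (LL.flatMap Prod.snd) LL.length ι := by
  intro m
  induction m with
  | zero =>
    intro w LL hm _ hd hne hLL hp
    have hz : ∀ p ∈ LL, p.1 = [] := by
      intro p hp
      have := List.sum_eq_zero_iff.1 hm p.1.length (List.mem_map.2 ⟨p, hp, rfl⟩)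
      exact List.length_eq_zero_iff.1 this
    have hprod : ∀ L : List (List (X × Bool) × List K), (∀ p ∈ L, p.1 = []) →
        (L.map fun p => FreeGroup.mk p.1 * FreeGroup.mk (p.2.map w) *
          (FreeGroup.mk p.1)⁻¹).prod = FreeGroup.mk ((L.flatMap Prod.snd).map w) := by
      intro L
      induction L with
      | nil => intro _; simp [FreeGroup.one_eq_mk]
      | cons p L ih =>
        intro hL
        rw [List.map_cons, List.prod_cons, ih fun q hq => hL q (by simp [hq]), hL p (by simp)]
        simp [← FreeGroup.one_eq_mk, ← FreeGroup.mul_mk]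
    rw [hprod LL hz] at hp
    obtain ⟨p, LL, rfl⟩ := List.exists_cons_of_ne_nil hLL
    have e1 : (p :: LL).flatMap Prod.snd = p.2 ++ (LL.map Prod.snd).flatten := by
      simp [List.flatMap]
    rw [e1] at hd hp ⊢
    obtain ⟨ι, hι⟩ := good_words w (LL.map Prod.snd) p.2 (hne p (by simp))
      (by
        intro l hl
        obtain ⟨q, hq, rfl⟩ := List.mem_map.1 hl
        exact hne q (by simp [hq])) hd hp
    refine ⟨ι, ?_⟩
    simpa [List.map_map, Function.comp_def] using hι
  | succ m ih =>
    intro w LL hm hcard hd hne hLL hp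
    obtain ⟨p, hpL, hp1⟩ : ∃ p ∈ LL, p.1 ≠ [] := by
      by_contra hcon
      push Not at hcon
      have : (LL.map fun p => p.1.length).sum = 0 := by
        rw [List.sum_eq_zero_iff]
        intro k hk
        obtain ⟨q, hq, rfl⟩ := List.mem_map.1 hk
        rw [hcon q hq]
        rfl
      omega
    obtain ⟨LL1, LL2, rfl⟩ := List.append_of_mem hpL
    obtain ⟨F, l⟩ := p
    simp only at hp1
    obtain ⟨F', e, rfl⟩ : ∃ F' e, F = F' ++ [e] := by
      rcases List.eq_nil_or_concat F with h | ⟨F', e, h⟩
      · exact absurd h hp1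
      · exact ⟨F', e, by rw [h, List.concat_eq_append]⟩
    have hl : l ≠ [] := hne (F' ++ [e], l) (by simp)
    obtain ⟨x, t, rfl⟩ := List.exists_cons_of_ne_nil hl
    -- two new darts
    obtain ⟨D, hD⟩ : ∃ D, D = (LL1 ++ (F' ++ [e], x :: t) :: LL2).flatMap Prod.snd := ⟨_, rfl⟩
    rw [← hD] at hcard hd ⊢
    obtain ⟨a, b, haD, hbD, hab⟩ : ∃ a b, a ∉ D ∧ b ∉ D ∧ a ≠ b := by
      have h1 : D.toFinset.card = D.length := List.toFinset_card_of_nodup hd
      have h2 : 1 < (D.toFinsetᶜ : Finset K).card := by
        rw [Finset.card_compl, h1]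
        omega
      obtain ⟨a, ha, b, hb, hab⟩ := Finset.one_lt_card.1 h2
      simp only [Finset.mem_compl, List.mem_toFinset] at ha hb
      exact ⟨a, b, ha, hb, hab⟩
    have hDe : D = LL1.flatMap Prod.snd ++ (x :: t ++ LL2.flatMap Prod.snd) := by
      rw [hD]; simp
    have ha1 : a ∉ LL1.flatMap Prod.snd := fun h => haD (by rw [hDe]; simp [h])
    have hb1 : b ∉ LL1.flatMap Prod.snd := fun h => hbD (by rw [hDe]; simp [h])
    have ha2 : a ∉ LL2.flatMap Prod.snd := fun h => haD (by rw [hDe]; simp [h])
    have hb2 : b ∉ LL2.flatMap Prod.snd := fun h => hbD (by rw [hDe]; simp [h])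
    have hat : a ∉ x :: t := fun h => haD (by
      rw [hDe]; exact List.mem_append_right _ (List.mem_append_left _ h))
    have hbt : b ∉ x :: t := fun h => hbD (by
      rw [hDe]; exact List.mem_append_right _ (List.mem_append_left _ h))
    obtain ⟨w', hw'⟩ : ∃ w', w' = Function.update (Function.update w a e) b (e.1, !e.2) :=
      ⟨_, rfl⟩
    have w'a : w' a = e := by
      rw [hw', Function.update_of_ne hab, Function.update_self]
    have w'b : w' b = (e.1, !e.2) := by
      rw [hw', Function.update_self]
    have w'o : ∀ h, h ≠ a → h ≠ b → w' h = w h := by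
      intro h h1 h2
      rw [hw', Function.update_of_ne h2, Function.update_of_ne h1]
    have hmapw : ∀ L : List K, a ∉ L → b ∉ L → L.map w' = L.map w := by
      intro L h1 h2
      refine List.map_congr_left fun h hh => w'o h ?_ ?_
      · rintro rfl
        exact h1 hh
      · rintro rfl
        exact h2 hh
    obtain ⟨LL', hLL'⟩ : ∃ LL', LL' = LL1 ++ (F', a :: (x :: t ++ [b])) :: LL2 := ⟨_, rfl⟩
    have hperm : (LL'.flatMap Prod.snd).Perm (a :: b :: D) := by
      rw [hLL', hDe]
      have : (LL1 ++ (F', a :: (x :: t ++ [b])) :: LL2).flatMap Prod.snd =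
          LL1.flatMap Prod.snd ++ (a :: (x :: t ++ [b]) ++ LL2.flatMap Prod.snd) := by
        simp
      rw [this]
      rw [List.perm_iff_count]
      intro k
      simp only [List.count_append, List.count_cons, List.count_nil]
      omega
    have hrot : (a :: (x :: t ++ [b])) ~r (b :: a :: x :: t) := by
      have := List.isRotated_append (l := a :: x :: t) (l' := [b])
      simpa using this
    have hnd' : (LL'.flatMap Prod.snd).Nodup := by
      rw [hperm.nodup_iff]
      simp [hd, haD, hbD, hab]
    have hnd'' : (a :: (x :: t ++ [b])).Nodup := by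
      have := hnd'
      rw [hLL'] at this
      simp only [List.flatMap_append, List.flatMap_cons] at this
      exact List.Nodup.of_append_left (List.Nodup.of_append_right this)
    have c1 : (LL'.map fun p => p.1.length).sum = m := by
      rw [hLL']
      simp only [List.map_append, List.map_cons, List.sum_append, List.sum_cons,
        List.length_append, List.length_cons, List.length_nil] at hm ⊢
      omega
    have c2 : 2 * m + (LL'.flatMap Prod.snd).length ≤ Fintype.card K := by
      rw [hperm.length_eq]
      simp only [List.length_cons]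
      omega
    have c3 : ∀ p ∈ LL', p.2 ≠ [] := by
      intro p hp
      rw [hLL'] at hp
      simp only [List.mem_append, List.mem_cons] at hp
      rcases hp with hp | rfl | hp
      · exact hne p (by simp [hp])
      · simp
      · exact hne p (by simp [hp])
    have c4 : LL' ≠ [] := by
      rw [hLL']
      simp
    have c5 : (LL'.map fun p => FreeGroup.mk p.1 * FreeGroup.mk (p.2.map w') *
      (FreeGroup.mk p.1)⁻¹).prod = 1 := by
      rw [hLL', List.map_append, List.map_cons, List.prod_append, List.prod_cons]
      rw [List.map_append, List.map_cons, List.prod_append, List.prod_cons] at hp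
      dsimp only at hp ⊢
      have g1 : ∀ L : List (List (X × Bool) × List K), a ∉ L.flatMap Prod.snd →
          b ∉ L.flatMap Prod.snd →
          (L.map fun p => FreeGroup.mk p.1 * FreeGroup.mk (p.2.map w') *
            (FreeGroup.mk p.1)⁻¹) =
          (L.map fun p => FreeGroup.mk p.1 * FreeGroup.mk (p.2.map w) *
            (FreeGroup.mk p.1)⁻¹) := by
        intro L h1 h2
        refine List.map_congr_left fun p hp => ?_
        rw [hmapw p.2 (fun h => h1 (List.mem_flatMap.2 ⟨p, hp, h⟩))
          (fun h => h2 (List.mem_flatMap.2 ⟨p, hp, h⟩))]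
      rw [g1 LL1 ha1 hb1, g1 LL2 ha2 hb2]
      have g2 : FreeGroup.mk ((a :: (x :: t ++ [b])).map w') =
          FreeGroup.mk [e] * FreeGroup.mk ((x :: t).map w) * (FreeGroup.mk [e])⁻¹ := by
        rw [List.map_cons, List.map_append, hmapw _ hat hbt, List.map_singleton, w'a, w'b]
        have : (FreeGroup.mk [e])⁻¹ = FreeGroup.mk [(e.1, !e.2)] := by
          rw [FreeGroup.inv_mk]
          simp [FreeGroup.invRev]
        rw [this, FreeGroup.mul_mk, FreeGroup.mul_mk]
        simp
      have g3 : FreeGroup.mk (F' ++ [e]) = FreeGroup.mk F' * FreeGroup.mk [e] := by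
        rw [FreeGroup.mul_mk]
      rw [g2]
      rw [g3] at hp
      rw [← hp]
      group
    obtain ⟨ι, hι⟩ := ih w' LL' c1 c2 hnd' c3 c4 c5
    have hι2 := hι.perm hperm
    have hform : (LL'.map fun p => p.2.formPerm).prod = swap b a * swap a x *
        ((LL1 ++ (F' ++ [e], x :: t) :: LL2).map fun p => p.2.formPerm).prod := by
      rw [hLL']
      simp only [List.map_append, List.map_cons, List.prod_append, List.prod_cons]
      have e1 : (a :: (x :: t ++ [b])).formPerm = swap b a * swap a x * (x :: t).formPerm := by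
        rw [List.formPerm_eq_of_isRotated hnd'' hrot, List.formPerm_cons_cons,
          List.formPerm_cons_cons, mul_assoc]
      rw [e1]
      have hx1 : x ∉ LL1.flatMap Prod.snd := by
        intro hx
        rw [hDe] at hd
        exact (List.nodup_append.1 hd).2.2 x hx x (by simp) rfl
      obtain ⟨Φ, hΦ⟩ : ∃ Φ, Φ = (LL1.map fun p => p.2.formPerm).prod := ⟨_, rfl⟩
      have ka : Φ a = a := by rw [hΦ]; exact prod_formPerm_apply LL1 a ha1
      have kb : Φ b = b := by rw [hΦ]; exact prod_formPerm_apply LL1 b hb1
      have kx : Φ x = x := by rw [hΦ]; exact prod_formPerm_apply LL1 x hx1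
      rw [← hΦ]
      have e2 : Φ * swap b a = swap b a * Φ := by rw [mul_swap_eq_swap_mul, ka, kb]
      have e3 : Φ * swap a x = swap a x * Φ := by rw [mul_swap_eq_swap_mul, ka, kx]
      calc Φ * (swap b a * swap a x * (x :: t).formPerm *
            (LL2.map fun p => p.2.formPerm).prod)
          = (Φ * swap b a) * swap a x * ((x :: t).formPerm *
            (LL2.map fun p => p.2.formPerm).prod) := by simp only [mul_assoc]
        _ = swap b a * (Φ * swap a x) * ((x :: t).formPerm *
            (LL2.map fun p => p.2.formPerm).prod) := by rw [e2]; simp only [mul_assoc]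
        _ = swap b a * swap a x * (Φ * ((x :: t).formPerm *
            (LL2.map fun p => p.2.formPerm).prod)) := by rw [e3]; simp only [mul_assoc]
    rw [hform] at hι2
    have hlen : LL'.length = (LL1 ++ (F' ++ [e], x :: t) :: LL2).length := by
      rw [hLL']; simp
    rw [hlen] at hι2
    obtain ⟨ι', hι'⟩ := good_delete hι2 haD hbD hab (by rw [hDe]; simp)
      (by
        apply prod_formPerm_apply
        rw [← hD]
        exact haD)
      (by
        apply prod_formPerm_apply
        rw [← hD]
        exact hbD)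
      (by rw [w'a, w'b])
    refine ⟨ι', hι'.congr ?_⟩
    intro h hh
    apply w'o
    · rintro rfl
      exact haD hh
    · rintro rfl
      exact hbD hh

end Pl

theorem ncyc_sumCongr_le {H C : Type} [Fintype H] [Fintype C] (σ : Perm H) :
    ncyc (Equiv.sumCongr σ (1 : Perm C)) ≤ ncyc σ + Fintype.card C := by
  have hf : Module.finrank ℚ (invs (Equiv.sumCongr σ (1 : Perm C))) ≤
      Module.finrank ℚ (invs σ × (C → ℚ)) := by
    let T : invs (Equiv.sumCongr σ (1 : Perm C)) →ₗ[ℚ] invs σ × (C → ℚ) :=
      { toFun := fun f => (⟨fun h => f.1 (Sum.inl h), fun h => f.2 (Sum.inl h)⟩,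
          fun c => f.1 (Sum.inr c))
        map_add' := fun f g => rfl
        map_smul' := fun c f => rfl }
    refine LinearMap.finrank_le_finrank_of_injective (f := T) ?_
    intro f g hfg
    have h1 := congrArg Prod.fst hfg
    have h2 := congrArg Prod.snd hfg
    ext k
    rcases k with h | c
    · exact congrFun (congrArg Subtype.val h1) h
    · exact congrFun h2 c
  rw [Module.finrank_prod, finrank_invs, finrank_invs, Module.finrank_fintype_fun_eq_card] at hf
  exact hf

theorem prod_formPerm_apply_mem {K T : Type} [DecidableEq K] (LL : List (T × List K))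
    (hd : (LL.flatMap Prod.snd).Nodup) {p : T × List K} (hp : p ∈ LL) {k : K} (hk : k ∈ p.2) :
    (LL.map fun p => p.2.formPerm).prod k = p.2.formPerm k := by
  induction LL with
  | nil => simp at hp
  | cons q LL ih =>
    rw [List.map_cons, List.prod_cons, Perm.mul_apply]
    rw [List.flatMap_cons, List.nodup_append] at hd
    obtain ⟨_, hd2, hd3⟩ := hd
    rcases List.mem_cons.1 hp with rfl | hp
    · have hk' : k ∉ LL.flatMap Prod.snd := fun h => hd3 k hk k h rfl
      have : ∀ L : List (T × List K), k ∉ L.flatMap Prod.snd →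
          (L.map fun p => p.2.formPerm).prod k = k := by
        intro L
        induction L with
        | nil => intro _; simp
        | cons r L ih' =>
          intro hr
          simp only [List.flatMap_cons, List.mem_append, not_or] at hr
          rw [List.map_cons, List.prod_cons, Perm.mul_apply, ih' hr.2,
            List.formPerm_apply_of_notMem hr.1]
      rw [this LL hk']
    · rw [ih hd2 hp]
      have h1 : p.2.formPerm k ∈ LL.flatMap Prod.snd :=
        List.mem_flatMap.2 ⟨p, hp, List.formPerm_apply_mem_of_mem hk⟩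
      exact List.formPerm_apply_of_notMem fun h => hd3 _ h _ h1 rfl

/-- The list of the points of a cycle. -/
noncomputable def cyc {H : Type} (φ : Perm H) (x : H) : List H :=
  (List.range (Function.minimalPeriod φ x)).map fun i => (φ ^ i) x

theorem mp_pos {H : Type} [Finite H] (φ : Perm H) (x : H) : 0 < Function.minimalPeriod φ x :=
  Function.minimalPeriod_pos_of_mem_periodicPts (φ.injective.mem_periodicPts x)

theorem pow_mod_mp {H : Type} (φ : Perm H) (x : H) (i : ℕ) :
    (φ ^ (i % Function.minimalPeriod φ x)) x = (φ ^ i) x := by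
  have := Function.iterate_mod_minimalPeriod_eq (f := φ) (x := x) (n := i)
  rwa [Perm.iterate_eq_pow, Perm.iterate_eq_pow] at this

theorem nodup_cyc {H : Type} (φ : Perm H) (x : H) : (cyc φ x).Nodup := by
  refine List.Nodup.map_on ?_ List.nodup_range
  intro i hi j hj hij
  have := Function.iterate_injOn_Iio_minimalPeriod (f := φ) (x := x)
    (Set.mem_Iio.2 (List.mem_range.1 hi)) (Set.mem_Iio.2 (List.mem_range.1 hj))
  exact this hij

theorem mem_cyc {H : Type} [Finite H] (φ : Perm H) (x h : H) :
    h ∈ cyc φ x ↔ φ.SameCycle x h := by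
  constructor
  · intro hh
    obtain ⟨i, _, rfl⟩ := List.mem_map.1 hh
    exact ⟨i, by simp⟩
  · intro hh
    obtain ⟨i, rfl⟩ := hh.exists_nat_pow_eq
    refine List.mem_map.2 ⟨i % Function.minimalPeriod φ x,
      List.mem_range.2 (Nat.mod_lt _ (mp_pos φ x)), ?_⟩
    exact pow_mod_mp φ x i

theorem formPerm_cyc {H C : Type} [Finite H] [DecidableEq (H ⊕ C)] (φ : Perm H) {x h : H}
    (hh : h ∈ cyc φ x) :
    ((cyc φ x).map (Sum.inl : H → H ⊕ C)).formPerm (Sum.inl h) = Sum.inl (φ h) := by
  obtain ⟨i, hi, rfl⟩ := List.mem_map.1 hh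
  rw [List.mem_range] at hi
  have hlen : ((cyc φ x).map (Sum.inl : H → H ⊕ C)).length = Function.minimalPeriod φ x := by
    simp [cyc]
  have hnd : ((cyc φ x).map (Sum.inl : H → H ⊕ C)).Nodup :=
    (nodup_cyc φ x).map Sum.inl_injective
  have hget : ∀ (j : ℕ) (hj : j < ((cyc φ x).map (Sum.inl : H → H ⊕ C)).length),
      ((cyc φ x).map (Sum.inl : H → H ⊕ C))[j] = Sum.inl ((φ ^ j) x) := by
    intro j hj
    simp [cyc]
  have := List.formPerm_apply_getElem _ hnd i (by rw [hlen]; exact hi)
  rw [hget, hget] at this
  rw [this, hlen, pow_mod_mp, pow_succ']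
  rfl

theorem mk_map_eq {H X : Type} (g : H → X × Bool) (L : List H) :
    FreeGroup.mk (L.map g) = (L.map fun a => FreeGroup.mk [g a]).prod := by
  induction L with
  | nil => simp [FreeGroup.one_eq_mk]
  | cons a L ih =>
    rw [List.map_cons, List.map_cons, List.prod_cons, ← ih, FreeGroup.mul_mk]
    rfl

end PE

open PE in
/-- If a product of conjugates of cyclic words is trivial in a free group, the letters can be
paired so that the words bound planar surfaces. -/
theorem exists_pairing {H E : Type} [Fintype H] [Nonempty H] {φ : Perm H} {be : E → E} {w : H → E}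
    (be_be : ∀ e, be (be e) = e) (be_ne : ∀ e, be e ≠ e) (h : DepAll φ be w) :
    ∃ ι, Pairing φ ι be w := by
  classical
  -- a code for the letters
  obtain ⟨code, hcode⟩ : ∃ code : E → E × Bool, code = fun e =>
      if WellOrderingRel e (be e) then (e, true) else (be e, false) := ⟨_, rfl⟩
  have code_be : ∀ e, code (be e) = ((code e).1, !(code e).2) := by
    intro e
    rw [hcode]
    simp only [be_be]
    by_cases h1 : WellOrderingRel e (be e)
    · have h2 : ¬ WellOrderingRel (be e) e := fun h2 => asymm h1 h2
      rw [if_pos h1, if_neg h2]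
      rfl
    · have h2 : WellOrderingRel (be e) e := by
        rcases trichotomous_of WellOrderingRel e (be e) with h3 | h3 | h3
        · exact absurd h3 h1
        · exact absurd h3.symm (be_ne e)
        · exact h3
      rw [if_neg h1, if_pos h2]
      rfl
  have code_inj : ∀ e e', code e = code e' → e = e' := by
    intro e e' he
    rw [hcode] at he
    simp only at he
    split_ifs at he with h1 h2 h2
    · exact (Prod.mk.inj he).1
    · exact absurd (Prod.mk.inj he).2 (by simp)
    · exact absurd (Prod.mk.inj he).2 (by simp)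
    · have := (Prod.mk.inj he).1
      rw [← be_be e, this, be_be]
  obtain ⟨L, c, hL, hprod⟩ := h (FreeGroup E) (fun e => FreeGroup.mk [code e]) (by
    intro e
    rw [code_be, FreeGroup.inv_mk]
    simp [FreeGroup.invRev])
  obtain ⟨m, hm⟩ : ∃ m, m = (L.map fun x => (c x).toWord.length).sum := ⟨_, rfl⟩
  -- the big set of darts
  obtain ⟨wK, hwK⟩ : ∃ wK : H ⊕ Fin (2 * m) → E × Bool, wK = Sum.elim (fun h => code (w h))
    (fun _ => code (w (Classical.arbitrary H))) := ⟨_, rfl⟩
  obtain ⟨LL, hLL⟩ : ∃ LL : List (List (E × Bool) × List (H ⊕ Fin (2 * m))),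
    LL = L.map fun x => ((c x).toWord, (cyc φ x).map Sum.inl) := ⟨_, rfl⟩
  have hflat : LL.flatMap Prod.snd = (L.flatMap (cyc φ)).map Sum.inl := by
    rw [hLL, List.flatMap_map, List.map_flatMap]
  have hnd : (L.flatMap (cyc φ)).Nodup := by
    rw [List.nodup_flatMap]
    refine ⟨fun x _ => nodup_cyc φ x, ?_⟩
    refine hL.1.imp_of_mem ?_
    intro x y hx hy hxy
    intro k hkx hky
    rw [mem_cyc] at hkx hky
    exact hxy ((hL.2 k).unique ⟨hx, hkx⟩ ⟨hy, hky⟩)
  have hall : ∀ k, k ∈ L.flatMap (cyc φ) := by
    intro k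
    obtain ⟨x, ⟨hx, hk⟩, _⟩ := hL.2 k
    exact List.mem_flatMap.2 ⟨x, hx, (mem_cyc φ x k).2 hk⟩
  have hlen : (L.flatMap (cyc φ)).length = Fintype.card H := by
    rw [← List.toFinset_card_of_nodup hnd]
    have : (L.flatMap (cyc φ)).toFinset = Finset.univ := by
      ext k
      simp only [List.mem_toFinset, Finset.mem_univ, iff_true]
      exact hall k
    rw [this, Finset.card_univ]
  have hlenL : L.length = ncyc φ := hL.length_eq
  have hLLlen : LL.length = ncyc φ := by rw [hLL, List.length_map, hlenL]
  have hndK : (LL.flatMap Prod.snd).Nodup := by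
    rw [hflat]
    exact hnd.map Sum.inl_injective
  obtain ⟨ι, hι⟩ := good_conj m wK LL
    (by
      rw [hLL, List.map_map, hm]
      rfl)
    (by
      rw [hflat, List.length_map, hlen, Fintype.card_sum, Fintype.card_fin]
      omega)
    hndK
    (by
      intro p hp
      rw [hLL] at hp
      obtain ⟨x, _, rfl⟩ := List.mem_map.1 hp
      have : 0 < (cyc φ x).length := by
        simp only [cyc, List.length_map, List.length_range]
        exact mp_pos φ x
      intro h0
      rw [List.map_eq_nil_iff] at h0
      rw [h0] at this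
      simp at this)
    (by
      rw [hLL]
      intro h0
      rw [List.map_eq_nil_iff] at h0
      have := hall (Classical.arbitrary H)
      rw [h0] at this
      simp at this)
    (by
      rw [hLL, List.map_map, ← hprod]
      refine congrArg List.prod (List.map_congr_left ?_)
      intro x _
      simp only [Function.comp_apply, FreeGroup.mk_toWord, List.map_map]
      congr 2
      rw [mk_map_eq, cprod, cyc, List.map_map]
      refine congrArg List.prod (List.map_congr_left ?_)
      intro i _
      simp only [Function.comp_apply, hwK, Sum.elim_inl])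
  -- the product of the cycles
  have hΦ : (LL.map fun p => p.2.formPerm).prod =
      Equiv.sumCongr φ (1 : Perm (Fin (2 * m))) := by
    ext k
    rcases k with k | k
    · obtain ⟨x, hx, hk⟩ := List.mem_flatMap.1 (hall k)
      have hp : ((c x).toWord, (cyc φ x).map Sum.inl) ∈ LL := by
        rw [hLL]
        exact List.mem_map.2 ⟨x, hx, rfl⟩
      rw [prod_formPerm_apply_mem LL hndK hp (List.mem_map.2 ⟨k, hk, rfl⟩), formPerm_cyc φ hk]
      rfl
    · rw [prod_formPerm_apply LL _ (by rw [hflat]; simp)]
      rfl
  have hmemD : ∀ k, Sum.inl k ∈ LL.flatMap Prod.snd := by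
    intro k
    rw [hflat]
    exact List.mem_map.2 ⟨k, hall k, rfl⟩
  have hex : ∀ k : H, ∃ k', ι (Sum.inl k) = Sum.inl k' := by
    intro k
    have := hι.mem (hmemD k)
    rw [hflat] at this
    obtain ⟨k', _, hk'⟩ := List.mem_map.1 this
    exact ⟨k', hk'.symm⟩
  choose f hf using hex
  have hff : Function.Involutive f := by
    intro k
    apply Sum.inl_injective (β := Fin (2 * m))
    rw [← hf, ← hf, hι.1]
  have hιe : ι = Equiv.sumCongr hff.toPerm (1 : Perm (Fin (2 * m))) := by
    ext k
    rcases k with k | k
    · rw [hf]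
      rfl
    · rw [hι.2.2.1 _ (by rw [hflat]; simp)]
      rfl
  refine ⟨hff.toPerm, hff, ?_, ?_, ?_⟩
  · intro k hk
    apply hι.2.1 _ (hmemD k)
    rw [hf]
    exact congrArg Sum.inl hk
  · intro k
    apply code_inj
    rw [code_be]
    have := hι.2.2.2.1 _ (hmemD k)
    rw [hf, hwK] at this
    exact this
  · have h5 := hι.2.2.2.2
    rw [hΦ, hιe] at h5
    have e : Equiv.sumCongr hff.toPerm (1 : Perm (Fin (2 * m))) * Equiv.sumCongr φ 1 =
        Equiv.sumCongr (hff.toPerm * φ) (1 : Perm (Fin (2 * m))) := by
      ext k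
      rcases k with k | k <;> rfl
    rw [e, hflat, List.length_map, hlen, Fintype.card_sum, hLLlen] at h5
    have := ncyc_sumCongr_le (C := Fin (2 * m)) (hff.toPerm * φ)
    omega

end Pool.Agent.H57.Stall
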