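import Mathlib
import Pool.Agent.H57.Stall.Basic
import Pool.Agent.H57.Stall.Cyc

set_option autoImplicit false

namespace Pool.Agent.H57.Stall

open Equiv

namespace RankAux

open Classical in
/-- Sum over the fibres of the quotient map. -/
noncomputable def fsum {X : Type} [Fintype X] (s : Setoid X) :
    (X → ℚ) →ₗ[ℚ] (Quotient s → ℚ) where
  toFun z v := ∑ x, if Quotient.mk s x = v then z x else 0
  map_add' := by
    intro z z'
    funext v
    simp only [Pi.add_apply, ← Finset.sum_add_distrib]
    refine Finset.sum_congr rfl fun x _ => ?_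
    split_ifs <;> simp
  map_smul' := by
    intro c z
    funext v
    simp only [Pi.smul_apply, smul_eq_mul, RingHom.id_apply, Finset.mul_sum]
    refine Finset.sum_congr rfl fun x _ => ?_
    split_ifs <;> simp

theorem sum_mul_fsum {X : Type} [Fintype X] (s : Setoid X) [Fintype (Quotient s)]
    (g : Quotient s → ℚ) (z : X → ℚ) :
    ∑ v, g v * fsum s z v = ∑ x, g (Quotient.mk s x) * z x := by
  classical
  have h1 : ∀ v, g v * fsum s z v = ∑ x, if Quotient.mk s x = v then g v * z x else 0 := by
    intro v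
    show g v * (∑ x, if Quotient.mk s x = v then z x else 0) = _
    rw [Finset.mul_sum]
    refine Finset.sum_congr rfl fun x _ => ?_
    split_ifs <;> simp
  rw [Finset.sum_congr rfl fun v _ => h1 v, Finset.sum_comm]
  refine Finset.sum_congr rfl fun x _ => ?_
  rw [Finset.sum_ite_eq]
  simp

/-- A space of functions with sum zero is not everything. -/
theorem finrank_succ_le {V : Type} [Fintype V] [Nonempty V] (W : Submodule ℚ (V → ℚ))
    (hW : ∀ x ∈ W, ∑ v, x v = 0) : Module.finrank ℚ W + 1 ≤ Nat.card V := by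
  have hne : W ≠ ⊤ := by
    intro h
    have h1 : (fun _ : V => (1 : ℚ)) ∈ W := by rw [h]; trivial
    have h2 := hW _ h1
    simp at h2
  have h3 := Submodule.finrank_lt hne
  rw [Module.finrank_fintype_fun_eq_card] at h3
  rw [Nat.card_eq_fintype_card]
  exact h3

/-- The antisymmetric functions. -/
def asym {Q : Type} (bq : Q → Q) : Submodule ℚ (Q → ℚ) where
  carrier := {z | ∀ q, z (bq q) = - z q}
  add_mem' := by
    intro f g hf hg h
    simp only [Pi.add_apply, hf h, hg h]
    ring
  zero_mem' := by intro h; simp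
  smul_mem' := by
    intro c f hf h
    simp only [Pi.smul_apply, hf h, smul_eq_mul]
    ring

theorem sum_asym {Q : Type} [Fintype Q] (bq : Q → Q) (h1 : ∀ q, bq (bq q) = q) (f z : Q → ℚ)
    (hz : ∀ q, z (bq q) = - z q) : ∑ q, f (bq q) * z q = - ∑ q, f q * z q := by
  let e : Q ≃ Q := ⟨bq, bq, h1, h1⟩
  rw [← Finset.sum_neg_distrib, ← Equiv.sum_comp e]
  refine Finset.sum_congr rfl fun q _ => ?_
  show f (bq (bq q)) * z (bq q) = - (f q * z q)
  rw [h1, hz]
  ring

theorem sum_asym_zero {Q : Type} [Fintype Q] (bq : Q → Q) (h1 : ∀ q, bq (bq q) = q) (z : Q → ℚ)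
    (hz : ∀ q, z (bq q) = - z q) : ∑ q, z q = 0 := by
  have := sum_asym bq h1 (fun _ => 1) z hz
  simp only [one_mul] at this
  linarith

theorem inv_sameCycle {H A : Type} {φ : Perm H} {f : H → A} (hf : ∀ h, f (φ h) = f h) {x y : H}
    (h : φ.SameCycle x y) : f x = f y := by
  obtain ⟨i, rfl⟩ := h
  let S : Subgroup (Perm H) :=
    { carrier := {σ | ∀ h, f (σ h) = f h}
      mul_mem' := by
        intro a b ha hb h
        rw [Perm.mul_apply, ha, hb]
      one_mem' := by intro h; rfl
      inv_mem' := by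
        intro a ha h
        have h1 := ha (a⁻¹ h)
        have h2 : a (a⁻¹ h) = h := Equiv.apply_symm_apply a h
        rw [h2] at h1
        exact h1.symm }
  have h1 : φ ∈ S := hf
  exact ((S.zpow_mem h1 i) x).symm

end RankAux

open RankAux

variable {H Q E : Type} [Fintype H] [Fintype Q] {φ ι : Perm H} {bq : Q → Q} {γ : H → Q}
  {be : E → E} {ε : Q → E}

/-- The graph `Γ` of a maximal structure has small rank: `|Q| / 2 - |V| + 1 ≤ ncyc φ - 1`. -/
theorem rank_bound (hA : Adm φ bq γ be ε) (hP : Pairing φ ι be fun h => ε (γ h))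
    (hM : Maxl φ ι bq γ be ε) :
    Fintype.card Q + 4 ≤ 2 * (ncyc φ + nV φ bq γ) := by
  classical
  -- nonempty
  have hne : Nonempty H := by
    by_contra h
    rw [not_nonempty_iff] at h
    have h1 := hP.count
    have h2 : ncyc φ = 0 := by
      unfold ncyc
      have : IsEmpty (Quotient (Perm.SameCycle.setoid φ)) :=
        ⟨fun v => by
          induction v using Quotient.inductionOn with
          | _ x => exact h.elim x⟩
      exact Nat.card_of_isEmpty
    have h3 : ncyc (ι * φ) = 0 := by
      unfold ncyc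
      have : IsEmpty (Quotient (Perm.SameCycle.setoid (ι * φ))) :=
        ⟨fun v => by
          induction v using Quotient.inductionOn with
          | _ x => exact h.elim x⟩
      exact Nat.card_of_isEmpty
    rw [h2, h3] at h1
    omega
  obtain ⟨h0⟩ := hne
  have : Nonempty Q := ⟨γ h0⟩
  have hfE : Finite E := Finite.of_surjective (fun h => ε (γ h)) hM.surjE
  have : Fintype E := Fintype.ofFinite E
  -- dimension of the 1-chains
  have d1 : 2 * Module.finrank ℚ (asym bq) = Fintype.card Q :=
    finrank_antisymm bq hA.bq_bq hA.bq_ne (asym bq) fun z => Iff.rfl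
  -- boundary map
  let sV := Vset φ bq γ
  have : Fintype (Quotient sV) := Fintype.ofFinite _
  have : Nonempty (Quotient sV) := ⟨Quotient.mk sV (γ h0)⟩
  let Φ : asym bq →ₗ[ℚ] (Quotient sV → ℚ) := (fsum sV).comp (asym bq).subtype
  have d2 : Module.finrank ℚ (LinearMap.range Φ) + 1 ≤ nV φ bq γ := by
    refine finrank_succ_le _ ?_
    rintro _ ⟨z, rfl⟩
    have h1 := sum_mul_fsum sV (fun _ => 1) (z : Q → ℚ)
    simp only [one_mul] at h1
    show ∑ v, fsum sV (z : Q → ℚ) v = 0
    rw [h1]
    exact sum_asym_zero bq hA.bq_bq _ z.2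
  have d3 := LinearMap.finrank_range_add_finrank_ker Φ
  have hZ : ∀ z ∈ LinearMap.ker Φ, ∀ f : Q → ℚ, TInv φ bq γ f →
      ∑ q, f q * (z : Q → ℚ) q = 0 := by
    intro z hz f hf
    have h1 : fsum sV (z : Q → ℚ) = 0 := hz
    let g : Quotient sV → ℚ := Quotient.lift f fun a b hab => Vrel.eq_of_tinv hab hf
    have h2 := sum_mul_fsum sV g (z : Q → ℚ)
    rw [h1] at h2
    simp only [Pi.zero_apply, mul_zero, Finset.sum_const_zero] at h2
    exact h2.symm
  -- the antisymmetric functions on `E`
  let sH := Perm.SameCycle.setoid φ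
  have : Fintype (Quotient sH) := Fintype.ofFinite _
  have : Nonempty (Quotient sH) := ⟨Quotient.mk sH h0⟩
  let pull : (E → ℚ) →ₗ[ℚ] (H → ℚ) := LinearMap.funLeft ℚ ℚ fun h => ε (γ h)
  let L : asym be →ₗ[ℚ] (Quotient sH → ℚ) := ((fsum sH).comp pull).comp (asym be).subtype
  have d4 : Module.finrank ℚ (LinearMap.range L) + 1 ≤ ncyc φ := by
    refine finrank_succ_le _ ?_
    rintro _ ⟨ρ, rfl⟩
    have h1 := sum_mul_fsum sH (fun _ => 1) (fun h => (ρ : E → ℚ) (ε (γ h)))
    simp only [one_mul] at h1
    show ∑ v, fsum sH (fun h => (ρ : E → ℚ) (ε (γ h))) v = 0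
    rw [h1]
    refine sum_asym_zero (Q := H) ι hP.inv _ fun h => ?_
    have h2 : ε (γ (ι h)) = be (ε (γ h)) := hP.lab h
    rw [h2]
    exact ρ.2 _
  have d5 := LinearMap.finrank_range_add_finrank_ker L
  have hK : ∀ ρ ∈ LinearMap.ker L, ∃ F : E → ℚ, (∀ h, F (be (ε (γ h))) = F (ε (γ (φ h)))) ∧
      ∀ e, (ρ : E → ℚ) e = F (be e) - F e := by
    intro ρ hρ
    refine hM.exact _ ρ.2 fun f hf => ?_
    have h1 : fsum sH (fun h => (ρ : E → ℚ) (ε (γ h))) = 0 := hρ
    let g : Quotient sH → ℚ := Quotient.lift f fun a b hab => inv_sameCycle hf hab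
    have h2 := sum_mul_fsum sH g (fun h => (ρ : E → ℚ) (ε (γ h)))
    rw [h1] at h2
    simp only [Pi.zero_apply, mul_zero, Finset.sum_const_zero] at h2
    exact h2.symm
  -- the pairing
  let P : LinearMap.ker Φ →ₗ[ℚ] Module.Dual ℚ (asym be) :=
    { toFun := fun z =>
        { toFun := fun ρ => ∑ q, (ρ : E → ℚ) (ε q) * (z.1 : Q → ℚ) q
          map_add' := by
            intro a b
            simp only [Submodule.coe_add, Pi.add_apply, add_mul, Finset.sum_add_distrib]
          map_smul' := by
            intro c a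
            simp only [Submodule.coe_smul, Pi.smul_apply, smul_eq_mul, RingHom.id_apply,
              Finset.mul_sum, mul_assoc] }
      map_add' := by
        intro a b
        ext ρ
        simp only [Submodule.coe_add, Pi.add_apply, mul_add, Finset.sum_add_distrib,
          LinearMap.coe_mk, AddHom.coe_mk, LinearMap.add_apply]
      map_smul' := by
        intro c a
        ext ρ
        simp only [Submodule.coe_smul, Pi.smul_apply, smul_eq_mul, RingHom.id_apply,
          LinearMap.coe_mk, AddHom.coe_mk, LinearMap.smul_apply, Finset.mul_sum]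
        refine Finset.sum_congr rfl fun q _ => ?_
        ring }
  have hPapp : ∀ (z : LinearMap.ker Φ) (ρ : asym be),
      P z ρ = ∑ q, (ρ : E → ℚ) (ε q) * (z.1 : Q → ℚ) q := fun _ _ => rfl
  have hPinj : Function.Injective P := by
    rw [injective_iff_map_eq_zero]
    intro z hz
    have h1 : ∀ q, (z.1 : Q → ℚ) q = 0 := by
      refine hA.inj _ z.1.2 (hZ z.1 z.2) fun g => ?_
      have h2 : (fun e => g e - g (be e)) ∈ asym be := by
        intro e
        show g (be e) - g (be (be e)) = - (g e - g (be e))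
        rw [hA.be_be]
        ring
      have h3 : P z ⟨_, h2⟩ = 0 := by rw [hz]; rfl
      rw [hPapp] at h3
      have h4 : ∑ q, g (ε (bq q)) * (z.1 : Q → ℚ) q = - ∑ q, g (ε q) * (z.1 : Q → ℚ) q :=
        sum_asym bq hA.bq_bq (fun q => g (ε q)) _ z.1.2
      have h5 : ∑ q, (g (ε q) - g (be (ε q))) * (z.1 : Q → ℚ) q =
          ∑ q, g (ε q) * (z.1 : Q → ℚ) q - ∑ q, g (ε (bq q)) * (z.1 : Q → ℚ) q := by
        rw [← Finset.sum_sub_distrib]
        refine Finset.sum_congr rfl fun q _ => ?_
        rw [hA.eps_bq]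
        ring
      have h6 : ∑ q, (g (ε q) - g (be (ε q))) * (z.1 : Q → ℚ) q = 0 := h3
      linarith
    apply Subtype.ext
    apply Subtype.ext
    funext q
    exact h1 q
  have hPran : LinearMap.range P ≤ (LinearMap.ker L).dualAnnihilator := by
    rintro _ ⟨z, rfl⟩
    rw [Submodule.mem_dualAnnihilator]
    intro ρ hρ
    obtain ⟨F, hF1, hF2⟩ := hK ρ hρ
    rw [hPapp]
    have h1 : ∑ q, F (ε q) * (z.1 : Q → ℚ) q = 0 := hZ z.1 z.2 _ (hA.tinv_comp hF1)
    have h4 : ∑ q, F (ε (bq q)) * (z.1 : Q → ℚ) q = - ∑ q, F (ε q) * (z.1 : Q → ℚ) q :=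
      sum_asym bq hA.bq_bq (fun q => F (ε q)) _ z.1.2
    have h5 : ∑ q, (ρ : E → ℚ) (ε q) * (z.1 : Q → ℚ) q =
        ∑ q, F (ε (bq q)) * (z.1 : Q → ℚ) q - ∑ q, F (ε q) * (z.1 : Q → ℚ) q := by
      rw [← Finset.sum_sub_distrib]
      refine Finset.sum_congr rfl fun q _ => ?_
      rw [hA.eps_bq, hF2]
      ring
    rw [h5, h4, h1]
    ring
  have d6 : Module.finrank ℚ (LinearMap.ker Φ) ≤
      Module.finrank ℚ (LinearMap.ker L).dualAnnihilator := by
    rw [← LinearMap.finrank_range_of_inj hPinj]
    exact Submodule.finrank_mono hPran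
  have d7 := Subspace.finrank_add_finrank_dualAnnihilator_eq (LinearMap.ker L)
  omega

/-- The graph `T` has rank at least `ncyc φ - 1`. -/
theorem card_E_ge (hA : Adm φ bq γ be ε) [Finite E] (hs : ∀ e, ∃ h, ε (γ h) = e) :
    2 * ncyc φ ≤ Nat.card E + 2 := by
  have _ := hs
  classical
  have : Fintype E := Fintype.ofFinite E
  rcases isEmpty_or_nonempty H with hH | ⟨⟨h0⟩⟩
  · have h2 : ncyc φ = 0 := by
      unfold ncyc
      have : IsEmpty (Quotient (Perm.SameCycle.setoid φ)) :=
        ⟨fun v => by
          induction v using Quotient.inductionOn with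
          | _ x => exact hH.elim x⟩
      exact Nat.card_of_isEmpty
    omega
  have d1 : 2 * Module.finrank ℚ (asym be) = Fintype.card E :=
    finrank_antisymm be hA.be_be hA.be_ne (asym be) fun z => Iff.rfl
  have d2 := finrank_invs φ
  -- chains of darts
  let ch : ∀ {X : Type} [DecidableEq X] (bx : X → X) (g : H → X) (a : H → ℚ), X → ℚ :=
    fun bx g a x => ∑ h, a h * ((if g h = x then 1 else 0) - (if g h = bx x then 1 else 0))
  have hch : ∀ {X : Type} [Fintype X] [DecidableEq X] (bx : X → X) (hb : ∀ x, bx (bx x) = x)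
      (g : H → X) (a : H → ℚ) (f : X → ℚ),
      ∑ x, f x * ch bx g a x = ∑ h, a h * (f (g h) - f (bx (g h))) := by
    intro X _ _ bx hb g a f
    have h1 : ∀ x, f x * ch bx g a x = ∑ h, a h * ((if g h = x then f x else 0) -
        (if bx (g h) = x then f x else 0)) := by
      intro x
      show f x * (∑ h, a h * ((if g h = x then 1 else 0) - (if g h = bx x then 1 else 0))) = _
      rw [Finset.mul_sum]
      refine Finset.sum_congr rfl fun h _ => ?_
      have h2 : (g h = bx x) ↔ (bx (g h) = x) :=
        ⟨fun h' => by rw [h', hb], fun h' => by rw [← h', hb]⟩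
      simp only [h2]
      split_ifs <;> ring
    rw [Finset.sum_congr rfl fun x _ => h1 x, Finset.sum_comm]
    refine Finset.sum_congr rfl fun h _ => ?_
    rw [← Finset.mul_sum, Finset.sum_sub_distrib, Finset.sum_ite_eq, Finset.sum_ite_eq]
    simp
  have hanti : ∀ {X : Type} [DecidableEq X] (bx : X → X) (hb : ∀ x, bx (bx x) = x)
      (g : H → X) (a : H → ℚ) (x : X), ch bx g a (bx x) = - ch bx g a x := by
    intro X _ bx hb g a x
    show (∑ h, a h * ((if g h = bx x then 1 else 0) - (if g h = bx (bx x) then 1 else 0))) =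
      - (∑ h, a h * ((if g h = x then 1 else 0) - (if g h = bx x then 1 else 0)))
    rw [hb, ← Finset.sum_neg_distrib]
    refine Finset.sum_congr rfl fun h _ => ?_
    ring
  let D : invs φ →ₗ[ℚ] asym be :=
    { toFun := fun a => ⟨ch be (fun h => ε (γ h)) a, hanti be hA.be_be _ _⟩
      map_add' := by
        intro a b
        apply Subtype.ext
        funext x
        show ch be (fun h => ε (γ h)) (a + b) x = ch be (fun h => ε (γ h)) a x +
          ch be (fun h => ε (γ h)) b x
        simp only [ch, Pi.add_apply, add_mul, Finset.sum_add_distrib]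
      map_smul' := by
        intro c a
        apply Subtype.ext
        funext x
        show ch be (fun h => ε (γ h)) (c • a) x = c * ch be (fun h => ε (γ h)) a x
        simp only [ch, Pi.smul_apply, smul_eq_mul, mul_assoc, Finset.mul_sum] }
  have hker : ∀ a ∈ LinearMap.ker D, ∀ h h', (a : H → ℚ) h = (a : H → ℚ) h' := by
    intro a ha
    have ha0 : ch be (fun h => ε (γ h)) a = 0 := congrArg Subtype.val ha
    have hz : ∀ q, ch bq γ a q = 0 := by
      refine hA.inj _ (hanti bq hA.bq_bq _ _) ?_ ?_
      · intro f hf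
        rw [hch bq hA.bq_bq]
        have h1 : ∀ h, (a : H → ℚ) h * (f (γ h) - f (bq (γ h))) =
            (a : H → ℚ) h * f (γ h) - (a : H → ℚ) (φ h) * f (γ (φ h)) := by
          intro h
          rw [hf h, a.2 h]
          ring
        rw [Finset.sum_congr rfl fun h _ => h1 h, Finset.sum_sub_distrib,
          Equiv.sum_comp φ fun h => (a : H → ℚ) h * f (γ h), sub_self]
      · intro g
        rw [hch bq hA.bq_bq γ a fun q => g (ε q)]
        have h1 := hch be hA.be_be (fun h => ε (γ h)) a g
        rw [ha0] at h1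
        simp only [Pi.zero_apply, mul_zero, Finset.sum_const_zero] at h1
        rw [h1]
        refine Finset.sum_congr rfl fun h _ => ?_
        rw [hA.eps_bq]
    refine hA.ind _ a.2 fun g hg => ?_
    have h1 := hch bq hA.bq_bq γ a g
    simp only [hz, mul_zero, Finset.sum_const_zero, hg, sub_neg_eq_add] at h1
    have h2 : ∑ h, (a : H → ℚ) h * (g (γ h) + g (γ h)) =
        2 * ∑ h, g (γ h) * (a : H → ℚ) h := by
      rw [Finset.mul_sum]
      refine Finset.sum_congr rfl fun h _ => ?_
      ring
    rw [h2] at h1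
    linarith
  have d3 := LinearMap.finrank_range_add_finrank_ker D
  have d4 : Module.finrank ℚ (LinearMap.ker D) ≤ 1 := by
    let ev : LinearMap.ker D →ₗ[ℚ] ℚ :=
      ((LinearMap.proj h0).comp (invs φ).subtype).comp (LinearMap.ker D).subtype
    have hinj : Function.Injective ev := by
      rw [injective_iff_map_eq_zero]
      intro a ha
      have ha' : (a.1 : H → ℚ) h0 = 0 := ha
      apply Subtype.ext
      apply Subtype.ext
      funext h
      show (a.1 : H → ℚ) h = 0
      rw [hker a.1 a.2 h h0, ha']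
    have := LinearMap.finrank_le_finrank_of_injective hinj
    simpa using this
  have d5 : Module.finrank ℚ (LinearMap.range D) ≤ Module.finrank ℚ (asym be) :=
    Submodule.finrank_le _
  rw [Nat.card_eq_fintype_card]
  omega

end Pool.Agent.H57.Stall
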