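import Mathlib
import Pool.Agent.H57.Stall.Maximal
import Pool.Agent.H57.Stall.Forest
import Pool.Agent.H57.Stall.Blow
import Pool.Agent.H57.Stall.PairExists
import Pool.Agent.H57.Stall.Rank

set_option autoImplicit false

namespace Pool.Agent.H57.Stall

open Equiv

/-- A counterexample with the minimal number `L` of darts, with a maximal structure. -/
structure MinCfg {H Q E : Type} [Fintype H] [Fintype Q] (L : ℕ) (φ ι : Perm H) (bq : Q → Q)
    (γ : H → Q) (be : E → E) (ε : Q → E) : Prop where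
  ctr : Ctr φ bq γ be ε
  pair : Pairing φ ι be fun h => ε (γ h)
  maxl : Maxl φ ι bq γ be ε
  card : Fintype.card H = L
  min : ∀ N, N < L → ¬ CtrAt N

theorem exists_minCfg (h : ∃ N, CtrAt N) :
    ∃ (L : ℕ) (H Q E : Type) (_ : Fintype H) (_ : Fintype Q) (φ ι : Perm H) (bq : Q → Q)
      (γ : H → Q) (be : E → E) (ε : Q → E), MinCfg L φ ι bq γ be ε := by
  classical
  have h1 := Nat.find_spec h
  have h2 : ∀ N, N < Nat.find h → ¬ CtrAt N := fun N hN => Nat.find_min h hN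
  obtain ⟨H, Q, E, fH, fQ, φ, bq, γ, be, ε, hcard, hC⟩ := h1
  have hne : Nonempty H := by
    by_contra hemp
    rw [not_nonempty_iff] at hemp
    apply hC.ndep
    intro G _ l _
    exact ⟨[], fun _ => 1, ⟨List.nodup_nil, fun x => (hemp.false x).elim⟩, by simp⟩
  obtain ⟨ι, hP⟩ := exists_pairing hC.adm.be_be hC.adm.be_ne hC.dep
  obtain ⟨Q', E', fQ', bq', γ', be', ε', π, τ, hA', hP', hR, hM⟩ := exists_maximal hC.adm hP
  refine ⟨Nat.find h, H, Q', E', fH, fQ', φ, ι, bq', γ', be', ε', ⟨hA', hA'.depAll hP', ?_⟩,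
    hP', hM, hcard, h2⟩
  intro hD
  apply hC.ndep
  have h3 := DepAll.map π hR.pi_bq hD
  have h4 : (fun x => π (γ' x)) = γ := funext hR.pi_gam
  rw [h4] at h3
  exact h3

variable {H Q E : Type} [Fintype H] [Fintype Q] {L : ℕ} {φ ι : Perm H} {bq : Q → Q} {γ : H → Q}
  {be : E → E} {ε : Q → E}

/-- The Whitehead graph is connected. -/
theorem MinCfg.conn (hm : MinCfg L φ ι bq γ be ε) (c : E → Prop)
    (hc : ∀ h, c (be (ε (γ h))) = c (ε (γ (φ h)))) : ∀ e e', c e = c e' := by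
  classical
  have hbe : ∀ e, c (be e) = c e := by
    intro e
    by_contra hne
    obtain ⟨Q', fQ', fH', φ', bq', γ', ε', hC', _, _⟩ :=
      collapse hm.ctr e c hc (fun h => hne h.symm)
    refine hm.min (Fintype.card {h : H // ε (γ h) ≠ e ∧ ε (γ h) ≠ be e}) ?_
      ⟨_, Q', E, fH', fQ', φ', bq', γ', be, ε', rfl, hC'⟩
    rw [← hm.card]
    obtain ⟨h, hh⟩ := hm.maxl.surjE e
    have h1 := Fintype.card_subtype_lt (p := fun h : H => ε (γ h) ≠ e ∧ ε (γ h) ≠ be e) (x := h)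
      (fun h2 => h2.1 hh)
    convert h1
  let f : H → ℚ := fun h => if c (ε (γ h)) then 1 else 0
  have hf1 : ∀ h, f (φ h) = f h := by
    intro h
    show (if c (ε (γ (φ h))) then (1 : ℚ) else 0) = if c (ε (γ h)) then 1 else 0
    have h1 : c (ε (γ (φ h))) = c (ε (γ h)) := by rw [← hc, hbe]
    simp only [h1]
  have hf2 : ∀ h, f (ι h) = f h := by
    intro h
    show (if c (ε (γ (ι h))) then (1 : ℚ) else 0) = if c (ε (γ h)) then 1 else 0
    have h0 : ε (γ (ι h)) = be (ε (γ h)) := hm.pair.lab h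
    have h1 : c (ε (γ (ι h))) = c (ε (γ h)) := by rw [h0, hbe]
    simp only [h1]
  have hconst := hm.ctr.adm.trans hm.pair f hf1 hf2
  intro e e'
  obtain ⟨h, rfl⟩ := hm.maxl.surjE e
  obtain ⟨h', rfl⟩ := hm.maxl.surjE e'
  have h3 : (if c (ε (γ h)) then (1 : ℚ) else 0) = if c (ε (γ h')) then 1 else 0 := hconst h h'
  by_cases h4 : c (ε (γ h)) <;> by_cases h5 : c (ε (γ h'))
  · exact propext ⟨fun _ => h5, fun _ => h4⟩
  · rw [if_pos h4, if_neg h5] at h3; exact absurd h3 one_ne_zero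
  · rw [if_neg h4, if_pos h5] at h3; exact absurd h3 zero_ne_one
  · exact propext ⟨fun h => absurd h h4, fun h => absurd h h5⟩

end Pool.Agent.H57.Stall
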