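import Mathlib
import Pool.Agent.H57.Stall.MinCfg

set_option autoImplicit false

namespace Pool.Agent.H57.Stall

open Equiv

variable {H Q E : Type} [Fintype H] [Fintype Q] {L : ℕ} {φ ι : Perm H} {bq : Q → Q} {γ : H → Q}
  {be : E → E} {ε : Q → E}

open Classical in
/-- Counting the darts of the blow-up which do not lie over `e₀` or `be e₀`. -/
theorem card_blow_compl (φ : Perm H) (be : E → E) (w : H → E) (pos : E → ℕ) (i : E)
    (p : BH φ be w pos → Prop)
    (hp : ∀ k, p k ↔ (Bw φ be w pos k ≠ Sum.inl i ∧ Bw φ be w pos k ≠ Sum.inl (be i))) :
    Nat.card {k : BH φ be w pos // p k} =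
      ∑ h, ((if w h = i ∨ w h = be i then 0 else 1) + gap φ be w pos h) := by
  rw [Nat.card_eq_fintype_card, Fintype.card_subtype, Finset.card_filter, Fintype.sum_sigma]
  refine Finset.sum_congr rfl fun h _ => ?_
  rw [Fin.sum_univ_succ]
  congr 1
  · have : p ⟨h, 0⟩ ↔ ¬ (w h = i ∨ w h = be i) := by
      rw [hp]
      simp [Bw, not_or]
    by_cases hh : w h = i ∨ w h = be i
    · rw [if_neg (by rw [this]; exact not_not.mpr hh), if_pos hh]
    · rw [if_pos (this.mpr hh), if_neg hh]
  · have : ∀ j : Fin (gap φ be w pos h), p ⟨h, j.succ⟩ := by
      intro j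
      rw [hp]
      unfold Bw
      have hj : ¬ ((j.succ : Fin (gap φ be w pos h + 1)) : ℕ) = 0 := by simp
      simp only [hj, if_false]
      split_ifs <;> simp
    simp [this]

/-- The Whitehead graph has no cut vertex. -/
theorem MinCfg.nocut (hm : MinCfg L φ ι bq γ be ε) (i : E) (c : E → Prop)
    (hc : ∀ h, be (ε (γ h)) ≠ i → ε (γ (φ h)) ≠ i → c (be (ε (γ h))) = c (ε (γ (φ h)))) :
    ∀ e e', e ≠ i → e' ≠ i → c e = c e' := by
  classical
  by_contra hcon
  push Not at hcon
  obtain ⟨a, b, ha, hb, hab⟩ := hcon
  have hadm := hm.ctr.adm
  -- an element of `J'`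
  obtain ⟨x, hxi, hxc⟩ : ∃ x, x ≠ i ∧ c x ≠ c (be i) := by
    by_cases h1 : c a = c (be i)
    · exact ⟨b, hb, fun h2 => hab (h1.trans h2.symm)⟩
    · exact ⟨a, ha, h1⟩
  set w : H → E := fun h => ε (γ h) with hw
  set pos : E → ℕ := fun e => if e = i ∨ c e ≠ c (be i) then 0 else 1 with hpos
  have posi : pos i = 0 := by simp [hpos]
  have posbi : pos (be i) = 1 := by
    have : be i ≠ i := hadm.be_ne i
    simp [hpos, this]
  have pos_le : ∀ e, pos e ≤ 1 := by
    intro e
    simp only [hpos]
    split_ifs <;> omega
  obtain ⟨Q', hQ', bq', γ', ε', hC', hγ'⟩ := blow hm.ctr pos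
  have hcc : ∀ k, (Blev pos (Bbe be (ε' (γ' k))) = 0) =
      (Blev pos (ε' (γ' (Bφ φ be (fun h => ε (γ h)) pos k))) = 0) := by
    intro k
    rw [hγ', hγ', Blev_turn]
  have hne : (Blev pos (Sum.inl i : E ⊕ (ℕ × Bool)) = 0) ≠ (Blev pos (Bbe be (Sum.inl i)) = 0) := by
    simp only [Blev, Bbe, posi, posbi]
    simp
  obtain ⟨Q'', hQ'', hF, φ', bq'', γ'', ε'', hC'', -, -⟩ :=
    collapse hC' (Sum.inl i) (fun x => Blev pos x = 0) hcc hne
  -- the count
  have key : Nat.card {k : BH φ be (fun h => ε (γ h)) pos //
      ε' (γ' k) ≠ Sum.inl i ∧ ε' (γ' k) ≠ Bbe be (Sum.inl i)} < Fintype.card H := by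
    rw [card_blow_compl φ be w pos i _ (fun k => by rw [hγ' k]; rfl)]
    -- crossing
    have hgap : ∀ h, gap φ be w pos h ≤
        (if w h = be i then 1 else 0) + (if w (φ h) = i then 1 else 0) := by
      intro h
      by_cases h1 : w h = be i
      · rw [if_pos h1]
        have := pos_le (w (φ h))
        have := pos_le (be (w h))
        unfold gap
        split_ifs <;> omega
      · by_cases h2 : w (φ h) = i
        · rw [if_pos h2]
          have := pos_le (w (φ h))
          have := pos_le (be (w h))
          unfold gap
          split_ifs <;> omega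
        · have h3 : be (w h) ≠ i := by
            intro h4
            apply h1
            rw [← h4, hadm.be_be]
          have h5 := hc h h3 h2
          have h6 : pos (be (w h)) = pos (w (φ h)) := by
            simp only [hpos, h3, h2, false_or]
            rw [show c (be (w h)) = c (w (φ h)) from h5]
          unfold gap
          rw [h6]
          simp
    have hex : ∃ h, gap φ be w pos h <
        (if w h = be i then 1 else 0) + (if w (φ h) = i then 1 else 0) := by
      by_contra hno
      push Not at hno
      have hconn := hm.conn (fun e => e ≠ i ∧ c e ≠ c (be i)) (by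
        intro h
        have hh := hno h
        by_cases h1 : be (w h) = i
        · have h1' : w h = be i := by rw [← h1, hadm.be_be]
          rw [if_pos h1'] at hh
          -- crossing
          have h2 : pos (w (φ h)) = 1 := by
            have hp0 : pos (be (w h)) = 0 := by rw [h1, posi]
            have := pos_le (w (φ h))
            unfold gap at hh
            rw [hp0] at hh
            split_ifs at hh <;> omega
          have h3 : ¬ (w (φ h) = i ∨ c (w (φ h)) ≠ c (be i)) := by
            intro h4
            simp only [hpos] at h2
            rw [if_pos h4] at h2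
            omega
          push Not at h3
          apply propext
          constructor
          · intro h4
            exact absurd h1 h4.1
          · intro h4
            exact absurd h3.2 h4.2
        · by_cases h1b : w (φ h) = i
          · rw [if_pos h1b] at hh
            have h2 : pos (be (w h)) = 1 := by
              have hp0 : pos (w (φ h)) = 0 := by rw [h1b, posi]
              have := pos_le (be (w h))
              unfold gap at hh
              rw [hp0] at hh
              split_ifs at hh <;> omega
            have h3 : ¬ (be (w h) = i ∨ c (be (w h)) ≠ c (be i)) := by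
              intro h4
              simp only [hpos] at h2
              rw [if_pos h4] at h2
              omega
            push Not at h3
            apply propext
            constructor
            · intro h4
              exact absurd h3.2 h4.2
            · intro h4
              exact absurd h1b h4.1
          · have h5 := hc h h1 h1b
            apply propext
            constructor
            · intro h4
              exact ⟨h1b, by rw [← h5]; exact h4.2⟩
            · intro h4
              exact ⟨h1, by rw [h5]; exact h4.2⟩)
      have h1 := hconn x i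
      have h2 : (x ≠ i ∧ c x ≠ c (be i)) := ⟨hxi, hxc⟩
      rw [h1] at h2
      exact h2.1 rfl
    obtain ⟨h0, hh0⟩ := hex
    have hsum : ∑ h, gap φ be w pos h <
        ∑ h, ((if w h = be i then 1 else 0) + (if w (φ h) = i then 1 else 0)) :=
      Finset.sum_lt_sum (fun h _ => hgap h) ⟨h0, Finset.mem_univ _, hh0⟩
    have hre : ∑ h, (if w (φ h) = i then 1 else 0) = ∑ h, (if w h = i then 1 else 0) :=
      Equiv.sum_comp φ (fun h => if w h = i then 1 else 0)
    rw [Finset.sum_add_distrib, hre] at hsum
    have hsplit : ∑ h : H, (if w h = i ∨ w h = be i then 1 else 0) =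
        ∑ h, (if w h = be i then 1 else 0) + ∑ h, (if w h = i then 1 else 0) := by
      rw [← Finset.sum_add_distrib]
      refine Finset.sum_congr rfl fun h _ => ?_
      have hne' : be i ≠ i := hadm.be_ne i
      by_cases h1 : w h = i
      · have h2 : w h ≠ be i := by rw [h1]; exact hne'.symm
        simp [h1, hne'.symm]
      · by_cases h2 : w h = be i
        · simp [h2, hne']
        · simp [h1, h2]
    have hcard : ∑ h : H, ((if w h = i ∨ w h = be i then 0 else 1) +
        (if w h = i ∨ w h = be i then 1 else 0)) = Fintype.card H := by
      rw [Fintype.card_eq_sum_ones]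
      refine Finset.sum_congr rfl fun h _ => ?_
      split_ifs <;> rfl
    rw [Finset.sum_add_distrib] at hcard ⊢
    omega
  rw [hm.card] at key
  refine hm.min _ key ⟨_, Q'', _, hF, hQ'', φ', bq'', γ'', _, ε'', ?_, hC''⟩
  rw [Nat.card_eq_fintype_card]

end Pool.Agent.H57.Stall
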