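import Mathlib

set_option autoImplicit false

namespace Pool.Agent.H57.Stall

namespace Order85

/-- `[y, x]` is a sublist if `x` occurs after `y`. -/
lemma pair_sub {E : Type} {l₁ l₂ : List E} {y x : E} (hx : x ∈ l₂) :
    List.Sublist [y, x] (l₁ ++ y :: l₂) :=
  ((List.singleton_sublist.2 hx).cons_cons y).trans (List.sublist_append_right _ _)

lemma pair_split {E : Type} {L : List E} {a b : E} (h : List.Sublist [a, b] L) :
    ∃ l₁ l₂, L = l₁ ++ a :: l₂ ∧ b ∈ l₂ := by
  obtain ⟨r₁, r₂, rfl, ha, hb⟩ := List.cons_sublist_iff.1 h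
  obtain ⟨u, v, rfl⟩ := List.append_of_mem ha
  refine ⟨u, v ++ r₂, by simp, ?_⟩
  exact List.mem_append_right _ (List.singleton_sublist.1 hb)

lemma pair_total {E : Type} {L : List E} {a b : E} (ha : a ∈ L) (hb : b ∈ L) (hab : a ≠ b) :
    List.Sublist [a, b] L ∨ List.Sublist [b, a] L := by
  obtain ⟨u, v, rfl⟩ := List.append_of_mem ha
  rcases List.mem_append.1 hb with h | h
  · right
    obtain ⟨u', v', rfl⟩ := List.append_of_mem h
    have : (u' ++ b :: v') ++ a :: v = u' ++ b :: (v' ++ a :: v) := by simp
    rw [this]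
    exact pair_sub (by simp)
  · left
    rcases List.mem_cons.1 h with h | h
    · exact absurd h.symm hab
    · exact pair_sub h

/-- Partial orders of vertices such that everything except `s` has an earlier neighbour and
everything except `t` has a later one. -/
structure Valid {E : Type} (A : E → E → Prop) (s t : E) (L : List E) : Prop where
  nodup : L.Nodup
  hs : s ∈ L
  ht : t ∈ L
  pre : ∀ x ∈ L, x ≠ s → ∃ y, List.Sublist [y, x] L ∧ A y x
  post : ∀ x ∈ L, x ≠ t → ∃ y, List.Sublist [x, y] L ∧ A x y

lemma insert {E : Type} {A : E → E → Prop} {s t : E} {L : List E} (hL : Valid A s t L)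
    {a b : E} (hab : List.Sublist [a, b] L) {P : List E} (hP : P.Nodup)
    (hd : ∀ x ∈ P, x ∉ L) (hch : List.IsChain A (a :: (P ++ [b]))) :
    ∃ L' : List E, Valid A s t L' ∧ L'.length = L.length + P.length := by
  obtain ⟨l₁, l₂, rfl, hb⟩ := pair_split hab
  have hsub : List.Sublist (l₁ ++ a :: l₂) (l₁ ++ a :: (P ++ l₂)) := by
    apply List.Sublist.append (List.Sublist.refl _)
    exact (List.sublist_append_right P l₂).cons_cons a
  have hmem : ∀ x, x ∈ l₁ ++ a :: (P ++ l₂) → x ∈ l₁ ++ a :: l₂ ∨ x ∈ P := by
    intro x hx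
    simp only [List.mem_append, List.mem_cons] at hx ⊢
    tauto
  refine ⟨l₁ ++ a :: (P ++ l₂), ⟨?_, hsub.subset hL.hs, hsub.subset hL.ht, ?_, ?_⟩, ?_⟩
  · have h1 := hL.nodup
    have hperm : List.Perm (l₁ ++ a :: (P ++ l₂)) (P ++ (l₁ ++ a :: l₂)) := by
      have h2 : List.Perm (a :: (P ++ l₂)) (P ++ (a :: l₂)) := List.perm_middle.symm
      refine (h2.append_left l₁).trans ?_
      rw [← List.append_assoc, ← List.append_assoc]
      exact List.perm_append_comm.append_right _
    rw [hperm.nodup_iff]
    exact List.nodup_append.2 ⟨hP, h1, fun x hx y hy hxy => hd x hx (hxy ▸ hy)⟩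
  · intro x hx hxs
    by_cases hxL : x ∈ l₁ ++ a :: l₂
    · obtain ⟨y, hy, hA⟩ := hL.pre x hxL hxs
      exact ⟨y, hy.trans hsub, hA⟩
    · have hxP : x ∈ P := (hmem x hx).resolve_left hxL
      obtain ⟨P₁, P₂, rfl⟩ := List.append_of_mem hxP
      obtain ⟨Z, y, hZ⟩ : ∃ Z y, a :: P₁ = Z ++ [y] :=
        ⟨(a :: P₁).dropLast, (a :: P₁).getLast (by simp), (List.dropLast_append_getLast _).symm⟩
      have e1 : a :: (P₁ ++ x :: P₂ ++ [b]) = Z ++ y :: x :: (P₂ ++ [b]) := by
        have : a :: (P₁ ++ x :: P₂ ++ [b]) = (a :: P₁) ++ x :: (P₂ ++ [b]) := by simp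
        rw [this, hZ]; simp
      have e2 : l₁ ++ a :: (P₁ ++ x :: P₂ ++ l₂) = (l₁ ++ Z) ++ y :: x :: (P₂ ++ l₂) := by
        have : l₁ ++ a :: (P₁ ++ x :: P₂ ++ l₂) = l₁ ++ ((a :: P₁) ++ x :: (P₂ ++ l₂)) := by simp
        rw [this, hZ]; simp
      refine ⟨y, ?_, ?_⟩
      · rw [e2]
        exact pair_sub (by simp)
      · rw [e1] at hch
        have h3 := (List.isChain_append.1 hch).2.1
        exact (List.isChain_cons_cons.1 h3).1
  · intro x hx hxt
    by_cases hxL : x ∈ l₁ ++ a :: l₂
    · obtain ⟨y, hy, hA⟩ := hL.post x hxL hxt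
      exact ⟨y, hy.trans hsub, hA⟩
    · have hxP : x ∈ P := (hmem x hx).resolve_left hxL
      obtain ⟨P₁, P₂, rfl⟩ := List.append_of_mem hxP
      obtain ⟨y, Z, hZ⟩ : ∃ y Z, P₂ ++ [b] = y :: Z := by
        cases P₂ with
        | nil => exact ⟨b, [], rfl⟩
        | cons y Z => exact ⟨y, Z ++ [b], rfl⟩
      have hyb : y ∈ P₂ ∨ y = b := by
        have : y ∈ P₂ ++ [b] := by rw [hZ]; simp
        simpa using this
      have e1 : a :: (P₁ ++ x :: P₂ ++ [b]) = (a :: P₁) ++ x :: y :: Z := by
        rw [← hZ]; simp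
      refine ⟨y, ?_, ?_⟩
      · have e2 : l₁ ++ a :: (P₁ ++ x :: P₂ ++ l₂) = (l₁ ++ a :: P₁) ++ x :: (P₂ ++ l₂) := by simp
        rw [e2]
        apply pair_sub
        rcases hyb with h | h
        · exact List.mem_append_left _ h
        · exact List.mem_append_right _ (h ▸ hb)
      · rw [e1] at hch
        have h3 := (List.isChain_append.1 hch).2.1
        exact (List.isChain_cons_cons.1 h3).1
  · simp only [List.length_append, List.length_cons]; omega

end Order85

open Order85 in
/-- A finite connected graph without cut vertex has an ordering such that all initial and all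
final segments are connected. -/
theorem exists_order {E : Type} [Finite E] (R : E → E → Prop) (hcard : 2 ≤ Nat.card E)
    (conn : ∀ c : E → Prop, (∀ a b, R a b → c a = c b) → ∀ a b, c a = c b)
    (nocut : ∀ (i : E) (c : E → Prop), (∀ a b, R a b → a ≠ i → b ≠ i → c a = c b) →
      ∀ a b, a ≠ i → b ≠ i → c a = c b) :
    ∃ pos : E → ℕ, Function.Injective pos ∧ (∀ e, pos e < Nat.card E) ∧
      (∀ (m : ℕ) (c : E → Prop), (∀ a b, R a b → pos a ≤ m → pos b ≤ m → c a = c b) →
        ∀ a b, pos a ≤ m → pos b ≤ m → c a = c b) ∧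
      (∀ (m : ℕ) (c : E → Prop), (∀ a b, R a b → m ≤ pos a → m ≤ pos b → c a = c b) →
        ∀ a b, m ≤ pos a → m ≤ pos b → c a = c b) := by
  classical
  have := Fintype.ofFinite E
  set G : SimpleGraph E := SimpleGraph.fromRel R with hG
  have hGadj : ∀ a b, G.Adj a b ↔ a ≠ b ∧ (R a b ∨ R b a) := fun a b => by
    rw [hG, SimpleGraph.fromRel_adj]
  have key : ∀ (S : E → Prop) (u v : E), S u → ¬ S v → ∃ a p, G.Adj a p ∧ S a ∧ ¬ S p := by
    intro S u v hu hv
    by_contra hno
    push Not at hno
    have h1 : S u = S v := by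
      apply conn S
      intro a b hab
      by_cases hne : a = b
      · rw [hne]
      · apply propext
        constructor
        · intro h; exact hno a b ((hGadj a b).2 ⟨hne, Or.inl hab⟩) h
        · intro h; exact hno b a ((hGadj b a).2 ⟨Ne.symm hne, Or.inr hab⟩) h
    exact hv (h1 ▸ hu)
  obtain ⟨s, t, hst⟩ : ∃ s t, G.Adj s t := by
    have h1 : 1 < Fintype.card E := by
      rw [← Nat.card_eq_fintype_card]; omega
    obtain ⟨u, v, huv⟩ := Fintype.one_lt_card_iff.1 h1
    obtain ⟨a, p, hap, -, -⟩ := key (fun x => x = u) u v rfl (fun h => huv h.symm)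
    exact ⟨a, p, hap⟩
  have hV0 : Valid G.Adj s t [s, t] := by
    refine ⟨?_, by simp, by simp, ?_, ?_⟩
    · simp [hst.ne]
    · intro x hx hxs
      have : x = t := by
        simp only [List.mem_cons, List.not_mem_nil, or_false] at hx
        exact hx.resolve_left hxs
      subst this
      exact ⟨s, List.Sublist.refl _, hst⟩
    · intro x hx hxt
      have : x = s := by
        simp only [List.mem_cons, List.not_mem_nil, or_false] at hx
        exact hx.resolve_right hxt
      subst this
      exact ⟨t, List.Sublist.refl _, hst⟩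
  have hstep : ∀ L, Valid G.Adj s t L → (∃ v, v ∉ L) →
      ∃ L', Valid G.Adj s t L' ∧ L.length < L'.length := by
    rintro L hL ⟨v, hv⟩
    obtain ⟨a, p, hap, haL, hpL⟩ := key (fun x => x ∈ L) s v hL.hs hv
    let H : SimpleGraph E :=
      { Adj := fun x y => G.Adj x y ∧ x ∉ L ∧ y ∉ L
        symm := ⟨fun x y h => ⟨h.1.symm, h.2.2, h.2.1⟩⟩
        loopless := ⟨fun x h => G.loopless.irrefl x h.1⟩ }
    have hW : ∀ x y (w : H.Walk x y), x ∉ L → ∀ z ∈ w.support, z ∉ L := by
      intro x y w
      induction w with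
      | nil =>
        intro hx z hz
        simp only [SimpleGraph.Walk.support_nil, List.mem_cons, List.not_mem_nil, or_false] at hz
        exact hz ▸ hx
      | cons h w ih =>
        intro hx z hz
        rw [SimpleGraph.Walk.support_cons] at hz
        rcases List.mem_cons.1 hz with rfl | hz
        · exact hx
        · exact ih h.2.2 z hz
    have hCL : ∀ x, H.Reachable p x → x ∉ L := by
      rintro x ⟨w⟩
      exact hW _ _ w hpL x w.end_mem_support
    obtain ⟨q, b, hq, hbL, hba, hqb⟩ : ∃ q b, H.Reachable p q ∧ b ∈ L ∧ b ≠ a ∧ G.Adj q b := by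
      by_contra hno
      push Not at hno
      obtain ⟨u, huL, hua⟩ : ∃ u, u ∈ L ∧ u ≠ a := by
        by_cases h : s = a
        · exact ⟨t, hL.ht, fun h' => hst.ne (h.trans h'.symm)⟩
        · exact ⟨s, hL.hs, h⟩
      have hstep : ∀ x y, G.Adj x y → x ≠ a → y ≠ a → H.Reachable p x → H.Reachable p y := by
        intro x y hxy _ hya hx
        by_cases hyL : y ∈ L
        · exact absurd hxy (hno x y hx hyL hya)
        · have : H.Adj x y := ⟨hxy, hCL x hx, hyL⟩
          exact hx.trans this.reachable
      have h1 : (H.Reachable p p) = (H.Reachable p u) := by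
        apply nocut a (fun x => H.Reachable p x)
        · intro x y hxy hxa hya
          by_cases hne : x = y
          · rw [hne]
          · apply propext
            exact ⟨hstep x y ((hGadj x y).2 ⟨hne, Or.inl hxy⟩) hxa hya,
              hstep y x ((hGadj y x).2 ⟨Ne.symm hne, Or.inr hxy⟩) hya hxa⟩
        · intro h; exact hpL (h ▸ haL)
        · exact hua
      exact hCL u (h1 ▸ SimpleGraph.Reachable.refl p) huL
    obtain ⟨w, hw⟩ := hq.exists_isPath
    have hchain : List.IsChain G.Adj w.support :=
      (SimpleGraph.Walk.isChain_adj_support w).imp fun x y h => h.1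
    have hne : w.support ≠ [] := SimpleGraph.Walk.support_ne_nil w
    have hchain2 : List.IsChain G.Adj (a :: (w.support ++ [b])) := by
      rw [List.isChain_cons]
      refine ⟨?_, ?_⟩
      · intro y hy
        have : (w.support ++ [b]).head? = some p := by
          rw [← SimpleGraph.Walk.cons_tail_support w]; rfl
        rw [this] at hy
        simp only [Option.mem_def, Option.some.injEq] at hy
        exact hy ▸ hap
      · rw [List.isChain_append]
        refine ⟨hchain, List.isChain_singleton _, ?_⟩
        intro x hx y hy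
        have h1 : w.support.getLast? = some q := by
          rw [List.getLast?_eq_getLast_of_ne_nil hne, SimpleGraph.Walk.getLast_support]
        rw [h1] at hx
        simp only [List.head?_cons, Option.mem_def, Option.some.injEq] at hx hy
        rw [← hx, ← hy]
        exact hqb
    have hlen : 0 < w.support.length := List.length_pos_iff.2 hne
    rcases pair_total haL hbL (Ne.symm hba) with h | h
    · obtain ⟨L', hL', hl⟩ := insert hL h hw.support_nodup (fun x hx => hW _ _ w hpL x hx) hchain2
      exact ⟨L', hL', by omega⟩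
    · have hrev : List.IsChain G.Adj (b :: (w.support.reverse ++ [a])) := by
        have h1 := List.isChain_reverse.2 (hchain2.imp (fun x y (h : G.Adj x y) => h.symm) :
          List.IsChain (fun x y => G.Adj y x) (a :: (w.support ++ [b])))
        simpa using h1
      obtain ⟨L', hL', hl⟩ := insert hL h (List.nodup_reverse.2 hw.support_nodup)
        (fun x hx => hW _ _ w hpL x (List.mem_reverse.1 hx)) hrev
      rw [List.length_reverse] at hl
      exact ⟨L', hL', by omega⟩
  obtain ⟨L, hL, hall⟩ : ∃ L, Valid G.Adj s t L ∧ ∀ v, v ∈ L := by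
    by_contra hno
    push Not at hno
    have hbig : ∀ n, ∃ L, Valid G.Adj s t L ∧ n ≤ L.length := by
      intro n
      induction n with
      | zero => exact ⟨_, hV0, by simp⟩
      | succ n ih =>
        obtain ⟨L, hL, hn⟩ := ih
        obtain ⟨L', hL', hlt⟩ := hstep L hL (hno L hL)
        exact ⟨L', hL', by omega⟩
    obtain ⟨L, hL, hn⟩ := hbig (Fintype.card E + 1)
    have := hL.nodup.length_le_card
    omega
  have hlt : ∀ x y, List.Sublist [x, y] L → L.idxOf x < L.idxOf y := by
    intro x y h
    obtain ⟨l₁, l₂, hd, hy⟩ := pair_split h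
    have hnd := hL.nodup
    rw [hd] at hnd ⊢
    have h1 := List.nodup_append.1 hnd
    have hx1 : x ∉ l₁ := fun hx => h1.2.2 x hx x (by simp) rfl
    have hy1 : y ∉ l₁ := fun hx => h1.2.2 y hx y (by simp [hy]) rfl
    have hxy : x ≠ y := by
      rintro rfl
      exact (List.nodup_cons.1 h1.2.1).1 hy
    rw [List.idxOf_append_of_notMem hx1, List.idxOf_append_of_notMem hy1, List.idxOf_cons_self,
      List.idxOf_cons_ne _ hxy]
    omega
  have hlen : L.length = Nat.card E := by
    rw [Nat.card_eq_fintype_card, ← List.toFinset_card_of_nodup hL.nodup]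
    congr 1
    ext v
    simp [hall v]
  refine ⟨fun x => L.idxOf x, ?_, ?_, ?_, ?_⟩
  · intro x y hxy
    exact (List.idxOf_inj (hall x)).1 hxy
  · intro e
    rw [← hlen]
    exact List.idxOf_lt_length_iff.2 (hall e)
  · intro m c hc
    have hc' : ∀ x y, G.Adj x y → L.idxOf x ≤ m → L.idxOf y ≤ m → c x = c y := by
      intro x y hxy hx hy
      rcases ((hGadj x y).1 hxy).2 with h | h
      · exact hc x y h hx hy
      · exact (hc y x h hy hx).symm
    have main : ∀ n, ∀ x, L.idxOf x = n → n ≤ m → c x = c s := by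
      intro n
      induction n using Nat.strong_induction_on with
      | _ n ih =>
        intro x hx hn
        by_cases hxs : x = s
        · rw [hxs]
        · obtain ⟨y, hy, hA⟩ := hL.pre x (hall x) hxs
          have h1 := hlt y x hy
          rw [← ih (L.idxOf y) (by omega) y rfl (by omega)]
          exact hc' x y hA.symm (by omega) (by omega)
    intro a b ha hb
    rw [main _ a rfl ha, main _ b rfl hb]
  · intro m c hc
    have hc' : ∀ x y, G.Adj x y → m ≤ L.idxOf x → m ≤ L.idxOf y → c x = c y := by
      intro x y hxy hx hy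
      rcases ((hGadj x y).1 hxy).2 with h | h
      · exact hc x y h hx hy
      · exact (hc y x h hy hx).symm
    have main : ∀ n, ∀ x, L.length - L.idxOf x = n → m ≤ L.idxOf x → c x = c t := by
      intro n
      induction n using Nat.strong_induction_on with
      | _ n ih =>
        intro x hx hn
        by_cases hxt : x = t
        · rw [hxt]
        · obtain ⟨y, hy, hA⟩ := hL.post x (hall x) hxt
          have h1 := hlt x y hy
          have h2 : L.idxOf y < L.length := List.idxOf_lt_length_iff.2 (hall y)
          rw [← ih (L.length - L.idxOf y) (by omega) y rfl (by omega)]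
          exact hc' x y hA (by omega) (by omega)
    intro a b ha hb
    rw [main _ a rfl ha, main _ b rfl hb]

end Pool.Agent.H57.Stall
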