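import Mathlib
import Pool.Agent.H57.Stall.MinCfg

set_option autoImplicit false

namespace Pool.Agent.H57.Stall

open Equiv

section repr

variable {H Q E : Type} [Fintype H] [Fintype Q] {φ : Perm H} {bq : Q → Q} {γ : H → Q}
  {be : E → E} {ε : Q → E}

/-- An invariant function orthogonal to the boundary words in `T` is constant. -/
theorem const_of_orth (hA : Adm φ bq γ be ε) (f : H → ℚ) (hf : ∀ h, f (φ h) = f h)
    (h0 : ∀ s : E → ℚ, (∀ e, s (be e) = - s e) → ∑ h, f h * s (ε (γ h)) = 0) :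
    ∀ h h', f h = f h' := by
  classical
  obtain ⟨z, hz⟩ : ∃ z : Q → ℚ, ∀ q, z q =
      ∑ h, f h * ((if γ h = q then 1 else 0) - (if γ h = bq q then 1 else 0)) := ⟨_, fun _ => rfl⟩
  have hG : ∀ G : Q → ℚ, ∑ q, G q * z q = ∑ h, f h * (G (γ h) - G (bq (γ h))) := by
    intro G
    simp only [hz, Finset.mul_sum]
    rw [Finset.sum_comm]
    refine Finset.sum_congr rfl fun h _ => ?_
    have h1 : ∀ q, (γ h = bq q) ↔ (bq (γ h) = q) := by
      intro q
      constructor
      · intro h; rw [h, hA.bq_bq]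
      · intro h; rw [← h, hA.bq_bq]
    have h2 : ∀ q, G q * (f h * ((if γ h = q then 1 else 0) - (if γ h = bq q then 1 else 0))) =
        (if γ h = q then f h * G q else 0) - (if bq (γ h) = q then f h * G q else 0) := by
      intro q
      simp only [h1]
      split_ifs <;> ring
    simp only [h2, Finset.sum_sub_distrib, Finset.sum_ite_eq, Finset.mem_univ, if_true]
    ring
  have hanti : ∀ q, z (bq q) = - z q := by
    intro q
    rw [hz, hz, ← Finset.sum_neg_distrib]
    refine Finset.sum_congr rfl fun h _ => ?_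
    rw [hA.bq_bq]
    ring
  have hz0 : ∀ q, z q = 0 := by
    refine hA.inj z hanti ?_ ?_
    · intro F hF
      rw [hG]
      have h1 : ∀ h, f h * (F (γ h) - F (bq (γ h))) = f h * F (γ h) - f (φ h) * F (γ (φ h)) := by
        intro h
        rw [hF h, hf h]
        ring
      simp only [h1, Finset.sum_sub_distrib]
      rw [Equiv.sum_comp φ fun h => f h * F (γ h)]
      ring
    · intro g
      rw [hG]
      have h1 := h0 (fun e => g e - g (be e)) (fun e => by
        show g (be e) - g (be (be e)) = -(g e - g (be e))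
        rw [hA.be_be]; ring)
      simpa only [hA.eps_bq] using h1
  refine hA.ind f hf fun G hGa => ?_
  have h1 := hG G
  simp only [hz0, mul_zero, Finset.sum_const_zero] at h1
  have h2 : ∑ h, f h * (G (γ h) - G (bq (γ h))) = 2 * ∑ h, G (γ h) * f h := by
    rw [Finset.mul_sum]
    refine Finset.sum_congr rfl fun h _ => ?_
    rw [hGa]
    ring
  rw [h2] at h1
  linarith

/-- Functionals on the invariant functions which vanish on the constants are represented by
antisymmetric functions on `E`. -/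
theorem exists_repr (hA : Adm φ bq γ be ε) (lam : invs φ →ₗ[ℚ] ℚ)
    (h0 : ∀ f : invs φ, (∀ h h', f.1 h = f.1 h') → lam f = 0) :
    ∃ s : E → ℚ, (∀ e, s (be e) = - s e) ∧
      ∀ f : invs φ, lam f = ∑ h, f.1 h * s (ε (γ h)) := by
  classical
  let A : Submodule ℚ (E → ℚ) :=
    { carrier := {s | ∀ e, s (be e) = - s e}
      add_mem' := by
        intro a b ha hb e
        simp only [Pi.add_apply, ha e, hb e]
        ring
      zero_mem' := by intro e; simp
      smul_mem' := by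
        intro c a ha e
        simp only [Pi.smul_apply, ha e, smul_eq_mul]
        ring }
  let B : A →ₗ[ℚ] Module.Dual ℚ (invs φ) :=
    { toFun := fun s =>
        { toFun := fun f => ∑ h, f.1 h * s.1 (ε (γ h))
          map_add' := by
            intro f g
            rw [← Finset.sum_add_distrib]
            refine Finset.sum_congr rfl fun h _ => ?_
            simp only [Submodule.coe_add, Pi.add_apply]
            ring
          map_smul' := by
            intro c f
            simp only [Submodule.coe_smul, Pi.smul_apply, smul_eq_mul, RingHom.id_apply,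
              Finset.mul_sum, mul_assoc] }
      map_add' := by
        intro s t
        ext f
        simp only [Submodule.coe_add, Pi.add_apply, LinearMap.coe_mk, AddHom.coe_mk,
          LinearMap.add_apply]
        rw [← Finset.sum_add_distrib]
        refine Finset.sum_congr rfl fun h _ => ?_
        ring
      map_smul' := by
        intro c s
        ext f
        simp only [Submodule.coe_smul, Pi.smul_apply, smul_eq_mul, RingHom.id_apply,
          LinearMap.coe_mk, AddHom.coe_mk, LinearMap.smul_apply, Finset.mul_sum]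
        refine Finset.sum_congr rfl fun h _ => ?_
        ring }
  have hB : ∀ (s : A) (f : invs φ), B s f = ∑ h, f.1 h * s.1 (ε (γ h)) := fun _ _ => rfl
  have hmem : lam ∈ (LinearMap.range B) := by
    have h1 : (LinearMap.range B).dualCoannihilator.dualAnnihilator = LinearMap.range B :=
      Subspace.dualCoannihilator_dualAnnihilator_eq
    rw [← h1, Submodule.mem_dualAnnihilator]
    intro f hf
    rw [Submodule.mem_dualCoannihilator] at hf
    refine h0 f (const_of_orth hA f.1 f.2 fun s hs => ?_)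
    exact hf (B ⟨s, hs⟩) ⟨_, rfl⟩
  obtain ⟨s, hs⟩ := hmem
  refine ⟨s.1, s.2, fun f => ?_⟩
  rw [← hs, hB]

end repr

section spine

variable {H Q E : Type} [Fintype H] [Fintype Q] {L : ℕ} {φ ι : Perm H} {bq : Q → Q} {γ : H → Q}
  {be : E → E} {ε : Q → E} {pos : E → ℕ}
  {Q' E' : Type} [Fintype Q'] {ι' : Perm (BH φ be (fun h => ε (γ h)) pos)} {bq' : Q' → Q'}
  {γ' : BH φ be (fun h => ε (γ h)) pos → Q'} {be' : E' → E'} {ε' : Q' → E'}

omit [Fintype Q'] in
/-- Antisymmetric functions on the edges of the refinement, modulo exact ones, come from the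
petals. -/
theorem spine_repr (hB : Adm φ bq γ be ε)
    (hP : Pairing (Bφ φ be (fun h => ε (γ h)) pos) ι' be' fun h => ε' (γ' h))
    (hM : Maxl (Bφ φ be (fun h => ε (γ h)) pos) ι' bq' γ' be' ε')
    (τ : E' → E ⊕ (ℕ × Bool)) (hτ : ∀ e, τ (be' e) = Bbe be (τ e))
    (hτw : ∀ k, τ (ε' (γ' k)) = Bw φ be (fun h => ε (γ h)) pos k)
    (ρ : E' → ℚ) (hρ : ∀ e, ρ (be' e) = - ρ e) :
    ∃ (s : E → ℚ) (F : E' → ℚ),
      (∀ k, F (be' (ε' (γ' k))) = F (ε' (γ' (Bφ φ be (fun h => ε (γ h)) pos k)))) ∧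
      (∀ x e, τ x = Sum.inl e → ρ x - s e = F (be' x) - F x) ∧
      (∀ x y, τ x = Sum.inr y → ρ x = F (be' x) - F x) := by
  classical
  let lam : invs φ →ₗ[ℚ] ℚ :=
    { toFun := fun f => ∑ k : BH φ be (fun h => ε (γ h)) pos, f.1 k.1 * ρ (ε' (γ' k))
      map_add' := by
        intro f g
        rw [← Finset.sum_add_distrib]
        refine Finset.sum_congr rfl fun h _ => ?_
        simp only [Submodule.coe_add, Pi.add_apply]
        ring
      map_smul' := by
        intro c f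
        simp only [Submodule.coe_smul, Pi.smul_apply, smul_eq_mul, RingHom.id_apply,
          Finset.mul_sum, mul_assoc] }
  have hlam : ∀ f : invs φ, lam f =
      ∑ k : BH φ be (fun h => ε (γ h)) pos, f.1 k.1 * ρ (ε' (γ' k)) := fun _ => rfl
  obtain ⟨s, hs, hs'⟩ := exists_repr hB lam (by
    intro f hf
    have h1 := Equiv.sum_comp ι' fun k : BH φ be (fun h => ε (γ h)) pos =>
      f.1 k.1 * ρ (ε' (γ' k))
    have h2 : ∀ k, f.1 (ι' k).1 * ρ (ε' (γ' (ι' k))) = - (f.1 k.1 * ρ (ε' (γ' k))) := by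
      intro k
      have h3 : ε' (γ' (ι' k)) = be' (ε' (γ' k)) := hP.lab k
      rw [h3, hρ, hf (ι' k).1 k.1]
      ring
    simp only [h2, Finset.sum_neg_distrib] at h1
    rw [hlam]
    linarith)
  obtain ⟨sg, hsg⟩ : ∃ sg : E ⊕ (ℕ × Bool) → ℚ, sg = Sum.elim s fun _ => 0 := ⟨_, rfl⟩
  have hsg1 : ∀ e, sg (Sum.inl e) = s e := fun e => by rw [hsg]; rfl
  have hsg2 : ∀ e, sg (Sum.inr e) = 0 := fun e => by rw [hsg]; rfl
  have hsgb : ∀ y, sg (Bbe be y) = - sg y := by
    intro y
    rcases y with e | ⟨m, b⟩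
    · show sg (Sum.inl (be e)) = _
      rw [hsg1, hsg1, hs]
    · show sg (Sum.inr (m, !b)) = _
      rw [hsg2, hsg2]
      norm_num
  obtain ⟨F, hF1, hF2⟩ := hM.exact (fun x => ρ x - sg (τ x)) (by
    intro x
    show ρ (be' x) - sg (τ (be' x)) = - (ρ x - sg (τ x))
    rw [hρ, hτ, hsgb]
    ring) (by
    intro f hf
    have h1 : ∀ k : BH φ be (fun h => ε (γ h)) pos, f k = f ⟨k.1, ⟨0, Nat.succ_pos _⟩⟩ := by
      rintro ⟨h, ⟨j, hj⟩⟩
      exact inv_fst f hf h j hj
    obtain ⟨f0, hf0⟩ : ∃ f0 : H → ℚ, ∀ h, f0 h = f ⟨h, ⟨0, Nat.succ_pos _⟩⟩ := ⟨_, fun _ => rfl⟩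
    have hf1 : ∀ h, f0 (φ h) = f0 h := by
      intro h
      rw [hf0, hf0]
      exact inv_phi f hf h
    have h2 : ∀ k : BH φ be (fun h => ε (γ h)) pos, f k = f0 k.1 := by
      intro k
      rw [h1, hf0]
    have h3 := hs' ⟨f0, hf1⟩
    rw [hlam] at h3
    have h3' : ∑ k : BH φ be (fun h => ε (γ h)) pos, f0 k.1 * ρ (ε' (γ' k)) =
      ∑ h, f0 h * s (ε (γ h)) := h3
    simp only [h2, mul_sub, Finset.sum_sub_distrib]
    rw [h3', Fintype.sum_sigma, ← Finset.sum_sub_distrib]
    refine Finset.sum_eq_zero fun h _ => ?_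
    rw [Fin.sum_univ_succ]
    have h4 : ∀ j : Fin (gap φ be (fun h => ε (γ h)) pos h),
        f0 (⟨h, j.succ⟩ : BH φ be (fun h => ε (γ h)) pos).1 *
          sg (τ (ε' (γ' ⟨h, j.succ⟩))) = 0 := by
      intro j
      rw [hτw]
      rcases hy : Bw φ be (fun h => ε (γ h)) pos ⟨h, j.succ⟩ with e | y
      · exact absurd hy (Bw_succ_ne h j.1 (Nat.succ_lt_succ j.2) e)
      · rw [hsg2, mul_zero]
    rw [Finset.sum_eq_zero fun j _ => h4 j, add_zero]
    have h5 : τ (ε' (γ' ⟨h, 0⟩)) = Sum.inl (ε (γ h)) := by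
      rw [hτw]
      exact Bw_zero h _
    rw [h5, hsg1]
    ring)
  refine ⟨s, F, hF1, ?_, ?_⟩
  · intro x e hx
    rw [← hF2 x, hx, hsg1]
  · intro x y hx
    rw [← hF2 x, hx, hsg2, sub_zero]

/-- A function of the origin which is constant along the spine is constant along the petals. -/
theorem spine_exact (hm : MinCfg L φ ι bq γ be ε)
    (hA : Adm (Bφ φ be (fun h => ε (γ h)) pos) bq' γ' be' ε')
    (hD : ¬ DepAll (Bφ φ be (fun h => ε (γ h)) pos) bq' γ')
    (hP : Pairing (Bφ φ be (fun h => ε (γ h)) pos) ι' be' fun h => ε' (γ' h))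
    (hM : Maxl (Bφ φ be (fun h => ε (γ h)) pos) ι' bq' γ' be' ε')
    (τ : E' → E ⊕ (ℕ × Bool)) (hτ : ∀ e, τ (be' e) = Bbe be (τ e))
    (hτw : ∀ k, τ (ε' (γ' k)) = Bw φ be (fun h => ε (γ h)) pos k)
    (F : E' → ℚ)
    (hF1 : ∀ k, F (be' (ε' (γ' k))) = F (ε' (γ' (Bφ φ be (fun h => ε (γ h)) pos k))))
    (hF2 : ∀ x y, τ x = Sum.inr y → F (be' x) - F x = 0) (x : E') : F (be' x) - F x = 0 := by
  classical
  by_contra hx
  have hC : Ctr (Bφ φ be (fun h => ε (γ h)) pos) bq' γ' be' ε' := ⟨hA, hA.depAll hP, hD⟩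
  obtain ⟨k1, hk1⟩ := hM.surjE x
  have hτx : ∃ e, τ x = Sum.inl e := by
    rcases hy : τ x with e | y
    · exact ⟨e, rfl⟩
    · exact absurd (hF2 x y hy) hx
  obtain ⟨e, he⟩ := hτx
  have hk1' := (Bw_inl k1 e (by rw [← hτw, hk1, he])).1
  obtain ⟨Z, hZ⟩ : ∃ Z : Set E', ∀ z, z ∈ Z ↔ ((∃ y, τ z = Sum.inr y) ∨ z = x ∨ z = be' x) :=
    ⟨{z | (∃ y, τ z = Sum.inr y) ∨ z = x ∨ z = be' x}, fun _ => Iff.rfl⟩
  have h1 := forest_min hm.min hC Z (by
    intro z hz
    rw [hZ] at hz ⊢
    rcases hz with ⟨⟨m, b⟩, hy⟩ | rfl | rfl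
    · left
      refine ⟨(m, !b), ?_⟩
      rw [hτ, hy]
      rfl
    · right; right; rfl
    · right; left
      exact hA.be_be _) (by
    intro ρ hρ
    obtain ⟨s, G, hG1, _, hG3⟩ := spine_repr hm.ctr.adm hP hM τ hτ hτw ρ hρ
    refine ⟨fun z => G z + (ρ x - (G (be' x) - G x)) / (F (be' x) - F x) * F z, ?_, ?_⟩
    · intro k
      show G (be' (ε' (γ' k))) + _ * F (be' (ε' (γ' k))) = _
      rw [hG1, hF1]
    · intro z hz
      rw [hZ] at hz
      have hc : (ρ x - (G (be' x) - G x)) / (F (be' x) - F x) * (F (be' x) - F x) =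
          (ρ x - (G (be' x) - G x)) := div_mul_cancel₀ _ hx
      rcases hz with ⟨y, hy⟩ | rfl | rfl
      · have h2 := hF2 z y hy
        have h3 := hG3 z y hy
        have h4 : F (be' z) = F z := by linarith
        show ρ z = (G (be' z) + _ * F (be' z)) - (G z + _ * F z)
        rw [h4, h3]
        ring
      · show ρ z = (G (be' z) + _ * F (be' z)) - (G z + _ * F z)
        linear_combination (-1 : ℚ) * hc
      · show ρ (be' x) = (G (be' (be' x)) + _ * F (be' (be' x))) - (G (be' x) + _ * F (be' x))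
        rw [hρ, hA.be_be]
        linear_combination (1 : ℚ) * hc)
  have h2 : Nat.card {k : BH φ be (fun h => ε (γ h)) pos // ε' (γ' k) ∉ Z} ≤
      Nat.card {h : H // h ≠ k1.1} := by
    have hzero : ∀ k : BH φ be (fun h => ε (γ h)) pos, ε' (γ' k) ∉ Z →
        k = ⟨k.1, ⟨0, Nat.succ_pos _⟩⟩ := by
      intro k hk
      rw [hZ] at hk
      push Not at hk
      rcases hy : τ (ε' (γ' k)) with e | y
      · exact (Bw_inl k e (by rw [← hτw, hy])).1
      · exact absurd hy (hk.1 y)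
    refine Nat.card_le_card_of_injective
      (fun k : {k : BH φ be (fun h => ε (γ h)) pos // ε' (γ' k) ∉ Z} =>
        (⟨k.1.1, ?_⟩ : {h : H // h ≠ k1.1})) ?_
    · intro hk
      have h3 := hzero k.1 k.2
      refine k.2 ?_
      rw [hZ]
      right; left
      rw [← hk1, h3, hk1', hk]
    · intro k k' hkk
      have h3 : k.1.1 = k'.1.1 := congrArg Subtype.val hkk
      apply Subtype.ext
      rw [hzero k.1 k.2, hzero k'.1 k'.2, h3]
  have h3 : Nat.card {h : H // h ≠ k1.1} < L := by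
    rw [Nat.card_eq_fintype_card, ← hm.card]
    exact Fintype.card_subtype_lt (x := k1.1) (fun h => h rfl)
  omega

end spine

section path

variable {H E E' : Type} {φ : Perm H} {be : E → E} {w : H → E} {pos : E → ℕ}
  {be' : E' → E'} {w' : BH φ be w pos → E'}

/-- The change of a turn-invariant function along the new darts after `h`. -/
theorem path_sum (ρ F : E' → ℚ) (hF : ∀ k, F (be' (w' k)) = F (w' (Bφ φ be w pos k)))
    (τ : E' → E ⊕ (ℕ × Bool)) (hτw : ∀ k, τ (w' k) = Bw φ be w pos k)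
    (hρ : ∀ x y, τ x = Sum.inr y → ρ x = F (be' x) - F x)
    (h : H) (r : ℕ → ℚ)
    (hr : ∀ (j : ℕ) (hj : j + 1 < gap φ be w pos h + 1), r j = ρ (w' ⟨h, ⟨j + 1, hj⟩⟩)) :
    F (w' ⟨φ h, ⟨0, Nat.succ_pos _⟩⟩) = F (be' (w' ⟨h, ⟨0, Nat.succ_pos _⟩⟩)) +
      ∑ i ∈ Finset.range (gap φ be w pos h), r i := by
  have key : ∀ (j : ℕ) (hj : j < gap φ be w pos h + 1), F (be' (w' ⟨h, ⟨j, hj⟩⟩)) =
      F (be' (w' ⟨h, ⟨0, Nat.succ_pos _⟩⟩)) + ∑ i ∈ Finset.range j, r i := by
    intro j
    induction j with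
    | zero => intro hj; simp
    | succ j ih =>
      intro hj
      rw [Finset.sum_range_succ, ← add_assoc, ← ih (Nat.lt_of_succ_lt hj),
        hF ⟨h, ⟨j, Nat.lt_of_succ_lt hj⟩⟩, Bφ_apply, bnext_lt h j _ hj, hr j hj]
      rcases hy : Bw φ be w pos ⟨h, ⟨j + 1, hj⟩⟩ with e | y
      · exact absurd hy (Bw_succ_ne h j hj e)
      · rw [hρ _ y (by rw [hτw, hy])]
        ring
  rw [← key _ (Nat.lt_succ_self _), hF, Bφ_apply, bnext_last h _ _ (lt_irrefl _)]

end path

variable {H Q E : Type} [Fintype H] [Fintype Q] {L : ℕ} {φ ι : Perm H} {bq : Q → Q} {γ : H → Q}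
  {be : E → E} {ε : Q → E}

/-- A maximal refinement of the blow-up of a minimal counterexample has the same graph `T`. -/
theorem spine_injective (hm : MinCfg L φ ι bq γ be ε) (pos : E → ℕ)
    (hinj : Function.Injective pos)
    (hpre : ∀ (m : ℕ) (c : E → Prop),
      (∀ h, pos (be (ε (γ h))) ≤ m → pos (ε (γ (φ h))) ≤ m →
        c (be (ε (γ h))) = c (ε (γ (φ h)))) →
      ∀ a b, pos a ≤ m → pos b ≤ m → c a = c b)
    (hsuf : ∀ (m : ℕ) (c : E → Prop),
      (∀ h, m ≤ pos (be (ε (γ h))) → m ≤ pos (ε (γ (φ h))) →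
        c (be (ε (γ h))) = c (ε (γ (φ h)))) →
      ∀ a b, m ≤ pos a → m ≤ pos b → c a = c b)
    {Q' E' : Type} [Fintype Q'] {ι' : Perm (BH φ be (fun h => ε (γ h)) pos)} {bq' : Q' → Q'}
    {γ' : BH φ be (fun h => ε (γ h)) pos → Q'} {be' : E' → E'} {ε' : Q' → E'}
    (hA : Adm (Bφ φ be (fun h => ε (γ h)) pos) bq' γ' be' ε')
    (hD : ¬ DepAll (Bφ φ be (fun h => ε (γ h)) pos) bq' γ')
    (hP : Pairing (Bφ φ be (fun h => ε (γ h)) pos) ι' be' fun h => ε' (γ' h))
    (hM : Maxl (Bφ φ be (fun h => ε (γ h)) pos) ι' bq' γ' be' ε')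
    (τ : E' → E ⊕ (ℕ × Bool)) (hτ : ∀ e, τ (be' e) = Bbe be (τ e))
    (hτw : ∀ k, τ (ε' (γ' k)) = Bw φ be (fun h => ε (γ h)) pos k) :
    Function.Injective τ := by
  classical
  have hB := hm.ctr.adm
  -- petals
  have hpet : ∀ (e : E) (x y : E'), τ x = Sum.inl e → τ y = Sum.inl e → x = y := by
    intro e x y hx hy
    by_contra hxy
    obtain ⟨ρ, hρ⟩ : ∃ ρ : E' → ℚ, ∀ z, ρ z = (if z = x then 1 else 0) -
      (if z = be' x then 1 else 0) := ⟨_, fun _ => rfl⟩
    have hρa : ∀ z, ρ (be' z) = - ρ z := by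
      intro z
      rw [hρ, hρ]
      have h1 : be' z = x ↔ z = be' x :=
        ⟨fun h => by rw [← h, hA.be_be], fun h => by rw [h, hA.be_be]⟩
      have h2 : be' z = be' x ↔ z = x :=
        ⟨fun h => by rw [← hA.be_be z, h, hA.be_be], fun h => by rw [h]⟩
      simp only [h1, h2]
      ring
    obtain ⟨s, F, hF1, hF2, hF3⟩ := spine_repr hB hP hM τ hτ hτw ρ hρa
    have hτbx : τ (be' x) = Sum.inl (be e) := by rw [hτ, hx]; rfl
    have hz : ∀ z y', τ z = Sum.inr y' → ρ z = 0 := by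
      intro z y' hz
      rw [hρ, if_neg, if_neg, sub_zero]
      · rintro rfl; rw [hτbx] at hz; exact absurd hz (by simp)
      · rintro rfl; rw [hx] at hz; exact absurd hz (by simp)
    have h0 := spine_exact hm hA hD hP hM τ hτ hτw F hF1 (fun z y' h => by
      rw [← hF3 z y' h, hz z y' h])
    have h1 := hF2 x e hx
    have h2 := hF2 y e hy
    rw [h0] at h1 h2
    have h3 : ρ x = 1 := by
      rw [hρ, if_pos rfl, if_neg (fun h => hA.be_ne x h.symm), sub_zero]
    have h4 : ρ y = 0 := by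
      rw [hρ, if_neg (fun h => hxy h.symm), if_neg, sub_zero]
      rintro h
      rw [h, hτbx] at hy
      exact hB.be_ne e (Sum.inl.inj hy)
    rw [h3] at h1
    rw [h4] at h2
    linarith
  -- new edges
  have hnew : ∀ (m : ℕ) (x y : E'), τ x = Sum.inr (m, true) → τ y = Sum.inr (m, true) →
      x = y := by
    intro m x y hx hy
    by_contra hxy
    obtain ⟨ρ, hρ⟩ : ∃ ρ : E' → ℚ, ∀ z, ρ z = (if z = x then 1 else 0) -
      (if z = be' x then 1 else 0) := ⟨_, fun _ => rfl⟩
    have hρa : ∀ z, ρ (be' z) = - ρ z := by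
      intro z
      rw [hρ, hρ]
      have h1 : be' z = x ↔ z = be' x :=
        ⟨fun h => by rw [← h, hA.be_be], fun h => by rw [h, hA.be_be]⟩
      have h2 : be' z = be' x ↔ z = x :=
        ⟨fun h => by rw [← hA.be_be z, h, hA.be_be], fun h => by rw [h]⟩
      simp only [h1, h2]
      ring
    obtain ⟨s, F, hF1, hF2, hF3⟩ := spine_repr hB hP hM τ hτ hτw ρ hρa
    have hτbx : τ (be' x) = Sum.inr (m, false) := by rw [hτ, hx]; rfl
    have hz : ∀ z m' b, τ z = Sum.inr (m', b) → m' ≠ m → ρ z = 0 := by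
      intro z m' b hz hm'
      rw [hρ, if_neg, if_neg, sub_zero]
      · rintro rfl; rw [hτbx] at hz
        exact hm' (congrArg Prod.fst (Sum.inr.inj hz)).symm
      · rintro rfl; rw [hx] at hz
        exact hm' (congrArg Prod.fst (Sum.inr.inj hz)).symm
    -- the unique edge over a petal
    have hσ : ∀ e, ∃ z, τ z = Sum.inl e := by
      intro e
      obtain ⟨h, hh⟩ := hm.maxl.surjE e
      refine ⟨ε' (γ' ⟨h, ⟨0, Nat.succ_pos _⟩⟩), ?_⟩
      rw [hτw, Bw_zero]
      exact congrArg Sum.inl hh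
    choose σ hσ using hσ
    obtain ⟨Fb, hFb⟩ : ∃ Fb : E → ℚ, ∀ e, Fb e = F (σ e) := ⟨_, fun _ => rfl⟩
    have hr : ∀ h, ∃ r : ℕ → ℚ, ∀ (j : ℕ)
        (hj : j + 1 < gap φ be (fun h => ε (γ h)) pos h + 1),
        r j = ρ (ε' (γ' ⟨h, ⟨j + 1, hj⟩⟩)) := by
      intro h
      refine ⟨fun j => if hj : j + 1 < gap φ be (fun h => ε (γ h)) pos h + 1 then
        ρ (ε' (γ' ⟨h, ⟨j + 1, hj⟩⟩)) else 0, fun j hj => ?_⟩
      exact dif_pos hj
    choose r hr using hr
    have hturn : ∀ h, Fb (ε (γ (φ h))) = Fb (be (ε (γ h))) +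
        ∑ i ∈ Finset.range (gap φ be (fun h => ε (γ h)) pos h), r h i := by
      intro h
      have h1 := path_sum (w' := fun k => ε' (γ' k)) ρ F hF1 τ hτw hF3 h (r h) (hr h)
      have h2 : ε' (γ' ⟨φ h, ⟨0, Nat.succ_pos _⟩⟩) = σ (ε (γ (φ h))) := by
        refine hpet (ε (γ (φ h))) _ _ ?_ (hσ _)
        rw [hτw, Bw_zero]
      have h3 : be' (ε' (γ' ⟨h, ⟨0, Nat.succ_pos _⟩⟩)) = σ (be (ε (γ h))) := by
        refine hpet (be (ε (γ h))) _ _ ?_ (hσ _)
        rw [hτ, hτw, Bw_zero]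
        rfl
      rw [hFb, hFb, ← h2, ← h3]
      exact h1
    have hgap : ∀ h, gap φ be (fun h => ε (γ h)) pos h =
      (pos (ε (γ (φ h))) - pos (be (ε (γ h)))) + (pos (be (ε (γ h))) - pos (ε (γ (φ h)))) :=
      fun _ => rfl
    have hrz : ∀ h j, j < gap φ be (fun h => ε (γ h)) pos h →
        (pos (be (ε (γ h))) < pos (ε (γ (φ h))) → pos (be (ε (γ h))) + j ≠ m) →
        (¬ pos (be (ε (γ h))) < pos (ε (γ (φ h))) → pos (be (ε (γ h))) - (j + 1) ≠ m) →
        r h j = 0 := by
      intro h j hj h1 h2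
      have hj' : j + 1 < gap φ be (fun h => ε (γ h)) pos h + 1 := Nat.succ_lt_succ hj
      rw [hr h j hj']
      by_cases hp : pos (be (ε (γ h))) < pos (ε (γ (φ h)))
      · exact hz _ _ true (by rw [hτw]; exact Bw_up h j hj' hp) (h1 hp)
      · exact hz _ _ false (by rw [hτw]; exact Bw_down h j hj' hp) (h2 hp)
    have hlow : ∀ a b, pos a ≤ m → pos b ≤ m → Fb a = Fb b := by
      intro a b ha hb
      have h1 := hpre m (fun e => Fb e = Fb a) (by
        intro h h1 h2
        have h3 := hturn h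
        rw [Finset.sum_eq_zero, add_zero] at h3
        · rw [h3]
        · intro j hj
          rw [Finset.mem_range] at hj
          have h4 := hgap h
          exact hrz h j hj (by omega) (by omega)) a b ha hb
      exact (h1.mp rfl).symm
    have hhigh : ∀ a b, m + 1 ≤ pos a → m + 1 ≤ pos b → Fb a = Fb b := by
      intro a b ha hb
      have h1 := hsuf (m + 1) (fun e => Fb e = Fb a) (by
        intro h h1 h2
        have h3 := hturn h
        rw [Finset.sum_eq_zero, add_zero] at h3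
        · rw [h3]
        · intro j hj
          rw [Finset.mem_range] at hj
          have h4 := hgap h
          exact hrz h j hj (by omega) (by omega)) a b ha hb
      exact (h1.mp rfl).symm
    have hcross : ∀ g, τ g = Sum.inr (m, true) → ∃ a b, pos a ≤ m ∧ m + 1 ≤ pos b ∧
        Fb b = Fb a + ρ g := by
      intro g hg
      obtain ⟨k, hk⟩ := hM.surjE g
      obtain ⟨j, hj, hkj⟩ := Bw_inr k (m, true) (by rw [← hτw, hk, hg])
      have h1 : Bw φ be (fun h => ε (γ h)) pos ⟨k.1, ⟨j + 1, hj⟩⟩ = Sum.inr (m, true) := by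
        rw [← hkj, ← hτw, hk, hg]
      have hp : pos (be (ε (γ k.1))) < pos (ε (γ (φ k.1))) := by
        by_contra hp
        rw [Bw_down k.1 j hj hp] at h1
        exact absurd (congrArg Prod.snd (Sum.inr.inj h1)) (by simp)
      rw [Bw_up k.1 j hj hp] at h1
      have h2 : pos (be (ε (γ k.1))) + j = m := congrArg Prod.fst (Sum.inr.inj h1)
      have h4 := hgap k.1
      refine ⟨be (ε (γ k.1)), ε (γ (φ k.1)), by omega, by omega, ?_⟩
      rw [hturn k.1, Finset.sum_eq_single j]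
      · rw [hr k.1 j hj, ← hkj, hk]
      · intro i hi hij
        rw [Finset.mem_range] at hi
        exact hrz k.1 i hi (by omega) (by omega)
      · intro hj'
        rw [Finset.mem_range] at hj'
        omega
    obtain ⟨a1, b1, ha1, hb1, h1⟩ := hcross x hx
    obtain ⟨a2, b2, ha2, hb2, h2⟩ := hcross y hy
    have h3 : ρ x = 1 := by
      rw [hρ, if_pos rfl, if_neg (fun h => hA.be_ne x h.symm), sub_zero]
    have h4 : ρ y = 0 := by
      rw [hρ, if_neg (fun h => hxy h.symm), if_neg, sub_zero]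
      rintro h
      rw [h, hτbx] at hy
      exact absurd (congrArg Prod.snd (Sum.inr.inj hy)) (by simp)
    have h5 := hlow a1 a2 ha1 ha2
    have h6 := hhigh b1 b2 hb1 hb2
    rw [h3] at h1
    rw [h4] at h2
    linarith
  intro x y hxy
  rcases hx : τ x with e | ⟨m, b⟩
  · exact hpet e x y hx (by rw [← hxy, hx])
  · cases b with
    | true => exact hnew m x y hx (by rw [← hxy, hx])
    | false =>
      have h1 : τ (be' x) = Sum.inr (m, true) := by rw [hτ, hx]; rfl
      have h2 : τ (be' y) = Sum.inr (m, true) := by rw [hτ, ← hxy, hx]; rfl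
      have h3 := hnew m _ _ h1 h2
      rw [← hA.be_be x, h3, hA.be_be]

end Pool.Agent.H57.Stall
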