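import Mathlib
import Pool.Agent.H57.Stall.Spine
import Pool.Agent.H57.Stall.NoCut
import Pool.Agent.H57.Stall.Order
import Pool.Agent.H57.Stall.Lev

set_option autoImplicit false

namespace Pool.Agent.H57.Stall

open Equiv

section turns

variable {H E : Type} (φ : Perm H) (be : E → E) (w : H → E) (pos : E → ℕ)

/-- The blow-up has a turn from `x` to `y`. -/
def Tn (x y : E ⊕ (ℕ × Bool)) : Prop :=
  ∃ k, Bbe be (Bw φ be w pos k) = x ∧ Bw φ be w pos (Bφ φ be w pos k) = y

variable {φ be w pos}

theorem gap_up {h : H} (hp : pos (be (w h)) < pos (w (φ h))) :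
    gap φ be w pos h = pos (w (φ h)) - pos (be (w h)) := by
  unfold gap
  omega

theorem gap_down {h : H} (hp : pos (w (φ h)) < pos (be (w h))) :
    gap φ be w pos h = pos (be (w h)) - pos (w (φ h)) := by
  unfold gap
  omega

theorem Tn_up_start (h : H) (hp : pos (be (w h)) < pos (w (φ h))) :
    Tn φ be w pos (Sum.inl (be (w h))) (Sum.inr (pos (be (w h)), true)) := by
  have hg := gap_up hp
  refine ⟨⟨h, ⟨0, Nat.succ_pos _⟩⟩, ?_, ?_⟩
  · rw [Bw_zero]; rfl
  · have h1 : 0 + 1 < gap φ be w pos h + 1 := by omega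
    rw [Bφ_apply, bnext_lt h 0 _ h1, Bw_up h 0 h1 hp]
    rfl

theorem Tn_up_mid (h : H) (m : ℕ) (h1 : pos (be (w h)) < m) (h2 : m < pos (w (φ h))) :
    Tn φ be w pos (Sum.inr (m - 1, false)) (Sum.inr (m, true)) := by
  have hp : pos (be (w h)) < pos (w (φ h)) := h1.trans h2
  have hg := gap_up hp
  obtain ⟨j, hj⟩ : ∃ j, m = pos (be (w h)) + (j + 1) := ⟨m - pos (be (w h)) - 1, by omega⟩
  have hj1 : j + 1 < gap φ be w pos h + 1 := by omega
  have hj2 : j + 1 + 1 < gap φ be w pos h + 1 := by omega
  refine ⟨⟨h, ⟨j + 1, hj1⟩⟩, ?_, ?_⟩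
  · rw [Bw_up h j hj1 hp]
    show Sum.inr (pos (be (w h)) + j, !true) = _
    have : m - 1 = pos (be (w h)) + j := by omega
    rw [this]
    rfl
  · rw [Bφ_apply, bnext_lt h (j + 1) hj1 hj2, Bw_up h (j + 1) hj2 hp, hj]

theorem Tn_up_end (h : H) (hp : pos (be (w h)) < pos (w (φ h))) :
    Tn φ be w pos (Sum.inr (pos (w (φ h)) - 1, false)) (Sum.inl (w (φ h))) := by
  have hg := gap_up hp
  obtain ⟨j, hj⟩ : ∃ j, gap φ be w pos h = j + 1 := ⟨gap φ be w pos h - 1, by omega⟩
  have hj1 : j + 1 < gap φ be w pos h + 1 := by omega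
  have hj2 : ¬ j + 1 + 1 < gap φ be w pos h + 1 := by omega
  refine ⟨⟨h, ⟨j + 1, hj1⟩⟩, ?_, ?_⟩
  · rw [Bw_up h j hj1 hp]
    show Sum.inr (pos (be (w h)) + j, !true) = _
    have : pos (w (φ h)) - 1 = pos (be (w h)) + j := by omega
    rw [this]
    rfl
  · rw [Bφ_apply, bnext_last h (j + 1) hj1 hj2, Bw_zero]

theorem Tn_down_start (h : H) (hp : pos (w (φ h)) < pos (be (w h))) :
    Tn φ be w pos (Sum.inl (be (w h))) (Sum.inr (pos (be (w h)) - 1, false)) := by
  have hg := gap_down hp
  refine ⟨⟨h, ⟨0, Nat.succ_pos _⟩⟩, ?_, ?_⟩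
  · rw [Bw_zero]; rfl
  · have h1 : 0 + 1 < gap φ be w pos h + 1 := by omega
    rw [Bφ_apply, bnext_lt h 0 _ h1, Bw_down h 0 h1 (by omega)]

theorem Tn_down_mid (h : H) (m : ℕ) (h1 : pos (w (φ h)) < m) (h2 : m < pos (be (w h))) :
    Tn φ be w pos (Sum.inr (m, true)) (Sum.inr (m - 1, false)) := by
  have hp : pos (w (φ h)) < pos (be (w h)) := h1.trans h2
  have hp' : ¬ pos (be (w h)) < pos (w (φ h)) := by omega
  have hg := gap_down hp
  obtain ⟨j, hj⟩ : ∃ j, m = pos (be (w h)) - (j + 1) := ⟨pos (be (w h)) - m - 1, by omega⟩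
  have hj1 : j + 1 < gap φ be w pos h + 1 := by omega
  have hj2 : j + 1 + 1 < gap φ be w pos h + 1 := by omega
  refine ⟨⟨h, ⟨j + 1, hj1⟩⟩, ?_, ?_⟩
  · rw [Bw_down h j hj1 hp', hj]
    rfl
  · rw [Bφ_apply, bnext_lt h (j + 1) hj1 hj2, Bw_down h (j + 1) hj2 hp', hj]
    congr 2

theorem Tn_down_end (h : H) (hp : pos (w (φ h)) < pos (be (w h))) :
    Tn φ be w pos (Sum.inr (pos (w (φ h)), true)) (Sum.inl (w (φ h))) := by
  have hp' : ¬ pos (be (w h)) < pos (w (φ h)) := by omega
  have hg := gap_down hp
  obtain ⟨j, hj⟩ : ∃ j, gap φ be w pos h = j + 1 := ⟨gap φ be w pos h - 1, by omega⟩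
  have hj1 : j + 1 < gap φ be w pos h + 1 := by omega
  have hj2 : ¬ j + 1 + 1 < gap φ be w pos h + 1 := by omega
  refine ⟨⟨h, ⟨j + 1, hj1⟩⟩, ?_, ?_⟩
  · rw [Bw_down h j hj1 hp']
    have : pos (w (φ h)) = pos (be (w h)) - (j + 1) := by omega
    rw [this]
    rfl
  · rw [Bφ_apply, bnext_last h (j + 1) hj1 hj2, Bw_zero]

/-- A crossing turn passes over the new edge. -/
theorem exists_Bw_of_cross (h : H) (m : ℕ)
    (hc : (pos (be (w h)) ≤ m ∧ m < pos (w (φ h))) ∨ (pos (w (φ h)) ≤ m ∧ m < pos (be (w h)))) :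
    ∃ k b, Bw φ be w pos k = Sum.inr (m, b) := by
  rcases hc with ⟨h1, h2⟩ | ⟨h1, h2⟩
  · have hp : pos (be (w h)) < pos (w (φ h)) := by omega
    have hg := gap_up hp
    have hj1 : (m - pos (be (w h))) + 1 < gap φ be w pos h + 1 := by omega
    refine ⟨⟨h, ⟨(m - pos (be (w h))) + 1, hj1⟩⟩, true, ?_⟩
    rw [Bw_up h _ hj1 hp]
    congr 2
    omega
  · have hp : pos (w (φ h)) < pos (be (w h)) := by omega
    have hp' : ¬ pos (be (w h)) < pos (w (φ h)) := by omega
    have hg := gap_down hp
    have hj1 : (pos (be (w h)) - m - 1) + 1 < gap φ be w pos h + 1 := by omega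
    refine ⟨⟨h, ⟨(pos (be (w h)) - m - 1) + 1, hj1⟩⟩, false, ?_⟩
    rw [Bw_down h _ hj1 hp']
    congr 2
    omega

theorem bool_not_eq_of_ne {a b : Bool} (h : ¬ a = b) : (!a) = b := by
  cases a <;> cases b <;> first | rfl | exact absurd rfl h

theorem Bw_range (N : ℕ) (hN : ∀ e, pos e < N) (k : BH φ be w pos) (m : ℕ) (b : Bool)
    (hk : Bw φ be w pos k = Sum.inr (m, b)) : m + 1 < N := by
  obtain ⟨j, hj, hkj⟩ := Bw_inr k (m, b) hk
  rw [hkj] at hk
  by_cases hp : pos (be (w k.1)) < pos (w (φ k.1))
  · have hg := gap_up hp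
    rw [Bw_up k.1 j hj hp] at hk
    have h1 : pos (be (w k.1)) + j = m := congrArg Prod.fst (Sum.inr.inj hk)
    have h2 := hN (w (φ k.1))
    omega
  · rw [Bw_down k.1 j hj hp] at hk
    have h1 : pos (be (w k.1)) - (j + 1) = m := congrArg Prod.fst (Sum.inr.inj hk)
    have h2 := hN (be (w k.1))
    have hg : gap φ be w pos k.1 =
      (pos (w (φ k.1)) - pos (be (w k.1))) + (pos (be (w k.1)) - pos (w (φ k.1))) := rfl
    omega

end turns

variable {H Q E : Type} [Fintype H] [Fintype Q] {L : ℕ} {φ ι : Perm H} {bq : Q → Q} {γ : H → Q}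
  {be : E → E} {ε : Q → E}

/-- From a minimal counterexample to a counterexample over a line. -/
theorem exists_lev (hm : MinCfg L φ ι bq γ be ε) :
    ∃ (H' Q' E' : Type) (_ : Fintype H') (_ : Fintype Q') (φ' ι' : Perm H') (bq' : Q' → Q')
      (γ' : H' → Q') (be' : E' → E') (ε' : Q' → E') (lev : E' → ℕ) (N : ℕ),
      Adm φ' bq' γ' be' ε' ∧ Pairing φ' ι' be' (fun h => ε' (γ' h)) ∧
      Maxl φ' ι' bq' γ' be' ε' ∧ Lev φ' be' (fun h => ε' (γ' h)) lev N ∧
      ¬ DepAll φ' bq' γ' := by
  classical
  have hadm := hm.ctr.adm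
  have hfinE : Finite E := Finite.of_surjective (fun h : H => ε (γ h)) hm.maxl.surjE
  have hne : Nonempty H := by
    by_contra hemp
    rw [not_nonempty_iff] at hemp
    apply hm.ctr.ndep
    intro G _ l _
    exact ⟨[], fun _ => 1, ⟨List.nodup_nil, fun x => (hemp.false x).elim⟩, by simp⟩
  obtain ⟨h0⟩ := hne
  have hcard : 2 ≤ Nat.card E := by
    have : Nontrivial E := ⟨be (ε (γ h0)), ε (γ h0), hadm.be_ne _⟩
    exact Finite.one_lt_card
  obtain ⟨w, hw⟩ : ∃ w : H → E, w = fun h => ε (γ h) := ⟨_, rfl⟩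
  have hwh : ∀ h, ε (γ h) = w h := fun h => by rw [hw]
  obtain ⟨pos, hinj, hlt, hpre, hsuf⟩ := exists_order
    (fun a b : E => ∃ h, a = be (w h) ∧ b = w (φ h)) hcard
    (by
      intro c hc a b
      refine hm.conn c (fun h => ?_) a b
      rw [hwh, hwh]
      exact hc _ _ ⟨h, rfl, rfl⟩)
    (by
      intro i c hc a b ha hb
      refine hm.nocut i c (fun h h1 h2 => ?_) a b ha hb
      rw [hwh] at h1 h2 ⊢
      rw [hwh]
      exact hc _ _ ⟨h, rfl, rfl⟩ h1 h2)
  -- every position is taken
  have hsurj : ∀ m, m < Nat.card E → ∃ e, pos e = m := by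
    intro m hmc
    have hftE : Fintype E := Fintype.ofFinite E
    have h1 : Function.Bijective (fun e : E => (⟨pos e, hlt e⟩ : Fin (Nat.card E))) := by
      rw [Fintype.bijective_iff_injective_and_card]
      refine ⟨?_, ?_⟩
      · intro a b hab
        exact hinj (congrArg Fin.val hab)
      · rw [Fintype.card_fin, Nat.card_eq_fintype_card]
    obtain ⟨e, he⟩ := h1.2 ⟨m, hmc⟩
    exact ⟨e, congrArg Fin.val he⟩
  -- the blow-up and its maximal refinement
  obtain ⟨Q1, fQ1, bq1, γ1, ε1, hC1, hw1⟩ := blow hm.ctr pos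
  have hneB : Nonempty (BH φ be (fun h => ε (γ h)) pos) := ⟨⟨h0, ⟨0, Nat.succ_pos _⟩⟩⟩
  obtain ⟨ι1, hP1⟩ := exists_pairing hC1.adm.be_be hC1.adm.be_ne hC1.dep
  obtain ⟨Q', E', fQ', bq', γ', be', ε', π, τ, hA', hP', hR, hM'⟩ := exists_maximal hC1.adm hP1
  have hD : ¬ DepAll (Bφ φ be (fun h => ε (γ h)) pos) bq' γ' := by
    intro hD
    apply hC1.ndep
    have h3 := DepAll.map π hR.pi_bq hD
    have h4 : (fun x => π (γ' x)) = γ1 := funext hR.pi_gam
    rw [h4] at h3
    exact h3
  have hτ : ∀ e, τ (be' e) = Bbe be (τ e) := hR.tau_be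
  have hτw : ∀ k, τ (ε' (γ' k)) = Bw φ be (fun h => ε (γ h)) pos k := by
    intro k
    rw [hR.tau_eps, hR.pi_gam, hw1]
  have hτinj : Function.Injective τ := by
    refine spine_injective hm pos hinj ?_ ?_ hA' hD hP' hM' τ hτ hτw
    · intro m c hc
      refine hpre m c ?_
      rintro a b ⟨h, rfl, rfl⟩ h1 h2
      have := hc h
      rw [hwh, hwh] at this
      exact this h1 h2
    · intro m c hc
      refine hsuf m c ?_
      rintro a b ⟨h, rfl, rfl⟩ h1 h2
      have := hc h
      rw [hwh, hwh] at this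
      exact this h1 h2
  -- crossing turns
  have hcross : ∀ m, m + 1 < Nat.card E → ∃ h, (pos (be (w h)) ≤ m ∧ m < pos (w (φ h))) ∨
      (pos (w (φ h)) ≤ m ∧ m < pos (be (w h))) := by
    intro m hmc
    by_contra hcon
    push Not at hcon
    obtain ⟨a, ha⟩ := hsurj m (by omega)
    obtain ⟨b, hb⟩ := hsurj (m + 1) hmc
    have h1 := hm.conn (fun e => pos e ≤ m) (by
      intro h
      rw [hwh, hwh]
      have h2 := hcon h
      apply propext
      constructor
      · intro h3
        exact h2.1 h3
      · intro h3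
        exact h2.2 h3) a b
    have h2 : pos b ≤ m := h1.mp (show pos a ≤ m by omega)
    omega
  -- the classes over the petals and over the new edges
  have hpetal : ∀ e, ∃ x, τ x = Sum.inl e := by
    intro e
    obtain ⟨h, hh⟩ := hm.maxl.surjE e
    refine ⟨ε' (γ' ⟨h, ⟨0, Nat.succ_pos _⟩⟩), ?_⟩
    rw [hτw, Bw_zero]
    exact congrArg Sum.inl hh
  have hnew : ∀ m b, m + 1 < Nat.card E → ∃ x, τ x = Sum.inr (m, b) := by
    intro m b hmc
    obtain ⟨h, hh⟩ := hcross m hmc
    rw [hw] at hh
    obtain ⟨k, b', hk⟩ := exists_Bw_of_cross (φ := φ) (be := be) (w := fun h => ε (γ h))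
      (pos := pos) h m hh
    by_cases hbb : b' = b
    · exact ⟨ε' (γ' k), by rw [hτw, hk, hbb]⟩
    · refine ⟨be' (ε' (γ' k)), ?_⟩
      rw [hτ, hτw, hk]
      show Sum.inr (m, !b') = _
      rw [bool_not_eq_of_ne hbb]
  obtain ⟨lev, hlev⟩ : ∃ lev : E' → ℕ, ∀ x, lev x = Blev pos (τ x) := ⟨_, fun _ => rfl⟩
  have hrange : ∀ x m b, τ x = Sum.inr (m, b) → m + 1 < Nat.card E := by
    intro x m b hx
    obtain ⟨k, hk⟩ := hM'.surjE x
    exact Bw_range (Nat.card E) hlt k m b (by rw [← hτw, hk, hx])
  -- the classes of a given level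
  have hclass : ∀ x m e, lev x = m → pos e = m → (τ x = Sum.inl e ∨
      (m + 1 < Nat.card E ∧ τ x = Sum.inr (m, true)) ∨
      (0 < m ∧ τ x = Sum.inr (m - 1, false))) := by
    intro x m e hx he
    rw [hlev] at hx
    rcases hy : τ x with e' | ⟨m', b⟩
    · left
      rw [hy] at hx
      have h1 : pos e' = m := hx
      rw [hinj (h1.trans he.symm)]
    · right
      rw [hy] at hx
      cases b with
      | true =>
        left
        have h1 : m' = m := hx
        have h2 := hrange x m' true hy
        rw [h1] at h2 ⊢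
        exact ⟨h2, rfl⟩
      | false =>
        right
        have h1 : m' + 1 = m := hx
        refine ⟨by omega, ?_⟩
        rw [← h1]
        rfl
  have hTn : ∀ x y, Tn φ be (fun h => ε (γ h)) pos (τ x) (τ y) →
      ∃ k, be' (ε' (γ' k)) = x ∧ ε' (γ' (Bφ φ be (fun h => ε (γ h)) pos k)) = y := by
    rintro x y ⟨k, hk1, hk2⟩
    refine ⟨k, hτinj ?_, hτinj ?_⟩
    · rw [hτ, hτw, hk1]
    · rw [hτw, hk2]
  -- turns of the three types
  have hPU : ∀ e, pos e + 1 < Nat.card E →
      Tn φ be (fun h => ε (γ h)) pos (Sum.inl e) (Sum.inr (pos e, true)) ∨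
        Tn φ be (fun h => ε (γ h)) pos (Sum.inr (pos e, true)) (Sum.inl e) := by
    intro e he
    obtain ⟨b, hb⟩ := hsurj (pos e + 1) he
    by_contra hcon
    push Not at hcon
    have h1 := hsuf (pos e) (fun x => x = e) (by
      rintro x y ⟨h, rfl, rfl⟩ hx hy
      apply propext
      constructor
      · intro h3
        by_contra h4
        apply hcon.1
        have h5 : pos (be (w h)) < pos (w (φ h)) := by
          rw [h3]
          rcases Nat.lt_or_ge (pos e) (pos (w (φ h))) with h6 | h6
          · exact h6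
          · exact absurd (hinj (le_antisymm h6 hy)) h4
        have h6 := Tn_up_start h h5
        rw [h3] at h6
        rw [hw] at h6
        exact h6
      · intro h3
        by_contra h4
        apply hcon.2
        have h5 : pos (w (φ h)) < pos (be (w h)) := by
          rw [h3]
          rcases Nat.lt_or_ge (pos e) (pos (be (w h))) with h6 | h6
          · exact h6
          · exact absurd (hinj (le_antisymm h6 hx)) h4
        have h6 := Tn_down_end h h5
        rw [h3] at h6
        rw [hw] at h6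
        exact h6) e b le_rfl (by omega)
    have h2 : b = e := h1.mp rfl
    rw [h2] at hb
    omega
  have hPD : ∀ e, 0 < pos e →
      Tn φ be (fun h => ε (γ h)) pos (Sum.inl e) (Sum.inr (pos e - 1, false)) ∨
        Tn φ be (fun h => ε (γ h)) pos (Sum.inr (pos e - 1, false)) (Sum.inl e) := by
    intro e he
    obtain ⟨b, hb⟩ := hsurj (pos e - 1) (by have := hlt e; omega)
    by_contra hcon
    push Not at hcon
    have h1 := hpre (pos e) (fun x => x = e) (by
      rintro x y ⟨h, rfl, rfl⟩ hx hy
      apply propext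
      constructor
      · intro h3
        by_contra h4
        apply hcon.1
        have h5 : pos (w (φ h)) < pos (be (w h)) := by
          rw [h3]
          rcases Nat.lt_or_ge (pos (w (φ h))) (pos e) with h6 | h6
          · exact h6
          · exact absurd (hinj (le_antisymm hy h6)) h4
        have h6 := Tn_down_start h h5
        rw [h3] at h6
        rw [hw] at h6
        exact h6
      · intro h3
        by_contra h4
        apply hcon.2
        have h5 : pos (be (w h)) < pos (w (φ h)) := by
          rw [h3]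
          rcases Nat.lt_or_ge (pos (be (w h))) (pos e) with h6 | h6
          · exact h6
          · exact absurd (hinj (le_antisymm hx h6)) h4
        have h6 := Tn_up_end h h5
        rw [h3] at h6
        rw [hw] at h6
        exact h6) e b le_rfl (by omega)
    have h2 : b = e := h1.mp rfl
    rw [h2] at hb
    omega
  have hUD : ∀ m, 0 < m → m + 1 < Nat.card E →
      Tn φ be (fun h => ε (γ h)) pos (Sum.inr (m, true)) (Sum.inr (m - 1, false)) ∨
        Tn φ be (fun h => ε (γ h)) pos (Sum.inr (m - 1, false)) (Sum.inr (m, true)) := by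
    intro m hm0 hm1
    obtain ⟨i, hi⟩ := hsurj m (by omega)
    obtain ⟨a, ha⟩ := hsurj (m - 1) (by omega)
    obtain ⟨b, hb⟩ := hsurj (m + 1) hm1
    by_contra hcon
    push Not at hcon
    have h1 := hm.nocut i (fun x => pos x < m) (by
      intro h h1 h2
      rw [hwh] at h1 h2 ⊢
      rw [hwh]
      have h1' : pos (be (w h)) ≠ m := fun h3 => h1 (hinj (h3.trans hi.symm))
      have h2' : pos (w (φ h)) ≠ m := fun h3 => h2 (hinj (h3.trans hi.symm))
      apply propext
      constructor
      · intro h3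
        by_contra h4
        apply hcon.2
        have h5 : m < pos (w (φ h)) := by omega
        have h6 := Tn_up_mid h m h3 h5
        rw [hw] at h6
        exact h6
      · intro h3
        by_contra h4
        apply hcon.1
        have h5 : m < pos (be (w h)) := by omega
        have h6 := Tn_down_mid h m h3 h5
        rw [hw] at h6
        exact h6) a b (by rintro rfl; omega) (by rintro rfl; omega)
    have h2 : pos b < m := h1.mp (show pos a < m by omega)
    omega
  refine ⟨BH φ be (fun h => ε (γ h)) pos, Q', E', inferInstance, fQ',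
    Bφ φ be (fun h => ε (γ h)) pos, ι1, bq', γ', be', ε', lev, Nat.card E, hA', hP', hM',
    ⟨?_, ?_, hcard, ?_, ?_, ?_, ?_⟩, hD⟩
  · intro k
    show lev (be' (ε' (γ' k))) = lev (ε' (γ' (Bφ φ be (fun h => ε (γ h)) pos k)))
    rw [hlev, hlev, hτ, hτw, hτw]
    exact Blev_turn φ be (fun h => ε (γ h)) pos k
  · intro x
    rw [hlev]
    rcases hy : τ x with e' | ⟨m', b⟩
    · exact hlt e'
    · have h1 := hrange x m' b hy
      cases b with
      | true =>
        show m' < _
        omega
      | false =>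
        show m' + 1 < _
        omega
  · intro m hmN hend
    obtain ⟨e, he⟩ := hsurj m hmN
    obtain ⟨x, hx⟩ := hpetal e
    have hlx : lev x = m := by
      rw [hlev, hx]
      exact he
    rcases hend with h0 | h1
    · obtain ⟨y, hy⟩ := hnew m true (by omega)
      have hly : lev y = m := by
        rw [hlev, hy]
        rfl
      have hxy : x ≠ y := by
        rintro rfl
        rw [hx] at hy
        exact absurd hy (by simp)
      have hset : {z | lev z = m} = ({x, y} : Set E') := by
        ext z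
        simp only [Set.mem_ofPred_eq, Set.mem_insert_iff, Set.mem_singleton_iff]
        constructor
        · intro hz
          rcases hclass z m e hz he with h | ⟨_, h⟩ | ⟨h, _⟩
          · left
            exact hτinj (h.trans hx.symm)
          · right
            exact hτinj (h.trans hy.symm)
          · omega
        · rintro (rfl | rfl)
          · exact hlx
          · exact hly
      rw [show Nat.card {z // lev z = m} = Set.ncard {z | lev z = m} from rfl, hset,
        Set.ncard_pair hxy]
    · obtain ⟨y, hy⟩ := hnew (m - 1) false (by omega)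
      have hly : lev y = m := by
        rw [hlev, hy]
        show m - 1 + 1 = m
        omega
      have hxy : x ≠ y := by
        rintro rfl
        rw [hx] at hy
        exact absurd hy (by simp)
      have hset : {z | lev z = m} = ({x, y} : Set E') := by
        ext z
        simp only [Set.mem_ofPred_eq, Set.mem_insert_iff, Set.mem_singleton_iff]
        constructor
        · intro hz
          rcases hclass z m e hz he with h | ⟨h, _⟩ | ⟨_, h⟩
          · left
            exact hτinj (h.trans hx.symm)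
          · omega
          · right
            exact hτinj (h.trans hy.symm)
        · rintro (rfl | rfl)
          · exact hlx
          · exact hly
      rw [show Nat.card {z // lev z = m} = Set.ncard {z | lev z = m} from rfl, hset,
        Set.ncard_pair hxy]
  · intro m hm0 hm1
    obtain ⟨e, he⟩ := hsurj m (by omega)
    obtain ⟨x, hx⟩ := hpetal e
    have hlx : lev x = m := by
      rw [hlev, hx]
      exact he
    obtain ⟨y, hy⟩ := hnew m true hm1
    have hly : lev y = m := by
      rw [hlev, hy]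
      rfl
    obtain ⟨z, hz⟩ := hnew (m - 1) false (by omega)
    have hlz : lev z = m := by
      rw [hlev, hz]
      show m - 1 + 1 = m
      omega
    have hxy : x ≠ y := by
      rintro rfl
      rw [hx] at hy
      exact absurd hy (by simp)
    have hxz : x ≠ z := by
      rintro rfl
      rw [hx] at hz
      exact absurd hz (by simp)
    have hyz : y ≠ z := by
      rintro rfl
      rw [hy] at hz
      exact absurd hz (by simp)
    have hset : {z | lev z = m} = ({x, y, z} : Set E') := by
      ext t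
      simp only [Set.mem_ofPred_eq, Set.mem_insert_iff, Set.mem_singleton_iff]
      constructor
      · intro ht
        rcases hclass t m e ht he with h | ⟨_, h⟩ | ⟨_, h⟩
        · left
          exact hτinj (h.trans hx.symm)
        · right; left
          exact hτinj (h.trans hy.symm)
        · right; right
          exact hτinj (h.trans hz.symm)
      · rintro (rfl | rfl | rfl)
        · exact hlx
        · exact hly
        · exact hlz
    rw [show Nat.card {z // lev z = m} = Set.ncard {z | lev z = m} from rfl, hset,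
      Set.ncard_eq_three.mpr ⟨x, y, z, hxy, hxz, hyz, rfl⟩]
  · intro x y hl hxy hx0 hx1
    obtain ⟨e, he⟩ := hsurj (lev x) (by omega)
    have hgoal : Tn φ be (fun h => ε (γ h)) pos (τ x) (τ y) ∨
        Tn φ be (fun h => ε (γ h)) pos (τ y) (τ x) := by
      have hneq : τ x ≠ τ y := fun h => hxy (hτinj h)
      have h1 := hPU e (by omega)
      have h2 := hPD e (by omega)
      have h3 := hUD (lev x) hx0 hx1
      rw [he] at h1 h2
      rcases hclass x (lev x) e rfl he with h | ⟨_, h⟩ | ⟨_, h⟩ <;>
        rcases hclass y (lev x) e hl.symm he with h' | ⟨_, h'⟩ | ⟨_, h'⟩ <;>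
        rw [h, h'] at hneq ⊢
      · exact absurd rfl hneq
      · exact h1
      · exact h2
      · exact h1.symm
      · exact absurd rfl hneq
      · exact h3
      · exact h2.symm
      · exact h3.symm
      · exact absurd rfl hneq
    rcases hgoal with h | h
    · obtain ⟨k, hk1, hk2⟩ := hTn x y h
      exact ⟨k, Or.inl ⟨hk1, hk2⟩⟩
    · obtain ⟨k, hk1, hk2⟩ := hTn y x h
      exact ⟨k, Or.inr ⟨hk1, hk2⟩⟩
  · rw [ncyc_Bφ]
    exact card_E_ge hadm hm.maxl.surjE

end Pool.Agent.H57.Stall
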