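import Mathlib
import Pool.Agent.H57.Stall.Rank

set_option autoImplicit false

namespace Pool.Agent.H57.Stall

open Equiv

variable {H Q E : Type} [Fintype H] [Fintype Q] {φ ι : Perm H} {bq : Q → Q} {γ : H → Q}
  {be : E → E} {ε : Q → E}

/-- If every edge of `Γ` is traversed once in each direction, the boundary words are dependent. -/
theorem depAll_of_injective (hA : Adm φ bq γ be ε) (hP : Pairing φ ι be fun h => ε (γ h))
    (hM : Maxl φ ι bq γ be ε) (hinj : Function.Injective γ) : DepAll φ bq γ := by
  classical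
  have hbij : Function.Bijective γ := ⟨hinj, hA.surj hP⟩
  let g : H ≃ Q := Equiv.ofBijective γ hbij
  have hg : ∀ h, g h = γ h := fun h => rfl
  let b : Q ≃ Q := ⟨bq, bq, hA.bq_bq, hA.bq_bq⟩
  have hb : ∀ q, b q = bq q := fun q => rfl
  let j : Perm H := (g.trans b).trans g.symm
  have hj : ∀ h, γ (j h) = bq (γ h) := by
    intro h
    show γ (g.symm (b (g h))) = bq (γ h)
    rw [← hg, Equiv.apply_symm_apply, hb, hg]
  have inv : ∀ h, j (j h) = h := by
    intro h
    apply hinj
    rw [hj, hj, hA.bq_bq]
  have ne : ∀ h, j h ≠ h := by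
    intro h hh
    have := hj h
    rw [hh] at this
    exact hA.bq_ne _ this.symm
  -- corners and vertices
  let q : H ≃ Q := g.trans b
  have hq : ∀ h, q h = bq (γ h) := fun h => rfl
  have hqs : ∀ h, q ((j * φ) h) = γ (φ h) := by
    intro h
    rw [hq, Perm.mul_apply, hj, hA.bq_bq]
  have h1 : ∀ (i : ℤ) (h : H), Vrel φ bq γ (q h) (q (((j * φ) ^ i) h)) := by
    intro i h
    induction i using Int.induction_on with
    | zero => simpa using Vrel.refl _
    | succ i ih =>
      have h2 : ((j * φ) ^ ((i : ℤ) + 1)) h = (j * φ) (((j * φ) ^ (i : ℤ)) h) := by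
        rw [add_comm, zpow_add, zpow_one, Perm.mul_apply]
      rw [h2, hqs]
      exact ih.trans (by rw [hq]; exact Vrel.turn _)
    | pred i ih =>
      have h2 : ((j * φ) ^ (-(i : ℤ))) h = (j * φ) (((j * φ) ^ (-(i : ℤ) - 1)) h) := by
        rw [← Perm.mul_apply, ← zpow_one_add]
        congr 2
        ring
      rw [h2, hqs] at ih
      exact ih.trans (by rw [hq]; exact (Vrel.turn _).symm)
  have h2 : ∀ h h', (j * φ).SameCycle h h' ↔ Vrel φ bq γ (q h) (q h') := by
    intro h h'
    constructor
    · rintro ⟨i, rfl⟩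
      exact h1 i h
    · intro hv
      have h3 := hv (fun x => (j * φ).SameCycle h (q.symm x)) (by
        intro k
        show (j * φ).SameCycle h (q.symm (bq (γ k))) = (j * φ).SameCycle h (q.symm (γ (φ k)))
        rw [← hq, ← hqs, Equiv.symm_apply_apply, Equiv.symm_apply_apply]
        exact propext (Perm.sameCycle_apply_right).symm)
      have h4 : (j * φ).SameCycle h (q.symm (q h)) = (j * φ).SameCycle h (q.symm (q h')) := h3
      rw [Equiv.symm_apply_apply, Equiv.symm_apply_apply] at h4
      rw [← h4]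
  have hn : ncyc (j * φ) = nV φ bq γ :=
    Nat.card_congr (Quotient.congr q fun x y => h2 x y)
  have hcard : Fintype.card H = Fintype.card Q := Fintype.card_congr g
  have hcount : Fintype.card H + 4 ≤ 2 * (ncyc φ + ncyc (j * φ)) := by
    rw [hn, hcard]
    exact rank_bound hA hP hM
  have htrans : ∀ f : H → ℚ, (∀ h, f (φ h) = f h) → (∀ h, f (j h) = f h) →
      ∀ h h', f h = f h' := by
    intro f hf hfj
    apply hA.ind f hf
    intro g' hg'
    have h5 : ∑ h, g' (γ h) * f h = ∑ h, g' (γ (j h)) * f (j h) :=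
      (Equiv.sum_comp j (fun h => g' (γ h) * f h)).symm
    have h6 : ∑ h, g' (γ (j h)) * f (j h) = - ∑ h, g' (γ h) * f h := by
      rw [← Finset.sum_neg_distrib]
      apply Finset.sum_congr rfl
      intro h _
      rw [hj, hg', hfj]
      ring
    linarith
  intro G _ l hl
  refine dep_of_pairing inv ne hcount htrans _ fun h => ?_
  show l (γ (j h)) = (l (γ h))⁻¹
  rw [hj, hl]

end Pool.Agent.H57.Stall
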