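import Mathlib
import Pool.Agent.H57.Stall.Lev

set_option autoImplicit false

namespace Pool.Agent.H57.Stall

open Equiv

variable {H Q E : Type} [Fintype H] [Fintype Q] {φ ι : Perm H} {bq : Q → Q} {γ : H → Q}
  {be : E → E} {ε : Q → E}

theorem eq_not_of_ne : ∀ {b c : Bool}, b ≠ c → b = !c := by decide

omit [Fintype H] [Fintype Q] in
/-- An end of an arc is the end of one of its half-arcs. -/
theorem exists_hend (h : H) (q : Q) (hq : γ h = q ∨ bq (γ (ι h)) = q) :
    ∃ b, q = hend ι bq γ (h, b) := by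
  rcases hq with h1 | h1
  · exact ⟨false, h1.symm⟩
  · exact ⟨true, h1.symm⟩

omit [Fintype H] [Fintype Q] in
theorem shared_inl {e : E} {A : Set (H × Bool)} (x y : H × Bool) (q : Q) (hx : x ∈ A)
    (hxe : ε (γ x.1) = e) (hxq : q = hend ι bq γ x) (hy : y ∉ A) (hye : ε (γ y.1) = e)
    (hyq : q = hend ι bq γ y) : Shared ι bq γ ε e A (Sum.inl q) :=
  ⟨⟨x, hx, hxe, Or.inl (by rw [hxq])⟩, ⟨y, hy, hye, Or.inl (by rw [hyq])⟩⟩

omit [Fintype H] [Fintype Q] in
theorem shared_inr {e : E} {A : Set (H × Bool)} (k : H) (b : Bool) (hk : ε (γ k) = e)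
    (h1 : (k, b) ∉ A) (h2 : (k, !b) ∈ A) : Shared ι bq γ ε e A (Sum.inr k) :=
  ⟨⟨(k, !b), h2, hk, Or.inr rfl⟩, ⟨(k, b), h1, hk, Or.inr rfl⟩⟩

/-- The fibre graph over `e`, subdivided, has no cut vertex: the fibre graph has no cut vertex and
no bridge. -/
theorem half_cut (hA : Adm φ bq γ be ε) (hP : Pairing φ ι be fun h => ε (γ h))
    (hM : Maxl φ ι bq γ be ε) (e : E) (A : Set (H × Bool))
    (h1 : ∃ x, x ∈ A ∧ ε (γ x.1) = e) (h2 : ∃ x, x ∉ A ∧ ε (γ x.1) = e) :
    ∃ u v, u ≠ v ∧ Shared ι bq γ ε e A u ∧ Shared ι bq γ ε e A v := by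
  classical
  by_cases hsp : ∃ k b, ε (γ k) = e ∧ (k, b) ∉ A ∧ (k, !b) ∈ A
  · obtain ⟨k, b0, hk, hk1, hk2⟩ := hsp
    have hSk := shared_inr (ι := ι) (bq := bq) k b0 hk hk1 hk2
    by_cases hsp2 : ∃ k' b, k' ≠ k ∧ ε (γ k') = e ∧ (k', b) ∉ A ∧ (k', !b) ∈ A
    · obtain ⟨k', b', hne, hk', hk1', hk2'⟩ := hsp2
      refine ⟨Sum.inr k, Sum.inr k', ?_, hSk, shared_inr (ι := ι) (bq := bq) k' b' hk' hk1' hk2'⟩
      intro hc
      exact hne (Sum.inr.inj hc).symm
    · -- all other arcs are not split
      have hns : ∀ g, g ≠ k → ε (γ g) = e → ∀ b b', ((g, b) ∈ A ↔ (g, b') ∈ A) := by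
        intro g hg hge b b'
        have h3 : ∀ b, (g, b) ∈ A → (g, !b) ∈ A := by
          intro b hb
          by_contra hc
          exact hsp2 ⟨g, !b, hg, hge, hc, by rw [Bool.not_not]; exact hb⟩
        have h4 : ∀ b, (g, !b) ∈ A → (g, b) ∈ A := by
          intro b hb
          have := h3 _ hb
          rwa [Bool.not_not] at this
        cases b <;> cases b'
        · exact Iff.rfl
        · exact ⟨h3 false, h4 false⟩
        · exact ⟨h3 true, h4 true⟩
        · exact Iff.rfl
      have hfin : ∃ q, Shared ι bq γ ε e A (Sum.inl q) := by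
        by_cases hSB : ∃ g, g ≠ k ∧ ε (γ g) = e ∧ ∀ b, (g, b) ∉ A
        · -- cut with the arcs in A together with k
          obtain ⟨g, hgk, hge, hgA⟩ := hSB
          obtain ⟨q, q', hqq, hq1, hq2, hq3, hq4⟩ := hM.cut e {h | h = k ∨ ∀ b, (h, b) ∈ A}
            ⟨k, Or.inl rfl, hk⟩
            ⟨g, by
              rintro (hc | hc)
              · exact hgk hc
              · exact hgA false (hc false), hge⟩
          have key : ∀ q, Inc ι bq γ ε e {h | h = k ∨ ∀ b, (h, b) ∈ A} q →
              Inc ι bq γ ε e {h | h = k ∨ ∀ b, (h, b) ∈ A}ᶜ q →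
              Shared ι bq γ ε e A (Sum.inl q) ∨ q = hend ι bq γ (k, b0) := by
            rintro q ⟨h, hh1, hh2, hh3⟩ ⟨h', hh1', hh2', hh3'⟩
            obtain ⟨b, hb⟩ := exists_hend h q hh3
            obtain ⟨b', hb'⟩ := exists_hend h' q hh3'
            have hh1'' : ¬ (h' = k ∨ ∀ b, (h', b) ∈ A) := hh1'
            have hk' : h' ≠ k := fun hc => hh1'' (Or.inl hc)
            have hA' : (h', b') ∉ A := by
              intro hc
              exact hh1'' (Or.inr fun b => (hns h' hk' hh2' b' b).mp hc)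
            rcases hh1 with rfl | hh1
            · by_cases hbb : b = b0
              · right
                rw [hb, hbb]
              · left
                have hb2 : b = !b0 := eq_not_of_ne hbb
                subst hb2
                exact shared_inl (h, !b0) (h', b') q hk2 hh2 hb hA' hh2' hb'
            · left
              exact shared_inl (h, b) (h', b') q (hh1 b) hh2 hb hA' hh2' hb'
          rcases key q hq1 hq2 with h3 | h3
          · exact ⟨q, h3⟩
          · rcases key q' hq3 hq4 with h4 | h4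
            · exact ⟨q', h4⟩
            · exact absurd (h3.trans h4.symm) hqq
        · by_cases hSA : ∃ g, g ≠ k ∧ ε (γ g) = e ∧ ∀ b, (g, b) ∈ A
          · obtain ⟨g, hgk, hge, hgA⟩ := hSA
            obtain ⟨q, q', hqq, hq1, hq2, hq3, hq4⟩ := hM.cut e {h | ∀ b, (h, b) ∈ A}
              ⟨g, hgA, hge⟩ ⟨k, fun hc => hk1 (hc b0), hk⟩
            have key : ∀ q, Inc ι bq γ ε e {h | ∀ b, (h, b) ∈ A} q →
                Inc ι bq γ ε e {h | ∀ b, (h, b) ∈ A}ᶜ q →
                Shared ι bq γ ε e A (Sum.inl q) ∨ q = hend ι bq γ (k, !b0) := by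
              rintro q ⟨h, hh1, hh2, hh3⟩ ⟨h', hh1', hh2', hh3'⟩
              obtain ⟨b, hb⟩ := exists_hend h q hh3
              obtain ⟨b', hb'⟩ := exists_hend h' q hh3'
              have hh1'' : ¬ ∀ b, (h', b) ∈ A := hh1'
              have hk' : h' = k := by
                by_contra hc
                apply hSB
                refine ⟨h', hc, hh2', fun b hb => ?_⟩
                exact hh1'' fun b'' => (hns h' hc hh2' b b'').mp hb
              subst hk'
              by_cases hbb : b' = b0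
              · left
                subst hbb
                exact shared_inl (h, b) (h', b') q (hh1 b) hh2 hb hk1 hh2' hb'
              · right
                have hb2 : b' = !b0 := eq_not_of_ne hbb
                rw [hb', hb2]
            rcases key q hq1 hq2 with h3 | h3
            · exact ⟨q, h3⟩
            · rcases key q' hq3 hq4 with h4 | h4
              · exact ⟨q', h4⟩
              · exact absurd (h3.trans h4.symm) hqq
          · -- k is the only arc over e
            have honly : ∀ g, ε (γ g) = e → g = k := by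
              intro g hge
              by_contra hc
              by_cases hg : (g, false) ∈ A
              · exact hSA ⟨g, hc, hge, fun b => (hns g hc hge false b).mp hg⟩
              · exact hSB ⟨g, hc, hge, fun b hb => hg ((hns g hc hge b false).mp hb)⟩
            have hbal := hA.balanced hP (γ k)
            have hne : Nonempty {h // γ h = γ k} := ⟨⟨k, rfl⟩⟩
            have hpos : 0 < Nat.card {h // γ h = γ k} := Nat.card_pos
            rw [hbal] at hpos
            obtain ⟨⟨h, hh⟩⟩ := (Nat.card_pos_iff.mp hpos).1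
            have h3 : ε (γ (ι h)) = e := by
              have h4 : ε (γ (ι h)) = be (ε (γ h)) := hP.lab h
              rw [h4, hh, hA.eps_bq, hA.be_be, hk]
            have h5 : ι h = k := honly _ h3
            have h6 : ι k = h := by rw [← h5, hP.inv]
            have h7 : bq (γ (ι k)) = γ k := by rw [h6, hh, hA.bq_bq]
            have h8 : ∀ b, γ k = hend ι bq γ (k, b) := by
              intro b
              cases b
              · rfl
              · exact h7.symm
            exact ⟨γ k, shared_inl (k, !b0) (k, b0) (γ k) hk2 hk (h8 _) hk1 hk (h8 _)⟩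
      obtain ⟨q, hq⟩ := hfin
      exact ⟨Sum.inr k, Sum.inl q, by simp, hSk, hq⟩
  · -- no arc over e is split
    have hns : ∀ g, ε (γ g) = e → ∀ b b', ((g, b) ∈ A ↔ (g, b') ∈ A) := by
      intro g hge b b'
      have h3 : ∀ b, (g, b) ∈ A → (g, !b) ∈ A := by
        intro b hb
        by_contra hc
        exact hsp ⟨g, !b, hge, hc, by rw [Bool.not_not]; exact hb⟩
      have h4 : ∀ b, (g, !b) ∈ A → (g, b) ∈ A := by
        intro b hb
        have := h3 _ hb
        rwa [Bool.not_not] at this
      cases b <;> cases b'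
      · exact Iff.rfl
      · exact ⟨h3 false, h4 false⟩
      · exact ⟨h3 true, h4 true⟩
      · exact Iff.rfl
    obtain ⟨⟨x, bx⟩, hx1, hx2⟩ := h1
    obtain ⟨⟨y, b'⟩, hy1, hy2⟩ := h2
    obtain ⟨q, q', hqq, hq1, hq2, hq3, hq4⟩ := hM.cut e {h | ∀ b, (h, b) ∈ A}
      ⟨x, fun b => (hns x hx2 bx b).mp hx1, hx2⟩ ⟨y, fun hc => hy1 (hc b'), hy2⟩
    have key : ∀ q, Inc ι bq γ ε e {h | ∀ b, (h, b) ∈ A} q →
        Inc ι bq γ ε e {h | ∀ b, (h, b) ∈ A}ᶜ q → Shared ι bq γ ε e A (Sum.inl q) := by
      rintro q ⟨h, hh1, hh2, hh3⟩ ⟨h', hh1', hh2', hh3'⟩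
      obtain ⟨b, hb⟩ := exists_hend h q hh3
      obtain ⟨b', hb'⟩ := exists_hend h' q hh3'
      have hh1'' : ¬ ∀ b, (h', b) ∈ A := hh1'
      refine shared_inl (h, b) (h', b') q (hh1 b) hh2 hb ?_ hh2' hb'
      intro hc
      exact hh1'' fun b'' => (hns h' hh2' b' b'').mp hc
    exact ⟨Sum.inl q, Sum.inl q', fun hc => hqq (Sum.inl.inj hc), key q hq1 hq2, key q' hq3 hq4⟩

end Pool.Agent.H57.Stall
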