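import Mathlib
import Pool.Agent.H57.Stall.Half
import Pool.Agent.H57.Stall.Rank
import Pool.Agent.H57.Stall.Cyc

set_option autoImplicit false

namespace Pool.Agent.H57.Stall

open Equiv

variable {H Q E : Type} [Fintype H] [Fintype Q] {φ ι : Perm H} {bq : Q → Q} {γ : H → Q}
  {be : E → E} {ε : Q → E} {lev : E → ℕ} {N : ℕ}

/-- The level is a function of the origin. -/
theorem Lev.lev_eq (hA : Adm φ bq γ be ε) (hL : Lev φ be (fun h => ε (γ h)) lev N) {a b : Q}
    (h : Vrel φ bq γ a b) : lev (ε a) = lev (ε b) :=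
  h.eq_of_tinv (f := fun q => lev (ε q)) (hA.tinv_comp (F := lev) hL.turn)

/-- The number of edges with the same origin is at most the number of directions. -/
theorem val_le_card (hA : Adm φ bq γ be ε) (hL : Lev φ be (fun h => ε (γ h)) lev N) (q : Q)
    (k : ℕ) (hk : 0 < k) (hc : Nat.card {e // lev e = lev (ε q)} = k) : val φ bq γ q ≤ k := by
  have hfin : Finite {e // lev e = lev (ε q)} := Nat.finite_of_card_ne_zero (by omega)
  rw [← hc]
  refine Nat.card_le_card_of_injective
    (fun x : {q' // Vrel φ bq γ q q'} => (⟨ε x.1, (hL.lev_eq hA x.2).symm⟩ :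
      {e // lev e = lev (ε q)})) ?_
  intro x y hxy
  have h1 : ε x.1 = ε y.1 := congrArg Subtype.val hxy
  exact Subtype.ext (hA.imm _ _ (x.2.symm.trans y.2) h1)

/-- The other direction of a half-arc. -/
def oth (φ ι : Perm H) (be : E → E) (w : H → E) : H × Bool → E
  | (g, false) => be (w (φ⁻¹ g))
  | (g, true) => w (φ (ι g))

theorem eps_hend (hA : Adm φ bq γ be ε) (hP : Pairing φ ι be fun h => ε (γ h)) (x : H × Bool) :
    ε (hend ι bq γ x) = ε (γ x.1) := by
  obtain ⟨g, b⟩ := x
  cases b with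
  | false => rfl
  | true =>
    show ε (bq (γ (ι g))) = ε (γ g)
    have h1 : ε (γ (ι g)) = be (ε (γ g)) := hP.lab g
    rw [hA.eps_bq, h1, hA.be_be]

/-- The edge of the other direction, with the same origin as the end of the half-arc. -/
theorem exists_oth (x : H × Bool) (hA : Adm φ bq γ be ε) :
    ∃ q, Vrel φ bq γ (hend ι bq γ x) q ∧ ε q = oth φ ι be (fun h => ε (γ h)) x := by
  obtain ⟨g, b⟩ := x
  cases b with
  | false =>
    refine ⟨bq (γ (φ⁻¹ g)), ?_, ?_⟩
    · show Vrel φ bq γ (γ g) (bq (γ (φ⁻¹ g)))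
      have h1 : Vrel φ bq γ (bq (γ (φ⁻¹ g))) (γ (φ (φ⁻¹ g))) := Vrel.turn _
      rw [show φ (φ⁻¹ g) = g from φ.apply_symm_apply g] at h1
      exact h1.symm
    · show ε (bq (γ (φ⁻¹ g))) = be (ε (γ (φ⁻¹ g)))
      rw [hA.eps_bq]
  | true =>
    exact ⟨γ (φ (ι g)), Vrel.turn _, rfl⟩

theorem oth_ne (hA : Adm φ bq γ be ε) (hP : Pairing φ ι be fun h => ε (γ h)) (x : H × Bool) :
    oth φ ι be (fun h => ε (γ h)) x ≠ ε (γ x.1) := by
  obtain ⟨g, b⟩ := x
  cases b with
  | false =>
    show be (ε (γ (φ⁻¹ g))) ≠ ε (γ g)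
    have h1 := hA.redE (φ⁻¹ g)
    rw [show φ (φ⁻¹ g) = g from φ.apply_symm_apply g] at h1
    exact h1.symm
  | true =>
    show ε (γ (φ (ι g))) ≠ ε (γ g)
    have h1 := hA.redE (ι g)
    have h2 : ε (γ (ι g)) = be (ε (γ g)) := hP.lab g
    rw [h2, hA.be_be] at h1
    exact h1

theorem exists_oth_eq (_hA : Adm φ bq γ be ε) (hP : Pairing φ ι be fun h => ε (γ h))
    (hL : Lev φ be (fun h => ε (γ h)) lev N) (e e' : E) (hl : lev e = lev e') (hne : e ≠ e')
    (h0 : 0 < lev e) (h1 : lev e + 1 < N) :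
    ∃ x : H × Bool, ε (γ x.1) = e ∧ oth φ ι be (fun h => ε (γ h)) x = e' := by
  obtain ⟨h, hh⟩ := hL.tri e e' hl hne h0 h1
  rcases hh with ⟨ha, hb⟩ | ⟨ha, hb⟩
  · refine ⟨(ι h, true), ?_, ?_⟩
    · show ε (γ (ι h)) = e
      rw [← ha]
      exact hP.lab h
    · show ε (γ (φ (ι (ι h)))) = e'
      rw [hP.inv]
      exact hb
  · refine ⟨(φ h, false), hb, ?_⟩
    show be (ε (γ (φ⁻¹ (φ h)))) = e'
    rw [show φ⁻¹ (φ h) = h from φ.symm_apply_apply h]
    exact ha

/-- `2 ≤ val ≤ 3`, and `val = 2` at the two end vertices. -/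
theorem val_bounds (hA : Adm φ bq γ be ε) (hP : Pairing φ ι be fun h => ε (γ h))
    (hL : Lev φ be (fun h => ε (γ h)) lev N) (q : Q) :
    (val φ bq γ q = 2 ∨ val φ bq γ q = 3) ∧
      ((lev (ε q) = 0 ∨ lev (ε q) + 1 = N) → val φ bq γ q = 2) := by
  have hge : 2 ≤ val φ bq γ q := by
    obtain ⟨h, hh⟩ := hA.surj hP (bq q)
    have h1 : bq (γ h) = q := by rw [hh, hA.bq_bq]
    have h2 : Vrel φ bq γ q (γ (φ h)) := by
      have := Vrel.turn (φ := φ) (bq := bq) (γ := γ) h
      rwa [h1] at this
    have h3 : γ (φ h) ≠ q := by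
      have := hA.red h
      rwa [h1] at this
    have : Nontrivial {q' // Vrel φ bq γ q q'} :=
      ⟨⟨q, Vrel.refl q⟩, ⟨γ (φ h), h2⟩, fun hc => h3 (congrArg Subtype.val hc).symm⟩
    have h4 := Finite.one_lt_card (α := {q' // Vrel φ bq γ q q'})
    exact h4
  have hlt := hL.lt (ε q)
  by_cases hend : lev (ε q) = 0 ∨ lev (ε q) + 1 = N
  · have h1 := val_le_card hA hL q 2 (by norm_num) (hL.card_end _ hlt hend)
    have h2 : val φ bq γ q = 2 := le_antisymm h1 hge
    exact ⟨Or.inl h2, fun _ => h2⟩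
  · have h1 := val_le_card hA hL q 3 (by norm_num) (hL.card_mid _ (by omega) (by omega))
    exact ⟨by omega, fun h => absurd h hend⟩

/-- Local inequality at an inner vertex. -/
theorem local_ge (hA : Adm φ bq γ be ε) (hP : Pairing φ ι be fun h => ε (γ h))
    (hM : Maxl φ ι bq γ be ε) (hL : Lev φ be (fun h => ε (γ h)) lev N) (e : E)
    (h0 : 0 < lev e) (h1 : lev e + 1 < N) :
    2 ≤ Nat.card {q // ε q = e ∧ val φ bq γ q = 3} +
      Nat.card {g // ε (γ g) = e ∧ Mixed φ ι be (fun h => ε (γ h)) g} := by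
  classical
  -- two other directions
  have hc3 : Nat.card {e' // lev e' = lev e} = 3 := hL.card_mid _ h0 h1
  have hfin : Finite {e' // lev e' = lev e} := Nat.finite_of_card_ne_zero (by omega)
  obtain ⟨e2, e3, hl2, hl3, hn2, hn3, hn23⟩ : ∃ e2 e3 : E, lev e2 = lev e ∧ lev e3 = lev e ∧
      e2 ≠ e ∧ e3 ≠ e ∧ e2 ≠ e3 := by
    have := Fintype.ofFinite {e' // lev e' = lev e}
    rw [Nat.card_eq_fintype_card] at hc3
    have h3 : (Finset.univ : Finset {e' // lev e' = lev e}).card = 3 := hc3
    have h4 : ((Finset.univ : Finset {e' // lev e' = lev e}).erase ⟨e, rfl⟩).card = 2 := by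
      rw [Finset.card_erase_of_mem (Finset.mem_univ _), h3]
    obtain ⟨a, b, hab, hs⟩ := Finset.card_eq_two.mp h4
    have ha : a ∈ ((Finset.univ : Finset {e' // lev e' = lev e}).erase ⟨e, rfl⟩) := by
      rw [hs]; simp
    have hb : b ∈ ((Finset.univ : Finset {e' // lev e' = lev e}).erase ⟨e, rfl⟩) := by
      rw [hs]; simp
    refine ⟨a.1, b.1, a.2, b.2, ?_, ?_, ?_⟩
    · intro hc
      exact (Finset.mem_erase.mp ha).1 (Subtype.ext hc)
    · intro hc
      exact (Finset.mem_erase.mp hb).1 (Subtype.ext hc)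
    · intro hc
      exact hab (Subtype.ext hc)
  set w : H → E := fun h => ε (γ h) with hw
  have hE2 := exists_oth_eq hA hP hL e e2 hl2.symm hn2.symm h0 h1
  have hE3 := exists_oth_eq hA hP hL e e3 hl3.symm hn3.symm h0 h1
  obtain ⟨u, v, huv, hu, hv⟩ := half_cut hA hP hM e {x | oth φ ι be w x = e2}
    (by
      obtain ⟨x, hx1, hx2⟩ := hE2
      exact ⟨x, hx2, hx1⟩)
    (by
      obtain ⟨x, hx1, hx2⟩ := hE3
      refine ⟨x, ?_, hx1⟩
      intro hc
      have hc' : oth φ ι be w x = e2 := hc
      exact hn23 (hc'.symm.trans hx2))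
  -- the shared elements are counted
  have key : ∀ u : Q ⊕ H, Shared ι bq γ ε e {x | oth φ ι be w x = e2} u →
      (∃ q, u = Sum.inl q ∧ ε q = e ∧ val φ bq γ q = 3) ∨
        (∃ g, u = Sum.inr g ∧ ε (γ g) = e ∧ Mixed φ ι be w g) := by
    rintro u ⟨⟨x, hxA, hxe, hux⟩, ⟨y, hyA, hye, huy⟩⟩
    have hxA' : oth φ ι be w x = e2 := hxA
    have hyA' : oth φ ι be w y ≠ e2 := hyA
    cases u with
    | inl q =>
      left
      have hqx : q = hend ι bq γ x := by
        rcases hux with h | h
        · exact Sum.inl.inj h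
        · cases h
      have hqy : q = hend ι bq γ y := by
        rcases huy with h | h
        · exact Sum.inl.inj h
        · cases h
      refine ⟨q, rfl, ?_, ?_⟩
      · rw [hqx, eps_hend hA hP, hxe]
      · obtain ⟨a, ha1, ha2⟩ := exists_oth (ι := ι) x hA
        obtain ⟨b, hb1, hb2⟩ := exists_oth (ι := ι) y hA
        rw [← hqx] at ha1
        rw [← hqy] at hb1
        have hqe : ε q = e := by rw [hqx, eps_hend hA hP, hxe]
        have ha3 : ε a = e2 := ha2.trans hxA'
        have hb3 : ε b ≠ e2 := by rw [hb2]; exact hyA'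
        have hb4 : ε b ≠ e := by
          rw [hb2]
          have := oth_ne hA hP y
          rw [hye] at this
          exact this
        have hge : 3 ≤ val φ bq γ q := by
          have hinj : Function.Injective (fun i : Fin 3 =>
              (![⟨q, Vrel.refl q⟩, ⟨a, ha1⟩, ⟨b, hb1⟩] i : {q' // Vrel φ bq γ q q'})) := by
            intro i j hij
            have hqa : q ≠ a := by
              intro hc
              rw [hc, ha3] at hqe
              exact hn2 hqe
            have hqb : q ≠ b := by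
              intro hc
              rw [← hc] at hb4
              exact hb4 hqe
            have hab : a ≠ b := by
              intro hc
              rw [← hc] at hb3
              exact hb3 ha3
            fin_cases i <;> fin_cases j <;> first
              | rfl
              | (exfalso
                 have h5 := congrArg Subtype.val hij
                 simp at h5
                 first
                   | exact hqa h5
                   | exact hqb h5
                   | exact hab h5
                   | exact hqa h5.symm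
                   | exact hqb h5.symm
                   | exact hab h5.symm)
          have h5 := Nat.card_le_card_of_injective _ hinj
          rw [Nat.card_eq_fintype_card, Fintype.card_fin] at h5
          exact h5
        rcases (val_bounds hA hP hL q).1 with h | h
        · omega
        · exact h
    | inr g =>
      right
      have hgx : g = x.1 := by
        rcases hux with h | h
        · cases h
        · exact Sum.inr.inj h
      have hgy : g = y.1 := by
        rcases huy with h | h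
        · cases h
        · exact Sum.inr.inj h
      refine ⟨g, rfl, ?_, ?_⟩
      · rw [hgx, hxe]
      · obtain ⟨x1, bx⟩ := x
        obtain ⟨y1, b'⟩ := y
        simp only at hgx hgy
        subst hgx
        subst hgy
        show be (w (φ⁻¹ g)) ≠ w (φ (ι g))
        intro hc
        have h6 : oth φ ι be w (g, false) = oth φ ι be w (g, true) := hc
        cases bx <;> cases b'
        · exact hyA' hxA'
        · exact hyA' (h6.symm.trans hxA')
        · exact hyA' (h6.trans hxA')
        · exact hyA' hxA'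
  -- counting
  have hS : Nat.card ({q // ε q = e ∧ val φ bq γ q = 3} ⊕ {g // ε (γ g) = e ∧ Mixed φ ι be w g})
      = Nat.card {q // ε q = e ∧ val φ bq γ q = 3} +
        Nat.card {g // ε (γ g) = e ∧ Mixed φ ι be w g} := Nat.card_sum
  rw [← hS]
  have hlift : ∀ u : Q ⊕ H, Shared ι bq γ ε e {x | oth φ ι be w x = e2} u →
      ∃ s : {q // ε q = e ∧ val φ bq γ q = 3} ⊕ {g // ε (γ g) = e ∧ Mixed φ ι be w g},
        Sum.map Subtype.val Subtype.val s = u := by
    intro u hu
    rcases key u hu with ⟨q, rfl, h2, h3⟩ | ⟨g, rfl, h2, h3⟩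
    · exact ⟨Sum.inl ⟨q, h2, h3⟩, rfl⟩
    · exact ⟨Sum.inr ⟨g, h2, h3⟩, rfl⟩
  obtain ⟨s, hs⟩ := hlift u hu
  obtain ⟨t, ht⟩ := hlift v hv
  have : Nontrivial ({q // ε q = e ∧ val φ bq γ q = 3} ⊕
      {g // ε (γ g) = e ∧ Mixed φ ι be w g}) := by
    refine ⟨s, t, ?_⟩
    intro hc
    apply huv
    rw [← hs, ← ht, hc]
  exact Finite.one_lt_card

end Pool.Agent.H57.Stall
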