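import Mathlib
import Pool.Agent.H57.Stall.Count

set_option autoImplicit false

namespace Pool.Agent.H57.Stall

open Equiv

variable {H Q E : Type} [Fintype H] [Fintype Q] {φ ι : Perm H} {bq : Q → Q} {γ : H → Q}
  {be : E → E} {ε : Q → E} {lev : E → ℕ} {N : ℕ}

/-- The number of classes as a sum over the points. -/
theorem sum_inv_class {A : Type} [Fintype A] (s : Setoid A) :
    ∑ a, (1 : ℚ) / (Nat.card {b // s a b} : ℚ) = Nat.card (Quotient s) := by
  classical
  have hfq : Fintype (Quotient s) := Fintype.ofFinite _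
  rw [Nat.card_eq_fintype_card (α := Quotient s)]
  rw [← Finset.sum_fiberwise (s := (Finset.univ : Finset A)) (g := fun a => (⟦a⟧ : Quotient s))]
  have h1 : ∀ c : Quotient s, ∑ a ∈ Finset.univ.filter (fun a => (⟦a⟧ : Quotient s) = c),
      (1 : ℚ) / (Nat.card {b // s a b} : ℚ) = 1 := by
    intro c
    obtain ⟨a0, rfl⟩ := Quotient.exists_rep c
    have h2 : ∀ a ∈ Finset.univ.filter (fun a => (⟦a⟧ : Quotient s) = ⟦a0⟧),
        (1 : ℚ) / (Nat.card {b // s a b} : ℚ) =
          1 / ((Finset.univ.filter (fun a => (⟦a⟧ : Quotient s) = ⟦a0⟧)).card : ℚ) := by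
      intro a ha
      rw [Finset.mem_filter] at ha
      congr 2
      rw [Nat.card_eq_fintype_card, Fintype.card_subtype]
      congr 1
      ext b
      simp only [Finset.mem_filter, Finset.mem_univ, true_and]
      rw [← ha.2, Quotient.eq]
      exact ⟨fun h => s.symm h, fun h => s.symm h⟩
    rw [Finset.sum_congr rfl h2, Finset.sum_const, nsmul_eq_mul]
    have h3 : (Finset.univ.filter (fun a => (⟦a⟧ : Quotient s) = ⟦a0⟧)).card ≠ 0 := by
      apply Finset.card_ne_zero_of_mem (a := a0)
      simp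
    field_simp
  rw [Finset.sum_congr rfl fun c _ => h1 c]
  simp

/-- The count is tight. -/
theorem tight (hA : Adm φ bq γ be ε) (hP : Pairing φ ι be fun h => ε (γ h))
    (hM : Maxl φ ι bq γ be ε) (hL : Lev φ be (fun h => ε (γ h)) lev N) :
    (∀ e, 0 < lev e → lev e + 1 < N →
      Nat.card {q // ε q = e ∧ val φ bq γ q = 3} +
        Nat.card {g // ε (γ g) = e ∧ Mixed φ ι be (fun h => ε (γ h)) g} = 2) ∧
    (∀ k, Function.minimalPeriod (ι * φ) k = 2 ∨ Function.minimalPeriod (ι * φ) k = 3) ∧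
    (∀ k, (lev (be (ε (γ k))) = 0 ∨ lev (be (ε (γ k))) + 1 = N) →
      Function.minimalPeriod (ι * φ) k = 2) := by
  classical
  set w : H → E := fun h => ε (γ h) with hw
  -- the period of a corner
  set p : H → ℕ := fun k => Function.minimalPeriod (ι * φ) k with hp
  have hlab : ∀ h, w (ι h) = be (w h) := hP.lab
  -- E is finite
  have hN : 2 ≤ N := hL.two
  have hcard : ∀ m, m < N → Nat.card {e // lev e = m} ≤ 3 ∧ 0 < Nat.card {e // lev e = m} := by
    intro m hm
    by_cases h : m = 0 ∨ m + 1 = N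
    · rw [hL.card_end m hm h]; omega
    · rw [hL.card_mid m (by omega) (by omega)]; omega
  have hfinE : Finite E := by
    have hf : ∀ m : Fin N, Finite {e // lev e = m.1} := fun m =>
      Nat.finite_of_card_ne_zero (hcard m.1 m.2).2.ne'
    refine Finite.of_injective
      (fun e : E => (⟨⟨lev e, hL.lt e⟩, ⟨e, rfl⟩⟩ : (m : Fin N) × {e // lev e = m.1})) ?_
    intro a b hab
    have h1 : (⟨lev a, hL.lt a⟩ : Fin N) = ⟨lev b, hL.lt b⟩ := congrArg Sigma.fst hab
    have h2 := congrArg (fun x : (m : Fin N) × {e // lev e = m.1} => x.2.1) hab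
    exact h2
  have hftE : Fintype E := Fintype.ofFinite E
  -- directions around a vertex of the surface
  have hlevd : ∀ k, lev (be (w k)) = lev (w (φ k)) := hL.turn
  have hbe : ∀ e, be (be e) = e := hA.be_be
  have hredE : ∀ h, w (φ h) ≠ be (w h) := hA.redE
  have hd1 : ∀ k, be (w ((ι * φ) k)) = w (φ k) := by
    intro k
    show be (w (ι (φ k))) = w (φ k)
    rw [hlab, hbe]
  have hmix : ∀ k, Mixed φ ι be w (φ k) ↔ be (w k) ≠ w (φ ((ι * φ) k)) := by
    intro k
    show be (w (φ⁻¹ (φ k))) ≠ w (φ (ι (φ k))) ↔ _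
    rw [show φ⁻¹ (φ k) = k from φ.symm_apply_apply k]
    exact Iff.rfl
  have hper : ∀ k, ((ι * φ : Perm H) ^ (p k)) k = k := by
    intro k
    have := Function.iterate_minimalPeriod (f := (ι * φ : Perm H)) (x := k)
    rw [← Equiv.Perm.iterate_eq_pow] 
    exact this
  have hpos : ∀ k, 0 < p k := by
    intro k
    apply Function.minimalPeriod_pos_of_mem_periodicPts
    exact Function.Injective.mem_periodicPts (ι * φ : Perm H).injective k
  have hp1 : ∀ k, p k ≠ 1 := by
    intro k hk
    have h1 := hper k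
    rw [hk, pow_one] at h1
    have h2 := hd1 k
    rw [h1] at h2
    exact hredE k h2.symm
  have hp2 : ∀ k, p k = 2 → ¬ Mixed φ ι be w (φ k) := by
    intro k hk hm
    rw [hmix] at hm
    have h1 := hper k
    rw [hk, pow_two, Perm.mul_apply] at h1
    have h2 := hd1 ((ι * φ) k)
    rw [h1] at h2
    exact hm h2
  have hp3 : ∀ k, p k = 3 → Mixed φ ι be w (φ k) := by
    intro k hk
    rw [hmix]
    intro hc
    have h1 := hper k
    rw [hk, pow_succ, pow_two, Perm.mul_apply, Perm.mul_apply] at h1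
    have h2 := hd1 ((ι * φ) ((ι * φ) k))
    rw [h1] at h2
    have h3 := hd1 ((ι * φ) k)
    have h4 := hredE ((ι * φ) ((ι * φ) k))
    apply h4
    rw [← h2, hc, h3]
  -- mixed corners are not at the end vertices
  have hmend : ∀ g, Mixed φ ι be w g → 0 < lev (w g) ∧ lev (w g) + 1 < N := by
    intro g hg
    by_contra hc
    have hlt := hL.lt (w g)
    have h2 : Nat.card {e // lev e = lev (w g)} = 2 := hL.card_end _ hlt (by omega)
    have hg1 : be (w (φ⁻¹ g)) ≠ w (φ (ι g)) := hg
    have hl1 : lev (be (w (φ⁻¹ g))) = lev (w g) := by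
      have := hlevd (φ⁻¹ g)
      rwa [show φ (φ⁻¹ g) = g from φ.apply_symm_apply g] at this
    have hl2 : lev (w (φ (ι g))) = lev (w g) := by
      have := hlevd (ι g)
      rw [hlab, hbe] at this
      exact this.symm
    have hn1 : be (w (φ⁻¹ g)) ≠ w g := by
      have := hredE (φ⁻¹ g)
      rw [show φ (φ⁻¹ g) = g from φ.apply_symm_apply g] at this
      exact this.symm
    have hn2 : w (φ (ι g)) ≠ w g := by
      have := hredE (ι g)
      rw [hlab, hbe] at this
      exact this
    rw [Nat.card_eq_fintype_card, Fintype.card_subtype] at h2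
    have h3 : ({be (w (φ⁻¹ g)), w (φ (ι g)), w g} : Finset E) ⊆
        Finset.univ.filter fun e => lev e = lev (w g) := by
      intro x hx
      simp only [Finset.mem_insert, Finset.mem_singleton] at hx
      simp only [Finset.mem_filter, Finset.mem_univ, true_and]
      rcases hx with rfl | rfl | rfl
      · exact hl1
      · exact hl2
      · rfl
    have h4 := Finset.card_le_card h3
    rw [h2, Finset.card_eq_three.mpr ⟨_, _, _, hg1, hn1, hn2, rfl⟩] at h4
    omega
  -- the sums
  set ps : Finset Q := Finset.univ.filter fun q => val φ bq γ q = 3 with hps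
  set ms : Finset H := Finset.univ.filter fun g => Mixed φ ι be w g with hms
  set inn : Finset E := Finset.univ.filter fun e => 0 < lev e ∧ lev e + 1 < N with hinn
  have hinncard : inn.card = 3 * (N - 2) := by
    have h1 : ∀ e ∈ inn, lev e ∈ Finset.Ioo 0 (N - 1) := by
      intro e he
      rw [hinn, Finset.mem_filter] at he
      rw [Finset.mem_Ioo]
      omega
    rw [Finset.card_eq_sum_card_fiberwise h1]
    have h2 : ∀ m ∈ Finset.Ioo 0 (N - 1), (inn.filter fun e => lev e = m).card = 3 := by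
      intro m hm
      rw [Finset.mem_Ioo] at hm
      have h3 := hL.card_mid m hm.1 (by omega)
      rw [Nat.card_eq_fintype_card, Fintype.card_subtype] at h3
      rw [← h3]
      congr 1
      ext e
      simp only [hinn, Finset.mem_filter, Finset.mem_univ, true_and]
      constructor
      · exact fun h => h.2
      · intro h
        refine ⟨?_, h⟩
        omega
    rw [Finset.sum_congr rfl h2, Finset.sum_const, smul_eq_mul, Nat.card_Ioo]
    omega
  set a : E → ℕ := fun e => Nat.card {q // ε q = e ∧ val φ bq γ q = 3} +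
        Nat.card {g // ε (γ g) = e ∧ Mixed φ ι be w g} with ha
  have hasum : ∑ e ∈ inn, a e = ps.card + ms.card := by
    have h1 : ∀ q ∈ ps, ε q ∈ inn := by
      intro q hq
      rw [hps, Finset.mem_filter] at hq
      rw [hinn, Finset.mem_filter]
      refine ⟨Finset.mem_univ _, ?_⟩
      have h3 := (val_bounds hA hP hL q).2
      have h4 := hL.lt (ε q)
      by_contra hc
      have h5 := h3 (by omega)
      omega
    have h2 : ∀ g ∈ ms, w g ∈ inn := by
      intro g hg
      rw [hms, Finset.mem_filter] at hg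
      rw [hinn, Finset.mem_filter]
      exact ⟨Finset.mem_univ _, hmend g hg.2⟩
    rw [Finset.card_eq_sum_card_fiberwise h1, Finset.card_eq_sum_card_fiberwise h2,
      ← Finset.sum_add_distrib]
    refine Finset.sum_congr rfl fun e _ => ?_
    rw [ha]
    simp only
    congr 1
    · rw [Nat.card_eq_fintype_card, Fintype.card_subtype]
      congr 1
      ext q
      simp only [hps, Finset.mem_filter, Finset.mem_univ, true_and]
      exact and_comm
    · rw [Nat.card_eq_fintype_card, Fintype.card_subtype]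
      congr 1
      ext g
      simp only [hms, Finset.mem_filter, Finset.mem_univ, true_and]
      exact and_comm
  have hage : ∀ e ∈ inn, 2 ≤ a e := by
    intro e he
    rw [hinn, Finset.mem_filter] at he
    exact local_ge hA hP hM hL e he.2.1 he.2.2
  -- the rational sums
  have hpsum : (ps.card : ℚ) = 3 * ((Fintype.card Q : ℚ) - 2 * (nV φ bq γ : ℚ)) := by
    have h1 : (nV φ bq γ : ℚ) = ∑ q, (1 : ℚ) / (val φ bq γ q : ℚ) :=
      (sum_inv_class (Vset φ bq γ)).symm
    have h2 : (Fintype.card Q : ℚ) = ∑ q : Q, (1 : ℚ) := by simp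
    have h3 : (ps.card : ℚ) = ∑ q : Q, if val φ bq γ q = 3 then (1 : ℚ) else 0 := by
      rw [hps, Finset.sum_boole]
    rw [h1, h2, h3, Finset.mul_sum, ← Finset.sum_sub_distrib, Finset.mul_sum]
    refine Finset.sum_congr rfl fun q _ => ?_
    rcases (val_bounds hA hP hL q).1 with h | h
    · rw [h]; norm_num
    · rw [h]; norm_num
  set m : H → ℚ := fun k => if Mixed φ ι be w (φ k) then (1 : ℚ) else 0 with hm
  have hmsum : (ms.card : ℚ) = ∑ k, m k := by
    have h3 : (ms.card : ℚ) = ∑ g : H, if Mixed φ ι be w g then (1 : ℚ) else 0 := by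
      rw [hms, Finset.sum_boole]
    rw [h3]
    exact (Equiv.sum_comp φ fun g => if Mixed φ ι be w g then (1 : ℚ) else 0).symm
  have hmle : ∀ k, m k ≤ 3 * (1 - 2 * (1 / (p k : ℚ))) := by
    intro k
    have h0 := hpos k
    have h1 := hp1 k
    rcases (show p k = 2 ∨ p k = 3 ∨ 4 ≤ p k by omega) with h | h | h
    · rw [hm]; simp only
      rw [if_neg (hp2 k h), h]; norm_num
    · rw [hm]; simp only
      rw [if_pos (hp3 k h), h]; norm_num
    · have h4 : m k ≤ 1 := by
        rw [hm]; simp only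
        split_ifs <;> norm_num
      have h5 : (1 : ℚ) / (p k : ℚ) ≤ 1 / 4 := by
        apply one_div_le_one_div_of_le (by norm_num)
        exact_mod_cast h
      linarith
  have hpsum2 : ∑ k, 3 * (1 - 2 * (1 / (p k : ℚ))) =
      3 * ((Fintype.card H : ℚ) - 2 * (ncyc (ι * φ) : ℚ)) := by
    rw [← sum_inv_minimalPeriod (ι * φ)]
    have h2 : (Fintype.card H : ℚ) = ∑ q : H, (1 : ℚ) := by simp
    rw [h2, Finset.mul_sum, ← Finset.sum_sub_distrib, Finset.mul_sum]
  have hmle2 : ∑ k, m k ≤ ∑ k, 3 * (1 - 2 * (1 / (p k : ℚ))) :=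
    Finset.sum_le_sum fun k _ => hmle k
  have hrb := rank_bound hA hP hM
  have hct := hP.count
  have hbig := hL.big
  have hrbq : (Fintype.card Q : ℚ) + 4 ≤ 2 * ((ncyc φ : ℚ) + (nV φ bq γ : ℚ)) := by
    exact_mod_cast hrb
  have hctq : (Fintype.card H : ℚ) + 4 ≤ 2 * ((ncyc φ : ℚ) + (ncyc (ι * φ) : ℚ)) := by
    exact_mod_cast hct
  have hbigq : 2 * (ncyc φ : ℚ) ≤ (N : ℚ) + 2 := by exact_mod_cast hbig
  have hsum2 : ∑ e ∈ inn, 2 ≤ ∑ e ∈ inn, a e := Finset.sum_le_sum hage
  have hs2 : ∑ e ∈ inn, 2 = 6 * (N - 2) := by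
    rw [Finset.sum_const, hinncard, smul_eq_mul]
    ring
  have hNq : ((6 * (N - 2) : ℕ) : ℚ) = 6 * (N : ℚ) - 12 := by
    push_cast [Nat.cast_sub hN]
    ring
  have hsum2q : 6 * (N : ℚ) - 12 ≤ (ps.card : ℚ) + (ms.card : ℚ) := by
    rw [← hNq, ← hs2]
    rw [hasum] at hsum2
    exact_mod_cast hsum2
  have heq1 : ∑ k, m k = ∑ k, 3 * (1 - 2 * (1 / (p k : ℚ))) := by
    apply le_antisymm hmle2
    rw [hpsum2]
    rw [hpsum, hmsum] at hsum2q
    linarith
  have heq1' : ∀ k, m k = 3 * (1 - 2 * (1 / (p k : ℚ))) := by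
    intro k
    exact (Finset.sum_eq_sum_iff_of_le fun k _ => hmle k).mp heq1 k (Finset.mem_univ k)
  have heq2 : ∑ e ∈ inn, 2 = ∑ e ∈ inn, a e := by
    apply le_antisymm hsum2
    rw [hasum, hs2]
    have h1 : (ps.card : ℚ) + (ms.card : ℚ) ≤ ((6 * (N - 2) : ℕ) : ℚ) := by
      rw [hNq, hpsum, hmsum]
      rw [hpsum2] at hmle2
      linarith
    exact_mod_cast h1
  have heq2' : ∀ e ∈ inn, 2 = a e := (Finset.sum_eq_sum_iff_of_le hage).mp heq2
  have hp23 : ∀ k, p k = 2 ∨ p k = 3 := by
    intro k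
    have h0 := hpos k
    have h1 := hp1 k
    by_contra hc
    have h : 4 ≤ p k := by omega
    have h4 : m k ≤ 1 := by
      rw [hm]; simp only
      split_ifs <;> norm_num
    have h5 : (1 : ℚ) / (p k : ℚ) ≤ 1 / 4 := by
      apply one_div_le_one_div_of_le (by norm_num)
      exact_mod_cast h
    have h6 := heq1' k
    linarith
  refine ⟨?_, hp23, ?_⟩
  · intro e h0 h1
    refine (heq2' e ?_).symm
    rw [hinn, Finset.mem_filter]
    exact ⟨Finset.mem_univ _, h0, h1⟩
  · intro k hk
    rcases hp23 k with h | h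
    · exact h
    · exfalso
      have h1 := hmend _ (hp3 k h)
      rw [← hlevd k] at h1
      change lev (be (w k)) = 0 ∨ lev (be (w k)) + 1 = N at hk
      omega

end Pool.Agent.H57.Stall
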