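import Mathlib
import Pool.Agent.H57.Stall.Tight

set_option autoImplicit false

namespace Pool.Agent.H57.Stall

open Equiv

variable {H Q E : Type} [Fintype H] [Fintype Q] {φ ι : Perm H} {bq : Q → Q} {γ : H → Q}
  {be : E → E} {ε : Q → E} {lev : E → ℕ} {N : ℕ}

/-- The fibre graphs over two edges `e`, `e'` are related by an isomorphism which respects the
origins: `θ` is the map on the nodes. -/
theorem insep_transfer {e e' : E} {q q' : Q} (h : Insep ι bq γ ε e q q')
    (ρ : Q → Q) (α : H → H)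
    (hρe : ∀ a, ε a = e → ε (ρ a) = e')
    (hρ : ∀ a b, ε a = e → ε b = e → ρ a = ρ b → a = b)
    (hα : ∀ a b, ε (γ a) = e → ε (γ b) = e → α a = α b → a = b)
    (hend' : ∀ x : H × Bool, ε (γ x.1) = e → ε (γ (α x.1)) = e' ∧
      hend ι bq γ (α x.1, !x.2) = ρ (hend ι bq γ x))
    (hendE : ∀ x : H × Bool, ε (γ x.1) = e → ε (hend ι bq γ x) = e) :
    Insep ι bq γ ε e' (ρ q) (ρ q') := by
  classical
  obtain ⟨hq, hq', hne, hsep⟩ := h
  refine ⟨hρe q hq, hρe q' hq', fun h1 => hne (hρ q q' hq hq' h1), ?_⟩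
  intro B hB hqB hq'B χ hχ
  -- the map on the nodes
  set θ : Q ⊕ H → Q ⊕ H := Sum.map ρ α with hθ
  set P : Q ⊕ H → Prop := fun u => Sum.elim (fun a => ε a = e) (fun g => ε (γ g) = e) u with hP
  set B' : Finset (Q ⊕ H) := Finset.univ.filter fun u => P u ∧ θ u ∈ B with hB'
  have hmem : ∀ u, u ∈ B' ↔ P u ∧ θ u ∈ B := by
    intro u
    rw [hB', Finset.mem_filter]
    simp
  have hcard : B'.card ≤ 2 := by
    refine le_trans (Finset.card_le_card_of_injOn θ (fun u hu => ((hmem u).1 hu).2) ?_) hB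
    intro u hu v hv huv
    have hu' := ((hmem u).1 hu).1
    have hv' := ((hmem v).1 hv).1
    rcases u with a | a <;> rcases v with b | b
    · simp only [hθ, Sum.map_inl, Sum.inl.injEq] at huv
      exact congrArg Sum.inl (hρ a b hu' hv' huv)
    · simp [hθ] at huv
    · simp [hθ] at huv
    · simp only [hθ, Sum.map_inr, Sum.inr.injEq] at huv
      exact congrArg Sum.inr (hα a b hu' hv' huv)
  have key := hsep B' hcard (fun h1 => hqB ((hmem _).1 h1).2) (fun h1 => hq'B ((hmem _).1 h1).2)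
    (fun u => χ (θ u)) ?_
  · exact key
  · intro x hx h1 h2
    have h3 := hend' x hx
    have h4 : θ (Sum.inl (hend ι bq γ x)) = Sum.inl (hend ι bq γ (α x.1, !x.2)) := by
      rw [h3.2]; rfl
    have h5 : θ (Sum.inr x.1) = Sum.inr (α x.1) := rfl
    show χ (θ (Sum.inl (hend ι bq γ x))) = χ (θ (Sum.inr x.1))
    rw [h4, h5]
    refine hχ (α x.1, !x.2) h3.1 ?_ ?_
    · intro h6
      exact h1 ((hmem _).2 ⟨hendE x hx, by rw [h4]; exact h6⟩)
    · intro h6
      exact h2 ((hmem _).2 ⟨hx, by rw [h5]; exact h6⟩)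

/-- Inseparable pairs persist at the two end vertices. -/
theorem persist_end (hA : Adm φ bq γ be ε) (hP : Pairing φ ι be fun h => ε (γ h))
    (hM : Maxl φ ι bq γ be ε) (hL : Lev φ be (fun h => ε (γ h)) lev N) (e : E) (q q' : Q)
    (h0 : lev e = 0 ∨ lev e + 1 = N) (h : Insep ι bq γ ε e q q') :
    ∃ e' r r', e' ≠ e ∧ Vrel φ bq γ q r ∧ Vrel φ bq γ q' r' ∧ Insep ι bq γ ε e' r r' := by
  classical
  have hbb := hA.be_be
  have hlab : ∀ k, ε (γ (ι k)) = be (ε (γ k)) := hP.lab
  have hturn : ∀ k, lev (be (ε (γ k))) = lev (ε (γ (φ k))) := hL.turn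
  -- the other direction
  have hc := hL.card_end (lev e) (hL.lt e) h0
  obtain ⟨⟨e', he'⟩, hne', huniq⟩ := (Nat.card_eq_two_iff' (⟨e, rfl⟩ : {a // lev a = lev e})).1 hc
  have hne : e' ≠ e := fun h1 => hne' (Subtype.ext h1)
  have huni : ∀ a, lev a = lev e → a ≠ e → a = e' := by
    intro a ha h1
    have h2 := huniq ⟨a, ha⟩ (fun h3 => h1 (congrArg Subtype.val h3))
    exact congrArg Subtype.val h2
  -- corners
  have hcor : ∀ k, be (ε (γ k)) = e → ε (γ (φ k)) = e' := by
    intro k hk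
    refine huni _ ?_ ?_
    · rw [← hturn k, hk]
    · intro h1
      exact hA.redE k (h1.trans hk.symm)
  -- the map on the vertices
  have hex : ∀ a, ∃ r, ε a = e → ε r = e' ∧ Vrel φ bq γ a r := by
    intro a
    by_cases ha : ε a = e
    · obtain ⟨k, hk⟩ := hA.surj hP (bq a)
      have hk' : bq (γ k) = a := by rw [hk, hA.bq_bq]
      refine ⟨γ (φ k), fun _ => ⟨hcor k ?_, ?_⟩⟩
      · rw [← hA.eps_bq, hk', ha]
      · rw [← hk']
        exact Vrel.turn k
    · exact ⟨a, fun h1 => absurd h1 ha⟩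
  choose ρ hρ using hex
  -- the periods
  have hper := (tight hA hP hM hL).2.2
  have hret : ∀ g, ε (γ g) = e → φ (ι (φ (ι g))) = g := by
    intro g hg
    have h1 : be (ε (γ (ι g))) = e := by rw [hlab, hbb, hg]
    have h2 := hper (ι g) (by rw [h1]; exact h0)
    have h3 : (⇑(ι * φ))^[2] (ι g) = ι g := by
      have := Function.iterate_minimalPeriod (f := ⇑(ι * φ)) (x := ι g)
      rw [h2] at this
      exact this
    have h4 : ι (φ (ι (φ (ι g)))) = ι g := h3
    exact ι.injective h4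
  have hαe : ∀ g, ε (γ g) = e → ε (γ (φ (ι g))) = e' := by
    intro g hg
    exact hcor (ι g) (by rw [hlab, hbb, hg])
  have hendE : ∀ x : H × Bool, ε (γ x.1) = e → ε (hend ι bq γ x) = e := by
    rintro ⟨g, b⟩ hg
    have hg' : ε (γ g) = e := hg
    cases b with
    | false => exact hg'
    | true =>
      show ε (bq (γ (ι g))) = e
      rw [hA.eps_bq, hlab, hbb, hg']
  refine ⟨e', ρ q, ρ q', hne, (hρ q h.1).2, (hρ q' h.2.1).2, ?_⟩
  refine insep_transfer h ρ (fun g => φ (ι g)) (fun a ha => (hρ a ha).1) ?_ ?_ ?_ hendE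
  · intro a b ha hb hab
    refine hA.imm a b ?_ (ha.trans hb.symm)
    have h1 := (hρ a ha).2
    have h2 := (hρ b hb).2
    rw [← hab] at h2
    exact h1.trans h2.symm
  · intro a b _ _ hab
    exact ι.injective (φ.injective hab)
  · rintro ⟨g, b⟩ hg
    have hg' : ε (γ g) = e := hg
    refine ⟨hαe g hg', ?_⟩
    have h1 := hendE (g, b) hg
    have h2 := hρ _ h1
    refine hA.imm _ _ ?_ ?_
    · refine Vrel.trans (Vrel.symm ?_) h2.2
      cases b with
      | false =>
        show Vrel φ bq γ (γ g) (bq (γ (ι (φ (ι g)))))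
        have h3 := Vrel.turn (φ := φ) (bq := bq) (γ := γ) (ι (φ (ι g)))
        rw [hret g hg'] at h3
        exact h3.symm
      | true =>
        show Vrel φ bq γ (bq (γ (ι g))) (γ (φ (ι g)))
        exact Vrel.turn (ι g)
    · rw [h2.1]
      cases b with
      | false =>
        show ε (bq (γ (ι (φ (ι g))))) = e'
        rw [hA.eps_bq, hlab, hbb]
        exact hαe g hg'
      | true =>
        show ε (γ (φ (ι g))) = e'
        exact hαe g hg'

end Pool.Agent.H57.Stall
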