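import Mathlib
import Pool.Agent.H57.Stall.Tight
import Pool.Agent.H57.Stall.Abstract

set_option autoImplicit false

namespace Pool.Agent.H57.Stall

open Equiv

/-! ## The abstract graph at a level -/

namespace PM

section Mid

variable {H Q E : Type}

/-- Nodes of the abstract graph: vertices of the graph and polygons of the surface. -/
abbrev MN (φ ι : Perm H) (bq : Q → Q) (γ : H → Q) : Type :=
  Quotient (Vset φ bq γ) ⊕ Quotient (Perm.SameCycle.setoid (ι * φ))

/-- The node of the abstract graph given by a node of the subdivided fibre graph. -/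
def nd (φ ι : Perm H) (bq : Q → Q) (γ : H → Q) : Q ⊕ H → MN φ ι bq γ
  | Sum.inl q => Sum.inl (Quotient.mk _ q)
  | Sum.inr g => Sum.inr (Quotient.mk _ (φ⁻¹ g))

/-- The node lies over the edge `d`. -/
def Ov (γ : H → Q) (ε : Q → E) (d : E) : Q ⊕ H → Prop
  | Sum.inl q => ε q = d
  | Sum.inr g => ε (γ g) = d

/-- The corner of a half-arc. -/
def crn (φ ι : Perm H) : H × Bool → H
  | (g, false) => φ⁻¹ g
  | (g, true) => ι g

/-- The first end of a corner. -/
def aN (φ ι : Perm H) (bq : Q → Q) (γ : H → Q) (k : H) : MN φ ι bq γ :=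
  Sum.inl (Quotient.mk _ (bq (γ k)))

/-- The second end of a corner. -/
def bN (φ ι : Perm H) (bq : Q → Q) (γ : H → Q) (k : H) : MN φ ι bq γ :=
  Sum.inr (Quotient.mk _ k)

/-- The direction `d` occurs in the type of the corner `k`. -/
def Has (φ : Perm H) (be : E → E) (w : H → E) (d : E) (k : H) : Prop :=
  be (w k) = d ∨ w (φ k) = d

variable {φ ι : Perm H} {bq : Q → Q} {γ : H → Q} {be : E → E} {ε : Q → E}

theorem pm_apply_inv (σ : Perm H) (g : H) : σ (σ⁻¹ g) = g := σ.apply_symm_apply g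

theorem pm_inv_apply (σ : Perm H) (g : H) : σ⁻¹ (σ g) = g := σ.symm_apply_apply g

theorem nd_hend (x : H × Bool) :
    nd φ ι bq γ (Sum.inl (hend ι bq γ x)) = aN φ ι bq γ (crn φ ι x) := by
  obtain ⟨g, b⟩ := x
  cases b with
  | false =>
    show Sum.inl _ = Sum.inl _
    congr 1
    refine Quotient.sound ?_
    have h1 : Vrel φ bq γ (bq (γ (φ⁻¹ g))) (γ (φ (φ⁻¹ g))) := Vrel.turn _
    rw [pm_apply_inv] at h1
    exact h1.symm
  | true => rfl

theorem nd_arc (x : H × Bool) :
    nd φ ι bq γ (Sum.inr x.1) = bN φ ι bq γ (crn φ ι x) := by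
  obtain ⟨g, b⟩ := x
  cases b with
  | false => rfl
  | true =>
    show Sum.inr _ = Sum.inr _
    congr 1
    refine Quotient.sound ?_
    show (ι * φ).SameCycle (φ⁻¹ g) (ι g)
    refine ⟨1, ?_⟩
    rw [zpow_one, Perm.mul_apply, pm_apply_inv]

theorem has_crn (hlab : ∀ h, ε (γ (ι h)) = be (ε (γ h))) (hbe : ∀ e, be (be e) = e)
    {d : E} (x : H × Bool) (hx : ε (γ x.1) = d) :
    Has φ be (fun h => ε (γ h)) d (crn φ ι x) := by
  obtain ⟨g, b⟩ := x
  have hx' : ε (γ g) = d := hx
  cases b with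
  | false =>
    right
    show ε (γ (φ (φ⁻¹ g))) = d
    rw [pm_apply_inv]
    exact hx'
  | true =>
    left
    show be (ε (γ (ι g))) = d
    rw [hlab, hbe]
    exact hx'

theorem exists_crn (hinv : ∀ h, ι (ι h) = h) (hlab : ∀ h, ε (γ (ι h)) = be (ε (γ h)))
    {d : E} {k : H} (hk : Has φ be (fun h => ε (γ h)) d k) :
    ∃ x : H × Bool, ε (γ x.1) = d ∧ crn φ ι x = k := by
  rcases hk with hk | hk
  · refine ⟨(ι k, true), ?_, hinv k⟩
    show ε (γ (ι k)) = d
    rw [hlab]
    exact hk
  · exact ⟨(φ k, false), hk, pm_inv_apply _ _⟩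

theorem eps_hend (hlab : ∀ h, ε (γ (ι h)) = be (ε (γ h))) (hbe : ∀ e, be (be e) = e)
    (hbq : ∀ q, ε (bq q) = be (ε q)) {d : E} (x : H × Bool) (hx : ε (γ x.1) = d) :
    ε (hend ι bq γ x) = d := by
  obtain ⟨g, b⟩ := x
  have hx' : ε (γ g) = d := hx
  cases b with
  | false => exact hx'
  | true =>
    show ε (bq (γ (ι g))) = d
    rw [hbq, hlab, hbe]
    exact hx'

/-- A direction in the type of a corner gives an oriented edge at the vertex of the corner. -/
theorem exists_edge (hbq : ∀ q, ε (bq q) = be (ε q)) {d : E} {k : H}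
    (hk : Has φ be (fun h => ε (γ h)) d k) :
    ∃ r, ε r = d ∧ Vrel φ bq γ (bq (γ k)) r := by
  rcases hk with hk | hk
  · exact ⟨bq (γ k), by rw [hbq]; exact hk, Vrel.refl _⟩
  · exact ⟨γ (φ k), hk, Vrel.turn _⟩

/-- In a cycle of length at most three, given by `σ`, two elements related by `SameCycle`. -/
theorem sameCycle_cases {σ : Perm H} {k k' : H}
    (hper : Function.minimalPeriod σ k = 2 ∨ Function.minimalPeriod σ k = 3)
    (h : σ.SameCycle k k') :
    (Function.minimalPeriod σ k = 2 ∧ (k' = k ∨ k' = σ k)) ∨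
    (Function.minimalPeriod σ k = 3 ∧ (k' = k ∨ k' = σ k ∨ k' = σ (σ k))) := by
  obtain ⟨n, hn⟩ := h
  rcases hper with hp | hp
  · left
    refine ⟨hp, ?_⟩
    have h2 : (σ ^ (2 : ℤ)) k = k := by
      have := Function.isPeriodicPt_minimalPeriod σ k
      rw [hp] at this
      exact this
    have h3 : (σ ^ (2 * (n / 2))) k = k := by
      rw [zpow_mul]
      exact Perm.zpow_apply_eq_self_of_apply_eq_self h2 _
    have h4 : (σ ^ (n % 2)) k = k' := by
      rw [← hn]
      conv_rhs => rw [← Int.emod_add_mul_ediv n 2, zpow_add, Perm.mul_apply, h3]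
    rcases Int.emod_two_eq_zero_or_one n with h5 | h5
    · left
      rw [h5] at h4
      exact h4.symm
    · right
      rw [h5] at h4
      exact h4.symm
  · right
    refine ⟨hp, ?_⟩
    have h2 : (σ ^ (3 : ℤ)) k = k := by
      have := Function.isPeriodicPt_minimalPeriod σ k
      rw [hp] at this
      exact this
    have h3 : (σ ^ (3 * (n / 3))) k = k := by
      rw [zpow_mul]
      exact Perm.zpow_apply_eq_self_of_apply_eq_self h2 _
    have h4 : (σ ^ (n % 3)) k = k' := by
      rw [← hn]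
      conv_rhs => rw [← Int.emod_add_mul_ediv n 3, zpow_add, Perm.mul_apply, h3]
    have h5 : n % 3 = 0 ∨ n % 3 = 1 ∨ n % 3 = 2 := by omega
    rcases h5 with h5 | h5 | h5
    · left
      rw [h5] at h4
      exact h4.symm
    · right; left
      rw [h5] at h4
      exact h4.symm
    · right; right
      rw [h5] at h4
      exact h4.symm

end Mid

section Main

variable {H Q E : Type} [Fintype H] [Fintype Q] {φ ι : Perm H} {bq : Q → Q} {γ : H → Q}
  {be : E → E} {ε : Q → E} {lev : E → ℕ} {N : ℕ}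

theorem be_psi (hA : Adm φ bq γ be ε) (hP : Pairing φ ι be fun h => ε (γ h)) (k : H) :
    be (ε (γ ((ι * φ) k))) = ε (γ (φ k)) := by
  have h1 : ε (γ (ι (φ k))) = be (ε (γ (φ k))) := hP.lab (φ k)
  rw [Perm.mul_apply, h1, hA.be_be]

omit [Fintype H] in
theorem psi_three {k : H} (h : Function.minimalPeriod (ι * φ) k = 3) :
    (ι * φ) ((ι * φ) ((ι * φ) k)) = k := by
  have := Function.isPeriodicPt_minimalPeriod (ι * φ) k
  rw [h] at this
  exact this

omit [Fintype H] in
theorem psi_two {k : H} (h : Function.minimalPeriod (ι * φ) k = 2) :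
    (ι * φ) ((ι * φ) k) = k := by
  have := Function.isPeriodicPt_minimalPeriod (ι * φ) k
  rw [h] at this
  exact this

/-- The directions along a polygon are different. -/
theorem psi_dir (hA : Adm φ bq γ be ε) (hP : Pairing φ ι be fun h => ε (γ h))
    (hper : ∀ k, Function.minimalPeriod (ι * φ) k = 2 ∨ Function.minimalPeriod (ι * φ) k = 3)
    {k k' : H} (hs : (ι * φ).SameCycle k k') (h : ε (γ (φ k)) = ε (γ (φ k'))) : k = k' := by
  have h1 : ∀ j : H, ε (γ (φ ((ι * φ) j))) ≠ ε (γ (φ j)) := by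
    intro j hj
    have h2 := hA.redE ((ι * φ) j)
    rw [be_psi hA hP] at h2
    exact h2 hj
  rcases sameCycle_cases (hper k) hs with ⟨hp, h2 | h2⟩ | ⟨hp, h2 | h2 | h2⟩
  · exact h2.symm
  · rw [h2] at h
    exact absurd h.symm (h1 k)
  · exact h2.symm
  · rw [h2] at h
    exact absurd h.symm (h1 k)
  · rw [h2] at h
    have h3 := h1 ((ι * φ) ((ι * φ) k))
    rw [psi_three hp] at h3
    exact absurd h h3

theorem nd_inj (hA : Adm φ bq γ be ε) (hP : Pairing φ ι be fun h => ε (γ h))
    (hper : ∀ k, Function.minimalPeriod (ι * φ) k = 2 ∨ Function.minimalPeriod (ι * φ) k = 3)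
    {d : E} {u v : Q ⊕ H} (hu : Ov γ ε d u) (hv : Ov γ ε d v)
    (h : nd φ ι bq γ u = nd φ ι bq γ v) : u = v := by
  cases u with
  | inl q =>
    cases v with
    | inl q' =>
      have h1 : Vrel φ bq γ q q' := Quotient.exact (Sum.inl_injective h)
      have h2 : ε q = d := hu
      have h3 : ε q' = d := hv
      rw [hA.imm q q' h1 (h2.trans h3.symm)]
    | inr g' => exact absurd h (by simp [nd])
  | inr g =>
    cases v with
    | inl q' => exact absurd h (by simp [nd])
    | inr g' =>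
      have h1 : (ι * φ).SameCycle (φ⁻¹ g) (φ⁻¹ g') := Quotient.exact (Sum.inr_injective h)
      have h2 : ε (γ g) = d := hu
      have h3 : ε (γ g') = d := hv
      have h4 : φ⁻¹ g = φ⁻¹ g' := by
        refine psi_dir hA hP hper h1 ?_
        rw [pm_apply_inv, pm_apply_inv, h2, h3]
      have h5 : φ (φ⁻¹ g) = φ (φ⁻¹ g') := by rw [h4]
      rw [pm_apply_inv, pm_apply_inv] at h5
      rw [h5]

omit [Fintype H] [Fintype Q] in
theorem lev_of_has (hL : Lev φ be (fun h => ε (γ h)) lev N) {d : E} {k : H}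
    (hk : Has φ be (fun h => ε (γ h)) d k) : lev (be (ε (γ k))) = lev d := by
  rcases hk with hk | hk
  · exact congrArg lev hk
  · exact (hL.turn k).trans (congrArg lev hk)

/-- From the fibre graph to the abstract graph. -/
theorem insep_to (hA : Adm φ bq γ be ε) (hP : Pairing φ ι be fun h => ε (γ h))
    (hL : Lev φ be (fun h => ε (γ h)) lev N)
    (hper : ∀ k, Function.minimalPeriod (ι * φ) k = 2 ∨ Function.minimalPeriod (ι * φ) k = 3)
    {m : ℕ} {d : Fin 3 → E} (hd : ∀ i, lev (d i) = m)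
    (col : {k : H // lev (be (ε (γ k))) = m} → Fin 3)
    (hcol : ∀ k l, col k ≠ l ↔ Has φ be (fun h => ε (γ h)) (d l) k.1)
    {i : Fin 3} {q q' : Q} (h : Insep ι bq γ ε (d i) q q') :
    InsepA (fun k : {k : H // lev (be (ε (γ k))) = m} => aN φ ι bq γ k.1)
      (fun k => bN φ ι bq γ k.1) col i (nd φ ι bq γ (Sum.inl q)) (nd φ ι bq γ (Sum.inl q')) := by
  classical
  obtain ⟨hq, hq', hne, hB⟩ := h
  have hex : ∀ r, ε r = d i → ∃ k : {k : H // lev (be (ε (γ k))) = m}, col k ≠ i ∧
      At (fun k : {k : H // lev (be (ε (γ k))) = m} => aN φ ι bq γ k.1)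
        (fun k => bN φ ι bq γ k.1) k (nd φ ι bq γ (Sum.inl r)) := by
    intro r hr
    obtain ⟨h0, hh0⟩ := hA.surj hP r
    have h1 : Has φ be (fun h => ε (γ h)) (d i) (crn φ ι (h0, false)) := by
      refine has_crn hP.lab hA.be_be _ ?_
      show ε (γ h0) = d i
      rw [hh0, hr]
    refine ⟨⟨crn φ ι (h0, false), (lev_of_has hL h1).trans (hd i)⟩, (hcol _ _).mpr h1, Or.inl ?_⟩
    show aN φ ι bq γ (crn φ ι (h0, false)) = _
    rw [← nd_hend]
    show nd φ ι bq γ (Sum.inl (γ h0)) = _
    rw [hh0]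
  refine ⟨?_, hex q hq, hex q' hq', ?_⟩
  · intro h1
    have := nd_inj hA hP hper (d := d i) (u := Sum.inl q) (v := Sum.inl q') hq hq' h1
    exact hne (Sum.inl_injective this)
  · intro B hBc hqB hqB' χ hχ
    let B' : Finset (Q ⊕ H) :=
      Finset.univ.filter fun u => Ov γ ε (d i) u ∧ nd φ ι bq γ u ∈ B
    have hB'c : B'.card ≤ B.card := by
      refine Finset.card_le_card_of_injOn (nd φ ι bq γ) ?_ ?_
      · intro u hu
        have hu' : u ∈ B' := hu
        exact ((Finset.mem_filter.mp hu').2).2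
      · intro u hu v hv huv
        have hu' : u ∈ B' := hu
        have hv' : v ∈ B' := hv
        exact nd_inj hA hP hper ((Finset.mem_filter.mp hu').2).1
          ((Finset.mem_filter.mp hv').2).1 huv
    refine hB B' (hB'c.trans hBc) ?_ ?_ (fun u => χ (nd φ ι bq γ u)) ?_
    · intro h1
      exact hqB ((Finset.mem_filter.mp h1).2).2
    · intro h1
      exact hqB' ((Finset.mem_filter.mp h1).2).2
    · intro x hx h1 h2
      have h3 : Has φ be (fun h => ε (γ h)) (d i) (crn φ ι x) := has_crn hP.lab hA.be_be _ hx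
      have h4 := hχ ⟨crn φ ι x, (lev_of_has hL h3).trans (hd i)⟩ ((hcol _ _).mpr h3) ?_ ?_
      · show χ (nd φ ι bq γ (Sum.inl (hend ι bq γ x))) = χ (nd φ ι bq γ (Sum.inr x.1))
        rw [nd_hend, nd_arc]
        exact h4
      · intro h5
        refine h1 (Finset.mem_filter.mpr ⟨Finset.mem_univ _, ?_, ?_⟩)
        · exact eps_hend hP.lab hA.be_be hA.eps_bq x hx
        · rw [nd_hend]
          exact h5
      · intro h5
        refine h2 (Finset.mem_filter.mpr ⟨Finset.mem_univ _, hx, ?_⟩)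
        rw [nd_arc]
        exact h5

/-- From the abstract graph to the fibre graph. -/
theorem insep_of (hA : Adm φ bq γ be ε) (hP : Pairing φ ι be fun h => ε (γ h))
    (hper : ∀ k, Function.minimalPeriod (ι * φ) k = 2 ∨ Function.minimalPeriod (ι * φ) k = 3)
    {m : ℕ} {d : Fin 3 → E}
    (col : {k : H // lev (be (ε (γ k))) = m} → Fin 3)
    (hcol : ∀ k l, col k ≠ l ↔ Has φ be (fun h => ε (γ h)) (d l) k.1)
    {i : Fin 3} {r r' : Q} (hr : ε r = d i) (hr' : ε r' = d i)
    (h : InsepA (fun k : {k : H // lev (be (ε (γ k))) = m} => aN φ ι bq γ k.1)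
      (fun k => bN φ ι bq γ k.1) col i (nd φ ι bq γ (Sum.inl r)) (nd φ ι bq γ (Sum.inl r'))) :
    Insep ι bq γ ε (d i) r r' := by
  classical
  obtain ⟨hne, -, -, hB⟩ := h
  refine ⟨hr, hr', fun h1 => hne (by rw [h1]), ?_⟩
  intro B hBc hqB hqB' χ hχ
  let B' : Finset (MN φ ι bq γ) := (B.filter fun u => Ov γ ε (d i) u).image (nd φ ι bq γ)
  have hB' : ∀ u, Ov γ ε (d i) u → nd φ ι bq γ u ∈ B' → u ∈ B := by
    intro u hu h1
    obtain ⟨v, hv, hvu⟩ := Finset.mem_image.mp h1
    have hv' := Finset.mem_filter.mp hv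
    rw [← nd_inj hA hP hper hv'.2 hu hvu]
    exact hv'.1
  have hB'c : B'.card ≤ 2 :=
    (Finset.card_image_le.trans (Finset.card_filter_le _ _)).trans hBc
  let χ' : MN φ ι bq γ → Prop := fun n => ∃ u, Ov γ ε (d i) u ∧ nd φ ι bq γ u = n ∧ χ u
  have hχ' : ∀ u, Ov γ ε (d i) u → χ' (nd φ ι bq γ u) = χ u := by
    intro u hu
    refine propext ⟨?_, fun h1 => ⟨u, hu, rfl, h1⟩⟩
    rintro ⟨v, hv, hvu, h1⟩
    rwa [← nd_inj hA hP hper hv hu hvu]
  have key := hB B' hB'c (fun h1 => hqB (hB' _ hr h1)) (fun h1 => hqB' (hB' _ hr' h1)) χ' ?_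
  · rw [hχ' (Sum.inl r) hr, hχ' (Sum.inl r') hr'] at key
    exact key
  · intro k hk h1 h2
    obtain ⟨x, hx, hxk⟩ := exists_crn hP.inv hP.lab ((hcol k i).mp hk)
    have h3 : aN φ ι bq γ k.1 = nd φ ι bq γ (Sum.inl (hend ι bq γ x)) := by
      rw [nd_hend, hxk]
    have h4 : bN φ ι bq γ k.1 = nd φ ι bq γ (Sum.inr x.1) := by
      rw [nd_arc, hxk]
    have h5 : Ov γ ε (d i) (Sum.inl (hend ι bq γ x)) :=
      eps_hend hP.lab hA.be_be hA.eps_bq x hx
    have h6 : Ov γ ε (d i) (Sum.inr x.1 : Q ⊕ H) := hx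
    show χ' (aN φ ι bq γ k.1) = χ' (bN φ ι bq γ k.1)
    have h1' : aN φ ι bq γ k.1 ∉ B' := h1
    have h2' : bN φ ι bq γ k.1 ∉ B' := h2
    rw [h3, h4, hχ' _ h5, hχ' _ h6]
    rw [h3] at h1'
    rw [h4] at h2'
    refine hχ x hx (fun h7 => h1' ?_) (fun h7 => h2' ?_)
    · exact Finset.mem_image_of_mem _ (Finset.mem_filter.mpr ⟨h7, h5⟩)
    · exact Finset.mem_image_of_mem _ (Finset.mem_filter.mpr ⟨h7, h6⟩)

omit [Fintype H] [Fintype Q] in
/-- The directions of a level. -/
theorem exists_dirs (hL : Lev φ be (fun h => ε (γ h)) lev N) (e : E)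
    (h0 : 0 < lev e) (h1 : lev e + 1 < N) :
    ∃ d : Fin 3 → E, d 0 = e ∧ (∀ i, lev (d i) = lev e) ∧ (∀ e', lev e' = lev e → ∃ i, d i = e') ∧
      Function.Injective d := by
  have hc := hL.card_mid (lev e) h0 h1
  have : Finite {e' // lev e' = lev e} := Nat.finite_of_card_ne_zero (by omega)
  let f : {e' // lev e' = lev e} ≃ Fin 3 := Finite.equivFinOfCardEq hc
  refine ⟨fun i => (f.symm (Equiv.swap 0 (f ⟨e, rfl⟩) i)).1, ?_, ?_, ?_, ?_⟩
  · show (f.symm (Equiv.swap 0 (f ⟨e, rfl⟩) 0)).1 = e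
    rw [Equiv.swap_apply_left, Equiv.symm_apply_apply]
  · intro i
    exact (f.symm (Equiv.swap 0 (f ⟨e, rfl⟩) i)).2
  · intro e' he'
    refine ⟨Equiv.swap 0 (f ⟨e, rfl⟩) (f ⟨e', he'⟩), ?_⟩
    show (f.symm (Equiv.swap 0 (f ⟨e, rfl⟩) (Equiv.swap 0 (f ⟨e, rfl⟩) (f ⟨e', he'⟩)))).1 = e'
    rw [Equiv.swap_apply_self, Equiv.symm_apply_apply]
  · intro i j hij
    exact (Equiv.swap 0 (f ⟨e, rfl⟩)).injective (f.symm.injective (Subtype.ext hij))

theorem fin3_other : ∀ i j : Fin 3, i ≠ j → ∃ c : Fin 3, ∀ l, c ≠ l ↔ (l = i ∨ l = j) := by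
  decide

theorem fin3_pair : ∀ c : Fin 3, ∃ i j : Fin 3, i ≠ j ∧ c ≠ i ∧ c ≠ j := by
  decide

theorem fin3_ne {c c' : Fin 3} (h : c ≠ c') (l : Fin 3) : c ≠ l ∨ c' ≠ l := by
  by_contra h1
  push Not at h1
  exact h (h1.1.trans h1.2.symm)

end Main

end PM

open PM

variable {H Q E : Type} [Fintype H] [Fintype Q] {φ ι : Perm H} {bq : Q → Q} {γ : H → Q}
  {be : E → E} {ε : Q → E} {lev : E → ℕ} {N : ℕ}

/-- Inseparable pairs persist at inner vertices. -/
theorem persist_mid (hA : Adm φ bq γ be ε) (hP : Pairing φ ι be fun h => ε (γ h))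
    (hM : Maxl φ ι bq γ be ε) (hL : Lev φ be (fun h => ε (γ h)) lev N) (e : E) (q q' : Q)
    (h0 : 0 < lev e) (h1 : lev e + 1 < N) (h : Insep ι bq γ ε e q q') :
    ∃ e' r r', e' ≠ e ∧ Vrel φ bq γ q r ∧ Vrel φ bq γ q' r' ∧ Insep ι bq γ ε e' r r' := by
  classical
  obtain ⟨ht1, hper, -⟩ := tight hA hP hM hL
  obtain ⟨d, hd0, hdl, hds, hdi⟩ := exists_dirs hL e h0 h1
  -- colours
  have hcolx : ∀ k : {k : H // lev (be (ε (γ k))) = lev e}, ∃ c : Fin 3, ∀ l,
      c ≠ l ↔ Has φ be (fun h => ε (γ h)) (d l) k.1 := by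
    rintro ⟨k, hk⟩
    obtain ⟨i, hi⟩ := hds _ hk
    obtain ⟨j, hj⟩ := hds (ε (γ (φ k))) ((hL.turn k).symm.trans hk)
    have hij : i ≠ j := by
      intro hij
      apply hA.redE k
      rw [← hi, ← hj, hij]
    obtain ⟨c, hc⟩ := fin3_other i j hij
    refine ⟨c, fun l => (hc l).trans ⟨?_, ?_⟩⟩
    · rintro (h2 | h2)
      · left
        show be (ε (γ k)) = d l
        rw [h2, hi]
      · right
        show ε (γ (φ k)) = d l
        rw [h2, hj]
    · rintro (h2 | h2)
      · left
        exact hdi (h2.symm.trans hi.symm)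
      · right
        exact hdi (h2.symm.trans hj.symm)
  choose col hcol using hcolx
  -- special nodes
  let S : Type := {q // ε q = e ∧ val φ bq γ q = 3} ⊕
    {g // ε (γ g) = e ∧ Mixed φ ι be (fun h => ε (γ h)) g}
  have hS : Nat.card S = 2 := by
    rw [Nat.card_sum]
    exact ht1 e h0 h1
  let sN : S → MN φ ι bq γ := fun s => match s with
    | Sum.inl q => nd φ ι bq γ (Sum.inl q.1)
    | Sum.inr g => nd φ ι bq γ (Sum.inr g.1)
  let sU : S → Q ⊕ H := fun s => match s with
    | Sum.inl q => Sum.inl q.1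
    | Sum.inr g => Sum.inr g.1
  have hsU : ∀ s, nd φ ι bq γ (sU s) = sN s := by
    rintro (s | s) <;> rfl
  have hsO : ∀ s, Ov γ ε e (sU s) := by
    rintro (s | s)
    · exact s.2.1
    · exact s.2.1
  have hsUi : Function.Injective sU := by
    rintro (s | s) (t | t) hst
    · exact congrArg Sum.inl (Subtype.ext (Sum.inl_injective hst))
    · exact absurd hst Sum.inl_ne_inr
    · exact absurd hst Sum.inr_ne_inl
    · exact congrArg Sum.inr (Subtype.ext (Sum.inr_injective hst))
  have hsi : Function.Injective sN := by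
    intro s t hst
    apply hsUi
    refine nd_inj hA hP hper (hsO s) (hsO t) ?_
    rw [hsU, hsU, hst]
  obtain ⟨s, t, hst, huniv⟩ := Nat.card_eq_two_iff.mp hS
  have hsp : ∀ x : S, sN x = sN s ∨ sN x = sN t := by
    intro x
    have : x ∈ ({s, t} : Set S) := by
      rw [huniv]
      trivial
    rcases this with h2 | h2
    · left
      rw [h2]
    · right
      rw [h2]
  have key := abstract_persist
    (fun k : {k : H // lev (be (ε (γ k))) = lev e} => aN φ ι bq γ k.1)
    (fun k => bN φ ι bq γ k.1) col (sN s) (sN t) (fun h2 => hst (hsi h2)) ?_ ?_ ?_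
    (nd φ ι bq γ (Sum.inl q)) (nd φ ι bq γ (Sum.inl q')) ?_
  · -- conclusion
    have fin : ∀ i : Fin 3, i ≠ 0 →
        InsepA (fun k : {k : H // lev (be (ε (γ k))) = lev e} => aN φ ι bq γ k.1)
          (fun k => bN φ ι bq γ k.1) col i (nd φ ι bq γ (Sum.inl q))
          (nd φ ι bq γ (Sum.inl q')) →
        ∃ e' r r', e' ≠ e ∧ Vrel φ bq γ q r ∧ Vrel φ bq γ q' r' ∧ Insep ι bq γ ε e' r r' := by
      intro i hi hI
      have hex : ∀ p : Q, (∃ k : {k : H // lev (be (ε (γ k))) = lev e}, col k ≠ i ∧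
          At (fun k : {k : H // lev (be (ε (γ k))) = lev e} => aN φ ι bq γ k.1)
            (fun k => bN φ ι bq γ k.1) k (nd φ ι bq γ (Sum.inl p))) →
          ∃ r, ε r = d i ∧ Vrel φ bq γ p r := by
        rintro p ⟨k, hk, hkx | hkx⟩
        · have h2 : Vrel φ bq γ (bq (γ k.1)) p := Quotient.exact (Sum.inl_injective hkx)
          obtain ⟨r, hr, hr2⟩ := exists_edge hA.eps_bq ((hcol k i).mp hk)
          exact ⟨r, hr, h2.symm.trans hr2⟩
        · exact absurd hkx (by simp [bN, nd])
      obtain ⟨r, hr, hrv⟩ := hex q hI.2.1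
      obtain ⟨r', hr', hrv'⟩ := hex q' hI.2.2.1
      have e1 : nd φ ι bq γ (Sum.inl q) = nd φ ι bq γ (Sum.inl r) :=
        congrArg Sum.inl (Quotient.sound hrv)
      have e2 : nd φ ι bq γ (Sum.inl q') = nd φ ι bq γ (Sum.inl r') :=
        congrArg Sum.inl (Quotient.sound hrv')
      rw [e1, e2] at hI
      refine ⟨d i, r, r', ?_, hrv, hrv', insep_of hA hP hper col hcol hr hr' hI⟩
      intro h2
      exact hi (hdi (h2.trans hd0.symm))
    rcases key with hI | hI
    · exact fin 1 (by decide) hI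
    · exact fin 2 (by decide) hI
  · -- mono
    rintro k k' hkk x (hx | hx) (hx' | hx')
    · -- a vertex
      have hv : Vrel φ bq γ (bq (γ k.1)) (bq (γ k'.1)) :=
        Quotient.exact (Sum.inl_injective (hx.trans hx'.symm))
      have hr : ∀ l : Fin 3, ∃ r, ε r = d l ∧ Vrel φ bq γ (bq (γ k.1)) r := by
        intro l
        rcases fin3_ne hkk l with h2 | h2
        · exact exists_edge hA.eps_bq ((hcol k l).mp h2)
        · obtain ⟨r, hr, hr2⟩ := exists_edge hA.eps_bq ((hcol k' l).mp h2)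
          exact ⟨r, hr, hv.trans hr2⟩
      choose r hr hrv using hr
      have hval : val φ bq γ (r 0) = 3 := by
        have h2 : 3 ≤ val φ bq γ (r 0) := by
          have h3 := Nat.card_le_card_of_injective
            (fun l : Fin 3 => (⟨r l, (hrv 0).symm.trans (hrv l)⟩ :
              {p : Q // Vrel φ bq γ (r 0) p})) (by
                intro l l' hll
                have h4 : r l = r l' := congrArg Subtype.val hll
                apply hdi
                rw [← hr l, ← hr l', h4])
          rw [Nat.card_fin] at h3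
          exact h3
        rcases (val_bounds hA hP hL (r 0)).1 with h3 | h3 <;> omega
      have hx2 : x = sN (Sum.inl ⟨r 0, (hr 0).trans hd0, hval⟩) := by
        rw [← hx]
        exact congrArg Sum.inl (Quotient.sound (hrv 0))
      rw [hx2]
      exact hsp (Sum.inl ⟨r 0, (hr 0).trans hd0, hval⟩)
    · exact absurd (hx.trans hx'.symm) (by simp [aN, bN])
    · exact absurd (hx.trans hx'.symm) (by simp [aN, bN])
    · -- a polygon
      have hv : (ι * φ).SameCycle k.1 k'.1 :=
        Quotient.exact (Sum.inr_injective (hx.trans hx'.symm))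
      have hp3 : Function.minimalPeriod (ι * φ) k.1 = 3 := by
        rcases sameCycle_cases (hper k.1) hv with ⟨hp, h2⟩ | ⟨hp, h2⟩
        · exfalso
          have h3 : ∀ l, Has φ be (fun h => ε (γ h)) (d l) k'.1 →
              Has φ be (fun h => ε (γ h)) (d l) k.1 := by
            intro l hl
            rcases h2 with h2 | h2
            · rwa [h2] at hl
            · rw [h2] at hl
              rcases hl with hl | hl
              · right
                have hl' : be (ε (γ ((ι * φ) k.1))) = d l := hl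
                rw [be_psi hA hP] at hl'
                exact hl'
              · left
                have hl' : ε (γ (φ ((ι * φ) k.1))) = d l := hl
                rw [← be_psi hA hP, psi_two hp] at hl'
                exact hl'
          have h4 : ∀ l, col k ≠ l := by
            intro l
            rcases fin3_ne hkk l with h5 | h5
            · exact h5
            · exact (hcol k l).mpr (h3 l ((hcol k' l).mp h5))
          exact h4 _ rfl
        · exact hp
      have hp3' : Function.minimalPeriod (ι * φ) k'.1 = 3 := by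
        rcases sameCycle_cases (hper k'.1) hv.symm with ⟨hp, h2⟩ | ⟨hp, h2⟩
        · exfalso
          rcases h2 with h2 | h2
          · rw [h2] at hp3
            omega
          · have h3 := psi_two hp
            have h4 := psi_three hp3
            rw [h2, h3] at h4
            have h5 : k'.1 = (ι * φ) k'.1 := by
              have h6 : (ι * φ) ((ι * φ) k'.1) = (ι * φ) k'.1 := by
                rw [← h2, h2]
                exact h4
              exact ((ι * φ).injective h6).symm
            have h7 : Function.minimalPeriod (ι * φ) k'.1 = 1 :=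
              Function.minimalPeriod_eq_one_iff_isFixedPt.mpr h5.symm
            omega
        · exact hp
      -- an arc over `e` at the polygon
      have harc : ∃ k0 : H, (ι * φ).SameCycle k0 k.1 ∧ ε (γ (φ k0)) = e ∧
          Function.minimalPeriod (ι * φ) k0 = 3 := by
        have hone : ∀ k1 : H, (ι * φ).SameCycle k1 k.1 →
            Function.minimalPeriod (ι * φ) k1 = 3 →
            Has φ be (fun h => ε (γ h)) (d 0) k1 →
            ∃ k0 : H, (ι * φ).SameCycle k0 k.1 ∧ ε (γ (φ k0)) = e ∧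
              Function.minimalPeriod (ι * φ) k0 = 3 := by
          rintro k1 hs hp (h2 | h2)
          · refine ⟨(ι * φ) ((ι * φ) k1), ?_, ?_, ?_⟩
            · exact (Perm.sameCycle_apply_left.mpr (Perm.sameCycle_apply_left.mpr hs))
            · rw [← be_psi hA hP, psi_three hp]
              exact h2.trans hd0
            · have hm1 : k1 ∈ Function.periodicPts (ι * φ) :=
                Function.minimalPeriod_pos_iff_mem_periodicPts.mp (by omega)
              have e1 : Function.minimalPeriod (ι * φ) ((ι * φ) k1) = 3 :=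
                (Function.minimalPeriod_apply hm1).trans hp
              have hm2 : (ι * φ) k1 ∈ Function.periodicPts (ι * φ) :=
                Function.minimalPeriod_pos_iff_mem_periodicPts.mp (by omega)
              exact (Function.minimalPeriod_apply hm2).trans e1
          · exact ⟨k1, hs, h2.trans hd0, hp⟩
        rcases fin3_ne hkk 0 with h2 | h2
        · exact hone k.1 (Perm.SameCycle.refl _ _) hp3 ((hcol k 0).mp h2)
        · exact hone k'.1 hv.symm hp3' ((hcol k' 0).mp h2)
      obtain ⟨k0, hs0, he0, hp0⟩ := harc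
      have hmix : Mixed φ ι be (fun h => ε (γ h)) (φ k0) := by
        intro h2
        have h3 : be (ε (γ (φ⁻¹ (φ k0)))) = ε (γ (φ (ι (φ k0)))) := h2
        rw [pm_inv_apply] at h3
        have h4 : ε (γ (φ (ι (φ k0)))) = be (ε (γ ((ι * φ) ((ι * φ) k0)))) := by
          rw [be_psi hA hP]
          rfl
        have h5 := hA.redE ((ι * φ) ((ι * φ) k0))
        rw [← be_psi hA hP, psi_three hp0, h3, h4] at h5
        exact h5 rfl
      have hx2 : x = sN (Sum.inr ⟨φ k0, he0, hmix⟩) := by
        rw [← hx]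
        refine congrArg Sum.inr (Quotient.sound ?_)
        show (ι * φ).SameCycle k.1 (φ⁻¹ (φ k0))
        rw [pm_inv_apply]
        exact hs0.symm
      rw [hx2]
      exact hsp (Sum.inr ⟨φ k0, he0, hmix⟩)
  · -- no cut node
    intro i A hA1 hA2
    obtain ⟨k1, hk1, hk1c⟩ := hA1
    obtain ⟨k2, hk2, hk2c⟩ := hA2
    let A' : Set (H × Bool) := {x | ∃ k : {k : H // lev (be (ε (γ k))) = lev e}, k ∈ A ∧
      k.1 = crn φ ι x}
    obtain ⟨x1, hx1, hx1k⟩ := exists_crn hP.inv hP.lab ((hcol k1 i).mp hk1c)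
    obtain ⟨x2, hx2, hx2k⟩ := exists_crn hP.inv hP.lab ((hcol k2 i).mp hk2c)
    have hin : x1 ∈ A' := ⟨k1, hk1, hx1k.symm⟩
    have hout : x2 ∉ A' := by
      rintro ⟨k, hk, hkx⟩
      have : k = k2 := Subtype.ext (hkx.trans hx2k)
      rw [this] at hk
      exact hk2 hk
    obtain ⟨u, v, huv, hu, hv⟩ := half_cut hA hP hM (d i) A' ⟨x1, hin, hx1⟩ ⟨x2, hout, hx2⟩
    have hov : ∀ u, Shared ι bq γ ε (d i) A' u → Ov γ ε (d i) u := by
      rintro u ⟨⟨x, -, hx, hxu | hxu⟩, -⟩
      · rw [hxu]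
        exact PM.eps_hend hP.lab hA.be_be hA.eps_bq x hx
      · rw [hxu]
        exact hx
    have hsh : ∀ u, Shared ι bq γ ε (d i) A' u →
        (∃ k, k ∈ A ∧ col k ≠ i ∧
          At (fun k : {k : H // lev (be (ε (γ k))) = lev e} => aN φ ι bq γ k.1)
            (fun k => bN φ ι bq γ k.1) k (nd φ ι bq γ u)) ∧
        (∃ k, k ∉ A ∧ col k ≠ i ∧
          At (fun k : {k : H // lev (be (ε (γ k))) = lev e} => aN φ ι bq γ k.1)
            (fun k => bN φ ι bq γ k.1) k (nd φ ι bq γ u)) := by
      rintro u ⟨⟨x, hxA, hx, hxu⟩, ⟨y, hyA, hy, hyu⟩⟩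
      have hat : ∀ (x : H × Bool) (k : {k : H // lev (be (ε (γ k))) = lev e}),
          k.1 = crn φ ι x → (u = Sum.inl (hend ι bq γ x) ∨ u = Sum.inr x.1) →
          At (fun k : {k : H // lev (be (ε (γ k))) = lev e} => aN φ ι bq γ k.1)
            (fun k => bN φ ι bq γ k.1) k (nd φ ι bq γ u) := by
        rintro x k hk (h2 | h2)
        · left
          show aN φ ι bq γ k.1 = _
          rw [h2, nd_hend, hk]
        · right
          show bN φ ι bq γ k.1 = _
          rw [h2, nd_arc, hk]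
      have hasx := has_crn (φ := φ) hP.lab hA.be_be _ hx
      have hasy := has_crn (φ := φ) hP.lab hA.be_be _ hy
      constructor
      · obtain ⟨k, hk, hkx⟩ := hxA
        refine ⟨k, hk, (hcol k i).mpr ?_, hat x k hkx hxu⟩
        rw [hkx]
        exact hasx
      · refine ⟨⟨crn φ ι y, (lev_of_has hL hasy).trans (hdl i)⟩, fun h2 => hyA ⟨_, h2, rfl⟩,
          (hcol _ i).mpr hasy, hat y _ rfl hyu⟩
    refine ⟨nd φ ι bq γ u, nd φ ι bq γ v,
      fun h2 => huv (nd_inj hA hP hper (hov u hu) (hov v hv) h2),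
      (hsh u hu).1, (hsh u hu).2, (hsh v hv).1, (hsh v hv).2⟩
  · -- every colour occurs
    intro i
    obtain ⟨a, b, hab, hia, hib⟩ := fin3_pair i
    obtain ⟨k, hk⟩ := hL.tri (d a) (d b) ((hdl a).trans (hdl b).symm)
      (fun h2 => hab (hdi h2)) (by rw [hdl]; exact h0) (by rw [hdl]; exact h1)
    have hasa : Has φ be (fun h => ε (γ h)) (d a) k := by
      rcases hk with hk | hk
      · exact Or.inl hk.1
      · exact Or.inr hk.2
    have hasb : Has φ be (fun h => ε (γ h)) (d b) k := by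
      rcases hk with hk | hk
      · exact Or.inr hk.2
      · exact Or.inl hk.1
    refine ⟨⟨k, (lev_of_has hL hasa).trans (hdl a)⟩, ?_⟩
    by_contra h2
    have h3 : Has φ be (fun h => ε (γ h)) (d i) k := (hcol _ i).mp h2
    have h4 : i = a ∨ i = b := by
      rcases hk with ⟨hk1, hk2⟩ | ⟨hk1, hk2⟩
      · rcases h3 with h3 | h3
        · left
          exact hdi (h3.symm.trans hk1)
        · right
          exact hdi (h3.symm.trans hk2)
      · rcases h3 with h3 | h3
        · right
          exact hdi (h3.symm.trans hk1)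
        · left
          exact hdi (h3.symm.trans hk2)
    rcases h4 with h4 | h4
    · exact hia h4
    · exact hib h4
  · exact insep_to hA hP hL hper hdl col hcol (by rw [hd0]; exact h)

end Pool.Agent.H57.Stall
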