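import Mathlib
import Pool.Agent.H57.Stall.Lev

set_option autoImplicit false

namespace Pool.Agent.H57.Stall

open Equiv

variable {H Q E : Type} [Fintype H] [Fintype Q] {φ ι : Perm H} {bq : Q → Q} {γ : H → Q}
  {be : E → E} {ε : Q → E}

/-- The fibre graph over `e` without the vertex `q`, as a simple graph. -/
private def fgr (ι : Perm H) (bq : Q → Q) (γ : H → Q) (ε : Q → E) (e : E) (q : Q) :
    SimpleGraph Q where
  Adj x y := x ≠ y ∧ x ≠ q ∧ y ≠ q ∧ ∃ h, ε (γ h) = e ∧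
    ((γ h = x ∧ bq (γ (ι h)) = y) ∨ (γ h = y ∧ bq (γ (ι h)) = x))
  symm := ⟨by
    rintro x y ⟨h1, h2, h3, h, h4, h5⟩
    exact ⟨h1.symm, h3, h2, h, h4, h5.symm⟩⟩
  loopless := ⟨fun x h => h.1 rfl⟩

private theorem walk_first {V : Type} {G : SimpleGraph V} (S : V → Prop) {x y : V}
    (w : G.Walk x y) (hy : S y) :
    ∃ c, S c ∧ ∃ w' : G.Walk x c, ∀ z ∈ w'.support, S z → z = c := by
  induction w with
  | nil => exact ⟨_, hy, SimpleGraph.Walk.nil, fun z hz _ => by simpa using hz⟩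
  | @cons u v w h p ih =>
    by_cases hu : S u
    · exact ⟨u, hu, SimpleGraph.Walk.nil, fun z hz _ => by simpa using hz⟩
    · obtain ⟨c, hc, w', hw'⟩ := ih hy
      refine ⟨c, hc, SimpleGraph.Walk.cons h w', fun z hz hz' => ?_⟩
      rw [SimpleGraph.Walk.support_cons, List.mem_cons] at hz
      rcases hz with rfl | hz
      · exact absurd hz' hu
      · exact hw' z hz hz'

private theorem eps_end (hA : Adm φ bq γ be ε) (hP : Pairing φ ι be fun h => ε (γ h)) {e : E}
    {h : H} (he : ε (γ h) = e) : ε (bq (γ (ι h))) = e := by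
  have h1 : ε (γ (ι h)) = be (ε (γ h)) := hP.lab h
  rw [hA.eps_bq, h1, hA.be_be, he]

/-- A fibre graph that is not a cycle contains an inseparable pair. -/
theorem exists_insep (hA : Adm φ bq γ be ε) (hP : Pairing φ ι be fun h => ε (γ h))
    (hM : Maxl φ ι bq γ be ε) (g g' : H) (hne : g ≠ g') (hg : γ g = γ g') :
    ∃ e q q', Insep ι bq γ ε e q q' := by
  classical
  obtain ⟨q, hq⟩ : ∃ q, q = γ g := ⟨_, rfl⟩
  obtain ⟨e, he⟩ : ∃ e, e = ε q := ⟨_, rfl⟩
  have hgq : γ g = q := hq.symm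
  have hgq' : γ g' = q := by rw [← hg, hgq]
  have heg : ε (γ g) = e := by rw [hgq, he]
  have heg' : ε (γ g') = e := by rw [hgq', he]
  -- no loops
  have nol : ∀ a, ε (γ a) = e → γ a ≠ bq (γ (ι a)) := by
    intro a ha hl
    have hex : ∃ h, h ∉ ({a} : Set H) ∧ ε (γ h) = e := by
      by_cases hag : g = a
      · refine ⟨g', ?_, heg'⟩
        intro h
        exact hne (hag.trans (Set.mem_singleton_iff.mp h).symm)
      · exact ⟨g, fun h => hag (Set.mem_singleton_iff.mp h), heg⟩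
    obtain ⟨q1, q2, h12, ⟨h1, h1m, -, h1e⟩, -, ⟨h2, h2m, -, h2e⟩, -⟩ :=
      hM.cut e {a} ⟨a, rfl, ha⟩ hex
    rw [Set.mem_singleton_iff] at h1m h2m
    subst h1m
    subst h2m
    apply h12
    rcases h1e with h1e | h1e <;> rcases h2e with h2e | h2e
    · rw [← h1e, ← h2e]
    · rw [← h1e, ← h2e, hl]
    · rw [← h1e, ← h2e, hl]
    · rw [← h1e, ← h2e]
  -- an incoming arc
  obtain ⟨g₃, hg₃⟩ : ∃ a, bq (γ (ι a)) = q := by
    have hb := hA.balanced hP q
    have hpos : 0 < Nat.card {h // γ h = q} := by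
      have : Nonempty {h // γ h = q} := ⟨⟨g, hgq⟩⟩
      exact Nat.card_pos
    rw [hb] at hpos
    have := (Nat.card_pos_iff.mp hpos).1
    obtain ⟨h, hh⟩ := Classical.arbitrary {h // γ h = bq q}
    refine ⟨ι h, ?_⟩
    rw [hP.inv, hh, hA.bq_bq]
  have heg₃ : ε (γ g₃) = e := by
    have h1 : ε (γ (ι g₃)) = be (ε (γ g₃)) := hP.lab g₃
    have h2 : ε (bq (γ (ι g₃))) = e := by rw [hg₃, he]
    rw [hA.eps_bq, h1, hA.be_be] at h2
    exact h2
  have hg₃q : γ g₃ ≠ q := by
    intro h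
    exact nol g₃ heg₃ (h.trans hg₃.symm)
  have hn₁ : bq (γ (ι g)) ≠ q := by
    intro h
    exact nol g heg (hgq.trans h.symm)
  have hn₂ : bq (γ (ι g')) ≠ q := by
    intro h
    exact nol g' heg' (hgq'.trans h.symm)
  have hne₁₃ : g ≠ g₃ := fun h => hg₃q (h ▸ hgq)
  have hne₂₃ : g' ≠ g₃ := fun h => hg₃q (h ▸ hgq')
  -- connectedness of the fibre graph without `q`
  have conn : ∀ χ : Q → Prop, (∀ h, ε (γ h) = e → γ h ≠ q → bq (γ (ι h)) ≠ q →
      (χ (γ h) ↔ χ (bq (γ (ι h))))) → ∀ n n', ε n = e → n ≠ q → ε n' = e → n' ≠ q →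
      χ n → χ n' := by
    intro χ hχ n n' hn hnq hn' hnq' hc
    by_contra hc'
    obtain ⟨a, ha⟩ := hA.surj hP n
    obtain ⟨a', ha'⟩ := hA.surj hP n'
    let A : Set H := {h | (γ h ≠ q ∧ χ (γ h)) ∨ (bq (γ (ι h)) ≠ q ∧ χ (bq (γ (ι h))))}
    have hcr : ∀ r, r ≠ q → Inc ι bq γ ε e A r → χ r := by
      rintro r hr ⟨h, hh, hhe, hhr⟩
      rcases hh with ⟨h1, h2⟩ | ⟨h1, h2⟩
      · rcases hhr with hhr | hhr
        · rwa [hhr] at h2
        · rw [← hhr]
          rw [← hhr] at hr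
          exact (hχ h hhe h1 hr).mp h2
      · rcases hhr with hhr | hhr
        · rw [← hhr]
          rw [← hhr] at hr
          exact (hχ h hhe hr h1).mpr h2
        · rwa [hhr] at h2
    have hcr' : ∀ r, r ≠ q → Inc ι bq γ ε e Aᶜ r → ¬ χ r := by
      rintro r hr ⟨h, hh, hhe, hhr⟩ hxr
      apply hh
      rcases hhr with hhr | hhr
      · left
        rw [hhr]
        exact ⟨hr, hxr⟩
      · right
        rw [hhr]
        exact ⟨hr, hxr⟩
    obtain ⟨q1, q2, h12, h1, h1', h2, h2'⟩ := hM.cut e A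
      ⟨a, Or.inl ⟨by rw [ha]; exact hnq, by rw [ha]; exact hc⟩, by rw [ha, hn]⟩
      ⟨a', fun hh => hc' (hcr n' hnq' ⟨a', hh, by rw [ha', hn'], Or.inl ha'⟩), by rw [ha', hn']⟩
    by_cases h1q : q1 = q
    · have h2q : q2 ≠ q := fun h => h12 (h1q.trans h.symm)
      exact hcr' q2 h2q h2' (hcr q2 h2q h2)
    · exact hcr' q1 h1q h1' (hcr q1 h1q h1)
  -- the walks
  let G : SimpleGraph Q := fgr ι bq γ ε e q
  have hreach : ∀ n n', ε n = e → n ≠ q → ε n' = e → n' ≠ q → G.Reachable n n' := by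
    intro n n' hn hnq hn' hnq'
    refine conn (fun x => G.Reachable n x) ?_ n n' hn hnq hn' hnq' (SimpleGraph.Reachable.refl n)
    intro h hh h1 h2
    have hadj : G.Adj (γ h) (bq (γ (ι h))) :=
      ⟨nol h hh, h1, h2, h, hh, Or.inl ⟨rfl, rfl⟩⟩
    exact ⟨fun hr => hr.trans hadj.reachable, fun hr => hr.trans hadj.symm.reachable⟩
  have hsupp : ∀ (x y : Q) (w : G.Walk x y), x ≠ q → ε x = e →
      ∀ z ∈ w.support, z ≠ q ∧ ε z = e := by
    intro x y w
    induction w with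
    | nil =>
      intro h1 h2 z hz
      rw [SimpleGraph.Walk.support_nil, List.mem_singleton] at hz
      rw [hz]
      exact ⟨h1, h2⟩
    | @cons u v w h p ih =>
      intro h1 h2 z hz
      rw [SimpleGraph.Walk.support_cons, List.mem_cons] at hz
      rcases hz with rfl | hz
      · exact ⟨h1, h2⟩
      · obtain ⟨-, -, h3, a, ha, ha'⟩ := h
        refine ih h3 ?_ z hz
        rcases ha' with ⟨-, h4⟩ | ⟨h4, -⟩
        · rw [← h4]
          exact eps_end hA hP ha
        · rw [← h4, ha]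
  have he₁ : ε (bq (γ (ι g))) = e := eps_end hA hP heg
  have he₂ : ε (bq (γ (ι g'))) = e := eps_end hA hP heg'
  obtain ⟨p, hp⟩ : ∃ p : G.Walk (bq (γ (ι g))) (bq (γ (ι g'))), p.IsPath :=
    (hreach _ _ he₁ hn₁ he₂ hn₂).exists_isPath
  obtain ⟨w⟩ := hreach _ _ heg₃ hg₃q he₁ hn₁
  obtain ⟨c, hc, w₃, hw₃⟩ := walk_first (fun z => z ∈ p.support) w p.start_mem_support
  have hcq := hsupp _ _ p hn₁ he₁ c hc
  -- the three sets
  obtain ⟨S, hS⟩ : ∃ S : Fin 3 → Set Q, S = ![{z | z ∈ (p.takeUntil c hc).support},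
    {z | z ∈ (p.dropUntil c hc).support}, {z | z ∈ w₃.support}] := ⟨_, rfl⟩
  obtain ⟨a, ha⟩ : ∃ a : Fin 3 → H, a = ![g, g', g₃] := ⟨_, rfl⟩
  have h12 : ∀ z, z ∈ (p.takeUntil c hc).support → z ∈ (p.dropUntil c hc).support → z = c := by
    intro z hz hz'
    have h1 : ((p.takeUntil c hc).append (p.dropUntil c hc)).support.Nodup := by
      rw [SimpleGraph.Walk.take_spec]
      exact hp.support_nodup
    rw [SimpleGraph.Walk.support_append, List.nodup_append] at h1
    rw [← SimpleGraph.Walk.cons_tail_support, List.mem_cons] at hz'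
    rcases hz' with hz' | hz'
    · exact hz'
    · exact absurd rfl (h1.2.2 z hz z hz')
  have hdisj : ∀ i j, i ≠ j → ∀ z, z ∈ S i → z ∈ S j → z = c := by
    have h13 : ∀ z, z ∈ (p.takeUntil c hc).support → z ∈ w₃.support → z = c := fun z hz hz' =>
      hw₃ z hz' (p.support_takeUntil_subset_support hc hz)
    have h23 : ∀ z, z ∈ (p.dropUntil c hc).support → z ∈ w₃.support → z = c := fun z hz hz' =>
      hw₃ z hz' (p.support_dropUntil_subset_support hc hz)
    intro i j hij z hz hz'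
    rw [hS] at hz hz'
    fin_cases i <;> fin_cases j
    · exact absurd rfl hij
    · exact h12 z hz hz'
    · exact h13 z hz hz'
    · exact h12 z hz' hz
    · exact absurd rfl hij
    · exact h23 z hz hz'
    · exact h13 z hz' hz
    · exact h23 z hz' hz
    · exact absurd rfl hij
  have hSq : ∀ i z, z ∈ S i → z ≠ q := by
    intro i z hz
    rw [hS] at hz
    fin_cases i
    · exact (hsupp _ _ _ hn₁ he₁ z hz).1
    · exact (hsupp _ _ _ hcq.1 hcq.2 z hz).1
    · exact (hsupp _ _ _ hg₃q heg₃ z hz).1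
  have hainj : ∀ i j, a i = a j → i = j := by
    intro i j hij
    rw [ha] at hij
    fin_cases i <;> fin_cases j
    · rfl
    · exact absurd hij hne
    · exact absurd hij hne₁₃
    · exact absurd hij.symm hne
    · rfl
    · exact absurd hij hne₂₃
    · exact absurd hij.symm hne₁₃
    · exact absurd hij.symm hne₂₃
    · rfl
  have haq : ∀ i, γ (a i) = q ∨ bq (γ (ι (a i))) = q := by
    intro i
    rw [ha]
    fin_cases i
    · exact Or.inl hgq
    · exact Or.inl hgq'
    · exact Or.inr hg₃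
  refine ⟨e, q, c, he.symm, hcq.2, hcq.1.symm, ?_⟩
  intro B hB hqB hcB χ hχ
  have harc : ∀ h, ε (γ h) = e → Sum.inr h ∉ B → Sum.inl (γ h) ∉ B →
      Sum.inl (bq (γ (ι h))) ∉ B → χ (Sum.inl (γ h)) = χ (Sum.inl (bq (γ (ι h)))) :=
    fun h h1 h2 h3 h4 => (hχ (h, false) h1 h3 h2).trans (hχ (h, true) h1 h4 h2).symm
  have hwalk : ∀ (T : Set Q), (∀ z ∈ T, Sum.inl z ∉ B) →
      (∀ h, ε (γ h) = e → γ h ∈ T → bq (γ (ι h)) ∈ T → Sum.inr h ∉ B) →
      ∀ (x y : Q) (w : G.Walk x y), (∀ z ∈ w.support, z ∈ T) →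
      χ (Sum.inl x) = χ (Sum.inl y) := by
    intro T hT hT' x y w
    induction w with
    | nil => exact fun _ => rfl
    | @cons u v w h p ih =>
      intro hs
      rw [SimpleGraph.Walk.support_cons] at hs
      have hu : u ∈ T := hs u List.mem_cons_self
      have hv : v ∈ T := hs v (List.mem_cons_of_mem _ p.start_mem_support)
      have hrest := ih fun z hz => hs z (List.mem_cons_of_mem _ hz)
      rw [← hrest]
      obtain ⟨-, -, -, b, hb, hb'⟩ := h
      rcases hb' with ⟨h1, h2⟩ | ⟨h1, h2⟩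
      · rw [← h1] at hu ⊢
        rw [← h2] at hv ⊢
        exact harc b hb (hT' b hb hu hv) (hT _ hu) (hT _ hv)
      · rw [← h1] at hv ⊢
        rw [← h2] at hu ⊢
        exact (harc b hb (hT' b hb hv hu) (hT _ hv) (hT _ hu)).symm
  obtain ⟨kill, hkill⟩ : ∃ kill : Fin 3 → Q ⊕ H → Prop, kill = fun i b =>
      (∃ z, b = Sum.inl z ∧ z ∈ S i) ∨ (∃ h, b = Sum.inr h ∧
        (h = a i ∨ (ε (γ h) = e ∧ γ h ∈ S i ∧ bq (γ (ι h)) ∈ S i))) := ⟨_, rfl⟩
  have huniq : ∀ b ∈ B, ∀ i j, kill i b → kill j b → i = j := by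
    intro b hb i j hi hj
    by_contra hij
    rw [hkill] at hi hj
    rcases hi with ⟨z, rfl, hz⟩ | ⟨h, rfl, hh⟩
    · rcases hj with ⟨z', hzz, hz'⟩ | ⟨h', hzz, -⟩
      · obtain rfl := Sum.inl_injective hzz
        have := hdisj i j hij z hz hz'
        rw [this] at hb
        exact hcB hb
      · exact absurd hzz Sum.inl_ne_inr
    · rcases hj with ⟨z', hzz, hz'⟩ | ⟨h', hzz, hh'⟩
      · exact absurd hzz Sum.inr_ne_inl
      · obtain rfl := Sum.inr_injective hzz
        rcases hh with hh | ⟨h1, h2, h3⟩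
        · rcases hh' with hh' | ⟨h1', h2', h3'⟩
          · exact hij (hainj i j (hh.symm.trans hh'))
          · rcases haq i with hq' | hq'
            · rw [← hh] at hq'
              exact hSq j _ h2' hq'
            · rw [← hh] at hq'
              exact hSq j _ h3' hq'
        · rcases hh' with hh' | ⟨h1', h2', h3'⟩
          · rcases haq j with hq' | hq'
            · rw [← hh'] at hq'
              exact hSq i _ h2 hq'
            · rw [← hh'] at hq'
              exact hSq i _ h3 hq'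
          · exact nol h h1 ((hdisj i j hij _ h2 h2').trans (hdisj i j hij _ h3 h3').symm)
  have hex : ∃ i, ∀ b ∈ B, ¬ kill i b := by
    by_contra hno
    push Not at hno
    choose f hf hf' using hno
    have hfi : Function.Injective f := fun i j hij =>
      huniq (f i) (hf i) i j (hf' i) (by rw [hij]; exact hf' j)
    have h3 : (Finset.univ.image f).card ≤ B.card := Finset.card_le_card fun x hx => by
      obtain ⟨i, -, rfl⟩ := Finset.mem_image.mp hx
      exact hf i
    rw [Finset.card_image_of_injective _ hfi, Finset.card_univ, Fintype.card_fin] at h3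
    omega
  obtain ⟨i, hi⟩ := hex
  rw [hkill] at hi
  have hSB : ∀ z ∈ S i, Sum.inl z ∉ B := fun z hz hb => hi _ hb (Or.inl ⟨z, rfl, hz⟩)
  have hSB' : ∀ h, ε (γ h) = e → γ h ∈ S i → bq (γ (ι h)) ∈ S i → Sum.inr h ∉ B :=
    fun h h1 h2 h3 hb => hi _ hb (Or.inr ⟨h, rfl, Or.inr ⟨h1, h2, h3⟩⟩)
  have haB : Sum.inr (a i) ∉ B := fun hb => hi _ hb (Or.inr ⟨a i, rfl, Or.inl rfl⟩)
  rw [hS] at hSB hSB'
  rw [ha] at haB
  fin_cases i
  · have hend : bq (γ (ι g)) ∈ {z | z ∈ (p.takeUntil c hc).support} :=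
      (p.takeUntil c hc).start_mem_support
    have h1 := harc g heg haB (by rw [hgq]; exact hqB) (hSB _ hend)
    rw [hgq] at h1
    exact h1.trans (hwalk _ hSB hSB' _ _ (p.takeUntil c hc) fun z hz => hz)
  · have hend : bq (γ (ι g')) ∈ {z | z ∈ (p.dropUntil c hc).support} :=
      (p.dropUntil c hc).end_mem_support
    have h1 := harc g' heg' haB (by rw [hgq']; exact hqB) (hSB _ hend)
    rw [hgq'] at h1
    exact h1.trans (hwalk _ hSB hSB' _ _ (p.dropUntil c hc) fun z hz => hz).symm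
  · have hend : γ g₃ ∈ {z | z ∈ w₃.support} := w₃.start_mem_support
    have h1 := harc g₃ heg₃ haB (hSB _ hend) (by rw [hg₃]; exact hqB)
    rw [hg₃] at h1
    exact h1.symm.trans (hwalk _ hSB hSB' _ _ w₃ fun z hz => hz)

/-- Reversal. -/
theorem Insep.flip (hA : Adm φ bq γ be ε) (hP : Pairing φ ι be fun h => ε (γ h)) {e : E}
    {q q' : Q} (h : Insep ι bq γ ε e q q') : Insep ι bq γ ε (be e) (bq q) (bq q') := by
  classical
  obtain ⟨h1, h2, h3, h4⟩ := h
  have hbinj : Function.Injective bq := fun a b hab => by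
    rw [← hA.bq_bq a, ← hA.bq_bq b, hab]
  have hιinj : Function.Injective ι := ι.injective
  have hT : Function.Injective (Sum.map bq ι) := Sum.map_injective.mpr ⟨hbinj, hιinj⟩
  have hTT : ∀ x, Sum.map bq ι (Sum.map bq ι x) = x := by
    rintro (x | x)
    · show Sum.inl (bq (bq x)) = Sum.inl x
      rw [hA.bq_bq]
    · show Sum.inr (ι (ι x)) = Sum.inr x
      rw [hP.inv]
  refine ⟨by rw [hA.eps_bq, h1], by rw [hA.eps_bq, h2], fun h => h3 (hbinj h), ?_⟩
  intro B hB hqB hqB' χ hχ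
  have hmem : ∀ x, x ∈ B.image (Sum.map bq ι) ↔ Sum.map bq ι x ∈ B := by
    intro x
    rw [Finset.mem_image]
    constructor
    · rintro ⟨y, hy, rfl⟩
      rwa [hTT]
    · intro hx
      exact ⟨_, hx, hTT x⟩
  refine h4 (B.image (Sum.map bq ι)) (Finset.card_image_le.trans hB) ?_ ?_
    (fun x => χ (Sum.map bq ι x)) ?_
  · rw [hmem]
    exact hqB
  · rw [hmem]
    exact hqB'
  · rintro ⟨a, s⟩ ha hb hc
    rw [hmem] at hb hc
    have hlab : ε (γ (ι a)) = be (ε (γ a)) := hP.lab a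
    have hend' : hend ι bq γ (ι a, !s) = bq (hend ι bq γ (a, s)) := by
      cases s
      · show bq (γ (ι (ι a))) = bq (γ a)
        rw [hP.inv]
      · show γ (ι a) = bq (bq (γ (ι a)))
        rw [hA.bq_bq]
    have := hχ (ι a, !s) (by show ε (γ (ι a)) = be e; rw [hlab, ha]) (by rw [hend']; exact hb) hc
    rw [hend'] at this
    exact this

end Pool.Agent.H57.Stall
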