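import Mathlib
import Pool.Agent.H57.Stall.PersistMid
import Pool.Agent.H57.Stall.PersistEnd
import Pool.Agent.H57.Stall.Start
import Pool.Agent.H57.Stall.Inject

set_option autoImplicit false

namespace Pool.Agent.H57.Stall

open Equiv

variable {H Q E : Type} [Fintype H] [Fintype Q] {φ ι : Perm H} {bq : Q → Q} {γ : H → Q}
  {be : E → E} {ε : Q → E} {lev : E → ℕ} {N : ℕ}

/-- The final step. -/
theorem depAll_of_lev (hA : Adm φ bq γ be ε) (hP : Pairing φ ι be fun h => ε (γ h))
    (hM : Maxl φ ι bq γ be ε) (hL : Lev φ be (fun h => ε (γ h)) lev N) : DepAll φ bq γ := by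
  have hper : ∀ e q q', Insep ι bq γ ε e q q' →
      ∃ e' r r', e' ≠ e ∧ Vrel φ bq γ q r ∧ Vrel φ bq γ q' r' ∧ Insep ι bq γ ε e' r r' := by
    intro e q q' h
    by_cases h0 : lev e = 0
    · exact persist_end hA hP hM hL e q q' (Or.inl h0) h
    · by_cases h1 : lev e + 1 = N
      · exact persist_end hA hP hM hL e q q' (Or.inr h1) h
      · have := hL.lt e
        exact persist_mid hA hP hM hL e q q' (by omega) (by omega) h
  have hno : ∀ p : Q × Q, ∀ e, ¬ Insep ι bq γ ε e p.1 p.2 := by
    intro p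
    induction p using hA.wf.induction with
    | _ p ih =>
      intro e h
      obtain ⟨e', r, r', hne, hr, hr', hI⟩ := hper _ _ _ (h.flip hA hP)
      refine ih (r, r') ?_ e' hI
      refine ⟨by rw [h.1, h.2.1], h.2.2.1, by rw [hI.1, hI.2.1], hI.2.2.1, hr, hr', ?_⟩
      intro h1
      apply hne
      have h2 : r = bq p.1 := h1
      rw [← hI.1, h2, hA.eps_bq, h.1]
  refine depAll_of_injective hA hP hM fun g g' hg => ?_
  by_contra hne
  obtain ⟨e, q, q', h⟩ := exists_insep hA hP hM g g' hne hg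
  exact hno (q, q') e h

end Pool.Agent.H57.Stall
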