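import Mathlib
import Pool.Agent.H57.Stall.ExistsLev
import Pool.Agent.H57.Stall.Finish

set_option autoImplicit false

namespace Pool.Agent.H57.Stall

open Equiv

/-- **Main theorem**, combinatorial form. -/
theorem main {H Q E : Type} [Fintype H] [Fintype Q] {φ : Perm H} {bq : Q → Q} {γ : H → Q}
    {be : E → E} {ε : Q → E} (hA : Adm φ bq γ be ε) (hD : DepAll φ be fun h => ε (γ h)) :
    DepAll φ bq γ := by
  by_contra hN
  obtain ⟨L, H', Q', E', i1, i2, φ', ι', bq', γ', be', ε', hm⟩ := exists_minCfg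
    ⟨Fintype.card H, H, Q, E, inferInstance, inferInstance, φ, bq, γ, be, ε, rfl, hA, hD, hN⟩
  obtain ⟨H'', Q'', E'', j1, j2, φ'', ι'', bq'', γ'', be'', ε'', lev, N, hA', hP', hM', hL', hD'⟩ :=
    exists_lev hm
  exact hD' (depAll_of_lev hA' hP' hM' hL')

end Pool.Agent.H57.Stall
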