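import Mathlib
import Pool.Agent.H57.Stall.DepLib

set_option autoImplicit false

/-!
# The Schreier graph

`W 0, ..., W (m - 1)` are words in the letters `X × Bool`, read along closed paths in the Schreier
graph of an action of `FreeGroup X` on `Ω`, starting at `v i`.  Reading a letter `e` from the
vertex `ω` leads to `(mk [e])⁻¹ • ω`.
-/

namespace Pool.Agent.H57.Stall

open Equiv

/-- The inverse letter. -/
def linv {X : Type} (e : X × Bool) : X × Bool := (e.1, !e.2)

section words

variable {X : Type} {m : ℕ} (W : Fin m → List (X × Bool))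

/-- The darts: all letters of all words. -/
abbrev SH : Type := Σ i : Fin m, Fin (W i).length

/-- The next letter. -/
def Sφ : Perm (SH W) := Equiv.sigmaCongrRight fun i => finRotate (W i).length

/-- The letter of a dart. -/
def Slet (h : SH W) : X × Bool := (W h.1).get h.2

theorem rot_pow_val (n : ℕ) (j : Fin n) (k : ℕ) :
    (((finRotate n) ^ k) j).1 = (j.1 + k) % n := by
  cases n with
  | zero => exact j.elim0
  | succ n =>
    induction k with
    | zero =>
      rw [pow_zero, Perm.one_apply, add_zero, Nat.mod_eq_of_lt j.2]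
    | succ k ih =>
      rw [pow_succ', Perm.mul_apply, finRotate_succ_apply, Fin.val_add, ih, Fin.val_one',
        ← Nat.add_mod, add_assoc]

theorem Sφ_pow (i : Fin m) (j : Fin (W i).length) (k : ℕ) :
    ((Sφ W) ^ k) ⟨i, j⟩ = ⟨i, ((finRotate (W i).length) ^ k) j⟩ := by
  induction k with
  | zero => rfl
  | succ k ih =>
    rw [pow_succ', Perm.mul_apply, ih, pow_succ', Perm.mul_apply]
    rfl

theorem Sφ_minimalPeriod (i : Fin m) (j : Fin (W i).length) :
    Function.minimalPeriod (Sφ W) ⟨i, j⟩ = (W i).length := by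
  apply Nat.dvd_antisymm
  · apply Function.IsPeriodicPt.minimalPeriod_dvd
    show (Sφ W)^[(W i).length] ⟨i, j⟩ = ⟨i, j⟩
    rw [Perm.iterate_eq_pow, Sφ_pow]
    congr 1
    apply Fin.ext
    rw [rot_pow_val, Nat.add_mod_right, Nat.mod_eq_of_lt j.2]
  · have h := Function.iterate_minimalPeriod (f := Sφ W) (x := ⟨i, j⟩)
    rw [Perm.iterate_eq_pow, Sφ_pow] at h
    have h2 := congrArg Fin.val (eq_of_heq (Sigma.mk.inj h).2)
    rw [rot_pow_val] at h2
    generalize Function.minimalPeriod (Sφ W) ⟨i, j⟩ = p at h2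
    have h3 : (j.1 + p) ≡ j.1 + 0 [MOD (W i).length] := by
      show (j.1 + p) % _ = (j.1 + 0) % _
      rw [h2, add_zero, Nat.mod_eq_of_lt j.2]
    have h4 := Nat.ModEq.add_left_cancel' _ h3
    exact (Nat.modEq_zero_iff_dvd).1 h4

theorem cprod_sch {G : Type} [Group G] (l : SH W → G) (i : Fin m) (j : Fin (W i).length)
    (hj : j.1 = 0) :
    cprod (Sφ W) l ⟨i, j⟩ = (List.ofFn fun k : Fin (W i).length => l ⟨i, k⟩).prod := by
  unfold cprod
  congr 1
  apply List.ext_getElem
  · rw [List.length_map, List.length_range, List.length_ofFn, Sφ_minimalPeriod]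
  · intro k h1 h2
    rw [List.getElem_map, List.getElem_range, List.getElem_ofFn, Sφ_pow]
    congr 2
    apply Fin.ext
    rw [rot_pow_val, hj, zero_add]
    apply Nat.mod_eq_of_lt
    simpa using h2

theorem isReps_sch (hW : ∀ i, 0 < (W i).length) :
    IsReps (Sφ W) (List.ofFn fun i : Fin m => (⟨i, ⟨0, hW i⟩⟩ : SH W)) := by
  constructor
  · rw [List.nodup_ofFn]
    intro i j hij
    exact (Sigma.mk.inj hij).1
  · rintro ⟨i, j⟩
    refine ⟨⟨i, ⟨0, hW i⟩⟩, ⟨?_, ?_⟩, ?_⟩
    · rw [List.mem_ofFn]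
      exact ⟨i, rfl⟩
    · refine ⟨(j.1 : ℤ), ?_⟩
      rw [zpow_natCast, Sφ_pow]
      congr 1
      apply Fin.ext
      rw [rot_pow_val]
      simp only [zero_add]
      exact Nat.mod_eq_of_lt j.2
    · rintro y ⟨hy, hy'⟩
      rw [List.mem_ofFn] at hy
      obtain ⟨i', rfl⟩ := hy
      obtain ⟨k, -, hk⟩ := hy'.exists_pow_eq'
      rw [Sφ_pow] at hk
      have h1 : i' = i := (Sigma.mk.inj hk).1
      subst h1
      rfl

end words

section graph

variable {X : Type} {m : ℕ} (W : Fin m → List (X × Bool)) {Ω : Type}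
  [MulAction (FreeGroup X) Ω] (v : Fin m → Ω)

/-- Reversal of an edge of the Schreier graph; an edge is given by its origin and its letter. -/
def sbar (x : Ω × (X × Bool)) : Ω × (X × Bool) := ((FreeGroup.mk [x.2])⁻¹ • x.1, linv x.2)

theorem sbar_sbar (x : Ω × (X × Bool)) : sbar (sbar x) = x := by
  obtain ⟨ω, e, b⟩ := x
  have h1 : (FreeGroup.mk [(e, b)] : FreeGroup X)⁻¹ = FreeGroup.mk [(e, !b)] := by
    rw [FreeGroup.inv_mk]
    rfl
  unfold sbar linv
  simp only [Bool.not_not]
  have h2 : (FreeGroup.mk [(e, !b)])⁻¹ • (FreeGroup.mk [(e, b)])⁻¹ • ω = ω := by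
    rw [← h1, inv_inv, smul_inv_smul]
  rw [h2]

/-- The vertex at which the letter `h` is read. -/
def SV (h : SH W) : Ω := (FreeGroup.mk ((W h.1).take h.2.1))⁻¹ • v h.1

theorem SV_next (hcl : ∀ i, FreeGroup.mk (W i) • v i = v i) (h : SH W) :
    SV W v (Sφ W h) = (FreeGroup.mk [Slet W h])⁻¹ • SV W v h := by
  obtain ⟨i, j⟩ := h
  have hR : (FreeGroup.mk [Slet W ⟨i, j⟩])⁻¹ • SV W v ⟨i, j⟩ =
      (FreeGroup.mk ((W i).take (j.1 + 1)))⁻¹ • v i := by
    unfold SV Slet
    simp only
    rw [smul_smul, ← mul_inv_rev, FreeGroup.mul_mk, List.take_succ_eq_append_getElem j.2]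
    rfl
  rw [hR]
  have hφ : Sφ W ⟨i, j⟩ = ⟨i, finRotate (W i).length j⟩ := rfl
  have hval : (finRotate (W i).length j).1 = (j.1 + 1) % (W i).length := by
    have := rot_pow_val (W i).length j 1
    rwa [pow_one] at this
  rw [hφ]
  unfold SV
  simp only
  rw [hval]
  rcases Nat.lt_or_ge (j.1 + 1) (W i).length with hlt | hge
  · rw [Nat.mod_eq_of_lt hlt]
  · have he : j.1 + 1 = (W i).length := by
      have := j.2
      omega
    rw [he, Nat.mod_self, List.take_zero, List.take_length, ← FreeGroup.one_eq_mk, inv_one,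
      one_smul]
    rw [eq_inv_smul_iff]
    exact hcl i

/-- The traversed edges. -/
def SQ : Type :=
  {x : Ω × (X × Bool) // ∃ h : SH W, (SV W v h, Slet W h) = x ∨ (SV W v h, Slet W h) = sbar x}

instance SQ_finite : Finite (SQ W v) := by
  let f : SH W → Ω × (X × Bool) := fun h => (SV W v h, Slet W h)
  have h1 : ({x : Ω × (X × Bool) | ∃ h : SH W, f h = x ∨ f h = sbar x}).Finite := by
    refine ((Set.finite_range f).union (Set.finite_range fun h => sbar (f h))).subset ?_
    rintro x ⟨h, hh | hh⟩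
    · exact Or.inl ⟨h, hh⟩
    · exact Or.inr ⟨h, by simp only [hh, sbar_sbar]⟩
  exact h1.to_subtype

/-- The edge traversed by a dart. -/
def Sγ (h : SH W) : SQ W v := ⟨(SV W v h, Slet W h), h, Or.inl rfl⟩

/-- Reversal of the traversed edges. -/
def Sbq (q : SQ W v) : SQ W v :=
  ⟨sbar q.1, by
    obtain ⟨h, hh⟩ := q.2
    refine ⟨h, ?_⟩
    rcases hh with hh | hh
    · right
      rw [sbar_sbar]
      exact hh
    · left
      exact hh⟩

/-- The letter of an edge. -/
def Sε (q : SQ W v) : X × Bool := q.1.2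

/-- The origin is turn-invariant. -/
theorem tinv_origin (hcl : ∀ i, FreeGroup.mk (W i) • v i = v i) (h : SH W) :
    (Sbq W v (Sγ W v h)).1.1 = (Sγ W v (Sφ W h)).1.1 := by
  show (sbar (SV W v h, Slet W h)).1 = SV W v (Sφ W h)
  rw [SV_next W v hcl h]
  rfl

end graph

end Pool.Agent.H57.Stall
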