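import Mathlib
import Pool.Agent.H57.Stall.SchDefs

set_option autoImplicit false

namespace Pool.Agent.H57.Stall

private theorem prod_ofFn_telescope {G : Type} [Group G] :
    ∀ (n : ℕ) (F : ℕ → G) (g : Fin n → G), (∀ k : Fin n, F (k.1 + 1) = F k.1 * g k) →
      (List.ofFn g).prod = (F 0)⁻¹ * F n := by
  intro n
  induction n with
  | zero => intro F g _; simp
  | succ n ih =>
    intro F g h
    rw [List.ofFn_succ', List.concat_eq_append, List.prod_append, List.prod_singleton,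
      ih F (fun i => g i.castSucc) fun k => h k.castSucc, mul_assoc]
    congr 1
    exact (h (Fin.last n)).symm

private theorem lift_mk_eq {X G : Type} [Group G] (l : X × Bool → G)
    (hl : ∀ e, l (linv e) = (l e)⁻¹) (L : List (X × Bool)) :
    FreeGroup.lift (fun x => l (x, true)) (FreeGroup.mk L) = (L.map l).prod := by
  rw [FreeGroup.lift_mk]
  congr 1
  apply List.map_congr_left
  rintro ⟨x, b⟩ _
  cases b with
  | true => rfl
  | false => exact (hl (x, true)).symm

/-- A relation between the words in the free group gives `DepAll` for the letters.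

Proof.  Given `l : X × Bool → G` with `l (linv e) = (l e)⁻¹` let `f : FreeGroup X →* G` be the
homomorphism with `f (of x) = l (x, true)`; then `f (mk [e]) = l e` and `f (mk (W i))` is the cycle
product at `⟨i, 0⟩` (`cprod_sch`); use `isReps_sch` and the images of the conjugators (the
representatives are indexed by `Fin m`, so choose a function on `SH W` with the given values). -/
theorem sch_dep {X : Type} {m : ℕ} (W : Fin m → List (X × Bool)) (hW : ∀ i, 0 < (W i).length)
    (c : Fin m → FreeGroup X)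
    (hc : (List.ofFn fun i => c i * FreeGroup.mk (W i) * (c i)⁻¹).prod = 1) :
    DepAll (Sφ W) linv (Slet W) := by
  intro G _ l hl
  rw [dep_iff_reps _ (isReps_sch W hW)]
  refine ⟨fun h => FreeGroup.lift (fun x => l (x, true)) (c h.1), ?_⟩
  have h1 := congrArg (FreeGroup.lift fun x => l (x, true)) hc
  rw [map_one, map_list_prod, List.map_ofFn] at h1
  rw [List.map_ofFn, ← h1]
  congr 2
  funext i
  have h2 : cprod (Sφ W) (fun h => l (Slet W h)) ⟨i, ⟨0, hW i⟩⟩ =
      FreeGroup.lift (fun x => l (x, true)) (FreeGroup.mk (W i)) := by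
    rw [cprod_sch W _ i _ rfl, lift_mk_eq l hl]
    congr 1
    conv_rhs => rw [← List.ofFn_get (W i), List.map_ofFn]
    rfl
  simp only [Function.comp_apply, h2, map_mul, map_inv]

/-- `DepAll` in the Schreier graph gives a relation in `S`.

Proof.  The word `W i` is read from the vertex `v i = (u i)⁻¹ S`.  For `ω : FreeGroup X ⧸ S` let
`t ω = (Quotient.out ω)⁻¹`, so that `ω = (t ω)⁻¹ S`.  Label the edge `(ω, e)` by
`t ω * mk [e] * (t ω')⁻¹ ∈ S`, `ω' = (mk [e])⁻¹ • ω`; this is antisymmetric.  The cycle product at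
`⟨i, 0⟩` is `t (v i) * mk (W i) * (t (v i))⁻¹`, and `t (v i) = s_i * u i` with `s_i ∈ S`, so it is
`s_i * x i * s_i⁻¹`.  Use `dep_iff_reps` and `isReps_sch`. -/
theorem sch_back {X : Type} {m : ℕ} (W : Fin m → List (X × Bool)) (hW : ∀ i, 0 < (W i).length)
    (S : Subgroup (FreeGroup X)) (u : Fin m → FreeGroup X) (x : Fin m → S)
    (hx : ∀ i, (x i : FreeGroup X) = u i * FreeGroup.mk (W i) * (u i)⁻¹)
    (hD : DepAll (Sφ W) (Sbq W fun i => (((u i)⁻¹ : FreeGroup X) : FreeGroup X ⧸ S))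
      (Sγ W fun i => (((u i)⁻¹ : FreeGroup X) : FreeGroup X ⧸ S))) :
    ∃ c : Fin m → S, (List.ofFn fun i => c i * x i * (c i)⁻¹).prod = 1 := by
  -- the origin of the `i`-th word
  set v : Fin m → FreeGroup X ⧸ S := fun i => (((u i)⁻¹ : FreeGroup X) : FreeGroup X ⧸ S) with hv
  have hout : ∀ ω : FreeGroup X ⧸ S, ((Quotient.out ω : FreeGroup X) : FreeGroup X ⧸ S) = ω :=
    fun ω => Quotient.out_eq' ω
  have hmem : ∀ (ω : FreeGroup X ⧸ S) (g : FreeGroup X),
      (Quotient.out ω)⁻¹ * g * Quotient.out (g⁻¹ • ω) ∈ S := by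
    intro ω g
    have h1 : (((g⁻¹ * Quotient.out ω : FreeGroup X)) : FreeGroup X ⧸ S) =
        ((Quotient.out (g⁻¹ • ω) : FreeGroup X) : FreeGroup X ⧸ S) := by
      rw [hout]
      conv_rhs => rw [← hout ω]
      rfl
    have h2 := QuotientGroup.eq.mp h1
    have h3 : (g⁻¹ * Quotient.out ω)⁻¹ * Quotient.out (g⁻¹ • ω) =
        (Quotient.out ω)⁻¹ * g * Quotient.out (g⁻¹ • ω) := by group
    rwa [h3] at h2
  let l : SQ W v → S := fun q =>
    ⟨(Quotient.out q.1.1)⁻¹ * FreeGroup.mk [q.1.2] * Quotient.out ((FreeGroup.mk [q.1.2])⁻¹ • q.1.1),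
      hmem _ _⟩
  have hlinv : ∀ e : X × Bool, FreeGroup.mk [linv e] = (FreeGroup.mk [e])⁻¹ := by
    intro e
    rw [FreeGroup.inv_mk]
    rfl
  have hl : ∀ q, l (Sbq W v q) = (l q)⁻¹ := by
    intro q
    apply Subtype.ext
    show (Quotient.out ((FreeGroup.mk [q.1.2])⁻¹ • q.1.1))⁻¹ * FreeGroup.mk [linv q.1.2] *
      Quotient.out ((FreeGroup.mk [linv q.1.2])⁻¹ • (FreeGroup.mk [q.1.2])⁻¹ • q.1.1) =
      ((Quotient.out q.1.1)⁻¹ * FreeGroup.mk [q.1.2] *
        Quotient.out ((FreeGroup.mk [q.1.2])⁻¹ • q.1.1))⁻¹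
    rw [hlinv, inv_inv, smul_inv_smul]
    group
  have hdep := hD S l hl
  rw [dep_iff_reps _ (isReps_sch W hW)] at hdep
  obtain ⟨c, hc⟩ := hdep
  -- the cycle products
  have hs : ∀ i, (Quotient.out (v i))⁻¹ * (u i)⁻¹ ∈ S := by
    intro i
    exact QuotientGroup.eq.mp (hout (v i))
  have hcl : ∀ i, (FreeGroup.mk (W i))⁻¹ • v i = v i := by
    intro i
    have h1 : (((FreeGroup.mk (W i))⁻¹ * (u i)⁻¹ : FreeGroup X) : FreeGroup X ⧸ S) =
        (((u i)⁻¹ : FreeGroup X) : FreeGroup X ⧸ S) := by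
      rw [QuotientGroup.eq]
      have h2 : ((FreeGroup.mk (W i))⁻¹ * (u i)⁻¹)⁻¹ * (u i)⁻¹ = (x i : FreeGroup X) := by
        rw [hx]; group
      rw [h2]
      exact (x i).2
    exact h1
  have hcp : ∀ i, cprod (Sφ W) (fun h => l (Sγ W v h)) ⟨i, ⟨0, hW i⟩⟩ =
      ⟨_, hs i⟩ * x i * (⟨_, hs i⟩ : S)⁻¹ := by
    intro i
    rw [cprod_sch W _ i _ rfl]
    apply Subtype.ext
    have h1 : (((List.ofFn fun k : Fin (W i).length => l (Sγ W v ⟨i, k⟩)).prod : S) :
        FreeGroup X) = (List.ofFn fun k : Fin (W i).length =>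
          ((l (Sγ W v ⟨i, k⟩) : S) : FreeGroup X)).prod := by
      rw [← Subgroup.coe_subtype, map_list_prod, List.map_ofFn]
      rfl
    rw [h1, prod_ofFn_telescope (W i).length (fun k => FreeGroup.mk ((W i).take k) *
      Quotient.out ((FreeGroup.mk ((W i).take k))⁻¹ • v i))]
    · simp only [List.take_zero, List.take_length, hcl, Subgroup.coe_mul, Subgroup.coe_inv, hx]
      rw [← FreeGroup.one_eq_mk]
      simp only [inv_one, one_smul]
      group
    · intro k
      have h2 : FreeGroup.mk ((W i).take (k.1 + 1)) =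
          FreeGroup.mk ((W i).take k.1) * FreeGroup.mk [Slet W ⟨i, k⟩] := by
        rw [FreeGroup.mul_mk, List.take_add_one]
        congr 2
        rw [List.getElem?_eq_getElem k.2]
        rfl
      show FreeGroup.mk ((W i).take (k.1 + 1)) *
        Quotient.out ((FreeGroup.mk ((W i).take (k.1 + 1)))⁻¹ • v i) =
        FreeGroup.mk ((W i).take k.1) * Quotient.out ((FreeGroup.mk ((W i).take k.1))⁻¹ • v i) *
        ((Quotient.out ((FreeGroup.mk ((W i).take k.1))⁻¹ • v i))⁻¹ *
          FreeGroup.mk [Slet W ⟨i, k⟩] * Quotient.out ((FreeGroup.mk [Slet W ⟨i, k⟩])⁻¹ •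
            (FreeGroup.mk ((W i).take k.1))⁻¹ • v i))
      rw [h2, mul_inv_rev, mul_smul]
      group
  refine ⟨fun i => c ⟨i, ⟨0, hW i⟩⟩ * ⟨_, hs i⟩, ?_⟩
  rw [List.map_ofFn] at hc
  rw [← hc]
  congr 2
  funext i
  simp only [Function.comp_apply, hcp]
  group

end Pool.Agent.H57.Stall
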