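import Mathlib
import Pool.Agent.H57.Stall.SchDefs

set_option autoImplicit false

namespace Pool.Agent.H57.Stall

/-- If the classes of the words in `H_1(F; ℚ)` satisfy only the relation that their sum is zero,
then the same is true for the chains.

Proof.  `a` is constant on every word (`a (Sφ W h) = a h`): `a ⟨i, j⟩ = c i`.  For a homomorphism
`χ : FreeGroup X →* Multiplicative ℚ` apply the hypothesis to `g q = χ (mk [letter of q])`:
`∑ i, c i * χ (mk (W i)) = 0`.  (If some word is empty choose `c i` equal to the value of `a` at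
some dart; such `i` do not matter: `mk [] = 1`.) -/
theorem sch_ind {X : Type} {m : ℕ} (W : Fin m → List (X × Bool)) {Ω : Type}
    [MulAction (FreeGroup X) Ω] (v : Fin m → Ω) (hW : ∀ i, 0 < (W i).length)
    (hind : ∀ c : Fin m → ℚ,
      (∀ χ : FreeGroup X →* Multiplicative ℚ,
        ∑ i, c i * (χ (FreeGroup.mk (W i))).toAdd = 0) → ∀ i j, c i = c j)
    (a : SH W → ℚ) (h1 : ∀ h, a (Sφ W h) = a h)
    (h2 : ∀ g : SQ W v → ℚ, (∀ q, g (Sbq W v q) = - g q) → ∑ h, g (Sγ W v h) * a h = 0)
    (h h' : SH W) : a h = a h' := by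
  have hpow : ∀ (k : ℕ) (x : SH W), a (((Sφ W) ^ k) x) = a x := by
    intro k
    induction k with
    | zero => intro x; rfl
    | succ k ih =>
      intro x
      rw [pow_succ', Equiv.Perm.mul_apply, h1, ih]
  have hc : ∀ (i : Fin m) (j : Fin (W i).length), a ⟨i, j⟩ = a ⟨i, ⟨0, hW i⟩⟩ := by
    intro i j
    rw [← hpow j.1 ⟨i, ⟨0, hW i⟩⟩, Sφ_pow]
    congr 2
    apply Fin.ext
    rw [rot_pow_val]
    simp only [zero_add]
    exact (Nat.mod_eq_of_lt j.2).symm
  have hsum : ∀ (χ : FreeGroup X →* Multiplicative ℚ) (L : List (X × Bool)),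
      (χ (FreeGroup.mk L)).toAdd = ∑ k : Fin L.length, (χ (FreeGroup.mk [L.get k])).toAdd := by
    intro χ L
    induction L with
    | nil =>
      rw [← FreeGroup.one_eq_mk, map_one]
      simp
    | cons e L ih =>
      have h3 : FreeGroup.mk (e :: L) = FreeGroup.mk [e] * FreeGroup.mk L := by
        rw [FreeGroup.mul_mk]
        rfl
      rw [h3, map_mul, toAdd_mul, ih]
      exact (Fin.sum_univ_succ (n := L.length)
        (fun k : Fin (L.length + 1) => (χ (FreeGroup.mk [(e :: L).get k])).toAdd)).symm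
  have h3 := hind (fun i => a ⟨i, ⟨0, hW i⟩⟩) (by
    intro χ
    have h4 := h2 (fun q => (χ (FreeGroup.mk [Sε W v q])).toAdd) (by
      intro q
      have h5 : Sε W v (Sbq W v q) = linv (Sε W v q) := rfl
      have h6 : ∀ e : X × Bool, (FreeGroup.mk [linv e] : FreeGroup X) = (FreeGroup.mk [e])⁻¹ := by
        intro e
        rw [FreeGroup.inv_mk]
        rfl
      simp only [h5, h6, map_inv, toAdd_inv])
    rw [Fintype.sum_sigma] at h4
    rw [← h4]
    apply Finset.sum_congr rfl
    intro i _
    rw [hsum χ (W i), Finset.mul_sum]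
    apply Finset.sum_congr rfl
    intro j _
    rw [hc i j, mul_comm]
    rfl)
  obtain ⟨i, j⟩ := h
  obtain ⟨i', j'⟩ := h'
  rw [hc i j, hc i' j']
  exact h3 i i'

end Pool.Agent.H57.Stall
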