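import Mathlib
import Pool.Agent.H28.Dep
import Pool.Agent.H28.Chain
import Pool.Agent.H57.Stall.SchDefs

set_option autoImplicit false

namespace Pool.Agent.H57.Stall

open Pool.Agent.H28

private theorem mkfalse {X : Type} (x : X) :
    (FreeGroup.mk [(x, false)])⁻¹ = FreeGroup.of x := by
  rw [FreeGroup.inv_mk]
  rfl

private theorem sch_dvd_false {X : Type} {p : ℕ} (S : Subgroup (FreeGroup X)) (hS : ExtP p S)
    {m : ℕ} (W : Fin m → List (X × Bool)) (v : Fin m → FreeGroup X ⧸ S) [Fintype (SQ W v)]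
    (z : SQ W v → ℤ) (h1 : ∀ q, z (Sbq W v q) = - z q)
    (h2 : ∀ f : FreeGroup X ⧸ S → ℤ, ∑ q : SQ W v, f q.1.1 * z q = 0)
    (h3 : ∀ g : X × Bool → ℤ, ∑ q : SQ W v, g (Sε W v q) * z q = 0) (q0 : SQ W v)
    (hq0 : q0.1.2.2 = false) :
    (p : ℤ) ∣ z q0 := by
  classical
  set b := FreeGroupBasis.ofFreeGroup X with hb
  have hst : MulAction.stabilizer (FreeGroup X) (((1 : FreeGroup X) : FreeGroup X ⧸ S)) = S :=
    MulAction.stabilizer_quotient S
  have hext : ExtP p (MulAction.stabilizer (FreeGroup X) (((1 : FreeGroup X) : FreeGroup X ⧸ S))) := by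
    rw [hst]; exact hS
  set c : ((FreeGroup X ⧸ S) × X) →₀ ZMod p :=
    ∑ q : SQ W v, if q.1.2.2 = false then
      Finsupp.single (q.1.1, q.1.2.1) ((z q : ℤ) : ZMod p) else 0 with hc
  have hinvol : ∀ q, Sbq W v (Sbq W v q) = q := fun q => Subtype.ext (sbar_sbar q.1)
  have hbd : bd (ZMod p) b c = 0 := by
    rw [hc, map_sum]
    ext ω
    rw [Finsupp.finsetSum_apply, Finsupp.zero_apply]
    -- rewrite every term
    have e1 : ∀ q : SQ W v, (bd (ZMod p) b (if q.1.2.2 = false then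
        Finsupp.single (q.1.1, q.1.2.1) ((z q : ℤ) : ZMod p) else 0)) ω =
        (if (Sbq W v q).1.2.2 = true ∧ (Sbq W v q).1.1 = ω then ((z q : ℤ) : ZMod p) else 0)
        - (if q.1.2.2 = false ∧ q.1.1 = ω then ((z q : ℤ) : ZMod p) else 0) := by
      rintro ⟨⟨w, x, s⟩, hq⟩
      cases s with
      | true => simp [Sbq, sbar, linv]
      | false =>
        have hmk : (FreeGroup.mk [(x, false)])⁻¹ = FreeGroup.of x := mkfalse x
        simp only [if_true, bd_single, Finsupp.sub_apply, Sbq, sbar, linv, Bool.not_false,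
          true_and, hmk, hb, FreeGroupBasis.ofFreeGroup_apply, Finsupp.single_apply]
    rw [Finset.sum_congr rfl fun q _ => e1 q, Finset.sum_sub_distrib]
    have e2 : ∑ q : SQ W v, (if (Sbq W v q).1.2.2 = true ∧ (Sbq W v q).1.1 = ω then
        ((z q : ℤ) : ZMod p) else 0) =
        - ∑ q : SQ W v, (if q.1.2.2 = true ∧ q.1.1 = ω then ((z q : ℤ) : ZMod p) else 0) := by
      rw [← Finset.sum_neg_distrib]
      refine Fintype.sum_equiv ⟨Sbq W v, Sbq W v, hinvol, hinvol⟩ _ _ fun q => ?_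
      simp only [Equiv.coe_fn_mk]
      rw [h1]
      push_cast
      split_ifs <;> simp
    rw [e2]
    have e3 : ∑ q : SQ W v, (if q.1.2.2 = true ∧ q.1.1 = ω then ((z q : ℤ) : ZMod p) else 0)
        + ∑ q : SQ W v, (if q.1.2.2 = false ∧ q.1.1 = ω then ((z q : ℤ) : ZMod p) else 0) = 0 := by
      rw [← Finset.sum_add_distrib]
      have e4 := congrArg (Int.cast : ℤ → ZMod p) (h2 fun ω' => if ω' = ω then 1 else 0)
      rw [Int.cast_zero, Int.cast_sum] at e4
      refine Eq.trans (Finset.sum_congr rfl fun q _ => ?_) e4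
      rcases q.1.2.2 with _ | _ <;> by_cases h : q.1.1 = ω <;> simp [h]
    linear_combination -e3
  have hp : c.mapDomain Prod.snd = 0 := by
    rw [hc]
    ext x0
    have hms : Finsupp.mapDomain Prod.snd (∑ q : SQ W v, if q.1.2.2 = false then
      Finsupp.single (q.1.1, q.1.2.1) ((z q : ℤ) : ZMod p) else 0) =
      ∑ q : SQ W v, Finsupp.mapDomain Prod.snd (if q.1.2.2 = false then
      Finsupp.single (q.1.1, q.1.2.1) ((z q : ℤ) : ZMod p) else 0) :=
      map_sum (Finsupp.mapDomain.addMonoidHom (M := ZMod p)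
        (Prod.snd : (FreeGroup X ⧸ S) × X → X)) _ _
    rw [hms, Finsupp.finsetSum_apply, Finsupp.zero_apply]
    have e4 := congrArg (Int.cast : ℤ → ZMod p) (h3 fun e => if e = (x0, false) then 1 else 0)
    rw [Int.cast_zero, Int.cast_sum] at e4
    refine Eq.trans (Finset.sum_congr rfl fun q _ => ?_) e4
    obtain ⟨⟨w, x, s⟩, hq⟩ := q
    cases s with
    | true => simp [Sε]
    | false =>
      by_cases h : x = x0
      · simp [Sε, h]
      · simp [Sε, h, Finsupp.single_apply]
  have hzero : c = 0 := cycle_zero_of_ext b _ hext c hbd hp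
  have hval : c (q0.1.1, q0.1.2.1) = ((z q0 : ℤ) : ZMod p) := by
    rw [hc, Finsupp.finsetSum_apply, Finset.sum_eq_single q0]
    · rw [if_pos hq0, Finsupp.single_eq_same]
    · intro q _ hne
      split_ifs with h
      · rw [Finsupp.single_apply, if_neg]
        intro h'
        apply hne
        rw [Prod.mk.injEq] at h'
        apply Subtype.ext
        refine Prod.ext h'.1 (Prod.ext h'.2 ?_)
        rw [h, hq0]
      · rfl
    · intro h
      exact absurd (Finset.mem_univ _) h
  rw [hzero, Finsupp.zero_apply] at hval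
  exact (ZMod.intCast_zmod_eq_zero_iff_dvd (z q0) p).mp hval.symm

/-- Integral version.  `z` is an integral 1-chain on the Schreier graph of `S`, given as an
antisymmetric function on the traversed edges, a cycle (the sum over the edges with a given
origin is zero), with image zero in the bouquet of circles; then all its values are divisible by
`p`.  (From `H28.cycle_zero_of_ext`, applied to the chain of the edges with a negative letter.) -/
theorem sch_dvd {X : Type} {p : ℕ} (hp : p.Prime) (S : Subgroup (FreeGroup X)) (hS : ExtP p S)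
    {m : ℕ} (W : Fin m → List (X × Bool)) (v : Fin m → FreeGroup X ⧸ S) [Fintype (SQ W v)]
    (z : SQ W v → ℤ) (h1 : ∀ q, z (Sbq W v q) = - z q)
    (h2 : ∀ f : FreeGroup X ⧸ S → ℤ, ∑ q : SQ W v, f q.1.1 * z q = 0)
    (h3 : ∀ g : X × Bool → ℤ, ∑ q : SQ W v, g (Sε W v q) * z q = 0) (q : SQ W v) :
    (p : ℤ) ∣ z q := by
  have _ := hp
  rcases hb : q.1.2.2 with _ | _
  · exact sch_dvd_false S hS W v z h1 h2 h3 q hb
  · have h := sch_dvd_false S hS W v z h1 h2 h3 (Sbq W v q) (by simp [Sbq, sbar, linv, hb])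
    rw [h1] at h
    exact (dvd_neg).mp h

private theorem sch_pow {X : Type} {p : ℕ} (hp : p.Prime) (S : Subgroup (FreeGroup X))
    (hS : ExtP p S)
    {m : ℕ} (W : Fin m → List (X × Bool)) (v : Fin m → FreeGroup X ⧸ S) [Fintype (SQ W v)]
    (n : ℕ) : ∀ (z : SQ W v → ℤ) (_ : ∀ q, z (Sbq W v q) = - z q)
    (_ : ∀ f : FreeGroup X ⧸ S → ℤ, ∑ q : SQ W v, f q.1.1 * z q = 0)
    (_ : ∀ g : X × Bool → ℤ, ∑ q : SQ W v, g (Sε W v q) * z q = 0) (q : SQ W v),
    (p : ℤ) ^ n ∣ z q := by
  have hp0 : (p : ℤ) ≠ 0 := by exact_mod_cast hp.ne_zero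
  induction n with
  | zero => intro z _ _ _ q; simp
  | succ n ih =>
    intro z h1 h2 h3 q
    choose y hy using fun q => sch_dvd hp S hS W v z h1 h2 h3 q
    have k1 : ∀ q, y (Sbq W v q) = - y q := by
      intro q
      have := h1 q
      rw [hy, hy q] at this
      apply mul_left_cancel₀ hp0
      rw [this]; ring
    have k2 : ∀ f : FreeGroup X ⧸ S → ℤ, ∑ q : SQ W v, f q.1.1 * y q = 0 := by
      intro f
      have := h2 f
      have e : ∑ q : SQ W v, f q.1.1 * z q = (p : ℤ) * ∑ q : SQ W v, f q.1.1 * y q := by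
        rw [Finset.mul_sum]
        refine Finset.sum_congr rfl fun q _ => ?_
        rw [hy q]; ring
      rw [e] at this
      exact (mul_eq_zero.mp this).resolve_left hp0
    have k3 : ∀ g : X × Bool → ℤ, ∑ q : SQ W v, g (Sε W v q) * y q = 0 := by
      intro g
      have := h3 g
      have e : ∑ q : SQ W v, g (Sε W v q) * z q = (p : ℤ) * ∑ q : SQ W v, g (Sε W v q) * y q := by
        rw [Finset.mul_sum]
        refine Finset.sum_congr rfl fun q _ => ?_
        rw [hy q]; ring
      rw [e] at this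
      exact (mul_eq_zero.mp this).resolve_left hp0
    obtain ⟨t, ht⟩ := ih y k1 k2 k3 q
    exact ⟨t, by rw [hy q, ht]; ring⟩

/-- The rational version: clear denominators and divide by the largest possible power of `p`. -/
theorem sch_inj {X : Type} {p : ℕ} (hp : p.Prime) (S : Subgroup (FreeGroup X)) (hS : ExtP p S)
    {m : ℕ} (W : Fin m → List (X × Bool)) (v : Fin m → FreeGroup X ⧸ S) [Fintype (SQ W v)]
    (hcl : ∀ i, FreeGroup.mk (W i) • v i = v i)
    (z : SQ W v → ℚ) (h1 : ∀ q, z (Sbq W v q) = - z q)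
    (h2 : ∀ f : SQ W v → ℚ, TInv (Sφ W) (Sbq W v) (Sγ W v) f → ∑ q, f q * z q = 0)
    (h3 : ∀ g : X × Bool → ℚ, ∑ q, g (Sε W v q) * z q = 0) (q : SQ W v) : z q = 0 := by
  classical
  -- common denominator
  set D : ℕ := ∏ q : SQ W v, (z q).den with hD
  have hD0 : D ≠ 0 := Finset.prod_ne_zero_iff.mpr fun q _ => (z q).den_nz
  have hDq : (D : ℚ) ≠ 0 := by exact_mod_cast hD0
  have hint : ∀ q, ∃ y : ℤ, (y : ℚ) = D * z q := by
    intro q
    obtain ⟨k, hk⟩ : (z q).den ∣ D := Finset.dvd_prod_of_mem _ (Finset.mem_univ q)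
    refine ⟨k * (z q).num, ?_⟩
    have : (z q) * (z q).den = (z q).num := Rat.mul_den_eq_num _
    rw [hk]
    push_cast
    rw [← this]
    ring
  choose y hy using hint
  have k1 : ∀ q, y (Sbq W v q) = - y q := by
    intro q
    have : ((y (Sbq W v q) : ℤ) : ℚ) = ((- y q : ℤ) : ℚ) := by
      rw [hy, h1]; push_cast; rw [hy]; ring
    exact_mod_cast this
  have k2 : ∀ f : FreeGroup X ⧸ S → ℤ, ∑ q : SQ W v, f q.1.1 * y q = 0 := by
    intro f
    have e := h2 (fun q => ((f q.1.1 : ℤ) : ℚ)) (fun h => by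
      show ((f (Sbq W v (Sγ W v h)).1.1 : ℤ) : ℚ) = ((f (Sγ W v (Sφ W h)).1.1 : ℤ) : ℚ)
      rw [tinv_origin W v hcl h])
    have e2 : ((∑ q : SQ W v, f q.1.1 * y q : ℤ) : ℚ) = 0 := by
      push_cast
      have : ∑ q : SQ W v, (f q.1.1 : ℚ) * (y q : ℚ) =
          D * ∑ q : SQ W v, (f q.1.1 : ℚ) * z q := by
        rw [Finset.mul_sum]
        refine Finset.sum_congr rfl fun q _ => ?_
        rw [hy q]; ring
      rw [this, e, mul_zero]
    exact_mod_cast e2
  have k3 : ∀ g : X × Bool → ℤ, ∑ q : SQ W v, g (Sε W v q) * y q = 0 := by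
    intro g
    have e := h3 (fun e => ((g e : ℤ) : ℚ))
    have e2 : ((∑ q : SQ W v, g (Sε W v q) * y q : ℤ) : ℚ) = 0 := by
      push_cast
      have : ∑ q : SQ W v, (g (Sε W v q) : ℚ) * (y q : ℚ) =
          D * ∑ q : SQ W v, (g (Sε W v q) : ℚ) * z q := by
        rw [Finset.mul_sum]
        refine Finset.sum_congr rfl fun q _ => ?_
        rw [hy q]; ring
      rw [this, e, mul_zero]
    exact_mod_cast e2
  have hy0 : y q = 0 := by
    by_contra hne
    have hd := sch_pow hp S hS W v (y q).natAbs y k1 k2 k3 q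
    have h5 : (p : ℤ) ^ (y q).natAbs ∣ ((y q).natAbs : ℤ) := (Int.dvd_natAbs).mpr hd
    have h6 : p ^ (y q).natAbs ∣ (y q).natAbs := by exact_mod_cast h5
    have h7 := Nat.le_of_dvd (Int.natAbs_pos.mpr hne) h6
    have h8 : (y q).natAbs < p ^ (y q).natAbs := Nat.lt_pow_self hp.one_lt
    omega
  have := hy q
  rw [hy0, Int.cast_zero] at this
  exact (mul_eq_zero.mp this.symm).resolve_left hDq

end Pool.Agent.H57.Stall
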