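import Mathlib
import Pool.Agent.H57.Stall.SchDefs
import Pool.Agent.H57.Stall.Basic

set_option autoImplicit false

namespace Pool.Agent.H57.Stall

namespace SchWf

/-- Not inverse letters. -/
def nc {X : Type} (a b : X × Bool) : Prop := b ≠ linv a

theorem isReduced_of_nc {X : Type} {L : List (X × Bool)} (h : L.IsChain nc) :
    FreeGroup.IsReduced L := by
  refine List.IsChain.imp ?_ h
  intro a b hab h1
  by_contra h2
  apply hab
  refine Prod.ext h1.symm ?_
  show b.2 = !a.2
  cases ha : a.2 <;> cases hb : b.2 <;> simp_all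

variable {X : Type} {m : ℕ} {W : Fin m → List (X × Bool)} {Ω : Type}
  [MulAction (FreeGroup X) Ω] {v : Fin m → Ω}

/-- The word read along a chain of steps from `b` to `a`. -/
def Q (a b : SQ W v × SQ W v) : Prop :=
  (Sε W v b.1 = Sε W v b.2 ∧ b.1 ≠ b.2) ∧
    ∃ u t : List (X × Bool), u = Sε W v b.1 :: t ∧ (u ++ [Sε W v a.1]).IsChain nc ∧
      a.1.1.1 = (FreeGroup.mk u)⁻¹ • b.1.1.1 ∧ a.2.1.1 = (FreeGroup.mk u)⁻¹ • b.2.1.1

theorem origin_of_vrel (hcl : ∀ i, FreeGroup.mk (W i) • v i = v i) {p q : SQ W v}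
    (h : Vrel (Sφ W) (Sbq W v) (Sγ W v) (Sbq W v p) q) :
    q.1.1 = (FreeGroup.mk [Sε W v p])⁻¹ • p.1.1 := by
  have := h.eq_of_tinv (f := fun q : SQ W v => q.1.1) fun h' => tinv_origin W v hcl h'
  exact this.symm

theorem nc_of_vrel (hcl : ∀ i, FreeGroup.mk (W i) • v i = v i) {p q : SQ W v}
    (h : Vrel (Sφ W) (Sbq W v) (Sγ W v) (Sbq W v p) q) (hne : q ≠ Sbq W v p) :
    nc (Sε W v p) (Sε W v q) := by
  intro he
  apply hne
  apply Subtype.ext
  exact Prod.ext (origin_of_vrel hcl h) he

theorem Q_single (hcl : ∀ i, FreeGroup.mk (W i) • v i = v i) {a b : SQ W v × SQ W v}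
    (h : Step (Sφ W) (Sbq W v) (Sγ W v) (Sε W v) b a) : Q a b := by
  obtain ⟨h1, h2, h3, h4, h5, h6, h7⟩ := h
  refine ⟨⟨h1, h2⟩, [Sε W v b.1], [], rfl, ?_, origin_of_vrel hcl h5, ?_⟩
  · simp only [List.cons_append, List.nil_append, List.isChain_cons_cons, List.isChain_singleton,
      and_true]
    exact nc_of_vrel hcl h5 h7
  · rw [h1]
    exact origin_of_vrel hcl h6

theorem Q_of_transGen (hcl : ∀ i, FreeGroup.mk (W i) • v i = v i) {a b : SQ W v × SQ W v}
    (h : Relation.TransGen (fun y x => Step (Sφ W) (Sbq W v) (Sγ W v) (Sε W v) x y) a b) :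
    Q a b := by
  induction h with
  | single h => exact Q_single hcl h
  | @tail b c _ hbc ih =>
    obtain ⟨_, u, t, hu, hch, ho1, ho2⟩ := ih
    obtain ⟨h1, h2, h3, h4, h5, h6, h7⟩ := id hbc
    refine ⟨⟨h1, h2⟩, Sε W v c.1 :: u, u, rfl, ?_, ?_, ?_⟩
    · subst hu
      simp only [List.cons_append] at hch ⊢
      rw [List.isChain_cons_cons]
      exact ⟨nc_of_vrel hcl h5 h7, hch⟩
    · rw [ho1, origin_of_vrel hcl h5, ← mul_smul, ← mul_inv_rev, FreeGroup.mul_mk]
      rfl
    · rw [ho2, origin_of_vrel hcl h6, ← h1, ← mul_smul, ← mul_inv_rev, FreeGroup.mul_mk]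
      rfl

end SchWf

open SchWf in
/-- Malnormality gives well-foundedness.

Proof.  `SQ` is finite, so it is enough that `Relation.TransGen` of the relation is irreflexive
(`Finite.wellFounded_of_trans_of_irrefl`, `Subrelation.wf`).  A chain of steps from `x` to `y`
gives a word `u = e_0 e_1 ... e_(k-1)`, `k > 0`, with `e_0` the letter of `x.1` (and `x.2`), such
that `u` followed by the letter of `y.1` is reduced (`y'.1 ≠ bq x'.1` for consecutive pairs: they
have the same origin by `Vrel.eq_of_tinv` and `tinv_origin`, so their letters are not inverse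
to each other), the origin of `y.1` is `(mk u)⁻¹ •` the origin of `x.1`, and the same for the second
components.  If `x = y` then `mk u` fixes the origins of `x.1` and `x.2`, which are different
because the edges are different and have the same letter; so `mk u = 1` by `hmal`, but `u` is
reduced and not empty. -/
theorem sch_wf {X : Type} {m : ℕ} (W : Fin m → List (X × Bool)) {Ω : Type}
    [MulAction (FreeGroup X) Ω] (v : Fin m → Ω) (hcl : ∀ i, FreeGroup.mk (W i) • v i = v i)
    (hmal : ∀ (w : FreeGroup X) (x y : Ω), w • x = x → w • y = y → x ≠ y → w = 1) :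
    WellFounded fun y x => Step (Sφ W) (Sbq W v) (Sγ W v) (Sε W v) x y := by
  classical
  have hirr : Std.Irrefl (Relation.TransGen
      (fun y x => Step (Sφ W) (Sbq W v) (Sγ W v) (Sε W v) x y)) := by
    refine ⟨fun x hx => ?_⟩
    obtain ⟨⟨h1, h2⟩, u, t, hu, hch, ho1, ho2⟩ := Q_of_transGen hcl hx
    have e1 : FreeGroup.mk u • x.1.1.1 = x.1.1.1 := by
      conv_lhs => rw [ho1]
      rw [smul_inv_smul]
    have e2 : FreeGroup.mk u • x.2.1.1 = x.2.1.1 := by
      conv_lhs => rw [ho2]
      rw [smul_inv_smul]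
    have e3 : x.1.1.1 ≠ x.2.1.1 := by
      intro h3
      apply h2
      apply Subtype.ext
      exact Prod.ext h3 h1
    have e4 := hmal _ _ _ e1 e2 e3
    have e5 : FreeGroup.IsReduced u := by
      have := isReduced_of_nc hch
      exact (List.isChain_append.1 this).1
    have e6 : (FreeGroup.mk u).toWord = u := by
      rw [FreeGroup.toWord_mk, e5.reduce_eq]
    rw [e4, FreeGroup.toWord_one] at e6
    rw [← e6] at hu
    exact absurd hu (by simp)
  have hwf : WellFounded (Relation.TransGen
      (fun y x => Step (Sφ W) (Sbq W v) (Sγ W v) (Sε W v) x y)) :=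
    Finite.wellFounded_of_trans_of_irrefl _
  refine ⟨fun x => ?_⟩
  refine Subrelation.accessible ?_ (hwf.apply x)
  intro a b h
  exact Relation.TransGen.single h

end Pool.Agent.H57.Stall
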