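import Mathlib
import Pool.Agent.H57.Stall.Main
import Pool.Agent.H57.Stall.SchInj
import Pool.Agent.H57.Stall.SchWf
import Pool.Agent.H57.Stall.SchInd
import Pool.Agent.H57.Stall.SchDep

set_option autoImplicit false

namespace Pool.Agent.H57.Stall

open Pool.Agent.H28

/-- The elements `g i` are linearly independent in `H_1(G; ℚ)`. -/
def Indep {G : Type*} [Group G] {n : ℕ} (g : Fin n → G) : Prop :=
  ∀ c : Fin n → ℚ, (∀ χ : G →* Multiplicative ℚ, ∑ i, c i * (χ (g i)).toAdd = 0) → ∀ i, c i = 0

theorem linv_linv {X : Type} (e : X × Bool) : linv (linv e) = e := by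
  rcases e with ⟨x, b⟩
  simp [linv]

theorem linv_ne {X : Type} (e : X × Bool) : linv e ≠ e := by
  rcases e with ⟨x, b⟩
  cases b <;> simp [linv]

/-- Adm for the Schreier graph, and the application of the main theorem. -/
theorem sch_main {X : Type} {p : ℕ} (hp : p.Prime) (S : Subgroup (FreeGroup X)) (hS : ExtP p S)
    (hmal : ∀ f, f ∉ S → ∀ s, s ∈ S → f * s * f⁻¹ ∈ S → s = 1)
    {m : ℕ} (W : Fin m → List (X × Bool)) (hW : ∀ i, 0 < (W i).length)
    (hred : ∀ h, Slet W (Sφ W h) ≠ linv (Slet W h)) (u : Fin m → FreeGroup X)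
    (hu : ∀ i, u i * FreeGroup.mk (W i) * (u i)⁻¹ ∈ S)
    (hind : ∀ c : Fin m → ℚ,
      (∀ χ : FreeGroup X →* Multiplicative ℚ,
        ∑ i, c i * (χ (FreeGroup.mk (W i))).toAdd = 0) → ∀ i j, c i = c j)
    (hdep : ∃ c : Fin m → FreeGroup X,
      (List.ofFn fun i => c i * FreeGroup.mk (W i) * (c i)⁻¹).prod = 1) :
    DepAll (Sφ W) (Sbq W fun i => (((u i)⁻¹ : FreeGroup X) : FreeGroup X ⧸ S))
      (Sγ W fun i => (((u i)⁻¹ : FreeGroup X) : FreeGroup X ⧸ S)) := by
  classical
  set v : Fin m → FreeGroup X ⧸ S := fun i => (((u i)⁻¹ : FreeGroup X) : FreeGroup X ⧸ S) with hv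
  have hcl : ∀ i, FreeGroup.mk (W i) • v i = v i := by
    intro i
    show ((FreeGroup.mk (W i) * (u i)⁻¹ : FreeGroup X) : FreeGroup X ⧸ S) =
      (((u i)⁻¹ : FreeGroup X) : FreeGroup X ⧸ S)
    rw [eq_comm, QuotientGroup.eq, inv_inv, ← mul_assoc]
    exact hu i
  have hmal' : ∀ (w : FreeGroup X) (x y : FreeGroup X ⧸ S), w • x = x → w • y = y → x ≠ y →
      w = 1 := by
    intro w x y
    induction x using QuotientGroup.induction_on with
    | H a =>
      induction y using QuotientGroup.induction_on with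
      | H b =>
        intro h1 h2 h3
        have h1' : a⁻¹ * w * a ∈ S := by
          have : ((w * a : FreeGroup X) : FreeGroup X ⧸ S) =
              ((a : FreeGroup X) : FreeGroup X ⧸ S) := h1
          rw [eq_comm, QuotientGroup.eq, ← mul_assoc] at this
          exact this
        have h2' : b⁻¹ * w * b ∈ S := by
          have : ((w * b : FreeGroup X) : FreeGroup X ⧸ S) =
              ((b : FreeGroup X) : FreeGroup X ⧸ S) := h2
          rw [eq_comm, QuotientGroup.eq, ← mul_assoc] at this
          exact this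
        have h3' : b⁻¹ * a ∉ S := by
          intro h
          apply h3
          rw [eq_comm, QuotientGroup.eq]
          exact h
        have h4 := hmal (b⁻¹ * a) h3' (a⁻¹ * w * a) h1' (by
          have : b⁻¹ * a * (a⁻¹ * w * a) * (b⁻¹ * a)⁻¹ = b⁻¹ * w * b := by group
          rw [this]; exact h2')
        have h5 : w = a * (a⁻¹ * w * a) * a⁻¹ := by group
        rw [h5, h4]
        group
  have : Fintype (SQ W v) := Fintype.ofFinite _
  obtain ⟨c, hc⟩ := hdep
  have hA : Adm (Sφ W) (Sbq W v) (Sγ W v) linv (Sε W v) := by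
    refine ⟨?_, linv_linv, linv_ne, ?_, ?_, ?_, ?_, ?_, ?_, ?_⟩
    · intro q
      apply Subtype.ext
      exact sbar_sbar q.1
    · intro q
      rfl
    · intro q
      obtain ⟨h, hh⟩ := q.2
      refine ⟨h, ?_⟩
      rcases hh with hh | hh
      · left
        exact Subtype.ext hh
      · right
        exact Subtype.ext hh
    · intro h h1
      have h2 : Slet W (Sφ W h) = linv (Slet W h) := congrArg (fun q : SQ W v => q.1.2) h1
      exact hred h h2
    · intro a b hab he
      apply Subtype.ext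
      refine Prod.ext ?_ he
      exact hab.eq_of_tinv (f := fun q : SQ W v => q.1.1) (tinv_origin W v hcl)
    · exact sch_inj hp S hS W v hcl
    · exact fun a h1 h2 h h' => sch_ind W v hW hind a h1 h2 h h'
    · exact sch_wf W v hcl hmal'
  exact main hA (sch_dep W hW c hc)

theorem val_finRotate {N : ℕ} (j : Fin N) :
    ((finRotate N j : Fin N) : ℕ) = if j.1 + 1 < N then j.1 + 1 else 0 := by
  cases N with
  | zero => exact j.elim0
  | succ n =>
    rw [coe_finRotate]
    by_cases h : j = Fin.last n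
    · rw [if_pos h, if_neg]
      rw [h, Fin.val_last]
      omega
    · rw [if_neg h, if_pos]
      have := Fin.val_lt_last h
      omega

/-- Cyclically reduced words satisfy the condition of `sch_main`. -/
theorem hred_of_cyc {X : Type} {m : ℕ} (W : Fin m → List (X × Bool))
    (hc : ∀ i, FreeGroup.IsCyclicallyReduced (W i)) (h : SH W) :
    Slet W (Sφ W h) ≠ linv (Slet W h) := by
  obtain ⟨i, j⟩ := h
  have h1 : Slet W (Sφ W ⟨i, j⟩) = (W i).get (finRotate (W i).length j) := rfl
  have h2 : Slet W ⟨i, j⟩ = (W i).get j := rfl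
  rw [h1, h2]
  intro h3
  have hlt := j.2
  have key : ((W i).get j).1 = ((W i).get (finRotate (W i).length j)).1 →
      ((W i).get j).2 = ((W i).get (finRotate (W i).length j)).2 := by
    have hv := val_finRotate j
    by_cases hj : j.1 + 1 < (W i).length
    · rw [if_pos hj] at hv
      have hcc := (List.isChain_iff_getElem.1 (hc i).1) j.1 hj
      have e1 : (W i).get j = (W i)[j.1]'hlt := rfl
      have e2 : (W i).get (finRotate (W i).length j) = (W i)[j.1 + 1]'hj := by
        rw [List.get_eq_getElem]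
        simp only [hv]
      rw [e1, e2]
      exact hcc
    · rw [if_neg hj] at hv
      have hj' : j.1 = (W i).length - 1 := by omega
      refine (hc i).2 _ ?_ _ ?_
      · rw [Option.mem_def, List.getLast?_eq_getElem?, List.get_eq_getElem, ← hj',
          List.getElem?_eq_getElem]
      · rw [Option.mem_def, List.head?_eq_getElem?, List.get_eq_getElem]
        simp only [hv]
        rw [List.getElem?_eq_getElem]
  rw [h3] at key
  have h4 := key rfl
  simp only [linv] at h4
  cases hb : ((W i).get j).2 <;> rw [hb] at h4 <;> simp at h4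

theorem exists_cyc {X : Type} (x : FreeGroup X) :
    ∃ (w : List (X × Bool)) (u : FreeGroup X), u * FreeGroup.mk w * u⁻¹ = x ∧
      FreeGroup.IsCyclicallyReduced w := by
  classical
  refine ⟨FreeGroup.reduceCyclically x.toWord,
    FreeGroup.mk (FreeGroup.reduceCyclically.conjugator x.toWord), ?_,
    FreeGroup.reduceCyclically.isCyclicallyReduced FreeGroup.isReduced_toWord⟩
  rw [FreeGroup.inv_mk, FreeGroup.mul_mk, FreeGroup.mul_mk,
    FreeGroup.reduceCyclically.conj_conjugator_reduceCyclically, FreeGroup.mk_toWord]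

theorem conj_toAdd {G : Type*} [Group G] (χ : G →* Multiplicative ℚ) (u w x : G)
    (h : u * w * u⁻¹ = x) : χ w = χ x := by
  rw [← h, map_mul, map_mul, map_inv, mul_comm (χ u), mul_assoc, mul_inv_cancel, mul_one]

/-- The theorem for malnormal subgroups. -/
theorem indep_of_malnormal {X : Type} {p : ℕ} (hp : p.Prime) (S : Subgroup (FreeGroup X))
    (hS : ExtP p S) (hmal : ∀ f, f ∉ S → ∀ s, s ∈ S → f * s * f⁻¹ ∈ S → s = 1) {n : ℕ} (a : S)
    (g : Fin n → S) (hind : Indep fun i => (g i : FreeGroup X))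
    (hdep : Dependent (a : FreeGroup X) (fun i => (g i : FreeGroup X))) : Dependent a g := by
  classical
  obtain ⟨c, hc⟩ := hdep
  -- the class of `a` is the sum of the classes of the `g i`
  have hχ : ∀ χ : FreeGroup X →* Multiplicative ℚ,
      (χ (a : FreeGroup X)).toAdd = ∑ i, (χ (g i : FreeGroup X)).toAdd := by
    intro χ
    rw [hc, map_list_prod, List.map_ofFn, List.prod_ofFn, toAdd_prod]
    refine Finset.sum_congr rfl fun i _ => ?_
    congr 1
    show χ (c i * (g i : FreeGroup X) * (c i)⁻¹) = _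
    exact (conj_toAdd χ (c i) (g i : FreeGroup X) _ rfl).symm
  rcases Nat.eq_zero_or_pos n with hn | hn
  · subst hn
    refine ⟨fun i => i.elim0, ?_⟩
    apply Subtype.ext
    rw [hc]
    simp
  -- the words
  let y : Fin (n + 1) → S := Fin.cons a⁻¹ g
  choose W u hWu hcyc using fun i : Fin (n + 1) => exists_cyc (y i : FreeGroup X)
  have hmk : ∀ (χ : FreeGroup X →* Multiplicative ℚ) (i : Fin (n + 1)),
      χ (FreeGroup.mk (W i)) = χ (y i : FreeGroup X) := fun χ i =>
    conj_toAdd χ (u i) _ _ (hWu i)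
  have hind' : ∀ c' : Fin (n + 1) → ℚ,
      (∀ χ : FreeGroup X →* Multiplicative ℚ,
        ∑ i, c' i * (χ (FreeGroup.mk (W i))).toAdd = 0) → ∀ i j, c' i = c' j := by
    intro c' hc'
    have h1 : ∀ i, c' (Fin.succ i) - c' 0 = 0 := by
      apply hind
      intro χ
      have h2 := hc' χ
      rw [Fin.sum_univ_succ] at h2
      simp only [hmk] at h2
      have h3 : (χ (y 0 : FreeGroup X)).toAdd = - ∑ i, (χ (g i : FreeGroup X)).toAdd := by
        rw [← hχ χ]
        show (χ ((a⁻¹ : S) : FreeGroup X)).toAdd = _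
        rw [Subgroup.coe_inv, map_inv, toAdd_inv]
      have h4 : ∀ i, (y (Fin.succ i) : FreeGroup X) = g i := fun i => rfl
      simp only [h4] at h2
      rw [h3] at h2
      rw [← h2, mul_neg, Finset.mul_sum]
      simp only [sub_mul, Finset.sum_sub_distrib]
      ring
    have h5 : ∀ i, c' i = c' 0 := by
      intro i
      refine Fin.cases rfl (fun i => ?_) i
      exact sub_eq_zero.1 (h1 i)
    intro i j
    rw [h5 i, h5 j]
  have hne : ∀ i, y i ≠ 1 := by
    intro i
    refine Fin.cases ?_ (fun i => ?_) i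
    · intro h
      have ha : a = 1 := inv_eq_one.1 h
      have := hind (fun _ => 1) (by
        intro χ
        simp only [one_mul]
        rw [← hχ χ, ha]
        simp) ⟨0, hn⟩
      exact one_ne_zero this
    · intro h
      have h' : g i = 1 := h
      have := hind (fun j => if j = i then 1 else 0) (by
        intro χ
        simp [h']) i
      simp at this
  have hpos : ∀ i, 0 < (W i).length := by
    intro i
    rw [List.length_pos_iff]
    intro h
    apply hne i
    apply Subtype.ext
    rw [← hWu i, h, ← FreeGroup.one_eq_mk]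
    simp
  have hu : ∀ i, u i * FreeGroup.mk (W i) * (u i)⁻¹ ∈ S := by
    intro i
    rw [hWu i]
    exact (y i).2
  have hdep' : ∃ c' : Fin (n + 1) → FreeGroup X,
      (List.ofFn fun i => c' i * FreeGroup.mk (W i) * (c' i)⁻¹).prod = 1 := by
    refine ⟨Fin.cons (u 0) fun i => c i * u (Fin.succ i), ?_⟩
    rw [List.ofFn_succ, List.prod_cons, Fin.cons_zero, hWu 0]
    have h1 : (List.ofFn fun i : Fin n =>
        (Fin.cons (u 0) (fun i => c i * u (Fin.succ i)) : Fin (n + 1) → FreeGroup X) (Fin.succ i) *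
          FreeGroup.mk (W (Fin.succ i)) *
          ((Fin.cons (u 0) (fun i => c i * u (Fin.succ i)) : Fin (n + 1) → FreeGroup X)
            (Fin.succ i))⁻¹) =
        List.ofFn fun i => c i * (g i : FreeGroup X) * (c i)⁻¹ := by
      congr 1
      funext i
      rw [Fin.cons_succ]
      have h2 : (g i : FreeGroup X) = u (Fin.succ i) * FreeGroup.mk (W (Fin.succ i)) *
          (u (Fin.succ i))⁻¹ := (hWu (Fin.succ i)).symm
      rw [h2]
      group
    rw [h1, ← hc]
    show ((a⁻¹ : S) : FreeGroup X) * (a : FreeGroup X) = 1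
    rw [Subgroup.coe_inv, inv_mul_cancel]
  have hD := sch_main hp S hS hmal W hpos (hred_of_cyc W hcyc) u hu hind' hdep'
  obtain ⟨d, hd⟩ := sch_back W hpos S u y (fun i => (hWu i).symm) hD
  rw [List.ofFn_succ, List.prod_cons] at hd
  refine ⟨fun i => (d 0)⁻¹ * d (Fin.succ i), ?_⟩
  have h1 : (List.ofFn fun i : Fin n => d (Fin.succ i) * y (Fin.succ i) * (d (Fin.succ i))⁻¹).prod =
      d 0 * a * (d 0)⁻¹ := by
    have h2 : y 0 = a⁻¹ := rfl
    rw [h2] at hd
    rw [← mul_right_inj (d 0 * a⁻¹ * (d 0)⁻¹), hd]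
    group
  have h3 := conj_prod (d 0)⁻¹ fun i : Fin n => d (Fin.succ i) * y (Fin.succ i) * (d (Fin.succ i))⁻¹
  rw [h1] at h3
  have h4 : (d 0)⁻¹ * (d 0 * a * (d 0)⁻¹) * (d 0)⁻¹⁻¹ = a := by group
  rw [h4] at h3
  rw [h3]
  congr 2
  funext i
  show (d 0)⁻¹ * (d (Fin.succ i) * g i * (d (Fin.succ i))⁻¹) * (d 0)⁻¹⁻¹ = _
  group

end Pool.Agent.H57.Stall
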