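import Mathlib
import Pool.Agent.H28.Cocycle

set_option autoImplicit false

namespace Pool.Agent.H57.Stall

open Pool.Agent.H28

section crossaux

/-- Translation by the values of a homomorphism. -/
@[reducible] def thAct {G : Type} [Group G] {l : ℕ} (θ : G →* Multiplicative (ZMod l)) :
    MulAction G (ZMod l) where
  smul y v := v + (θ y).toAdd
  one_smul v := by
    show v + (θ 1).toAdd = v
    rw [map_one, toAdd_one, add_zero]
  mul_smul x y v := by
    show v + (θ (x * y)).toAdd = v + (θ y).toAdd + (θ x).toAdd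
    rw [map_mul, toAdd_mul]
    ring

/-- The space of cocycles. -/
def cocM (K : Type) [Field K] (W G : Type) [Group G] [MulAction G W] :
    Submodule K (W → G → K) where
  carrier := {δ | IsCoc δ}
  add_mem' := by
    intro a b ha hb v s t
    show a v (s * t) + b v (s * t) = (a v t + b v t) + (a (t • v) s + b (t • v) s)
    rw [ha v s t, hb v s t]
    ring
  zero_mem' := by
    intro v s t
    show (0 : K) = 0 + 0
    rw [add_zero]
  smul_mem' := by
    intro c a ha v s t
    show c * a v (s * t) = c * a v t + c * a (t • v) s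
    rw [ha v s t]
    ring

/-- Evaluation of cocycles on a basis. -/
def cocEv {K : Type} [Field K] {W G ι : Type} [Group G] [MulAction G W] (b : ι → G) :
    cocM K W G →ₗ[K] (W → ι → K) where
  toFun δ := fun v i => δ.1 v (b i)
  map_add' := fun _ _ => rfl
  map_smul' := fun _ _ => rfl

theorem cocEv_injective {K : Type} [Field K] {W G ι : Type} [Group G] [MulAction G W]
    (b : FreeGroupBasis ι G) : Function.Injective (cocEv (K := K) (W := W) (b : ι → G)) := by
  intro δ δ' h
  apply Subtype.ext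
  funext v g
  refine coc_ext b δ.2 δ'.2 (fun v i => ?_) v g
  exact congrFun (congrFun h v) i

theorem cocEv_surjective {K : Type} [Field K] {W G ι : Type} [Group G] [MulAction G W]
    (b : FreeGroupBasis ι G) : Function.Surjective (cocEv (K := K) (W := W) (b : ι → G)) := by
  intro f
  refine ⟨⟨coc b f, isCoc_coc b f⟩, ?_⟩
  funext v i
  exact coc_basis b f v i

theorem finite_cocM {K : Type} [Field K] {W G ι : Type} [Group G] [MulAction G W] [Finite W]
    [Finite ι] (b : FreeGroupBasis ι G) : Module.Finite K (cocM K W G) :=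
  Module.Finite.of_injective _ (cocEv_injective b)

theorem finrank_cocM {K : Type} [Field K] {W G ι : Type} [Group G] [MulAction G W] [Fintype W]
    [Fintype ι] (b : FreeGroupBasis ι G) :
    Module.finrank K (cocM K W G) = Fintype.card W * Fintype.card ι := by
  rw [(LinearEquiv.ofBijective _ ⟨cocEv_injective (K := K) (W := W) b,
    cocEv_surjective b⟩).finrank_eq]
  simp [Module.finrank_pi_fintype]

/-- The values of the homomorphisms with given values on the basis at a fixed element. -/
noncomputable def liftAt {K : Type} [Field K] {S κ : Type} [Group S] (bS : FreeGroupBasis κ S)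
    (s : S) : (κ → K) →ₗ[K] K where
  toFun f := (bS.lift (fun k => Multiplicative.ofAdd (f k)) s).toAdd
  map_add' := by
    intro f g
    have h : bS.lift (fun k => Multiplicative.ofAdd ((f + g) k)) =
        bS.lift (fun k => Multiplicative.ofAdd (f k)) *
          bS.lift (fun k => Multiplicative.ofAdd (g k)) := by
      apply bS.ext_hom
      intro i
      simp [FreeGroupBasis.lift_apply_apply]
    rw [h]
    rfl
  map_smul' := by
    intro c f
    have h : bS.lift (fun k => Multiplicative.ofAdd ((c • f) k)) =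
        (AddMonoidHom.toMultiplicative (AddMonoidHom.mulLeft c)).comp
          (bS.lift (fun k => Multiplicative.ofAdd (f k))) := by
      apply bS.ext_hom
      intro i
      simp [FreeGroupBasis.lift_apply_apply]
    rw [h]
    rfl

theorem liftAt_eq {K : Type} [Field K] {S κ : Type} [Group S] (bS : FreeGroupBasis κ S)
    (f : κ → K) (ψ : S →* Multiplicative K) (h : ∀ k, f k = (ψ (bS k)).toAdd) (x : S) :
    liftAt bS x f = (ψ x).toAdd := by
  have h1 : bS.lift (fun k => Multiplicative.ofAdd (f k)) = ψ := by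
    apply bS.ext_hom
    intro i
    simp [FreeGroupBasis.lift_apply_apply, h]
  show (bS.lift (fun k => Multiplicative.ofAdd (f k)) x).toAdd = _
  rw [h1]

/-- The kernel of a functional of the form sum. -/
theorem finrank_sum_ker {K W : Type} [Field K] [Fintype W] [Nonempty W]
    (σ : (W → K) →ₗ[K] K) (hσ : ∀ u, σ u = ∑ w, u w) :
    Module.finrank K (LinearMap.ker σ) + 1 = Fintype.card W := by
  classical
  have h1 := LinearMap.finrank_range_add_finrank_ker σ
  have h2 : LinearMap.range σ = ⊤ := by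
    rw [LinearMap.range_eq_top]
    intro c
    obtain ⟨w0⟩ : Nonempty W := inferInstance
    refine ⟨Pi.single w0 c, ?_⟩
    rw [hσ]
    simp
  rw [h2, finrank_top, Module.finrank_self, Module.finrank_fintype_fun_eq_card] at h1
  omega

end crossaux

/-- Extension of families of homomorphisms to crossed homomorphisms.

Proof.  Let `W = ZMod l` with the action `y • v = v + toAdd (θ y)` of `G` (a local `MulAction`
instance), `M` the vector space of functions `δ : W → G → ZMod q` with
`δ v (x * y) = δ v y + δ (v + θ y) x` (`H28.IsCoc`).  By `H28.coc`, `H28.coc_basis`,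
`H28.coc_ext` the map `δ ↦ (δ v (b i))` is an isomorphism from `M` to `W × ι → ZMod q`, so
`dim M = l * card ι`.  For `δ ∈ M` every `δ v` restricted to `S` is a homomorphism, and
`δ v s = δ v (r ^ l) = ∑_{i < l} δ (v + i • θ r) r = ∑_w δ w r` does not depend on `v`.
Let `I` be the space of families `(ψ_v)` of homomorphisms `S → ZMod q` with `ψ_v s = ψ_0 s`;
because of `χ`, `dim I = l * card κ - (l - 1)`.  Restriction `M → I` has a kernel of dimension at
most `l - 1`: a cocycle vanishing on `S` is determined by the function `v ↦ δ v r` (because `S`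
and `r` generate `G`), whose sum is zero.  So restriction is onto `I`. -/
theorem exists_crossed {G ι κ : Type} [Group G] [Finite ι] [Finite κ] (b : FreeGroupBasis ι G)
    (S : Subgroup G) (bS : FreeGroupBasis κ S) (hcard : Nat.card κ = Nat.card ι) {l q : ℕ}
    (hl : l.Prime) (hq : q.Prime) (θ : G →* Multiplicative (ZMod l)) (hθ : ∀ x : S, θ x = 1)
    (r : G) (hr : θ r ≠ 1) (s : S) (hs : r ^ l = s) (hgen : S ⊔ Subgroup.zpowers r = ⊤)
    (χ : S →* Multiplicative (ZMod q)) (hχ : χ s ≠ 1)
    (ψ : ZMod l → S →* Multiplicative (ZMod q)) (hψ : ∀ v, ψ v s = ψ 0 s) :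
    ∃ δ : ZMod l → G → ZMod q,
      (∀ v x y, δ v (x * y) = δ v y + δ (v + (θ y).toAdd) x) ∧
      ∀ v (x : S), δ v x = (ψ v x).toAdd := by
  classical
  have : Fact q.Prime := ⟨hq⟩
  have : Fact l.Prime := ⟨hl⟩
  have : NeZero l := ⟨hl.ne_zero⟩
  have : Fintype ι := Fintype.ofFinite ι
  have : Fintype κ := Fintype.ofFinite κ
  rw [Nat.card_eq_fintype_card, Nat.card_eq_fintype_card] at hcard
  let inst : MulAction G (ZMod l) := thAct θ
  have hact : ∀ (y : G) (v : ZMod l), y • v = v + (θ y).toAdd := fun _ _ => rfl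
  have : Module.Finite (ZMod q) (cocM (ZMod q) (ZMod l) G) := finite_cocM b
  -- cocycles restricted to `S`
  have hactS : ∀ (y : S) (v : ZMod l), (y : G) • v = v := by
    intro y v
    rw [hact, hθ, toAdd_one, add_zero]
  obtain ⟨res, hres⟩ : ∃ res : cocM (ZMod q) (ZMod l) G →ₗ[ZMod q] (ZMod l → κ → ZMod q),
      ∀ δ v k, res δ v k = δ.1 v (bS k : G) :=
    ⟨cocEv (fun k => (bS k : G)), fun _ _ _ => rfl⟩
  have hhom : ∀ (δ : cocM (ZMod q) (ZMod l) G) (v : ZMod l) (x : S),
      δ.1 v x = liftAt bS x (res δ v) := by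
    intro δ v x
    obtain ⟨η, hη⟩ : ∃ η : S →* Multiplicative (ZMod q), ∀ x, (η x).toAdd = δ.1 v x := by
      refine ⟨{ toFun := fun x => Multiplicative.ofAdd (δ.1 v x)
                map_one' := ?_
                map_mul' := ?_ }, fun _ => rfl⟩
      · show Multiplicative.ofAdd (δ.1 v ((1 : S) : G)) = 1
        rw [Subgroup.coe_one, δ.2.one]
        rfl
      · intro x y
        show Multiplicative.ofAdd (δ.1 v ((x * y : S) : G)) = _
        rw [Subgroup.coe_mul, δ.2 v x y, hactS, add_comm]
        rfl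
    rw [liftAt_eq bS (res δ v) η (fun k => by rw [hres, hη]), hη]
  -- the value at `s`
  have hpow : ∀ (δ : cocM (ZMod q) (ZMod l) G) (n : ℕ) (v : ZMod l),
      δ.1 v (r ^ n) = ∑ i ∈ Finset.range n, δ.1 (v + (i : ZMod l) * (θ r).toAdd) r := by
    intro δ n
    induction n with
    | zero =>
      intro v
      rw [pow_zero, δ.2.one, Finset.sum_range_zero]
    | succ n ih =>
      intro v
      rw [Finset.sum_range_succ, ← ih, pow_succ', δ.2 v r (r ^ n), hact]
      congr 2
      rw [map_pow, toAdd_pow, nsmul_eq_mul]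
  have hr' : (θ r).toAdd ≠ 0 := fun h => hr (by
    rw [← ofAdd_toAdd (θ r), h]; rfl)
  have hsum : ∀ (δ : cocM (ZMod q) (ZMod l) G) (v : ZMod l),
      δ.1 v (s : G) = ∑ w, δ.1 w r := by
    intro δ v
    rw [← hs, hpow]
    refine Finset.sum_bij (fun i _ => v + (i : ZMod l) * (θ r).toAdd) ?_ ?_ ?_ ?_
    · intro i _; exact Finset.mem_univ _
    · intro i hi j hj hij
      rw [Finset.mem_range] at hi hj
      have h1 : (i : ZMod l) = (j : ZMod l) := mul_right_cancel₀ hr' (add_left_cancel hij)
      have h2 := congrArg ZMod.val h1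
      rwa [ZMod.val_natCast_of_lt hi, ZMod.val_natCast_of_lt hj] at h2
    · intro w _
      refine ⟨((w - v) * (θ r).toAdd⁻¹).val, ?_, ?_⟩
      · rw [Finset.mem_range]; exact ZMod.val_lt _
      · rw [ZMod.natCast_val, ZMod.cast_id', id, mul_assoc, inv_mul_cancel₀ hr', mul_one,
          add_sub_cancel]
    · intro i _; rfl
  -- the target space
  obtain ⟨lam, hlam⟩ : ∃ lam : (κ → ZMod q) →ₗ[ZMod q] ZMod q, lam = liftAt bS s := ⟨_, rfl⟩
  have hlam0 : ∃ f, lam f ≠ 0 := by
    refine ⟨fun k => (χ (bS k)).toAdd, ?_⟩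
    rw [hlam, liftAt_eq bS _ χ (fun _ => rfl)]
    intro h
    exact hχ (by rw [← ofAdd_toAdd (χ s), h]; rfl)
  obtain ⟨C, hC⟩ : ∃ C : (ZMod l → κ → ZMod q) →ₗ[ZMod q] ({v : ZMod l // v ≠ 0} → ZMod q),
      ∀ f v, C f v = lam (f v.1) - lam (f 0) := by
    refine ⟨{ toFun := fun f v => lam (f v.1) - lam (f 0)
              map_add' := ?_
              map_smul' := ?_ }, fun _ _ => rfl⟩
    · intro f g
      funext v
      simp only [Pi.add_apply, map_add]
      ring
    · intro c f
      funext v
      simp only [Pi.smul_apply, map_smul, smul_eq_mul, RingHom.id_apply]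
      ring
  have hCsurj : Function.Surjective C := by
    intro u
    obtain ⟨f0, hf0⟩ := hlam0
    refine ⟨fun v => if hv : v ≠ 0 then (u ⟨v, hv⟩ / lam f0) • f0 else 0, ?_⟩
    funext v
    rw [hC]
    simp only [v.2, ne_eq, not_false_eq_true, dite_true, not_true_eq_false, dite_false, map_zero,
      sub_zero, map_smul, smul_eq_mul]
    rw [div_mul_cancel₀ _ hf0]
  have hCker : Module.finrank (ZMod q) (LinearMap.ker C) + (l - 1) = l * Fintype.card κ := by
    have h1 := LinearMap.finrank_range_add_finrank_ker C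
    rw [LinearMap.range_eq_top.2 hCsurj, finrank_top, Module.finrank_fintype_fun_eq_card] at h1
    have h2 : Module.finrank (ZMod q) (ZMod l → κ → ZMod q) = l * Fintype.card κ := by
      simp [Module.finrank_pi_fintype, ZMod.card]
    have h3 : Fintype.card {v : ZMod l // v ≠ 0} = l - 1 := by
      rw [Fintype.card_subtype_compl, ZMod.card, Fintype.card_subtype_eq]
    rw [h2, h3] at h1
    omega
  -- the restriction maps into the target space
  have hle : LinearMap.range res ≤ LinearMap.ker C := by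
    rintro _ ⟨δ, rfl⟩
    rw [LinearMap.mem_ker]
    funext v
    rw [hC, hlam, ← hhom, ← hhom, hsum, hsum, sub_self]
    rfl
  -- the kernel of the restriction
  obtain ⟨σ, hσ⟩ : ∃ σ : (ZMod l → ZMod q) →ₗ[ZMod q] ZMod q, ∀ u, σ u = ∑ w, u w := by
    refine ⟨∑ w, LinearMap.proj w, fun u => ?_⟩
    simp
  have hker : Module.finrank (ZMod q) (LinearMap.ker res) ≤
      Module.finrank (ZMod q) (LinearMap.ker σ) := by
    have hS0 : ∀ δ : LinearMap.ker res, ∀ v (x : S), δ.1.1 v (x : G) = 0 := by
      intro δ v x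
      rw [hhom, show res δ.1 = 0 from δ.2]
      exact map_zero _
    obtain ⟨e, he⟩ : ∃ e : LinearMap.ker res →ₗ[ZMod q] LinearMap.ker σ,
        ∀ δ v, (e δ).1 v = δ.1.1 v r := by
      refine ⟨{ toFun := fun δ => ⟨fun v => δ.1.1 v r, ?_⟩
                map_add' := ?_
                map_smul' := ?_ }, fun _ _ => rfl⟩
      · rw [LinearMap.mem_ker, hσ]
        show ∑ w, δ.1.1 w r = 0
        rw [← hsum δ.1 0]
        exact hS0 δ 0 s
      · intro δ δ'; rfl
      · intro c δ; rfl
    refine LinearMap.finrank_le_finrank_of_injective (f := e) ?_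
    rw [← LinearMap.ker_eq_bot, LinearMap.ker_eq_bot']
    intro δ hδ
    have h0 : ∀ v, δ.1.1 v r = 0 := by
      intro v
      rw [← he, hδ]
      rfl
    have hall : ∀ g : G, g ∈ S ⊔ Subgroup.zpowers r → ∀ v, δ.1.1 v g = 0 := by
      intro g hg
      rw [Subgroup.sup_eq_closure] at hg
      induction hg using Subgroup.closure_induction with
      | mem x hx =>
        rcases hx with hx | hx
        · intro v; exact hS0 δ v ⟨x, hx⟩
        · obtain ⟨n, rfl⟩ := hx
          have hnat : ∀ (n : ℕ) (v : ZMod l), δ.1.1 v (r ^ n) = 0 := by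
            intro n v
            rw [hpow]
            exact Finset.sum_eq_zero fun i _ => h0 _
          intro v
          show δ.1.1 v (r ^ n) = 0
          rcases Int.eq_nat_or_neg n with ⟨m, rfl | rfl⟩
          · rw [zpow_natCast]; exact hnat m v
          · rw [zpow_neg, zpow_natCast, δ.1.2.inv, hnat, neg_zero]
      | one => intro v; exact δ.1.2.one v
      | mul x y _ _ hx hy =>
        intro v
        rw [δ.1.2 v x y, hx, hy, add_zero]
      | inv x _ hx =>
        intro v
        rw [δ.1.2.inv, hx, neg_zero]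
    apply Subtype.ext
    apply Subtype.ext
    funext v g
    exact hall g (by rw [hgen]; trivial) v
  have hσk := finrank_sum_ker σ hσ
  rw [ZMod.card] at hσk
  have hrn := LinearMap.finrank_range_add_finrank_ker res
  rw [finrank_cocM b, ZMod.card, ← hcard] at hrn
  have heq : LinearMap.range res = LinearMap.ker C := by
    refine Submodule.eq_of_le_of_finrank_le hle ?_
    omega
  have hmem : (fun v k => (ψ v (bS k)).toAdd) ∈ LinearMap.range res := by
    rw [heq, LinearMap.mem_ker]
    funext v
    rw [hC, hlam, liftAt_eq bS _ (ψ v.1) (fun _ => rfl), liftAt_eq bS _ (ψ 0) (fun _ => rfl),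
      hψ, sub_self]
    rfl
  obtain ⟨δ, hδ⟩ := hmem
  refine ⟨δ.1, fun v x y => δ.2 v x y, fun v x => ?_⟩
  rw [hhom, hδ]
  exact liftAt_eq bS _ (ψ v) (fun _ => rfl) x

/-- The consequence for the kernel of `θ`: `Ψ y = δ 0 y`, and
`δ 0 (r ^ j * x * (r ^ j)⁻¹) = δ (- j • θ r) x`; the map `j ↦ - j • θ r` is a bijection from
`{0, ..., l - 1}` to `ZMod l`. -/
theorem exists_ext {G ι κ : Type} [Group G] [Finite ι] [Finite κ] (b : FreeGroupBasis ι G)
    (S : Subgroup G) (bS : FreeGroupBasis κ S) (hcard : Nat.card κ = Nat.card ι) {l q : ℕ}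
    (hl : l.Prime) (hq : q.Prime) (θ : G →* Multiplicative (ZMod l)) (hθ : ∀ x : S, θ x = 1)
    (r : G) (hr : θ r ≠ 1) (s : S) (hs : r ^ l = s) (hgen : S ⊔ Subgroup.zpowers r = ⊤)
    (χ : S →* Multiplicative (ZMod q)) (hχ : χ s ≠ 1)
    (ψ : ℕ → S →* Multiplicative (ZMod q)) (hψ : ∀ j, ψ j s = ψ 0 s) :
    ∃ Ψ : θ.ker →* Multiplicative (ZMod q), ∀ j < l, ∀ (x : S) (y : θ.ker),
      (y : G) = r ^ j * x * (r ^ j)⁻¹ → Ψ y = ψ j x := by
  have : Fact l.Prime := ⟨hl⟩
  have : NeZero l := ⟨hl.ne_zero⟩
  have hr' : (θ r).toAdd ≠ 0 := fun h => hr (by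
    rw [← ofAdd_toAdd (θ r), h]; rfl)
  obtain ⟨δ, hδ, hδS⟩ := exists_crossed b S bS hcard hl hq θ hθ r hr s hs hgen χ hχ
    (fun v => ψ ((-v) * (θ r).toAdd⁻¹).val) (fun v => by
      show ψ _ s = ψ _ s
      rw [hψ, hψ ((-(0 : ZMod l)) * (θ r).toAdd⁻¹).val])
  have h1 : ∀ v, δ v 1 = 0 := by
    intro v
    have h := hδ v 1 1
    rw [mul_one, map_one, toAdd_one, add_zero] at h
    exact left_eq_add.1 h
  refine ⟨{ toFun := fun y => Multiplicative.ofAdd (δ 0 (y : G))
            map_one' := ?_
            map_mul' := ?_ }, ?_⟩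
  · show Multiplicative.ofAdd (δ 0 ((1 : θ.ker) : G)) = 1
    rw [Subgroup.coe_one, h1]
    rfl
  · intro x y
    show Multiplicative.ofAdd (δ 0 ((x * y : θ.ker) : G)) = _
    have hy : θ (y : G) = 1 := y.2
    rw [Subgroup.coe_mul, hδ, hy, toAdd_one, add_zero, add_comm]
    rfl
  · intro j hj x y hy
    show Multiplicative.ofAdd (δ 0 (y : G)) = ψ j x
    have hθj : (θ (r ^ j)⁻¹).toAdd = -((j : ZMod l) * (θ r).toAdd) := by
      rw [map_inv, toAdd_inv, map_pow, toAdd_pow, nsmul_eq_mul]
    have h2 := hδ 0 (r ^ j) (r ^ j)⁻¹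
    rw [mul_inv_cancel, h1] at h2
    rw [hy, hδ, hδ, hθ, toAdd_one, add_zero, add_comm, add_assoc, add_comm (δ _ (r ^ j)), ← h2,
      add_zero, hθj, hδS, zero_add]
    have h3 : (-(-((j : ZMod l) * (θ r).toAdd)) * (θ r).toAdd⁻¹).val = j := by
      rw [neg_neg, mul_assoc, mul_inv_cancel₀ hr', mul_one, ZMod.val_natCast_of_lt hj]
    rw [h3]
    rfl

end Pool.Agent.H57.Stall
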