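import Mathlib

set_option autoImplicit false

namespace Pool.Agent.H57.Stall

section Res

variable {n : ℕ}

/-- strictly upper triangular matrices -/
def RSU {R : Type} [CommRing R] (N : Matrix (Fin (n + 1)) (Fin (n + 1)) R) : Prop :=
  ∀ i j, ¬ (i < j) → N i j = 0

theorem rsu_pow {R : Type} [CommRing R] {N : Matrix (Fin (n + 1)) (Fin (n + 1)) R}
    (h : RSU N) (k : ℕ) : ∀ i j : Fin (n + 1), ¬ ((i : ℕ) + k ≤ j) → (N ^ k) i j = 0 := by
  induction k with
  | zero =>
    intro i j hij
    rw [pow_zero, Matrix.one_apply_ne]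
    rintro rfl
    exact hij (by omega)
  | succ k ih =>
    intro i j hij
    rw [pow_succ, Matrix.mul_apply]
    apply Finset.sum_eq_zero
    intro l _
    by_cases h1 : (i : ℕ) + k ≤ l
    · rw [h l j (by rw [Fin.lt_def]; omega), mul_zero]
    · rw [ih i l h1, zero_mul]

theorem rsu_add {R : Type} [CommRing R] {N N' : Matrix (Fin (n + 1)) (Fin (n + 1)) R}
    (h : RSU N) (h' : RSU N') : RSU (N + N') := by
  intro i j hij
  rw [Matrix.add_apply, h i j hij, h' i j hij, add_zero]

theorem rsu_mul {R : Type} [CommRing R] {N N' : Matrix (Fin (n + 1)) (Fin (n + 1)) R}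
    (h : RSU N) (h' : RSU N') : RSU (N * N') := by
  intro i j hij
  rw [Matrix.mul_apply]
  apply Finset.sum_eq_zero
  intro l _
  by_cases h1 : i < l
  · rw [h' l j (by rw [Fin.lt_def] at *; omega), mul_zero]
  · rw [h i l h1, zero_mul]

theorem choose_dvd_aux {q : ℕ} (hq : q.Prime) (m n i : ℕ) (hi0 : i ≠ 0) (hin : i ≤ n) :
    q ^ m ∣ (q ^ (m + n)).choose i := by
  obtain ⟨a, b, hb, hab⟩ := Nat.exists_eq_pow_mul_and_not_dvd hi0 q hq.one_lt.ne'
  have ha : a ≤ n := by
    have h1 : a < q ^ a := Nat.lt_pow_self hq.one_lt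
    have h2 : q ^ a ≤ i := by
      rw [hab]
      exact Nat.le_mul_of_pos_right _ (Nat.pos_of_ne_zero (by rintro rfl; simp at hb))
    omega
  obtain ⟨j, rfl⟩ := Nat.exists_eq_succ_of_ne_zero hi0
  have hpos : 0 < q ^ (m + n) := pow_pos hq.pos _
  obtain ⟨N, hN⟩ := Nat.exists_eq_succ_of_ne_zero hpos.ne'
  have h3 : q ^ (m + n) * N.choose j = (q ^ (m + n)).choose j.succ * j.succ := by
    have := Nat.add_one_mul_choose_eq N j
    rw [hN]
    exact this
  have h4 : q ^ a * q ^ (m + (n - a)) ∣ q ^ a * (b * (q ^ (m + n)).choose j.succ) := by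
    rw [← pow_add, show a + (m + (n - a)) = m + n by omega, ← mul_assoc, ← hab, mul_comm j.succ,
      ← h3]
    exact Dvd.intro _ rfl
  have h5 := Nat.dvd_of_mul_dvd_mul_left (pow_pos hq.pos _) h4
  have h6 : q ^ m ∣ b * (q ^ (m + n)).choose j.succ :=
    (pow_dvd_pow q (Nat.le_add_right m (n - a))).trans h5
  exact (Nat.Coprime.pow_left m ((Nat.Prime.coprime_iff_not_dvd hq).2 hb)).dvd_of_dvd_mul_left h6

theorem rsu_order {q : ℕ} (hq : q.Prime) (m : ℕ)
    (N : Matrix (Fin (n + 1)) (Fin (n + 1)) (ZMod (q ^ m))) (h : RSU N) :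
    (N + 1) ^ (q ^ (m + n)) = 1 := by
  rw [(Commute.one_right N).add_pow]
  rw [Finset.sum_eq_single 0]
  · simp
  · intro i _ hi0
    by_cases hin : i ≤ n
    · have h1 : (((q ^ (m + n)).choose i : ℕ) : Matrix (Fin (n + 1)) (Fin (n + 1)) (ZMod (q ^ m))) =
          0 := by
        rw [CharP.cast_eq_zero_iff (Matrix (Fin (n + 1)) (Fin (n + 1)) (ZMod (q ^ m))) (q ^ m)]
        exact choose_dvd_aux hq m n i hi0 hin
      rw [h1, mul_zero]
    · have h1 : N ^ i = 0 := by
        ext k l
        exact rsu_pow h i k l (by have := l.2; omega)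
      rw [h1, zero_mul, zero_mul]
  · intro h1
    exact absurd (Finset.mem_range.2 (Nat.succ_pos _)) h1

/-- unitriangular matrices -/
def utri (n : ℕ) (R : Type) [CommRing R] : Subgroup (Matrix (Fin (n + 1)) (Fin (n + 1)) R)ˣ where
  carrier := {u | RSU (u.val - 1) ∧ RSU (u.inv - 1)}
  mul_mem' := by
    rintro u v ⟨h1, h2⟩ ⟨h3, h4⟩
    constructor
    · have : (u * v).val - 1 = (u.val - 1) * (v.val - 1) + ((u.val - 1) + (v.val - 1)) := by
        rw [Units.val_mul]; noncomm_ring
      rw [this]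
      exact rsu_add (rsu_mul h1 h3) (rsu_add h1 h3)
    · have : (u * v).inv - 1 = (v.inv - 1) * (u.inv - 1) + ((v.inv - 1) + (u.inv - 1)) := by
        show v.inv * u.inv - 1 = _
        noncomm_ring
      rw [this]
      exact rsu_add (rsu_mul h4 h2) (rsu_add h4 h2)
  one_mem' := by
    constructor
    · intro i j _; show ((1 : Matrix (Fin (n + 1)) (Fin (n + 1)) R) - 1) i j = 0; rw [sub_self]; rfl
    · intro i j _; show ((1 : Matrix (Fin (n + 1)) (Fin (n + 1)) R) - 1) i j = 0; rw [sub_self]; rfl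
  inv_mem' := by
    rintro u ⟨h1, h2⟩
    exact ⟨h2, h1⟩

theorem utri_pgroup {q : ℕ} (hq : q.Prime) (m : ℕ) : IsPGroup q (utri n (ZMod (q ^ m))) := by
  intro g
  refine ⟨m + n, ?_⟩
  apply Subtype.ext
  apply Units.ext
  have h1 := rsu_order hq m (g.1.val - 1) g.2.1
  rw [sub_add_cancel] at h1
  simpa using h1

/-- the matrix of the letter `a` for the sequence of letters `x` -/
noncomputable def letM {α : Type} (n : ℕ) (R : Type) [CommRing R] (x : ℕ → Option α) (a : α) :
    Matrix (Fin (n + 1)) (Fin (n + 1)) R :=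
  open Classical in fun i j => if (j : ℕ) = i + 1 ∧ x i = some a then 1 else 0

theorem letM_rsu {α : Type} (n : ℕ) (R : Type) [CommRing R] (x : ℕ → Option α) (a : α) :
    RSU (letM n R x a) := by
  intro i j hij
  rw [letM, if_neg]
  rintro ⟨h, -⟩
  exact hij (by rw [Fin.lt_def]; omega)

theorem letM_sq {α : Type} (n : ℕ) (R : Type) [CommRing R] (x : ℕ → Option α)
    (hx : ∀ i a, x i = some a → x (i + 1) = some a → False) (a : α) :
    letM n R x a * letM n R x a = 0 := by
  ext i j
  rw [Matrix.mul_apply]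
  apply Finset.sum_eq_zero
  intro l _
  by_cases h1 : (l : ℕ) = i + 1 ∧ x i = some a
  · have h2 : letM n R x a l j = 0 := by
      rw [letM, if_neg]
      rintro ⟨-, h⟩
      rw [h1.1] at h
      exact hx _ _ h1.2 h
    rw [h2, mul_zero]
  · have h2 : letM n R x a i l = 0 := by
      rw [letM, if_neg h1]
    rw [h2, zero_mul]

/-- the unit `1 + letM` -/
noncomputable def letU {α : Type} (n : ℕ) (R : Type) [CommRing R] (x : ℕ → Option α)
    (hx : ∀ i a, x i = some a → x (i + 1) = some a → False) (a : α) :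
    (Matrix (Fin (n + 1)) (Fin (n + 1)) R)ˣ where
  val := 1 + letM n R x a
  inv := 1 - letM n R x a
  val_inv := by
    have h := letM_sq n R x hx a
    have : (1 + letM n R x a) * (1 - letM n R x a) = 1 - letM n R x a * letM n R x a := by
      noncomm_ring
    rw [this, h, sub_zero]
  inv_val := by
    have h := letM_sq n R x hx a
    have : (1 - letM n R x a) * (1 + letM n R x a) = 1 - letM n R x a * letM n R x a := by
      noncomm_ring
    rw [this, h, sub_zero]

theorem letU_mem {α : Type} (n : ℕ) (R : Type) [CommRing R] (x : ℕ → Option α)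
    (hx : ∀ i a, x i = some a → x (i + 1) = some a → False) (a : α) :
    letU n R x hx a ∈ utri n R := by
  constructor
  · show RSU (1 + letM n R x a - 1)
    rw [add_sub_cancel_left]
    exact letM_rsu n R x a
  · show RSU (1 - letM n R x a - 1)
    intro i j hij
    have h := letM_rsu n R x a i j hij
    have : (1 - letM n R x a - 1) = - letM n R x a := by noncomm_ring
    rw [this, Matrix.neg_apply, h, neg_zero]

theorem letU_zpow {α : Type} (n : ℕ) (R : Type) [CommRing R] (x : ℕ → Option α)
    (hx : ∀ i a, x i = some a → x (i + 1) = some a → False) (a : α) (e : ℤ) :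
    ((letU n R x hx a ^ e : (Matrix (Fin (n + 1)) (Fin (n + 1)) R)ˣ) :
      Matrix (Fin (n + 1)) (Fin (n + 1)) R) = 1 + e • letM n R x a := by
  have h := letM_sq n R x hx a
  induction e using Int.induction_on with
  | zero => simp
  | succ k ih =>
    rw [zpow_add_one, Units.val_mul, ih]
    show (1 + (k : ℤ) • letM n R x a) * (1 + letM n R x a) = _
    have : (1 + (k : ℤ) • letM n R x a) * (1 + letM n R x a) =
        1 + ((k : ℤ) + 1) • letM n R x a + (k : ℤ) • (letM n R x a * letM n R x a) := by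
      rw [add_mul, mul_add, mul_add, one_mul, one_mul, mul_one, smul_mul_assoc, add_smul, one_smul]
      abel
    rw [this, h, smul_zero, add_zero]
  | pred k ih =>
    rw [zpow_sub_one, Units.val_mul, ih]
    show (1 + (-(k : ℤ)) • letM n R x a) * (1 - letM n R x a) = _
    have : (1 + (-(k : ℤ)) • letM n R x a) * (1 - letM n R x a) =
        1 + (-(k : ℤ) - 1) • letM n R x a - (-(k : ℤ)) • (letM n R x a * letM n R x a) := by
      rw [add_mul, mul_sub, mul_sub, one_mul, one_mul, mul_one, smul_mul_assoc, sub_smul, one_smul]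
      abel
    rw [this, h, smul_zero, sub_zero]

/-- the matrix entry of a product of syllables -/
theorem band_prod {α : Type} (R : Type) [CommRing R] (S : List (α × ℤ)) (n : ℕ)
    (hn : n = S.length) (k : ℕ) : ∀ i : ℕ, i + k = n →
      ∀ (i' : Fin (n + 1)), (i' : ℕ) ≤ i →
      (((S.drop i).map fun s : α × ℤ =>
        ((1 + s.2 • letM n R (fun j => (S[j]?).map Prod.fst) s.1 :
          Matrix (Fin (n + 1)) (Fin (n + 1)) R))).prod)
        i' (Fin.last n) = if (i' : ℕ) = i then
          (((((S.drop i).map fun s : α × ℤ => s.2).prod : ℤ)) : R) else 0 := by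
  induction k with
  | zero =>
    intro i hi i' hi'
    have h1 : S.drop i = [] := List.drop_eq_nil_of_le (by omega)
    rw [h1, List.map_nil, List.map_nil, List.prod_nil, List.prod_nil, Matrix.one_apply]
    by_cases h : (i' : ℕ) = i
    · rw [if_pos h, if_pos]
      · simp
      · apply Fin.ext; simp; omega
    · rw [if_neg h, if_neg]
      intro h2
      apply h
      rw [h2]
      simp
      omega
  | succ k ih =>
    intro i hi i' hi'
    have hiS : i < S.length := by omega
    rw [List.drop_eq_getElem_cons hiS, List.map_cons, List.map_cons, List.prod_cons,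
      List.prod_cons, Matrix.mul_apply]
    have ih' := ih (i + 1) (by omega)
    set Q := ((S.drop (i + 1)).map fun s : α × ℤ =>
        ((1 + s.2 • letM n R (fun j => (S[j]?).map Prod.fst) s.1 :
          Matrix (Fin (n + 1)) (Fin (n + 1)) R))).prod with hQ
    have h2 : ∀ l : Fin (n + 1), (1 + S[i].2 • letM n R (fun j => (S[j]?).map Prod.fst) S[i].1) i' l *
        Q l (Fin.last n) = (1 : Matrix (Fin (n + 1)) (Fin (n + 1)) R) i' l * Q l (Fin.last n) +
          (S[i].2 : R) * (letM n R (fun j => (S[j]?).map Prod.fst) S[i].1 i' l *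
            Q l (Fin.last n)) := by
      intro l
      rw [Matrix.add_apply, Matrix.smul_apply, zsmul_eq_mul]
      ring
    rw [Finset.sum_congr rfl fun l _ => h2 l, Finset.sum_add_distrib, ← Finset.mul_sum]
    have h3 : ∑ l, (1 : Matrix (Fin (n + 1)) (Fin (n + 1)) R) i' l * Q l (Fin.last n) = 0 := by
      rw [← Matrix.mul_apply, one_mul, ih' i' (by omega), if_neg (by omega)]
    have hi'n : (i' : ℕ) + 1 < n + 1 := by omega
    have h4 : ∑ l, letM n R (fun j => (S[j]?).map Prod.fst) S[i].1 i' l * Q l (Fin.last n) =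
        letM n R (fun j => (S[j]?).map Prod.fst) S[i].1 i' ⟨i' + 1, hi'n⟩ *
          Q ⟨i' + 1, hi'n⟩ (Fin.last n) := by
      apply Finset.sum_eq_single
      · intro l _ hl
        have : letM n R (fun j => (S[j]?).map Prod.fst) S[i].1 i' l = 0 := by
          rw [letM, if_neg]
          rintro ⟨h, -⟩
          exact hl (Fin.ext h)
        rw [this, zero_mul]
      · intro h; exact absurd (Finset.mem_univ _) h
    rw [h3, h4, zero_add, ih' ⟨i' + 1, hi'n⟩ (by show (i' : ℕ) + 1 ≤ i + 1; omega)]
    by_cases h : (i' : ℕ) = i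
    · rw [if_pos h, if_pos (by show (i' : ℕ) + 1 = i + 1; omega), letM, if_pos, one_mul]
      · push_cast
        ring
      · refine ⟨rfl, ?_⟩
        show (S[(i' : ℕ)]?).map Prod.fst = _
        rw [h, List.getElem?_eq_getElem hiS]
        rfl
    · rw [if_neg h, if_neg (by show ¬ (i' : ℕ) + 1 = i + 1; omega), mul_zero, mul_zero]

/-- decomposition of an element of a free group into syllables -/
theorem exists_syll {α : Type} (g : FreeGroup α) : ∃ S : List (α × ℤ),
    S.IsChain (fun a b => a.1 ≠ b.1) ∧ (∀ s ∈ S, s.2 ≠ 0) ∧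
      g = (S.map fun s => FreeGroup.of s.1 ^ s.2).prod := by
  classical
  have step : ∀ (x : α) (e : ℤ) (g : FreeGroup α), (∃ S : List (α × ℤ),
      S.IsChain (fun a b => a.1 ≠ b.1) ∧ (∀ s ∈ S, s.2 ≠ 0) ∧
        g = (S.map fun s => FreeGroup.of s.1 ^ s.2).prod) →
      ∃ S : List (α × ℤ),
      S.IsChain (fun a b => a.1 ≠ b.1) ∧ (∀ s ∈ S, s.2 ≠ 0) ∧
        FreeGroup.of x ^ e * g = (S.map fun s => FreeGroup.of s.1 ^ s.2).prod := by
    rintro x e g ⟨S, h1, h2, rfl⟩
    by_cases he : e = 0
    · exact ⟨S, h1, h2, by rw [he]; simp⟩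
    rcases S with _ | ⟨⟨y, f⟩, S⟩
    · exact ⟨[(x, e)], List.isChain_singleton _, by simpa using he, by simp⟩
    by_cases hxy : x = y
    · subst hxy
      by_cases hf : e + f = 0
      · refine ⟨S, h1.tail, fun s hs => h2 s (List.mem_cons_of_mem _ hs), ?_⟩
        rw [List.map_cons, List.prod_cons, ← mul_assoc, ← zpow_add, hf, zpow_zero, one_mul]
      · refine ⟨(x, e + f) :: S, ?_, ?_, ?_⟩
        · rcases S with _ | ⟨s, S⟩
          · exact List.isChain_singleton _
          · rw [List.isChain_cons_cons] at h1 ⊢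
            exact ⟨h1.1, h1.2⟩
        · intro s hs
          rcases List.mem_cons.1 hs with rfl | hs
          · exact hf
          · exact h2 s (List.mem_cons_of_mem _ hs)
        · rw [List.map_cons, List.prod_cons, List.map_cons, List.prod_cons, ← mul_assoc,
            ← zpow_add]
    · refine ⟨(x, e) :: (y, f) :: S, ?_, ?_, ?_⟩
      · rw [List.isChain_cons_cons]
        exact ⟨hxy, h1⟩
      · intro s hs
        rcases List.mem_cons.1 hs with rfl | hs
        · exact he
        · exact h2 s hs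
      · simp only [List.map_cons, List.prod_cons]
  have key : ∀ L : List (α × Bool), ∃ S : List (α × ℤ),
      S.IsChain (fun a b => a.1 ≠ b.1) ∧ (∀ s ∈ S, s.2 ≠ 0) ∧
        FreeGroup.mk L = (S.map fun s => FreeGroup.of s.1 ^ s.2).prod := by
    intro L
    induction L with
    | nil => exact ⟨[], List.isChain_nil, by simp, by simp [FreeGroup.one_eq_mk]⟩
    | cons a L ih =>
      obtain ⟨x, b⟩ := a
      have h1 : FreeGroup.mk ((x, b) :: L) = FreeGroup.of x ^ (if b then (1 : ℤ) else -1) *
          FreeGroup.mk L := by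
        cases b
        · simp [FreeGroup.of, FreeGroup.inv_mk, FreeGroup.mul_mk, FreeGroup.invRev]
        · simp [FreeGroup.of, FreeGroup.mul_mk]
      rw [h1]
      exact step x _ _ ih
  have h := key g.toWord
  rwa [FreeGroup.mk_toWord] at h

theorem free_res_aux {α : Type} {q : ℕ} (hq : q.Prime) (w : FreeGroup α) (hw : w ≠ 1) :
    ∃ (P : Type) (_ : Group P) (_ : Finite P), IsPGroup q P ∧
      ∃ φ : FreeGroup α →* P, φ w ≠ 1 := by
  obtain ⟨S, hch, hS0, rfl⟩ := exists_syll w
  have hS : S ≠ [] := by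
    rintro rfl
    exact hw (by simp)
  set n := S.length with hn
  have hn0 : 0 < n := List.length_pos_iff.2 hS
  set x : ℕ → Option α := fun j => (S[j]?).map Prod.fst with hx
  have hxx : ∀ i a, x i = some a → x (i + 1) = some a → False := by
    intro i a h1 h2
    simp only [hx, Option.map_eq_some_iff] at h1 h2
    obtain ⟨s, hs, hsa⟩ := h1
    obtain ⟨t, ht, hta⟩ := h2
    obtain ⟨hi, hs'⟩ := List.getElem?_eq_some_iff.1 hs
    obtain ⟨hi1, ht'⟩ := List.getElem?_eq_some_iff.1 ht
    have h3 := List.isChain_iff_getElem.1 hch i hi1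
    apply h3
    rw [hs', ht', hsa, hta]
  set E : ℤ := (S.map fun s => s.2).prod with hE
  have hE0 : E ≠ 0 := by
    rw [hE]
    apply List.prod_ne_zero
    intro h
    rw [List.mem_map] at h
    obtain ⟨s, hs, h0⟩ := h
    exact hS0 s hs h0
  set m := E.natAbs with hm
  have : NeZero (q ^ m) := ⟨(pow_pos hq.pos _).ne'⟩
  have hEm : ((E : ℤ) : ZMod (q ^ m)) ≠ 0 := by
    intro h
    rw [ZMod.intCast_zmod_eq_zero_iff_dvd] at h
    have h1 := Int.natAbs_dvd_natAbs.2 h
    have h2 := Nat.le_of_dvd (Int.natAbs_pos.2 hE0) h1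
    have h3 : m < q ^ m := Nat.lt_pow_self hq.one_lt
    simp only [Int.natAbs_natCast] at h2
    omega
  let f : α → utri n (ZMod (q ^ m)) := fun a => ⟨letU n (ZMod (q ^ m)) x hxx a, letU_mem _ _ _ _ a⟩
  refine ⟨utri n (ZMod (q ^ m)), inferInstance, inferInstance, utri_pgroup hq m,
    FreeGroup.lift f, ?_⟩
  intro h
  have h1 : ((FreeGroup.lift f (S.map fun s => FreeGroup.of s.1 ^ s.2).prod).1 :
      Matrix (Fin (n + 1)) (Fin (n + 1)) (ZMod (q ^ m))) =
      ((S.drop 0).map fun s => (1 + s.2 • letM n (ZMod (q ^ m)) (fun j => (S[j]?).map Prod.fst)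
        s.1)).prod := by
    rw [List.drop_zero]
    have h2 : ∀ T : List (α × ℤ), ((FreeGroup.lift f (T.map fun s => FreeGroup.of s.1 ^ s.2).prod).1 :
      Matrix (Fin (n + 1)) (Fin (n + 1)) (ZMod (q ^ m))) =
      (T.map fun s => (1 + s.2 • letM n (ZMod (q ^ m)) (fun j => (S[j]?).map Prod.fst)
        s.1)).prod := by
      intro T
      induction T with
      | nil => simp
      | cons s T ih =>
        rw [List.map_cons, List.prod_cons, List.map_cons, List.prod_cons, map_mul,
          Subgroup.coe_mul, Units.val_mul, ih, map_zpow, FreeGroup.lift_apply_of]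
        congr 1
        exact letU_zpow n (ZMod (q ^ m)) x hxx s.1 s.2
    exact h2 S
  rw [h] at h1
  have h3 := band_prod (ZMod (q ^ m)) S n hn n 0 (by omega) 0 (by simp)
  rw [← h1] at h3
  simp only [Fin.val_zero, if_true, List.drop_zero] at h3
  rw [← hE] at h3
  apply hEm
  rw [← h3]
  show (1 : Matrix (Fin (n + 1)) (Fin (n + 1)) (ZMod (q ^ m))) 0 (Fin.last n) = 0
  apply Matrix.one_apply_ne
  intro h4
  have := congrArg Fin.val h4
  simp at this
  omega

end Res

/-- Free groups are residually finite `q`-groups.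

Proof.  Write `w` as a product of syllables `x_1 ^ e_1 ⋯ x_n ^ e_n` (neighbouring letters
different, `e_j ≠ 0`, `n > 0`); choose `m` such that `q ^ m` does not divide `∏ e_j`.  In the ring
of `(n+1) × (n+1)` matrices over `ZMod (q ^ m)` the letter `x` is mapped to
`1 + ∑_{j : x_j = x} E_{j,j+1}`; its `e`-th power is `1 + e ∑ E_{j,j+1}` because the square of the
sum is zero (neighbouring letters are different); the entry `(0, n)` of the image of `w` is
`∏ e_j ≠ 0`.  The upper unitriangular matrices form a finite `q`-group: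
`(1 + N) ^ (q ^ K) = ∑ choose (q ^ K) i • N ^ i` and `N ^ (n+1) = 0`, and `q ^ m` divides
`choose (q ^ K) i` for `0 < i ≤ n` if `K ≥ m + n`. -/
theorem free_residually_p {G : Type} [Group G] [IsFreeGroup G] {q : ℕ} (hq : q.Prime) (w : G)
    (hw : w ≠ 1) :
    ∃ (P : Type) (_ : Group P) (_ : Finite P), IsPGroup q P ∧ ∃ φ : G →* P, φ w ≠ 1 := by
  let e := IsFreeGroup.toFreeGroup G
  obtain ⟨P, i1, i2, hP, φ, hφ⟩ := free_res_aux hq (e w) (by
    intro h
    apply hw
    apply e.injective
    rw [h, map_one])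
  exact ⟨P, i1, i2, hP, φ.comp e.toMonoidHom, hφ⟩

end Pool.Agent.H57.Stall
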