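import Mathlib
import Pool.Agent.H28.Closed
import Pool.Agent.H57.Stall.Residual

set_option autoImplicit false

namespace Pool.Agent.H57.Stall

open Pool.Agent.H28

/-- the homomorphisms to finite `q`-groups do not see the difference of `x` and `e x` -/
theorem frattini_aux {D P : Type} [Group D] [Group P] [Finite P] {K : Type} [Group K]
    {q : ℕ} (hq : q.Prime) (hP : IsPGroup q P) (π : D →* K) (e : D →* D)
    (he : ∀ x, e (e x) = e x) (hπe : ∀ x, π (e x) = π x)
    (hfac : ∀ ψ : D →* Multiplicative (ZMod q), ∃ Ψ : K →* Multiplicative (ZMod q),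
      ψ = Ψ.comp π) (h : D →* P) (x : D) : h (e x) = h x := by
  classical
  set k : D →* P × P := h.prod (h.comp e) with hk
  have hPP : IsPGroup q (P × P) := by
    have : Fact q.Prime := ⟨hq⟩
    obtain ⟨n, hn⟩ := IsPGroup.iff_card.1 hP
    apply IsPGroup.of_card (n := n + n)
    rw [Nat.card_prod, hn, pow_add]
  have hB : IsPGroup q k.range := hPP.to_subgroup _
  -- the subgroup `A` of `B`
  set k' : D →* k.range := k.rangeRestrict with hk'
  set A : Subgroup k.range := (k'.comp e).range with hA
  have hAtop : A = ⊤ := by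
    by_contra hne
    obtain ⟨χ, hχ1, hχ2⟩ := exists_hom_of_lt_top hq hB A hne
    apply hχ1
    obtain ⟨Ψ, hΨ⟩ := hfac (χ.comp k')
    have h1 : ∀ y, χ (k' y) = 1 := by
      intro y
      have h2 : χ (k' y) = Ψ (π y) := DFunLike.congr_fun hΨ y
      have h3 : χ (k' (e y)) = Ψ (π (e y)) := DFunLike.congr_fun hΨ (e y)
      rw [h2, ← hπe y, ← h3]
      exact hχ2 _ ⟨y, rfl⟩
    apply MonoidHom.ext
    rintro ⟨z, y, rfl⟩
    exact h1 y
  have hx : k' x ∈ A := by rw [hAtop]; trivial
  obtain ⟨y, hy⟩ := hx
  have h1 : k (e y) = k x := congrArg Subtype.val hy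
  have h2 : h (e y) = h x := congrArg Prod.fst h1
  have h3 : h (e (e y)) = h (e x) := congrArg Prod.snd h1
  rw [← h3, he, h2]

/-- A Frattini argument.  `σ : K → D` a section of `π` (`K` is free), `e = σ π`, an endomorphism
of `D` with `π e = π`.  For every homomorphism `h : D → P` to a finite `q`-group, `h e = h`: put
`k = (h, h e) : D → P × P`, `A = k (e D)`, `B = k D` (subgroups of `P × P`), `A ≤ B`.  If `A ≠ B`
then `H28.exists_hom_of_lt_top` gives a nontrivial homomorphism `χ : B → ZMod q` that kills `A`;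
`χ k = Ψ π` for some `Ψ` by `hfac`, so `χ k e = Ψ π e = Ψ π = χ k`, but `χ k e = 1`, so `χ k = 1`,
a contradiction.  So `A = B`; on `e D` we have `h e = h` because `e e = e`, so `A` is contained in
the diagonal, hence so is `B`.
Therefore `π x = 1` implies `h x = h (e x) = 1` for all `h` (apply this to `h = φ f`), and `f x = 1`
by `free_residually_p`. -/
theorem frattini {D K S : Type} [Group D] [Group K] [IsFreeGroup K] [Group S] [IsFreeGroup S]
    {q : ℕ} (hq : q.Prime) (π : D →* K) (hπ : Function.Surjective π)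
    (hfac : ∀ ψ : D →* Multiplicative (ZMod q), ∃ Ψ : K →* Multiplicative (ZMod q),
      ψ = Ψ.comp π) (f : D →* S) (x : D) (hx : π x = 1) : f x = 1 := by
  by_contra hne
  obtain ⟨P, _, _, hP, φ, hφ⟩ := free_residually_p hq (f x) hne
  apply hφ
  -- a section of `π`
  obtain ⟨s, hs⟩ := hπ.hasRightInverse
  set σ : K →* D := IsFreeGroup.lift (fun g => s (IsFreeGroup.of g)) with hσ
  have hπσ : π.comp σ = MonoidHom.id K := by
    apply IsFreeGroup.ext_hom
    intro a
    rw [MonoidHom.comp_apply, hσ, IsFreeGroup.lift_of, hs]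
    rfl
  have hπσ' : ∀ y, π (σ y) = y := fun y => DFunLike.congr_fun hπσ y
  have key := frattini_aux hq hP π (σ.comp π) (fun y => by simp [hπσ']) (fun y => by simp [hπσ'])
    hfac (φ.comp f) x
  rw [MonoidHom.comp_apply, MonoidHom.comp_apply σ π, hx, map_one, map_one, map_one] at key
  exact key.symm

end Pool.Agent.H57.Stall
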