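import Mathlib
import Pool.Agent.H28.Split

set_option autoImplicit false

namespace Pool.Agent.H57.Stall

open Pool.Agent.H28

/-- roots are unique in free groups -/
theorem rm_pow_inj {G : Type*} [Group G] [IsFreeGroup G] {n : ℕ} (hn : n ≠ 0) {x y : G}
    (h : x ^ n = y ^ n) : x = y := by
  let e := (IsFreeGroup.toFreeGroup G)
  apply e.injective
  have h1 : (e x) ^ n = (e y) ^ n := by rw [← map_pow, ← map_pow, h]
  exact pow_left_injective hn h1

/-- a free group with a basis with at most one element is cyclic -/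
theorem rm_cyclic {E β : Type*} [Group E] (bE : FreeGroupBasis β E) (k : β)
    (hk : ∀ k', k' = k) (x : E) : ∃ i : ℤ, x = bE k ^ i := by
  have h1 : bE.repr x ∈ Subgroup.closure (Set.range (FreeGroup.of (α := β))) := by
    rw [FreeGroup.closure_range_of]
    exact Subgroup.mem_top _
  have h2 : Set.range (FreeGroup.of (α := β)) = {FreeGroup.of k} := by
    ext y
    constructor
    · rintro ⟨k', rfl⟩
      rw [hk k']
      rfl
    · intro hy
      exact ⟨k, hy.symm⟩
  rw [h2, ← Subgroup.zpowers_eq_closure] at h1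
  obtain ⟨i, hi⟩ := h1
  refine ⟨i, ?_⟩
  apply bE.repr.injective
  have hi' : FreeGroup.of k ^ i = bE.repr x := hi
  rw [map_zpow, ← hi']
  congr 1
  simp

/-- Two commuting elements of a free group are powers of one element.  (The subgroup generated
by them is free and commutative, hence cyclic.) -/
theorem commute_zpow {G : Type} [Group G] [IsFreeGroup G] {x y : G} (h : x * y = y * x) :
    ∃ (z : G) (i j : ℤ), x = z ^ i ∧ y = z ^ j := by
  classical
  let H : Subgroup G := Subgroup.closure {x, y}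
  have hx : x ∈ H := Subgroup.subset_closure (by simp)
  have hy : y ∈ H := Subgroup.subset_closure (by simp)
  have hcomm : ∀ a b : H, a * b = b * a := by
    have h1 : ∀ a ∈ H, ∀ b ∈ H, a * b = b * a := by
      intro a ha b hb
      refine Subgroup.closure_induction₂ (p := fun a b _ _ => a * b = b * a) ?_ ?_ ?_ ?_ ?_ ?_ ?_
        ha hb
      · intro a b ha hb
        simp only [Set.mem_insert_iff, Set.mem_singleton_iff] at ha hb
        rcases ha with rfl | rfl <;> rcases hb with rfl | rfl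
        · rfl
        · exact h
        · exact h.symm
        · rfl
      · intro b _; simp
      · intro b _; simp
      · intro a b c _ _ _ h1 h2
        exact Commute.mul_left h1 h2
      · intro a b c _ _ _ h1 h2
        exact Commute.mul_right h1 h2
      · intro a b _ _ h1
        exact Commute.inv_left h1
      · intro a b _ _ h1
        exact Commute.inv_right h1
    intro a b
    exact Subtype.ext (h1 a a.2 b b.2)
  let κ := IsFreeGroup.Generators H
  let bH : FreeGroupBasis κ H := IsFreeGroup.basis H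
  have hsub : ∀ k k' : κ, k' = k := by
    intro k k'
    by_contra hne
    let f : H →* Equiv.Perm (Fin 3) :=
      bH.lift (fun i => if i = k then Equiv.swap 0 1 else Equiv.swap 1 2)
    have h1 : f (bH k) * f (bH k') = f (bH k') * f (bH k) := by
      rw [← map_mul, hcomm, map_mul]
    have h2 : f (bH k) = Equiv.swap 0 1 := by simp [f]
    have h3 : f (bH k') = Equiv.swap 1 2 := by simp [f, hne]
    rw [h2, h3] at h1
    exact absurd h1 (by decide)
  rcases isEmpty_or_nonempty κ with h0 | ⟨⟨k⟩⟩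
  · have h1 : ∀ a : H, a = 1 := by
      intro a
      apply bH.repr.injective
      exact Subsingleton.elim _ _
    refine ⟨1, 0, 0, ?_, ?_⟩
    · have := congrArg Subtype.val (h1 ⟨x, hx⟩)
      simpa using this
    · have := congrArg Subtype.val (h1 ⟨y, hy⟩)
      simpa using this
  · obtain ⟨i, hi⟩ := rm_cyclic bH k (hsub k) ⟨x, hx⟩
    obtain ⟨j, hj⟩ := rm_cyclic bH k (hsub k) ⟨y, hy⟩
    refine ⟨(bH k : G), i, j, ?_, ?_⟩
    · have := congrArg Subtype.val hi
      simpa using this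
    · have := congrArg Subtype.val hj
      simpa using this


/-- iterates of a generator in the counting cocycle -/
theorem rm_count {Ω E : Type*} [Group E] [MulAction E Ω] {l : ℕ}
    (d : Ω → E → (Ω →₀ ZMod l)) (hd : IsCoc d) (t : E)
    (ht : ∀ w, d w t = Finsupp.single w 1) (w : Ω) (j : ℕ) :
    d w (t ^ j) = ∑ i ∈ Finset.range j, Finsupp.single (t ^ i • w) 1 := by
  induction j with
  | zero => simp [hd.one]
  | succ j ih =>
    rw [Finset.sum_range_succ, ← ih, pow_succ', hd w t (t ^ j), ht]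

/-- the counting cocycle sees the starting point -/
theorem rm_count_self {Ω E : Type*} [Group E] [MulAction E Ω] {l : ℕ} (t : E)
    (w : Ω) (j : ℕ) (hj : ¬ l ∣ j) (hfix : t ^ j • w = w) :
    (∑ i ∈ Finset.range j, (Finsupp.single (t ^ i • w) 1 : Ω →₀ ZMod l)) w ≠ 0 := by
  classical
  have hj0 : j ≠ 0 := by
    rintro rfl
    exact hj (dvd_zero l)
  let m := Function.minimalPeriod (t • ·) w
  have hper : ∀ i : ℕ, t ^ i • w = w ↔ m ∣ i := by
    intro i
    rw [← Function.isPeriodicPt_iff_minimalPeriod_dvd]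
    unfold Function.IsPeriodicPt Function.IsFixedPt
    rw [smul_iterate]
  obtain ⟨k, hk⟩ := (hper j).mp hfix
  have hm0 : 0 < m := by
    rcases Nat.eq_zero_or_pos m with h | h
    · rw [h, zero_mul] at hk
      exact absurd hk hj0
    · exact h
  rw [Finset.sum_apply']
  have h1 : ∀ i, (Finsupp.single (t ^ i • w) (1 : ZMod l) : Ω →₀ ZMod l) w =
      if m ∣ i then 1 else 0 := by
    intro i
    rw [Finsupp.single_apply]
    simp only [hper]
  simp only [h1]
  rw [Finset.sum_ite, Finset.sum_const_zero, add_zero, Finset.sum_const, nsmul_eq_mul, mul_one]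
  have h2 : ((Finset.range j).filter (m ∣ ·)).card = k := by
    rw [hk]
    have : (Finset.range (m * k)).filter (m ∣ ·) = (Finset.range k).image (m * ·) := by
      ext i
      simp only [Finset.mem_filter, Finset.mem_range, Finset.mem_image]
      constructor
      · rintro ⟨h1, q, rfl⟩
        exact ⟨q, lt_of_mul_lt_mul_left h1 (Nat.zero_le _), rfl⟩
      · rintro ⟨q, hq, rfl⟩
        exact ⟨Nat.mul_lt_mul_of_pos_left hq hm0, dvd_mul_right _ _⟩
    rw [this, Finset.card_image_of_injective _ (fun a b hab => Nat.eq_of_mul_eq_mul_left hm0 hab),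
      Finset.card_range]
  rw [h2]
  intro h3
  apply hj
  rw [hk]
  exact dvd_mul_of_dvd_right ((ZMod.natCast_eq_zero_iff k l).mp h3) m

/-- orbits of fixed points -/
theorem rm_orbit {G ι β Ω : Type*} [Group G] [MulAction G Ω] {l : ℕ}
    (b : FreeGroupBasis ι G) (E : Subgroup G) (hE : Inj (ZMod l) b Ω E)
    (bE : FreeGroupBasis β E) (k : β) (t : E)
    (ht : t = bE k ∨ t = (bE k)⁻¹) (j : ℕ) (hj : ¬ l ∣ j)
    (ω ω' : Ω) (hω : ((t ^ j : E) : G) • ω = ω) (hω' : ((t ^ j : E) : G) • ω' = ω') :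
    ∃ i : ℕ, ω = ((t ^ i : E) : G) • ω' := by
  classical
  let e0 : G ⧸ E := ((1 : G) : G ⧸ E)
  have hfix : ∀ e ∈ E, e • e0 = e0 := by
    intro e he
    show ((e * 1 : G) : G ⧸ E) = ((1 : G) : G ⧸ E)
    rw [QuotientGroup.eq, mul_one, mul_one]
    exact E.inv_mem he
  -- a cocycle with value `single w 1` at `t`
  obtain ⟨d, hd, hdt⟩ : ∃ d : Ω → E → (Ω →₀ ZMod l), IsCoc d ∧
      ∀ w, d w t = Finsupp.single w 1 := by
    rcases ht with ht | ht
    · refine ⟨coc bE (fun w _ => Finsupp.single w 1), isCoc_coc bE _, fun w => ?_⟩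
      rw [ht, coc_basis]
    · refine ⟨coc bE (fun w _ => - Finsupp.single ((bE k : G) • w) 1), isCoc_coc bE _,
        fun w => ?_⟩
      rw [ht, (isCoc_coc bE _).inv, coc_basis, neg_neg]
      congr 1
      show (bE k : G) • (bE k : G)⁻¹ • w = w
      rw [smul_inv_smul]
  obtain ⟨δ, hδ, hδ1⟩ := exists_coc_induced E d hd
  let s : G := ((t ^ j : E) : G)
  have hsE : s ∈ E := (t ^ j : E).2
  let c : ((Ω × G ⧸ E) × ι) →₀ ZMod l :=
    pth (ZMod l) b (ω, e0) s - pth (ZMod l) b (ω', e0) s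
  have hc1 : bd (ZMod l) b c = 0 := by
    simp only [c, map_sub, bd_pth, Prod.smul_mk]
    rw [hfix s hsE]
    have h1 : s • ω = ω := hω
    have h2 : s • ω' = ω' := hω'
    rw [h1, h2]
    simp
  have hc2 : c.mapDomain (Prod.map Prod.snd id) = 0 := by
    show Finsupp.lmapDomain (ZMod l) (ZMod l) (Prod.map Prod.snd id) c = _
    simp only [c, map_sub, Finsupp.lmapDomain_apply]
    rw [pth_map b Prod.snd (fun g w => rfl), pth_map b Prod.snd (fun g w => rfl), sub_self]
  have hc : c = 0 := hE c hc1 hc2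
  let φ := Finsupp.linearCombination (ZMod l) (fun x : (Ω × G ⧸ E) × ι => δ x.1 (b x.2))
  have hφ : ∀ v g, φ (pth (ZMod l) b v g) = δ v g := by
    intro v g
    have h1 := lc_pth (R := ZMod l) b (fun v i => δ v (b i)) v g
    have h2 := coc_ext b (isCoc_coc b (fun v i => δ v (b i))) hδ
      (fun v i => coc_basis b _ v i) v g
    rw [h2] at h1
    exact h1
  have h1 : φ c = 0 := by rw [hc, map_zero]
  simp only [c, map_sub, hφ, s, e0] at h1
  rw [hδ1 ω, hδ1 ω', sub_eq_zero] at h1
  rw [rm_count d hd t hdt, rm_count d hd t hdt] at h1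
  have h2 := rm_count_self t ω j hj hω
  rw [h1, Finset.sum_apply'] at h2
  obtain ⟨i, _, hi⟩ := Finset.exists_ne_zero_of_sum_ne_zero h2
  rw [Finsupp.single_apply] at hi
  by_cases h3 : t ^ i • ω' = ω
  · exact ⟨i, h3.symm⟩
  · rw [if_neg h3] at hi
    exact absurd rfl hi

/-- The root lemma: if all homomorphisms from `S` to the group of order `l` extend to `G`, then
`S` is closed under `l`-th roots. -/
theorem root_mem {G : Type} [Group G] [IsFreeGroup G] {l : ℕ} (hl : l.Prime) (S : Subgroup G)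
    (hS : ExtP l S) (r : G) (h : r ^ l ∈ S) : r ∈ S := by
  classical
  by_cases hr1 : r = 1
  · rw [hr1]; exact S.one_mem
  have hl0 : l ≠ 0 := hl.ne_zero
  have hs1 : r ^ l ≠ 1 := fun h0 => hr1 (rm_pow_inj hl0 (by rw [h0, one_pow]))
  let b : FreeGroupBasis (IsFreeGroup.Generators G) G := IsFreeGroup.basis G
  let Ω := G ⧸ S
  let o : Ω := ((1 : G) : G ⧸ S)
  have hstab : MulAction.stabilizer G o = S := MulAction.stabilizer_quotient S
  have htop : Inj (ZMod l) b Ω (⊤ : Subgroup G) := by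
    apply inj_top b o
    intro ψ
    obtain ⟨Ψ, hΨ⟩ := hS (ψ.comp (Subgroup.inclusion (le_of_eq hstab.symm)))
    refine ⟨Ψ, fun s => ?_⟩
    have hs : (s : G) ∈ S := (le_of_eq hstab) s.2
    exact hΨ ⟨s, hs⟩
  obtain ⟨E, hPE, hE, hmin⟩ := exists_minimal b (Subgroup.zpowers (r ^ l)) htop
  have hsE : r ^ l ∈ E := hPE (Subgroup.mem_zpowers _)
  have hdense : ∀ ψ : E →* Multiplicative (ZMod l), ψ ⟨r ^ l, hsE⟩ = 1 → ψ = 1 := by
    intro ψ hψ
    apply dense_of_minimal hl b _ E hPE hE hmin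
    rintro x ⟨i, rfl⟩
    have : (⟨(r ^ l) ^ i, hPE ⟨i, rfl⟩⟩ : E) = ⟨r ^ l, hsE⟩ ^ i := by
      apply Subtype.ext
      simp
    show ψ ⟨(r ^ l) ^ i, _⟩ = 1
    rw [this, map_zpow, hψ, one_zpow]
  let κ := IsFreeGroup.Generators E
  let bE : FreeGroupBasis κ E := IsFreeGroup.basis E
  have : Fact l.Prime := ⟨hl⟩
  have hne1 : (Multiplicative.ofAdd (1 : ZMod l)) ≠ 1 := by
    intro h0
    have : (1 : ZMod l) = 0 := Multiplicative.ofAdd.injective h0
    exact one_ne_zero this
  have hsub : ∀ k k' : κ, k' = k := by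
    intro k k'
    by_contra hne
    -- coordinates
    let χ : κ → (E →* Multiplicative (ZMod l)) := fun i =>
      bE.lift (fun x => if x = i then Multiplicative.ofAdd 1 else 1)
    let u := (χ k' ⟨r ^ l, hsE⟩).toAdd
    let v := (χ k ⟨r ^ l, hsE⟩).toAdd
    have hzero : ∀ u' v' : ZMod l, u' * v + v' * u = 0 → u' = 0 ∧ v' = 0 := by
      intro u' v' huv
      let ψ : E →* Multiplicative (ZMod l) :=
        (χ k) ^ (u'.val) * (χ k') ^ (v'.val)
      have h1 : ψ = 1 := by
        apply hdense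
        show (χ k ⟨r ^ l, hsE⟩) ^ u'.val * (χ k' ⟨r ^ l, hsE⟩) ^ v'.val = 1
        apply Multiplicative.toAdd.injective
        rw [toAdd_mul, toAdd_pow, toAdd_pow, nsmul_eq_mul, nsmul_eq_mul, ZMod.natCast_zmod_val,
          ZMod.natCast_zmod_val]
        exact huv
      have h2 := DFunLike.congr_fun h1 (bE k)
      have h3 := DFunLike.congr_fun h1 (bE k')
      have e1 : χ k (bE k) = Multiplicative.ofAdd 1 := by simp [χ]
      have e2 : χ k (bE k') = 1 := by simp [χ, hne]
      have e3 : χ k' (bE k) = 1 := by simp [χ, Ne.symm hne]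
      have e4 : χ k' (bE k') = Multiplicative.ofAdd 1 := by simp [χ]
      have h2' : (χ k (bE k)) ^ u'.val * (χ k' (bE k)) ^ v'.val = 1 := h2
      have h3' : (χ k (bE k')) ^ u'.val * (χ k' (bE k')) ^ v'.val = 1 := h3
      rw [e1, e3, one_pow, mul_one] at h2'
      rw [e2, e4, one_pow, one_mul] at h3'
      have h4 := congrArg Multiplicative.toAdd h2'
      have h5 := congrArg Multiplicative.toAdd h3'
      rw [toAdd_pow, toAdd_ofAdd, nsmul_eq_mul, mul_one, ZMod.natCast_zmod_val] at h4 h5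
      exact ⟨h4, h5⟩
    have h1 := hzero u (-v) (by ring)
    have h2 := hzero 1 0 (by
      have : v = 0 := neg_eq_zero.mp h1.2
      rw [this]; ring)
    exact one_ne_zero h2.1
  rcases isEmpty_or_nonempty κ with h0 | ⟨⟨k⟩⟩
  · exfalso
    have h1 : (⟨r ^ l, hsE⟩ : E) = 1 := by
      apply bE.repr.injective
      exact Subsingleton.elim _ _
    exact hs1 (congrArg Subtype.val h1)
  obtain ⟨j0, hj0⟩ := rm_cyclic bE k (hsub k) ⟨r ^ l, hsE⟩
  -- choose the generator so that the exponent is a natural number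
  obtain ⟨t, ht, j, htj⟩ : ∃ t : E, (t = bE k ∨ t = (bE k)⁻¹) ∧ ∃ j : ℕ,
      (⟨r ^ l, hsE⟩ : E) = t ^ j := by
    rcases Int.eq_nat_or_neg j0 with ⟨j, hj | hj⟩
    · exact ⟨bE k, Or.inl rfl, j, by rw [hj0, hj, zpow_natCast]⟩
    · exact ⟨(bE k)⁻¹, Or.inr rfl, j, by rw [hj0, hj, zpow_neg, zpow_natCast, inv_pow]⟩
  have hj : ¬ l ∣ j := by
    rintro ⟨q, rfl⟩
    let ψ : E →* Multiplicative (ZMod l) := bE.lift (fun _ => Multiplicative.ofAdd 1)
    have h1 : ψ = 1 := by
      apply hdense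
      rw [htj, pow_mul, map_pow, map_pow]
      have : (ψ t) ^ l = 1 := by
        apply Multiplicative.toAdd.injective
        rw [toAdd_pow, nsmul_eq_mul, CharP.cast_eq_zero, zero_mul]
        rfl
      rw [this, one_pow]
    have h2 : ψ (bE k) = 1 := DFunLike.congr_fun h1 (bE k)
    apply hne1
    rw [← h2]
    simp [ψ]
  have hsj : r ^ l = (t : G) ^ j := by
    have := congrArg Subtype.val htj
    simpa using this
  -- the two fixed points
  have hfix1 : ((t ^ j : E) : G) • (((r : G) : G ⧸ S) : Ω) = ((r : G) : G ⧸ S) := by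
    rw [Subgroup.coe_pow, ← hsj]
    show (((r ^ l) * r : G) : G ⧸ S) = ((r : G) : G ⧸ S)
    rw [← pow_succ, pow_succ', QuotientGroup.eq, mul_inv_rev, mul_assoc, inv_mul_cancel, mul_one]
    exact S.inv_mem h
  have hfix2 : ((t ^ j : E) : G) • o = o := by
    rw [Subgroup.coe_pow, ← hsj]
    show (((r ^ l) * 1 : G) : G ⧸ S) = ((1 : G) : G ⧸ S)
    rw [mul_one, QuotientGroup.eq, mul_one]
    exact S.inv_mem h
  obtain ⟨i, hi⟩ := rm_orbit b E hE bE k t ht j hj _ _ hfix1 hfix2
  have hmem : ((t : G) ^ i)⁻¹ * r ∈ S := by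
    have h1 : ((r : G) : G ⧸ S) = (((t : G) ^ i * 1 : G) : G ⧸ S) := by
      rw [hi]
      simp only [Subgroup.coe_pow]
      rfl
    rw [mul_one] at h1
    exact QuotientGroup.eq.mp h1.symm
  -- `r` and `t` commute
  have hcomm : Commute (t : G) r := by
    have h1 : ((t : G) * r * (t : G)⁻¹) ^ l = r ^ l := by
      rw [conj_pow, hsj, ← pow_succ', pow_succ, mul_inv_cancel_right]
    have h2 := rm_pow_inj hl0 h1
    have h3 : (t : G) * r = r * t := by
      rw [mul_inv_eq_iff_eq_mul] at h2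
      exact h2
    exact h3
  -- Bezout
  have hcop : Int.gcd (l : ℤ) (j : ℤ) = 1 := by
    rw [Int.gcd_natCast_natCast]
    exact (hl.coprime_iff_not_dvd).mpr hj
  obtain ⟨u, v, huv⟩ : ∃ u v : ℤ, (l : ℤ) * u + j * v = 1 := by
    have := Int.gcd_eq_gcd_ab (l : ℤ) j
    rw [hcop] at this
    exact ⟨_, _, this.symm⟩
  let y : G := r ^ v * (t : G) ^ u
  have hcv : Commute (r ^ v) ((t : G) ^ u) := (hcomm.symm.zpow_left v).zpow_right u
  have hsz : r ^ (l : ℤ) = (t : G) ^ (j : ℤ) := by rw [zpow_natCast, zpow_natCast, hsj]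
  have hyl : y ^ (l : ℤ) = t := by
    show (r ^ v * (t : G) ^ u) ^ (l : ℤ) = t
    rw [hcv.mul_zpow, ← zpow_mul, mul_comm v, zpow_mul, hsz, ← zpow_mul, ← zpow_mul, ← zpow_add,
      mul_comm u, add_comm, huv, zpow_one]
  have hyj : y ^ (j : ℤ) = r := by
    show (r ^ v * (t : G) ^ u) ^ (j : ℤ) = r
    rw [hcv.mul_zpow, ← zpow_mul, ← zpow_mul, mul_comm u, zpow_mul (t : G), ← hsz, ← zpow_mul,
      ← zpow_add, mul_comm v, add_comm, huv, zpow_one]
  have hy1 : y ^ ((l : ℤ) * j) ∈ S := by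
    rw [mul_comm, zpow_mul, hyj, zpow_natCast]
    exact h
  have hy2 : y ^ ((j : ℤ) - l * i) ∈ S := by
    have : y ^ ((j : ℤ) - l * i) = ((t : G) ^ i)⁻¹ * r := by
      rw [sub_eq_neg_add, zpow_add, zpow_neg, zpow_mul, hyl, hyj, zpow_natCast]
    rw [this]
    exact hmem
  have hy3 : y ^ (((l : ℤ) * j) * (u + v * i) + ((j : ℤ) - l * i) * (j * v)) ∈ S := by
    rw [zpow_add, zpow_mul, zpow_mul y ((j : ℤ) - l * i)]
    exact S.mul_mem (S.zpow_mem hy1 _) (S.zpow_mem hy2 _)
  have he : ((l : ℤ) * j) * (u + v * i) + ((j : ℤ) - l * i) * (j * v) = j := by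
    linear_combination (j : ℤ) * huv
  rw [he, hyj] at hy3
  exact hy3

end Pool.Agent.H57.Stall
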