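import Mathlib
import Pool.Agent.H28.Dep

set_option autoImplicit false

namespace Pool.Agent.H57.Stall

open Pool.Agent.H28

variable {G ι κ : Type} [Group G]

/-- the restriction of homomorphisms -/
def rrRestr (p : ℕ) (S : Subgroup G) (Ψ : G →* Multiplicative (ZMod p)) :
    S →* Multiplicative (ZMod p) := Ψ.comp S.subtype

theorem rr_card_hom [Finite ι] (b : FreeGroupBasis ι G) {p : ℕ} (hp : p.Prime) :
    Finite (G →* Multiplicative (ZMod p)) ∧
      Nat.card (G →* Multiplicative (ZMod p)) = p ^ Nat.card ι := by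
  have : NeZero p := ⟨hp.ne_zero⟩
  have : Finite (Multiplicative (ZMod p)) := inferInstanceAs (Finite (ZMod p))
  have e : (ι → Multiplicative (ZMod p)) ≃ (G →* Multiplicative (ZMod p)) := b.lift
  refine ⟨Finite.of_equiv _ e, ?_⟩
  rw [← Nat.card_congr e, Nat.card_fun]
  congr 1
  change Nat.card (ZMod p) = p
  rw [Nat.card_eq_fintype_card, ZMod.card]

theorem rr_restr_surj {p : ℕ} {S : Subgroup G} (h1 : ExtP p S) :
    Function.Surjective (rrRestr p S) := by
  intro ψ
  obtain ⟨Ψ, hΨ⟩ := h1 ψ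
  exact ⟨Ψ, MonoidHom.ext hΨ⟩

theorem rr_restr_inj {p : ℕ} {S : Subgroup G} (h2 : UniqP p S) :
    Function.Injective (rrRestr p S) := by
  intro Ψ Ψ' h
  have h3 : Ψ / Ψ' = 1 := by
    apply h2
    intro s
    have h4 : Ψ (s : G) = Ψ' s := DFunLike.congr_fun h s
    rw [MonoidHom.div_apply, h4, div_self']
  exact div_eq_one.1 h3

/-- If restriction `Hom(G, Z_p) → Hom(S, Z_p)` is onto, then a basis of `S` has at most as many
elements as a basis of `G`.  (`Hom(G, Z_p) ≃ (ι → Z_p)`; count.) -/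
theorem finite_of_extP [Finite ι] (b : FreeGroupBasis ι G) (S : Subgroup G)
    (bS : FreeGroupBasis κ S) {p : ℕ} (hp : p.Prime) (h1 : ExtP p S) :
    Finite κ ∧ Nat.card κ ≤ Nat.card ι := by
  classical
  obtain ⟨hf, hc⟩ := rr_card_hom b hp
  have hs := rr_restr_surj h1
  have : Finite (S →* Multiplicative (ZMod p)) := Finite.of_surjective _ hs
  have : Fact (1 < p) := ⟨hp.one_lt⟩
  have hκ : Finite κ := by
    have e : (κ → Multiplicative (ZMod p)) ≃ (S →* Multiplicative (ZMod p)) := bS.lift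
    have : Finite (κ → Multiplicative (ZMod p)) := Finite.of_equiv _ e.symm
    have hg : (Multiplicative.ofAdd (1 : ZMod p)) ≠ 1 := by
      intro h
      have h' : (1 : ZMod p) = 0 := h
      exact one_ne_zero h'
    apply Finite.of_injective (fun k : κ => (Pi.mulSingle k (Multiplicative.ofAdd (1 : ZMod p)) :
      κ → Multiplicative (ZMod p)))
    intro k k' h
    by_contra hne
    have h2 := congrFun h k
    simp only [Pi.mulSingle_eq_same] at h2
    rw [Pi.mulSingle_eq_of_ne hne] at h2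
    exact hg h2
  refine ⟨hκ, ?_⟩
  obtain ⟨hf', hc'⟩ := rr_card_hom bS hp
  have h3 : Nat.card (S →* Multiplicative (ZMod p)) ≤ Nat.card (G →* Multiplicative (ZMod p)) :=
    Nat.card_le_card_of_surjective _ hs
  rw [hc, hc'] at h3
  exact (Nat.pow_le_pow_iff_right hp.one_lt).1 h3

/-- If restriction is one-to-one, then a basis of `G` has at most as many elements as one of
`S`. -/
theorem card_le_of_uniqP [Finite ι] [Finite κ] (b : FreeGroupBasis ι G) (S : Subgroup G)
    (bS : FreeGroupBasis κ S) {p : ℕ} (hp : p.Prime) (h2 : UniqP p S) :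
    Nat.card ι ≤ Nat.card κ := by
  obtain ⟨hf, hc⟩ := rr_card_hom b hp
  obtain ⟨hf', hc'⟩ := rr_card_hom bS hp
  have h3 : Nat.card (G →* Multiplicative (ZMod p)) ≤ Nat.card (S →* Multiplicative (ZMod p)) :=
    Nat.card_le_card_of_injective _ (rr_restr_inj h2)
  rw [hc, hc'] at h3
  exact (Nat.pow_le_pow_iff_right hp.one_lt).1 h3

/-- If the ranks agree and restriction is one-to-one, then it is onto. -/
theorem extP_of_uniqP [Finite ι] [Finite κ] (b : FreeGroupBasis ι G) (S : Subgroup G)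
    (bS : FreeGroupBasis κ S) (hcard : Nat.card κ = Nat.card ι) {q : ℕ} (hq : q.Prime)
    (h : UniqP q S) : ExtP q S := by
  obtain ⟨hf, hc⟩ := rr_card_hom b hq
  obtain ⟨hf', hc'⟩ := rr_card_hom bS hq
  have hs : Function.Surjective (rrRestr q S) := by
    have hb : Function.Bijective (rrRestr q S) := by
      rw [Nat.bijective_iff_injective_and_card]
      exact ⟨rr_restr_inj h, by rw [hc, hc', hcard]⟩
    exact hb.2
  intro ψ
  obtain ⟨Ψ, hΨ⟩ := hs ψ
  exact ⟨Ψ, fun s => DFunLike.congr_fun hΨ s⟩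

end Pool.Agent.H57.Stall
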