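import Mathlib
import Pool.Agent.H57.Stall.RootMem
import Pool.Agent.H57.Stall.RootRank
import Pool.Agent.H57.Stall.RootCross
import Pool.Agent.H57.Stall.RootFrat

set_option autoImplicit false

namespace Pool.Agent.H57.Stall

open Pool.Agent.H28

variable {G : Type} [Group G]

/-- a homomorphism to a commutative group is determined by the exponent sums -/
theorem rr_comm {ι A : Type} [Finite ι] [CommGroup A] (b : FreeGroupBasis ι G) (θ : G →* A) (r : G)
    (h : ∀ e : G →* Multiplicative ℤ, e r = 1) : θ r = 1 := by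
  classical
  have := Fintype.ofFinite ι
  let e : ι → G →* Multiplicative ℤ := fun i => b.lift (fun k => if k = i then Multiplicative.ofAdd 1 else 1)
  let T : ι → G →* A := fun i => (zpowersHom A (θ (b i))).comp (e i)
  have h1 : θ = ∏ i, T i := by
    apply b.ext_hom
    intro k
    rw [MonoidHom.finsetProd_apply, Finset.prod_eq_single k]
    · simp [T, e, zpowersHom_apply]
    · intro i _ hik
      simp [T, e, Ne.symm hik, zpowersHom_apply]
    · intro hk
      exact absurd (Finset.mem_univ k) hk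
  rw [h1, MonoidHom.finsetProd_apply]
  apply Finset.prod_eq_one
  intro i _
  show zpowersHom A (θ (b i)) (e i r) = 1
  rw [h, map_one]

/-- The homomorphism `θ`.

Proof.  `UniqP p S`: if `Ψ` kills `S` then `(Ψ r) ^ l = 1`, and `l ≠ p` (`l = p` would give
`r ∈ S` by `root_mem`), so `Ψ r = 1` and `Ψ = 1` by `hgen`.  Hence the bases of `S` and `G` have
the same finite cardinality (`finite_of_extP`, `card_le_of_uniqP`).  If `UniqP l S` holds then
`ExtP l S` holds (`extP_of_uniqP`) and `r ∈ S` by `root_mem`, a contradiction.  So there is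
`θ ≠ 1` that kills `S`, and `θ r ≠ 1` by `hgen`. -/
theorem exists_theta {ι κ : Type} [Finite ι] (b : FreeGroupBasis ι G) {p l : ℕ} (hp : p.Prime)
    (hl : l.Prime) (S : Subgroup G) (bS : FreeGroupBasis κ S) (hS : ExtP p S) (r : G)
    (hr : r ∉ S) (hrl : r ^ l ∈ S) (hgen : S ⊔ Subgroup.zpowers r = ⊤) :
    l ≠ p ∧ Finite κ ∧ Nat.card κ = Nat.card ι ∧
      ∃ θ : G →* Multiplicative (ZMod l), (∀ x : S, θ x = 1) ∧ θ r ≠ 1 := by
  have hfree : IsFreeGroup G := b.isFreeGroup
  have hlp : l ≠ p := by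
    rintro rfl
    exact hr (root_mem hl S hS r hrl)
  have hker : ∀ {A : Type} [CommGroup A] (Ψ : G →* A), (∀ s : S, Ψ s = 1) → Ψ r = 1 → Ψ = 1 := by
    intro A _ Ψ h1 h2
    have h3 : S ⊔ Subgroup.zpowers r ≤ Ψ.ker := by
      refine sup_le (fun x hx => h1 ⟨x, hx⟩) ?_
      rw [Subgroup.zpowers_le]
      exact h2
    rw [hgen] at h3
    ext x : 1
    exact h3 (Subgroup.mem_top x)
  have huniq : UniqP p S := by
    intro Ψ hΨ
    apply hker Ψ hΨ
    have h1 : (Ψ r) ^ l = 1 := by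
      rw [← map_pow]
      exact hΨ ⟨_, hrl⟩
    have h2 : (Ψ r) ^ p = 1 := by
      apply Multiplicative.toAdd.injective
      rw [toAdd_pow, nsmul_eq_mul, CharP.cast_eq_zero, zero_mul]
      rfl
    have h3 := Nat.dvd_gcd (orderOf_dvd_of_pow_eq_one h1) (orderOf_dvd_of_pow_eq_one h2)
    have h4 : Nat.gcd l p = 1 := (Nat.coprime_primes hl hp).mpr hlp
    rw [h4, Nat.dvd_one] at h3
    exact orderOf_eq_one_iff.mp h3
  obtain ⟨hfin, hle⟩ := finite_of_extP b S bS hp hS
  have hge := card_le_of_uniqP b S bS hp huniq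
  have hcard := le_antisymm hle hge
  refine ⟨hlp, hfin, hcard, ?_⟩
  by_contra hcon
  apply hr
  refine root_mem hl S ?_ r hrl
  apply extP_of_uniqP b S bS hcard hl
  intro Ψ hΨ
  apply hker Ψ hΨ
  by_contra h
  exact hcon ⟨Ψ, hΨ, h⟩

/-- Adjoining an `l`-th root reflects dependence.

Proof.  Let `s = r ^ l`.  There is a homomorphism `S → Multiplicative ℤ` that does not kill `s`
(otherwise the class of `s` in the free abelian group `S^ab` is zero, so `l [r] = 0` in the
torsion-free group `G^ab`, so `[r] = 0` and `θ r = 1`); so there are a prime `q` and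
`χ : S → ZMod q` with `χ s ≠ 1`.
Let `F₁ ≤ G` be generated by the elements `r ^ j * x * (r ^ j)⁻¹`, `j < l`, `x ∈ S`; it lies in
`θ.ker`, is normalized by `r` (`r ^ l * x * (r ^ l)⁻¹ ∈ S`), so `F₁ * zpowers r = G`.  Let
`D ≤ F₁ × S` be generated by the pairs `(r ^ j * x * (r ^ j)⁻¹, x)`, `π : D → F₁` and `f : D → S`
the projections; `π` is onto.  Every `ψ : D → ZMod q` is of the form `Ψ π`: put
`ψ_j x = ψ (r ^ j * x * (r ^ j)⁻¹, x)`; `ψ_j s = ψ (s, s)` does not depend on `j`;
`exists_ext` gives `Ψ`, and `Ψ π = ψ` on generators.  By `frattini`, `π x = 1` implies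
`f x = 1`.
Now `a = ∏ c_i g_i c_i⁻¹`, `c_i = f_i * r ^ (j_i)`, `f_i ∈ F₁`, and we may take `0 ≤ j_i < l`
(replace `f_i` by `f_i * s ^ k`).  Lift `f_i` to `d_i ∈ D`.  The element
`(a, a)⁻¹ * ∏ d_i * (r ^ (j_i) * g_i * (r ^ (j_i))⁻¹, g_i) * d_i⁻¹` of `D` is killed by `π`,
hence by `f`: `a = ∏ f(d_i) g_i f(d_i)⁻¹`. -/
theorem root_reflect {ι : Type} [Finite ι] (b : FreeGroupBasis ι G) {p l : ℕ} (hp : p.Prime)
    (hl : l.Prime) (S : Subgroup G) (hS : ExtP p S) (r : G) (hr : r ∉ S) (hrl : r ^ l ∈ S)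
    (hgen : S ⊔ Subgroup.zpowers r = ⊤) {n : ℕ} (a : S) (g : Fin n → S)
    (h : Dependent (a : G) (fun i => (g i : G))) : Dependent a g := by
  classical
  have hfree : IsFreeGroup G := b.isFreeGroup
  let κ := IsFreeGroup.Generators S
  let bS : FreeGroupBasis κ S := IsFreeGroup.basis S
  obtain ⟨hlp, hfin, hcard, θ, hθ, hθr⟩ := exists_theta b hp hl S bS hS r hr hrl hgen
  have : Fact l.Prime := ⟨hl⟩
  let s : S := ⟨r ^ l, hrl⟩
  -- a prime `q` and `χ`
  obtain ⟨q, hq, χ, hχ⟩ : ∃ q : ℕ, q.Prime ∧ ∃ χ : S →* Multiplicative (ZMod q), χ s ≠ 1 := by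
    by_contra hcon
    apply hθr
    apply rr_comm b θ r
    intro e
    by_contra he
    have he' : Multiplicative.toAdd (e r) ≠ 0 := fun h0 => he (Multiplicative.toAdd.injective h0)
    have h1 : Multiplicative.toAdd (e (s : G)) ≠ 0 := by
      show Multiplicative.toAdd (e (r ^ l)) ≠ 0
      rw [map_pow, toAdd_pow, nsmul_eq_mul]
      exact mul_ne_zero (by exact_mod_cast hl.ne_zero) he'
    obtain ⟨q, hq1, hq⟩ := Nat.exists_infinite_primes
      ((Multiplicative.toAdd (e (s : G))).natAbs + 1)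
    apply hcon
    refine ⟨q, hq, ((AddMonoidHom.toMultiplicative (Int.castAddHom (ZMod q))).comp e).comp
      S.subtype, ?_⟩
    intro h2
    have h3 : ((Multiplicative.toAdd (e (s : G)) : ℤ) : ZMod q) = 0 := by
      have := congrArg Multiplicative.toAdd h2
      exact this
    rw [ZMod.intCast_zmod_eq_zero_iff_dvd] at h3
    have h4 := Int.natAbs_dvd_natAbs.mpr h3
    rw [Int.natAbs_natCast] at h4
    have h5 := Nat.le_of_dvd (Int.natAbs_pos.mpr h1) h4
    omega
  -- generators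
  have hgker : ∀ (j : ℕ) (x : S), r ^ j * (x : G) * (r ^ j)⁻¹ ∈ θ.ker := by
    intro j x
    rw [MonoidHom.mem_ker, map_mul, map_mul, hθ, map_inv, mul_one, mul_inv_cancel]
  let gen : ℕ → S → θ.ker × S := fun j x => (⟨r ^ j * (x : G) * (r ^ j)⁻¹, hgker j x⟩, x)
  let D : Subgroup (θ.ker × S) := Subgroup.closure {y | ∃ j < l, ∃ x : S, y = gen j x}
  have hgD : ∀ j < l, ∀ x : S, gen j x ∈ D := fun j hj x =>
    Subgroup.subset_closure ⟨j, hj, x, rfl⟩
  have hgenmul : ∀ (j : ℕ) (x y : S), gen j (x * y) = gen j x * gen j y := by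
    intro j x y
    apply Prod.ext
    · apply Subtype.ext
      show r ^ j * ((x * y : S) : G) * (r ^ j)⁻¹ =
        (r ^ j * (x : G) * (r ^ j)⁻¹) * (r ^ j * (y : G) * (r ^ j)⁻¹)
      rw [Subgroup.coe_mul]
      group
    · rfl
  let π : D →* θ.ker := (MonoidHom.fst θ.ker S).comp D.subtype
  let f : D →* S := (MonoidHom.snd θ.ker S).comp D.subtype
  -- surjectivity of `π`
  let R : Subgroup G := (D.map (MonoidHom.fst θ.ker S)).map θ.ker.subtype
  have hRgen : ∀ (j : ℕ) (x : S), r ^ j * (x : G) * (r ^ j)⁻¹ ∈ R := by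
    intro j x
    have e : r ^ j * (x : G) * (r ^ j)⁻¹ =
        r ^ (j % l) * ((s ^ (j / l) * x * (s ^ (j / l))⁻¹ : S) : G) * (r ^ (j % l))⁻¹ := by
      have h1 : (r : G) ^ j = r ^ (j % l) * (r ^ l) ^ (j / l) := by
        rw [← pow_mul, ← pow_add, Nat.mod_add_div]
      rw [h1]
      simp only [Subgroup.coe_mul, Subgroup.coe_inv, Subgroup.coe_pow, s]
      group
    rw [e]
    exact ⟨_, ⟨_, hgD (j % l) (Nat.mod_lt _ hl.pos) (s ^ (j / l) * x * (s ^ (j / l))⁻¹), rfl⟩, rfl⟩
  have hRclos : R = Subgroup.closure {y : G | ∃ j : ℕ, ∃ x : S,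
      y = r ^ j * (x : G) * (r ^ j)⁻¹} := by
    apply le_antisymm
    · show (D.map (MonoidHom.fst θ.ker S)).map θ.ker.subtype ≤ _
      rw [Subgroup.map_map, Subgroup.map_le_iff_le_comap]
      show Subgroup.closure _ ≤ _
      rw [Subgroup.closure_le]
      rintro _ ⟨j, _, x, rfl⟩
      exact Subgroup.subset_closure ⟨j, x, rfl⟩
    · rw [Subgroup.closure_le]
      rintro _ ⟨j, x, rfl⟩
      exact hRgen j x
  have hRS : S ≤ R := by
    intro x hx
    have := hRgen 0 ⟨x, hx⟩
    simpa using this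
  have hconj : ∀ y ∈ R, r * y * r⁻¹ ∈ R := by
    intro y hy
    have hle : R ≤ R.comap (MulAut.conj r).toMonoidHom := by
      conv_lhs => rw [hRclos]
      rw [Subgroup.closure_le]
      rintro _ ⟨j, x, rfl⟩
      show r * (r ^ j * (x : G) * (r ^ j)⁻¹) * r⁻¹ ∈ R
      have e : r * (r ^ j * (x : G) * (r ^ j)⁻¹) * r⁻¹ = r ^ (j + 1) * (x : G) * (r ^ (j + 1))⁻¹ := by
        rw [pow_succ' r j]
        group
      rw [e]
      exact hRgen _ _
    exact hle hy
  have hconj' : ∀ y ∈ R, r⁻¹ * y * r ∈ R := by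
    intro y hy
    have h1 : ∀ k : ℕ, ∀ y ∈ R, r ^ k * y * (r ^ k)⁻¹ ∈ R := by
      intro k
      induction k with
      | zero => intro y hy; simpa using hy
      | succ k ih =>
        intro y hy
        have e : r ^ (k + 1) * y * (r ^ (k + 1))⁻¹ = r * (r ^ k * y * (r ^ k)⁻¹) * r⁻¹ := by
          rw [pow_succ' r k]
          group
        rw [e]
        exact hconj _ (ih y hy)
    have hl1 : l = (l - 1) + 1 := by have := hl.pos; omega
    have h2 : (r ^ l)⁻¹ * y * r ^ l ∈ R :=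
      R.mul_mem (R.mul_mem (R.inv_mem (hRS hrl)) hy) (hRS hrl)
    have h3 := h1 (l - 1) _ h2
    have e : r ^ (l - 1) * ((r ^ l)⁻¹ * y * r ^ l) * (r ^ (l - 1))⁻¹ = r⁻¹ * y * r := by
      conv_lhs => rw [show r ^ l = r ^ (l - 1) * r by rw [← pow_succ, ← hl1]]
      group
    rw [e] at h3
    exact h3
  have hRnorm : R.Normal := by
    rw [← Subgroup.normalizer_eq_top_iff, eq_top_iff, ← hgen]
    refine sup_le ?_ ?_
    · exact hRS.trans Subgroup.le_normalizer
    · rw [Subgroup.zpowers_le, Subgroup.mem_normalizer_iff]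
      intro y
      constructor
      · exact hconj y
      · intro hy
        have := hconj' _ hy
        have e : r⁻¹ * (r * y * r⁻¹) * r = y := by group
        rwa [e] at this
  have hRtop : ∀ y : G, ∃ z ∈ R, ∃ k : ℤ, z * r ^ k = y := by
    intro y
    have h1 : y ∈ R ⊔ Subgroup.zpowers r := by
      have : (⊤ : Subgroup G) ≤ R ⊔ Subgroup.zpowers r := by
        rw [← hgen]
        exact sup_le_sup_right hRS _
      exact this (Subgroup.mem_top y)
    rw [Subgroup.mem_sup_of_normal_left] at h1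
    obtain ⟨z, hz, w, ⟨k, rfl⟩, h2⟩ := h1
    exact ⟨z, hz, k, h2⟩
  have hRker : R ≤ θ.ker := by
    rintro _ ⟨y, _, rfl⟩
    exact y.2
  have hord : ∀ k : ℤ, θ r ^ k = 1 → (l : ℤ) ∣ k := by
    intro k hk
    have h1 := congrArg Multiplicative.toAdd hk
    rw [toAdd_zpow, zsmul_eq_mul, toAdd_one, mul_eq_zero] at h1
    rcases h1 with h1 | h1
    · exact (ZMod.intCast_zmod_eq_zero_iff_dvd k l).mp h1
    · exact absurd (Multiplicative.toAdd.injective h1) hθr
  have hkerR : θ.ker ≤ R := by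
    intro y hy
    obtain ⟨z, hz, k, rfl⟩ := hRtop y
    rw [MonoidHom.mem_ker, map_mul, hRker hz, one_mul, map_zpow] at hy
    obtain ⟨m, rfl⟩ := hord k hy
    refine R.mul_mem hz (hRS ?_)
    rw [zpow_mul, zpow_natCast]
    exact S.zpow_mem hrl m
  have hπ : Function.Surjective π := by
    intro y
    obtain ⟨y', ⟨d, hd, hd'⟩, hy'⟩ := hkerR y.2
    refine ⟨⟨d, hd⟩, ?_⟩
    apply Subtype.ext
    have h1 : θ.ker.subtype (MonoidHom.fst θ.ker S d) = (y : G) := by rw [hd', hy']
    exact h1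
  -- factorization
  have hfac : ∀ ψ : D →* Multiplicative (ZMod q), ∃ Ψ : θ.ker →* Multiplicative (ZMod q),
      ψ = Ψ.comp π := by
    intro ψ
    let ψj : (j : ℕ) → j < l → S →* Multiplicative (ZMod q) := fun j hj =>
      { toFun := fun x => ψ ⟨gen j x, hgD j hj x⟩
        map_one' := by
          have : (⟨gen j 1, hgD j hj 1⟩ : D) = 1 := by
            apply Subtype.ext
            apply Prod.ext
            · apply Subtype.ext
              show r ^ j * ((1 : S) : G) * (r ^ j)⁻¹ = 1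
              simp
            · rfl
          rw [this, map_one]
        map_mul' := by
          intro x y
          rw [← map_mul]
          congr 1
          apply Subtype.ext
          exact hgenmul j x y }
    have hψs : ∀ j (hj : j < l), ψj j hj s = ψj 0 hl.pos s := by
      intro j hj
      show ψ ⟨gen j s, _⟩ = ψ ⟨gen 0 s, _⟩
      congr 1
      apply Subtype.ext
      apply Prod.ext
      · apply Subtype.ext
        show r ^ j * (r ^ l) * (r ^ j)⁻¹ = r ^ 0 * (r ^ l) * (r ^ 0)⁻¹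
        rw [← pow_add, add_comm, pow_add]
        simp
      · rfl
    obtain ⟨Ψ, hΨ⟩ := exists_ext b S bS hcard hl hq θ hθ r hθr s rfl hgen χ hχ
      (fun j => if hj : j < l then ψj j hj else ψj 0 hl.pos) (by
        intro j
        by_cases hj : j < l
        · simp only [hj, dif_pos, hl.pos]
          exact hψs j hj
        · simp only [hj, dif_neg, not_false_eq_true, hl.pos, dif_pos])
    refine ⟨Ψ, ?_⟩
    have hmap : ∀ d (hd : d ∈ D), ψ ⟨d, hd⟩ = Ψ (π ⟨d, hd⟩) := by
      intro d hd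
      induction hd using Subgroup.closure_induction with
      | mem d hd =>
        obtain ⟨j, hj, x, rfl⟩ := hd
        have h1 := hΨ j hj x ⟨r ^ j * (x : G) * (r ^ j)⁻¹, hgker j x⟩ rfl
        simp only [hj, dif_pos] at h1
        exact h1.symm
      | one =>
        have : (⟨1, D.one_mem⟩ : D) = 1 := rfl
        show ψ 1 = Ψ (π 1)
        rw [map_one, map_one, map_one]
      | mul x y hx hy ihx ihy =>
        have : (⟨x * y, D.mul_mem hx hy⟩ : D) = ⟨x, hx⟩ * ⟨y, hy⟩ := rfl
        show ψ (⟨x, hx⟩ * ⟨y, hy⟩) = Ψ (π (⟨x, hx⟩ * ⟨y, hy⟩))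
        rw [map_mul, map_mul, map_mul, ihx, ihy]
      | inv x hx ihx =>
        show ψ (⟨x, hx⟩⁻¹) = Ψ (π (⟨x, hx⟩⁻¹))
        rw [map_inv, map_inv, map_inv, ihx]
    ext d : 1
    exact hmap d.1 d.2
  have hfrat : ∀ x : D, π x = 1 → f x = 1 := fun x hx => frattini hq π hπ hfac f x hx
  -- the dependence
  obtain ⟨c, hc⟩ := h
  have hci : ∀ i, ∃ j < l, c i * (r ^ j)⁻¹ ∈ θ.ker := by
    intro i
    obtain ⟨z, hz, k, hk⟩ := hRtop (c i)
    have hl0 : (l : ℤ) ≠ 0 := by exact_mod_cast hl.ne_zero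
    refine ⟨(k % l).toNat, ?_, ?_⟩
    · have h1 := Int.emod_lt_of_pos k (by exact_mod_cast hl.pos : (0 : ℤ) < l)
      have h2 := Int.emod_nonneg k hl0
      omega
    · have h2 := Int.emod_nonneg k hl0
      have e : c i * (r ^ (k % l).toNat)⁻¹ = z * (r ^ l) ^ (k / l) := by
        rw [← hk, ← zpow_natCast r (k % l).toNat, Int.toNat_of_nonneg h2, ← zpow_natCast r l,
          ← zpow_mul, mul_assoc, ← zpow_neg, ← zpow_add]
        congr 2
        have := Int.emod_add_mul_ediv k l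
        linarith
      rw [e]
      exact θ.ker.mul_mem (hRker hz) (hRker (hRS (S.zpow_mem hrl _)))
  choose j hj hfi using hci
  have hdi : ∀ i, ∃ d : D, π d = ⟨c i * (r ^ j i)⁻¹, hfi i⟩ := fun i => hπ _
  choose d hd using hdi
  -- `a` as an element of `D`
  let u : Fin n → D := fun i => d i * ⟨gen (j i) (g i), hgD (j i) (hj i) (g i)⟩ * (d i)⁻¹
  let aD : D := ⟨gen 0 a, hgD 0 hl.pos a⟩
  have h1 : π (aD⁻¹ * (List.ofFn u).prod) = 1 := by
    rw [map_mul, map_inv, inv_mul_eq_one, map_list_prod, List.map_ofFn]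
    apply Subtype.ext
    have e1 : ((π aD : θ.ker) : G) = a := by
      show r ^ 0 * (a : G) * (r ^ 0)⁻¹ = a
      simp
    have e2 : ((List.ofFn (π ∘ u)).prod : θ.ker).1 =
        (List.ofFn (fun i => c i * (g i : G) * (c i)⁻¹)).prod := by
      show θ.ker.subtype _ = _
      rw [map_list_prod, List.map_ofFn]
      congr 2
      funext i
      have h2 : π (u i) = π (d i) * ⟨r ^ (j i) * (g i : G) * (r ^ (j i))⁻¹, hgker (j i) (g i)⟩ *
          (π (d i))⁻¹ := by
        simp only [u, map_mul, map_inv]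
        rfl
      show θ.ker.subtype (π (u i)) = _
      rw [h2, hd i]
      show c i * (r ^ j i)⁻¹ * (r ^ j i * (g i : G) * (r ^ j i)⁻¹) * (c i * (r ^ j i)⁻¹)⁻¹ = _
      group
    rw [e1, e2, hc]
  have h2 := hfrat _ h1
  rw [map_mul, map_inv, inv_mul_eq_one, map_list_prod, List.map_ofFn] at h2
  refine ⟨fun i => f (d i), ?_⟩
  have e3 : f aD = a := rfl
  rw [← e3, h2]
  congr 2

end Pool.Agent.H57.Stall
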