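import Mathlib
import Pool.Agent.H57.Stall.RootReflect

set_option autoImplicit false

namespace Pool.Agent.H57.Stall

open Pool.Agent.H28

private theorem rc_ab (H : Type) [Group H] [IsFreeGroup H] :
    ∃ (κ : Type), Nonempty (Additive (Abelianization H) ≃+ (κ →₀ ℤ)) := by
  refine ⟨IsFreeGroup.Generators H, ⟨?_⟩⟩
  exact (MulEquiv.toAdditive (MulEquiv.abelianizationCongr (IsFreeGroup.toFreeGroup H))).trans
    (FreeAbelianGroup.equivFinsupp (IsFreeGroup.Generators H))

private theorem rc_torsionfree (H : Type) [Group H] [IsFreeGroup H] (x : H) (n : ℕ) (hn : n ≠ 0)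
    (h : (Abelianization.of x) ^ n = 1) : Abelianization.of x = 1 := by
  obtain ⟨κ, ⟨e⟩⟩ := rc_ab H
  have h1 : n • e (Additive.ofMul (Abelianization.of x)) = 0 := by
    rw [← map_nsmul, ← ofMul_pow, h]
    simp
  have h2 : e (Additive.ofMul (Abelianization.of x)) = 0 := by
    ext i
    have h3 := DFunLike.congr_fun h1 i
    simp only [Finsupp.coe_smul, Pi.smul_apply, Finsupp.coe_zero, Pi.zero_apply, nsmul_eq_mul,
      mul_eq_zero, Nat.cast_eq_zero] at h3
    rcases h3 with h3 | h3
    · exact absurd h3 hn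
    · simpa using h3
  have h3 : Additive.ofMul (Abelianization.of x) = 0 := by
    rw [← e.map_zero] at h2
    exact e.injective h2
  exact h3

/-- a nonzero integer vector is `p ^ m` times a vector not divisible by `p`. -/
private theorem rc_div {κ : Type} {p : ℕ} (hp : p.Prime) (v : κ →₀ ℤ) (hv : v ≠ 0) :
    ∃ (m : ℕ) (w : κ →₀ ℤ) (i : κ), v = (p ^ m) • w ∧ ¬ (p : ℤ) ∣ w i := by
  obtain ⟨i0, hi0⟩ : ∃ i, v i ≠ 0 := by
    by_contra hcon
    push Not at hcon
    exact hv (Finsupp.ext hcon)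
  -- induction on the absolute value of `v i0`
  induction hN : (v i0).natAbs using Nat.strong_induction_on generalizing v with
  | _ N ih =>
    by_cases hdiv : ∀ i, (p : ℤ) ∣ v i
    · -- divide
      let w : κ →₀ ℤ := v.mapRange (fun z => z / (p : ℤ)) (by simp)
      have hw : v = p • w := by
        ext i
        simp only [Finsupp.coe_smul, Pi.smul_apply, nsmul_eq_mul, w, Finsupp.mapRange_apply]
        exact (Int.mul_ediv_cancel' (hdiv i)).symm
      have hwi : w i0 ≠ 0 := by
        intro h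
        apply hi0
        rw [hw]
        simp [h]
      have hw0 : w ≠ 0 := by
        intro h
        apply hwi
        rw [h]
        rfl
      have hlt : (w i0).natAbs < N := by
        rw [← hN, hw]
        simp only [Finsupp.coe_smul, Pi.smul_apply, nsmul_eq_mul, Int.natAbs_mul, Int.natAbs_natCast]
        have : 0 < (w i0).natAbs := Int.natAbs_pos.mpr hwi
        nlinarith [hp.two_le]
      obtain ⟨m, w', i, h1, h2⟩ := ih _ hlt w hw0 hwi rfl
      refine ⟨m + 1, w', i, ?_, h2⟩
      rw [hw, h1, smul_smul]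
      congr 1
      ring
    · push Not at hdiv
      obtain ⟨i, hi⟩ := hdiv
      exact ⟨0, v, i, by simp, hi⟩

/-- If all homomorphisms from `S` to `Z_p` extend, then `S ∩ [G, G] = [S, S]`: every homomorphism
from `S` to a group of prime order kills `S ∩ [G, G]`.

Proof.  Let `x ∈ S ∩ [G, G]`.  It is enough that the class of `x` in the free abelian group `S^ab`
is zero.  Otherwise it is `p ^ m` times a class that is not divisible by `p`: there are `x' ∈ S`
with `x = x' ^ (p ^ m) * y`, `y ∈ [S, S]`, and `ψ : S → Z_p` with `ψ x' ≠ 1`.  `ψ` extends to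
`Ψ : G → Z_p`.  In the torsion-free group `G^ab`, `p ^ m [x'] = [x] = 0`, so `[x'] = 0` and
`Ψ x' = 1`, a contradiction. -/
theorem hom_eq_one {G : Type} [Group G] [IsFreeGroup G] {p l : ℕ} (hp : p.Prime)
    (S : Subgroup G) (hS : ExtP p S) (x : S) (hx : (x : G) ∈ commutator G)
    (θ : S →* Multiplicative (ZMod l)) : θ x = 1 := by
  have : Fact p.Prime := ⟨hp⟩
  have key : (Abelianization.of x : Abelianization S) = 1 := by
    by_contra hne
    obtain ⟨κ, ⟨e⟩⟩ := rc_ab S
    have hv : e (Additive.ofMul (Abelianization.of x)) ≠ 0 := by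
      intro h
      apply hne
      rw [← e.map_zero] at h
      exact e.injective h
    obtain ⟨m, w, i, h1, h2⟩ := rc_div hp _ hv
    obtain ⟨x', hx'⟩ : ∃ x' : S, e (Additive.ofMul (Abelianization.of x')) = w := by
      obtain ⟨y, hy⟩ := e.surjective w
      obtain ⟨x', hx'⟩ := QuotientGroup.mk_surjective (Additive.toMul y)
      refine ⟨x', ?_⟩
      rw [← hy]
      congr 1
    -- in the abelianization of S
    have h3 : (Abelianization.of x : Abelianization S) = (Abelianization.of x') ^ (p ^ m) := by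
      have : e (Additive.ofMul (Abelianization.of x)) =
          e (Additive.ofMul ((Abelianization.of x') ^ (p ^ m))) := by
        rw [ofMul_pow, map_nsmul, hx', h1]
      exact e.injective this
    -- the homomorphism psi
    let ψ : S →* Multiplicative (ZMod p) :=
      { toFun := fun y => Multiplicative.ofAdd
          ((e (Additive.ofMul (Abelianization.of y)) i : ℤ) : ZMod p)
        map_one' := by simp
        map_mul' := by
          intro a b
          rw [← ofAdd_add]
          congr 1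
          rw [map_mul, ofMul_mul, map_add]
          simp }
    have hψ : ψ x' ≠ 1 := by
      intro h
      have h4 : ((e (Additive.ofMul (Abelianization.of x')) i : ℤ) : ZMod p) = 0 := h
      rw [hx', ZMod.intCast_zmod_eq_zero_iff_dvd] at h4
      exact h2 h4
    obtain ⟨Ψ, hΨ⟩ := hS ψ
    have h5 : (Abelianization.of ((x' : S) : G)) ^ (p ^ m) = 1 := by
      have h6 := congrArg (Abelianization.map S.subtype) h3
      rw [map_pow, Abelianization.map_of, Abelianization.map_of] at h6
      rw [Subgroup.coe_subtype] at h6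
      rw [← h6]
      rw [← MonoidHom.mem_ker, Abelianization.ker_of]
      exact hx
    have h6 : Abelianization.of ((x' : S) : G) = 1 :=
      rc_torsionfree G _ (p ^ m) (pow_ne_zero _ hp.ne_zero) h5
    have h7 : Ψ x' = 1 := by
      have : Ψ x' = Abelianization.lift Ψ (Abelianization.of ((x' : S) : G)) := by
        rw [Abelianization.lift_apply_of]
      rw [this, h6, map_one]
    exact hψ (by rw [← hΨ, h7])
  have : θ x = Abelianization.lift θ (Abelianization.of x) := by
    rw [Abelianization.lift_apply_of]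
  rw [this, key, map_one]

private theorem rc_extP_sub {G : Type} [Group G] {p : ℕ} (S S' : Subgroup G) (hle : S ≤ S')
    (h : ExtP p S) : ExtP p (S.subgroupOf S') := by
  intro ψ
  let e := Subgroup.subgroupOfEquivOfLe hle
  obtain ⟨Ψ, hΨ⟩ := h (ψ.comp e.symm.toMonoidHom)
  refine ⟨Ψ.comp S'.subtype, ?_⟩
  intro s
  have h1 := hΨ (e s)
  have h2 : (ψ.comp e.symm.toMonoidHom) (e s) = ψ s := by
    show ψ (e.symm (e s)) = ψ s
    rw [MulEquiv.symm_apply_apply]
  rw [h2] at h1
  rw [← h1]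
  rfl

private theorem rc_gen {G : Type} [Group G] (S : Subgroup G) (r : G) (S' : Subgroup G)
    (hS' : S' = S ⊔ Subgroup.zpowers r) (hr : r ∈ S') :
    S.subgroupOf S' ⊔ Subgroup.zpowers (⟨r, hr⟩ : S') = ⊤ := by
  apply Subgroup.map_injective S'.subtype_injective
  rw [Subgroup.map_sup, Subgroup.subgroupOf_map_subtype, MonoidHom.map_zpowers]
  have h1 : (⊤ : Subgroup S').map S'.subtype = S' := by
    rw [← MonoidHom.range_eq_map, Subgroup.range_subtype]
  rw [h1]
  have h2 : S ⊓ S' = S := by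
    rw [inf_eq_left, hS']
    exact le_sup_left
  rw [h2]
  exact hS'.symm

/-- The step: if `S` is not malnormal, it can be enlarged.

Proof.  `f ∉ S`, `s ∈ S`, `s ≠ 1`, `f * s * f⁻¹ ∈ S`.  `H28.conj_case`: there is `s₁ ∈ S` with
`f * s * f⁻¹ = s₁ * s * s₁⁻¹`; `t = s₁⁻¹ * f` commutes with `s` and `t ∉ S`.  `commute_zpow`:
`s = z ^ i`, `t = z ^ j`; `i ≠ 0`.  Let `N > 0` be minimal with `z ^ N ∈ S` (`N` divides `i`);
`N > 1` because `z ∉ S`; let `l` be a prime divisor of `N`, `r = z ^ (N / l)`: `r ∉ S`,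
`r ^ l ∈ S`.  Put `S' = S ⊔ zpowers r`.  Apply `exists_theta` and `root_reflect` to the subgroup
`S.subgroupOf S'` of `S'` (`S'` is free; it has a finite basis by `finite_of_extP`: first show
`ExtP p S'`, as follows).  `ExtP p S'`: for `ψ : S' → Z_p` extend the restriction to `S` to
`Ψ : G → Z_p`; `(Ψ r) ^ l = (ψ r) ^ l` and `l ≠ p` (`root_mem`), so `Ψ r = ψ r`.
`UniqP p S'` is clear.  The images of `S` and `S'` in `G^ab` are different: otherwise
`r = s₂ * c` with `s₂ ∈ S`, `c ∈ [G, G]`, so `x = s₂⁻¹ * r ∈ S' ∩ [G, G]` and `θ x = 1` by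
`hom_eq_one`, but `θ x = θ r ≠ 1`. -/
theorem close_step {k p : ℕ} (hp : p.Prime) (S : Subgroup (FreeGroup (Fin k)))
    (h1 : ExtP p S) (h2 : UniqP p S)
    (h3 : ¬ ∀ f, f ∉ S → ∀ s, s ∈ S → f * s * f⁻¹ ∈ S → s = 1) :
    ∃ S' : Subgroup (FreeGroup (Fin k)), ∃ hle : S ≤ S', ExtP p S' ∧ UniqP p S' ∧
      S.map Abelianization.of < S'.map Abelianization.of ∧
      ∀ (n : ℕ) (a : S) (g : Fin n → S),
        Dependent (Subgroup.inclusion hle a) (fun i => Subgroup.inclusion hle (g i)) →
        Dependent a g := by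
  classical
  have hfree : IsFreeGroup (FreeGroup (Fin k)) := inferInstance
  push Not at h3
  obtain ⟨f, hf, s, hs, hfs, hs1⟩ := h3
  obtain ⟨s₁, hs₁⟩ := conj_case hp S h1 ⟨f * s * f⁻¹, hfs⟩ ⟨s, hs⟩ f rfl
  have hs₁' : f * s * f⁻¹ = s₁ * s * (s₁ : FreeGroup (Fin k))⁻¹ := congrArg Subtype.val hs₁
  set t : FreeGroup (Fin k) := (s₁ : FreeGroup (Fin k))⁻¹ * f with ht
  have htS : t ∉ S := by
    intro h
    apply hf
    have : f = s₁ * t := by rw [ht]; group
    rw [this]
    exact S.mul_mem s₁.2 h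
  have hcomm : s * t = t * s := by
    have h4 : t * s * t⁻¹ = s := by
      have : t * s * t⁻¹ = (s₁ : FreeGroup (Fin k))⁻¹ * (f * s * f⁻¹) * s₁ := by
        rw [ht]; group
      rw [this, hs₁']; group
    calc s * t = (t * s * t⁻¹) * t := by rw [h4]
      _ = t * s := by group
  obtain ⟨z, i, j, hi, hj⟩ := commute_zpow hcomm
  have hi0 : i ≠ 0 := by
    rintro rfl
    apply hs1
    rw [hi, zpow_zero]
  have hzS : z ∉ S := by
    intro h
    apply htS
    rw [hj]
    exact S.zpow_mem h j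
  have hex : ∃ N : ℕ, 0 < N ∧ z ^ N ∈ S := by
    refine ⟨i.natAbs, Int.natAbs_pos.mpr hi0, ?_⟩
    rcases Int.natAbs_eq i with h | h
    · have : z ^ i.natAbs = z ^ i := by
        conv_rhs => rw [h]
        rw [zpow_natCast]
      rw [this, ← hi]; exact hs
    · have : z ^ i.natAbs = (z ^ i)⁻¹ := by
        conv_rhs => rw [h]
        rw [zpow_neg, zpow_natCast, inv_inv]
      rw [this, ← hi]; exact S.inv_mem hs
  set N := Nat.find hex with hN
  obtain ⟨hN0, hNS⟩ := Nat.find_spec hex
  have hNmin : ∀ M, 0 < M → M < N → z ^ M ∉ S := by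
    intro M hM hMN hMS
    exact Nat.find_min hex hMN ⟨hM, hMS⟩
  have hN1 : N ≠ 1 := by
    intro h
    apply hzS
    have : z ^ N ∈ S := hNS
    rwa [h, pow_one] at this
  obtain ⟨l, hl, hlN⟩ := Nat.exists_prime_and_dvd hN1
  set r := z ^ (N / l) with hr
  have hNl : 0 < N / l := Nat.div_pos (Nat.le_of_dvd hN0 hlN) hl.pos
  have hrS : r ∉ S := hNmin _ hNl (Nat.div_lt_self hN0 hl.one_lt)
  have hrl : r ^ l ∈ S := by
    rw [hr, ← pow_mul, Nat.div_mul_cancel hlN]
    exact hNS
  have hlp : l ≠ p := by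
    rintro rfl
    exact hrS (root_mem hl S h1 r hrl)
  set S' : Subgroup (FreeGroup (Fin k)) := S ⊔ Subgroup.zpowers r with hS'
  have hle : S ≤ S' := le_sup_left
  have hrS' : r ∈ S' := (le_sup_right : Subgroup.zpowers r ≤ S') (Subgroup.mem_zpowers r)
  have hgen := rc_gen S r S' hS' hrS'
  have hfree' : IsFreeGroup S' := inferInstance
  have hE' : ExtP p S' := by
    intro ψ
    obtain ⟨Ψ, hΨ⟩ := h1 (ψ.comp (Subgroup.inclusion hle))
    refine ⟨Ψ, ?_⟩
    have heq : S.subgroupOf S' ⊔ Subgroup.zpowers (⟨r, hrS'⟩ : S') ≤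
        MonoidHom.eqLocus (Ψ.comp S'.subtype) ψ := by
      refine sup_le ?_ ?_
      · intro x hx
        rw [Subgroup.mem_subgroupOf] at hx
        exact hΨ ⟨x, hx⟩
      · rw [Subgroup.zpowers_le]
        show Ψ r = ψ ⟨r, hrS'⟩
        -- l-th powers agree
        have h4 : (Ψ r) ^ l = (ψ ⟨r, hrS'⟩) ^ l := by
          rw [← map_pow, ← map_pow]
          exact hΨ ⟨r ^ l, hrl⟩
        have h5 : ∀ y : Multiplicative (ZMod p), y ^ l = 1 → y = 1 := by
          intro y hy
          have : Fact p.Prime := ⟨hp⟩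
          have h6 : l • (Multiplicative.toAdd y) = 0 := hy
          rw [nsmul_eq_mul, mul_eq_zero] at h6
          rcases h6 with h6 | h6
          · exfalso
            rw [ZMod.natCast_eq_zero_iff] at h6
            exact hlp ((Nat.prime_dvd_prime_iff_eq hp hl).mp h6).symm
          · exact h6
        have h7 : (Ψ r * (ψ ⟨r, hrS'⟩)⁻¹) ^ l = 1 := by
          rw [mul_pow, inv_pow, h4, mul_inv_cancel]
        exact mul_inv_eq_one.mp (h5 _ h7)
    intro x
    have hx : x ∈ S.subgroupOf S' ⊔ Subgroup.zpowers (⟨r, hrS'⟩ : S') := by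
      rw [hgen]; trivial
    exact heq hx
  have hU' : UniqP p S' := by
    intro Ψ hΨ
    exact h2 Ψ fun s => hΨ ⟨s, hle s.2⟩
  -- bases
  let b0 : FreeGroupBasis (Fin k) (FreeGroup (Fin k)) := FreeGroupBasis.ofFreeGroup (Fin k)
  let bS' := IsFreeGroup.basis S'
  have hfin := (finite_of_extP b0 S' bS' hp hE').1
  let S0 : Subgroup S' := S.subgroupOf S'
  have hfree0 : IsFreeGroup S0 := inferInstance
  let bS0 := IsFreeGroup.basis S0
  have hE0 : ExtP p S0 := rc_extP_sub S S' hle h1
  have hr0 : (⟨r, hrS'⟩ : S') ∉ S0 := by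
    intro h
    rw [Subgroup.mem_subgroupOf] at h
    exact hrS h
  have hrl0 : (⟨r, hrS'⟩ : S') ^ l ∈ S0 := by
    rw [Subgroup.mem_subgroupOf]
    exact hrl
  obtain ⟨_, _, _, θ, hθ, hθr⟩ := exists_theta bS' hp hl S0 bS0 hE0 ⟨r, hrS'⟩ hr0 hrl0 hgen
  refine ⟨S', hle, hE', hU', ?_, ?_⟩
  · refine lt_of_le_of_ne (Subgroup.map_mono hle) ?_
    intro heq
    have h4 : Abelianization.of r ∈ S.map Abelianization.of := by
      rw [heq]
      exact Subgroup.mem_map_of_mem _ hrS'
    obtain ⟨s₂, hs₂, hs₂'⟩ := h4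
    have h5 : (⟨s₂, hle hs₂⟩ : S')⁻¹ * ⟨r, hrS'⟩ ∈ (⊤ : Subgroup S') := trivial
    have h6 : (((⟨s₂, hle hs₂⟩ : S')⁻¹ * ⟨r, hrS'⟩ : S') : FreeGroup (Fin k)) ∈
        commutator (FreeGroup (Fin k)) := by
      rw [← Abelianization.ker_of, MonoidHom.mem_ker]
      show Abelianization.of (s₂⁻¹ * r) = 1
      rw [map_mul, map_inv, hs₂', inv_mul_cancel]
    have h7 := hom_eq_one hp S' hE' _ h6 θ
    rw [map_mul, map_inv] at h7
    have h8 : θ ⟨s₂, hle hs₂⟩ = 1 := hθ ⟨⟨s₂, hle hs₂⟩, by rw [Subgroup.mem_subgroupOf]; exact hs₂⟩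
    rw [h8, inv_one, one_mul] at h7
    exact hθr h7
  · intro n a g hdep
    let e := Subgroup.subgroupOfEquivOfLe hle
    have h4 := root_reflect bS' hp hl S0 hE0 ⟨r, hrS'⟩ hr0 hrl0 hgen (e.symm a)
      (fun i => e.symm (g i)) hdep
    have h5 := Dependent.map e.toMonoidHom h4
    simpa using h5

/-- Reduction to malnormal subgroups.  (Well-founded induction: the abelianization of
`FreeGroup (Fin k)` is a finitely generated abelian group, so its subgroups satisfy the ascending
chain condition.) -/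
theorem exists_malnormal {k p : ℕ} (hp : p.Prime) (S : Subgroup (FreeGroup (Fin k)))
    (h1 : ExtP p S) (h2 : UniqP p S) :
    ∃ S' : Subgroup (FreeGroup (Fin k)), ∃ hle : S ≤ S', ExtP p S' ∧ UniqP p S' ∧
      (∀ f, f ∉ S' → ∀ s, s ∈ S' → f * s * f⁻¹ ∈ S' → s = 1) ∧
      ∀ (n : ℕ) (a : S) (g : Fin n → S),
        Dependent (Subgroup.inclusion hle a) (fun i => Subgroup.inclusion hle (g i)) →
        Dependent a g := by
  have hfin : Module.Finite ℤ (FreeAbelianGroup (Fin k)) :=
    Module.Finite.equiv (FreeAbelianGroup.equivFinsupp (Fin k)).toIntLinearEquiv.symm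
  have hnoeth : IsNoetherian ℤ (FreeAbelianGroup (Fin k)) := inferInstance
  have hwf : WellFoundedGT (Submodule ℤ (FreeAbelianGroup (Fin k))) := inferInstance
  let μ : Subgroup (FreeGroup (Fin k)) → Submodule ℤ (FreeAbelianGroup (Fin k)) := fun S =>
    AddSubgroup.toIntSubmodule (Subgroup.toAddSubgroup (S.map Abelianization.of))
  induction hS : μ S using WellFoundedGT.induction generalizing S with
  | _ M ih =>
    by_cases h3 : ∀ f, f ∉ S → ∀ s, s ∈ S → f * s * f⁻¹ ∈ S → s = 1
    · refine ⟨S, le_refl S, h1, h2, h3, ?_⟩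
      intro n a g h
      exact h
    · obtain ⟨S₁, hle, hE, hU, hlt, hdep⟩ := close_step hp S h1 h2 h3
      have hlt' : M < μ S₁ := by
        rw [← hS]
        exact (OrderIso.lt_iff_lt (AddSubgroup.toIntSubmodule)).mpr
          ((OrderIso.lt_iff_lt (Subgroup.toAddSubgroup)).mpr hlt)
      obtain ⟨S', hle', hE', hU', hm, hdep'⟩ := ih (μ S₁) hlt' S₁ hE hU rfl
      refine ⟨S', hle.trans hle', hE', hU', hm, ?_⟩
      intro n a g h
      refine hdep n a g (hdep' n _ _ ?_)
      exact h

end Pool.Agent.H57.Stall
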