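import Mathlib
import Pool.Agent.H28.Split
import Pool.Agent.H57.Stall.CoreInd
import Pool.Agent.H57.Stall.RootClose

set_option autoImplicit false

namespace Pool.Agent.H57.Stall

open Pool.Agent.H28

/-- The theorem for subgroups of free groups of finite rank with bijective `H_1`. -/
theorem restrInd {p : ℕ} (hp : p.Prime) (n k : ℕ) : RestrInd p n (FreeGroup (Fin k)) := by
  intro S h1 h2 a g hind hdep
  obtain ⟨S', hle, h1', _, hmal, hrefl⟩ := exists_malnormal hp S h1 h2
  exact hrefl n a g (indep_of_malnormal hp S' h1' hmal (Subgroup.inclusion hle a)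
    (fun i => Subgroup.inclusion hle (g i)) hind hdep)

/-- The theorem for all free groups and all subgroups with injective `H_1`. -/
theorem strong_ind {F : Type} [Group F] [IsFreeGroup F] {p n : ℕ} (hp : p.Prime)
    (S : Subgroup F) (hS : ExtP p S) (a : S) (g : Fin n → S) (hind : Indep fun i => (g i : F))
    (hdep : Dependent (a : F) (fun i => (g i : F))) : Dependent a g :=
  core_ind hp (fun k _ => restrInd hp n k) S hS a g hind hdep

/-- `n` elements of the free group of rank `n` whose classes generate `H_1` modulo `p` are
independent. -/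
theorem indep_of_gen {p n : ℕ} (hp : p.Prime) (g : Fin n → FreeGroup (Fin n))
    (hgen : ∀ ψ : FreeGroup (Fin n) →* Multiplicative (ZMod p), (∀ i, ψ (g i) = 1) → ψ = 1) :
    Indep g := by
  have : Fact p.Prime := ⟨hp⟩
  intro c hc
  -- the matrix of exponents
  let A : Matrix (Fin n) (Fin n) ℤ := fun i j =>
    (FreeGroup.lift (fun k => Multiplicative.ofAdd (if k = j then (1 : ℤ) else 0)) (g i)).toAdd
  have hA : ∀ {R : Type} [CommRing R] (t : Fin n → R) (x : FreeGroup (Fin n)),
      (FreeGroup.lift (fun k => Multiplicative.ofAdd (t k)) x).toAdd =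
        ∑ j, ((FreeGroup.lift (fun k => Multiplicative.ofAdd
          (if k = j then (1 : ℤ) else 0)) x).toAdd : R) * t j := by
    intro R _ t x
    induction x using FreeGroup.induction_on with
    | C1 => simp
    | of x => simp
    | inv_of x _ => simp
    | mul x y hx hy =>
      rw [map_mul, toAdd_mul, hx, hy, ← Finset.sum_add_distrib]
      apply Finset.sum_congr rfl
      intro j _
      rw [map_mul, toAdd_mul]
      push_cast
      ring
  have hdet : A.det ≠ 0 := by
    intro h0
    have h1 : (A.map (Int.castRingHom (ZMod p))).det = 0 := by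
      rw [← RingHom.mapMatrix_apply, ← RingHom.map_det, h0, map_zero]
    obtain ⟨t, ht0, ht⟩ := Matrix.exists_mulVec_eq_zero_iff.2 h1
    apply ht0
    have h2 : (FreeGroup.lift (fun k => Multiplicative.ofAdd (t k))) = 1 := by
      apply hgen
      intro i
      apply Multiplicative.toAdd.injective
      rw [hA t (g i), toAdd_one]
      exact congrFun ht i
    funext k
    have h3 := DFunLike.congr_fun h2 (FreeGroup.of k)
    simpa using congrArg Multiplicative.toAdd h3
  have hdet' : (A.map (Int.castRingHom ℚ)).det ≠ 0 := by
    rw [← RingHom.mapMatrix_apply, ← RingHom.map_det]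
    simpa using hdet
  have h4 : Matrix.vecMul c (A.map (Int.castRingHom ℚ)) = 0 := by
    funext j
    have h5 := hc (FreeGroup.lift (fun k => Multiplicative.ofAdd (if k = j then (1 : ℚ) else 0)))
    rw [Pi.zero_apply, ← h5]
    show ∑ i, c i * _ = _
    apply Finset.sum_congr rfl
    intro i _
    congr 1
    rw [hA (fun k => if k = j then (1 : ℚ) else 0) (g i)]
    simp only [mul_ite, mul_one, mul_zero, Finset.sum_ite_eq', Finset.mem_univ, if_true]
    rfl
  have h6 := Matrix.eq_zero_of_vecMul_eq_zero hdet' h4
  intro i
  rw [h6]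
  rfl

/-- An element of a free group killed by all homomorphisms to `ℚ` is trivial in the
abelianization. -/
theorem of_eq_one_of_hom {F : Type} [Group F] [IsFreeGroup F] (x : F)
    (hx : ∀ χ : F →* Multiplicative ℚ, χ x = 1) : Abelianization.of x = 1 := by
  let e : Additive (Abelianization F) ≃+ (IsFreeGroup.Generators F →₀ ℤ) :=
    (MulEquiv.toAdditive (MulEquiv.abelianizationCongr (IsFreeGroup.toFreeGroup F))).trans
    (FreeAbelianGroup.equivFinsupp (IsFreeGroup.Generators F))
  have h1 : e (Additive.ofMul (Abelianization.of x)) = 0 := by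
    ext i
    let χ : F →* Multiplicative ℚ :=
      { toFun := fun y => Multiplicative.ofAdd
          ((e (Additive.ofMul (Abelianization.of y)) i : ℤ) : ℚ)
        map_one' := by simp
        map_mul' := by
          intro a b
          rw [← ofAdd_add]
          congr 1
          rw [map_mul, ofMul_mul, map_add]
          simp }
    have h2 : Multiplicative.ofAdd
        ((e (Additive.ofMul (Abelianization.of x)) i : ℤ) : ℚ) = 1 := hx χ
    have h3 : ((e (Additive.ofMul (Abelianization.of x)) i : ℤ) : ℚ) = 0 := h2
    simpa using h3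
  have h2 : Additive.ofMul (Abelianization.of x) = 0 := by
    rw [← e.map_zero] at h1
    exact e.injective h1
  exact h2

/-- Integral independence in `F^ab` gives independence. -/
theorem indep_of_linearIndependent {F : Type} [Group F] [IsFreeGroup F] {n : ℕ} (g : Fin n → F)
    (h : LinearIndependent ℤ fun i => Additive.ofMul (Abelianization.of (g i))) : Indep g := by
  intro c hc
  -- clear denominators
  obtain ⟨d, hd, m, hm⟩ : ∃ d : ℕ, d ≠ 0 ∧ ∃ m : Fin n → ℤ, ∀ i, (d : ℚ) * c i = m i := by
    refine ⟨∏ i, (c i).den, ?_, fun i => (c i).num * ∏ j ∈ Finset.univ.erase i, ((c j).den : ℤ),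
      ?_⟩
    · exact Finset.prod_ne_zero_iff.2 fun i _ => (c i).den_ne_zero
    · intro i
      rw [← Finset.mul_prod_erase Finset.univ _ (Finset.mem_univ i)]
      push_cast
      have h1 : ((c i).den : ℚ) * c i = (c i).num := by
        rw [mul_comm]
        exact Rat.mul_den_eq_num (c i)
      calc ((c i).den : ℚ) * (∏ j ∈ Finset.univ.erase i, ((c j).den : ℚ)) * c i
          = (((c i).den : ℚ) * c i) * ∏ j ∈ Finset.univ.erase i, ((c j).den : ℚ) := by ring
        _ = _ := by rw [h1]
  have h1 : ∑ i, m i • Additive.ofMul (Abelianization.of (g i)) = 0 := by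
    have h2 : Abelianization.of ((List.ofFn fun i => g i ^ m i).prod) = 1 := by
      apply of_eq_one_of_hom
      intro χ
      rw [map_list_prod, List.map_ofFn, List.prod_ofFn]
      apply Multiplicative.toAdd.injective
      rw [toAdd_prod, toAdd_one]
      have h3 := hc χ
      have h4 : (d : ℚ) * ∑ i, c i * (χ (g i)).toAdd = 0 := by rw [h3, mul_zero]
      rw [Finset.mul_sum] at h4
      rw [← h4]
      apply Finset.sum_congr rfl
      intro i _
      rw [← mul_assoc, hm]
      simp
    rw [map_list_prod, List.map_ofFn, List.prod_ofFn] at h2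
    have h3 := congrArg Additive.ofMul h2
    rw [ofMul_prod, ofMul_one] at h3
    rw [← h3]
    apply Finset.sum_congr rfl
    intro i _
    simp
  intro i
  have h2 := Fintype.linearIndependent_iff.1 h m h1 i
  have h3 := hm i
  rw [h2, Int.cast_zero, mul_eq_zero] at h3
  rcases h3 with h3 | h3
  · exact absurd (by exact_mod_cast h3) hd
  · exact h3

end Pool.Agent.H57.Stall
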